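import Mathlib

/-!
# Automorphisms of free groups: the elementary automorphisms and their conjugation rules

`kill i` deletes the generator `x_i`; `O i` is the subgroup of the words without `x_i`.
`tv i u v : x_i ↦ u⁻¹ x_i v` (all occurrences of `x_i` in `u`, `v` deleted), other generators fixed.
`R i v : x_i ↦ x_i v`, `L i u : x_i ↦ u⁻¹ x_i`, `C i w : x_i ↦ w⁻¹ x_i w` are homomorphisms
`FreeGroup (Fin n) →* MulAut (FreeGroup (Fin n))`.
Products of automorphisms are compositions: `(φ * ψ) x = φ (ψ x)`.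
-/

set_option autoImplicit false

namespace Pool.Agent.CSP3

open scoped commutatorElement

variable {n : ℕ}

abbrev F (n : ℕ) := FreeGroup (Fin n)
abbrev A (n : ℕ) := MulAut (FreeGroup (Fin n))

/-- the generator `x_i` -/
abbrev x (i : Fin n) : F n := FreeGroup.of i

/-- delete the generator `i` -/
def kill (i : Fin n) : F n →* F n := FreeGroup.lift (fun j => if j = i then 1 else FreeGroup.of j)

@[simp] theorem kill_self (i : Fin n) : kill i (x i) = 1 := by simp [kill]

theorem kill_ne {i j : Fin n} (h : j ≠ i) : kill i (x j) = x j := by simp [kill, h]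

theorem kill_comm (i j : Fin n) (w : F n) : kill i (kill j w) = kill j (kill i w) := by
  have : (kill i).comp (kill j) = (kill j).comp (kill i) := by
    refine FreeGroup.ext_hom _ _ fun k => ?_
    show kill i (kill j (x k)) = kill j (kill i (x k))
    by_cases hi : k = i
    · subst hi
      by_cases hj : k = j
      · subst hj; rfl
      · rw [kill_ne hj, kill_self, map_one]
    · by_cases hj : k = j
      · subst hj
        rw [kill_ne hi, kill_self, map_one]
      · rw [kill_ne hj, kill_ne hi, kill_ne hj]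
  exact DFunLike.congr_fun this w

@[simp] theorem kill_kill (i : Fin n) (w : F n) : kill i (kill i w) = kill i w := by
  have : (kill i).comp (kill i) = kill i := by
    refine FreeGroup.ext_hom _ _ fun k => ?_
    show kill i (kill i (x k)) = kill i (x k)
    by_cases hi : k = i
    · subst hi; rw [kill_self, map_one]
    · rw [kill_ne hi, kill_ne hi]
  exact DFunLike.congr_fun this w

/-- the subgroup of the words without `x_i` -/
def O (i : Fin n) : Subgroup (F n) where
  carrier := {w | kill i w = w}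
  one_mem' := map_one _
  mul_mem' := by
    intro a b ha hb
    show kill i (a * b) = a * b
    rw [map_mul, show kill i a = a from ha, show kill i b = b from hb]
  inv_mem' := by
    intro a ha
    show kill i a⁻¹ = a⁻¹
    rw [map_inv, show kill i a = a from ha]

theorem mem_O {i : Fin n} {w : F n} : w ∈ O i ↔ kill i w = w := Iff.rfl

theorem kill_of_mem {i : Fin n} {w : F n} (h : w ∈ O i) : kill i w = w := h

theorem x_mem_O {i j : Fin n} (h : j ≠ i) : x j ∈ O i := kill_ne h

theorem kill_mem (i : Fin n) (w : F n) : kill i w ∈ O i := kill_kill i w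

theorem kill_mem_of_mem {i : Fin n} (j : Fin n) {w : F n} (h : w ∈ O i) : kill j w ∈ O i := by
  rw [mem_O, kill_comm, kill_of_mem h]

theorem comm_mem_O {i : Fin n} {u v : F n} (hu : u ∈ O i) (hv : v ∈ O i) : ⁅u, v⁆ ∈ O i :=
  (O i).mul_mem ((O i).mul_mem ((O i).mul_mem hu hv) ((O i).inv_mem hu)) ((O i).inv_mem hv)

/-- the endomorphism `x_i ↦ u⁻¹ x_i v` -/
def tvH (i : Fin n) (u v : F n) : F n →* F n :=
  FreeGroup.lift (fun j => if j = i then (kill i u)⁻¹ * FreeGroup.of i * kill i v else FreeGroup.of j)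

theorem tvH_self (i : Fin n) (u v : F n) : tvH i u v (x i) = (kill i u)⁻¹ * x i * kill i v := by
  simp [tvH]

theorem tvH_ne {i j : Fin n} (h : j ≠ i) (u v : F n) : tvH i u v (x j) = x j := by
  simp [tvH, h]

theorem tvH_kill (i : Fin n) (u v w : F n) : tvH i u v (kill i w) = kill i w := by
  have : (tvH i u v).comp (kill i) = kill i := by
    refine FreeGroup.ext_hom _ _ fun k => ?_
    show tvH i u v (kill i (x k)) = kill i (x k)
    by_cases hi : k = i
    · subst hi; rw [kill_self, map_one]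
    · rw [kill_ne hi, tvH_ne hi]
  exact DFunLike.congr_fun this w

theorem tvH_comp (i : Fin n) (u v u' v' w : F n) :
    tvH i u v (tvH i u' v' w) = tvH i (u * u') (v * v') w := by
  have : (tvH i u v).comp (tvH i u' v') = tvH i (u * u') (v * v') := by
    refine FreeGroup.ext_hom _ _ fun k => ?_
    show tvH i u v (tvH i u' v' (x k)) = tvH i (u * u') (v * v') (x k)
    by_cases hi : k = i
    · subst hi
      rw [tvH_self, map_mul, map_mul, map_inv, tvH_kill, tvH_kill, tvH_self, tvH_self, map_mul,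
        map_mul]
      group
    · rw [tvH_ne hi, tvH_ne hi, tvH_ne hi]
  exact DFunLike.congr_fun this w

theorem tvH_one (i : Fin n) (w : F n) : tvH i 1 1 w = w := by
  have : tvH i (1 : F n) 1 = MonoidHom.id _ := by
    refine FreeGroup.ext_hom _ _ fun k => ?_
    show tvH i 1 1 (x k) = x k
    by_cases hi : k = i
    · subst hi; rw [tvH_self]; simp
    · rw [tvH_ne hi]
  exact DFunLike.congr_fun this w

/-- the automorphism `x_i ↦ u⁻¹ x_i v` -/
def tv (i : Fin n) (u v : F n) : A n where
  toFun := tvH i u v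
  invFun := tvH i u⁻¹ v⁻¹
  left_inv w := by rw [tvH_comp, inv_mul_cancel, inv_mul_cancel, tvH_one]
  right_inv w := by rw [tvH_comp, mul_inv_cancel, mul_inv_cancel, tvH_one]
  map_mul' := map_mul _

theorem tv_apply (i : Fin n) (u v w : F n) : tv i u v w = tvH i u v w := rfl

theorem tv_self (i : Fin n) (u v : F n) : tv i u v (x i) = (kill i u)⁻¹ * x i * kill i v :=
  tvH_self i u v

theorem tv_ne {i j : Fin n} (h : j ≠ i) (u v : F n) : tv i u v (x j) = x j := tvH_ne h u v

theorem tv_kill (i : Fin n) (u v w : F n) : tv i u v (kill i w) = kill i w := tvH_kill i u v w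

theorem tv_of_mem {i : Fin n} {w : F n} (h : w ∈ O i) (u v : F n) : tv i u v w = w := by
  conv_lhs => rw [← kill_of_mem h, tv_kill, kill_of_mem h]

theorem A_ext {φ ψ : A n} (h : ∀ j, φ (x j) = ψ (x j)) : φ = ψ := by
  have : φ.toMonoidHom = ψ.toMonoidHom := FreeGroup.ext_hom _ _ h
  ext w
  exact DFunLike.congr_fun this w

theorem tv_mul (i : Fin n) (u v u' v' : F n) :
    tv i (u * u') (v * v') = tv i u v * tv i u' v' := by
  ext w
  exact (tvH_comp i u v u' v' w).symm

theorem tv_one (i : Fin n) : tv i (1 : F n) 1 = 1 := by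
  ext w
  exact tvH_one i w

theorem tv_inv (i : Fin n) (u v : F n) : (tv i u v)⁻¹ = tv i u⁻¹ v⁻¹ := by
  rw [inv_eq_iff_mul_eq_one, ← tv_mul, mul_inv_cancel, mul_inv_cancel, tv_one]

theorem tv_congr {i : Fin n} {u v u' v' : F n} (hu : kill i u = kill i u')
    (hv : kill i v = kill i v') : tv i u v = tv i u' v' := by
  refine A_ext fun k => ?_
  by_cases hk : k = i
  · subst hk; rw [tv_self, tv_self, hu, hv]
  · rw [tv_ne hk, tv_ne hk]

/-- `R i v : x_i ↦ x_i v` -/
def R (i : Fin n) : F n →* A n where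
  toFun v := tv i 1 v
  map_one' := tv_one i
  map_mul' v v' := by rw [← tv_mul, mul_one]

/-- `L i u : x_i ↦ u⁻¹ x_i` -/
def L (i : Fin n) : F n →* A n where
  toFun u := tv i u 1
  map_one' := tv_one i
  map_mul' v v' := by rw [← tv_mul, mul_one]

/-- `C i w : x_i ↦ w⁻¹ x_i w` -/
def C (i : Fin n) : F n →* A n where
  toFun w := tv i w w
  map_one' := tv_one i
  map_mul' v v' := by rw [← tv_mul]

theorem R_def (i : Fin n) (v : F n) : R i v = tv i 1 v := rfl
theorem L_def (i : Fin n) (v : F n) : L i v = tv i v 1 := rfl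
theorem C_def (i : Fin n) (v : F n) : C i v = tv i v v := rfl

theorem C_eq (i : Fin n) (w : F n) : C i w = L i w * R i w := by
  rw [C_def, L_def, R_def, ← tv_mul, mul_one, one_mul]

theorem LR_comm (i : Fin n) (u v : F n) : L i u * R i v = R i v * L i u := by
  rw [L_def, R_def, ← tv_mul, ← tv_mul, mul_one, one_mul, mul_one, one_mul]

theorem L_eq (i : Fin n) (w : F n) : L i w = C i w * (R i w)⁻¹ := by
  rw [C_eq, mul_assoc, mul_inv_cancel, mul_one]

@[simp] theorem R_self (i : Fin n) : R i (x i) = 1 := by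
  rw [R_def, ← tv_one i]; exact tv_congr rfl (by rw [kill_self, map_one])

@[simp] theorem L_self (i : Fin n) : L i (x i) = 1 := by
  rw [L_def, ← tv_one i]; exact tv_congr (by rw [kill_self, map_one]) rfl

@[simp] theorem C_self (i : Fin n) : C i (x i) = 1 := by
  rw [C_eq, R_self, L_self, one_mul]

theorem R_kill (i : Fin n) (w : F n) : R i (kill i w) = R i w := tv_congr rfl (kill_kill i w)
theorem L_kill (i : Fin n) (w : F n) : L i (kill i w) = L i w := tv_congr (kill_kill i w) rfl
theorem C_kill (i : Fin n) (w : F n) : C i (kill i w) = C i w :=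
  tv_congr (kill_kill i w) (kill_kill i w)

/-! ### conjugation rules -/

/-- conjugation inside `U_i` -/
theorem tv_conj_same (i : Fin n) (u v a b : F n) :
    tv i u v * tv i a b * (tv i u v)⁻¹ = tv i (u * a * u⁻¹) (v * b * v⁻¹) := by
  rw [tv_inv, ← tv_mul, ← tv_mul]

/-- conjugation by an automorphism which fixes `x_i` and preserves the words without `x_i` -/
theorem conj_tv_of {φ : A n} {i : Fin n} (hi : φ (x i) = x i) (hO : ∀ j ≠ i, φ (x j) ∈ O i)
    (a b : F n) : φ * tv i a b * φ⁻¹ = tv i (φ a) (φ b) := by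
  have key : ∀ w, kill i (φ w) = φ (kill i w) := by
    intro w
    have : (kill i).comp φ.toMonoidHom = φ.toMonoidHom.comp (kill i) := by
      refine FreeGroup.ext_hom _ _ fun k => ?_
      show kill i (φ (x k)) = φ (kill i (x k))
      by_cases hk : k = i
      · subst hk; rw [hi, kill_self, map_one]
      · rw [kill_ne hk]; exact hO k hk
    exact DFunLike.congr_fun this w
  rw [mul_inv_eq_iff_eq_mul]
  refine A_ext fun k => ?_
  show φ (tv i a b (x k)) = tv i (φ a) (φ b) (φ (x k))
  by_cases hk : k = i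
  · subst hk
    rw [hi, tv_self, tv_self, map_mul, map_mul, map_inv, hi, key, key]
  · rw [tv_ne hk, tv_of_mem (hO k hk)]

/-- conjugation of `tv i a b` by `tv j u v`, where `u`, `v` do not involve `x_i` -/
theorem conj_tv {i j : Fin n} (h : i ≠ j) {u v : F n} (hu : u ∈ O i) (hv : v ∈ O i) (a b : F n) :
    tv j u v * tv i a b * (tv j u v)⁻¹ = tv i (tv j u v a) (tv j u v b) := by
  refine conj_tv_of (tv_ne h u v) (fun k hk => ?_) a b
  by_cases hkj : k = j
  · subst hkj
    rw [tv_self]
    exact (O i).mul_mem ((O i).mul_mem ((O i).inv_mem (kill_mem_of_mem _ hu)) (x_mem_O hk))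
      (kill_mem_of_mem _ hv)
  · rw [tv_ne hkj]; exact x_mem_O hk

/-- rule (a) -/
theorem R_conj_C_same (i : Fin n) (v w : F n) :
    R i v * C i w * (R i v)⁻¹ = C i w * R i ⁅w⁻¹, v⁆ := by
  rw [R_def, C_def, tv_conj_same, R_def, ← tv_mul]
  congr 1
  · group
  · rw [commutatorElement_def]; group

theorem C_conj_R_same (i : Fin n) (v w : F n) :
    C i w * R i v * (C i w)⁻¹ = R i (w * v * w⁻¹) := by
  rw [R_def, C_def, tv_conj_same, R_def]
  congr 1
  group

/-- rule (b) -/
theorem R_conj_C {i j : Fin n} (h : i ≠ j) {v : F n} (hv : v ∈ O i) (w : F n) :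
    R j v * C i w * (R j v)⁻¹ = C i (R j v w) := conj_tv h (O i).one_mem hv w w

theorem C_conj_C {i j : Fin n} (h : i ≠ j) {v : F n} (hv : v ∈ O i) (w : F n) :
    C j v * C i w * (C j v)⁻¹ = C i (C j v w) := conj_tv h hv hv w w

theorem R_conj_R {i j : Fin n} (h : i ≠ j) {v : F n} (hv : v ∈ O i) (w : F n) :
    R j v * R i w * (R j v)⁻¹ = R i (R j v w) := by
  have := conj_tv h (O i).one_mem hv 1 w
  rw [map_one] at this
  exact this

theorem C_conj_R {i j : Fin n} (h : i ≠ j) {v : F n} (hv : v ∈ O i) (w : F n) :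
    C j v * R i w * (C j v)⁻¹ = R i (C j v w) := by
  have := conj_tv h hv hv 1 w
  rw [map_one] at this
  exact this

theorem R_apply_self (i : Fin n) (v : F n) : R i v (x i) = x i * kill i v := by
  rw [R_def, tv_self, map_one, inv_one, one_mul]

theorem R_apply_ne {i j : Fin n} (h : j ≠ i) (v : F n) : R i v (x j) = x j := tv_ne h _ _

theorem R_apply_of_mem {i : Fin n} {w : F n} (h : w ∈ O i) (v : F n) : R i v w = w :=
  tv_of_mem h _ _

theorem C_apply_self (i : Fin n) (v : F n) : C i v (x i) = (kill i v)⁻¹ * x i * kill i v := by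
  rw [C_def, tv_self]

theorem C_apply_ne {i j : Fin n} (h : j ≠ i) (v : F n) : C i v (x j) = x j := tv_ne h _ _

theorem C_apply_of_mem {i : Fin n} {w : F n} (h : w ∈ O i) (v : F n) : C i v w = w :=
  tv_of_mem h _ _

/-- rule (c) -/
theorem R_conj_C_loop {i j : Fin n} (h : i ≠ j) {w : F n} (hi : w ∈ O i) (hj : w ∈ O j) :
    R j (x i) * C i w * (R j (x i))⁻¹ = C i w * R j ⁅w, x i⁆ := by
  have hk : kill j ⁅w, x i⁆ = ⁅w, x i⁆ := by
    rw [map_commutatorElement, kill_of_mem hj, kill_ne h]
  rw [mul_inv_eq_iff_eq_mul]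
  refine A_ext fun k => ?_
  show R j (x i) (C i w (x k)) = C i w (R j ⁅w, x i⁆ (R j (x i) (x k)))
  by_cases hki : k = i
  · subst hki
    rw [C_apply_self, kill_of_mem hi, R_apply_ne h, R_apply_ne h, C_apply_self, kill_of_mem hi,
      map_mul, map_mul, map_inv, R_apply_of_mem hj, R_apply_ne h]
  · by_cases hkj : k = j
    · subst hkj
      rw [C_apply_ne h.symm, R_apply_self, kill_ne h, map_mul, R_apply_self, hk, R_apply_ne h,
        map_mul, map_mul, C_apply_ne h.symm, C_apply_self, kill_of_mem hi, map_commutatorElement,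
        C_apply_of_mem hi, C_apply_self, kill_of_mem hi, commutatorElement_def]
      group
    · rw [C_apply_ne hki, R_apply_ne hkj, R_apply_ne hkj, C_apply_ne hki]

/-- rule (d) -/
theorem R_conj_C_loop' {i j : Fin n} (h : i ≠ j) :
    R j (x i) * C i (x j) * (R j (x i))⁻¹ = C j (x i) * C i (x j) := by
  rw [mul_inv_eq_iff_eq_mul]
  refine A_ext fun k => ?_
  show R j (x i) (C i (x j) (x k)) = C j (x i) (C i (x j) (R j (x i) (x k)))
  by_cases hki : k = i
  · subst hki
    rw [C_apply_self, kill_ne h.symm, R_apply_ne h, C_apply_self, kill_ne h.symm, map_mul, map_mul,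
      map_inv, R_apply_self, kill_ne h, R_apply_ne h, map_mul, map_mul, map_inv, C_apply_self,
      kill_ne h, C_apply_ne h]
    group
  · by_cases hkj : k = j
    · subst hkj
      rw [C_apply_ne h.symm, R_apply_self, kill_ne h, map_mul, C_apply_ne h.symm, C_apply_self,
        kill_ne h.symm, map_mul, map_mul, map_mul, map_inv, C_apply_self, kill_ne h, C_apply_ne h]
      group
    · rw [C_apply_ne hki, R_apply_ne hkj, C_apply_ne hki, C_apply_ne hkj]

/-- rule (e) -/
theorem R_conj_R_loop {i j : Fin n} (h : i ≠ j) {w : F n} (hi : w ∈ O i) (hj : w ∈ O j) :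
    R j (x i) * R i w * (R j (x i))⁻¹ = R i w * R j (x i * w⁻¹ * (x i)⁻¹) := by
  have hk : kill j (x i * w⁻¹ * (x i)⁻¹) = x i * w⁻¹ * (x i)⁻¹ := by
    rw [map_mul, map_mul, map_inv, map_inv, kill_of_mem hj, kill_ne h]
  rw [mul_inv_eq_iff_eq_mul]
  refine A_ext fun k => ?_
  show R j (x i) (R i w (x k)) = R i w (R j (x i * w⁻¹ * (x i)⁻¹) (R j (x i) (x k)))
  by_cases hki : k = i
  · subst hki
    rw [R_apply_self, kill_of_mem hi, R_apply_ne h, R_apply_ne h, R_apply_self, kill_of_mem hi,
      map_mul, R_apply_of_mem hj, R_apply_ne h]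
  · by_cases hkj : k = j
    · subst hkj
      rw [R_apply_ne h.symm, R_apply_self, kill_ne h, map_mul, R_apply_self, hk, R_apply_ne h,
        map_mul, map_mul, R_apply_ne h.symm, R_apply_self, kill_of_mem hi, map_mul, map_mul,
        map_inv, map_inv, R_apply_of_mem hi, R_apply_self, kill_of_mem hi]
      group
    · rw [R_apply_ne hki, R_apply_ne hkj, R_apply_ne hkj, R_apply_ne hki]

/-! ### signs and permutations -/

/-- the endomorphism `x_i ↦ x_i⁻¹` -/
def sgH (i : Fin n) : F n →* F n := FreeGroup.lift (fun j => if j = i then (FreeGroup.of i)⁻¹ else FreeGroup.of j)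

theorem sgH_self (i : Fin n) : sgH i (x i) = (x i)⁻¹ := by simp [sgH]
theorem sgH_ne {i j : Fin n} (h : j ≠ i) : sgH i (x j) = x j := by simp [sgH, h]

theorem sgH_sgH (i : Fin n) (w : F n) : sgH i (sgH i w) = w := by
  have : (sgH i).comp (sgH i) = MonoidHom.id _ := by
    refine FreeGroup.ext_hom _ _ fun k => ?_
    show sgH i (sgH i (x k)) = x k
    by_cases hi : k = i
    · subst hi; rw [sgH_self, map_inv, sgH_self, inv_inv]
    · rw [sgH_ne hi, sgH_ne hi]
  exact DFunLike.congr_fun this w

/-- the automorphism `x_i ↦ x_i⁻¹` -/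
def sg (i : Fin n) : A n where
  toFun := sgH i
  invFun := sgH i
  left_inv := sgH_sgH i
  right_inv := sgH_sgH i
  map_mul' := map_mul _

theorem sg_self (i : Fin n) : sg i (x i) = (x i)⁻¹ := sgH_self i
theorem sg_ne {i j : Fin n} (h : j ≠ i) : sg i (x j) = x j := sgH_ne h

theorem sg_mul_self (i : Fin n) : sg i * sg i = (1 : A n) := by
  ext w
  exact sgH_sgH i w

theorem sg_inv (i : Fin n) : (sg i)⁻¹ = (sg i : A n) :=
  inv_eq_of_mul_eq_one_left (sg_mul_self i)

/-- the automorphism permuting the generators -/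
def pm (σ : Equiv.Perm (Fin n)) : A n := FreeGroup.freeGroupCongr σ

theorem pm_x (σ : Equiv.Perm (Fin n)) (i : Fin n) : pm σ (x i) = x (σ i) := by
  simp [pm]

theorem pm_inv (σ : Equiv.Perm (Fin n)) : (pm σ)⁻¹ = pm σ⁻¹ := by
  rw [inv_eq_iff_mul_eq_one]
  refine A_ext fun k => ?_
  show pm σ (pm σ⁻¹ (x k)) = x k
  rw [pm_x, pm_x, ← Equiv.Perm.mul_apply, mul_inv_cancel, Equiv.Perm.one_apply]

theorem pm_kill (σ : Equiv.Perm (Fin n)) (i : Fin n) (w : F n) :
    kill (σ i) (pm σ w) = pm σ (kill i w) := by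
  have : (kill (σ i)).comp (pm σ).toMonoidHom = (pm σ).toMonoidHom.comp (kill i) := by
    refine FreeGroup.ext_hom _ _ fun k => ?_
    show kill (σ i) (pm σ (x k)) = pm σ (kill i (x k))
    by_cases hk : k = i
    · subst hk; rw [pm_x, kill_self, kill_self, map_one]
    · rw [pm_x, kill_ne hk, pm_x, kill_ne (fun h => hk (σ.injective h))]
  exact DFunLike.congr_fun this w

theorem pm_conj_tv (σ : Equiv.Perm (Fin n)) (i : Fin n) (u v : F n) :
    pm σ * tv i u v * (pm σ)⁻¹ = tv (σ i) (pm σ u) (pm σ v) := by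
  rw [mul_inv_eq_iff_eq_mul]
  refine A_ext fun k => ?_
  show pm σ (tv i u v (x k)) = tv (σ i) (pm σ u) (pm σ v) (pm σ (x k))
  by_cases hk : k = i
  · subst hk
    rw [tv_self, pm_x, tv_self, map_mul, map_mul, map_inv, pm_x, pm_kill, pm_kill]
  · rw [tv_ne hk, pm_x, tv_ne (fun h => hk (σ.injective h))]

theorem pm_conj_R (σ : Equiv.Perm (Fin n)) (i : Fin n) (v : F n) :
    pm σ * R i v * (pm σ)⁻¹ = R (σ i) (pm σ v) := by
  have := pm_conj_tv σ i 1 v
  rwa [map_one] at this

theorem pm_conj_C (σ : Equiv.Perm (Fin n)) (i : Fin n) (v : F n) :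
    pm σ * C i v * (pm σ)⁻¹ = C (σ i) (pm σ v) := pm_conj_tv σ i v v

theorem sg_conj_same (i : Fin n) (u v : F n) : sg i * tv i u v * (sg i)⁻¹ = tv i v u := by
  have key : ∀ w, sg i (kill i w) = kill i w := by
    intro w
    have : (sg i).toMonoidHom.comp (kill i) = kill i := by
      refine FreeGroup.ext_hom _ _ fun k => ?_
      show sg i (kill i (x k)) = kill i (x k)
      by_cases hk : k = i
      · subst hk; rw [kill_self, map_one]
      · rw [kill_ne hk, sg_ne hk]
    exact DFunLike.congr_fun this w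
  rw [mul_inv_eq_iff_eq_mul]
  refine A_ext fun k => ?_
  show sg i (tv i u v (x k)) = tv i v u (sg i (x k))
  by_cases hk : k = i
  · subst hk
    rw [tv_self, sg_self, map_inv, tv_self, map_mul, map_mul, map_inv, sg_self, key, key]
    group
  · rw [tv_ne hk, sg_ne hk, tv_ne hk]

theorem sg_conj_R_same (i : Fin n) (v : F n) : sg i * R i v * (sg i)⁻¹ = L i v :=
  sg_conj_same i 1 v

theorem sg_conj_C_same (i : Fin n) (v : F n) : sg i * C i v * (sg i)⁻¹ = C i v :=
  sg_conj_same i v v

theorem sg_conj_tv {i j : Fin n} (h : i ≠ j) (u v : F n) :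
    sg j * tv i u v * (sg j)⁻¹ = tv i (sg j u) (sg j v) := by
  refine conj_tv_of (sg_ne h) (fun k hk => ?_) u v
  by_cases hkj : k = j
  · subst hkj; rw [sg_self]; exact (O i).inv_mem (x_mem_O hk)
  · rw [sg_ne hkj]; exact x_mem_O hk

end Pool.Agent.CSP3
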