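import Mathlib

/-!
# Groups in which the primitive elements have order dividing three

If all primitive elements of a free group of finite rank are mapped to elements with trivial cube
then the image of the free group has exponent three.
-/

set_option autoImplicit false

namespace Pool.Agent.CSP3

section abstract

variable {G : Type*} [Group G]

/-- the cube of a product -/
theorem cube_expand (a w : G) :
    (a * w) ^ 3 = a * (w * a * w⁻¹) * (w * w * a * (w * w)⁻¹) * w ^ 3 := by
  rw [pow_three', pow_three']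
  simp only [mul_inv_rev, mul_assoc, inv_mul_cancel_left]

theorem cube_rel {a w : G} (hw : w ^ 3 = 1) (h : (a * w) ^ 3 = 1) :
    a * (w * a * w⁻¹) * (w * w * a * (w * w)⁻¹) = 1 := by
  rw [cube_expand, hw, mul_one] at h
  exact h

/-- `a` commutes with its conjugates by elements of `H` -/
theorem comm_conj {H : Subgroup G} {a : G} (hH : ∀ w ∈ H, w ^ 3 = 1)
    (ha : ∀ w ∈ H, (a * w) ^ 3 = 1) {w : G} (hw : w ∈ H) :
    Commute a (w * a * w⁻¹) := by
  have h3 := hH w hw
  have e1 := cube_rel h3 (ha w hw)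
  have h4 : (w * w) ^ 3 = 1 := by
    have : (w * w) ^ 3 = w ^ 3 * w ^ 3 := by
      rw [pow_three', pow_three']
      simp only [mul_assoc]
    rw [this, h3, one_mul]
  have e2 := cube_rel h4 (ha (w * w) (H.mul_mem hw hw))
  have e3 : w * w * (w * w) = w := by
    have : w * w * (w * w) = w ^ 3 * w := by
      rw [pow_three']
      simp only [mul_assoc]
    rw [this, h3, one_mul]
  rw [e3] at e2
  -- `a * A * B = 1`, `a * B * A = 1`
  generalize w * a * w⁻¹ = A at *
  generalize w * w * a * (w * w)⁻¹ = B at *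
  have f1 : a = (A * B)⁻¹ := by
    rw [eq_inv_iff_mul_eq_one, ← mul_assoc]; exact e1
  have f2 : a = (B * A)⁻¹ := by
    rw [eq_inv_iff_mul_eq_one, ← mul_assoc]; exact e2
  have f3 : A * B = B * A := by
    rw [← inv_inj, ← f1, ← f2]
  rw [f1]
  have : Commute (A * B) A := by
    show A * B * A = A * (A * B)
    rw [mul_assoc, ← f3]
  exact this.inv_left

/-- the group generated by the conjugates of `a` by elements of `H` -/
def conjN (H : Subgroup G) (a : G) : Subgroup G :=
  Subgroup.closure {x | ∃ w ∈ H, x = w * a * w⁻¹}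

theorem self_mem_conjN (H : Subgroup G) (a : G) : a ∈ conjN H a :=
  Subgroup.subset_closure ⟨1, H.one_mem, by group⟩

theorem conj_mem_conjN {H : Subgroup G} {a h n : G} (hh : h ∈ H) (hn : n ∈ conjN H a) :
    h * n * h⁻¹ ∈ conjN H a := by
  unfold conjN at hn
  induction hn using Subgroup.closure_induction with
  | mem x hx =>
    obtain ⟨w, hw, rfl⟩ := hx
    exact Subgroup.subset_closure ⟨h * w, H.mul_mem hh hw, by group⟩
  | one => simp [(conjN H a).one_mem]
  | mul x y _ _ hx hy =>
    have : h * (x * y) * h⁻¹ = (h * x * h⁻¹) * (h * y * h⁻¹) := by group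
    rw [this]; exact (conjN H a).mul_mem hx hy
  | inv x _ hx =>
    have : h * x⁻¹ * h⁻¹ = (h * x * h⁻¹)⁻¹ := by group
    rw [this]; exact (conjN H a).inv_mem hx

theorem conjN_comm {H : Subgroup G} {a : G} (hH : ∀ w ∈ H, w ^ 3 = 1)
    (ha : ∀ w ∈ H, (a * w) ^ 3 = 1) {x y : G} (hx : x ∈ conjN H a) (hy : y ∈ conjN H a) :
    Commute x y := by
  have key : ∀ u ∈ {x | ∃ w ∈ H, x = w * a * w⁻¹}, ∀ v ∈ {x | ∃ w ∈ H, x = w * a * w⁻¹},
      u * v = v * u := by
    rintro _ ⟨w, hw, rfl⟩ _ ⟨v, hv, rfl⟩
    have h := comm_conj hH ha (H.mul_mem (H.inv_mem hw) hv)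
    have h2 : Commute (w * a * w⁻¹) (w * (w⁻¹ * v * a * (w⁻¹ * v)⁻¹) * w⁻¹) := by
      show (w * a * w⁻¹) * (w * (w⁻¹ * v * a * (w⁻¹ * v)⁻¹) * w⁻¹) =
        (w * (w⁻¹ * v * a * (w⁻¹ * v)⁻¹) * w⁻¹) * (w * a * w⁻¹)
      have := congrArg (fun z => w * z * w⁻¹) h.eq
      calc (w * a * w⁻¹) * (w * (w⁻¹ * v * a * (w⁻¹ * v)⁻¹) * w⁻¹)
          = w * (a * (w⁻¹ * v * a * (w⁻¹ * v)⁻¹)) * w⁻¹ := by group
        _ = w * ((w⁻¹ * v * a * (w⁻¹ * v)⁻¹) * a) * w⁻¹ := this
        _ = _ := by group
    have h3 : w * (w⁻¹ * v * a * (w⁻¹ * v)⁻¹) * w⁻¹ = v * a * v⁻¹ := by group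
    rw [h3] at h2
    exact h2.eq
  have := Subgroup.closure_induction₂ (k := {x | ∃ w ∈ H, x = w * a * w⁻¹})
    (p := fun x y _ _ => Commute x y) (fun x y hx hy => key x hx y hy)
    (fun x _ => Commute.one_left x) (fun x _ => Commute.one_right x)
    (fun x y z _ _ _ h1 h2 => h1.mul_left h2) (fun x y z _ _ _ h1 h2 => h1.mul_right h2)
    (fun x y _ _ h => h.inv_left) (fun x y _ _ h => h.inv_right) hx hy
  exact this

/-- products of elements of `conjN H a` and of `H` have trivial cube -/
theorem cube_mul {H : Subgroup G} {a : G} (hH : ∀ w ∈ H, w ^ 3 = 1)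
    (ha : ∀ w ∈ H, (a * w) ^ 3 = 1) {n h : G} (hn : n ∈ conjN H a) (hh : h ∈ H) :
    (n * h) ^ 3 = 1 := by
  rw [cube_expand, hH h hh, mul_one]
  have hh2 : h * h ∈ H := H.mul_mem hh hh
  have hn' := hn
  unfold conjN at hn
  induction hn using Subgroup.closure_induction with
  | mem x hx =>
    obtain ⟨w, hw, rfl⟩ := hx
    have hv : w⁻¹ * h * w ∈ H := H.mul_mem (H.mul_mem (H.inv_mem hw) hh) hw
    have e := cube_rel (hH _ hv) (ha _ hv)
    have : w * a * w⁻¹ * (h * (w * a * w⁻¹) * h⁻¹) * (h * h * (w * a * w⁻¹) * (h * h)⁻¹) =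
        w * (a * (w⁻¹ * h * w * a * (w⁻¹ * h * w)⁻¹) *
          (w⁻¹ * h * w * (w⁻¹ * h * w) * a * (w⁻¹ * h * w * (w⁻¹ * h * w))⁻¹)) * w⁻¹ := by
      group
    rw [this, e]; group
  | one => group
  | mul x y hx hy ihx ihy =>
    have cx := ihx hx
    have cy := ihy hy
    have mx1 : h * x * h⁻¹ ∈ conjN H a := conj_mem_conjN hh hx
    have mx2 : h * h * x * (h * h)⁻¹ ∈ conjN H a := conj_mem_conjN hh2 hx
    have my1 : h * y * h⁻¹ ∈ conjN H a := conj_mem_conjN hh hy
    have my0 : y ∈ conjN H a := hy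
    have e1 : h * (x * y) * h⁻¹ = (h * x * h⁻¹) * (h * y * h⁻¹) := by group
    have e2 : h * h * (x * y) * (h * h)⁻¹ = (h * h * x * (h * h)⁻¹) * (h * h * y * (h * h)⁻¹) := by
      group
    rw [e1, e2]
    have c1 : Commute y (h * x * h⁻¹) := conjN_comm hH ha my0 mx1
    have c2 : Commute (y * (h * y * h⁻¹)) (h * h * x * (h * h)⁻¹) :=
      conjN_comm hH ha ((conjN H a).mul_mem my0 my1) mx2
    generalize h * x * h⁻¹ = X1 at *
    generalize h * h * x * (h * h)⁻¹ = X2 at *
    generalize h * y * h⁻¹ = Y1 at *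
    generalize h * h * y * (h * h)⁻¹ = Y2 at *
    calc x * y * (X1 * Y1) * (X2 * Y2) = x * (y * X1) * Y1 * X2 * Y2 := by group
      _ = x * (X1 * y) * Y1 * X2 * Y2 := by rw [c1.eq]
      _ = x * X1 * ((y * Y1) * X2) * Y2 := by group
      _ = x * X1 * (X2 * (y * Y1)) * Y2 := by rw [c2.eq]
      _ = (x * X1 * X2) * (y * Y1 * Y2) := by group
      _ = 1 := by rw [cx, cy, one_mul]
  | inv x hx ih =>
    have cx := ih hx
    have mx1 : h * x * h⁻¹ ∈ conjN H a := conj_mem_conjN hh hx
    have mx2 : h * h * x * (h * h)⁻¹ ∈ conjN H a := conj_mem_conjN hh2 hx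
    have mx0 : x ∈ conjN H a := hx
    have e1 : h * x⁻¹ * h⁻¹ = (h * x * h⁻¹)⁻¹ := by group
    have e2 : h * h * x⁻¹ * (h * h)⁻¹ = (h * h * x * (h * h)⁻¹)⁻¹ := by
      simp only [mul_inv_rev, inv_inv, mul_assoc]
    rw [e1, e2]
    have c1 : Commute x (h * x * h⁻¹) := conjN_comm hH ha mx0 mx1
    have c2 : Commute (x * (h * x * h⁻¹)) (h * h * x * (h * h)⁻¹) :=
      conjN_comm hH ha ((conjN H a).mul_mem mx0 mx1) mx2
    generalize h * x * h⁻¹ = X1 at *
    generalize h * h * x * (h * h)⁻¹ = X2 at *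
    calc x⁻¹ * X1⁻¹ * X2⁻¹ = (X2 * (X1 * x))⁻¹ := by group
      _ = (X2 * (x * X1))⁻¹ := by rw [c1.eq]
      _ = (x * X1 * X2)⁻¹ := by rw [c2.eq]
      _ = 1 := by rw [cx, inv_one]

/-- **the extension step** -/
theorem cube_closure {H : Subgroup G} {a : G} (hH : ∀ w ∈ H, w ^ 3 = 1)
    (ha : ∀ w ∈ H, (a * w) ^ 3 = 1) {x : G}
    (hx : x ∈ Subgroup.closure (insert a (H : Set G))) : x ^ 3 = 1 := by
  have key : ∃ n ∈ conjN H a, ∃ h ∈ H, x = n * h := by
    induction hx using Subgroup.closure_induction with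
    | mem x hx =>
      rcases hx with rfl | hx
      · exact ⟨x, self_mem_conjN H x, 1, H.one_mem, (mul_one x).symm⟩
      · exact ⟨1, (conjN H a).one_mem, x, hx, (one_mul x).symm⟩
    | one => exact ⟨1, (conjN H a).one_mem, 1, H.one_mem, (mul_one 1).symm⟩
    | mul x y _ _ hx hy =>
      obtain ⟨n, hn, h, hh, rfl⟩ := hx
      obtain ⟨m, hm, k, hk, rfl⟩ := hy
      exact ⟨n * (h * m * h⁻¹), (conjN H a).mul_mem hn (conj_mem_conjN hh hm), h * k,
        H.mul_mem hh hk, by group⟩
    | inv x _ hx =>
      obtain ⟨n, hn, h, hh, rfl⟩ := hx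
      refine ⟨h⁻¹ * n⁻¹ * h⁻¹⁻¹, conj_mem_conjN (H.inv_mem hh) ((conjN H a).inv_mem hn), h⁻¹,
        H.inv_mem hh, by group⟩
  obtain ⟨n, hn, h, hh, rfl⟩ := key
  exact cube_mul hH ha hn hh

end abstract

section free

variable {α : Type*} [DecidableEq α]

/-- the endomorphism `x_i ↦ x_i u`, `x_j ↦ x_j` -/
def transv (i : α) (u : FreeGroup α) : FreeGroup α →* FreeGroup α :=
  FreeGroup.lift (fun j => if j = i then FreeGroup.of i * u else FreeGroup.of j)

theorem transv_of (i : α) (u : FreeGroup α) :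
    transv i u (FreeGroup.of i) = FreeGroup.of i * u := by
  simp [transv]

theorem transv_of_ne {i j : α} (h : j ≠ i) (u : FreeGroup α) :
    transv i u (FreeGroup.of j) = FreeGroup.of j := by
  simp [transv, h]

theorem transv_fix {i : α} (u : FreeGroup α) {v : FreeGroup α}
    (hv : v ∈ Subgroup.closure (FreeGroup.of '' {j | j ≠ i})) : transv i u v = v := by
  induction hv using Subgroup.closure_induction with
  | mem x hx =>
    obtain ⟨j, hj, rfl⟩ := hx
    exact transv_of_ne hj u
  | one => exact map_one _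
  | mul x y _ _ hx hy => rw [map_mul, hx, hy]
  | inv x _ hx => rw [map_inv, hx]

theorem transv_comp {i : α} {u v : FreeGroup α}
    (hv : v ∈ Subgroup.closure (FreeGroup.of '' {j | j ≠ i})) :
    (transv i u).comp (transv i v) = transv i (u * v) := by
  ext j
  by_cases h : j = i
  · subst h
    rw [MonoidHom.comp_apply, transv_of, map_mul, transv_of, transv_fix u hv, transv_of, mul_assoc]
  · rw [MonoidHom.comp_apply, transv_of_ne h, transv_of_ne h, transv_of_ne h]

theorem transv_one (i : α) : transv i 1 = MonoidHom.id (FreeGroup α) := by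
  ext j
  by_cases h : j = i
  · subst h; rw [transv_of, mul_one]; rfl
  · rw [transv_of_ne h]; rfl

/-- the automorphism `x_i ↦ x_i u`, `x_j ↦ x_j`, where `u` does not involve `x_i` -/
def transvEquiv (i : α) (u : FreeGroup α)
    (hu : u ∈ Subgroup.closure (FreeGroup.of '' {j | j ≠ i})) : FreeGroup α ≃* FreeGroup α :=
  MonoidHom.toMulEquiv (transv i u) (transv i u⁻¹)
    (by rw [transv_comp hu, inv_mul_cancel, transv_one])
    (by rw [transv_comp (Subgroup.inv_mem _ hu), mul_inv_cancel, transv_one])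

/-- **Main theorem**: if the images of all primitive elements of a free group of finite rank have
trivial cube, then the image of the free group has exponent three. -/
theorem cube_of_primitive [Finite α] {G : Type*} [Group G] (π : FreeGroup α →* G)
    (h : ∀ (φ : FreeGroup α ≃* FreeGroup α) (i : α), (π (φ (FreeGroup.of i))) ^ 3 = 1)
    (x : FreeGroup α) : (π x) ^ 3 = 1 := by
  classical
  have := Fintype.ofFinite α
  have key : ∀ s : Finset α, ∀ x ∈ Subgroup.closure (FreeGroup.of '' (s : Set α)),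
      (π x) ^ 3 = 1 := by
    intro s
    induction s using Finset.induction_on with
    | empty =>
      intro x hx
      have : x = 1 := by simpa using hx
      rw [this, map_one, one_pow]
    | insert i s hi ih =>
      intro x hx
      have hH : ∀ w ∈ (Subgroup.closure (FreeGroup.of '' (s : Set α))).map π, w ^ 3 = 1 := by
        rintro _ ⟨u, hu, rfl⟩
        exact ih u hu
      have ha : ∀ w ∈ (Subgroup.closure (FreeGroup.of '' (s : Set α))).map π,
          (π (FreeGroup.of i) * w) ^ 3 = 1 := by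
        rintro _ ⟨u, hu, rfl⟩
        have hu' : u ∈ Subgroup.closure (FreeGroup.of '' {j | j ≠ i}) := by
          refine Subgroup.closure_mono ?_ hu
          rintro _ ⟨j, hj, rfl⟩
          refine ⟨j, ?_, rfl⟩
          rintro rfl
          exact hi (by simpa using hj)
        have := h (transvEquiv i u hu') i
        have e : transvEquiv i u hu' (FreeGroup.of i) = FreeGroup.of i * u := transv_of i u
        rw [e, map_mul] at this
        exact this
      refine cube_closure hH ha ?_
      have : Subgroup.map π (Subgroup.closure (FreeGroup.of '' ((insert i s : Finset α) : Set α))) ≤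
          Subgroup.closure (insert (π (FreeGroup.of i))
            (((Subgroup.closure (FreeGroup.of '' (s : Set α))).map π : Subgroup G) : Set G)) := by
        rw [MonoidHom.map_closure, Subgroup.closure_le]
        rintro _ ⟨_, ⟨j, hj, rfl⟩, rfl⟩
        rw [Finset.coe_insert] at hj
        rcases hj with rfl | hj
        · exact Subgroup.subset_closure (Set.mem_insert _ _)
        · refine Subgroup.subset_closure (Set.mem_insert_of_mem _ ?_)
          exact Subgroup.mem_map_of_mem π (Subgroup.subset_closure ⟨j, hj, rfl⟩)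
      exact this (Subgroup.mem_map_of_mem π hx)
  refine key Finset.univ x ?_
  rw [Finset.coe_univ, Set.image_univ, FreeGroup.closure_range_of]
  trivial

/-- if the images of all primitive elements of a free group have trivial square, then the image of
the free group is abelian of exponent two -/
theorem comm_of_primitive_sq {G : Type*} [Group G] (π : FreeGroup α →* G)
    (h : ∀ (φ : FreeGroup α ≃* FreeGroup α) (i : α), (π (φ (FreeGroup.of i))) ^ 2 = 1)
    (x y : FreeGroup α) : Commute (π x) (π y) := by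
  have key : ∀ i j : α, Commute (π (FreeGroup.of i)) (π (FreeGroup.of j)) := by
    intro i j
    by_cases hij : j = i
    · subst hij; exact Commute.refl _
    have hu : FreeGroup.of j ∈ Subgroup.closure (FreeGroup.of '' {j | j ≠ i}) :=
      Subgroup.subset_closure ⟨j, hij, rfl⟩
    have h1 := h (transvEquiv i _ hu) i
    have e : transvEquiv i _ hu (FreeGroup.of i) = FreeGroup.of i * FreeGroup.of j :=
      transv_of i _
    rw [e, map_mul] at h1
    have h2 := h (MulEquiv.refl _) i
    have h3 := h (MulEquiv.refl _) j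
    simp only [MulEquiv.refl_apply] at h2 h3
    generalize π (FreeGroup.of i) = a at *
    generalize π (FreeGroup.of j) = b at *
    have ha : a⁻¹ = a := by rw [inv_eq_iff_mul_eq_one, ← h2, pow_two]
    have hb : b⁻¹ = b := by rw [inv_eq_iff_mul_eq_one, ← h3, pow_two]
    have hab : (a * b)⁻¹ = a * b := by rw [inv_eq_iff_mul_eq_one, ← h1, pow_two]
    show a * b = b * a
    rw [← hab, mul_inv_rev, ha, hb]
  have h1 : ∀ (i : α) (y : FreeGroup α), Commute (π (FreeGroup.of i)) (π y) := by
    intro i y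
    induction y using FreeGroup.induction_on with
    | C1 => rw [map_one]; exact Commute.one_right _
    | of j => exact key i j
    | inv_of j hj => rw [map_inv]; exact hj.inv_right
    | mul x y hx hy => rw [map_mul]; exact hx.mul_right hy
  induction x using FreeGroup.induction_on with
  | C1 => rw [map_one]; exact Commute.one_left _
  | of j => exact h1 j y
  | inv_of j hj => rw [map_inv]; exact hj.inv_left
  | mul x z hx hz => rw [map_mul]; exact hx.mul_left hz

end free

end Pool.Agent.CSP3
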