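import Pool.Agent.CSP3.Cubes

/-!
# Groups of exponent three

Commutators are `⁅a, b⁆ = a b a⁻¹ b⁻¹`.
-/

set_option autoImplicit false

namespace Pool.Agent.CSP3

open scoped commutatorElement

/-! ### A lemma on rings -/

theorem ring_anti {R : Type*} [Ring R] {u v : R} (hu : u * u = 0) (hv : v * v = 0)
    (huv : (u + v + u * v) * (u + v + u * v) = 0) : u * v + v * u = 0 := by
  have h1 : u * v * u + u * v * u * v = 0 := by
    have : u * ((u + v + u * v) * (u + v + u * v)) =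
        u * u * u + u * u * v + u * u * u * v + u * v * u + u * (v * v) + u * v * u * v
          + u * u * v * u + u * u * (v * v) + u * u * v * u * v := by noncomm_ring
    rw [huv, mul_zero, hu, hv] at this
    simpa using this.symm
  have h2 : u * v * u = 0 := by
    have : u * v * u = (u * v * u + u * v * u * v) * (1 - v) + u * v * u * (v * v) := by
      noncomm_ring
    rw [this, h1, hv]; simp
  have h3 : u * v + v * u + v * u * v = 0 := by
    have : (u + v + u * v) * (u + v + u * v) = u * u + v * v + u * u * v + u * (v * v)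
        + u * v * u + u * v * u * v + (u * v + v * u + v * u * v) := by noncomm_ring
    rw [huv, hu, hv, h2] at this
    simpa using this.symm
  have h4 : v * u * v = 0 := by
    have : v * (u * v + v * u + v * u * v) = v * u * v + v * v * u + v * v * u * v := by
      noncomm_ring
    rw [h3, hv] at this
    simpa using this.symm
  rw [h4, add_zero] at h3
  exact h3

section

variable {G : Type*} [Group G] (h3 : ∀ g : G, g ^ 3 = 1)

include h3

theorem exp3_comm_conj (a g : G) : Commute a (g * a * g⁻¹) :=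
  comm_conj (H := ⊤) (fun w _ => h3 w) (fun w _ => h3 (a * w)) (Subgroup.mem_top g)

theorem exp3_inv (a : G) : a⁻¹ = a * a := by
  rw [inv_eq_iff_mul_eq_one, ← h3 a, pow_three]

theorem exp3_comm_left (a b : G) : Commute ⁅a, b⁆ a := by
  have h := exp3_comm_conj h3 a b
  have e : ⁅a, b⁆ = a * (b * a * b⁻¹)⁻¹ := by rw [commutatorElement_def]; group
  rw [e]
  exact (Commute.refl a).mul_left h.symm.inv_left

theorem exp3_comm_right (a b : G) : Commute ⁅a, b⁆ b := by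
  have h := exp3_comm_conj h3 b a
  have e : ⁅a, b⁆ = (a * b * a⁻¹) * b⁻¹ := by rw [commutatorElement_def]
  rw [e]
  exact h.symm.mul_left (Commute.refl b).inv_left

/-- `⁅a⁻¹, b⁆ = ⁅a, b⁆⁻¹` -/
theorem exp3_inv_left (a b : G) : ⁅a⁻¹, b⁆ = ⁅a, b⁆⁻¹ := by
  have h := (exp3_comm_conj h3 a b).inv_left
  have e1 : ⁅a⁻¹, b⁆ = a⁻¹ * (b * a * b⁻¹) := by rw [commutatorElement_def]; group
  have e2 : ⁅a, b⁆⁻¹ = (b * a * b⁻¹) * a⁻¹ := by rw [commutatorElement_def]; group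
  rw [e1, e2, h.eq]

/-- `⁅a, b⁻¹⁆ = ⁅a, b⁆⁻¹` -/
theorem exp3_inv_right (a b : G) : ⁅a, b⁻¹⁆ = ⁅a, b⁆⁻¹ := by
  rw [← commutatorElement_inv b⁻¹ a, exp3_inv_left h3, inv_inv, commutatorElement_inv]

/-- `⁅⁅a, b⁆, c⁆ = ⁅⁅a, c⁆, b⁆⁻¹` -/
theorem exp3_swap_right (x b c : G) : ⁅⁅x, b⁆, c⁆ = ⁅⁅x, c⁆, b⁆⁻¹ := by
  classical
  -- the normal closure of `x` is abelian
  let A : Subgroup G := Subgroup.normalClosure {x}
  have hcomm : ∀ y ∈ A, ∀ z ∈ A, y * z = z * y := by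
    intro y hy z hz
    have key : ∀ u ∈ Group.conjugatesOfSet {x}, ∀ v ∈ Group.conjugatesOfSet {x}, u * v = v * u := by
      intro u hu v hv
      rw [Group.mem_conjugatesOfSet_iff] at hu hv
      obtain ⟨x1, hx1, hu⟩ := hu
      obtain ⟨x2, hx2, hv⟩ := hv
      rw [Set.mem_singleton_iff] at hx1 hx2
      rw [hx1, isConj_iff] at hu
      rw [hx2, isConj_iff] at hv
      obtain ⟨g, rfl⟩ := hu
      obtain ⟨k, rfl⟩ := hv
      have h := exp3_comm_conj h3 (g * x * g⁻¹) (k * g⁻¹)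
      have e : k * g⁻¹ * (g * x * g⁻¹) * (k * g⁻¹)⁻¹ = k * x * k⁻¹ := by group
      rw [e] at h
      exact h.eq
    have := Subgroup.closure_induction₂ (k := Group.conjugatesOfSet {x})
      (p := fun x y _ _ => Commute x y) (fun x y hx hy => key x hx y hy)
      (fun x _ => Commute.one_left x) (fun x _ => Commute.one_right x)
      (fun x y z _ _ _ h1 h2 => h1.mul_left h2) (fun x y z _ _ _ h1 h2 => h1.mul_right h2)
      (fun x y _ _ h => h.inv_left) (fun x y _ _ h => h.inv_right) hy hz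
    exact this.eq
  let _ : CommGroup A := { (inferInstance : Group A) with
    mul_comm := fun y z => Subtype.ext (hcomm y.1 y.2 z.1 z.2) }
  let ρ : G → AddMonoid.End (Additive A) := fun g =>
    MonoidHom.toAdditive (MulAut.conjNormal (H := A) g).toMonoidHom
  have hρ : ∀ (g : G) (y : A), ρ g (Additive.ofMul y) = Additive.ofMul (MulAut.conjNormal g y) :=
    fun g y => rfl
  have hmul : ∀ g k : G, ρ (g * k) = ρ g * ρ k := by
    intro g k
    apply AddMonoidHom.ext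
    intro y
    show Additive.ofMul (MulAut.conjNormal (g * k) (Additive.toMul y)) = _
    rw [map_mul]; rfl
  have hsq : ∀ g : G, (ρ g - 1) * (ρ g - 1) = 0 := by
    intro g
    apply AddMonoidHom.ext
    intro y
    obtain ⟨y, rfl⟩ : ∃ z : A, Additive.ofMul z = y := ⟨Additive.toMul y, rfl⟩
    have e1 : ((ρ g - 1) * (ρ g - 1)) (Additive.ofMul y) =
        ρ g (ρ g (Additive.ofMul y)) - ρ g (Additive.ofMul y) -
          (ρ g (Additive.ofMul y) - Additive.ofMul y) := by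
      show ρ g (ρ g (Additive.ofMul y) - Additive.ofMul y) -
        (ρ g (Additive.ofMul y) - Additive.ofMul y) = _
      rw [map_sub]
    refine Eq.trans e1 ?_
    show Additive.ofMul (MulAut.conjNormal g (MulAut.conjNormal g y) / MulAut.conjNormal g y /
      (MulAut.conjNormal g y / y)) = Additive.ofMul 1
    congr 1
    apply Subtype.ext
    have c1 : ∀ z w : A, ((z / w : A) : G) = (z : G) * (w : G)⁻¹ := by
      intro z w
      rw [div_eq_mul_inv]; rfl
    rw [c1, c1, c1]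
    simp only [MulAut.conjNormal_apply, Subgroup.coe_one]
    have k1 := cube_rel (h3 g) (h3 ((y : G) * g))
    have k2 := exp3_comm_conj h3 (g * (y : G) * g⁻¹) g
    have k3 := exp3_comm_conj h3 (y : G) g
    have k4 : (g * (y : G) * g⁻¹) ^ 3 = 1 := h3 _
    have k5 : g * (g * (y : G) * g⁻¹) * g⁻¹ = g * g * y * (g * g)⁻¹ := by group
    rw [k5] at k2 ⊢
    generalize g * (y : G) * g⁻¹ = Y1 at *
    generalize g * g * (y : G) * (g * g)⁻¹ = Y2 at *
    have k6 : Y2 = ((y : G) * Y1)⁻¹ := by rw [eq_comm, inv_eq_iff_mul_eq_one]; exact k1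
    have k7 : Y1⁻¹ = Y1 * Y1 := exp3_inv h3 Y1
    calc Y2 * Y1⁻¹ * (Y1 * (y : G)⁻¹)⁻¹ = Y2 * Y1⁻¹ * (y : G) * Y1⁻¹ := by group
      _ = Y2 * (Y1⁻¹ * (y : G)) * Y1⁻¹ := by group
      _ = Y2 * ((y : G) * Y1⁻¹) * Y1⁻¹ := by rw [k3.symm.inv_left.eq]
      _ = Y2 * (y : G) * (Y1⁻¹ * Y1⁻¹) := by group
      _ = Y2 * (y : G) * Y1 := by
          have : Y1⁻¹ * Y1⁻¹ = Y1 := by
            rw [← mul_inv_rev, ← k7, inv_inv]
          rw [this]
      _ = ((y : G) * Y1)⁻¹ * ((y : G) * Y1) := by rw [k6]; group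
      _ = 1 := inv_mul_cancel _
  have hanti : (ρ c - 1) * (ρ b - 1) + (ρ b - 1) * (ρ c - 1) = 0 := by
    refine ring_anti (hsq c) (hsq b) ?_
    have : ρ c - 1 + (ρ b - 1) + (ρ c - 1) * (ρ b - 1) = ρ (c * b) - 1 := by
      rw [hmul, sub_mul, mul_sub, mul_one, one_mul]; abel
    rw [this]; exact hsq _
  have hx : x ∈ A := Subgroup.subset_normalClosure (Set.mem_singleton x)
  have hA := congrArg (fun f : AddMonoid.End (Additive A) => f (Additive.ofMul ⟨x, hx⟩)) hanti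
  have e2 : ∀ g k : G, ((ρ k - 1) * (ρ g - 1)) (Additive.ofMul ⟨x, hx⟩) =
      Additive.ofMul (MulAut.conjNormal k (MulAut.conjNormal g (⟨x, hx⟩ : A)) /
        MulAut.conjNormal k (⟨x, hx⟩ : A) / (MulAut.conjNormal g (⟨x, hx⟩ : A) / ⟨x, hx⟩)) := by
    intro g k
    show ρ k (ρ g (Additive.ofMul ⟨x, hx⟩) - Additive.ofMul ⟨x, hx⟩) -
        (ρ g (Additive.ofMul ⟨x, hx⟩) - Additive.ofMul ⟨x, hx⟩) = _
    rw [map_sub]; rfl
  have e3 : ∀ g k : G, ((MulAut.conjNormal k (MulAut.conjNormal g (⟨x, hx⟩ : A)) /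
        MulAut.conjNormal k (⟨x, hx⟩ : A) / (MulAut.conjNormal g (⟨x, hx⟩ : A) / ⟨x, hx⟩) : A) : G) =
      ⁅⁅x, g⁆, k⁆ := by
    intro g k
    have c1 : ∀ z w : A, ((z / w : A) : G) = (z : G) * (w : G)⁻¹ := by
      intro z w
      rw [div_eq_mul_inv]; rfl
    rw [c1, c1, c1]
    simp only [MulAut.conjNormal_apply, commutatorElement_def]
    have m1 : k * (g * x * g⁻¹) * k⁻¹ ∈ A :=
      Subgroup.Normal.conj_mem inferInstance _ (Subgroup.Normal.conj_mem inferInstance x hx g) k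
    have m2 : k * x * k⁻¹ ∈ A := Subgroup.Normal.conj_mem inferInstance x hx k
    have m3 : g * x * g⁻¹ ∈ A := Subgroup.Normal.conj_mem inferInstance x hx g
    have n1 : x * g * x⁻¹ * g⁻¹ * k * (x * g * x⁻¹ * g⁻¹)⁻¹ * k⁻¹ =
        x * (g * x * g⁻¹)⁻¹ * (k * (g * x * g⁻¹) * k⁻¹) * (k * x * k⁻¹)⁻¹ := by group
    rw [n1]
    have d1 := hcomm _ m1 _ m2
    have d2 := hcomm _ m1 _ m3
    have d3 := hcomm _ m1 _ hx
    have d4 := hcomm _ m2 _ m3
    have d5 := hcomm _ m2 _ hx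
    have d6 := hcomm _ m3 _ hx
    generalize k * (g * x * g⁻¹) * k⁻¹ = P at *
    generalize k * x * k⁻¹ = Q at *
    generalize g * x * g⁻¹ = R at *
    have D3 : Commute P x := d3
    have D2 : Commute P R := d2
    have D5 : Commute Q x := d5
    have D4 : Commute Q R := d4
    have D6 : Commute R x := d6
    have D : Commute (P * Q⁻¹) (R * x⁻¹)⁻¹ :=
      ((D2.mul_right D3.inv_right).inv_right).mul_left
        ((D4.mul_right D5.inv_right).inv_right).inv_left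
    calc P * Q⁻¹ * (R * x⁻¹)⁻¹ = (R * x⁻¹)⁻¹ * (P * Q⁻¹) := D.eq
      _ = x * R⁻¹ * (P * Q⁻¹) := by rw [mul_inv_rev, inv_inv]
      _ = x * R⁻¹ * P * Q⁻¹ := by group
  have hB : Additive.ofMul (MulAut.conjNormal c (MulAut.conjNormal b (⟨x, hx⟩ : A)) /
        MulAut.conjNormal c (⟨x, hx⟩ : A) / (MulAut.conjNormal b (⟨x, hx⟩ : A) / ⟨x, hx⟩)) +
      Additive.ofMul (MulAut.conjNormal b (MulAut.conjNormal c (⟨x, hx⟩ : A)) /
        MulAut.conjNormal b (⟨x, hx⟩ : A) / (MulAut.conjNormal c (⟨x, hx⟩ : A) / ⟨x, hx⟩)) = 0 := by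
    rw [← e2, ← e2]
    exact hA
  have hC := congrArg (fun y : Additive A => ((Additive.toMul y : A) : G)) hB
  have hD : ⁅⁅x, b⁆, c⁆ * ⁅⁅x, c⁆, b⁆ = 1 := by
    rw [← e3, ← e3]
    exact hC
  exact eq_inv_of_mul_eq_one_left hD

/-- `⁅⁅a, b⁆, c⁆ = ⁅⁅b, a⁆, c⁆⁻¹` -/
theorem exp3_swap_left (a b c : G) : ⁅⁅a, b⁆, c⁆ = ⁅⁅b, a⁆, c⁆⁻¹ := by
  rw [← commutatorElement_inv b a, exp3_inv_left h3]

/-- `⁅⁅a, b⁆, c⁆ = ⁅⁅b, c⁆, a⁆` -/
theorem exp3_cyc (a b c : G) : ⁅⁅a, b⁆, c⁆ = ⁅⁅b, c⁆, a⁆ := by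
  rw [exp3_swap_left h3 a b c, exp3_swap_right h3 b a c, inv_inv]

/-- the group has class at most three -/
theorem exp3_class (a b c d : G) : ⁅⁅⁅a, b⁆, c⁆, d⁆ = 1 := by
  have e1 : ⁅⁅⁅a, b⁆, c⁆, d⁆ = ⁅⁅c, d⁆, ⁅a, b⁆⁆ := exp3_cyc h3 _ _ _
  have e2 : ⁅⁅⁅c, d⁆, a⁆, b⁆ = ⁅⁅a, b⁆, ⁅c, d⁆⁆ := exp3_cyc h3 _ _ _
  have e3 : ⁅⁅⁅a, b⁆, c⁆, d⁆ = ⁅⁅⁅c, d⁆, a⁆, b⁆⁻¹ := by
    rw [e1, e2, commutatorElement_inv]
  -- the permutation `(a c)(b d)` is even
  have e4 : ⁅⁅⁅a, b⁆, c⁆, d⁆ = ⁅⁅⁅c, d⁆, a⁆, b⁆ := by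
    have s1 : ⁅⁅⁅a, b⁆, c⁆, d⁆ = ⁅⁅⁅a, c⁆, b⁆, d⁆⁻¹ := by
      rw [exp3_swap_right h3 a b c, exp3_inv_left h3]
    have s2 : ⁅⁅⁅a, c⁆, b⁆, d⁆ = ⁅⁅⁅a, c⁆, d⁆, b⁆⁻¹ := exp3_swap_right h3 _ _ _
    have s3 : ⁅⁅⁅a, c⁆, d⁆, b⁆ = ⁅⁅⁅c, d⁆, a⁆, b⁆ := by rw [exp3_cyc h3 a c d]
    rw [s1, s2, s3, inv_inv]
  have e5 : ⁅⁅⁅a, b⁆, c⁆, d⁆ = ⁅⁅⁅a, b⁆, c⁆, d⁆⁻¹ := by
    nth_rewrite 1 [e3]
    rw [← e4]
  have e6 := h3 ⁅⁅⁅a, b⁆, c⁆, d⁆
  generalize ⁅⁅⁅a, b⁆, c⁆, d⁆ = T at *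
  have e7 : T * T = 1 := by
    nth_rewrite 1 [e5]
    exact inv_mul_cancel T
  rw [pow_three, e7, mul_one] at e6
  exact e6

theorem exp3_central (a b c : G) : ⁅⁅a, b⁆, c⁆ ∈ Subgroup.center G := by
  rw [Subgroup.mem_center_iff]
  intro g
  have := exp3_class h3 a b c g
  rw [commutatorElement_eq_one_iff_commute] at this
  exact this.symm.eq

omit h3 in
/-- the product rule in the second variable -/
theorem comm_mul_right' (a b c : G) : ⁅a, b * c⁆ = ⁅a, b⁆ * (b * ⁅a, c⁆ * b⁻¹) := by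
  simp only [commutatorElement_def]; group

omit h3 in
/-- the product rule in the first variable -/
theorem comm_mul_left' (a b c : G) : ⁅a * b, c⁆ = (a * ⁅b, c⁆ * a⁻¹) * ⁅a, c⁆ := by
  simp only [commutatorElement_def]; group

theorem exp3_lcs1 {w : G} (hw : w ∈ (⊤ : Subgroup G).lowerCentralSeries 1) (c : G) :
    ⁅w, c⁆ ∈ Subgroup.center G := by
  have hcen : ∀ z ∈ Subgroup.center G, ∀ g : G, g * z * g⁻¹ ∈ Subgroup.center G := fun z hz g =>
    Subgroup.Normal.conj_mem inferInstance z hz g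
  rw [Subgroup.mem_lowerCentralSeries_succ_iff] at hw
  induction hw using Subgroup.closure_induction generalizing c with
  | mem x hx =>
    obtain ⟨p, _, q, _, rfl⟩ := hx
    exact exp3_central h3 p q c
  | one => rw [commutatorElement_one_left]; exact Subgroup.one_mem _
  | mul x y _ _ hx hy =>
    rw [comm_mul_left']
    exact Subgroup.mul_mem _ (hcen _ (hy c) x) (hx c)
  | inv x _ hx =>
    rw [exp3_inv_left h3]
    exact Subgroup.inv_mem _ (hx c)

/-- the group is nilpotent of class at most three -/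
theorem exp3_lcs3 : (⊤ : Subgroup G).lowerCentralSeries 3 = ⊥ := by
  have h2 : (⊤ : Subgroup G).lowerCentralSeries 2 ≤ Subgroup.center G := by
    intro w hw
    rw [Subgroup.mem_lowerCentralSeries_succ_iff] at hw
    induction hw using Subgroup.closure_induction with
    | mem x hx =>
      obtain ⟨p, hp, q, _, rfl⟩ := hx
      exact exp3_lcs1 h3 hp q
    | one => exact Subgroup.one_mem _
    | mul x y _ _ hx hy => exact Subgroup.mul_mem _ hx hy
    | inv x _ hx => exact Subgroup.inv_mem _ hx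
  rw [eq_bot_iff]
  intro w hw
  rw [Subgroup.mem_lowerCentralSeries_succ_iff] at hw
  induction hw using Subgroup.closure_induction with
  | mem x hx =>
    obtain ⟨p, hp, q, _, rfl⟩ := hx
    have h4 := h2 hp
    rw [Subgroup.mem_center_iff] at h4
    rw [Subgroup.mem_bot, commutatorElement_eq_one_iff_mul_comm]
    exact (h4 q).symm
  | one => exact Subgroup.one_mem _
  | mul x y _ _ hx hy => exact Subgroup.mul_mem _ hx hy
  | inv x _ hx => exact Subgroup.inv_mem _ hx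

theorem exp3_lcs2_central {w : G} (hw : w ∈ (⊤ : Subgroup G).lowerCentralSeries 2) :
    w ∈ Subgroup.center G := by
  rw [Subgroup.mem_lowerCentralSeries_succ_iff] at hw
  induction hw using Subgroup.closure_induction with
  | mem x hx =>
    obtain ⟨p, hp, q, _, rfl⟩ := hx
    exact exp3_lcs1 h3 hp q
  | one => exact Subgroup.one_mem _
  | mul x y _ _ hx hy => exact Subgroup.mul_mem _ hx hy
  | inv x _ hx => exact Subgroup.inv_mem _ hx

/-- additivity in the last variable -/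
theorem exp3_add_last (a b c d : G) : ⁅⁅a, b⁆, c * d⁆ = ⁅⁅a, b⁆, c⁆ * ⁅⁅a, b⁆, d⁆ := by
  have h := Subgroup.mem_center_iff.mp (exp3_central h3 a b d) c
  rw [comm_mul_right', h, mul_inv_cancel_right]

/-- additivity in the middle variable -/
theorem exp3_add_mid (a b c d : G) : ⁅⁅a, b * c⁆, d⁆ = ⁅⁅a, b⁆, d⁆ * ⁅⁅a, c⁆, d⁆ := by
  rw [exp3_swap_right h3 a (b * c) d, exp3_add_last h3, exp3_swap_right h3 a b d,
    exp3_swap_right h3 a c d, ← mul_inv_rev]
  have h := Subgroup.mem_center_iff.mp (exp3_central h3 a d b) ⁅⁅a, d⁆, c⁆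
  rw [h]

/-- additivity in the first variable -/
theorem exp3_add_first (a b c d : G) : ⁅⁅a * b, c⁆, d⁆ = ⁅⁅a, c⁆, d⁆ * ⁅⁅b, c⁆, d⁆ := by
  rw [exp3_cyc h3 (a * b) c d, exp3_cyc h3 a c d, exp3_cyc h3 b c d, exp3_add_last h3]

/-- In a group of exponent three generated by a set `X`, `⁅⁅a, b⁆, c⁆` lies in every subgroup
containing the `⁅⁅x, y⁆, z⁆`, `x, y, z ∈ X`. -/
theorem exp3_triple_mem {X : Set G} (hX : Subgroup.closure X = ⊤) (Z : Subgroup G)
    (hZ : ∀ x ∈ X, ∀ y ∈ X, ∀ z ∈ X, ⁅⁅x, y⁆, z⁆ ∈ Z) (a b c : G) : ⁅⁅a, b⁆, c⁆ ∈ Z := by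
  have mt : ∀ g : G, g ∈ Subgroup.closure X := fun g => by rw [hX]; trivial
  have s1 : ∀ x ∈ X, ∀ y ∈ X, ∀ c : G, ⁅⁅x, y⁆, c⁆ ∈ Z := by
    intro x hx y hy c
    induction mt c using Subgroup.closure_induction with
    | mem z hz => exact hZ x hx y hy z hz
    | one => rw [commutatorElement_one_right]; exact Z.one_mem
    | mul p q _ _ hp hq => rw [exp3_add_last h3]; exact Z.mul_mem hp hq
    | inv p _ hp => rw [exp3_inv_right h3]; exact Z.inv_mem hp
  have s2 : ∀ x ∈ X, ∀ b c : G, ⁅⁅x, b⁆, c⁆ ∈ Z := by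
    intro x hx b c
    induction mt b using Subgroup.closure_induction with
    | mem z hz => exact s1 x hx z hz c
    | one => rw [commutatorElement_one_right, commutatorElement_one_left]; exact Z.one_mem
    | mul p q _ _ hp hq => rw [exp3_add_mid h3]; exact Z.mul_mem hp hq
    | inv p _ hp => rw [exp3_inv_right h3, exp3_inv_left h3]; exact Z.inv_mem hp
  induction mt a using Subgroup.closure_induction with
  | mem z hz => exact s2 z hz b c
  | one => rw [commutatorElement_one_left, commutatorElement_one_left]; exact Z.one_mem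
  | mul p q _ _ hp hq => rw [exp3_add_first h3]; exact Z.mul_mem hp hq
  | inv p _ hp => rw [exp3_inv_left h3, exp3_inv_left h3]; exact Z.inv_mem hp

/-- the second term of the lower central series, generators -/
theorem exp3_lcs2_mem {X : Set G} (hX : Subgroup.closure X = ⊤) (Z : Subgroup G)
    (hZ : ∀ x ∈ X, ∀ y ∈ X, ∀ z ∈ X, ⁅⁅x, y⁆, z⁆ ∈ Z) :
    (⊤ : Subgroup G).lowerCentralSeries 2 ≤ Z := by
  intro w hw
  rw [Subgroup.mem_lowerCentralSeries_succ_iff] at hw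
  have key : ∀ p ∈ (⊤ : Subgroup G).lowerCentralSeries 1, ∀ q : G, ⁅p, q⁆ ∈ Z := by
    intro p hp
    rw [Subgroup.mem_lowerCentralSeries_succ_iff] at hp
    induction hp using Subgroup.closure_induction with
    | mem x hx =>
      obtain ⟨p, _, q, _, rfl⟩ := hx
      intro r
      exact exp3_triple_mem h3 hX Z hZ p q r
    | one => intro q; rw [commutatorElement_one_left]; exact Z.one_mem
    | mul x y hx' hy' hx hy =>
      intro q
      have hyc : ⁅y, q⁆ ∈ Subgroup.center G := exp3_lcs1 h3 hy' q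
      have h := Subgroup.mem_center_iff.mp hyc x
      rw [comm_mul_left', h, mul_inv_cancel_right]
      exact Z.mul_mem (hy q) (hx q)
    | inv x _ hx =>
      intro q
      rw [exp3_inv_left h3]
      exact Z.inv_mem (hx q)
  induction hw using Subgroup.closure_induction with
  | mem x hx =>
    obtain ⟨p, hp, q, _, rfl⟩ := hx
    exact key p hp q
  | one => exact Z.one_mem
  | mul x y _ _ hx hy => exact Z.mul_mem hx hy
  | inv x _ hx => exact Z.inv_mem hx

theorem exp3_rep_left (a b : G) : ⁅⁅a, b⁆, a⁆ = 1 := by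
  rw [commutatorElement_eq_one_iff_commute]; exact exp3_comm_left h3 a b

theorem exp3_rep_right (a b : G) : ⁅⁅a, b⁆, b⁆ = 1 := by
  rw [commutatorElement_eq_one_iff_commute]; exact exp3_comm_right h3 a b

/-- In a group of exponent three generated by `a, b, c` every element of the second term of the
lower central series is a power of `⁅⁅a, b⁆, c⁆`. -/
theorem exp3_three_gen (a b c : G) (hX : Subgroup.closure ({a, b, c} : Set G) = ⊤) :
    (⊤ : Subgroup G).lowerCentralSeries 2 ≤ Subgroup.zpowers ⁅⁅a, b⁆, c⁆ := by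
  refine exp3_lcs2_mem h3 hX _ ?_
  set t := ⁅⁅a, b⁆, c⁆ with ht
  have t0 : t ∈ Subgroup.zpowers t := Subgroup.mem_zpowers t
  have t1 : t⁻¹ ∈ Subgroup.zpowers t := Subgroup.inv_mem _ t0
  have o : (1 : G) ∈ Subgroup.zpowers t := Subgroup.one_mem _
  have e1 : ⁅⁅b, a⁆, c⁆ = t⁻¹ := by rw [exp3_swap_left h3 b a c]
  have e2 : ⁅⁅a, c⁆, b⁆ = t⁻¹ := by rw [exp3_swap_right h3 a c b]
  have e3 : ⁅⁅b, c⁆, a⁆ = t := (exp3_cyc h3 a b c).symm
  have e4 : ⁅⁅c, b⁆, a⁆ = t⁻¹ := by rw [exp3_swap_left h3 c b a, e3]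
  have e5 : ⁅⁅c, a⁆, b⁆ = t := by rw [exp3_swap_left h3 c a b, e2, inv_inv]
  rintro x (rfl | rfl | rfl) y (rfl | rfl | rfl) z (rfl | rfl | rfl) <;>
    simp only [commutatorElement_self, commutatorElement_one_left, exp3_rep_left h3,
      exp3_rep_right h3, ← ht, e1, e2, e3, e4, e5] <;> assumption

end

end Pool.Agent.CSP3
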