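import Pool.Agent.CSP3.Base
import Pool.Agent.CSP3.Exp3

/-!
# Homomorphisms from a free group to a group, with image of exponent three (MODULE EXPHOM)
-/

set_option autoImplicit false

namespace Pool.Agent.CSP3

open scoped commutatorElement

variable {n : ℕ} {G : Type*} [Group G]

/-- `gam n k` is the term `γ_{k+1}` of the lower central series of `F n`: `gam n 0 = ⊤`,
`gam n 1 = [F, F]`. -/
abbrev gam (n k : ℕ) : Subgroup (F n) := (⊤ : Subgroup (F n)).lowerCentralSeries k

section
variable (ρ : F n →* G) (h : ∀ w, ρ w ^ 3 = 1)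
include h

theorem range_exp3 (g : ρ.range) : g ^ 3 = 1 := by
  obtain ⟨_, w, rfl⟩ := g
  exact Subtype.ext (h w)

theorem he_gamma4 {w : F n} (hw : w ∈ gam n 3) : ρ w = 1 := by
  have h1 : ρ.rangeRestrict w ∈ (⊤ : Subgroup ρ.range).lowerCentralSeries 3 :=
    Subgroup.lowerCentralSeries.map ρ.rangeRestrict 3 (Subgroup.mem_map_of_mem _ hw)
  rw [exp3_lcs3 (range_exp3 ρ h), Subgroup.mem_bot] at h1
  exact congrArg Subtype.val h1

theorem he_comm_right (a b : F n) : Commute (ρ ⁅a, b⁆) (ρ b) := by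
  have := exp3_comm_right (range_exp3 ρ h) (ρ.rangeRestrict a) (ρ.rangeRestrict b)
  rw [← map_commutatorElement] at this
  exact congrArg Subtype.val this

theorem he_comm_left (a b : F n) : Commute (ρ ⁅a, b⁆) (ρ a) := by
  have := exp3_comm_left (range_exp3 ρ h) (ρ.rangeRestrict a) (ρ.rangeRestrict b)
  rw [← map_commutatorElement] at this
  exact congrArg Subtype.val this

theorem he_inv_left (a b : F n) : ρ ⁅a⁻¹, b⁆ = (ρ ⁅a, b⁆)⁻¹ := by
  have := exp3_inv_left (range_exp3 ρ h) (ρ.rangeRestrict a) (ρ.rangeRestrict b)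
  rw [← map_inv, ← map_commutatorElement, ← map_commutatorElement] at this
  exact congrArg Subtype.val this

theorem he_inv_right (a b : F n) : ρ ⁅a, b⁻¹⁆ = (ρ ⁅a, b⁆)⁻¹ := by
  have := exp3_inv_right (range_exp3 ρ h) (ρ.rangeRestrict a) (ρ.rangeRestrict b)
  rw [← map_inv, ← map_commutatorElement, ← map_commutatorElement] at this
  exact congrArg Subtype.val this

theorem he_cyc (a b c : F n) : ρ ⁅⁅a, b⁆, c⁆ = ρ ⁅⁅b, c⁆, a⁆ := by
  have := exp3_cyc (range_exp3 ρ h) (ρ.rangeRestrict a) (ρ.rangeRestrict b) (ρ.rangeRestrict c)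
  simp only [← map_commutatorElement] at this
  exact congrArg Subtype.val this

/-- swapping the last two entries -/
theorem he_swap (a b c : F n) : ρ ⁅⁅a, c⁆, b⁆ = (ρ ⁅⁅a, b⁆, c⁆)⁻¹ := by
  have := exp3_swap_right (range_exp3 ρ h) (ρ.rangeRestrict a) (ρ.rangeRestrict c)
    (ρ.rangeRestrict b)
  simp only [← map_commutatorElement] at this
  exact congrArg Subtype.val this

/-- swapping the first two entries -/
theorem he_swap' (a b c : F n) : ρ ⁅⁅b, a⁆, c⁆ = (ρ ⁅⁅a, b⁆, c⁆)⁻¹ := by
  have := exp3_swap_left (range_exp3 ρ h) (ρ.rangeRestrict b) (ρ.rangeRestrict a)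
    (ρ.rangeRestrict c)
  simp only [← map_commutatorElement] at this
  exact congrArg Subtype.val this

/-- `γ_3` commutes with everything -/
theorem he_gam3 {w : F n} (hw : w ∈ gam n 2) (v : F n) : Commute (ρ w) (ρ v) := by
  have h1 : ρ.rangeRestrict w ∈ (⊤ : Subgroup ρ.range).lowerCentralSeries 2 :=
    Subgroup.lowerCentralSeries.map ρ.rangeRestrict 2 (Subgroup.mem_map_of_mem _ hw)
  have h2 := Subgroup.mem_center_iff.mp (exp3_lcs2_central (range_exp3 ρ h) h1)
    (ρ.rangeRestrict v)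
  exact congrArg Subtype.val h2.symm

/-- `γ_3` is generated by the commutators `⁅⁅x j, x k⁆, x l⁆` with `j < k < l` -/
theorem he_gen3 {w : F n} (hw : w ∈ gam n 2) :
    ρ w ∈ Subgroup.closure {g | ∃ j k l : Fin n, j < k ∧ k < l ∧ g = ρ ⁅⁅x j, x k⁆, x l⁆} := by
  have h1 : ρ.rangeRestrict w ∈ (⊤ : Subgroup ρ.range).lowerCentralSeries 2 :=
    Subgroup.lowerCentralSeries.map ρ.rangeRestrict 2 (Subgroup.mem_map_of_mem _ hw)
  set K := Subgroup.closure {g | ∃ j k l : Fin n, j < k ∧ k < l ∧ g = ρ ⁅⁅x j, x k⁆, x l⁆}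
    with hK
  have hX : Subgroup.closure (Set.range fun i : Fin n => ρ.rangeRestrict (x i)) = ⊤ := by
    have : (Set.range fun i : Fin n => ρ.rangeRestrict (x i)) =
        ρ.rangeRestrict '' Set.range (fun i : Fin n => x i) := by
      rw [← Set.range_comp]; rfl
    rw [this, ← MonoidHom.map_closure, FreeGroup.closure_range_of, ← MonoidHom.range_eq_map]
    exact MonoidHom.range_eq_top.mpr ρ.rangeRestrict_surjective
  have key : ∀ i j k : Fin n, ρ ⁅⁅x i, x j⁆, x k⁆ ∈ K := by
    -- all orders from the increasing one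
    have base : ∀ i j k : Fin n, i < j → j < k → ρ ⁅⁅x i, x j⁆, x k⁆ ∈ K := fun i j k h1 h2 =>
      Subgroup.subset_closure ⟨i, j, k, h1, h2, rfl⟩
    have b2 : ∀ i j k : Fin n, i < j → ρ ⁅⁅x i, x j⁆, x k⁆ ∈ K := by
      intro i j k hij
      rcases lt_trichotomy j k with hjk | hjk | hjk
      · exact base i j k hij hjk
      · subst hjk
        have : ρ ⁅⁅x i, x j⁆, x j⁆ = 1 := by
          rw [map_commutatorElement]
          exact commutatorElement_eq_one_iff_commute.mpr (he_comm_right ρ h _ _)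
        rw [this]; exact K.one_mem
      · rcases lt_trichotomy i k with hik | hik | hik
        · rw [he_swap ρ h]; exact K.inv_mem (base i k j hik hjk)
        · subst hik
          have : ρ ⁅⁅x i, x j⁆, x i⁆ = 1 := by
            rw [map_commutatorElement]
            exact commutatorElement_eq_one_iff_commute.mpr (he_comm_left ρ h _ _)
          rw [this]; exact K.one_mem
        · rw [← he_cyc ρ h (x k) (x i) (x j)]; exact base k i j hik hij
    intro i j k
    rcases lt_trichotomy i j with hij | hij | hij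
    · exact b2 i j k hij
    · subst hij
      rw [commutatorElement_self, commutatorElement_one_left, map_one]; exact K.one_mem
    · rw [he_swap' ρ h]; exact K.inv_mem (b2 j i k hij)
  have h2 := exp3_lcs2_mem (range_exp3 ρ h) hX (K.comap ρ.range.subtype) (by
    rintro _ ⟨i, rfl⟩ _ ⟨j, rfl⟩ _ ⟨k, rfl⟩
    rw [Subgroup.mem_comap]
    have := key i j k
    simp only [map_commutatorElement] at this ⊢
    exact this) h1
  exact h2

end

/-- if `ρ` kills `γ_3`, then the image of `γ_2` is generated by the commutators of generators -/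
theorem gen2 (ρ : F n →* G) (h : ∀ w ∈ gam n 2, ρ w = 1) {w : F n} (hw : w ∈ gam n 1) :
    ρ w ∈ Subgroup.closure {g | ∃ j k : Fin n, j < k ∧ g = ρ ⁅x j, x k⁆} := by
  set K := Subgroup.closure {g | ∃ j k : Fin n, j < k ∧ g = ρ ⁅x j, x k⁆} with hK
  have h1 : ∀ a b : F n, ⁅a, b⁆ ∈ gam n 1 := fun a b =>
    Subgroup.commutator_mem_commutator (Subgroup.mem_top a) (Subgroup.mem_top b)
  -- the images of the commutators are central in the image
  have hc : ∀ a b c : F n, ρ c * ρ ⁅a, b⁆ * (ρ c)⁻¹ = ρ ⁅a, b⁆ := by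
    intro a b c
    have h2 : ⁅⁅a, b⁆, c⁆ ∈ gam n 2 :=
      Subgroup.commutator_mem_commutator (h1 a b) (Subgroup.mem_top c)
    have h3 := h _ h2
    rw [map_commutatorElement, commutatorElement_eq_one_iff_mul_comm] at h3
    rw [← h3, mul_inv_cancel_right]
  have hl : ∀ a b c : F n, ρ ⁅a * b, c⁆ = ρ ⁅b, c⁆ * ρ ⁅a, c⁆ := by
    intro a b c
    have e : ⁅a * b, c⁆ = a * ⁅b, c⁆ * a⁻¹ * ⁅a, c⁆ := by
      simp only [commutatorElement_def]; group
    rw [e, map_mul, map_mul, map_mul, map_inv, hc]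
  have hli : ∀ a c : F n, ρ ⁅a⁻¹, c⁆ = (ρ ⁅a, c⁆)⁻¹ := by
    intro a c
    have := hl a a⁻¹ c
    rw [mul_inv_cancel, commutatorElement_one_left, map_one] at this
    exact eq_inv_of_mul_eq_one_left this.symm
  have hanti : ∀ a c : F n, ρ ⁅a, c⁆ = (ρ ⁅c, a⁆)⁻¹ := by
    intro a c
    rw [← map_inv, commutatorElement_inv]
  -- generators
  have hg : ∀ j k : Fin n, ρ ⁅x j, x k⁆ ∈ K := by
    intro j k
    rcases lt_trichotomy j k with hjk | hjk | hjk
    · exact Subgroup.subset_closure ⟨j, k, hjk, rfl⟩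
    · subst hjk
      rw [commutatorElement_self, map_one]; exact K.one_mem
    · rw [hanti]
      exact K.inv_mem (Subgroup.subset_closure ⟨k, j, hjk, rfl⟩)
  have hind : ∀ c : F n, (∀ j : Fin n, ρ ⁅x j, c⁆ ∈ K) → ∀ a : F n, ρ ⁅a, c⁆ ∈ K := by
    intro c hcj a
    induction a using FreeGroup.induction_on with
    | C1 => rw [commutatorElement_one_left, map_one]; exact K.one_mem
    | of j => exact hcj j
    | inv_of j _ => rw [hli]; exact K.inv_mem (hcj j)
    | mul a b ha hb => rw [hl]; exact K.mul_mem hb ha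
  have hall : ∀ a c : F n, ρ ⁅a, c⁆ ∈ K := by
    intro a c
    refine hind c (fun j => ?_) a
    rw [hanti]
    exact K.inv_mem (hind (x j) (fun k => hg k j) c)
  have hle : gam n 1 ≤ K.comap ρ := by
    have h4 : gam n 1 = ⁅(⊤ : Subgroup (F n)), (⊤ : Subgroup (F n))⁆ := rfl
    rw [h4, Subgroup.commutator_le]
    intro a _ c _
    exact hall a c
  exact hle hw

end Pool.Agent.CSP3
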