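import Pool.Agent.CSP3.NielsenGen
import Pool.Agent.CSP3.Cubes

/-!
# Nielsen's theorem in terms of the elementary Nielsen automorphisms
-/

set_option autoImplicit false
set_option linter.unusedSectionVars false

namespace Pool.Agent.CSP3

open FreeGroup hiding map_mul map_inv map_one norm norm_one

section

variable {α : Type} [DecidableEq α]

theorem of_mem_others {i j : α} (h : j ≠ i) :
    (of j : FreeGroup α) ∈ Subgroup.closure (of '' {j | j ≠ i}) :=
  Subgroup.subset_closure ⟨j, h, rfl⟩

/-- the endomorphism `x_i ↦ u x_i`, `x_j ↦ x_j` -/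
def ltransv (i : α) (u : FreeGroup α) : FreeGroup α →* FreeGroup α :=
  FreeGroup.lift (fun j => if j = i then u * FreeGroup.of i else FreeGroup.of j)

theorem ltransv_of (i : α) (u : FreeGroup α) :
    ltransv i u (FreeGroup.of i) = u * FreeGroup.of i := by
  simp [ltransv]

theorem ltransv_of_ne {i j : α} (h : j ≠ i) (u : FreeGroup α) :
    ltransv i u (FreeGroup.of j) = FreeGroup.of j := by
  simp [ltransv, h]

theorem ltransv_fix {i : α} (u : FreeGroup α) {v : FreeGroup α}
    (hv : v ∈ Subgroup.closure (FreeGroup.of '' {j | j ≠ i})) : ltransv i u v = v := by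
  induction hv using Subgroup.closure_induction with
  | mem x hx =>
    obtain ⟨j, hj, rfl⟩ := hx
    exact ltransv_of_ne hj u
  | one => exact map_one _
  | mul x y _ _ hx hy => rw [map_mul, hx, hy]
  | inv x _ hx => rw [map_inv, hx]

theorem ltransv_comp {i : α} {u v : FreeGroup α}
    (hv : v ∈ Subgroup.closure (FreeGroup.of '' {j | j ≠ i})) :
    (ltransv i u).comp (ltransv i v) = ltransv i (v * u) := by
  ext j
  by_cases h : j = i
  · subst h
    rw [MonoidHom.comp_apply, ltransv_of, map_mul, ltransv_of, ltransv_fix u hv, ltransv_of,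
      mul_assoc]
  · rw [MonoidHom.comp_apply, ltransv_of_ne h, ltransv_of_ne h, ltransv_of_ne h]

theorem ltransv_one (i : α) : ltransv i 1 = MonoidHom.id (FreeGroup α) := by
  ext j
  by_cases h : j = i
  · subst h; rw [ltransv_of, one_mul]; rfl
  · rw [ltransv_of_ne h]; rfl

/-- the automorphism `x_i ↦ u x_i`, `x_j ↦ x_j`, where `u` does not involve `x_i` -/
def ltransvEquiv (i : α) (u : FreeGroup α)
    (hu : u ∈ Subgroup.closure (FreeGroup.of '' {j | j ≠ i})) : FreeGroup α ≃* FreeGroup α :=
  MonoidHom.toMulEquiv (ltransv i u) (ltransv i u⁻¹)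
    (by rw [ltransv_comp hu, mul_inv_cancel, ltransv_one])
    (by rw [ltransv_comp (Subgroup.inv_mem _ hu), inv_mul_cancel, ltransv_one])

/-- the inversion of `x_i` -/
def inversion (i : α) : FreeGroup α →* FreeGroup α :=
  FreeGroup.lift (fun j => if j = i then (FreeGroup.of i)⁻¹ else FreeGroup.of j)

theorem inversion_of (i : α) : inversion i (FreeGroup.of i) = (FreeGroup.of i)⁻¹ := by
  simp [inversion]

theorem inversion_of_ne {i j : α} (h : j ≠ i) : inversion i (FreeGroup.of j) = FreeGroup.of j := by
  simp [inversion, h]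

theorem inversion_comp (i : α) : (inversion i).comp (inversion i) = MonoidHom.id (FreeGroup α) := by
  ext j
  by_cases h : j = i
  · subst h
    rw [MonoidHom.comp_apply, inversion_of, map_inv, inversion_of, inv_inv]; rfl
  · rw [MonoidHom.comp_apply, inversion_of_ne h, inversion_of_ne h]; rfl

/-- the inversion of `x_i` as an automorphism -/
def inversionEquiv (i : α) : FreeGroup α ≃* FreeGroup α :=
  MonoidHom.toMulEquiv (inversion i) (inversion i) (inversion_comp i) (inversion_comp i)

variable [Fintype α]

/-- **Nielsen's theorem**: the elementary Nielsen automorphisms generate. -/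
theorem nielsen_top (H : Subgroup (MulAut (FreeGroup α)))
    (hR : ∀ i j : α, i ≠ j → ∀ ν : MulAut (FreeGroup α), ν (of i) = of i * of j →
      (∀ k, k ≠ i → ν (of k) = of k) → ν ∈ H)
    (hL : ∀ i j : α, i ≠ j → ∀ ν : MulAut (FreeGroup α), ν (of i) = of j * of i →
      (∀ k, k ≠ i → ν (of k) = of k) → ν ∈ H)
    (hS : ∀ i : α, ∀ ν : MulAut (FreeGroup α), ν (of i) = (of i)⁻¹ →
      (∀ k, k ≠ i → ν (of k) = of k) → ν ∈ H)
    (hP : ∀ i j : α, i ≠ j → ∀ ν : MulAut (FreeGroup α), ν (of i) = of j → ν (of j) = of i →
      (∀ k, k ≠ i → k ≠ j → ν (of k) = of k) → ν ∈ H) : H = ⊤ := by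
  rw [eq_top_iff]
  intro φ _
  have mkt : ∀ i : α, (mk [(i, true)] : FreeGroup α) = of i := fun i => rfl
  have mkf : ∀ i : α, (mk [(i, false)] : FreeGroup α) = (of i)⁻¹ := fun i => by
    rw [← mkt i]; simp [invRev]
  have hinv : ∀ (ν : MulAut (FreeGroup α)) (g h : FreeGroup α), ν g = h → ν⁻¹ h = g := by
    intro ν g h e
    rw [← e, ← MulAut.mul_apply, inv_mul_cancel, MulAut.one_apply]
  refine nielsen_gen H ?_ ?_ φ
  · rintro ⟨i, s⟩ ⟨j, t⟩ hij
    simp only at hij
    let ρ : MulAut (FreeGroup α) := transvEquiv i (of j) (of_mem_others (Ne.symm hij))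
    have r1 : ρ (of i) = of i * of j := transv_of i _
    have r2 : ∀ k, k ≠ i → ρ (of k) = of k := fun k hk => transv_of_ne hk _
    let μ : MulAut (FreeGroup α) := ltransvEquiv i (of j) (of_mem_others (Ne.symm hij))
    have m1 : μ (of i) = of j * of i := ltransv_of i _
    have m2 : ∀ k, k ≠ i → μ (of k) = of k := fun k hk => ltransv_of_ne hk _
    have hρ := hR i j hij ρ r1 r2
    have hμ := hL i j hij μ m1 m2
    have r3 : ρ⁻¹ (of i) = of i * (of j)⁻¹ := by
      apply hinv
      rw [map_mul, map_inv, r1, r2 j (Ne.symm hij), mul_assoc, mul_inv_cancel, mul_one]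
    have r4 : ∀ k, k ≠ i → ρ⁻¹ (of k) = of k := fun k hk => hinv _ _ _ (r2 k hk)
    have m3 : μ⁻¹ (of i) = (of j)⁻¹ * of i := by
      apply hinv
      rw [map_mul, map_inv, m1, m2 j (Ne.symm hij), inv_mul_cancel_left]
    have m4 : ∀ k, k ≠ i → μ⁻¹ (of k) = of k := fun k hk => hinv _ _ _ (m2 k hk)
    cases s <;> cases t
    · exact ⟨μ, hμ, by rw [mkf, mkf, map_inv, m1, mul_inv_rev], m2⟩
    · exact ⟨μ⁻¹, inv_mem hμ, by rw [mkf, mkt, map_inv, m3, mul_inv_rev, inv_inv], m4⟩
    · exact ⟨ρ⁻¹, inv_mem hρ, by rw [mkf, mkt, r3], r4⟩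
    · exact ⟨ρ, hρ, by rw [mkt, mkt, r1], r2⟩
  · intro ψ hψ
    -- permutations
    have hperm : ∀ σ : Equiv.Perm α, (freeGroupCongr σ : MulAut (FreeGroup α)) ∈ H := by
      intro σ
      induction σ using Equiv.Perm.swap_induction_on with
      | one =>
        have : (freeGroupCongr (1 : Equiv.Perm α) : MulAut (FreeGroup α)) = 1 := by
          apply MulEquiv.toMonoidHom_injective
          ext i
          simp
        rw [this]; exact H.one_mem
      | swap_mul σ x y hxy ih =>
        have : (freeGroupCongr (Equiv.swap x y * σ) : MulAut (FreeGroup α)) =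
            (freeGroupCongr (Equiv.swap x y) : MulAut (FreeGroup α)) * freeGroupCongr σ := by
          apply MulEquiv.toMonoidHom_injective
          ext i
          simp [MulAut.mul_apply]
        rw [this]
        refine H.mul_mem (hP x y hxy _ ?_ ?_ ?_) ih
        · simp
        · simp
        · intro k hx hy
          simp [Equiv.swap_apply_of_ne_of_ne hx hy]
    -- signs
    have hsign : ∀ (s : Finset α) (ν : MulAut (FreeGroup α)),
        (∀ i ∈ s, ν (of i) = of i ∨ ν (of i) = (of i)⁻¹) → (∀ i, i ∉ s → ν (of i) = of i) →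
        ν ∈ H := by
      intro s
      induction s using Finset.induction_on with
      | empty =>
        intro ν _ h2
        have : ν = 1 := by
          apply MulEquiv.toMonoidHom_injective
          ext i
          exact h2 i (Finset.notMem_empty i)
        rw [this]; exact H.one_mem
      | insert i s hi ih =>
        intro ν h1 h2
        rcases h1 i (Finset.mem_insert_self i s) with h | h
        · refine ih ν (fun k hk => h1 k (Finset.mem_insert_of_mem hk)) fun k hk => ?_
          by_cases hki : k = i
          · rw [hki]; exact h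
          · exact h2 k (by simp [hki, hk])
        · let ι : MulAut (FreeGroup α) := inversionEquiv i
          have i1 : ι (of i) = (of i)⁻¹ := inversion_of i
          have i2 : ∀ k, k ≠ i → ι (of k) = of k := fun k hk => inversion_of_ne hk
          have hι := hS i ι i1 i2
          have h3 : ν * ι ∈ H := by
            refine ih _ (fun k hk => ?_) fun k hk => ?_
            · have hki : k ≠ i := fun e => hi (e ▸ hk)
              rw [MulAut.mul_apply, i2 k hki]
              exact h1 k (Finset.mem_insert_of_mem hk)
            · by_cases hki : k = i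
              · rw [hki, MulAut.mul_apply, i1, map_inv, h, inv_inv]
              · rw [MulAut.mul_apply, i2 k hki]
                exact h2 k (by simp [hki, hk])
          have h4 : ν = (ν * ι) * ι⁻¹ := by group
          rw [h4]
          exact H.mul_mem h3 (inv_mem hι)
    choose a ha using hψ
    have hinj : Function.Injective (fun i => (a i).1) := by
      intro i j hij
      simp only at hij
      by_contra hne
      have h1 : ψ (of i) = ψ (of j) ∨ ψ (of i) = ψ (of j)⁻¹ := by
        rw [map_inv, ha i, ha j]
        rcases hai : a i with ⟨p, s⟩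
        rcases haj : a j with ⟨q, t⟩
        rw [hai, haj] at hij
        simp only at hij
        subst hij
        cases s <;> cases t
        · left; rfl
        · right; rw [mkf, mkt]
        · right; rw [mkf, mkt, inv_inv]
        · left; rfl
      rcases h1 with h1 | h1
      · exact hne (of_injective (ψ.injective h1))
      · have h2 := ψ.injective h1
        have h3 := congrArg FreeGroup.toWord h2
        rw [toWord_inv, toWord_of, toWord_of] at h3
        simp [invRev] at h3
    have hbij : Function.Bijective (fun i => (a i).1) := Finite.injective_iff_bijective.mp hinj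
    let σ : Equiv.Perm α := Equiv.ofBijective _ hbij
    have hσ : ∀ i, σ i = (a i).1 := fun i => rfl
    let P : MulAut (FreeGroup α) := freeGroupCongr σ
    have hPm : P ∈ H := hperm σ
    have h5 : ψ * P⁻¹ ∈ H := by
      refine hsign Finset.univ _ (fun k _ => ?_) fun k hk => absurd (Finset.mem_univ k) hk
      have h6 : P (of (σ.symm k)) = of k := by
        show freeGroupCongr σ (of (σ.symm k)) = of k
        simp
      rw [MulAut.mul_apply, hinv P _ _ h6, ha]
      have h7 : (a (σ.symm k)).1 = k := by rw [← hσ]; simp
      rcases hak : a (σ.symm k) with ⟨p, s⟩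
      rw [hak] at h7
      simp only at h7
      subst h7
      cases s
      · right; rw [mkf]
      · left; rw [mkt]
    have h8 : ψ = (ψ * P⁻¹) * P := by group
    rw [h8]
    exact H.mul_mem h5 hPm

end

end Pool.Agent.CSP3
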