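import Pool.Agent.CSP3.Base
import Pool.Agent.CSP3.NielsenTop

/-!
# The subgroup generated by Magnus' generators is normal
-/

set_option autoImplicit false

namespace Pool.Agent.CSP3

open scoped commutatorElement

variable {n : ℕ}

/-- the subgroup generated by Magnus' generators -/
def J1 (n : ℕ) : Subgroup (A n) :=
  Subgroup.closure ({g | ∃ i j : Fin n, i ≠ j ∧ g = C i (x j)} ∪
    {g | ∃ i j k : Fin n, i ≠ j ∧ i ≠ k ∧ j ≠ k ∧ g = R i ⁅x j, x k⁆})

theorem C_mem_J1 (i : Fin n) (w : F n) : C i w ∈ J1 n := by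
  have h : (⊤ : Subgroup (F n)) ≤ (J1 n).comap (C i) := by
    rw [← FreeGroup.closure_range_of, Subgroup.closure_le]
    rintro _ ⟨j, rfl⟩
    show C i (x j) ∈ J1 n
    by_cases hj : i = j
    · subst hj; rw [C_self]; exact (J1 n).one_mem
    · exact Subgroup.subset_closure (Or.inl ⟨i, j, hj, rfl⟩)
  exact h (Subgroup.mem_top w)

/-- the commutator subgroup of a free group is the normal closure of the commutators of the
generators -/
theorem gam1_le (K : Subgroup (F n)) [hK : K.Normal] (h : ∀ j k : Fin n, ⁅x j, x k⁆ ∈ K) :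
    (⊤ : Subgroup (F n)).lowerCentralSeries 1 ≤ K := by
  have h1 : ∀ (a : F n) (k : Fin n), ⁅a, x k⁆ ∈ K := by
    intro a k
    have h2 : Subgroup.closure (Set.range (fun j : Fin n => x j)) ≤
        (Subgroup.centralizer {(QuotientGroup.mk (x k) : F n ⧸ K)}).comap (QuotientGroup.mk' K) := by
      rw [Subgroup.closure_le]
      rintro _ ⟨j, rfl⟩
      show QuotientGroup.mk' K (x j) ∈ Subgroup.centralizer {(QuotientGroup.mk (x k) : F n ⧸ K)}
      rw [Subgroup.mem_centralizer_singleton_iff]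
      have := (QuotientGroup.eq_one_iff (N := K) _).mpr (h j k)
      have h3 : ⁅(QuotientGroup.mk (x j) : F n ⧸ K), (QuotientGroup.mk (x k) : F n ⧸ K)⁆ = 1 := this
      exact (commutatorElement_eq_one_iff_commute.mp h3).eq
    have h4 := h2 (show a ∈ Subgroup.closure (Set.range (fun j : Fin n => x j)) by
      rw [show (Set.range (fun j : Fin n => x j)) = Set.range FreeGroup.of from rfl,
        FreeGroup.closure_range_of]; exact Subgroup.mem_top a)
    rw [Subgroup.mem_comap, Subgroup.mem_centralizer_singleton_iff] at h4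
    refine (QuotientGroup.eq_one_iff (N := K) _).mp ?_
    show ⁅(QuotientGroup.mk a : F n ⧸ K), (QuotientGroup.mk (x k) : F n ⧸ K)⁆ = 1
    exact commutatorElement_eq_one_iff_commute.mpr h4
  have h5 : ∀ (a b : F n), ⁅a, b⁆ ∈ K := by
    intro a b
    have h2 : Subgroup.closure (Set.range (fun j : Fin n => x j)) ≤
        (Subgroup.centralizer {(QuotientGroup.mk a : F n ⧸ K)}).comap (QuotientGroup.mk' K) := by
      rw [Subgroup.closure_le]
      rintro _ ⟨j, rfl⟩
      show QuotientGroup.mk' K (x j) ∈ Subgroup.centralizer {(QuotientGroup.mk a : F n ⧸ K)}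
      rw [Subgroup.mem_centralizer_singleton_iff]
      have := (QuotientGroup.eq_one_iff (N := K) _).mpr (h1 a j)
      have h3 : ⁅(QuotientGroup.mk a : F n ⧸ K), (QuotientGroup.mk (x j) : F n ⧸ K)⁆ = 1 := this
      exact (commutatorElement_eq_one_iff_commute.mp h3).eq.symm
    have h4 := h2 (show b ∈ Subgroup.closure (Set.range (fun j : Fin n => x j)) by
      rw [show (Set.range (fun j : Fin n => x j)) = Set.range FreeGroup.of from rfl,
        FreeGroup.closure_range_of]; exact Subgroup.mem_top b)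
    rw [Subgroup.mem_comap, Subgroup.mem_centralizer_singleton_iff] at h4
    refine (QuotientGroup.eq_one_iff (N := K) _).mp ?_
    show ⁅(QuotientGroup.mk a : F n ⧸ K), (QuotientGroup.mk b : F n ⧸ K)⁆ = 1
    exact commutatorElement_eq_one_iff_commute.mpr h4.symm
  rw [Subgroup.lowerCentralSeries_succ, Subgroup.lowerCentralSeries_zero,
    Subgroup.commutator_le]
  intro a _ b _
  exact h5 a b

theorem R_mem_J1 (i : Fin n) {w : F n} (hw : w ∈ (⊤ : Subgroup (F n)).lowerCentralSeries 1) :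
    R i w ∈ J1 n := by
  have hK : ((J1 n).comap (R i)).Normal := by
    constructor
    intro v hv g
    rw [Subgroup.mem_comap, ← C_conj_R_same]
    exact (J1 n).mul_mem ((J1 n).mul_mem (C_mem_J1 i g) hv) ((J1 n).inv_mem (C_mem_J1 i g))
  refine gam1_le ((J1 n).comap (R i)) ?_ hw
  intro j k
  rw [Subgroup.mem_comap]
  by_cases hj : i = j
  · subst hj
    rw [map_commutatorElement, R_self, commutatorElement_one_left]; exact (J1 n).one_mem
  by_cases hk : i = k
  · subst hk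
    rw [map_commutatorElement, R_self, commutatorElement_one_right]; exact (J1 n).one_mem
  by_cases hjk : j = k
  · subst hjk
    rw [commutatorElement_self, map_one]; exact (J1 n).one_mem
  exact Subgroup.subset_closure (Or.inr ⟨i, j, k, hj, hk, hjk, rfl⟩)

theorem L_mem_J1 (i : Fin n) {w : F n} (hw : w ∈ (⊤ : Subgroup (F n)).lowerCentralSeries 1) :
    L i w ∈ J1 n := by
  rw [L_eq]; exact (J1 n).mul_mem (C_mem_J1 i w) ((J1 n).inv_mem (R_mem_J1 i hw))

theorem comm_mem_lcs1 (a b : F n) : ⁅a, b⁆ ∈ (⊤ : Subgroup (F n)).lowerCentralSeries 1 := by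
  rw [Subgroup.lowerCentralSeries_succ, Subgroup.lowerCentralSeries_zero]
  exact Subgroup.commutator_mem_commutator (Subgroup.mem_top a) (Subgroup.mem_top b)

theorem map_mem_lcs (f : F n →* F n) (k : ℕ) {w : F n}
    (hw : w ∈ (⊤ : Subgroup (F n)).lowerCentralSeries k) :
    f w ∈ (⊤ : Subgroup (F n)).lowerCentralSeries k := by
  have h : ((⊤ : Subgroup (F n)).lowerCentralSeries k).map f ≤
      (⊤ : Subgroup (F n)).lowerCentralSeries k := by
    rw [Subgroup.map_lowerCentralSeries]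
    exact Subgroup.lowerCentralSeries_mono k le_top
  exact h (Subgroup.mem_map_of_mem f hw)

theorem conj_mem_lcs (k : ℕ) {w : F n} (g : F n)
    (hw : w ∈ (⊤ : Subgroup (F n)).lowerCentralSeries k) :
    g * w * g⁻¹ ∈ (⊤ : Subgroup (F n)).lowerCentralSeries k :=
  ((⊤ : Subgroup (F n)).lowerCentralSeries_normal k).conj_mem w hw g

/-- `e` maps `J1` to itself -/
def Stb (n : ℕ) : Submonoid (A n) where
  carrier := {e | ∀ g ∈ J1 n, e * g * e⁻¹ ∈ J1 n}
  one_mem' := by intro g hg; simpa using hg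
  mul_mem' := by
    intro a b ha hb g hg
    have : a * b * g * (a * b)⁻¹ = a * (b * g * b⁻¹) * a⁻¹ := by group
    rw [this]
    exact ha _ (hb _ hg)

theorem Stb_of (e : A n) (h1 : ∀ i j : Fin n, i ≠ j → e * C i (x j) * e⁻¹ ∈ J1 n)
    (h2 : ∀ i j k : Fin n, i ≠ j → i ≠ k → j ≠ k → e * R i ⁅x j, x k⁆ * e⁻¹ ∈ J1 n) :
    e ∈ Stb n := by
  have h : J1 n ≤ (J1 n).comap (MulAut.conj e).toMonoidHom := by
    conv_lhs => rw [J1]
    rw [Subgroup.closure_le]
    rintro _ (⟨i, j, hij, rfl⟩ | ⟨i, j, k, hij, hik, hjk, rfl⟩)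
    · exact h1 i j hij
    · exact h2 i j k hij hik hjk
  intro g hg
  exact h hg

theorem J1_Stb {e : A n} (h : e ∈ J1 n) : e ∈ Stb n :=
  fun _ hg => (J1 n).mul_mem ((J1 n).mul_mem h hg) ((J1 n).inv_mem h)

theorem sg_Stb (k : Fin n) : sg k ∈ Stb n := by
  refine Stb_of _ ?_ ?_
  · intro i j hij
    by_cases hk : i = k
    · subst hk; rw [sg_conj_C_same]; exact C_mem_J1 _ _
    · rw [C_def, sg_conj_tv hk]; exact C_mem_J1 _ _
  · intro i j l hij hil hjl
    by_cases hk : i = k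
    · subst hk; rw [sg_conj_R_same]; exact L_mem_J1 _ (comm_mem_lcs1 _ _)
    · rw [R_def, sg_conj_tv hk, map_one]
      exact R_mem_J1 i (map_mem_lcs (sg k).toMonoidHom 1 (comm_mem_lcs1 _ _))

theorem pm_Stb (σ : Equiv.Perm (Fin n)) : pm σ ∈ Stb n := by
  refine Stb_of _ ?_ ?_
  · intro i j hij
    rw [pm_conj_C]; exact C_mem_J1 _ _
  · intro i j l hij hil hjl
    rw [pm_conj_R]
    exact R_mem_J1 _ (map_mem_lcs (pm σ).toMonoidHom 1 (comm_mem_lcs1 _ _))

/-- conjugation of `C i w` by a transvection `R k (x l)`, no loop or the loop `k ≠ j` -/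
theorem R_conj_C_mem {k l : Fin n} (hkl : k ≠ l) {i j : Fin n} (hij : i ≠ j) :
    R k (x l) * C i (x j) * (R k (x l))⁻¹ ∈ J1 n := by
  by_cases hk : k = i
  · subst hk
    rw [R_conj_C_same]
    exact (J1 n).mul_mem (C_mem_J1 _ _) (R_mem_J1 _ (comm_mem_lcs1 _ _))
  by_cases hl : l = i
  · subst hl
    by_cases hkj : k = j
    · subst hkj
      rw [R_conj_C_loop' hij]
      exact (J1 n).mul_mem (C_mem_J1 _ _) (C_mem_J1 _ _)
    · rw [R_conj_C_loop hkl.symm (x_mem_O hij.symm) (x_mem_O (Ne.symm hkj))]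
      exact (J1 n).mul_mem (C_mem_J1 _ _) (R_mem_J1 _ (comm_mem_lcs1 _ _))
  · rw [R_conj_C (Ne.symm hk) (x_mem_O hl)]
    exact C_mem_J1 _ _

/-- conjugation of `R i w` by a transvection `R k (x l)`, no loop -/
theorem R_conj_R_mem {k l : Fin n} {i : Fin n} (hl : l ≠ i) {v : F n}
    (hv : v ∈ (⊤ : Subgroup (F n)).lowerCentralSeries 1) :
    R k (x l) * R i v * (R k (x l))⁻¹ ∈ J1 n := by
  by_cases hk : k = i
  · subst hk
    rw [← map_inv, ← map_mul, ← map_mul]
    exact R_mem_J1 _ (conj_mem_lcs 1 _ hv)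
  · rw [R_conj_R (Ne.symm hk) (x_mem_O hl)]
    exact R_mem_J1 _ (map_mem_lcs (R k (x l)).toMonoidHom 1 hv)

theorem conj_mul_mem_J1 {e a b : A n} (ha : e * a * e⁻¹ ∈ J1 n) (hb : e * b * e⁻¹ ∈ J1 n) :
    e * (a * b) * e⁻¹ ∈ J1 n := by
  have : e * (a * b) * e⁻¹ = (e * a * e⁻¹) * (e * b * e⁻¹) := by group
  rw [this]; exact (J1 n).mul_mem ha hb

theorem conj_inv_mem_J1 {e a : A n} (ha : e * a * e⁻¹ ∈ J1 n) : e * a⁻¹ * e⁻¹ ∈ J1 n := by
  have : e * a⁻¹ * e⁻¹ = (e * a * e⁻¹)⁻¹ := by group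
  rw [this]; exact (J1 n).inv_mem ha

/-- the difficult loop -/
theorem loop_mem {i j m : Fin n} (hij : i ≠ j) (him : i ≠ m) (hjm : j ≠ m) :
    R j (x i) * R i ⁅(x j)⁻¹, x m⁆ * (R j (x i))⁻¹ ∈ J1 n := by
  -- `R i ⁅(x j)⁻¹, x m⁆ = (C i (x j))⁻¹ * (R i (x m) * C i (x j) * (R i (x m))⁻¹)`
  have e1 : R i ⁅(x j)⁻¹, x m⁆ = (C i (x j))⁻¹ * (R i (x m) * C i (x j) * (R i (x m))⁻¹) := by
    rw [R_conj_C_same]; group
  -- `R j (x i) * R i (x m) = R i (x m) * R j (x i) * (R j (x m))⁻¹`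
  have e2 : R j (x i) * R i (x m) = R i (x m) * R j (x i) * (R j (x m))⁻¹ := by
    have h := R_conj_R (i := j) (j := i) hij.symm
      (v := (x m)⁻¹) ((O j).inv_mem (x_mem_O hjm.symm)) (x i)
    rw [R_apply_self, map_inv (R i), map_inv (kill i), kill_ne him.symm, map_mul, map_inv (R j),
      inv_inv] at h
    calc R j (x i) * R i (x m) = R i (x m) * ((R i (x m))⁻¹ * R j (x i) * R i (x m)) := by group
      _ = _ := by rw [h]; group
  have e3 : (R j (x m))⁻¹ * C i (x j) * R j (x m) = C i (x j) * (C i (x m))⁻¹ := by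
    have h := R_conj_C (i := i) (j := j) hij (v := (x m)⁻¹) ((O i).inv_mem (x_mem_O him.symm)) (x j)
    rw [R_apply_self, map_inv (R j), map_inv (kill j), kill_ne hjm.symm, map_mul, map_inv (C i),
      inv_inv] at h
    exact h
  have e4 : R j (x i) * R i ⁅(x j)⁻¹, x m⁆ * (R j (x i))⁻¹ =
      (R j (x i) * C i (x j) * (R j (x i))⁻¹)⁻¹ *
      (R i (x m) * ((R j (x i) * C i (x j) * (R j (x i))⁻¹) *
        (R j (x i) * C i (x m) * (R j (x i))⁻¹)⁻¹) * (R i (x m))⁻¹) := by
    rw [e1]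
    calc _ = (R j (x i) * C i (x j) * (R j (x i))⁻¹)⁻¹ *
        ((R j (x i) * R i (x m)) * C i (x j) * (R j (x i) * R i (x m))⁻¹) := by group
      _ = (R j (x i) * C i (x j) * (R j (x i))⁻¹)⁻¹ *
        (R i (x m) * (R j (x i) * ((R j (x m))⁻¹ * C i (x j) * R j (x m)) * (R j (x i))⁻¹) *
          (R i (x m))⁻¹) := by rw [e2]; group
      _ = _ := by rw [e3]; group
  rw [e4, R_conj_C_loop' hij, R_conj_C_loop hij (x_mem_O him.symm) (x_mem_O hjm.symm)]
  refine (J1 n).mul_mem ((J1 n).inv_mem ((J1 n).mul_mem (C_mem_J1 _ _) (C_mem_J1 _ _))) ?_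
  refine conj_mul_mem_J1 (conj_mul_mem_J1 (R_conj_C_mem him hij.symm) (R_conj_C_mem him hij)) ?_
  exact conj_inv_mem_J1 (conj_mul_mem_J1 (R_conj_C_mem him him)
    (R_conj_R_mem hjm.symm (comm_mem_lcs1 _ _)))

theorem loop_mem' {i j m : Fin n} (hij : i ≠ j) (him : i ≠ m) (hjm : j ≠ m) :
    R j (x i) * R i ⁅x j, x m⁆ * (R j (x i))⁻¹ ∈ J1 n := by
  have e : R i ⁅x j, x m⁆ = (C i (x j) * R i ⁅(x j)⁻¹, x m⁆ * (C i (x j))⁻¹)⁻¹ := by
    rw [C_conj_R_same, ← map_inv]
    congr 1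
    rw [commutatorElement_def, commutatorElement_def]
    group
  rw [e]
  exact conj_inv_mem_J1 (conj_mul_mem_J1 (conj_mul_mem_J1 (R_conj_C_mem hij.symm hij)
    (loop_mem hij him hjm)) (conj_inv_mem_J1 (R_conj_C_mem hij.symm hij)))

theorem R_Stb {k l : Fin n} (hkl : k ≠ l) : R k (x l) ∈ Stb n := by
  refine Stb_of _ (fun i j hij => R_conj_C_mem hkl hij) ?_
  intro i j m hij him hjm
  by_cases hl : l = i
  · subst hl
    by_cases hkj : k = j
    · subst hkj
      exact loop_mem' hij him hjm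
    by_cases hkm : k = m
    · subst hkm
      have e : R l ⁅x j, x k⁆ = (R l ⁅x k, x j⁆)⁻¹ := by
        rw [← map_inv, commutatorElement_inv]
      rw [e]
      exact conj_inv_mem_J1 (loop_mem' him hij hjm.symm)
    · rw [R_conj_R_loop hkl.symm (comm_mem_O (x_mem_O hij.symm) (x_mem_O him.symm))
        (comm_mem_O (x_mem_O (Ne.symm hkj)) (x_mem_O (Ne.symm hkm)))]
      exact (J1 n).mul_mem (R_mem_J1 _ (comm_mem_lcs1 _ _)) (R_mem_J1 _ (conj_mem_lcs 1 _
        (inv_mem (comm_mem_lcs1 _ _))))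
  · exact R_conj_R_mem hl (comm_mem_lcs1 _ _)

theorem Rinv_Stb {k l : Fin n} (hkl : k ≠ l) : (R k (x l))⁻¹ ∈ Stb n := by
  have h := sg_conj_tv hkl 1 (x l)
  rw [map_one, sg_self] at h
  have h2 : (R k (x l))⁻¹ = sg l * R k (x l) * sg l := by
    have h3 : R k ((x l)⁻¹) = sg l * R k (x l) * (sg l)⁻¹ := h.symm
    rw [← map_inv, h3, sg_inv]
  rw [h2]
  exact (Stb n).mul_mem ((Stb n).mul_mem (sg_Stb l) (R_Stb hkl)) (sg_Stb l)

theorem Stb_top (φ : A n) : φ ∈ Stb n := by
  let H : Subgroup (A n) :=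
    { carrier := {φ | φ ∈ Stb n ∧ φ⁻¹ ∈ Stb n}
      one_mem' := ⟨(Stb n).one_mem, by rw [inv_one]; exact (Stb n).one_mem⟩
      mul_mem' := fun {a b} ha hb => ⟨(Stb n).mul_mem ha.1 hb.1, by
        rw [mul_inv_rev]; exact (Stb n).mul_mem hb.2 ha.2⟩
      inv_mem' := fun {a} ha => ⟨ha.2, by rw [inv_inv]; exact ha.1⟩ }
  have hH : H = ⊤ := by
    refine nielsen_top H ?_ ?_ ?_ ?_
    · intro i j hij ν h1 h2
      have : ν = R i (x j) := by
        refine A_ext fun k => ?_
        by_cases hk : k = i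
        · subst hk; rw [R_apply_self, kill_ne hij.symm]; exact h1
        · rw [R_apply_ne hk]; exact h2 k hk
      subst this
      exact ⟨R_Stb hij, Rinv_Stb hij⟩
    · intro i j hij ν h1 h2
      have : ν = (L i (x j))⁻¹ := by
        rw [← map_inv]
        refine A_ext fun k => ?_
        by_cases hk : k = i
        · subst hk
          rw [L_def, tv_self, map_inv, kill_ne hij.symm, map_one, mul_one, inv_inv]; exact h1
        · rw [L_def, tv_ne hk]; exact h2 k hk
      subst this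
      rw [L_eq]
      refine ⟨?_, ?_⟩
      · rw [mul_inv_rev, inv_inv]
        exact (Stb n).mul_mem (R_Stb hij) (J1_Stb ((J1 n).inv_mem (C_mem_J1 _ _)))
      · rw [inv_inv]
        exact (Stb n).mul_mem (J1_Stb (C_mem_J1 _ _)) (Rinv_Stb hij)
    · intro i ν h1 h2
      have : ν = sg i := by
        refine A_ext fun k => ?_
        by_cases hk : k = i
        · subst hk; rw [sg_self]; exact h1
        · rw [sg_ne hk]; exact h2 k hk
      subst this
      exact ⟨sg_Stb i, by rw [sg_inv]; exact sg_Stb i⟩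
    · intro i j hij ν h1 h2 h3
      have : ν = pm (Equiv.swap i j) := by
        refine A_ext fun k => ?_
        rw [pm_x]
        by_cases hk : k = i
        · subst hk; rw [Equiv.swap_apply_left]; exact h1
        · by_cases hk2 : k = j
          · subst hk2; rw [Equiv.swap_apply_right]; exact h2
          · rw [Equiv.swap_apply_of_ne_of_ne hk hk2]; exact h3 k hk hk2
      subst this
      exact ⟨pm_Stb _, by rw [pm_inv]; exact pm_Stb _⟩
  have : φ ∈ H := by rw [hH]; exact Subgroup.mem_top φ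
  exact this.1

instance J1_normal : (J1 n).Normal := ⟨fun g hg e => Stb_top e g hg⟩

end Pool.Agent.CSP3
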