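import Pool.Agent.CSP3.Rel
import Pool.Agent.CSP3.ExpHom

/-!
# Level 2, part A: `lev2_E`
-/

set_option autoImplicit false

namespace Pool.Agent.CSP3

open scoped commutatorElement

variable {n : ℕ}

namespace Lev2A

theorem comm_mem_gam1 (a b : F n) : ⁅a, b⁆ ∈ gam n 1 :=
  Subgroup.commutator_mem_commutator (Subgroup.mem_top a) (Subgroup.mem_top b)

theorem comm_mem_gam2 {a : F n} (ha : a ∈ gam n 1) (b : F n) : ⁅a, b⁆ ∈ gam n 2 :=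
  Subgroup.commutator_mem_commutator ha (Subgroup.mem_top b)

theorem comm_mem_gam2' {b : F n} (a : F n) (hb : b ∈ gam n 1) : ⁅a, b⁆ ∈ gam n 2 := by
  rw [← commutatorElement_inv]
  exact (gam n 2).inv_mem (comm_mem_gam2 hb a)

section
variable {G : Type*} [Group G] (ρ : F n →* G)

/-- a homomorphism killing `γ_3`: conjugating the first entry of a commutator -/
theorem kill2_conj (h : ∀ w ∈ gam n 2, ρ w = 1) (a b u : F n) :
    ρ ⁅u⁻¹ * a * u, b⁆ = ρ ⁅a, b⁆ := by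
  have e : ⁅u⁻¹ * a * u, b⁆ = a * ⁅⁅a⁻¹, u⁻¹⁆, b⁆ * a⁻¹ * ⁅a, b⁆ := by
    simp only [commutatorElement_def]; group
  rw [e, map_mul, map_mul, map_mul, h _ (comm_mem_gam2 (comm_mem_gam1 _ _) _), mul_one, ← map_mul,
    mul_inv_cancel, map_one, one_mul]

theorem exp_conj (h : ∀ w, ρ w ^ 3 = 1) (a b u : F n) :
    ρ ⁅u⁻¹ * a * u, b⁆ = ρ ⁅a, b⁆ * ρ ⁅⁅a, u⁆, b⁆ := by
  have e : ⁅u⁻¹ * a * u, b⁆ = a * ⁅⁅a⁻¹, u⁻¹⁆, b⁆ * a⁻¹ * ⁅a, b⁆ := by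
    simp only [commutatorElement_def]; group
  have h1 : Commute (ρ ⁅⁅a⁻¹, u⁻¹⁆, b⁆) (ρ a) :=
    he_gam3 ρ h (comm_mem_gam2 (comm_mem_gam1 _ _) _) _
  have h2 : ρ ⁅⁅a⁻¹, u⁻¹⁆, b⁆ = ρ ⁅⁅a, u⁆, b⁆ := by
    rw [map_commutatorElement, map_commutatorElement ρ ⁅a, u⁆, he_inv_left ρ h, he_inv_right ρ h,
      inv_inv]
  have h3 : Commute (ρ ⁅⁅a, u⁆, b⁆) (ρ ⁅a, b⁆) :=
    he_gam3 ρ h (comm_mem_gam2 (comm_mem_gam1 _ _) _) _
  rw [e, map_mul, map_mul, map_mul, ← h1.eq, map_inv, mul_inv_cancel_right, h2, h3.eq]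

end

variable {Q : Type*} [Group Q] (q : A n →* Q)

/-- the exponent three hypothesis for `q ∘ R p` -/
theorem hR3 (hT : ∀ i j : Fin n, i ≠ j → q (R i (x j)) ^ 3 = 1) (p : Fin n) (w : F n) :
    (q.comp (R p)) w ^ 3 = 1 := qR_cube q hT p w

/-- (2): `W S W⁻¹ = S D` -/
theorem step2 {i j k p : Fin n} (hij : i ≠ j) (hik : i ≠ k) (hpi : p ≠ i) (hpj : p ≠ j)
    (hpk : p ≠ k) :
    q (R p ⁅x j, x k⁆) * q (C i (x p)) * (q (R p ⁅x j, x k⁆))⁻¹ =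
      q (C i (x p)) * q (C i ⁅x j, x k⁆) := by
  have hw : ⁅x j, x k⁆ ∈ O i := comm_mem_O (x_mem_O hij.symm) (x_mem_O hik.symm)
  have hw' : ⁅x j, x k⁆ ∈ O p := comm_mem_O (x_mem_O hpj.symm) (x_mem_O hpk.symm)
  rw [← map_inv, ← map_mul, ← map_mul, ← map_mul, R_conj_C hpi.symm hw, R_apply_self,
    kill_of_mem hw', map_mul]

/-- (4): `C i w` commutes with `C p (x i)` -/
theorem step4 (hC : ∀ i : Fin n, ∀ w ∈ gam n 2, q (C i w) = 1)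
    {i j k p : Fin n} (hij : i ≠ j) (hik : i ≠ k) (hpi : p ≠ i) (hpj : p ≠ j)
    (hpk : p ≠ k) : Commute (q (C i ⁅x j, x k⁆)) (q (C p (x i))) := by
  have hw : ⁅x j, x k⁆ ∈ O i := comm_mem_O (x_mem_O hij.symm) (x_mem_O hik.symm)
  have hw' : ⁅x j, x k⁆ ∈ O p := comm_mem_O (x_mem_O hpj.symm) (x_mem_O hpk.symm)
  have h1 : q (C i ⁅x j, x k⁆) * q (C p (x i)) * (q (C i ⁅x j, x k⁆))⁻¹ = q (C p (x i)) := by
    rw [← map_inv, ← map_mul, ← map_mul, C_conj_C hpi hw', C_apply_self, kill_of_mem hw]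
    have e : (⁅x j, x k⁆ : F n)⁻¹ * x i * ⁅x j, x k⁆ = x i * ⁅(x i)⁻¹, (⁅x j, x k⁆)⁻¹⁆ := by
      rw [commutatorElement_def (x i)⁻¹]; group
    rw [e, map_mul, map_mul, hC p _ (comm_mem_gam2' _ ((gam n 1).inv_mem (comm_mem_gam1 _ _))),
      mul_one]
  show q (C i ⁅x j, x k⁆) * q (C p (x i)) = q (C p (x i)) * q (C i ⁅x j, x k⁆)
  exact mul_inv_eq_iff_eq_mul.mp h1

/-- (A) -/
theorem stepA (hT : ∀ i j : Fin n, i ≠ j → q (R i (x j)) ^ 3 = 1)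
    (hC : ∀ i : Fin n, ∀ w ∈ gam n 2, q (C i w) = 1)
    {i j k p : Fin n} (hij : i ≠ j) (hik : i ≠ k) (hpi : p ≠ i) (hpj : p ≠ j)
    (hpk : p ≠ k) : Commute (q (C i (x p))) (q (R p ⁅x i, ⁅x j, x k⁆⁆)) := by
  have hw : ⁅x j, x k⁆ ∈ O i := comm_mem_O (x_mem_O hij.symm) (x_mem_O hik.symm)
  have hw' : ⁅x j, x k⁆ ∈ O p := comm_mem_O (x_mem_O hpj.symm) (x_mem_O hpk.symm)
  -- (1)
  have h1 : q (R p ⁅x i, ⁅x j, x k⁆⁆) = ⁅q (C p (x i)), q (R p ⁅x j, x k⁆)⁆ := by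
    rw [commutatorElement_def (q (C p (x i))), ← map_inv, ← map_mul, ← map_mul, C_conj_R_same,
      ← map_inv, ← map_mul, ← map_inv, ← map_mul, commutatorElement_def (x i)]
  have h2 := step2 q hij hik hpi hpj hpk
  have h3 : Commute (q (C i (x p))) (q (C p (x i))) := qbase q hT hpi.symm
  have h4 := step4 q hC hij hik hpi hpj hpk
  -- (5)
  have h5 : q (C i ⁅x j, x k⁆) * q (R p ⁅x i, ⁅x j, x k⁆⁆) * (q (C i ⁅x j, x k⁆))⁻¹ =
      q (R p ⁅x i, ⁅x j, x k⁆⁆) := by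
    rw [← map_inv, ← map_mul, ← map_mul, C_conj_R hpi hw', map_commutatorElement (C i ⁅x j, x k⁆),
      C_apply_self, kill_of_mem hw, C_apply_of_mem hw]
    have e : (⁅(⁅x j, x k⁆ : F n)⁻¹ * x i * ⁅x j, x k⁆, ⁅x j, x k⁆⁆ : F n) =
        (⁅x j, x k⁆)⁻¹ * ⁅x i, ⁅x j, x k⁆⁆ * ⁅x j, x k⁆ := by
      simp only [commutatorElement_def]; group
    rw [e]
    have h6 : Commute ((q.comp (R p)) ⁅x i, ⁅x j, x k⁆⁆) ((q.comp (R p)) ⁅x j, x k⁆) :=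
      he_gam3 _ (hR3 q hT p) (comm_mem_gam2' _ (comm_mem_gam1 _ _)) _
    show (q.comp (R p)) ((⁅x j, x k⁆)⁻¹ * ⁅x i, ⁅x j, x k⁆⁆ * ⁅x j, x k⁆) =
      (q.comp (R p)) ⁅x i, ⁅x j, x k⁆⁆
    rw [map_mul, map_mul, mul_assoc, h6.eq, map_inv, inv_mul_cancel_left]
  -- abstract
  have habs : ∀ (S U V T Z : Q), Z = ⁅U, V⁆ → V * S * V⁻¹ = S * T → Commute S U → Commute T U →
      T * Z * T⁻¹ = Z → Commute S Z := by
    intro S U V T Z hZ hVS hSU hTU hTZ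
    have a1 : V * S = S * T * V := by rw [← hVS]; group
    have a2 : S⁻¹ * V * S = T * V := by rw [mul_assoc, a1]; group
    have a3 : S⁻¹ * Z * S = Z := by
      have b1 : S⁻¹ * U * S = U := by rw [mul_assoc, ← hSU.eq]; group
      have b2 : S⁻¹ * Z * S = ⁅S⁻¹ * U * S, S⁻¹ * V * S⁆ := by
        rw [hZ]; simp only [commutatorElement_def]; group
      rw [b2, b1, a2]
      have b3 : ⁅U, T * V⁆ = T * Z * T⁻¹ := by
        rw [hZ, commutatorElement_def, commutatorElement_def, ← mul_assoc U T V, ← hTU.eq]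
        group
      rw [b3, hTZ]
    show S * Z = Z * S
    calc S * Z = S * (S⁻¹ * Z * S) := by rw [a3]
      _ = Z * S := by group
  exact habs _ _ _ _ _ h1 h2 h3 h4 h5

/-- (A) for the normalised triple commutator -/
theorem stepA1 (hT : ∀ i j : Fin n, i ≠ j → q (R i (x j)) ^ 3 = 1)
    (hC : ∀ i : Fin n, ∀ w ∈ gam n 2, q (C i w) = 1)
    {i j k p : Fin n} (hij : i ≠ j) (hik : i ≠ k) (hpi : p ≠ i) (hpj : p ≠ j)
    (hpk : p ≠ k) : Commute (q (C i (x p))) (q (R p ⁅⁅x j, x i⁆, x k⁆)) := by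
  have h0 := stepA q hT hC hij hik hpi hpj hpk
  have e1 : q (R p ⁅x i, ⁅x j, x k⁆⁆) = (q (R p ⁅⁅x j, x k⁆, x i⁆))⁻¹ := by
    rw [← map_inv, ← map_inv, commutatorElement_inv]
  have e2 : q (R p ⁅⁅x j, x i⁆, x k⁆) = (q (R p ⁅⁅x j, x k⁆, x i⁆))⁻¹ :=
    he_swap (q.comp (R p)) (hR3 q hT p) (x j) (x k) (x i)
  rw [e2, ← e1]
  exact h0

theorem stepA2 (hT : ∀ i j : Fin n, i ≠ j → q (R i (x j)) ^ 3 = 1)
    (hC : ∀ i : Fin n, ∀ w ∈ gam n 2, q (C i w) = 1)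
    {i j k p : Fin n} (hij : i ≠ j) (hjk : j ≠ k) (hpi : p ≠ i) (hpj : p ≠ j)
    (hpk : p ≠ k) : Commute (q (C j (x p))) (q (R p ⁅⁅x j, x i⁆, x k⁆)) := by
  have h0 := stepA q hT hC hij.symm hjk hpj hpi hpk
  have e1 : q (R p ⁅x j, ⁅x i, x k⁆⁆) = (q (R p ⁅⁅x i, x k⁆, x j⁆))⁻¹ := by
    rw [← map_inv, ← map_inv, commutatorElement_inv]
  have e2 : q (R p ⁅⁅x j, x i⁆, x k⁆) = q (R p ⁅⁅x i, x k⁆, x j⁆) :=
    he_cyc (q.comp (R p)) (hR3 q hT p) (x j) (x i) (x k)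
  rw [e2]
  rw [e1] at h0
  have := h0.inv_right
  rwa [inv_inv] at this

/-- `C j (x i)` commutes with `R p` of the triple commutator -/
theorem stepT (hT : ∀ i j : Fin n, i ≠ j → q (R i (x j)) ^ 3 = 1)
    {i j k p : Fin n} (hij : i ≠ j) (hjk : j ≠ k) (hpi : p ≠ i) (hpj : p ≠ j) :
    Commute (q (C j (x i))) (q (R p ⁅⁅x j, x i⁆, x k⁆)) := by
  have h1 : q (C j (x i)) * q (R p ⁅⁅x j, x i⁆, x k⁆) * (q (C j (x i)))⁻¹ =
      q (R p ⁅⁅x j, x i⁆, x k⁆) := by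
    rw [← map_inv, ← map_mul, ← map_mul, C_conj_R hpj (x_mem_O hpi.symm),
      map_commutatorElement (C j (x i)), map_commutatorElement (C j (x i)), C_apply_self,
      kill_ne hij, C_apply_ne hij, C_apply_ne hjk.symm]
    have e : (⁅(x i)⁻¹ * x j * x i, x i⁆ : F n) = (x i)⁻¹ * ⁅x j, x i⁆ * x i := by
      simp only [commutatorElement_def]; group
    have e2 : (q.comp (R p)) ((x i)⁻¹ * ⁅x j, x i⁆ * x i) = (q.comp (R p)) ⁅x j, x i⁆ := by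
      have h6 : Commute ((q.comp (R p)) ⁅x j, x i⁆) ((q.comp (R p)) (x i)) :=
        he_comm_right _ (hR3 q hT p) _ _
      rw [map_mul, map_mul, mul_assoc, h6.eq, map_inv, inv_mul_cancel_left]
    show (q.comp (R p)) ⁅⁅(x i)⁻¹ * x j * x i, x i⁆, x k⁆ = (q.comp (R p)) ⁅⁅x j, x i⁆, x k⁆
    rw [e, map_commutatorElement, e2, ← map_commutatorElement]
  exact mul_inv_eq_iff_eq_mul.mp h1

/-- `g W g⁻¹ = W t` -/
theorem stepW (hT : ∀ i j : Fin n, i ≠ j → q (R i (x j)) ^ 3 = 1)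
    {i j k p : Fin n} (hij : i ≠ j) (hjk : j ≠ k) (hpi : p ≠ i) (hpj : p ≠ j) :
    q (C j (x i)) * q (R p ⁅x j, x k⁆) * (q (C j (x i)))⁻¹ =
      q (R p ⁅x j, x k⁆) * q (R p ⁅⁅x j, x i⁆, x k⁆) := by
  rw [← map_inv, ← map_mul, ← map_mul, C_conj_R hpj (x_mem_O hpi.symm),
    map_commutatorElement (C j (x i)), C_apply_self, kill_ne hij, C_apply_ne hjk.symm]
  exact exp_conj (q.comp (R p)) (hR3 q hT p) (x j) (x k) (x i)

end Lev2A

open Lev2A in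
/-- MODULE LEV2A -/
theorem lev2_E {Q : Type*} [Group Q] (q : A n →* Q) (hn : 4 ≤ n)
    (hT : ∀ i j : Fin n, i ≠ j → q (R i (x j)) ^ 3 = 1)
    (hC : ∀ i : Fin n, ∀ w ∈ gam n 2, q (C i w) = 1) {i j k : Fin n} (hij : i ≠ j) (hik : i ≠ k)
    (hjk : j ≠ k) : Commute (q (C j (x i))) (q (C i ⁅x j, x k⁆)) := by
  obtain ⟨p, hpi, hpj, hpk⟩ : ∃ p : Fin n, p ≠ i ∧ p ≠ j ∧ p ≠ k := by
    have hc : ({i, j, k} : Finset (Fin n)).card < Fintype.card (Fin n) := by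
      rw [Fintype.card_fin]
      exact lt_of_le_of_lt Finset.card_le_three (by omega)
    obtain ⟨p, hp⟩ := Finset.exists_mem_notMem_of_card_lt_card
      (s := ({i, j, k} : Finset (Fin n))) (t := Finset.univ) (by rwa [Finset.card_univ])
    refine ⟨p, ?_, ?_, ?_⟩ <;> rintro rfl <;> exact hp.2 (by simp)
  -- the elements
  have h2 := step2 q hij hik hpi hpj hpk
  have hA1 := stepA1 q hT hC hij hik hpi hpj hpk
  have hA2 := stepA2 q hT hC hij hjk hpi hpj hpk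
  have htg := stepT q hT hij hjk hpi hpj (k := k)
  have hW := stepW q hT hij hjk hpi hpj (k := k)
  have htW : Commute (q (R p ⁅⁅x j, x i⁆, x k⁆)) (q (R p ⁅x j, x k⁆)) :=
    he_gam3 (q.comp (R p)) (hR3 q hT p) (comm_mem_gam2 (comm_mem_gam1 _ _) _) _
  -- `X = ⁅P, g⁆`
  have hX : q (C j ⁅x p, x i⁆) = ⁅q (C j (x p)), q (C j (x i))⁆ := by
    rw [map_commutatorElement (C j), map_commutatorElement q]
  -- qloop
  have hm : q (R p ⁅(x j)⁻¹, x k⁆) = (q (R p ⁅x j, x k⁆))⁻¹ :=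
    he_inv_left (q.comp (R p)) (hR3 q hT p) (x j) (x k)
  have hloop := qloop q hT hpj.symm hjk.symm hpk.symm
  rw [hm, inv_inv] at hloop
  -- `δ` commutes with `t` and with `g`
  have hδt : Commute (q (C p ⁅(x j)⁻¹, (x k)⁻¹⁆)) (q (R p ⁅⁅x j, x i⁆, x k⁆)) := by
    have h1 : q (C p ⁅(x j)⁻¹, (x k)⁻¹⁆) * q (R p ⁅⁅x j, x i⁆, x k⁆) *
        (q (C p ⁅(x j)⁻¹, (x k)⁻¹⁆))⁻¹ = q (R p ⁅⁅x j, x i⁆, x k⁆) := by
      rw [← map_inv, ← map_mul, ← map_mul, C_conj_R_same]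
      have h6 : Commute ((q.comp (R p)) ⁅⁅x j, x i⁆, x k⁆)
          ((q.comp (R p)) ⁅(x j)⁻¹, (x k)⁻¹⁆) :=
        he_gam3 _ (hR3 q hT p) (comm_mem_gam2 (comm_mem_gam1 _ _) _) _
      show (q.comp (R p)) (⁅(x j)⁻¹, (x k)⁻¹⁆ * ⁅⁅x j, x i⁆, x k⁆ * ⁅(x j)⁻¹, (x k)⁻¹⁆⁻¹) =
        (q.comp (R p)) ⁅⁅x j, x i⁆, x k⁆
      rw [map_mul, map_mul, ← h6.eq, map_inv, mul_inv_cancel_right]
    exact mul_inv_eq_iff_eq_mul.mp h1
  have hδg : Commute (q (C p ⁅(x j)⁻¹, (x k)⁻¹⁆)) (q (C j (x i))) := by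
    have h1 : q (C j (x i)) * q (C p ⁅(x j)⁻¹, (x k)⁻¹⁆) * (q (C j (x i)))⁻¹ =
        q (C p ⁅(x j)⁻¹, (x k)⁻¹⁆) := by
      rw [← map_inv, ← map_mul, ← map_mul, C_conj_C hpj (x_mem_O hpi.symm),
        map_commutatorElement (C j (x i)), map_inv (C j (x i)), map_inv (C j (x i)),
        C_apply_self, kill_ne hij, C_apply_ne hjk.symm]
      have e : ((x i)⁻¹ * x j * x i : F n)⁻¹ = (x i)⁻¹ * (x j)⁻¹ * x i := by group
      rw [e]
      exact kill2_conj (q.comp (C p)) (fun w hw => hC p w hw) _ _ _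
    exact (mul_inv_eq_iff_eq_mul.mp h1).symm
  -- `P` commutes with `D`
  have hPD : Commute (q (C j (x p))) (q (C i ⁅x j, x k⁆)) := by
    have h1 : q (C j (x p)) * q (C i ⁅x j, x k⁆) * (q (C j (x p)))⁻¹ = q (C i ⁅x j, x k⁆) := by
      rw [← map_inv, ← map_mul, ← map_mul, C_conj_C hij (x_mem_O hpi),
        map_commutatorElement (C j (x p)), C_apply_self, kill_ne hpj, C_apply_ne hjk.symm]
      exact kill2_conj (q.comp (C i)) (fun w hw => hC i w hw) _ _ _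
    exact mul_inv_eq_iff_eq_mul.mp h1
  -- `g S g⁻¹ = S X`
  have hS : q (C j (x i)) * q (C i (x p)) * (q (C j (x i)))⁻¹ =
      q (C i (x p)) * q (C j ⁅x p, x i⁆) := by
    have h1 : (C i (x p))⁻¹ * C j (x i) * C i (x p) = C j ⁅x p, x i⁆ * C j (x i) := by
      have h2 := C_conj_C hij.symm (v := (x p)⁻¹) ((O j).inv_mem (x_mem_O hpj)) (x i)
      have h4 : C i (x p)⁻¹ (x i) = x p * x i * (x p)⁻¹ := by
        rw [C_apply_self, map_inv, kill_ne hpi, inv_inv]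
      rw [h4, map_inv, inv_inv] at h2
      rw [h2, ← map_mul]
      congr 1
      rw [commutatorElement_def]; group
    rw [mul_inv_eq_iff_eq_mul, mul_assoc, ← map_mul q (C j ⁅x p, x i⁆), ← h1, ← map_mul,
      ← map_mul]
    congr 1
    group
  -- abstract part
  generalize q (C j (x i)) = g at *
  generalize q (C i ⁅x j, x k⁆) = D at *
  generalize q (C i (x p)) = S at *
  generalize q (R p ⁅x j, x k⁆) = W at *
  generalize q (R p ⁅⁅x j, x i⁆, x k⁆) = t at *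
  generalize q (C j (x p)) = P at *
  generalize q (C p ⁅(x j)⁻¹, (x k)⁻¹⁆) = δ at *
  rw [hX] at hS
  -- `W⁻¹ g W = t g`
  have k1 : W⁻¹ * g * W = t * g := by
    have : g * W = W * t * g := by rw [← hW]; group
    rw [mul_assoc, this]; group
  -- `X` commutes with `W`
  have hgt : g * t = t * g := htg.eq
  have hPt : P * t = t * P := hA2.eq
  have hXW : W⁻¹ * ⁅P, g⁆ * W = ⁅P, g⁆ := by
    have b1 : W⁻¹ * ⁅P, g⁆ * W = ⁅W⁻¹ * P * W, W⁻¹ * g * W⁆ := by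
      simp only [commutatorElement_def]; group
    rw [b1, hloop, k1]
    have b2 : δ * (t * g) = t * g * δ := (hδt.mul_right hδg).eq
    have b3 : ⁅P * δ, t * g⁆ = P * (δ * (t * g)) * δ⁻¹ * P⁻¹ * g⁻¹ * t⁻¹ := by
      simp only [commutatorElement_def]; group
    rw [b3, b2]
    have b4 : P * (t * g * δ) * δ⁻¹ * P⁻¹ * g⁻¹ * t⁻¹ = (P * t) * g * P⁻¹ * g⁻¹ * t⁻¹ := by group
    rw [b4, hPt]
    have b5 : Commute t ⁅P, g⁆ := by
      have c1 : Commute t P := hA2.symm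
      have c2 : Commute t g := htg.symm
      rw [commutatorElement_def]
      exact ((c1.mul_right c2).mul_right c1.inv_right).mul_right c2.inv_right
    calc t * P * g * P⁻¹ * g⁻¹ * t⁻¹ = t * ⁅P, g⁆ * t⁻¹ := by
          simp only [commutatorElement_def]; group
      _ = ⁅P, g⁆ := by rw [b5.eq, mul_inv_cancel_right]
  have hXt : Commute t ⁅P, g⁆ := by
    have c1 : Commute t P := hA2.symm
    have c2 : Commute t g := htg.symm
    rw [commutatorElement_def]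
    exact ((c1.mul_right c2).mul_right c1.inv_right).mul_right c2.inv_right
  have hXW' : Commute W ⁅P, g⁆ := by
    show W * ⁅P, g⁆ = ⁅P, g⁆ * W
    calc W * ⁅P, g⁆ = W * (W⁻¹ * ⁅P, g⁆ * W) := by rw [hXW]
      _ = ⁅P, g⁆ * W := by group
  generalize hXdef : ⁅P, g⁆ = X at *
  -- `D = S⁻¹ W S W⁻¹`
  have hD : D = S⁻¹ * W * S * W⁻¹ := by
    have : S * D = W * S * W⁻¹ := h2.symm
    calc D = S⁻¹ * (S * D) := by group
      _ = _ := by rw [this]; group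
  -- `g D g⁻¹ = X⁻¹ D X`
  have hgD : g * D * g⁻¹ = X⁻¹ * D * X := by
    have c1 : g * D * g⁻¹ = (g * S * g⁻¹)⁻¹ * (g * W * g⁻¹) * (g * S * g⁻¹) * (g * W * g⁻¹)⁻¹ := by
      rw [hD]; group
    rw [c1, hS, hW]
    have c2 : t * (S * X) = S * X * t := ((hA1.symm).mul_right hXt).eq
    have c3 : (S * X)⁻¹ * (W * t) * (S * X) * (W * t)⁻¹ = X⁻¹ * S⁻¹ * W * (t * (S * X)) * t⁻¹ * W⁻¹ := by
      group
    rw [c3, c2]
    have c4 : X⁻¹ * S⁻¹ * W * (S * X * t) * t⁻¹ * W⁻¹ = X⁻¹ * S⁻¹ * W * S * (X * W⁻¹) := by group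
    have c5 : X * W⁻¹ = W⁻¹ * X := (hXW'.symm.inv_right).eq
    rw [c4, c5, hD]
    group
  -- conclusion
  have hXi : X⁻¹ = g * P * g⁻¹ * P⁻¹ := by
    rw [← hXdef, commutatorElement_inv, commutatorElement_def]
  have hX2 : X = P * g * P⁻¹ * g⁻¹ := by rw [← hXdef, commutatorElement_def]
  have d1 : P⁻¹ * D * P = D := by rw [mul_assoc, ← hPD.eq]; group
  have d2 : g * D * g⁻¹ = g * P * g⁻¹ * D * (g * P * g⁻¹)⁻¹ := by
    rw [hgD, hXi, hX2]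
    have : g * P * g⁻¹ * P⁻¹ * D * (P * g * P⁻¹ * g⁻¹) =
        g * P * g⁻¹ * (P⁻¹ * D * P) * (g * P * g⁻¹)⁻¹ := by group
    rw [this, d1]
  have d3 : D = P * (g⁻¹ * D * g) * P⁻¹ := by
    calc D = g⁻¹ * (g * D * g⁻¹) * g := by group
      _ = _ := by rw [d2]; group
  have d4 : g⁻¹ * D * g = D := by
    calc g⁻¹ * D * g = P⁻¹ * (P * (g⁻¹ * D * g) * P⁻¹) * P := by group
      _ = P⁻¹ * D * P := by rw [← d3]
      _ = D := d1
  show g * D = D * g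
  calc g * D = g * (g⁻¹ * D * g) := by rw [d4]
    _ = D * g := by group

end Pool.Agent.CSP3
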