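import Pool.Agent.CSP3.Rel
import Pool.Agent.CSP3.ExpHom
import Pool.Agent.CSP3.IA
import Pool.Agent.CSP3.Lev2A

/-!
# Level 2 (MODULES LEV2A, LEV2B)

`q` kills all `C i w`, `w ∈ γ_3`, and `4 ≤ n`.  `q (R i w) = 1` for `w ∈ γ_4` (`he_gamma4`).
Notation: `w ≡ w'` mod `γ_3` or `γ_4`, products in `Q`, indices `i, j, k, p` distinct,
`w = ⁅x j, x k⁆`.

LEV2A.
(A) `C i (x p)` commutes with `R p z` for `z ∈ γ_3` of the subgroup generated by `x i, x j, x k`
(enough: `z = ⁅x i, w⁆`, by `he_cyc`, `he_swap`; in particular for `z = z'` below and then also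
for `C j (x p)`, `C k (x p)` in place of `C i (x p)`):
 `C p (x i) * R p w * (C p (x i))⁻¹ = R p (x i * w * (x i)⁻¹)`, so `R p ⁅x i, w⁆ = ⁅C p (x i), R p w⁆`;
 `R p w * C i (x p) * (R p w)⁻¹ = C i (x p * w) = C i (x p) * C i w`, so
 `(C i (x p))⁻¹ * R p w * C i (x p) = C i w * R p w`; `C i (x p)` and `C p (x i)` commute (`qbase`);
 `C i w * C p (x i) * (C i w)⁻¹ = C p (w⁻¹ * x i * w) = C p (x i)` (mod `C p (γ_3)`);
 so conjugation by `(C i (x p))⁻¹` maps `⁅C p (x i), R p w⁆` to `⁅C p (x i), C i w * R p w⁆ =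
 C i w * ⁅C p (x i), R p w⁆ * (C i w)⁻¹ = R p (C i w ⁅x i, w⁆) = R p ⁅x i, w⁆` (mod `γ_4`).
(B) `X = C j ⁅x p, x i⁆` commutes with `W = R p ⁅x j, x k⁆`.  Let `m = R p ⁅(x j)⁻¹, x k⁆ = W⁻¹`
 (`he_inv_left`).  `qloop`: `m * C j (x p) * m⁻¹ = C j (x p) * δ`, `δ = C p ⁅(x j)⁻¹, (x k)⁻¹⁆`.
 With `h = C j (x i)`: `h * m * h⁻¹ = R p (C j (x i) ⁅(x j)⁻¹, x k⁆) = m * r`, `r = R p z''`,
 `z'' ∈ γ_3` of `⟨x i, x j, x k⟩`; so `m * h * m⁻¹ = r⁻¹ * h` (`m`, `r` commute).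
 `X = ⁅C j (x p), h⁆`.  `δ` commutes with `r` (`R p (γ_5)`) and with `h` (mod `C p (γ_3)`); `r`
 commutes with `C j (x p)` by (A) and with `h`.  So `m * X * m⁻¹ = X`.
(E) `g = C j (x i)` commutes with `D = C i w`.  Exactly: `D = (C i (x p))⁻¹ * W * C i (x p) * W⁻¹`,
 `g * W * g⁻¹ = R p (C j (x i) w) = W * R p z'`, `z' ∈ γ_3⟨x i, x j, x k⟩`,
 `g * C i (x p) * g⁻¹ = C i (x p) * X` with `X = C j ⁅x p, x i⁆` (because `(C i (x p))⁻¹ * C j (x i) *
 C i (x p) = C j (x p * x i * (x p)⁻¹)`).  `R p z'` commutes with `C i (x p)` (A), with `X = ⁅C j (x p),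
 C j (x i)⁆` (A for `C j (x p)`; `C j (x i)` fixes `z'` mod `γ_4`) and with `W`.  With (B):
 `g * D * g⁻¹ = X⁻¹ * D * X`.  Moreover `X⁻¹ = g * h' * g⁻¹ * h'⁻¹`, `h' = C j (x p)`, and `h'` commutes
 with `D` (`C i (C j (x p) w)`, mod `C i (γ_3)`).  So `g D g⁻¹ = g h' g⁻¹ D g h'⁻¹ g⁻¹`, i.e.
 `D = h' g⁻¹ D g h'⁻¹`, and `D = g⁻¹ D g`.

LEV2B.  (i) every generator of `J1` commutes with `D = C i ⁅x j, x k⁆`:
 `C i (x b)`: `C i (γ_3)`.  `C a (x b)`, `a ≠ i`, `b ≠ i`: `C i (C a (x b) w)`, mod `γ_3`.  `C a (x i)`,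
 `a ∉ {j, k}`: `D * C a (x i) * D⁻¹ = C a (w⁻¹ * x i * w)`.  `C j (x i)`: (E); `C k (x i)`: (E) for
 `⁅x k, x j⁆`.  `R i v`, `v ∈ γ_2`: `R i (γ_4)`.  `R a v`, `v = ⁅x b, x c⁆`, `a ≠ i`: `i ∉ {b, c}`:
 `C i (R a v w)`, mod `γ_3`.  `v = ⁅x i, x c⁆`, `a ∉ {j, k}`: `R a (C i w v)`, mod `γ_4`.
 `a = j`, `v = ⁅x i, x c⁆`: conjugate (E) by `R j (x c)`: `C j (x i) * R j ⁅(x i)⁻¹, x c⁆` commutes with
 `C i ⁅x j * x c, x k⁆ = C i ⁅x j, x k⁆ * C i ⁅x c, x k⁆` (mod `C i (γ_3)`), the other pairs commute, so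
 `R j ⁅(x i)⁻¹, x c⁆` commutes with `D`.
(ii) the centraliser `Z = {α | q α commutes with q g for all g ∈ J1}` is a subgroup normalised by `A n`
 (`J1` normal); it contains the `C i ⁅x j, x k⁆`, hence all `C i w`, `w ∈ γ_2` (`gen2` applied to
 `q ∘ C i`), and `R i ⁅w⁻¹, v⁆ = (C i w)⁻¹ * (R i v * C i w * (R i v)⁻¹)`, which generate the
 `R i z`, `z ∈ γ_3`.
(iii) `q (J2)` is normalised by `q (A n)`: generators of `A n` (`nielsen_top`): `sg`, `pm` easy
 (`sg i * R i z * sg i = L i z = C i z * (R i z)⁻¹`, and `q (C i z) = 1` for `z ∈ γ_3`); `L k (x l) =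
 C k (x l) * (R k (x l))⁻¹` and `C k (x l) ∈ J1` centralises.  `e = R a (x b)`:
 on `C i w`, `w = ⁅x j, x k⁆`: `a = i`; `a ≠ i, b ≠ i`; `b = i, a ∉ {j, k}` by the rules (a), (b), (c);
 `e = R j (x i)`: `e C i w e⁻¹ = ⁅C j (x i) * C i (x j), C i (x k) * R j ⁅x k, x i⁆⁆`; all four factors
 are in `J1`, their commutators are central in `q (J1)` (they are in `Z`; by `lev1` applied to the
 quotient by the normal closure of the `C i w`, `w ∈ γ_2`), so this is the product of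
 `⁅C j (x i), C i (x k)⁆ ∈ C j (γ_2)`, `⁅C j (x i), R j ⁅x k, x i⁆⁆ ∈ R j (γ_3)`, `C i w` and
 `⁅C i (x j), R j ⁅x k, x i⁆⁆ ∈ C j (γ_2)` (`qloop`).
 On `R i z`, `z = ⁅⁅x j, x k⁆, x p⁆`: the only loop is `b = i`, `a ∈ {j, k, p}`; by `he_cyc`,
 `he_swap` one may take `a = j`.  `R i ⁅w⁻¹, x p⁆ = (C i w)⁻¹ * (R i (x p) * C i w * (R i (x p))⁻¹)` and
 `R j (x i) * R i (x p) = R i (x p) * R j (x i) * (R j (x p))⁻¹`, `(R j (x p))⁻¹ * C i w * R j (x p) =
 C i ⁅x j * (x p)⁻¹, x k⁆`: reduces to the `C`-case followed by conjugation with `R i (x p)` of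
 elements `C i (γ_2)`, `C j (γ_2)`, `R j (γ_3)`, `R i (γ_3)` (no loop, `p ∉ {i, j}`).
-/

set_option autoImplicit false

namespace Pool.Agent.CSP3

open scoped commutatorElement

variable {n : ℕ}

/-- generated by `C i w`, `w ∈ γ_2`, and `R i w`, `w ∈ γ_3` -/
def J2 (n : ℕ) : Subgroup (A n) :=
  Subgroup.closure ({g | ∃ i : Fin n, ∃ w ∈ gam n 1, g = C i w} ∪
    {g | ∃ i : Fin n, ∃ w ∈ gam n 2, g = R i w})

variable {Q : Type*} [Group Q] (q : A n →* Q)

/-! #### auxiliary lemmas for LEV2B -/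

private theorem l2b_mul_central {G : Type*} [Group G] {a b z z' : G} (_h1 : Commute z a)
    (h2 : Commute z b) (h3 : Commute z' a) (_h4 : Commute z' b) (h5 : Commute z z') :
    ⁅a * z, b * z'⁆ = ⁅a, b⁆ := by
  have e1 : (a * z) * (b * z') = (a * b) * (z * z') := by
    rw [mul_assoc, mul_assoc, ← mul_assoc z b z', h2.eq, mul_assoc]
  have e2 : (b * z') * (a * z) = (b * a) * (z * z') := by
    rw [mul_assoc, mul_assoc, ← mul_assoc z' a z, h3.eq, mul_assoc, h5.symm.eq]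
  have e3 : ⁅a * z, b * z'⁆ = ((a * z) * (b * z')) * ((b * z') * (a * z))⁻¹ := by
    rw [commutatorElement_def]; group
  have e4 : ⁅a, b⁆ = (a * b) * (b * a)⁻¹ := by
    rw [commutatorElement_def]; group
  rw [e3, e4, e1, e2]
  group

/-- two homomorphic images of elements commute, if the commutator is killed -/
private theorem l2b_commute {G : Type*} [Group G] (σ : F n →* G) {u v : F n}
    (h : σ ⁅u, v⁆ = 1) : Commute (σ u) (σ v) := by
  rw [map_commutatorElement] at h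
  exact commutatorElement_eq_one_iff_commute.mp h

private theorem l2b_gam_succ {k : ℕ} {u : F n} (hu : u ∈ gam n k) (v : F n) :
    ⁅u, v⁆ ∈ gam n (k + 1) := by
  show ⁅u, v⁆ ∈ (⊤ : Subgroup (F n)).lowerCentralSeries (k + 1)
  rw [Subgroup.lowerCentralSeries_succ]
  exact Subgroup.commutator_mem_commutator hu (Subgroup.mem_top v)

private theorem l2b_comm_mem (u v : F n) : ⁅u, v⁆ ∈ gam n 1 := by
  refine l2b_gam_succ ?_ v
  show u ∈ (⊤ : Subgroup (F n)).lowerCentralSeries 0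
  rw [Subgroup.lowerCentralSeries_zero]
  exact Subgroup.mem_top u

private theorem l2b_kill_mem (a : Fin n) {v : F n} (hv : v ∈ gam n 1) : kill a v ∈ gam n 1 := by
  have h := Subgroup.mem_map_of_mem (kill a) hv
  rw [Subgroup.map_lowerCentralSeries] at h
  exact Subgroup.lowerCentralSeries_mono 1 le_top h

/-- if `σ` kills `γ_3`, elements of `γ_2` have central image -/
private theorem l2b_central {G : Type*} [Group G] (σ : F n →* G) (h : ∀ w ∈ gam n 2, σ w = 1)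
    {u : F n} (hu : u ∈ gam n 1) (v : F n) : Commute (σ u) (σ v) :=
  l2b_commute σ (h _ (l2b_gam_succ hu v))

/-- if `σ` kills `γ_3`, `σ ⁅x, y⁆` depends only on `x`, `y` modulo `γ_2` -/
private theorem l2b_class {G : Type*} [Group G] (σ : F n →* G) (h : ∀ w ∈ gam n 2, σ w = 1)
    (u v : F n) {u' v' : F n} (hu : u' ∈ gam n 1) (hv : v' ∈ gam n 1) :
    σ ⁅u * u', v * v'⁆ = σ ⁅u, v⁆ := by
  rw [map_commutatorElement, map_commutatorElement, map_mul, map_mul]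
  exact l2b_mul_central (l2b_central σ h hu u) (l2b_central σ h hu v) (l2b_central σ h hv u)
    (l2b_central σ h hv v) (l2b_central σ h hu v')

/-- an automorphism which is the identity modulo `γ_2` acts trivially on `γ_2 / γ_3` -/
private theorem l2b_IA {G : Type*} [Group G] (σ : F n →* G) (h : ∀ w ∈ gam n 2, σ w = 1)
    (φ : A n) (hφ : ∀ j, ∃ u ∈ gam n 1, φ (x j) = x j * u) (j k : Fin n) :
    σ (φ ⁅x j, x k⁆) = σ ⁅x j, x k⁆ := by
  obtain ⟨u, hu, eu⟩ := hφ j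
  obtain ⟨v, hv, ev⟩ := hφ k
  rw [map_commutatorElement φ, eu, ev]
  exact l2b_class σ h (x j) (x k) hu hv

private theorem l2b_IA_C (a : Fin n) (v : F n) (j : Fin n) :
    ∃ u ∈ gam n 1, C a v (x j) = x j * u := by
  by_cases hj : j = a
  · subst hj
    refine ⟨⁅(x j)⁻¹, (kill j v)⁻¹⁆, l2b_comm_mem _ _, ?_⟩
    rw [C_apply_self, commutatorElement_def]
    group
  · exact ⟨1, Subgroup.one_mem _, by rw [C_apply_ne hj, mul_one]⟩

private theorem l2b_IA_R (a : Fin n) {v : F n} (hv : v ∈ gam n 1) (j : Fin n) :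
    ∃ u ∈ gam n 1, R a v (x j) = x j * u := by
  by_cases hj : j = a
  · subst hj
    exact ⟨kill j v, l2b_kill_mem j hv, R_apply_self j v⟩
  · exact ⟨1, Subgroup.one_mem _, by rw [R_apply_ne hj, mul_one]⟩

private theorem l2b_comm_inv (j k : Fin n) : (⁅x j, x k⁆ : F n) = ⁅x k, x j⁆⁻¹ := by
  rw [commutatorElement_inv]

private theorem l2b_of_conj {G : Type*} [Group G] {g d : G} (h : g * d * g⁻¹ = d) :
    Commute g d := mul_inv_eq_iff_eq_mul.mp h

/-- case `g = C a (x i)`, `a ∉ {j, k}` -/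
private theorem l2b_C_far {Q : Type*} [Group Q] (q : A n →* Q)
    (hC : ∀ i : Fin n, ∀ w ∈ gam n 2, q (C i w) = 1) {i j k a : Fin n} (hij : i ≠ j)
    (hik : i ≠ k) (hai : a ≠ i) (haj : a ≠ j) (hak : a ≠ k) :
    Commute (q (C a (x i))) (q (C i ⁅x j, x k⁆)) := by
  have hwa : ⁅x j, x k⁆ ∈ O a := comm_mem_O (x_mem_O haj.symm) (x_mem_O hak.symm)
  have hwi : ⁅x j, x k⁆ ∈ O i := comm_mem_O (x_mem_O hij.symm) (x_mem_O hik.symm)
  have h1 := C_conj_C hai hwa (x i)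
  rw [C_apply_self, kill_of_mem hwi] at h1
  have h2 := congrArg q h1
  have hσ : ∀ w ∈ gam n 2, (q.comp (C a)) w = 1 := fun w hw => hC a w hw
  have h3 : Commute ((q.comp (C a)) ⁅x j, x k⁆) ((q.comp (C a)) (x i)) :=
    l2b_central (q.comp (C a)) hσ (l2b_comm_mem _ _) _
  have h4 : q (C a (⁅x j, x k⁆⁻¹ * x i * ⁅x j, x k⁆)) = q (C a (x i)) := by
    have : (q.comp (C a)) (⁅x j, x k⁆⁻¹ * x i * ⁅x j, x k⁆) = (q.comp (C a)) (x i) := by
      rw [map_mul, map_mul, map_inv, mul_assoc, ← h3.eq, inv_mul_cancel_left]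
    exact this
  rw [h4, map_mul, map_mul, map_inv] at h2
  exact (l2b_of_conj h2).symm

/-- case `g = C a (x b)` -/
private theorem l2b_C {Q : Type*} [Group Q] (q : A n →* Q) (hn : 4 ≤ n)
    (hT : ∀ i j : Fin n, i ≠ j → q (R i (x j)) ^ 3 = 1)
    (hC : ∀ i : Fin n, ∀ w ∈ gam n 2, q (C i w) = 1) {i j k : Fin n} (hij : i ≠ j) (hik : i ≠ k)
    (hjk : j ≠ k) (a b : Fin n) : Commute (q (C a (x b))) (q (C i ⁅x j, x k⁆)) := by
  have hσ : ∀ w ∈ gam n 2, (q.comp (C i)) w = 1 := fun w hw => hC i w hw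
  by_cases hai : a = i
  · subst hai
    exact (l2b_central (q.comp (C a)) hσ (l2b_comm_mem (x j) (x k)) (x b)).symm
  by_cases hbi : b = i
  · subst hbi
    by_cases haj : a = j
    · subst haj
      exact lev2_E q hn hT hC hij hik hjk
    by_cases hak : a = k
    · subst hak
      rw [l2b_comm_inv, map_inv, map_inv]
      exact (lev2_E q hn hT hC hik hij hjk.symm).inv_right
    exact l2b_C_far q hC hij hik hai haj hak
  · have h1 := congrArg q (C_conj_C (fun h => hai h.symm) (x_mem_O hbi) ⁅x j, x k⁆)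
    have h2 : q (C i (C a (x b) ⁅x j, x k⁆)) = q (C i ⁅x j, x k⁆) :=
      l2b_IA (q.comp (C i)) hσ (C a (x b)) (l2b_IA_C a (x b)) j k
    rw [h2, map_mul, map_mul, map_inv] at h1
    exact l2b_of_conj h1

/-- if the image of `ρ` has exponent three, `ρ ⁅x, y⁆` depends only on `x`, `y` modulo `γ_3` -/
private theorem l2b_class3 {G : Type*} [Group G] (ρ : F n →* G) (h : ∀ w, ρ w ^ 3 = 1)
    (u v : F n) {u' v' : F n} (hu : u' ∈ gam n 2) (hv : v' ∈ gam n 2) :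
    ρ ⁅u * u', v * v'⁆ = ρ ⁅u, v⁆ := by
  rw [map_commutatorElement, map_commutatorElement, map_mul, map_mul]
  exact l2b_mul_central (he_gam3 ρ h hu u) (he_gam3 ρ h hu v) (he_gam3 ρ h hv u)
    (he_gam3 ρ h hv v) (he_gam3 ρ h hu v')

private theorem l2b_conj_eq {w : F n} (hw : w ∈ gam n 1) (u : F n) :
    ∃ z ∈ gam n 2, w⁻¹ * u * w = u * z := by
  refine ⟨⁅u⁻¹, w⁻¹⁆, ?_, ?_⟩
  · rw [← commutatorElement_inv]
    exact Subgroup.inv_mem _ (l2b_gam_succ (Subgroup.inv_mem _ hw) _)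
  · rw [commutatorElement_def]; group

/-- case `g = R a ⁅x i, x c⁆`, `a ∉ {j, k}` -/
private theorem l2b_R_far {Q : Type*} [Group Q] (q : A n →* Q)
    (hT : ∀ i j : Fin n, i ≠ j → q (R i (x j)) ^ 3 = 1)
    {i j k a c : Fin n} (hij : i ≠ j)
    (hik : i ≠ k) (hai : a ≠ i) (haj : a ≠ j) (hak : a ≠ k) (hci : c ≠ i) :
    Commute (q (R a ⁅x i, x c⁆)) (q (C i ⁅x j, x k⁆)) := by
  have hwa : ⁅x j, x k⁆ ∈ O a := comm_mem_O (x_mem_O haj.symm) (x_mem_O hak.symm)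
  have hwi : ⁅x j, x k⁆ ∈ O i := comm_mem_O (x_mem_O hij.symm) (x_mem_O hik.symm)
  have h1 := C_conj_R hai hwa ⁅x i, x c⁆
  rw [map_commutatorElement (C i ⁅x j, x k⁆), C_apply_self, C_apply_ne hci, kill_of_mem hwi] at h1
  have h2 := congrArg q h1
  have hρ : ∀ w, (q.comp (R a)) w ^ 3 = 1 := fun w => qR_cube q hT a w
  obtain ⟨z, hz, ez⟩ := l2b_conj_eq (l2b_comm_mem (x j) (x k)) (x i)
  rw [ez] at h2
  have h3 : q (R a ⁅x i * z, x c⁆) = q (R a ⁅x i, x c⁆) := by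
    have := l2b_class3 (q.comp (R a)) hρ (x i) (x c) hz (Subgroup.one_mem (gam n 2))
    rw [mul_one] at this
    exact this
  rw [h3, map_mul, map_mul, map_inv] at h2
  exact (l2b_of_conj h2).symm

/-- case `g = R j ⁅x i, x c⁆` -/
private theorem l2b_R_near {Q : Type*} [Group Q] (q : A n →* Q) (hn : 4 ≤ n)
    (hT : ∀ i j : Fin n, i ≠ j → q (R i (x j)) ^ 3 = 1)
    (hC : ∀ i : Fin n, ∀ w ∈ gam n 2, q (C i w) = 1) {i j k c : Fin n} (hij : i ≠ j)
    (hik : i ≠ k) (hjk : j ≠ k) (hci : c ≠ i) (hcj : c ≠ j) :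
    Commute (q (R j ⁅x i, x c⁆)) (q (C i ⁅x j, x k⁆)) := by
  have hσ : ∀ w ∈ gam n 2, (q.comp (C i)) w = 1 := fun w hw => hC i w hw
  have hρ : ∀ w, (q.comp (R j)) w ^ 3 = 1 := fun w => qR_cube q hT j w
  have hM : q (R j ⁅(x i)⁻¹, x c⁆) = (q (R j ⁅x i, x c⁆))⁻¹ :=
    he_inv_left (q.comp (R j)) hρ (x i) (x c)
  -- conjugation
  have hE := lev2_E q hn hT hC hij hik hjk
  have k1 := congrArg q (R_conj_C_same j (x c) (x i))
  have k2 := congrArg q (R_conj_C hij (x_mem_O hci) ⁅x j, x k⁆)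
  rw [map_commutatorElement (R j (x c)), R_apply_self, R_apply_ne hjk.symm, kill_ne hcj] at k2
  rw [map_mul, map_mul, map_inv, map_mul] at k1
  rw [map_mul, map_mul, map_inv] at k2
  have k3 : q (C i ⁅x j * x c, x k⁆) = q (C i ⁅x j, x k⁆) * q (C i ⁅x c, x k⁆) := by
    have e : (⁅x j * x c, x k⁆ : F n) = (x j * ⁅x c, x k⁆ * (x j)⁻¹) * ⁅x j, x k⁆ := by
      simp only [commutatorElement_def]; group
    have hc1 : Commute ((q.comp (C i)) ⁅x c, x k⁆) ((q.comp (C i)) (x j)) :=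
      l2b_central (q.comp (C i)) hσ (l2b_comm_mem (x c) (x k)) _
    have hc2 : Commute ((q.comp (C i)) ⁅x c, x k⁆) ((q.comp (C i)) ⁅x j, x k⁆) :=
      l2b_central (q.comp (C i)) hσ (l2b_comm_mem (x c) (x k)) _
    have : (q.comp (C i)) ⁅x j * x c, x k⁆ =
        (q.comp (C i)) ⁅x j, x k⁆ * (q.comp (C i)) ⁅x c, x k⁆ := by
      rw [e, map_mul, map_mul, map_mul, map_inv, ← hc1.eq, mul_inv_cancel_right, hc2.eq]
    exact this
  rw [k3] at k2
  have hconj : Commute (q (C j (x i)) * q (R j ⁅(x i)⁻¹, x c⁆))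
      (q (C i ⁅x j, x k⁆) * q (C i ⁅x c, x k⁆)) := by
    rw [← k1, ← k2]
    exact (Commute.conj_iff _).mpr hE
  -- the two factors with `D' = C i ⁅x c, x k⁆`
  have hPD' : Commute (q (C j (x i))) (q (C i ⁅x c, x k⁆)) := by
    by_cases hck : c = k
    · subst hck
      rw [commutatorElement_self, map_one, map_one]
      exact Commute.one_right _
    · exact l2b_C_far q hC hci.symm hik hij.symm hcj.symm hjk
  have hMD' : Commute (q (R j ⁅x i, x c⁆)) (q (C i ⁅x c, x k⁆)) := by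
    by_cases hck : c = k
    · subst hck
      rw [commutatorElement_self, map_one, map_one]
      exact Commute.one_right _
    · exact l2b_R_far q hT hci.symm hik hij.symm hcj.symm hjk hci
  rw [hM] at hconj
  have hMD'' := hMD'.inv_left
  generalize q (C j (x i)) = P at *
  generalize q (C i ⁅x j, x k⁆) = D at *
  generalize q (C i ⁅x c, x k⁆) = D' at *
  generalize q (R j ⁅x i, x c⁆) = M at *
  have h5 : M⁻¹ * D * D' = D * M⁻¹ * D' := by
    have h6 := hconj.eq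
    have h7 : D * D' * (P * M⁻¹) = P * (D * D' * M⁻¹) := by
      rw [← mul_assoc, mul_assoc D D' P, ← hPD'.eq, ← mul_assoc D P D', ← hE.eq]
      simp only [mul_assoc]
    rw [h7, mul_assoc, mul_left_cancel_iff] at h6
    rw [mul_assoc, h6, mul_assoc, mul_assoc, hMD''.eq]
  have h8 : Commute M⁻¹ D := mul_right_cancel h5
  have h9 := h8.inv_left
  rwa [inv_inv] at h9

/-- case `g = R a ⁅x i, x c⁆` -/
private theorem l2b_R_loop {Q : Type*} [Group Q] (q : A n →* Q) (hn : 4 ≤ n)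
    (hT : ∀ i j : Fin n, i ≠ j → q (R i (x j)) ^ 3 = 1)
    (hC : ∀ i : Fin n, ∀ w ∈ gam n 2, q (C i w) = 1) {i j k a c : Fin n} (hij : i ≠ j)
    (hik : i ≠ k) (hjk : j ≠ k) (hai : a ≠ i) (hac : a ≠ c) (hci : c ≠ i) :
    Commute (q (R a ⁅x i, x c⁆)) (q (C i ⁅x j, x k⁆)) := by
  by_cases haj : a = j
  · subst haj
    exact l2b_R_near q hn hT hC hij hik hjk hci hac.symm
  by_cases hak : a = k
  · subst hak
    rw [l2b_comm_inv j a, map_inv (C i), map_inv q]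
    exact (l2b_R_near q hn hT hC hik hij hjk.symm hci hac.symm).inv_right
  exact l2b_R_far q hT hij hik hai haj hak hci

/-- case `g = R a ⁅x b, x c⁆` -/
private theorem l2b_R {Q : Type*} [Group Q] (q : A n →* Q) (hn : 4 ≤ n)
    (hT : ∀ i j : Fin n, i ≠ j → q (R i (x j)) ^ 3 = 1)
    (hC : ∀ i : Fin n, ∀ w ∈ gam n 2, q (C i w) = 1) {i j k a b c : Fin n} (hij : i ≠ j)
    (hik : i ≠ k) (hjk : j ≠ k) (hab : a ≠ b) (hac : a ≠ c) (hbc : b ≠ c) :
    Commute (q (R a ⁅x b, x c⁆)) (q (C i ⁅x j, x k⁆)) := by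
  have hσ : ∀ w ∈ gam n 2, (q.comp (C i)) w = 1 := fun w hw => hC i w hw
  by_cases hai : a = i
  · subst hai
    have hρ : ∀ w, (q.comp (R a)) w ^ 3 = 1 := fun w => qR_cube q hT a w
    have h1 := congrArg q (C_conj_R_same a ⁅x b, x c⁆ ⁅x j, x k⁆)
    have e1 : (⁅x j, x k⁆ * ⁅x b, x c⁆ * ⁅x j, x k⁆⁻¹ : F n) =
        ⁅⁅x j, x k⁆ * x b * ⁅x j, x k⁆⁻¹, ⁅x j, x k⁆ * x c * ⁅x j, x k⁆⁻¹⁆ := by
      rw [commutatorElement_def (x b) (x c), commutatorElement_def (⁅x j, x k⁆ * x b * _)]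
      group
    have hwi : (⁅x j, x k⁆⁻¹ : F n) ∈ gam n 1 := Subgroup.inv_mem _ (l2b_comm_mem _ _)
    obtain ⟨z, hz, ez⟩ := l2b_conj_eq hwi (x b)
    obtain ⟨z', hz', ez'⟩ := l2b_conj_eq hwi (x c)
    rw [inv_inv] at ez ez'
    rw [e1, ez, ez'] at h1
    have h3 : q (R a ⁅x b * z, x c * z'⁆) = q (R a ⁅x b, x c⁆) :=
      l2b_class3 (q.comp (R a)) hρ (x b) (x c) hz hz'
    rw [h3, map_mul, map_mul, map_inv] at h1
    exact (l2b_of_conj h1).symm
  by_cases hbi : b = i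
  · subst hbi
    exact l2b_R_loop q hn hT hC hij hik hjk hai hac hbc.symm
  by_cases hci : c = i
  · subst hci
    rw [l2b_comm_inv b c, map_inv (R a), map_inv q]
    exact (l2b_R_loop q hn hT hC hij hik hjk hai hab hbc).inv_left
  · have hv : ⁅x b, x c⁆ ∈ O i := comm_mem_O (x_mem_O hbi) (x_mem_O hci)
    have h1 := congrArg q (R_conj_C (fun h => hai h.symm) hv ⁅x j, x k⁆)
    have h2 : q (C i (R a ⁅x b, x c⁆ ⁅x j, x k⁆)) = q (C i ⁅x j, x k⁆) :=
      l2b_IA (q.comp (C i)) hσ (R a ⁅x b, x c⁆) (l2b_IA_R a (l2b_comm_mem _ _)) j k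
    rw [h2, map_mul, map_mul, map_inv] at h1
    exact l2b_of_conj h1

/-- the centraliser of an element is a subgroup: closure induction -/
private theorem l2b_closure {G : Type*} [Group G] {g : G} {S : Set G}
    (h : ∀ s ∈ S, Commute g s) {z : G} (hz : z ∈ Subgroup.closure S) : Commute g z := by
  induction hz using Subgroup.closure_induction with
  | mem x hx => exact h x hx
  | one => exact Commute.one_right g
  | mul a b _ _ ha hb => exact ha.mul_right hb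
  | inv a _ ha => exact ha.inv_right

/-- (i): `C i ⁅x j, x k⁆` commutes with `J1` -/
private theorem l2b_i {Q : Type*} [Group Q] (q : A n →* Q) (hn : 4 ≤ n)
    (hT : ∀ i j : Fin n, i ≠ j → q (R i (x j)) ^ 3 = 1)
    (hC : ∀ i : Fin n, ∀ w ∈ gam n 2, q (C i w) = 1) {i j k : Fin n} (hij : i ≠ j)
    (hik : i ≠ k) (hjk : j ≠ k) {a : A n} (ha : a ∈ J1 n) :
    Commute (q a) (q (C i ⁅x j, x k⁆)) := by
  unfold J1 at ha
  induction ha using Subgroup.closure_induction with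
  | mem g hg =>
    rcases hg with ⟨a, b, _, rfl⟩ | ⟨a, b, c, hab, hac, hbc, rfl⟩
    · exact l2b_C q hn hT hC hij hik hjk a b
    · exact l2b_R q hn hT hC hij hik hjk hab hac hbc
  | one => rw [map_one]; exact Commute.one_left _
  | mul a b _ _ ha hb => rw [map_mul]; exact ha.mul_left hb
  | inv a _ ha => rw [map_inv]; exact ha.inv_left

/-- (ii): `C i w`, `w ∈ γ_2`, commutes with `J1` -/
private theorem l2b_ii {Q : Type*} [Group Q] (q : A n →* Q) (hn : 4 ≤ n)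
    (hT : ∀ i j : Fin n, i ≠ j → q (R i (x j)) ^ 3 = 1)
    (hC : ∀ i : Fin n, ∀ w ∈ gam n 2, q (C i w) = 1) (i : Fin n) {w : F n} (hw : w ∈ gam n 1)
    {a : A n} (ha : a ∈ J1 n) : Commute (q a) (q (C i w)) := by
  have hσ : ∀ w ∈ gam n 2, (q.comp (C i)) w = 1 := fun w hw => hC i w hw
  refine l2b_closure ?_ (gen2 (q.comp (C i)) hσ hw)
  rintro _ ⟨j, k, hjk, rfl⟩
  show Commute (q a) (q (C i ⁅x j, x k⁆))
  by_cases hij : i = j
  · subst hij
    rw [← C_kill, map_commutatorElement (kill i), kill_self, commutatorElement_one_left, map_one,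
      map_one]
    exact Commute.one_right _
  by_cases hik : i = k
  · subst hik
    rw [← C_kill, map_commutatorElement (kill i), kill_self, commutatorElement_one_right, map_one,
      map_one]
    exact Commute.one_right _
  exact l2b_i q hn hT hC hij hik hjk.ne ha

/-- (iii): `R i z`, `z ∈ γ_3`, commutes with `J1` -/
private theorem l2b_iii {Q : Type*} [Group Q] (q : A n →* Q) (hn : 4 ≤ n)
    (hT : ∀ i j : Fin n, i ≠ j → q (R i (x j)) ^ 3 = 1)
    (hC : ∀ i : Fin n, ∀ w ∈ gam n 2, q (C i w) = 1) (i : Fin n) {z : F n} (hz : z ∈ gam n 2)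
    {a : A n} (ha : a ∈ J1 n) : Commute (q a) (q (R i z)) := by
  rw [Subgroup.mem_lowerCentralSeries_succ_iff] at hz
  induction hz using Subgroup.closure_induction with
  | mem y hy =>
    obtain ⟨w, hw, v, _, rfl⟩ := hy
    have hw' : w⁻¹ ∈ gam n 1 := Subgroup.inv_mem _ hw
    have e := R_conj_C_same i v w⁻¹
    rw [inv_inv] at e
    have e' : R i ⁅w, v⁆ = (C i w⁻¹)⁻¹ * (R i v * C i w⁻¹ * (R i v)⁻¹) := by
      rw [e, inv_mul_cancel_left]
    rw [e', map_mul, map_inv]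
    refine Commute.mul_right (l2b_ii q hn hT hC i hw' ha).inv_right ?_
    have hb : (R i v)⁻¹ * a * (R i v) ∈ J1 n := by
      have := J1_normal.conj_mem a ha (R i v)⁻¹
      rwa [inv_inv] at this
    have h1 := l2b_ii q hn hT hC i hw' hb
    have h2 := (Commute.conj_iff (q (R i v))).mpr h1
    have h3 : q (R i v) * q ((R i v)⁻¹ * a * R i v) * (q (R i v))⁻¹ = q a := by
      rw [map_mul q, map_mul q, map_inv q]
      group
    rw [h3] at h2
    rw [map_mul q, map_mul q, map_inv q]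
    exact h2
  | one => rw [map_one, map_one]; exact Commute.one_right _
  | mul a b _ _ ha hb => rw [map_mul, map_mul]; exact ha.mul_right hb
  | inv a _ ha => rw [map_inv, map_inv]; exact ha.inv_right

/-- MODULE LEV2B -/
theorem lev2_comm (hn : 4 ≤ n) (hT : ∀ i j : Fin n, i ≠ j → q (R i (x j)) ^ 3 = 1)
    (hC : ∀ i : Fin n, ∀ w ∈ gam n 2, q (C i w) = 1) {a b : A n} (ha : a ∈ J1 n)
    (hb : b ∈ J2 n) : Commute (q a) (q b) := by
  unfold J2 at hb
  induction hb using Subgroup.closure_induction with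
  | mem g hg =>
    rcases hg with ⟨i, w, hw, rfl⟩ | ⟨i, w, hw, rfl⟩
    · exact l2b_ii q hn hT hC i hw ha
    · exact l2b_iii q hn hT hC i hw ha
  | one => rw [map_one]; exact Commute.one_right _
  | mul a b _ _ ha hb => rw [map_mul]; exact ha.mul_right hb
  | inv a _ ha => rw [map_inv]; exact ha.inv_right

end Pool.Agent.CSP3
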