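import Pool.Agent.CSP3.Stein

/-!
# The monomial subgroup of a group with Steinberg relations (units `±1`)
-/

set_option autoImplicit false

namespace Pool.Agent.CSP3

/-- a quotient of `SL(2,3)`: `(a b a)^4 = 1` -/
theorem braid_four {G : Type*} [Group G] {a b : G} (h : a * b * a = b * a * b) (h3 : a * a * a = 1) :
    (a * b * a) * (a * b * a) * ((a * b * a) * (a * b * a)) = 1 := by
  have ha : a⁻¹ = a * a := by rw [inv_eq_iff_mul_eq_one, ← mul_assoc]; exact h3
  -- `z = c²` commutes with `a` and `c`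
  have e1 : a * b * a * a = b * (a * b * a) := by
    rw [h]; simp only [mul_assoc]; rw [← mul_assoc a b a, h]; simp only [mul_assoc]
  have e2 : a * b * a * b = a * (a * b * a) := by
    nth_rewrite 2 [h]; simp only [mul_assoc]
  have hz : a * ((a * b * a) * (a * b * a)) = (a * b * a) * (a * b * a) * a := by
    rw [mul_assoc (a * b * a), e1, ← mul_assoc (a * b * a) b, e2]
    simp only [mul_assoc]
  have z1 : (a * b * a) * (a * b * a) = (b * a * a) * (b * a * a) := by
    have : (a * b * a) * (a * b * a) = a⁻¹ * ((a * b * a) * (a * b * a) * a) := by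
      rw [← hz]; group
    rw [this]; group
  have z2 : (a * b * a) * (a * b * a) = (a * b⁻¹) * (a * b⁻¹) := by
    have e3 : (a * b * a) * (b * a * a) * (a * b * a)⁻¹ = a * b⁻¹ := by
      have hb : b * b * b = 1 := by
        have : b = (a * b * a) * a * (a * b * a)⁻¹ := by rw [e1]; group
        rw [this]
        have : a * b * a * a * (a * b * a)⁻¹ * (a * b * a * a * (a * b * a)⁻¹) *
            (a * b * a * a * (a * b * a)⁻¹) = (a * b * a) * (a * a * a) * (a * b * a)⁻¹ := by group
        rw [this, h3]; group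
      have hb' : b⁻¹ = b * b := by rw [inv_eq_iff_mul_eq_one, ← mul_assoc]; exact hb
      rw [hb', mul_inv_eq_iff_eq_mul]
      calc a * b * a * (b * a * a) = (a * b * a * b) * a * a := by simp only [mul_assoc]
        _ = a * (a * b * a) * a * a := by rw [e2]
        _ = a * (a * b * a * a) * a := by simp only [mul_assoc]
        _ = a * (b * (a * b * a)) * a := by rw [e1]
        _ = a * b * (a * b * a * a) := by simp only [mul_assoc]
        _ = a * b * (b * (a * b * a)) := by rw [e1]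
        _ = a * (b * b) * (a * b * a) := by simp only [mul_assoc]
    have : (a * b * a) * (a * b * a) =
        (a * b * a) * ((a * b * a) * (a * b * a)) * (a * b * a)⁻¹ := by group
    rw [this, z1]
    have : a * b * a * (b * a * a * (b * a * a)) * (a * b * a)⁻¹ =
      ((a * b * a) * (b * a * a) * (a * b * a)⁻¹) * ((a * b * a) * (b * a * a) * (a * b * a)⁻¹) := by
      group
    rw [this, e3]
  have z3 : (b * a * a) * (b * a * a) * ((a * b⁻¹) * (a * b⁻¹)) = 1 := by
    have : a * a * a = 1 := h3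
    calc (b * a * a) * (b * a * a) * ((a * b⁻¹) * (a * b⁻¹))
        = b * a * a * b * (a * a * a) * b⁻¹ * a * b⁻¹ := by simp only [mul_assoc]
      _ = b * a * a * b * 1 * b⁻¹ * a * b⁻¹ := by rw [this]
      _ = b * (a * a * a) * b⁻¹ := by group
      _ = 1 := by rw [this]; group
  nth_rewrite 1 [z1]
  rw [z2]
  exact z3

namespace Stein

variable {n : ℕ} {F : Type*} [Field F] {G : Type*} [Group G] (S : Stein n F G)

theorem w_def (i j : Fin n) : S.w i j = S.x i j 1 * S.x j i (-1) * S.x i j 1 := rfl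

theorem w_eq (hn : 3 ≤ n) {i j : Fin n} (h : i ≠ j) :
    S.w i j = S.x j i (-1) * S.x i j 1 * S.x j i (-1) := by
  have e : MulAut.conj (S.w i j) (S.w i j) = S.w i j := by
    rw [MulAut.conj_apply, mul_assoc, mul_inv_cancel, mul_one]
  have e2 : MulAut.conj (S.w i j) (S.w i j) =
      MulAut.conj (S.w i j) (S.x i j 1 * S.x j i (-1) * S.x i j 1) := rfl
  rw [e, map_mul, map_mul, S.cj_w_ij hn h, S.cj_w_ji hn h, neg_neg] at e2
  exact e2

theorem w_inv (hn : 3 ≤ n) {i j : Fin n} (h : i ≠ j) : (S.w i j)⁻¹ = S.w j i := by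
  rw [S.w_eq hn h, w, mul_inv_rev, mul_inv_rev, ← S.x_neg h, ← S.x_neg h.symm, neg_neg, mul_assoc]

theorem cj_ww_pos (hn : 3 ≤ n) {i j : Fin n} (h : i ≠ j) {k l : Fin n} (hkl : k ≠ l)
    (hs : sg (F := F) i k * sg i l = 1) :
    MulAut.conj (S.w i j) (S.w k l) = S.w (Equiv.swap i j k) (Equiv.swap i j l) := by
  rw [S.w_def k l, map_mul, map_mul, S.cj_w hn h hkl, S.cj_w hn h hkl.symm, mul_comm (sg i l), hs,
    one_mul, one_mul]
  rfl

theorem cj_ww_neg (hn : 3 ≤ n) {i j : Fin n} (h : i ≠ j) {k l : Fin n} (hkl : k ≠ l)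
    (hs : sg (F := F) i k * sg i l = -1) :
    MulAut.conj (S.w i j) (S.w k l) = S.w (Equiv.swap i j l) (Equiv.swap i j k) := by
  have hne : Equiv.swap i j l ≠ Equiv.swap i j k := fun hh => hkl.symm ((Equiv.injective _) hh)
  rw [S.w_eq hn hne, S.w_def k l, map_mul, map_mul, S.cj_w hn h hkl, S.cj_w hn h hkl.symm,
    mul_comm (sg i l), hs]
  norm_num

/-- the hypothesis on the field -/
def SmallF (F : Type*) [Field F] : Prop := ∀ a : F, a = 0 ∨ a = 1 ∨ a = -1

theorem char_cases (hF : SmallF F) : (-1 : F) = 1 ∨ (1 + 1 + 1 : F) = 0 := by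
  rcases hF (1 + 1) with h | h | h
  · left; linear_combination -h
  · exfalso
    have : (1 : F) = 0 := by linear_combination h
    exact one_ne_zero this
  · right; linear_combination h

theorem w_four (hn : 3 ≤ n) (hF : SmallF F) {i j : Fin n} (h : i ≠ j) :
    S.w i j * S.w i j * (S.w i j * S.w i j) = 1 := by
  rcases char_cases hF with h1 | h3
  · have e : S.w i j = S.w j i := by
      rw [S.w_eq hn h, S.w_def j i, h1]
    have : S.w i j * S.w i j = 1 := by
      nth_rewrite 1 [e]
      rw [← S.w_inv hn h, inv_mul_cancel]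
    rw [this, one_mul]
  · rw [S.w_def i j]
    apply braid_four
    · rw [← w, S.w_eq hn h]
    · rw [← S.add h, ← S.add h, h3, S.x_zero h]

theorem w_two (hn : 3 ≤ n) (h1 : (-1 : F) = 1) {i j : Fin n} (h : i ≠ j) :
    S.w i j * S.w i j = 1 := by
  have e : S.w i j = S.w j i := by
    rw [S.w_eq hn h, S.w_def j i, h1]
  nth_rewrite 1 [e]
  rw [← S.w_inv hn h, inv_mul_cancel]

/-- the group generated by the Weyl elements with indices in a set -/
def NS (A : Finset (Fin n)) : Subgroup G :=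
  Subgroup.closure {g | ∃ i ∈ A, ∃ j ∈ A, i ≠ j ∧ g = S.w i j}

theorem w_mem_NS {A : Finset (Fin n)} {i j : Fin n} (hi : i ∈ A) (hj : j ∈ A) (h : i ≠ j) :
    S.w i j ∈ S.NS A := Subgroup.subset_closure ⟨i, hi, j, hj, h, rfl⟩

theorem mul_cj (g h : G) : g * h = MulAut.conj g h * g := by
  rw [MulAut.conj_apply]; group

/-- the coset representatives -/
def TS (s : Fin n) (A : Finset (Fin n)) : Set G :=
  {g | g ∈ S.NS A ∨ ∃ j ∈ A, ∃ h ∈ S.NS A, g = S.w j s * h ∨ g = S.w s j * h ∨
    g = S.w j s * S.w j s * h}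

theorem sq_rel (hn : 3 ≤ n) {s j k : Fin n} (hj : j ≠ s) (hk : k ≠ s) (hjk : j ≠ k) :
    S.w j s * S.w j s = S.w k s * S.w k s * (S.w k j * S.w k j) := by
  -- `w k s ^ 2 = w k j ^ 2 * w j s ^ 2`
  have a1 : MulAut.conj (S.w k j) (S.w j s) = S.w k s := by
    rw [S.cj_ww_pos hn hjk.symm hj, Equiv.swap_apply_right,
      Equiv.swap_apply_of_ne_of_ne hk.symm hj.symm]
    simp [sg, hjk, hk.symm]
  have a2 : MulAut.conj (S.w j s) (S.w j k) = S.w k s := by
    rw [S.cj_ww_neg hn hj hjk, Equiv.swap_apply_left,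
      Equiv.swap_apply_of_ne_of_ne hjk.symm hk]
    simp [sg, hjk.symm]
  have a3 : MulAut.conj (S.w j s) (S.w k s) = S.w k j := by
    rw [S.cj_ww_pos hn hj hk, Equiv.swap_apply_right,
      Equiv.swap_apply_of_ne_of_ne hjk.symm hk]
    simp [sg, hjk.symm, hj.symm]
  have a4 : MulAut.conj (S.w s k) (S.w k j) = S.w s j := by
    rw [S.cj_ww_pos hn hk.symm hjk.symm, Equiv.swap_apply_right,
      Equiv.swap_apply_of_ne_of_ne hj hjk]
    simp [sg, hk, hj]
  have a5 : MulAut.conj (S.w s k) (S.w s j) = S.w j k := by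
    rw [S.cj_ww_neg hn hk.symm hj.symm, Equiv.swap_apply_left,
      Equiv.swap_apply_of_ne_of_ne hj hjk]
    simp [sg, hj]
  have i1 : (S.w k j)⁻¹ = S.w j k := S.w_inv hn hjk.symm
  have i2 : (S.w s k)⁻¹ = S.w k s := S.w_inv hn hk.symm
  have i3 : (S.w k s)⁻¹ = S.w s k := S.w_inv hn hk
  have b1 : S.w k s * S.w k s = S.w k j * S.w k j * (S.w j s * S.w j s) := by
    have : S.w k s * S.w k s = MulAut.conj (S.w k j) (S.w j s * S.w j s) := by
      rw [map_mul, a1]
    rw [this, MulAut.conj_apply, i1, mul_assoc (S.w k j), mul_cj (S.w j s * S.w j s), map_mul,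
      MulAut.mul_apply, a2, a3, mul_assoc]
  have b2 : S.w j s * S.w j s = (S.w j k * S.w j k) * (S.w k s * S.w k s) := by
    rw [b1, ← i1]; group
  rw [b2]
  have b3 : S.w s k * S.w s k * (S.w k j * S.w k j) = S.w j k * S.w j k * (S.w s k * S.w s k) := by
    rw [mul_cj (S.w s k * S.w s k)]
    simp only [map_mul, MulAut.mul_apply]
    rw [a4, a5]
  have b4 := congrArg (fun z => z⁻¹) b3
  simp only [mul_inv_rev, i1, i2, S.w_inv hn hjk] at b4
  exact b4

theorem step_A (hn : 3 ≤ n) {s k l j : Fin n} {A : Finset (Fin n)} (hs : s ∉ A) (hk : k ∈ A)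
    (hl : l ∈ A) (hj : j ∈ A) (hkl : k ≠ l) :
    ∃ j' ∈ A, MulAut.conj (S.w k l) (S.w j s) = S.w j' s ∨
      MulAut.conj (S.w k l) (S.w j s) = S.w s j' := by
  have hks : k ≠ s := fun h => hs (h ▸ hk)
  have hls : l ≠ s := fun h => hs (h ▸ hl)
  have hjs : j ≠ s := fun h => hs (h ▸ hj)
  by_cases hjk : j = k
  · subst hjk
    refine ⟨l, hl, Or.inr ?_⟩
    rw [S.cj_ww_neg hn hkl hjs, Equiv.swap_apply_left, Equiv.swap_apply_of_ne_of_ne hjs.symm hls.symm]
    simp [sg, hjs.symm]
  · by_cases hjl : j = l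
    · subst hjl
      refine ⟨k, hk, Or.inl ?_⟩
      rw [S.cj_ww_pos hn hkl hjs, Equiv.swap_apply_right,
        Equiv.swap_apply_of_ne_of_ne hks.symm hjs.symm]
      simp [sg, hjk, hks.symm]
    · refine ⟨j, hj, Or.inl ?_⟩
      rw [S.cj_ww_pos hn hkl hjs, Equiv.swap_apply_of_ne_of_ne hjk hjl,
        Equiv.swap_apply_of_ne_of_ne hks.symm hls.symm]
      simp [sg, hjk, hks.symm]

theorem TS_A (hn : 3 ≤ n) (hF : SmallF F) {s k l : Fin n} {A : Finset (Fin n)} (hs : s ∉ A)
    (hk : k ∈ A) (hl : l ∈ A) (hkl : k ≠ l) {g : G} (hg : g ∈ S.TS s A) :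
    S.w k l * g ∈ S.TS s A := by
  have hw := S.w_mem_NS hk hl hkl
  rcases hg with hg | ⟨j, hj, h, hh, hg⟩
  · exact Or.inl ((S.NS A).mul_mem hw hg)
  · have hjs : j ≠ s := fun h => hs (h ▸ hj)
    have hwh : S.w k l * h ∈ S.NS A := (S.NS A).mul_mem hw hh
    obtain ⟨j', hj', hc⟩ := S.step_A hn hs hk hl hj hkl
    have hjs' : j' ≠ s := fun h => hs (h ▸ hj')
    have hinv : MulAut.conj (S.w k l) (S.w s j) = (MulAut.conj (S.w k l) (S.w j s))⁻¹ := by
      rw [← map_inv, S.w_inv hn hjs]
    have hsq : S.w s j' * S.w s j' = S.w j' s * S.w j' s := by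
      have := S.w_four hn hF hjs'
      rw [← S.w_inv hn hjs', ← mul_inv_rev, inv_eq_iff_mul_eq_one]
      exact this
    right
    rcases hg with rfl | rfl | rfl
    · rcases hc with hc | hc
      · exact ⟨j', hj', _, hwh, Or.inl (by rw [← mul_assoc, mul_cj (S.w k l) (S.w j s), hc, mul_assoc])⟩
      · exact ⟨j', hj', _, hwh, Or.inr (Or.inl (by rw [← mul_assoc, mul_cj (S.w k l) (S.w j s), hc, mul_assoc]))⟩
    · rcases hc with hc | hc
      · exact ⟨j', hj', _, hwh, Or.inr (Or.inl (by
          rw [← mul_assoc, mul_cj (S.w k l) (S.w s j), hinv, hc, S.w_inv hn hjs', mul_assoc]))⟩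
      · exact ⟨j', hj', _, hwh, Or.inl (by
          rw [← mul_assoc, mul_cj (S.w k l) (S.w s j), hinv, hc, S.w_inv hn hjs'.symm, mul_assoc])⟩
    · refine ⟨j', hj', _, hwh, Or.inr (Or.inr ?_)⟩
      rw [← mul_assoc, mul_cj (S.w k l) (S.w j s * S.w j s), map_mul]
      rcases hc with hc | hc
      · rw [hc, mul_assoc]
      · rw [hc, hsq, mul_assoc]

theorem TS_B (hn : 3 ≤ n) (hF : SmallF F) {s k : Fin n} {A : Finset (Fin n)} (hs : s ∉ A)
    (hk : k ∈ A) {g : G} (hg : g ∈ S.TS s A) :
    S.w k s * g ∈ S.TS s A := by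
  have hks : k ≠ s := fun h => hs (h ▸ hk)
  have h3 : S.w k s * (S.w k s * S.w k s) = S.w s k := by
    have := S.w_four hn hF hks
    rw [← S.w_inv hn hks, eq_inv_iff_mul_eq_one, ← this]
    group
  rcases hg with hg | ⟨j, hj, h, hh, hg⟩
  · exact Or.inr ⟨k, hk, g, hg, Or.inl rfl⟩
  · have hjs : j ≠ s := fun h => hs (h ▸ hj)
    by_cases hjk : j = k
    · subst hjk
      rcases hg with rfl | rfl | rfl
      · exact Or.inr ⟨j, hj, h, hh, Or.inr (Or.inr (by rw [mul_assoc]))⟩
      · left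
        rw [← mul_assoc, ← S.w_inv hn hjs, mul_inv_cancel, one_mul]
        exact hh
      · exact Or.inr ⟨j, hj, h, hh, Or.inr (Or.inl (by rw [← mul_assoc, h3]))⟩
    · rcases hg with rfl | rfl | rfl
      · -- `w k s * w j s = w j s * (w j k)`
        have e : MulAut.conj (S.w s j) (S.w k s) = S.w j k := by
          rw [S.cj_ww_neg hn hjs.symm hks, Equiv.swap_apply_left,
            Equiv.swap_apply_of_ne_of_ne hks (Ne.symm hjk)]
          simp [sg, hks]
        have e2 : S.w k s * S.w j s = S.w j s * S.w j k := by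
          have := mul_cj (S.w s j) (S.w k s)
          rw [e] at this
          rw [← S.w_inv hn hjs] at this
          rw [← inv_mul_eq_iff_eq_mul, ← mul_assoc, this]
          group
        refine Or.inr ⟨j, hj, S.w j k * h, (S.NS A).mul_mem (S.w_mem_NS hj hk hjk) hh, Or.inl ?_⟩
        rw [← mul_assoc, e2, mul_assoc]
      · have e : MulAut.conj (S.w j s) (S.w k s) = S.w k j := by
          rw [S.cj_ww_pos hn hjs hks, Equiv.swap_apply_right,
            Equiv.swap_apply_of_ne_of_ne (Ne.symm hjk) hks]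
          simp [sg, Ne.symm hjk, hjs.symm]
        have e2 : S.w k s * S.w s j = S.w s j * S.w k j := by
          have := mul_cj (S.w j s) (S.w k s)
          rw [e] at this
          rw [← S.w_inv hn hjs, ← inv_mul_eq_iff_eq_mul, inv_inv, ← mul_assoc, this]
          group
        refine Or.inr ⟨j, hj, S.w k j * h,
          (S.NS A).mul_mem (S.w_mem_NS hk hj (Ne.symm hjk)) hh, Or.inr (Or.inl ?_)⟩
        rw [← mul_assoc, e2, mul_assoc]
      · have e := S.sq_rel hn hjs hks hjk
        have hm := S.w_mem_NS hk hj (Ne.symm hjk)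
        refine Or.inr ⟨k, hk, S.w k j * S.w k j * h,
          (S.NS A).mul_mem ((S.NS A).mul_mem hm hm) hh, Or.inr (Or.inl ?_)⟩
        rw [e, ← h3]
        simp only [mul_assoc]

theorem TS_all (hn : 3 ≤ n) (hF : SmallF F) {s : Fin n} {A : Finset (Fin n)} (hs : s ∉ A)
    {g : G} (hg : g ∈ S.NS (insert s A)) : g ∈ S.TS s A := by
  have key : ∀ k ∈ insert s A, ∀ l ∈ insert s A, k ≠ l → ∀ y ∈ S.TS s A,
      S.w k l * y ∈ S.TS s A := by
    intro k hk l hl hkl y hy
    rcases Finset.mem_insert.mp hk with rfl | hkA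
    · have hl : l ∈ A := by
        rcases Finset.mem_insert.mp hl with rfl | hl
        · exact absurd rfl hkl
        · exact hl
      have h3 : S.w k l = S.w l k * (S.w l k * S.w l k) := by
        have := S.w_four hn hF hkl.symm
        rw [← S.w_inv hn hkl.symm, inv_eq_iff_mul_eq_one, ← this]
        group
      rw [h3, mul_assoc, mul_assoc]
      exact S.TS_B hn hF hs hl (S.TS_B hn hF hs hl (S.TS_B hn hF hs hl hy))
    · rcases Finset.mem_insert.mp hl with hls | hlA
      · rw [hls]; exact S.TS_B hn hF hs hkA hy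
      · exact S.TS_A hn hF hs hkA hlA hkl hy
  unfold NS at hg
  induction hg using Subgroup.closure_induction_left with
  | one => exact Or.inl (S.NS A).one_mem
  | mul_left x hx y _ hy =>
    obtain ⟨k, hk, l, hl, hkl, rfl⟩ := hx
    exact key k hk l hl hkl y hy
  | inv_mul_cancel x hx y _ hy =>
    obtain ⟨k, hk, l, hl, hkl, rfl⟩ := hx
    rw [S.w_inv hn hkl]
    exact key l hl k hk hkl.symm y hy

/-! ### The representation -/

/-- the action of the root elements -/
def IsRep (ρ : G →* Module.End F (Fin n → F)) : Prop :=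
  ∀ i j : Fin n, i ≠ j → ∀ (a : F) (v : Fin n → F), ρ (S.x i j a) v = v + Pi.single i (a * v j)

variable {S} {ρ : G →* Module.End F (Fin n → F)}

theorem IsRep.w_apply (hρ : S.IsRep ρ) {i j : Fin n} (h : i ≠ j) (v : Fin n → F) :
    ρ (S.w i j) v = fun k => if k = i then v j else if k = j then - v i else v k := by
  rw [S.w_def, map_mul, map_mul, Module.End.mul_apply, Module.End.mul_apply,
    hρ i j h, hρ j i h.symm, hρ i j h]
  funext k
  by_cases hki : k = i
  · subst hki; simp [h, h.symm]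
  · by_cases hkj : k = j
    · subst hkj; simp [h, h.symm]
    · simp [h, h.symm, hki, hkj]

theorem IsRep.fix (hρ : S.IsRep ρ) {s : Fin n} {A : Finset (Fin n)} (hs : s ∉ A) {g : G}
    (hg : g ∈ S.NS A) : ρ g (Pi.single s 1) = Pi.single s 1 := by
  unfold NS at hg
  have key : ∀ i ∈ A, ∀ j ∈ A, i ≠ j → ρ (S.w i j) (Pi.single s 1) = Pi.single s 1 := by
    intro i hi j hj h
    have his : i ≠ s := fun h => hs (h ▸ hi)
    have hjs : j ≠ s := fun h => hs (h ▸ hj)
    rw [hρ.w_apply h]
    funext k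
    by_cases hki : k = i
    · subst hki; simp [his, hjs]
    · by_cases hkj : k = j
      · subst hkj; simp [his, hjs]
      · simp [hki, hkj]
  induction hg using Subgroup.closure_induction with
  | mem x hx =>
    obtain ⟨i, hi, j, hj, h, rfl⟩ := hx
    exact key i hi j hj h
  | one => rw [map_one]; rfl
  | mul x y _ _ hx hy => rw [map_mul, Module.End.mul_apply, hy, hx]
  | inv x _ hx =>
    have : ρ x⁻¹ (ρ x (Pi.single s 1)) = Pi.single s 1 := by
      rw [← Module.End.mul_apply, ← map_mul, inv_mul_cancel, map_one]; rfl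
    rw [hx] at this
    exact this

theorem IsRep.descend (hn : 3 ≤ n) (hF : SmallF F) (hρ : S.IsRep ρ) {s : Fin n}
    {A : Finset (Fin n)} (hs : s ∉ A) {g : G} (hg : g ∈ S.NS (insert s A))
    (h1 : ρ g (Pi.single s 1) = Pi.single s 1) : g ∈ S.NS A := by
  rcases S.TS_all hn hF hs hg with h | ⟨j, hj, h, hh, hc⟩
  · exact h
  · have hjs : j ≠ s := fun h => hs (h ▸ hj)
    have hfix := hρ.fix hs hh
    rcases hc with rfl | rfl | rfl
    · exfalso
      rw [map_mul, Module.End.mul_apply, hfix, hρ.w_apply hjs] at h1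
      have := congrFun h1 s
      simp [hjs.symm] at this
    · exfalso
      rw [map_mul, Module.End.mul_apply, hfix, hρ.w_apply hjs.symm] at h1
      have := congrFun h1 s
      simp [hjs, hjs.symm] at this
    · rw [map_mul, Module.End.mul_apply, hfix, map_mul, Module.End.mul_apply, hρ.w_apply hjs,
        hρ.w_apply hjs] at h1
      have := congrFun h1 s
      simp [hjs, hjs.symm] at this
      rw [S.w_two hn this hjs, one_mul]
      exact hh

theorem IsRep.inj_NS (hn : 3 ≤ n) (hF : SmallF F) (hρ : S.IsRep ρ) (A : Finset (Fin n)) :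
    ∀ g ∈ S.NS A, ρ g = 1 → g = 1 := by
  induction A using Finset.induction_on with
  | empty =>
    intro g hg _
    have : S.NS ∅ = ⊥ := by
      unfold NS
      rw [Subgroup.closure_eq_bot_iff]
      rintro x ⟨i, hi, _⟩
      simp at hi
    rw [this] at hg
    simpa using hg
  | insert s A hs ih =>
    intro g hg h1
    refine ih g (hρ.descend hn hF hs hg ?_) h1
    rw [h1]; rfl

end Stein

end Pool.Agent.CSP3
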