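import Pool.Agent.CSP3.Base
import Pool.Agent.CSP3.ExpHom
import Pool.Agent.CSP3.SteinN
import Pool.Agent.CSP3.Cubes

/-!
# Relations in the quotients of `Aut F_n` in which the transvections have order three

`q : A n →* Q` is any homomorphism which kills the cubes of the transvections `R i (x j)`.
-/

set_option autoImplicit false

namespace Pool.Agent.CSP3

open scoped commutatorElement

variable {n : ℕ}

/-! ### automorphisms of the free group on the generators different from `x_i` -/

/-- the inclusion of the free group on the generators different from `x_i` -/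
def inc (i : Fin n) : FreeGroup {j : Fin n // j ≠ i} →* F n :=
  FreeGroup.lift (fun j => FreeGroup.of j.1)

/-- the projection to the free group on the generators different from `x_i` -/
def prj (i : Fin n) : F n →* FreeGroup {j : Fin n // j ≠ i} :=
  FreeGroup.lift (fun j => if h : j = i then 1 else FreeGroup.of ⟨j, h⟩)

theorem inc_of (i : Fin n) (j : {j : Fin n // j ≠ i}) : inc i (FreeGroup.of j) = x j.1 := by
  simp [inc]

theorem prj_self (i : Fin n) : prj i (x i) = 1 := by simp [prj]

theorem prj_ne {i j : Fin n} (h : j ≠ i) : prj i (x j) = FreeGroup.of ⟨j, h⟩ := by simp [prj, h]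

theorem inc_prj (i : Fin n) (w : F n) : inc i (prj i w) = kill i w := by
  have : (inc i).comp (prj i) = kill i := by
    refine FreeGroup.ext_hom _ _ fun k => ?_
    show inc i (prj i (x k)) = kill i (x k)
    by_cases hk : k = i
    · subst hk; rw [prj_self, kill_self, map_one]
    · rw [prj_ne hk, inc_of, kill_ne hk]
  exact DFunLike.congr_fun this w

theorem inc_mem_O (i : Fin n) (v : FreeGroup {j : Fin n // j ≠ i}) : inc i v ∈ O i := by
  have : (kill i).comp (inc i) = inc i := by
    refine FreeGroup.ext_hom _ _ fun k => ?_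
    show kill i (inc i (FreeGroup.of k)) = inc i (FreeGroup.of k)
    rw [inc_of, kill_ne k.2]
  exact DFunLike.congr_fun this v

/-- extension of an endomorphism by the identity on `x_i` -/
def plusH (i : Fin n) (φ : FreeGroup {j : Fin n // j ≠ i} →* FreeGroup {j : Fin n // j ≠ i}) :
    F n →* F n :=
  FreeGroup.lift (fun j => if h : j = i then FreeGroup.of i else inc i (φ (FreeGroup.of ⟨j, h⟩)))

theorem plusH_self (i : Fin n)
    (φ : FreeGroup {j : Fin n // j ≠ i} →* FreeGroup {j : Fin n // j ≠ i}) :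
    plusH i φ (x i) = x i := by simp [plusH]

theorem plusH_ne {i j : Fin n} (h : j ≠ i)
    (φ : FreeGroup {j : Fin n // j ≠ i} →* FreeGroup {j : Fin n // j ≠ i}) :
    plusH i φ (x j) = inc i (φ (FreeGroup.of ⟨j, h⟩)) := by simp [plusH, h]

theorem plusH_inc (i : Fin n)
    (φ : FreeGroup {j : Fin n // j ≠ i} →* FreeGroup {j : Fin n // j ≠ i})
    (v : FreeGroup {j : Fin n // j ≠ i}) : plusH i φ (inc i v) = inc i (φ v) := by
  have : (plusH i φ).comp (inc i) = (inc i).comp φ := by
    refine FreeGroup.ext_hom _ _ fun k => ?_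
    show plusH i φ (inc i (FreeGroup.of k)) = inc i (φ (FreeGroup.of k))
    rw [inc_of, plusH_ne k.2]
  exact DFunLike.congr_fun this v

theorem plusH_comp (i : Fin n)
    {φ ψ : FreeGroup {j : Fin n // j ≠ i} →* FreeGroup {j : Fin n // j ≠ i}}
    (h : ∀ v, φ (ψ v) = v) (w : F n) : plusH i φ (plusH i ψ w) = w := by
  have : (plusH i φ).comp (plusH i ψ) = MonoidHom.id _ := by
    refine FreeGroup.ext_hom _ _ fun k => ?_
    show plusH i φ (plusH i ψ (x k)) = x k
    by_cases hk : k = i
    · subst hk; rw [plusH_self, plusH_self]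
    · rw [plusH_ne hk, plusH_inc, h, inc_of]
  exact DFunLike.congr_fun this w

/-- extension of an automorphism by the identity on `x_i` -/
def plus (i : Fin n) (φ : FreeGroup {j : Fin n // j ≠ i} ≃* FreeGroup {j : Fin n // j ≠ i}) :
    A n where
  toFun := plusH i φ.toMonoidHom
  invFun := plusH i φ.symm.toMonoidHom
  left_inv := plusH_comp i (fun v => φ.symm_apply_apply v)
  right_inv := plusH_comp i (fun v => φ.apply_symm_apply v)
  map_mul' := map_mul _

theorem plus_conj (i : Fin n) (φ : FreeGroup {j : Fin n // j ≠ i} ≃* FreeGroup {j : Fin n // j ≠ i})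
    (v : FreeGroup {j : Fin n // j ≠ i}) :
    plus i φ * R i (inc i v) * (plus i φ)⁻¹ = R i (inc i (φ v)) := by
  have h1 : plus i φ (x i) = x i := plusH_self i _
  have h2 : ∀ j ≠ i, plus i φ (x j) ∈ O i := by
    intro j hj
    have : plus i φ (x j) = inc i (φ (FreeGroup.of ⟨j, hj⟩)) := plusH_ne hj _
    rw [this]
    exact inc_mem_O i _
  have := conj_tv_of h1 h2 1 (inc i v)
  rw [map_one, show plus i φ (inc i v) = inc i (φ v) from plusH_inc i _ v] at this
  exact this

section

variable {Q : Type*} [Group Q] (q : A n →* Q)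

theorem qR_cube (hT : ∀ i j : Fin n, i ≠ j → q (R i (x j)) ^ 3 = 1) (i : Fin n) (w : F n) :
    q (R i w) ^ 3 = 1 := by
  have key := cube_of_primitive ((q.comp (R i)).comp (inc i)) (by
    intro φ j
    show q (R i (inc i (φ (FreeGroup.of j)))) ^ 3 = 1
    rw [← plus_conj, inc_of, map_mul, map_mul, map_inv, conj_pow, hT i j.1 j.2.symm, mul_one,
      mul_inv_cancel]) (prj i w)
  rw [← R_kill, ← inc_prj]
  exact key

theorem qL_cube (hT : ∀ i j : Fin n, i ≠ j → q (R i (x j)) ^ 3 = 1) (i : Fin n) (w : F n) :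
    q (L i w) ^ 3 = 1 := by
  rw [← sg_conj_R_same, map_mul, map_mul, map_inv, conj_pow, qR_cube q hT, mul_one,
    mul_inv_cancel]

theorem qC_cube (hT : ∀ i j : Fin n, i ≠ j → q (R i (x j)) ^ 3 = 1) (i : Fin n) (w : F n) :
    q (C i w) ^ 3 = 1 := by
  have h : Commute (q (L i w)) (q (R i w)) := by
    show q (L i w) * q (R i w) = q (R i w) * q (L i w)
    rw [← map_mul, LR_comm, map_mul]
  rw [C_eq, map_mul, h.mul_pow, qL_cube q hT, qR_cube q hT, mul_one]

theorem L_apply_self (i : Fin n) (v : F n) : L i v (x i) = (kill i v)⁻¹ * x i := by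
  rw [L_def, tv_self, map_one, mul_one]

theorem L_apply_ne {i j : Fin n} (h : j ≠ i) (v : F n) : L i v (x j) = x j := tv_ne h _ _

theorem Linv_apply_self (i : Fin n) (v : F n) : (L i v)⁻¹ (x i) = kill i v * x i := by
  rw [← map_inv, L_apply_self, map_inv, inv_inv]

theorem Linv_apply_ne {i j : Fin n} (h : j ≠ i) (v : F n) : (L i v)⁻¹ (x j) = x j := by
  rw [← map_inv, L_apply_ne h]

theorem Rinv_apply_self (i : Fin n) (v : F n) : (R i v)⁻¹ (x i) = x i * (kill i v)⁻¹ := by
  rw [← map_inv, R_apply_self, map_inv]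

theorem Rinv_apply_ne {i j : Fin n} (h : j ≠ i) (v : F n) : (R i v)⁻¹ (x j) = x j := by
  rw [← map_inv, R_apply_ne h]

theorem Cinv_apply_self (i : Fin n) (v : F n) :
    (C i v)⁻¹ (x i) = kill i v * x i * (kill i v)⁻¹ := by
  rw [← map_inv, C_apply_self, map_inv, inv_inv]

theorem Cinv_apply_ne {i j : Fin n} (h : j ≠ i) (v : F n) : (C i v)⁻¹ (x j) = x j := by
  rw [← map_inv, C_apply_ne h]

/-- the braid relation -/
theorem LL_braid {i j : Fin n} (h : i ≠ j) :
    (L i (x j))⁻¹ * L j (x i) * (L i (x j))⁻¹ = L j (x i) * (L i (x j))⁻¹ * L j (x i) := by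
  refine A_ext fun k => ?_
  simp only [MulAut.mul_apply]
  by_cases hki : k = i
  · subst hki
    simp only [L_apply_self, L_apply_ne h, L_apply_ne h.symm, Linv_apply_self, Linv_apply_ne h,
      Linv_apply_ne h.symm, map_mul, map_inv, kill_ne h, kill_ne h.symm]
    group
  · by_cases hkj : k = j
    · subst hkj
      simp only [L_apply_self, L_apply_ne h, L_apply_ne h.symm, Linv_apply_self, Linv_apply_ne h,
        Linv_apply_ne h.symm, map_mul, map_inv, kill_ne h, kill_ne h.symm]
      group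
    · simp only [L_apply_ne hki, L_apply_ne hkj, Linv_apply_ne hki]

/-- the centre of the braid group on three strands -/
theorem LL_four {i j : Fin n} (h : i ≠ j) :
    ⁅C i (x j), C j (x i)⁆ *
      (((L i (x j))⁻¹ * L j (x i) * (L i (x j))⁻¹) * ((L i (x j))⁻¹ * L j (x i) * (L i (x j))⁻¹) *
      (((L i (x j))⁻¹ * L j (x i) * (L i (x j))⁻¹) * ((L i (x j))⁻¹ * L j (x i) * (L i (x j))⁻¹))) =
      1 := by
  rw [commutatorElement_def]
  set D : A n := (L i (x j))⁻¹ * L j (x i) * (L i (x j))⁻¹ with hD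
  have di : D (x i) = (x i)⁻¹ * x j * x i := by
    rw [hD]
    simp only [MulAut.mul_apply, L_apply_self, L_apply_ne h, Linv_apply_self,
      Linv_apply_ne h.symm, map_mul, map_inv, kill_ne h, kill_ne h.symm]
    group
  have dj : D (x j) = (x i)⁻¹ := by
    rw [hD]
    simp only [MulAut.mul_apply, L_apply_self, Linv_apply_self,
      Linv_apply_ne h.symm, map_mul, map_inv, kill_ne h, kill_ne h.symm]
    group
  have dk : ∀ k, k ≠ i → k ≠ j → D (x k) = x k := by
    intro k hki hkj
    rw [hD]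
    simp only [MulAut.mul_apply, Linv_apply_ne hki, L_apply_ne hkj]
  clear_value D
  have ddi : (D * D) (x i) = (x i)⁻¹ * (x j)⁻¹ * (x i)⁻¹ * x j * x i := by
    simp only [MulAut.mul_apply, di, dj, map_mul, map_inv]
    group
  have ddj : (D * D) (x j) = (x i)⁻¹ * (x j)⁻¹ * x i := by
    simp only [MulAut.mul_apply, di, dj, map_inv]
    group
  have ddk : ∀ k, k ≠ i → k ≠ j → (D * D) (x k) = x k := by
    intro k hki hkj
    simp only [MulAut.mul_apply, dk k hki hkj]
  generalize D * D = E at ddi ddj ddk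
  refine A_ext fun k => ?_
  simp only [MulAut.mul_apply, MulAut.one_apply]
  by_cases hki : k = i
  · subst hki
    simp only [ddi, ddj, map_mul, map_inv, C_apply_self, C_apply_ne h, C_apply_ne h.symm,
      Cinv_apply_self, Cinv_apply_ne h, Cinv_apply_ne h.symm, kill_ne h, kill_ne h.symm]
    group
  · by_cases hkj : k = j
    · subst hkj
      simp only [ddi, ddj, map_mul, map_inv, C_apply_self, C_apply_ne h, C_apply_ne h.symm,
        Cinv_apply_self, Cinv_apply_ne h, Cinv_apply_ne h.symm, kill_ne h, kill_ne h.symm]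
      group
    · simp only [ddk k hki hkj, C_apply_ne hki, C_apply_ne hkj, Cinv_apply_ne hki,
        Cinv_apply_ne hkj]

theorem qbase (hT : ∀ i j : Fin n, i ≠ j → q (R i (x j)) ^ 3 = 1) {i j : Fin n} (h : i ≠ j) :
    Commute (q (C i (x j))) (q (C j (x i))) := by
  have h1 := congrArg q (LL_four h)
  have h2 := congrArg q (LL_braid h)
  simp only [map_mul, map_inv, map_one, map_commutatorElement] at h1 h2
  have h3 : (q (L i (x j)))⁻¹ * (q (L i (x j)))⁻¹ * (q (L i (x j)))⁻¹ = 1 := by
    have := qL_cube q hT i (x j)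
    rw [pow_succ, pow_two] at this
    calc _ = (q (L i (x j)) * q (L i (x j)) * q (L i (x j)))⁻¹ := by group
      _ = 1 := by rw [this, inv_one]
  rw [braid_four h2 h3, mul_one] at h1
  exact commutatorElement_eq_one_iff_commute.mp h1

theorem qloop (hT : ∀ i j : Fin n, i ≠ j → q (R i (x j)) ^ 3 = 1) {i l b : Fin n} (h1 : i ≠ l)
    (h2 : b ≠ i) (h3 : b ≠ l) :
    q (R l ⁅(x i)⁻¹, x b⁆) * q (C i (x l)) * (q (R l ⁅(x i)⁻¹, x b⁆))⁻¹ =
      q (C i (x l)) * q (C l ⁅(x i)⁻¹, (x b)⁻¹⁆) := by
  have hb : Commute (q (C i (x l))) (q (C l (x i))) := qbase q hT h1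
  have e1 : q (R l (x b)) * q (C l (x i)) * (q (R l (x b)))⁻¹ =
      q (C l (x i)) * q (R l ⁅(x i)⁻¹, x b⁆) := by
    have := congrArg q (R_conj_C_same l (x b) (x i))
    simpa only [map_mul, map_inv] using this
  have e2 : q (R l (x b)) * q (C i (x l)) * (q (R l (x b)))⁻¹ =
      q (C i (x l)) * q (C i (x b)) := by
    have := congrArg q (R_conj_C (i := i) (j := l) h1 (x_mem_O h2) (x l))
    rw [R_apply_self, kill_ne h3] at this
    simpa only [map_mul, map_inv] using this
  have e3 : q (C i (x b)) * q (C l (x i)) * (q (C i (x b)))⁻¹ =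
      q (C l (x i)) * q (C l ⁅(x i)⁻¹, (x b)⁻¹⁆) := by
    have := congrArg q (C_conj_C (i := l) (j := i) h1.symm (x_mem_O h3) (x i))
    rw [C_apply_self, kill_ne h2,
      show (x b)⁻¹ * x i * x b = x i * ⁅(x i)⁻¹, (x b)⁻¹⁆ by rw [commutatorElement_def]; group]
      at this
    simpa only [map_mul, map_inv] using this
  have e4 : q (C i (x b)) * q (R l ⁅(x i)⁻¹, x b⁆) * (q (C i (x b)))⁻¹ =
      q (R l ⁅(x i)⁻¹, x b⁆) := by
    have hh : C i (x b) ⁅(x i)⁻¹, x b⁆ = (x b)⁻¹ * ⁅(x i)⁻¹, x b⁆ * x b := by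
      rw [map_commutatorElement, map_inv, C_apply_self, kill_ne h2, C_apply_ne h2,
        commutatorElement_def, commutatorElement_def]
      group
    have := congrArg q (C_conj_R (i := l) (j := i) h1.symm (x_mem_O h3) ⁅(x i)⁻¹, x b⁆)
    rw [hh] at this
    have h5 : q (C i (x b)) * q (R l ⁅(x i)⁻¹, x b⁆) * (q (C i (x b)))⁻¹ =
        (q (R l (x b)))⁻¹ * q (R l ⁅(x i)⁻¹, x b⁆) * q (R l (x b)) := by
      calc _ = q (C i (x b) * R l ⁅(x i)⁻¹, x b⁆ * (C i (x b))⁻¹) := by
            rw [map_mul q, map_mul q, map_inv q]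
        _ = q ((R l (x b))⁻¹ * R l ⁅(x i)⁻¹, x b⁆ * R l (x b)) := by
            rw [this, ← map_inv (R l), ← map_mul (R l), ← map_mul (R l)]
        _ = _ := by rw [map_mul q, map_mul q, map_inv q]
    rw [h5]
    have hc : Commute (q (R l ⁅(x i)⁻¹, x b⁆)) (q (R l (x b))) :=
      he_comm_right (q.comp (R l)) (fun w => qR_cube q hT l w) (x i)⁻¹ (x b)
    rw [mul_assoc, hc.eq, ← mul_assoc, inv_mul_cancel, one_mul]
  -- `a b'` commutes with `c m`
  have e5 : (q (C i (x l)) * q (C i (x b))) * (q (C l (x i)) * q (R l ⁅(x i)⁻¹, x b⁆)) =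
      (q (C l (x i)) * q (R l ⁅(x i)⁻¹, x b⁆)) * (q (C i (x l)) * q (C i (x b))) := by
    rw [← e1, ← e2]
    have := hb.eq
    calc _ = q (R l (x b)) * (q (C i (x l)) * q (C l (x i))) * (q (R l (x b)))⁻¹ := by group
      _ = q (R l (x b)) * (q (C l (x i)) * q (C i (x l))) * (q (R l (x b)))⁻¹ := by rw [this]
      _ = _ := by group
  generalize q (C i (x l)) = a at *
  generalize q (C i (x b)) = b' at *
  generalize q (C l (x i)) = c at *
  generalize q (R l ⁅(x i)⁻¹, x b⁆) = m at *
  generalize q (C l ⁅(x i)⁻¹, (x b)⁻¹⁆) = δ at *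
  -- `a b' c m = a (c δ) b' m = a c δ m b'`, so `c a δ m = c m a`
  have f1 : b' * c = c * δ * b' := by rw [← e3]; group
  have f2 : b' * m = m * b' := by
    conv_rhs => rw [← e4]
    group
  have f3 : a * (b' * c) * m = c * m * a * b' := by
    calc _ = a * b' * (c * m) := by group
      _ = _ := by rw [e5]; group
  rw [f1] at f3
  have f4 : a * c * δ * m * b' = c * m * a * b' := by
    calc a * c * δ * m * b' = a * (c * δ * (m * b')) := by group
      _ = a * (c * δ * (b' * m)) := by rw [f2]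
      _ = a * (c * δ * b') * m := by group
      _ = _ := f3
  have f5 : a * c * δ * m = c * m * a := mul_right_cancel f4
  rw [hb.eq] at f5
  have f6 : a * δ * m = m * a := by
    have : c * (a * δ * m) = c * (m * a) := by
      calc _ = c * a * δ * m := by group
        _ = _ := by rw [f5]; group
    exact mul_left_cancel this
  rw [mul_inv_eq_iff_eq_mul, ← f6]

end

end Pool.Agent.CSP3
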