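import Pool.Agent.CSP3.Fox
import Pool.Agent.CSP3.Rel
import Pool.Agent.CSP3.Lev2

/-!
# Detection of the generators (MODULES DET1, DET2, DET3)

`lam1`, `lam2`, `lam3` are functions on automorphisms, additive on `A1 ≥ A2`, which detect the
generators of `J1` modulo `J2`, of `J2` modulo `J3`, of `J3`, and vanish on the normal closure of the
cubes of the transvections. -/

set_option autoImplicit false

namespace Pool.Agent.CSP3

open scoped commutatorElement

variable {n : ℕ}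

/-- automorphisms trivial modulo `D_k` -/
def AA (p n k : ℕ) : Subgroup (A n) where
  carrier := {α | ∀ w : F n, α w * w⁻¹ ∈ DD p n k}
  one_mem' := fun w => by simp
  mul_mem' := by
    intro a b ha hb w
    have : (a * b) w * w⁻¹ = a (b w * w⁻¹) * (a w * w⁻¹) := by
      rw [map_mul, map_inv]; simp [MulAut.mul_apply]
    rw [this]
    exact (DD p n k).mul_mem (map_mem_DD a.toMonoidHom (hb w)) (ha w)
  inv_mem' := by
    intro a ha w
    have : a⁻¹ w * w⁻¹ = a⁻¹ ((a w * w⁻¹)⁻¹) := by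
      simp
    rw [this]
    exact map_mem_DD (a⁻¹).toMonoidHom ((DD p n k).inv_mem (ha w))

theorem mem_AA {p k : ℕ} {α : A n} : α ∈ AA p n k ↔ ∀ w : F n, α w * w⁻¹ ∈ DD p n k := Iff.rfl

instance AA_normal (p k : ℕ) : (AA p n k).Normal where
  conj_mem := by
    intro a ha b w
    have : (b * a * b⁻¹) w * w⁻¹ = b (a (b⁻¹ w) * (b⁻¹ w)⁻¹) := by
      simp [MulAut.mul_apply]
    rw [this]
    exact map_mem_DD b.toMonoidHom (ha _)

theorem AA_anti {p k l : ℕ} (h : k ≤ l) : AA p n l ≤ AA p n k :=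
  fun _ hg w => DD_anti h (hg w)

theorem mem_AA_of_gen {p k : ℕ} {α : A n} (h : ∀ i, α (x i) * (x i)⁻¹ ∈ DD p n k) :
    α ∈ AA p n k := by
  intro w
  have hN : (DD p n k).Normal := inferInstance
  induction w using FreeGroup.induction_on with
  | C1 => simp
  | of i => exact h i
  | inv_of i ih =>
    have : α (x i)⁻¹ * ((x i)⁻¹)⁻¹ = (x i)⁻¹ * (α (x i) * (x i)⁻¹)⁻¹ * ((x i)⁻¹)⁻¹ := by
      rw [map_inv]; group
    exact this ▸ hN.conj_mem _ ((DD p n k).inv_mem (h i)) _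
  | mul u v hu hv =>
    have : α (u * v) * (u * v)⁻¹ = (α u * u⁻¹) * (u * (α v * v⁻¹) * u⁻¹) := by
      rw [map_mul]; group
    rw [this]
    exact (DD p n k).mul_mem hu (hN.conj_mem _ hv _)

/-- additivity in lowest degree -/
theorem mu_mul_low {p k : ℕ} {g : F n} (hg : g ∈ DD p n k) (h : F n) {w : List (Fin n)}
    (hw : w.length = k) (hk : k ≠ 0) : mu p w (g * h) = mu p w g + mu p w h := by
  obtain ⟨m, rfl⟩ := Nat.exists_eq_succ_of_ne_zero hk
  rw [mu_mul, hw, Finset.sum_range_succ, Finset.sum_range_succ']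
  have h0 : ∑ t ∈ Finset.range m, mu p (w.take (t + 1)) g * mu p (w.drop (t + 1)) h = 0 := by
    refine Finset.sum_eq_zero fun t ht => ?_
    rw [Finset.mem_range] at ht
    rw [hg (w.take (t + 1)) (by
      intro h
      have h2 := congrArg List.length h
      rw [List.length_take, List.length_nil] at h2
      omega)
      (by rw [List.length_take]; omega), zero_mul]
  rw [h0, zero_add, List.take_zero, List.drop_zero, mu_nil, one_mul]
  have h1 : w.take (m + 1) = w := List.take_of_length_le (by omega)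
  have h2 : w.drop (m + 1) = [] := List.drop_of_length_le (by omega)
  rw [h1, h2, mu_nil, mul_one, add_comm]

theorem mu_inv_low {p k : ℕ} {g : F n} (hg : g ∈ DD p n k) {w : List (Fin n)}
    (hw : w.length = k) (hk : k ≠ 0) : mu p w g⁻¹ = - mu p w g := by
  have h := mu_mul_low hg g⁻¹ hw hk
  rw [mul_inv_cancel, mu_one (by rintro rfl; exact hk (by simpa using hw.symm))] at h
  exact (neg_eq_of_add_eq_zero_right h.symm).symm

theorem mem_DD_one (p : ℕ) (g : F n) : g ∈ DD p n 1 := by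
  intro w hw hl
  exact absurd (List.length_eq_zero_iff.mp (by omega)) hw

theorem mu_conj_low {p k : ℕ} {g : F n} (hg : g ∈ DD p n k) (u : F n) {w : List (Fin n)}
    (hw : w.length = k) (hk : k ≠ 0) : mu p w (u * g * u⁻¹) = mu p w g := by
  have hc : ⁅u, g⁆ ∈ DD p n (k + 1) := by
    have := comm_mem_DD (mem_DD_one p u) hg
    rwa [add_comm] at this
  have : u * g * u⁻¹ = ⁅u, g⁆ * g := by
    rw [commutatorElement_def]; group
  rw [this, mu_mul_low (DD_anti (Nat.le_succ k) hc) g hw hk,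
    hc w (by rintro rfl; exact hk (by simpa using hw.symm)) (by omega), zero_add]

theorem AA_map_id {p : ℕ} {a : A n} (ha : a ∈ AA p n 2) {k : ℕ} (hk : k ≠ 0)
    {g : F n} (hg : g ∈ DD p n k) {w : List (Fin n)} (hw : w.length = k) :
    mu p w (a g) = mu p w g :=
  mu_map_id a.toMonoidHom (fun i => ha (x i)) hk hg w hw

/-- additivity of the lowest degree part of `α w * w⁻¹` in `α` -/
theorem AA_add {p k : ℕ} (hk : 2 ≤ k) {a b : A n} (ha : a ∈ AA p n k) (hb : b ∈ AA p n k)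
    (v : F n) {w : List (Fin n)} (hw : w.length = k) :
    mu p w ((a * b) v * v⁻¹) = mu p w (a v * v⁻¹) + mu p w (b v * v⁻¹) := by
  have h1 : (a * b) v * v⁻¹ = a (b v * v⁻¹) * (a v * v⁻¹) := by
    rw [map_mul, map_inv]; simp [MulAut.mul_apply]
  have hk0 : k ≠ 0 := by omega
  have h3 : a (b v * v⁻¹) ∈ DD p n k := map_mem_DD a.toMonoidHom (hb v)
  rw [h1, mu_mul_low h3 _ hw hk0, AA_map_id (AA_anti hk ha) hk0 (hb v) hw, add_comm]

/-- additivity of the lowest degree part of `α w * w⁻¹` in `w` -/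
theorem AA_add_right {p k : ℕ} (hk : k ≠ 0) {a : A n} (ha : a ∈ AA p n k)
    (u v : F n) {w : List (Fin n)} (hw : w.length = k) :
    mu p w (a (u * v) * (u * v)⁻¹) = mu p w (a u * u⁻¹) + mu p w (a v * v⁻¹) := by
  have h1 : a (u * v) * (u * v)⁻¹ = (a u * u⁻¹) * (u * (a v * v⁻¹) * u⁻¹) := by
    rw [map_mul]; group
  rw [h1, mu_mul_low (ha u) _ hw hk, mu_conj_low (ha v) u hw hk]

theorem AA_inv_right {p k : ℕ} (hk : k ≠ 0) {a : A n} (ha : a ∈ AA p n k)
    (u : F n) {w : List (Fin n)} (hw : w.length = k) :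
    mu p w (a u⁻¹ * (u⁻¹)⁻¹) = - mu p w (a u * u⁻¹) := by
  have h := AA_add_right hk ha u u⁻¹ hw
  rw [mul_inv_cancel, map_one, inv_one, mul_one,
    mu_one (by rintro rfl; exact hk (by simpa using hw.symm))] at h
  exact (neg_eq_of_add_eq_zero_right h.symm).symm

/-- the normal closure of the cubes of the transvections -/
def N0 (n : ℕ) : Subgroup (A n) :=
  Subgroup.normalClosure {g | ∃ i j : Fin n, i ≠ j ∧ g = R i (x j) ^ 3}

/-! ### degree one -/

noncomputable def lam1 (i j k : Fin n) (α : A n) : ZMod 3 := mu 3 [j, k] (α (x i) * (x i)⁻¹)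

theorem lam1_add (i j k : Fin n) {a b : A n} (ha : a ∈ AA 3 n 2) (hb : b ∈ AA 3 n 2) :
    lam1 i j k (a * b) = lam1 i j k a + lam1 i j k b :=
  AA_add le_rfl ha hb (x i) rfl

theorem lam1_AA3 (i j k : Fin n) {a : A n} (ha : a ∈ AA 3 n 3) : lam1 i j k a = 0 :=
  ha (x i) [j, k] (by simp) (by simp)

theorem R_diff (i l : Fin n) (v : F n) :
    R i v (x l) * (x l)⁻¹ = if l = i then x i * kill i v * (x i)⁻¹ else 1 := by
  split_ifs with h
  · subst h; rw [R_apply_self]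
  · rw [R_apply_ne h, mul_inv_cancel]

theorem C_diff (i l : Fin n) (v : F n) :
    C i v (x l) * (x l)⁻¹ = if l = i then ⁅(kill i v)⁻¹, x i⁆ else 1 := by
  split_ifs with h
  · subst h; rw [C_apply_self, commutatorElement_def]; group
  · rw [C_apply_ne h, mul_inv_cancel]

theorem kill_mem_DD {p k : ℕ} (i : Fin n) {w : F n} (hw : w ∈ DD p n k) : kill i w ∈ DD p n k :=
  map_mem_DD (kill i) hw

theorem R_mem_AA {p k : ℕ} (i : Fin n) {v : F n} (hv : kill i v ∈ DD p n k) : R i v ∈ AA p n k := by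
  refine mem_AA_of_gen fun l => ?_
  rw [R_diff]
  split_ifs
  · exact (inferInstance : (DD p n k).Normal).conj_mem _ hv _
  · exact (DD p n k).one_mem

theorem C_mem_AA {p k : ℕ} (i : Fin n) {v : F n} (hv : kill i v ∈ DD p n k) :
    C i v ∈ AA p n (k + 1) := by
  refine mem_AA_of_gen fun l => ?_
  rw [C_diff]
  split_ifs
  · exact comm_mem_DD ((DD p n k).inv_mem hv) (mem_DD_one p _)
  · exact (DD p n (k + 1)).one_mem

theorem cube_mem_AA3 {i j : Fin n} (h : i ≠ j) : R i (x j) ^ 3 ∈ AA 3 n 3 := by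
  clear h
  have h3 : Fact (Nat.Prime 3) := ⟨Nat.prime_three⟩
  rw [← map_pow]
  refine R_mem_AA i ?_
  rw [map_pow]
  exact pow_mem_DD _

theorem C_gam2_mem_AA3 (i : Fin n) {w : F n} (hw : w ∈ gam n 1) : C i w ∈ AA 3 n 3 :=
  C_mem_AA i (kill_mem_DD i (gam_le_DD 1 hw))

theorem J1_le_AA2 : J1 n ≤ AA 3 n 2 := by
  rw [J1, Subgroup.closure_le]
  rintro g (⟨i, j, -, rfl⟩ | ⟨i, j, k, -, -, -, rfl⟩)
  · exact C_mem_AA i (mem_DD_one 3 _)
  · refine R_mem_AA i ?_
    rw [map_commutatorElement]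
    exact comm_mem_DD (mem_DD_one 3 _) (mem_DD_one 3 _)

/-- generators of degree one: `(i, j, k)` with `j < k` -/
def g1 (i j k : Fin n) : A n :=
  if i = j then C i (x k) else if i = k then C i (x j) else R i ⁅x j, x k⁆

/-- Kronecker delta -/
private def dl (p : ℕ) (a b : Fin n) : ZMod p := if a = b then 1 else 0

private theorem dl_ne {p : ℕ} {a b : Fin n} (h : a ≠ b) : dl p a b = 0 := if_neg h
private theorem dl_self (p : ℕ) (a : Fin n) : dl p a a = 1 := if_pos rfl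

private theorem mu_x' (p : ℕ) (a b : Fin n) : mu p [a] (x b) = dl p a b := mu_x b a

private theorem mu_xinv (p : ℕ) (a b : Fin n) : mu p [a] (x b)⁻¹ = - dl p a b := by
  rw [mu_inv_low (mem_DD_one p _) rfl one_ne_zero, mu_x']

private theorem mu_comm11 (p : ℕ) (g h : F n) (a b : Fin n) :
    mu p [a, b] ⁅g, h⁆ = mu p [a] g * mu p [b] h - mu p [a] h * mu p [b] g :=
  mu_comm one_ne_zero one_ne_zero (mem_DD_one p g) (mem_DD_one p h) rfl

private theorem mu_comm21 (p : ℕ) {g : F n} (hg : g ∈ DD p n 2) (h : F n) (a b c : Fin n) :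
    mu p [a, b, c] ⁅g, h⁆ = mu p [a, b] g * mu p [c] h - mu p [a] h * mu p [b, c] g :=
  mu_comm two_ne_zero one_ne_zero hg (mem_DD_one p h) rfl

private theorem comm_xx_mem (p : ℕ) (g h : F n) : ⁅g, h⁆ ∈ DD p n 2 :=
  comm_mem_DD (mem_DD_one p _) (mem_DD_one p _)

/-- the value of `lam1` on a conjugation -/
private theorem lam1_C (i j k i' a : Fin n) (h : a ≠ i') :
    lam1 i j k (C i' (x a)) =
      if i = i' then - dl 3 j a * dl 3 k i' + dl 3 j i' * dl 3 k a else 0 := by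
  rw [lam1, C_diff]
  split_ifs with hi
  · subst hi
    rw [kill_ne h, mu_comm11, mu_xinv, mu_xinv, mu_x', mu_x']
    ring
  · exact mu_one (by simp)

/-- the value of `lam1` on `R i' ⁅x a, x b⁆` -/
private theorem lam1_R (i j k i' a b : Fin n) (h : a ≠ i') (h2 : b ≠ i') :
    lam1 i j k (R i' ⁅x a, x b⁆) =
      if i = i' then dl 3 j a * dl 3 k b - dl 3 j b * dl 3 k a else 0 := by
  rw [lam1, R_diff]
  split_ifs with hi
  · subst hi
    rw [map_commutatorElement, kill_ne h, kill_ne h2,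
      mu_conj_low (comm_xx_mem 3 _ _) _ rfl two_ne_zero, mu_comm11, mu_x', mu_x', mu_x', mu_x']
  · exact mu_one (by simp)

private theorem dl_mul_eq_zero {p : ℕ} {a b c d : Fin n} (h : a = b → c = d → False) :
    dl p a b * dl p c d = 0 := by
  by_cases h1 : a = b
  · rw [dl_ne (fun h2 => h h1 h2), mul_zero]
  · rw [dl_ne h1, zero_mul]

theorem lam1_off {i j k i' j' k' : Fin n} (h : j < k) (h' : j' < k')
    (hne : (i, j, k) ≠ (i', j', k')) : lam1 i j k (g1 i' j' k') = 0 := by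
  have key : i = i' → j = j' → k = k' → False := by
    rintro rfl rfl rfl; exact hne rfl
  unfold g1
  split_ifs with h1 h2
  · subst h1
    rw [lam1_C _ _ _ _ _ h'.ne']
    split_ifs with hi
    · rw [neg_mul, dl_mul_eq_zero, dl_mul_eq_zero, neg_zero, zero_add]
      · exact fun e1 e2 => key hi e1 e2
      · rintro rfl rfl; exact absurd h' h.asymm
    · rfl
  · subst h2
    rw [lam1_C _ _ _ _ _ h'.ne]
    split_ifs with hi
    · rw [neg_mul, dl_mul_eq_zero, dl_mul_eq_zero, neg_zero, zero_add]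
      · rintro rfl rfl; exact absurd h' h.asymm
      · exact fun e1 e2 => key hi e1 e2
    · rfl
  · rw [lam1_R _ _ _ _ _ _ (Ne.symm h1) (Ne.symm h2)]
    split_ifs with hi
    · rw [dl_mul_eq_zero, dl_mul_eq_zero, sub_zero]
      · rintro rfl rfl; exact absurd h' h.asymm
      · exact fun e1 e2 => key hi e1 e2
    · rfl

private theorem one3 : (1 : ZMod 3) ≠ 0 := by decide
private theorem two3 : (2 : ZMod 3) ≠ 0 := by decide

theorem lam1_on {i j k : Fin n} (h : j < k) : lam1 i j k (g1 i j k) ≠ 0 := by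
  unfold g1
  split_ifs with h1 h2
  · subst h1
    rw [lam1_C _ _ _ _ _ h.ne', if_pos rfl, dl_ne h.ne, dl_self, dl_self, neg_zero, zero_mul]
    decide
  · subst h2
    rw [lam1_C _ _ _ _ _ h.ne, if_pos rfl, dl_ne h.ne, dl_self, dl_self, zero_mul]
    decide
  · rw [lam1_R _ _ _ _ _ _ (Ne.symm h1) (Ne.symm h2), if_pos rfl, dl_self, dl_self, dl_ne h.ne, zero_mul]
    decide

/-! ### degree two -/

noncomputable def lam2 (i j k l : Fin n) (α : A n) : ZMod 3 :=
  mu 3 [j, k, l] (α (x i) * (x i)⁻¹) - mu 3 [k, j, l] (α (x i) * (x i)⁻¹)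

theorem lam2_add (i j k l : Fin n) {a b : A n} (ha : a ∈ AA 3 n 3) (hb : b ∈ AA 3 n 3) :
    lam2 i j k l (a * b) = lam2 i j k l a + lam2 i j k l b := by
  have h1 := AA_add (by omega) ha hb (x i) (w := [j, k, l]) rfl
  have h2 := AA_add (by omega) ha hb (x i) (w := [k, j, l]) rfl
  rw [lam2, h1, h2, lam2, lam2]
  ring

theorem lam2_AA4 (i j k l : Fin n) {a : A n} (ha : a ∈ AA 3 n 4) : lam2 i j k l a = 0 := by
  rw [lam2, ha (x i) [j, k, l] (by simp) (by simp), ha (x i) [k, j, l] (by simp) (by simp),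
    sub_zero]

/-- coefficients of degree three of the cube of a generator -/
private theorem mu_cube (j a b c : Fin n) :
    mu 3 [a, b, c] (x j * x j * x j) = dl 3 a j * dl 3 b j * dl 3 c j := by
  have e1 : ∀ g h : F n, mu 3 [a, b, c] (g * h) = mu 3 [a, b, c] h + mu 3 [a] g * mu 3 [b, c] h +
      mu 3 [a, b] g * mu 3 [c] h + mu 3 [a, b, c] g := by
    intro g h
    rw [mu_mul]
    simp [Finset.sum_range_succ, mu_nil]
  have e2 : ∀ (a b : Fin n) (g h : F n), mu 3 [a, b] (g * h) =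
      mu 3 [a, b] h + mu 3 [a] g * mu 3 [b] h + mu 3 [a, b] g := by
    intro a b g h
    rw [mu_mul]
    simp [Finset.sum_range_succ, mu_nil]
  have x2 : ∀ a b : Fin n, mu 3 [a, b] (x j) = 0 := fun a b => mu_x_two j (by simp)
  have x3 : mu 3 [a, b, c] (x j) = 0 := mu_x_two j (by simp)
  rw [e1, e1, e2, x3, x2, x2, mu_x', mu_x', mu_x']
  ring

/-- automorphisms in `AA 3 n 3` with symmetric lowest degree part -/
private def Sym (n : ℕ) : Subgroup (A n) where
  carrier := {α | α ∈ AA 3 n 3 ∧ ∀ (v : F n) (u : Fin 3 → Fin n) (σ : Equiv.Perm (Fin 3)),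
    mu 3 (List.ofFn (u ∘ σ)) (α v * v⁻¹) = mu 3 (List.ofFn u) (α v * v⁻¹)}
  one_mem' := by
    refine ⟨Subgroup.one_mem _, fun v u σ => ?_⟩
    have : (1 : A n) v * v⁻¹ = 1 := by simp
    rw [this, mu_one (by simp), mu_one (by simp)]
  mul_mem' := by
    rintro a b ⟨ha, ha'⟩ ⟨hb, hb'⟩
    refine ⟨Subgroup.mul_mem _ ha hb, fun v u σ => ?_⟩
    rw [AA_add (by omega) ha hb v (List.length_ofFn), AA_add (by omega) ha hb v (List.length_ofFn),
      ha', hb']
  inv_mem' := by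
    rintro a ⟨ha, ha'⟩
    refine ⟨Subgroup.inv_mem _ ha, fun v u σ => ?_⟩
    have key : ∀ u : Fin 3 → Fin n, mu 3 (List.ofFn u) (a⁻¹ v * v⁻¹) =
        - mu 3 (List.ofFn u) (a v * v⁻¹) := by
      intro u
      have h1 := AA_add (by omega) ha (Subgroup.inv_mem _ ha) v (List.length_ofFn (f := u))
      have h3 : (a * a⁻¹) v * v⁻¹ = 1 := by rw [mul_inv_cancel]; simp
      rw [h3, mu_one (by simp)] at h1
      exact (neg_eq_of_add_eq_zero_right h1.symm).symm
    rw [key, key, ha']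

private theorem Sym_normal : (Sym n).Normal where
  conj_mem := by
    rintro a ⟨ha, ha'⟩ b
    refine ⟨(AA_normal 3 3).conj_mem _ ha b, fun v u σ => ?_⟩
    have h1 : (b * a * b⁻¹) v * v⁻¹ = b (a (b⁻¹ v) * (b⁻¹ v)⁻¹) := by
      simp [MulAut.mul_apply]
    have key : ∀ u : Fin 3 → Fin n, mu 3 (List.ofFn u) (b (a (b⁻¹ v) * (b⁻¹ v)⁻¹)) =
        ∑ r : Fin 3 → Fin n, mu 3 (List.ofFn r) (a (b⁻¹ v) * (b⁻¹ v)⁻¹) *
          ∏ t : Fin 3, mu 3 [u t] (b (x (r t))) := by
      intro u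
      have := mu_map_lowest b.toMonoidHom (k := 3) (by omega) (ha (b⁻¹ v)) (List.ofFn u)
        (List.length_ofFn)
      refine this.trans (Finset.sum_congr rfl fun r _ => ?_)
      refine congrArg _ (Finset.prod_congr rfl fun t _ => ?_)
      rw [List.get_ofFn]
      rfl
    rw [h1, key, key]
    refine Fintype.sum_equiv (Equiv.arrowCongr σ (Equiv.refl _)) _ _ fun r => ?_
    have h2 : (Equiv.arrowCongr σ (Equiv.refl _)) r = r ∘ σ.symm := by
      ext t; simp [Equiv.arrowCongr]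
    rw [h2, ha' _ r σ.symm]
    exact congrArg _ (Fintype.prod_equiv σ _ _ fun t => by simp)

private theorem mem_Sym_of_gen {α : A n} (h : α ∈ AA 3 n 3)
    (h2 : ∀ (i : Fin n) (u : Fin 3 → Fin n) (σ : Equiv.Perm (Fin 3)),
      mu 3 (List.ofFn (u ∘ σ)) (α (x i) * (x i)⁻¹) = mu 3 (List.ofFn u) (α (x i) * (x i)⁻¹)) :
    α ∈ Sym n := by
  refine ⟨h, fun v u σ => ?_⟩
  induction v using FreeGroup.induction_on with
  | C1 => rw [map_one, inv_one, mul_one, mu_one (by simp), mu_one (by simp)]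
  | of i => exact h2 i u σ
  | inv_of i ih =>
    rw [AA_inv_right (by omega) h _ (List.length_ofFn), AA_inv_right (by omega) h _ (List.length_ofFn)]
    exact congrArg _ (h2 i u σ)
  | mul v w hv hw =>
    rw [AA_add_right (by omega) h _ _ (List.length_ofFn),
      AA_add_right (by omega) h _ _ (List.length_ofFn), hv, hw]

private theorem ofFn3 (u : Fin 3 → Fin n) : List.ofFn u = [u 0, u 1, u 2] := by
  simp [List.ofFn_succ]

private theorem cube_mem_Sym {i j : Fin n} (h : i ≠ j) : R i (x j) ^ 3 ∈ Sym n := by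
  refine mem_Sym_of_gen (cube_mem_AA3 h) fun l u σ => ?_
  rw [← map_pow, R_diff]
  split_ifs with hl
  · have h3 : Fact (Nat.Prime 3) := ⟨Nat.prime_three⟩
    rw [mu_conj_low (kill_mem_DD i (pow_mem_DD (p := 3) (x j))) _ (List.length_ofFn) (by omega),
      mu_conj_low (kill_mem_DD i (pow_mem_DD (p := 3) (x j))) _ (List.length_ofFn) (by omega)]
    have hk : kill i (x j ^ 3) = x j * x j * x j := by
      rw [map_pow, kill_ne h.symm, pow_succ, pow_succ, pow_one]
    rw [hk, ofFn3, ofFn3, mu_cube, mu_cube]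
    have h4 : ∀ u : Fin 3 → Fin n, dl 3 (u 0) j * dl 3 (u 1) j * dl 3 (u 2) j =
        ∏ t : Fin 3, dl 3 (u t) j := by
      intro u; rw [Fin.prod_univ_three]
    rw [h4, h4]
    exact Fintype.prod_equiv σ _ _ fun t => rfl
  · rw [mu_one (by simp), mu_one (by simp)]

private theorem C_mem_Sym (i : Fin n) {w : F n} (hw : w ∈ gam n 2) : C i w ∈ Sym n := by
  have h4 : C i w ∈ AA 3 n 4 := C_mem_AA i (kill_mem_DD i (gam_le_DD 2 hw))
  refine ⟨AA_anti (by omega) h4, fun v u σ => ?_⟩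
  rw [h4 v _ (by simp) (by simp), h4 v _ (by simp) (by simp)]

/-- `lam2` vanishes on `N0` and the `C i w`, `w ∈ γ_3`.  Proof: the automorphisms `α` in `AA 3 n 3`
such that for all `w : F n` the degree 3 coefficients of `α w * w⁻¹` are symmetric in the three
indices form a normal subgroup (`mu_map_lowest`); `R i (x j) ^ 3` is in it (the degree three part of
`R i (x j) ^ 3 w * w⁻¹` is a multiple of `X_j ^ 3`). -/
theorem lam2_N (i j k l : Fin n) {a : A n}
    (ha : a ∈ N0 n ⊔ Subgroup.normalClosure {g | ∃ i : Fin n, ∃ w ∈ gam n 2, g = C i w}) :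
    lam2 i j k l a = 0 := by
  have hS := Sym_normal (n := n)
  have h1 : N0 n ≤ Sym n := by
    refine Subgroup.normalClosure_le_normal ?_
    rintro _ ⟨i, j, hij, rfl⟩
    exact cube_mem_Sym hij
  have h2 : Subgroup.normalClosure {g | ∃ i : Fin n, ∃ w ∈ gam n 2, g = C i w} ≤ Sym n := by
    refine Subgroup.normalClosure_le_normal ?_
    rintro _ ⟨i, w, hw, rfl⟩
    exact C_mem_Sym i hw
  have h3 := (sup_le h1 h2 ha).2 (x i) ![j, k, l] (Equiv.swap 0 1)
  rw [ofFn3, ofFn3] at h3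
  have h4 : (![j, k, l] ∘ (Equiv.swap (0 : Fin 3) 1)) 0 = k := rfl
  have h5 : (![j, k, l] ∘ (Equiv.swap (0 : Fin 3) 1)) 1 = j := rfl
  have h6 : (![j, k, l] ∘ (Equiv.swap (0 : Fin 3) 1)) 2 = l := rfl
  have h7 : mu 3 [k, j, l] (a (x i) * (x i)⁻¹) = mu 3 [j, k, l] (a (x i) * (x i)⁻¹) := by
    rw [h4, h5, h6] at h3
    exact h3
  rw [lam2, h7, sub_self]

theorem J2_le_AA3 : J2 n ≤ AA 3 n 3 := by
  rw [J2, Subgroup.closure_le]
  rintro g (⟨i, w, hw, rfl⟩ | ⟨i, w, hw, rfl⟩)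
  · exact C_gam2_mem_AA3 i hw
  · exact R_mem_AA i (kill_mem_DD i (gam_le_DD 2 hw))

/-- generators of degree two: `(i, j, k, l)` with `j < k < l` -/
def g2 (i j k l : Fin n) : A n :=
  if i = j then C i ⁅x k, x l⁆ else if i = k then C i ⁅x j, x l⁆
  else if i = l then C i ⁅x j, x k⁆ else R i ⁅⁅x j, x k⁆, x l⁆

private theorem mu_c2 (p : ℕ) (q r a b : Fin n) :
    mu p [q, r] ⁅x a, x b⁆ = dl p q a * dl p r b - dl p q b * dl p r a := by
  rw [mu_comm11, mu_x', mu_x', mu_x', mu_x']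

/-- coefficients of degree three on `C i' ⁅x a, x b⁆` -/
private theorem mu3_C (i j k l i' a b : Fin n) (ha : a ≠ i') (hb : b ≠ i') :
    mu 3 [j, k, l] (C i' ⁅x a, x b⁆ (x i) * (x i)⁻¹) =
      if i = i' then - (dl 3 j a * dl 3 k b - dl 3 j b * dl 3 k a) * dl 3 l i' +
        dl 3 j i' * (dl 3 k a * dl 3 l b - dl 3 k b * dl 3 l a) else 0 := by
  rw [C_diff]
  split_ifs with hi
  · subst hi
    have hm : ⁅x a, x b⁆ ∈ DD 3 n 2 := comm_xx_mem 3 _ _
    rw [map_commutatorElement, kill_ne ha, kill_ne hb, mu_comm21 3 ((DD 3 n 2).inv_mem hm),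
      mu_inv_low hm rfl two_ne_zero, mu_inv_low hm rfl two_ne_zero, mu_c2, mu_c2, mu_x', mu_x']
    ring
  · exact mu_one (by simp)

/-- coefficients of degree three on `R i' ⁅⁅x a, x b⁆, x c⁆` -/
private theorem mu3_R (i j k l i' a b c : Fin n) (ha : a ≠ i') (hb : b ≠ i') (hc : c ≠ i') :
    mu 3 [j, k, l] (R i' ⁅⁅x a, x b⁆, x c⁆ (x i) * (x i)⁻¹) =
      if i = i' then (dl 3 j a * dl 3 k b - dl 3 j b * dl 3 k a) * dl 3 l c -
        dl 3 j c * (dl 3 k a * dl 3 l b - dl 3 k b * dl 3 l a) else 0 := by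
  rw [R_diff]
  split_ifs with hi
  · subst hi
    have hm : ⁅x a, x b⁆ ∈ DD 3 n 2 := comm_xx_mem 3 _ _
    have hm3 : ⁅⁅x a, x b⁆, x c⁆ ∈ DD 3 n 3 := comm_mem_DD hm (mem_DD_one 3 _)
    rw [map_commutatorElement, map_commutatorElement, kill_ne ha, kill_ne hb, kill_ne hc,
      mu_conj_low hm3 _ rfl three_ne_zero, mu_comm21 3 hm, mu_c2, mu_c2, mu_x', mu_x']
  · exact mu_one (by simp)

/-- product of three deltas -/
private theorem d3 {j k l a b c : Fin n} (h : j = a → k = b → l = c → False) :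
    dl 3 j a * dl 3 k b * dl 3 l c = 0 := by
  by_cases h1 : j = a
  · by_cases h2 : k = b
    · rw [dl_ne (fun h3 => h h1 h2 h3), mul_zero]
    · rw [dl_ne h2, mul_zero, zero_mul]
  · rw [dl_ne h1, zero_mul, zero_mul]

/-- all six orders vanish if the sorted triples are different -/
private theorem d3_all {j k l a b c : Fin n} (h : j < k) (h2 : k < l) (h' : a < b) (h2' : b < c)
    (hne : j = a → k = b → l = c → False) :
    dl 3 j a * dl 3 k b * dl 3 l c = 0 ∧ dl 3 j a * dl 3 k c * dl 3 l b = 0 ∧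
    dl 3 j b * dl 3 k a * dl 3 l c = 0 ∧ dl 3 j b * dl 3 k c * dl 3 l a = 0 ∧
    dl 3 j c * dl 3 k a * dl 3 l b = 0 ∧ dl 3 j c * dl 3 k b * dl 3 l a = 0 := by
  refine ⟨d3 hne, d3 ?_, d3 ?_, d3 ?_, d3 ?_, d3 ?_⟩ <;>
    · rintro rfl rfl rfl
      omega

theorem lam2_off {i j k l i' j' k' l' : Fin n} (h : j < k) (h2 : k < l) (h' : j' < k')
    (h2' : k' < l') (hne : (i, j, k, l) ≠ (i', j', k', l')) :
    lam2 i j k l (g2 i' j' k' l') = 0 := by
  have h3 : j' < l' := h'.trans h2'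
  by_cases hi : i = i'
  · subst hi
    have key : j = j' → k = k' → l = l' → False := by
      rintro rfl rfl rfl; exact hne rfl
    obtain ⟨z1, z2, z3, z4, z5, z6⟩ := d3_all h h2 h' h2' key
    unfold g2 lam2
    split_ifs with h4 h5 h6
    · subst h4
      rw [mu3_C _ _ _ _ _ _ _ h'.ne' h3.ne', mu3_C _ _ _ _ _ _ _ h'.ne' h3.ne', if_pos rfl,
        if_pos rfl]
      linear_combination -2 * z4 + 2 * z6 + z1 - z2 - z3 + z5
    · subst h5
      rw [mu3_C _ _ _ _ _ _ _ h'.ne h2'.ne', mu3_C _ _ _ _ _ _ _ h'.ne h2'.ne', if_pos rfl,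
        if_pos rfl]
      linear_combination -2 * z2 + 2 * z5 + z3 - z4 - z1 + z6
    · subst h6
      rw [mu3_C _ _ _ _ _ _ _ h3.ne h2'.ne, mu3_C _ _ _ _ _ _ _ h3.ne h2'.ne, if_pos rfl,
        if_pos rfl]
      linear_combination -2 * z1 + 2 * z3 + z5 - z6 - z2 + z4
    · rw [mu3_R _ _ _ _ _ _ _ _ (Ne.symm h4) (Ne.symm h5) (Ne.symm h6),
        mu3_R _ _ _ _ _ _ _ _ (Ne.symm h4) (Ne.symm h5) (Ne.symm h6), if_pos rfl, if_pos rfl]
      linear_combination 2 * z1 - 2 * z3 - z5 + z6 + z2 - z4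
  · unfold g2 lam2
    split_ifs with h4 h5 h6
    · subst h4
      rw [mu3_C _ _ _ _ _ _ _ h'.ne' h3.ne', mu3_C _ _ _ _ _ _ _ h'.ne' h3.ne', if_neg hi,
        if_neg hi, sub_zero]
    · subst h5
      rw [mu3_C _ _ _ _ _ _ _ h'.ne h2'.ne', mu3_C _ _ _ _ _ _ _ h'.ne h2'.ne', if_neg hi,
        if_neg hi, sub_zero]
    · subst h6
      rw [mu3_C _ _ _ _ _ _ _ h3.ne h2'.ne, mu3_C _ _ _ _ _ _ _ h3.ne h2'.ne, if_neg hi,
        if_neg hi, sub_zero]
    · rw [mu3_R _ _ _ _ _ _ _ _ (Ne.symm h4) (Ne.symm h5) (Ne.symm h6),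
        mu3_R _ _ _ _ _ _ _ _ (Ne.symm h4) (Ne.symm h5) (Ne.symm h6), if_neg hi, if_neg hi,
        sub_zero]

theorem lam2_on {i j k l : Fin n} (h : j < k) (h2 : k < l) : lam2 i j k l (g2 i j k l) ≠ 0 := by
  have h3 : j < l := h.trans h2
  have e1 := dl_ne (p := 3) h.ne
  have e2 := dl_ne (p := 3) h.ne'
  have e3 := dl_ne (p := 3) h2.ne
  have e4 := dl_ne (p := 3) h2.ne'
  have e5 := dl_ne (p := 3) h3.ne
  have e6 := dl_ne (p := 3) h3.ne'
  have s1 := dl_self 3 j
  have s2 := dl_self 3 k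
  have s3 := dl_self 3 l
  unfold g2 lam2
  split_ifs with h4 h5 h6
  · subst h4
    rw [mu3_C _ _ _ _ _ _ _ h.ne' h3.ne', mu3_C _ _ _ _ _ _ _ h.ne' h3.ne', if_pos rfl,
      if_pos rfl]
    simp only [e1, e2, e3, e4, e5, e6, s1, s2, s3]
    decide
  · subst h5
    rw [mu3_C _ _ _ _ _ _ _ h.ne h2.ne', mu3_C _ _ _ _ _ _ _ h.ne h2.ne', if_pos rfl,
      if_pos rfl]
    simp only [e1, e2, e3, e4, e5, e6, s1, s2, s3]
    decide
  · subst h6
    rw [mu3_C _ _ _ _ _ _ _ h3.ne h2.ne, mu3_C _ _ _ _ _ _ _ h3.ne h2.ne, if_pos rfl,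
      if_pos rfl]
    simp only [e1, e2, e3, e4, e5, e6, s1, s2, s3]
    decide
  · rw [mu3_R _ _ _ _ _ _ _ _ (Ne.symm h4) (Ne.symm h5) (Ne.symm h6),
      mu3_R _ _ _ _ _ _ _ _ (Ne.symm h4) (Ne.symm h5) (Ne.symm h6), if_pos rfl, if_pos rfl]
    simp only [e1, e2, e3, e4, e5, e6, s1, s2, s3]
    decide

end Pool.Agent.CSP3
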