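import Pool.Agent.CSP3.FoxJ
import Pool.Agent.CSPHier.Levels

/-!
# The determinant of the Fox Jacobian over the group ring of `(ℤ/m)^n`
-/

set_option autoImplicit false
set_option linter.unusedSectionVars false

namespace Pool.Agent.CSP3

open SA

open FreeGroup hiding map_mul map_inv map_one norm norm_one
open Pool.Agent.CSPHier

namespace Det

variable {α : Type} [DecidableEq α] [Fintype α]

/-- `(ℤ/m)^n`, written multiplicatively -/
abbrev Am (α : Type) (m : ℕ) : Type := Multiplicative (α → ZMod m)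

/-- the induced map on `(ℤ/m)^n` -/
noncomputable def bet (m : ℕ) (φ : MulAut (FreeGroup α)) : Am α m →* Am α m :=
  AddMonoidHom.toMultiplicative (Matrix.mulVecLin (abM m φ)).toAddMonoidHom

theorem ab_bet (m : ℕ) (φ : MulAut (FreeGroup α)) (w : FreeGroup α) :
    ab α m (φ w) = bet m φ (ab α m w) := by
  have h := ab_apply m φ w
  apply Multiplicative.toAdd.injective
  rw [h]
  rfl

theorem bet_id {m : ℕ} {φ : MulAut (FreeGroup α)} (h : ∀ w, ab α m (φ w) = ab α m w) :
    bet m φ = MonoidHom.id _ := by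
  have e : abM m φ = 1 := by
    rw [← abM_one]
    ext i j
    unfold abM
    rw [h, MulAut.one_apply]
  unfold bet
  rw [e, Matrix.mulVecLin_one]
  rfl

variable (k : Type) [CommRing k]

/-- the determinant of the Jacobian -/
noncomputable def dJ (m : ℕ) (φ : MulAut (FreeGroup α)) : MonoidAlgebra k (Am α m) :=
  (Fox.J k (ab α m) φ).det

theorem dJ_one (m : ℕ) : dJ k m (1 : MulAut (FreeGroup α)) = 1 := by
  unfold dJ; rw [Fox.J_one, Matrix.det_one]

theorem dJ_mul (m : ℕ) (φ ψ : MulAut (FreeGroup α)) :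
    dJ k m (φ * ψ) = MonoidAlgebra.mapDomainRingHom k (bet m φ) (dJ k m ψ) * dJ k m φ := by
  unfold dJ
  rw [Fox.J_mul (ab α m) φ ψ (bet m φ) (ab_bet m φ), Matrix.det_mul, RingHom.map_det]
  rfl

theorem dJ_mul_of_trivial {m : ℕ} {φ : MulAut (FreeGroup α)}
    (h : ∀ w, ab α m (φ w) = ab α m w) (ψ : MulAut (FreeGroup α)) :
    dJ k m (φ * ψ) = dJ k m φ * dJ k m ψ := by
  rw [dJ_mul, bet_id h, MonoidAlgebra.mapDomainRingHom_id, mul_comm]
  rfl

theorem dJ_conj {m : ℕ} {φ : MulAut (FreeGroup α)} (h : ∀ w, ab α m (φ w) = ab α m w)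
    (ψ : MulAut (FreeGroup α)) :
    dJ k m (ψ * φ * ψ⁻¹) = MonoidAlgebra.mapDomainRingHom k (bet m ψ) (dJ k m φ) := by
  have h1 : dJ k m (ψ * ψ⁻¹) = 1 := by rw [mul_inv_cancel, dJ_one]
  rw [dJ_mul] at h1
  rw [mul_assoc, dJ_mul, dJ_mul_of_trivial k h, map_mul, mul_assoc, h1, mul_one]

/-- the Fox derivative of an element not involving `x_i` -/
theorem D_others {B : Type} [Group B] (π : FreeGroup α →* B) {i : α} {w : FreeGroup α}
    (hw : w ∈ Subgroup.closure (of '' {j | j ≠ i})) : Fox.D k π w i = 0 := by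
  induction hw using Subgroup.closure_induction with
  | mem x hx =>
    obtain ⟨j, hj, rfl⟩ := hx
    rw [Fox.D_of]
    exact Pi.single_eq_of_ne (Ne.symm hj) _
  | one => exact Fox.D_one π i
  | mul x y _ _ hx hy => rw [Fox.D_mul, hx, hy, mul_zero, add_zero]
  | inv x _ hx => rw [Fox.D_inv, hx, mul_zero, neg_zero]

/-- the Jacobian determinant of `x_i ↦ u x_i v`, where `u`, `v` do not involve `x_i` -/
theorem dJ_elem (m : ℕ) {ν : MulAut (FreeGroup α)} {i : α} {u v : FreeGroup α}
    (h1 : ∀ j, j ≠ i → ν (of j) = of j) (h2 : ν (of i) = u * of i * v)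
    (hu : u ∈ Subgroup.closure (of '' {j | j ≠ i}))
    (hv : v ∈ Subgroup.closure (of '' {j | j ≠ i})) :
    dJ k m ν = Fox.br k (ab α m u) := by
  have hi : Fox.J k (ab α m) ν i i = Fox.br k (ab α m u) := by
    unfold Fox.J
    rw [h2, Fox.D_mul, Fox.D_mul, D_others k _ hu, D_others k _ hv, Fox.D_of, Pi.single_eq_same,
      mul_one, mul_zero, zero_add, add_zero]
  have e : Fox.J k (ab α m) ν = (1 : Matrix α α (MonoidAlgebra k (Am α m))).updateRow i
      (∑ j, (Fox.J k (ab α m) ν i j) • (1 : Matrix α α (MonoidAlgebra k (Am α m))) j) := by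
    refine Matrix.ext fun p q => ?_
    by_cases hp : p = i
    · subst hp
      rw [Matrix.updateRow_self, Finset.sum_apply, Finset.sum_eq_single q]
      · rw [Pi.smul_apply, Matrix.one_apply_eq, smul_eq_mul, mul_one]
      · intro j _ hj
        rw [Pi.smul_apply, Matrix.one_apply_ne hj, smul_zero]
      · intro hq; exact absurd (Finset.mem_univ q) hq
    · rw [Matrix.updateRow_ne hp]
      unfold Fox.J
      rw [h1 p hp, Fox.D_of, Matrix.one_apply, Pi.single_apply]
      simp [eq_comm]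
  unfold dJ
  rw [e, Matrix.det_updateRow_sum, Matrix.det_one, smul_eq_mul, mul_one, hi]

/-! ### The normal closure of the `m`-th powers of the transvections -/

/-- the normal closure of the `m`-th powers of the transvections `x_i ↦ x_i x_j` -/
def NC (α : Type) [DecidableEq α] (m : ℕ) : Subgroup (MulAut (FreeGroup α)) :=
  Subgroup.normalClosure {ν | ∃ i j : α, i ≠ j ∧ (∀ l, l ≠ i → ν (of l) = of l) ∧
    ν (of i) = of i * (of j) ^ m}

instance (m : ℕ) : (NC α m).Normal := Subgroup.normalClosure_normal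

theorem NC_induction {m : ℕ} {p : MulAut (FreeGroup α) → Prop} (one : p 1)
    (mul : ∀ x y, p x → p y → p (x * y)) (inv : ∀ x, p x → p x⁻¹)
    (cj : ∀ ν ψ : MulAut (FreeGroup α), ∀ i j : α, i ≠ j → (∀ l, l ≠ i → ν (of l) = of l) →
      ν (of i) = of i * (of j) ^ m → p (ψ * ν * ψ⁻¹)) {φ : MulAut (FreeGroup α)}
    (h : φ ∈ NC α m) : p φ := by
  unfold NC Subgroup.normalClosure at h
  induction h using Subgroup.closure_induction with
  | mem x hx =>
    rw [Group.mem_conjugatesOfSet_iff] at hx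
    obtain ⟨ν, ⟨i, j, hij, h1, h2⟩, hc⟩ := hx
    rw [isConj_iff] at hc
    obtain ⟨ψ, rfl⟩ := hc
    exact cj ν ψ i j hij h1 h2
  | one => exact one
  | mul x y _ _ hx hy => exact mul x y hx hy
  | inv x _ hx => exact inv x hx

theorem NC_ab {m : ℕ} {φ : MulAut (FreeGroup α)} (h : φ ∈ NC α m) (w : FreeGroup α) :
    ab α m (φ w) = ab α m w := by
  refine NC_induction (p := fun φ => ∀ w, ab α m (φ w) = ab α m w) (fun w => rfl) ?_ ?_ ?_ h w
  · intro x y hx hy w
    rw [MulAut.mul_apply, hx, hy]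
  · intro x hx w
    rw [← hx (x⁻¹ w), ← MulAut.mul_apply, mul_inv_cancel, MulAut.one_apply]
  · intro ν ψ i j hij h1 h2 w
    have hν : ∀ w, ab α m (ν w) = ab α m w := by
      intro w
      have : (ab α m).comp ν.toMonoidHom = ab α m := by
        ext1 l
        show ab α m (ν (of l)) = ab α m (of l)
        by_cases hl : l = i
        · subst hl
          rw [h2, map_mul, map_pow]
          have : (ab α m (of j)) ^ m = 1 := by
            apply Multiplicative.toAdd.injective
            rw [toAdd_pow, ab_of, toAdd_ofAdd, toAdd_one]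
            funext p
            rw [Pi.smul_apply, nsmul_eq_mul, ZMod.natCast_self, zero_mul, Pi.zero_apply]
          rw [this, mul_one]
        · rw [h1 l hl]
      exact DFunLike.congr_fun this w
    rw [MulAut.mul_apply, MulAut.mul_apply, ab_bet, hν, ← ab_bet, ← MulAut.mul_apply,
      mul_inv_cancel, MulAut.one_apply]

/-- the Jacobian determinant is trivial on the normal closure -/
theorem NC_dJ {m : ℕ} {φ : MulAut (FreeGroup α)} (h : φ ∈ NC α m) : dJ k m φ = 1 := by
  have key : (∀ w, ab α m (φ w) = ab α m w) ∧ dJ k m φ = 1 := by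
    refine NC_induction (p := fun φ => (∀ w, ab α m (φ w) = ab α m w) ∧ dJ k m φ = 1)
      ⟨fun w => rfl, dJ_one k m⟩ ?_ ?_ ?_ h
    · rintro x y ⟨hx, hx2⟩ ⟨hy, hy2⟩
      refine ⟨fun w => by rw [MulAut.mul_apply, hx, hy], ?_⟩
      rw [dJ_mul_of_trivial k hx, hx2, hy2, one_mul]
    · rintro x ⟨hx, hx2⟩
      refine ⟨fun w => by rw [← hx (x⁻¹ w), ← MulAut.mul_apply, mul_inv_cancel, MulAut.one_apply],
        ?_⟩
      have := dJ_mul_of_trivial k hx x⁻¹
      rw [mul_inv_cancel, dJ_one, hx2, one_mul] at this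
      exact this.symm
    · intro ν ψ i j hij h1 h2
      have hνm : ν ∈ NC α m := Subgroup.subset_normalClosure ⟨i, j, hij, h1, h2⟩
      have hν := NC_ab hνm
      have hcj : ψ * ν * ψ⁻¹ ∈ NC α m := Subgroup.Normal.conj_mem inferInstance ν hνm ψ
      refine ⟨NC_ab hcj, ?_⟩
      rw [dJ_conj k hν]
      have hj : (of j : FreeGroup α) ^ m ∈ Subgroup.closure (of '' {l | l ≠ i}) :=
        Subgroup.pow_mem _ (of_mem_others (Ne.symm hij)) m
      rw [dJ_elem k m (u := 1) (v := (of j) ^ m) h1 (by rw [h2, one_mul]) (Subgroup.one_mem _) hj,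
        map_one, Fox.br_one, map_one]
  exact key.2

/-- **Deep congruence subgroups have trivial Jacobian determinant.** -/
theorem exists_level (m : ℕ) [NeZero m] [Finite k] :
    ∃ M : ℕ, ∀ φ : MulAut (FreeGroup α), (∀ x, φ x * x⁻¹ ∈ L (FreeGroup α) M) →
      dJ k m φ = 1 := by
  have : Finite (MonoidAlgebra k (Am α m)) := by
    have : Finite (Am α m) := inferInstanceAs (Finite (α → ZMod m))
    have h2 : Finite (Am α m →₀ k) :=
      Finite.of_injective (fun f : Am α m →₀ k => (f : Am α m → k)) DFunLike.coe_injective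
    exact Finite.of_equiv _ (MonoidAlgebra.coeffEquiv (R := k) (M := Am α m)).symm
  obtain ⟨M, hM⟩ := L_le_ker_perm (α → MonoidAlgebra k (Am α m))
  refine ⟨M, fun φ hφ => ?_⟩
  unfold dJ
  rw [Fox.J_of_trivial, Matrix.det_one]
  intro i
  have h := hM (Fox.tht k (ab α m)) (hφ (of i))
  rw [MonoidHom.mem_ker, map_mul, map_inv, mul_inv_eq_one] at h
  exact h

theorem exists_level_ab (m : ℕ) [NeZero m] :
    ∃ M : ℕ, ∀ φ : MulAut (FreeGroup α), (∀ x, φ x * x⁻¹ ∈ L (FreeGroup α) M) →
      ∀ w, ab α m (φ w) = ab α m w := by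
  have : Finite (Am α m) := inferInstanceAs (Finite (α → ZMod m))
  obtain ⟨M, hM⟩ := L_le_ker (Am α m)
  refine ⟨M, fun φ hφ w => ?_⟩
  have h := hM (ab α m) (hφ w)
  rw [MonoidHom.mem_ker, map_mul, map_inv, mul_inv_eq_one] at h
  exact h

end Det

end Pool.Agent.CSP3
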