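import Mathlib

/-!
# Dual bases (MODULE DUAL)
-/

set_option autoImplicit false

namespace Pool.Agent.CSP3

open scoped commutatorElement

private theorem dual_aux {G : Type*} [Group G] {S : Type*} [Fintype S] (H N : Subgroup G)
    [N.Normal]
    (hNH : N ≤ H) (g : S → G) (hg : ∀ s, g s ∈ H) (hcomm : ∀ s t, ⁅g s, g t⁆ ∈ N)
    (hcube : ∀ s, g s ^ 3 ∈ N) (lam : S → G → ZMod 3)
    (hadd : ∀ s, ∀ a ∈ H, ∀ b ∈ H, lam s (a * b) = lam s a + lam s b)
    (hN : ∀ s, ∀ a ∈ N, lam s a = 0) (hoff : ∀ s t, s ≠ t → lam s (g t) = 0)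
    (hon : ∀ s, lam s (g s) ≠ 0) {a : G} (ha : a ∈ Subgroup.closure (Set.range g) ⊔ N)
    (h0 : ∀ s, lam s a = 0) : a ∈ N := by
  classical
  have hc : ∀ s t : S, Commute (QuotientGroup.mk (s := N) (g s) : G ⧸ N)
      (QuotientGroup.mk (s := N) (g t) : G ⧸ N) := by
    intro s t
    have h1 : (QuotientGroup.mk (s := N) ⁅g s, g t⁆ : G ⧸ N) = 1 :=
      (QuotientGroup.eq_one_iff _).2 (hcomm s t)
    have h2 : ⁅(QuotientGroup.mk (s := N) (g s) : G ⧸ N),
        (QuotientGroup.mk (s := N) (g t) : G ⧸ N)⁆ = 1 := by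
      rw [← h1]
      rfl
    exact commutatorElement_eq_one_iff_commute.1 h2
  let ph : S → (Multiplicative ℤ →* G ⧸ N) := fun s =>
    zpowersHom (G ⧸ N) (QuotientGroup.mk (g s))
  have hph : Pairwise fun s t => ∀ x y, Commute (ph s x) (ph t y) := by
    intro s t _ x y
    simp only [ph, zpowersHom_apply]
    exact (hc s t).zpow_zpow _ _
  let Ph : (S → Multiplicative ℤ) →* G ⧸ N := MonoidHom.noncommPiCoprod ph hph
  have hl1 : ∀ s, lam s 1 = 0 := fun s => hN s 1 N.one_mem
  have key : ∀ b ∈ Subgroup.closure (Set.range g) ⊔ N, b ∈ H ∧ ∃ e : S → Multiplicative ℤ,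
      (QuotientGroup.mk (s := N) b : G ⧸ N) = Ph e ∧
      ∀ s, lam s b = ((Multiplicative.toAdd (e s) : ℤ) : ZMod 3) * lam s (g s) := by
    intro b hb
    rw [← Subgroup.closure_eq N, ← Subgroup.closure_union] at hb
    induction hb using Subgroup.closure_induction with
    | mem x hx =>
      rcases hx with ⟨t, rfl⟩ | hx
      · refine ⟨hg t, Pi.mulSingle t (Multiplicative.ofAdd 1), ?_, ?_⟩
        · rw [MonoidHom.noncommPiCoprod_mulSingle]
          simp [ph]
        · intro s
          by_cases hst : s = t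
          · subst hst
            simp
          · rw [hoff s t hst, Pi.mulSingle_eq_of_ne hst]
            simp
      · refine ⟨hNH hx, 1, ?_, ?_⟩
        · rw [map_one]
          exact (QuotientGroup.eq_one_iff _).2 hx
        · intro s
          rw [hN s x hx]
          simp
    | one =>
      refine ⟨H.one_mem, 1, by simp, fun s => ?_⟩
      rw [hl1]
      simp
    | mul x y _ _ ihx ihy =>
      obtain ⟨hx, e, he, hle⟩ := ihx
      obtain ⟨hy, f, hf, hlf⟩ := ihy
      refine ⟨H.mul_mem hx hy, e * f, ?_, fun s => ?_⟩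
      · rw [map_mul, ← he, ← hf]
        rfl
      · rw [hadd s x hx y hy, hle, hlf]
        simp
        ring
    | inv x _ ih =>
      obtain ⟨hx, e, he, hle⟩ := ih
      refine ⟨H.inv_mem hx, e⁻¹, ?_, fun s => ?_⟩
      · rw [map_inv, ← he]
        rfl
      · have h1 : lam s (x * x⁻¹) = lam s x + lam s x⁻¹ := hadd s x hx _ (H.inv_mem hx)
        rw [mul_inv_cancel, hl1] at h1
        have h2 : lam s x⁻¹ = - lam s x := by
          rw [eq_neg_iff_add_eq_zero, add_comm]
          exact h1.symm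
        rw [h2, hle]
        simp
  obtain ⟨_, e, he, hle⟩ := key a ha
  have hprime : Fact (Nat.Prime 3) := ⟨Nat.prime_three⟩
  have he1 : ∀ s, ph s (e s) = 1 := by
    intro s
    have h1 := hle s
    rw [h0 s] at h1
    have h2 : ((Multiplicative.toAdd (e s) : ℤ) : ZMod 3) = 0 := by
      rcases mul_eq_zero.1 h1.symm with h | h
      · exact h
      · exact absurd h (hon s)
    have h3 : (3 : ℤ) ∣ Multiplicative.toAdd (e s) := by
      have := (ZMod.intCast_zmod_eq_zero_iff_dvd (Multiplicative.toAdd (e s)) 3).1 h2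
      exact_mod_cast this
    obtain ⟨k, hk⟩ := h3
    simp only [ph, zpowersHom_apply]
    rw [hk, zpow_mul]
    have h4 : (QuotientGroup.mk (s := N) (g s) : G ⧸ N) ^ (3 : ℤ) = 1 := by
      have h5 : (QuotientGroup.mk (s := N) (g s ^ 3) : G ⧸ N) = 1 :=
        (QuotientGroup.eq_one_iff _).2 (hcube s)
      rw [← h5, QuotientGroup.mk_pow, ← zpow_natCast]
      rfl
    rw [h4, one_zpow]
  have hfin : Ph e = 1 := by
    have h1 : e ∈ Ph.ker := by
      rw [← Finset.univ_prod_mulSingle e]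
      refine Subgroup.prod_mem _ ?_
      intro s _
      rw [MonoidHom.mem_ker, MonoidHom.noncommPiCoprod_mulSingle, he1 s]
    exact MonoidHom.mem_ker.1 h1
  rw [hfin] at he
  exact (QuotientGroup.eq_one_iff _).1 he

/-- The elements `g s` commute and have exponent three modulo `N`; the functions `lam s` are
additive on `H ≥ N, g s`, vanish on `N`, and are dual to the `g s`.  Then an element of the
subgroup generated by the `g s` and `N` on which all `lam s` vanish is in `N`. -/
theorem dual {G : Type*} [Group G] {S : Type*} [Finite S] (H N : Subgroup G) [N.Normal]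
    (hNH : N ≤ H) (g : S → G) (hg : ∀ s, g s ∈ H) (hcomm : ∀ s t, ⁅g s, g t⁆ ∈ N)
    (hcube : ∀ s, g s ^ 3 ∈ N) (lam : S → G → ZMod 3)
    (hadd : ∀ s, ∀ a ∈ H, ∀ b ∈ H, lam s (a * b) = lam s a + lam s b)
    (hN : ∀ s, ∀ a ∈ N, lam s a = 0) (hoff : ∀ s t, s ≠ t → lam s (g t) = 0)
    (hon : ∀ s, lam s (g s) ≠ 0) {a : G} (ha : a ∈ Subgroup.closure (Set.range g) ⊔ N)
    (h0 : ∀ s, lam s a = 0) : a ∈ N := by
  have : Fintype S := Fintype.ofFinite S
  exact dual_aux H N hNH g hg hcomm hcube lam hadd hN hoff hon ha h0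

end Pool.Agent.CSP3
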