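import Pool.Agent.CSP3.Rel
import Pool.Agent.CSP3.ExpHom
import Pool.Agent.CSP3.IA

/-!
# Level 1: modulo `C i (γ_2)` the subgroup `J1` is abelian (MODULE LEV1)

Here `q` kills all `C i w`, `w ∈ γ_2`; then also all `R i w`, `w ∈ γ_3`
(`R_conj_C_same`: `R i ⁅w⁻¹, v⁆ = (C i w)⁻¹ * R i v * C i w * (R i v)⁻¹`).
So `q (C i w)` depends only on `w` modulo `γ_2` and `q (R i w)`, `w ∈ γ_2`, only on `w` mod `γ_3`.
Pairs of generators of `J1`:
1. `C i (x j)`, `C i (x k)`: `C i` is a homomorphism and kills `γ_2`.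
2. `C i (x j)`, `C l (x k)`, `i ≠ l`: if `k ≠ i`, `j ≠ l` they commute (`C_conj_C`); if `k ≠ i`,
   `j = l`: `C i (C l (x k) (x l))`, same class; `k = i`, `j ≠ l`: symmetric; `k = i`, `j = l`:
   `qbase`.
3. `C i (x j)`, `R i w`: `C_conj_R_same`, `R i` kills `γ_3`.
4. `C i (x j)`, `R l w`, `w = ⁅x a, x b⁆`, `l ≠ i`: if `j ≠ l`: `C i (x j) R l w (..)⁻¹ =
   R l (C i (x j) w)` and `C i (x j) w ≡ w` mod `γ_3`.  If `j = l` and `i ∉ {a, b}`:
   `R l w * C i (x l) * (R l w)⁻¹ = C i (x l * w)`.  If `j = l`, `i ∈ {a, b}`: `qloop` (with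
   `R l ⁅x i, x b⁆ ≡ (R l ⁅(x i)⁻¹, x b⁆)⁻¹`).
5. `R i w`, `R i w'`: `R i` kills `γ_4`.
6. `R i w`, `R l w'`, `i ≠ l`, `w = ⁅x a, x b⁆`, `w' = ⁅x c, x d⁆`: if `i ∉ {c, d}`:
   `R l w' * R i w * .. = R i (R l w' w)`, `R l w' w ≡ w` mod `γ_3`.  If `l ∉ {a, b}`: symmetric.
   If `w = ⁅x l, x b⁆`, `w' = ⁅x i, x d⁆`: `C i (x l)` commutes with `R l ⁅x i, x d⁆` (case 4);
   conjugate by `R i (x b)`: `C i (x l) * R i ⁅(x l)⁻¹, x b⁆` commutes with `R l ⁅x i * x b, x d⁆ ≡
   R l ⁅x i, x d⁆ * R l ⁅x b, x d⁆`; all pairs except (`R i ⁅(x l)⁻¹, x b⁆`, `R l ⁅x i, x d⁆`)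
   commute by the cases already done, hence also this one. -/

set_option autoImplicit false

namespace Pool.Agent.CSP3

open scoped commutatorElement

variable {n : ℕ} {Q : Type*} [Group Q] (q : A n →* Q)

theorem qR_gamma3 (hC : ∀ i : Fin n, ∀ w ∈ gam n 1, q (C i w) = 1) (i : Fin n) {w : F n}
    (hw : w ∈ gam n 2) : q (R i w) = 1 := by
  rw [Subgroup.mem_lowerCentralSeries_succ_iff] at hw
  induction hw using Subgroup.closure_induction with
  | mem y hy =>
    obtain ⟨w, hw, v, _, rfl⟩ := hy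
    have hw' : w⁻¹ ∈ gam n 1 := Subgroup.inv_mem _ hw
    have e := R_conj_C_same i v w⁻¹
    rw [inv_inv] at e
    have e' : R i ⁅w, v⁆ = (C i w⁻¹)⁻¹ * (R i v * C i w⁻¹ * (R i v)⁻¹) := by
      rw [e, inv_mul_cancel_left]
    rw [e', map_mul, map_inv, map_mul, map_mul, hC i _ hw', map_inv]
    group
  | one => rw [map_one, map_one]
  | mul a b _ _ ha hb => rw [map_mul, map_mul, ha, hb, one_mul]
  | inv a _ ha => rw [map_inv, map_inv, ha, inv_one]

namespace Lev1Aux

theorem mul_central {G : Type*} [Group G] {a b z z' : G}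
    (h2 : Commute z b) (h3 : Commute z' a) (h5 : Commute z z') :
    ⁅a * z, b * z'⁆ = ⁅a, b⁆ := by
  have e1 : (a * z) * (b * z') = (a * b) * (z * z') := by
    rw [mul_assoc, mul_assoc, ← mul_assoc z b z', h2.eq, mul_assoc]
  have e2 : (b * z') * (a * z) = (b * a) * (z * z') := by
    rw [mul_assoc, mul_assoc, ← mul_assoc z' a z, h3.eq, mul_assoc, h5.symm.eq]
  have e3 : ⁅a * z, b * z'⁆ = ((a * z) * (b * z')) * ((b * z') * (a * z))⁻¹ := by
    rw [commutatorElement_def]; group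
  have e4 : ⁅a, b⁆ = (a * b) * (b * a)⁻¹ := by
    rw [commutatorElement_def]; group
  rw [e3, e4, e1, e2]
  group

theorem commute_of {G : Type*} [Group G] (σ : F n →* G) {u v : F n}
    (h : σ ⁅u, v⁆ = 1) : Commute (σ u) (σ v) := by
  rw [map_commutatorElement] at h
  exact commutatorElement_eq_one_iff_commute.mp h

theorem gam_succ {k : ℕ} {u : F n} (hu : u ∈ gam n k) (v : F n) :
    ⁅u, v⁆ ∈ gam n (k + 1) := by
  show ⁅u, v⁆ ∈ (⊤ : Subgroup (F n)).lowerCentralSeries (k + 1)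
  rw [Subgroup.lowerCentralSeries_succ]
  exact Subgroup.commutator_mem_commutator hu (Subgroup.mem_top v)

theorem comm_mem (u v : F n) : ⁅u, v⁆ ∈ gam n 1 := by
  refine gam_succ ?_ v
  show u ∈ (⊤ : Subgroup (F n)).lowerCentralSeries 0
  rw [Subgroup.lowerCentralSeries_zero]
  exact Subgroup.mem_top u

theorem kill_mem_gam (a : Fin n) {v : F n} (hv : v ∈ gam n 1) : kill a v ∈ gam n 1 := by
  have h := Subgroup.mem_map_of_mem (kill a) hv
  rw [Subgroup.map_lowerCentralSeries] at h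
  exact Subgroup.lowerCentralSeries_mono 1 le_top h

/-- if `σ` kills `γ_3`, elements of `γ_2` have central image -/
theorem central {G : Type*} [Group G] (σ : F n →* G) (h : ∀ w ∈ gam n 2, σ w = 1)
    {u : F n} (hu : u ∈ gam n 1) (v : F n) : Commute (σ u) (σ v) :=
  commute_of σ (h _ (gam_succ hu v))

theorem class2 {G : Type*} [Group G] (σ : F n →* G) (h : ∀ w ∈ gam n 2, σ w = 1)
    (u v : F n) {u' v' : F n} (hu : u' ∈ gam n 1) (hv : v' ∈ gam n 1) :
    σ ⁅u * u', v * v'⁆ = σ ⁅u, v⁆ := by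
  rw [map_commutatorElement, map_commutatorElement, map_mul, map_mul]
  exact mul_central (central σ h hu v) (central σ h hv u) (central σ h hu v')

/-- an automorphism which is the identity modulo `γ_2` -/
def IA (φ : A n) : Prop := ∀ j, ∃ u ∈ gam n 1, φ (x j) = x j * u

theorem IA_comm {G : Type*} [Group G] (σ : F n →* G) (h : ∀ w ∈ gam n 2, σ w = 1)
    {φ : A n} (hφ : IA φ) (j k : Fin n) : σ (φ ⁅x j, x k⁆) = σ ⁅x j, x k⁆ := by
  obtain ⟨u, hu, eu⟩ := hφ j
  obtain ⟨v, hv, ev⟩ := hφ k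
  rw [map_commutatorElement φ, eu, ev]
  exact class2 σ h (x j) (x k) hu hv

theorem IA_x {G : Type*} [Group G] (σ : F n →* G) (h : ∀ w ∈ gam n 1, σ w = 1)
    {φ : A n} (hφ : IA φ) (j : Fin n) : σ (φ (x j)) = σ (x j) := by
  obtain ⟨u, hu, eu⟩ := hφ j
  rw [eu, map_mul, h u hu, mul_one]

theorem IA_C (a : Fin n) (v : F n) : IA (C a v) := by
  intro j
  by_cases hj : j = a
  · subst hj
    refine ⟨⁅(x j)⁻¹, (kill j v)⁻¹⁆, comm_mem _ _, ?_⟩
    rw [C_apply_self, commutatorElement_def]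
    group
  · exact ⟨1, Subgroup.one_mem _, by rw [C_apply_ne hj, mul_one]⟩

theorem IA_R (a : Fin n) {v : F n} (hv : v ∈ gam n 1) : IA (R a v) := by
  intro j
  by_cases hj : j = a
  · subst hj
    exact ⟨kill j v, kill_mem_gam j hv, R_apply_self j v⟩
  · exact ⟨1, Subgroup.one_mem _, by rw [R_apply_ne hj, mul_one]⟩

theorem comm_inv (j k : Fin n) : (⁅x j, x k⁆ : F n) = ⁅x k, x j⁆⁻¹ := by
  rw [commutatorElement_inv]

theorem of_conj {G : Type*} [Group G] {g d : G} (h : g * d * g⁻¹ = d) :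
    Commute g d := mul_inv_eq_iff_eq_mul.mp h

section main

variable (hT : ∀ i j : Fin n, i ≠ j → q (R i (x j)) ^ 3 = 1)
    (hC : ∀ i : Fin n, ∀ w ∈ gam n 1, q (C i w) = 1)

include hC in
theorem CC_ne {i l : Fin n} (hil : i ≠ l) {v : F n} (hv : v ∈ O i) (j : Fin n) :
    Commute (q (C l v)) (q (C i (x j))) := by
  have h1 := congrArg q (C_conj_C hil hv (x j))
  have h2 : q (C i (C l v (x j))) = q (C i (x j)) :=
    IA_x (q.comp (C i)) (fun w hw => hC i w hw) (IA_C l v) j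
  rw [h2, map_mul, map_mul, map_inv] at h1
  exact of_conj h1

include hT hC in
theorem CC (i j l k : Fin n) : Commute (q (C i (x j))) (q (C l (x k))) := by
  by_cases hil : i = l
  · subst hil
    exact commute_of (q.comp (C i)) (hC i _ (comm_mem (x j) (x k)))
  by_cases hki : k = i
  · subst hki
    by_cases hjl : j = l
    · subst hjl
      exact qbase q hT hil
    · exact CC_ne q hC (Ne.symm hil) (x_mem_O hjl) k
  · exact (CC_ne q hC hil (x_mem_O hki) j).symm

include hT hC in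
theorem CR (i j l a b : Fin n) : Commute (q (C i (x j))) (q (R l ⁅x a, x b⁆)) := by
  have hρ : ∀ w ∈ gam n 2, (q.comp (R l)) w = 1 := fun w hw => qR_gamma3 q hC l hw
  by_cases hli : l = i
  · subst hli
    have h1 := congrArg q (C_conj_R_same l ⁅x a, x b⁆ (x j))
    have h2 : q (R l (x j * ⁅x a, x b⁆ * (x j)⁻¹)) = q (R l ⁅x a, x b⁆) := by
      have h3 : Commute ((q.comp (R l)) ⁅x a, x b⁆) ((q.comp (R l)) (x j)) :=
        central (q.comp (R l)) hρ (comm_mem _ _) _
      have : (q.comp (R l)) (x j * ⁅x a, x b⁆ * (x j)⁻¹) = (q.comp (R l)) ⁅x a, x b⁆ := by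
        rw [map_mul, map_mul, map_inv, ← h3.eq, mul_inv_cancel_right]
      exact this
    rw [h2, map_mul, map_mul, map_inv] at h1
    exact of_conj h1
  by_cases hjl : j = l
  · subst hjl
    -- `j = l`
    have loop : ∀ b : Fin n, b ≠ i → Commute (q (C i (x j))) (q (R j ⁅x i, x b⁆)) := by
      intro b hbi
      by_cases hbj : b = j
      · subst hbj
        rw [← R_kill, map_commutatorElement (kill b), kill_self, commutatorElement_one_right,
          map_one, map_one]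
        exact Commute.one_right _
      have h1 := qloop q hT (Ne.symm hli) hbi hbj
      rw [hC j _ (comm_mem _ _), mul_one] at h1
      have h2 := of_conj h1
      have h3 : q (R j ⁅(x i)⁻¹, x b⁆) = (q (R j ⁅x i, x b⁆))⁻¹ :=
        he_inv_left (q.comp (R j)) (fun w => qR_cube q hT j w) (x i) (x b)
      rw [h3] at h2
      have h4 := h2.inv_left
      rw [inv_inv] at h4
      exact h4.symm
    by_cases hai : a = i
    · subst hai
      by_cases hba : b = a
      · subst hba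
        rw [commutatorElement_self, map_one, map_one]
        exact Commute.one_right _
      · exact loop b hba
    by_cases hbi : b = i
    · subst hbi
      rw [comm_inv a b, map_inv (R j), map_inv q]
      exact (loop a hai).inv_right
    · have hv : ⁅x a, x b⁆ ∈ O i := comm_mem_O (x_mem_O hai) (x_mem_O hbi)
      have h1 := congrArg q (R_conj_C (Ne.symm hli) hv (x j))
      have h2 : q (C i (R j ⁅x a, x b⁆ (x j))) = q (C i (x j)) :=
        IA_x (q.comp (C i)) (fun w hw => hC i w hw) (IA_R j (comm_mem _ _)) j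
      rw [h2, map_mul, map_mul, map_inv] at h1
      exact (of_conj h1).symm
  · have h1 := congrArg q (C_conj_R hli (x_mem_O hjl) ⁅x a, x b⁆)
    have h2 : q (R l (C i (x j) ⁅x a, x b⁆)) = q (R l ⁅x a, x b⁆) :=
      IA_comm (q.comp (R l)) hρ (IA_C i (x j)) a b
    rw [h2, map_mul, map_mul, map_inv] at h1
    exact of_conj h1

include hC in
theorem RR_of_mem {i l : Fin n} (hil : i ≠ l) {w' : F n} (h1' : w' ∈ gam n 1) (hw' : w' ∈ O i)
    (a b : Fin n) : Commute (q (R l w')) (q (R i ⁅x a, x b⁆)) := by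
  have hρ : ∀ w ∈ gam n 2, (q.comp (R i)) w = 1 := fun w hw => qR_gamma3 q hC i hw
  have h1 := congrArg q (R_conj_R hil hw' ⁅x a, x b⁆)
  have h2 : q (R i (R l w' ⁅x a, x b⁆)) = q (R i ⁅x a, x b⁆) :=
    IA_comm (q.comp (R i)) hρ (IA_R l h1') a b
  rw [h2, map_mul, map_mul, map_inv] at h1
  exact of_conj h1

include hT hC in
/-- the loop case -/
theorem RR_loop {i l b d : Fin n} (hil : i ≠ l) (hbi : b ≠ i) (hbl : b ≠ l) (hdi : d ≠ i) :
    Commute (q (R i ⁅x l, x b⁆)) (q (R l ⁅x i, x d⁆)) := by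
  have hρ : ∀ w ∈ gam n 2, (q.comp (R l)) w = 1 := fun w hw => qR_gamma3 q hC l hw
  have hPW : Commute (q (C i (x l))) (q (R l ⁅x i, x d⁆)) := CR q hT hC i l l i d
  have hPW' : Commute (q (C i (x l))) (q (R l ⁅x b, x d⁆)) := CR q hT hC i l l b d
  have hMW' : Commute (q (R l ⁅x b, x d⁆)) (q (R i ⁅x l, x b⁆)) :=
    RR_of_mem q hC hil (comm_mem _ _) (comm_mem_O (x_mem_O hbi) (x_mem_O hdi)) l b
  have hM : q (R i ⁅(x l)⁻¹, x b⁆) = (q (R i ⁅x l, x b⁆))⁻¹ :=
    he_inv_left (q.comp (R i)) (fun w => qR_cube q hT i w) (x l) (x b)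
  have k1 := congrArg q (R_conj_C_same i (x b) (x l))
  have k2 := congrArg q (R_conj_R (Ne.symm hil) (x_mem_O hbl) ⁅x i, x d⁆)
  rw [map_commutatorElement (R i (x b)), R_apply_self, R_apply_ne hdi, kill_ne hbi] at k2
  rw [map_mul, map_mul, map_inv, map_mul, hM] at k1
  rw [map_mul, map_mul, map_inv] at k2
  have k3 : q (R l ⁅x i * x b, x d⁆) = q (R l ⁅x i, x d⁆) * q (R l ⁅x b, x d⁆) := by
    have e : (⁅x i * x b, x d⁆ : F n) = (x i * ⁅x b, x d⁆ * (x i)⁻¹) * ⁅x i, x d⁆ := by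
      simp only [commutatorElement_def]; group
    have hc1 : Commute ((q.comp (R l)) ⁅x b, x d⁆) ((q.comp (R l)) (x i)) :=
      central (q.comp (R l)) hρ (comm_mem (x b) (x d)) _
    have hc2 : Commute ((q.comp (R l)) ⁅x b, x d⁆) ((q.comp (R l)) ⁅x i, x d⁆) :=
      central (q.comp (R l)) hρ (comm_mem (x b) (x d)) _
    have : (q.comp (R l)) ⁅x i * x b, x d⁆ =
        (q.comp (R l)) ⁅x i, x d⁆ * (q.comp (R l)) ⁅x b, x d⁆ := by
      rw [e, map_mul, map_mul, map_mul, map_inv, ← hc1.eq, mul_inv_cancel_right, hc2.eq]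
    exact this
  rw [k3] at k2
  have hconj : Commute (q (C i (x l)) * (q (R i ⁅x l, x b⁆))⁻¹)
      (q (R l ⁅x i, x d⁆) * q (R l ⁅x b, x d⁆)) := by
    rw [← k1, ← k2]
    exact (Commute.conj_iff _).mpr hPW
  have hMD'' := hMW'.symm.inv_left
  generalize q (C i (x l)) = P at *
  generalize q (R l ⁅x i, x d⁆) = D at *
  generalize q (R l ⁅x b, x d⁆) = D' at *
  generalize q (R i ⁅x l, x b⁆) = M at *
  have h5 : M⁻¹ * D * D' = D * M⁻¹ * D' := by
    have h6 := hconj.eq
    have h7 : D * D' * (P * M⁻¹) = P * (D * D' * M⁻¹) := by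
      rw [← mul_assoc, mul_assoc D D' P, ← hPW'.eq, ← mul_assoc D P D', ← hPW.eq]
      simp only [mul_assoc]
    rw [h7, mul_assoc, mul_left_cancel_iff] at h6
    rw [mul_assoc, h6, mul_assoc, mul_assoc, hMD''.eq]
  have h8 : Commute M⁻¹ D := mul_right_cancel h5
  have h9 := h8.inv_left
  rwa [inv_inv] at h9

include hT hC in
theorem RR (i a b l c d : Fin n) (hia : i ≠ a) (hib : i ≠ b) (hab : a ≠ b) (hlc : l ≠ c)
    (hld : l ≠ d) (hcd : c ≠ d) :
    Commute (q (R i ⁅x a, x b⁆)) (q (R l ⁅x c, x d⁆)) := by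
  by_cases hil : i = l
  · subst hil
    exact central (q.comp (R i)) (fun w hw => qR_gamma3 q hC i hw) (comm_mem (x a) (x b)) _
  by_cases hc : c = i
  · subst hc
    by_cases ha : a = l
    · subst ha
      exact RR_loop q hT hC hil hib.symm hab.symm hcd.symm
    by_cases hb : b = l
    · subst hb
      rw [comm_inv a b, map_inv (R c), map_inv q]
      exact (RR_loop q hT hC hil hia.symm hab hcd.symm).inv_left
    · exact RR_of_mem q hC (Ne.symm hil) (comm_mem _ _) (comm_mem_O (x_mem_O ha) (x_mem_O hb)) c d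
  by_cases hd : d = i
  · subst hd
    by_cases ha : a = l
    · subst ha
      rw [comm_inv c d, map_inv (R a), map_inv q]
      exact (RR_loop q hT hC hil hib.symm hab.symm hcd).inv_right
    by_cases hb : b = l
    · subst hb
      rw [comm_inv a b, map_inv (R d), map_inv q, comm_inv c d, map_inv (R b), map_inv q]
      exact (RR_loop q hT hC hil hia.symm hab hcd).inv_inv
    · exact RR_of_mem q hC (Ne.symm hil) (comm_mem _ _) (comm_mem_O (x_mem_O ha) (x_mem_O hb)) c d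
  · exact (RR_of_mem q hC hil (comm_mem _ _) (comm_mem_O (x_mem_O hc) (x_mem_O hd)) a b).symm

end main

end Lev1Aux

open Lev1Aux in
theorem lev1 (hT : ∀ i j : Fin n, i ≠ j → q (R i (x j)) ^ 3 = 1)
    (hC : ∀ i : Fin n, ∀ w ∈ gam n 1, q (C i w) = 1) {a b : A n} (ha : a ∈ J1 n)
    (hb : b ∈ J1 n) : Commute (q a) (q b) := by
  unfold J1 at ha hb
  induction ha using Subgroup.closure_induction with
  | mem g hg =>
    induction hb using Subgroup.closure_induction with
    | mem g' hg' =>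
      rcases hg with ⟨i, j, _, rfl⟩ | ⟨i, j, k, hij, hik, hjk, rfl⟩
      · rcases hg' with ⟨l, m, _, rfl⟩ | ⟨l, m, p, hlm, hlp, hmp, rfl⟩
        · exact CC q hT hC i j l m
        · exact CR q hT hC i j l m p
      · rcases hg' with ⟨l, m, _, rfl⟩ | ⟨l, m, p, hlm, hlp, hmp, rfl⟩
        · exact (CR q hT hC l m i j k).symm
        · exact RR q hT hC i j k l m p hij hik hjk hlm hlp hmp
    | one => rw [map_one]; exact Commute.one_right _
    | mul u v _ _ hu hv => rw [map_mul]; exact hu.mul_right hv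
    | inv u _ hu => rw [map_inv]; exact hu.inv_right
  | one => rw [map_one]; exact Commute.one_left _
  | mul u v _ _ hu hv => rw [map_mul]; exact hu.mul_left hv
  | inv u _ hu => rw [map_inv]; exact hu.inv_left

end Pool.Agent.CSP3
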