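import Pool.Agent.CSP3.Lev2
import Pool.Agent.CSP3.Lev2A
import Pool.Agent.CSP3.Lev1
import Pool.Agent.CSP3.NielsenTop

/-!
# Level 2, part C: `lev2_normal`
-/

set_option autoImplicit false

namespace Pool.Agent.CSP3

open scoped commutatorElement

variable {n : ℕ}

namespace Lev2C

open Lev2A

theorem gam_map (φ : A n) {m : ℕ} {w : F n} (hw : w ∈ gam n m) : φ w ∈ gam n m := by
  have h1 : φ.toMonoidHom w ∈ (gam n m).map φ.toMonoidHom := Subgroup.mem_map_of_mem _ hw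
  rw [Subgroup.map_lowerCentralSeries] at h1
  exact Subgroup.lowerCentralSeries_mono m le_top h1

theorem gam_conj {m : ℕ} {w : F n} (hw : w ∈ gam n m) (v : F n) : v * w * v⁻¹ ∈ gam n m :=
  (Subgroup.lowerCentralSeries_normal (⊤ : Subgroup (F n)) m).conj_mem w hw v

theorem gam_anti {w : F n} (hw : w ∈ gam n 2) : w ∈ gam n 1 :=
  (Subgroup.lowerCentralSeries_antitone (S := (⊤ : Subgroup (F n)))) (by norm_num : (1 : ℕ) ≤ 2) hw

theorem C_mem_J2 (i : Fin n) {w : F n} (hw : w ∈ gam n 1) : C i w ∈ J2 n :=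
  Subgroup.subset_closure (Or.inl ⟨i, w, hw, rfl⟩)

theorem R_mem_J2 (i : Fin n) {w : F n} (hw : w ∈ gam n 2) : R i w ∈ J2 n :=
  Subgroup.subset_closure (Or.inr ⟨i, w, hw, rfl⟩)

variable {Q : Type*} [Group Q] (q : A n →* Q)

/-- the subgroup for two indices -/
def N2 (i j : Fin n) : Subgroup Q :=
  Subgroup.closure ({g | ∃ w ∈ gam n 1, g = q (C i w)} ∪ {g | ∃ w ∈ gam n 1, g = q (C j w)} ∪
    {g | ∃ w ∈ gam n 2, g = q (R i w)} ∪ {g | ∃ w ∈ gam n 2, g = q (R j w)})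

theorem N2_Ci {i j : Fin n} {w : F n} (hw : w ∈ gam n 1) : q (C i w) ∈ N2 q i j :=
  Subgroup.subset_closure (Or.inl (Or.inl (Or.inl ⟨w, hw, rfl⟩)))

theorem N2_Cj {i j : Fin n} {w : F n} (hw : w ∈ gam n 1) : q (C j w) ∈ N2 q i j :=
  Subgroup.subset_closure (Or.inl (Or.inl (Or.inr ⟨w, hw, rfl⟩)))

theorem N2_Ri {i j : Fin n} {w : F n} (hw : w ∈ gam n 2) : q (R i w) ∈ N2 q i j :=
  Subgroup.subset_closure (Or.inl (Or.inr ⟨w, hw, rfl⟩))

theorem N2_Rj {i j : Fin n} {w : F n} (hw : w ∈ gam n 2) : q (R j w) ∈ N2 q i j :=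
  Subgroup.subset_closure (Or.inr ⟨w, hw, rfl⟩)

theorem N2_le (i j : Fin n) : N2 q i j ≤ (J2 n).map q := by
  refine (Subgroup.closure_le _).mpr ?_
  rintro g (((⟨w, hw, rfl⟩ | ⟨w, hw, rfl⟩) | ⟨w, hw, rfl⟩) | ⟨w, hw, rfl⟩)
  · exact Subgroup.mem_map_of_mem q (C_mem_J2 _ hw)
  · exact Subgroup.mem_map_of_mem q (C_mem_J2 _ hw)
  · exact Subgroup.mem_map_of_mem q (R_mem_J2 _ hw)
  · exact Subgroup.mem_map_of_mem q (R_mem_J2 _ hw)

/-- conjugation of a closure -/
theorem conj_closure {S : Set Q} {N : Subgroup Q} (e : Q) (h : ∀ s ∈ S, e * s * e⁻¹ ∈ N) {g : Q}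
    (hg : g ∈ Subgroup.closure S) : e * g * e⁻¹ ∈ N := by
  have : Subgroup.closure S ≤ N.comap (MulAut.conj e).toMonoidHom :=
    (Subgroup.closure_le _).mpr fun s hs => by
      show MulAut.conj e s ∈ N
      rw [MulAut.conj_apply]; exact h s hs
  have h2 := this hg
  rw [Subgroup.mem_comap] at h2
  have h3 : MulAut.conj e g ∈ N := h2
  rwa [MulAut.conj_apply] at h3

/-- conjugation of `N2 i j` by `R i (x p)`, `p ∉ {i, j}` -/
theorem N2_conj {i j p : Fin n} (hij : i ≠ j) (hpj : p ≠ j) {y : Q} (hy : y ∈ N2 q i j) :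
    q (R i (x p)) * y * (q (R i (x p)))⁻¹ ∈ N2 q i j := by
  refine conj_closure _ ?_ hy
  rintro s (((⟨w, hw, rfl⟩ | ⟨w, hw, rfl⟩) | ⟨w, hw, rfl⟩) | ⟨w, hw, rfl⟩)
  · rw [← map_inv, ← map_mul, ← map_mul, R_conj_C_same, map_mul]
    exact (N2 q i j).mul_mem (N2_Ci q hw)
      (N2_Ri q (comm_mem_gam2 ((gam n 1).inv_mem hw) _))
  · rw [← map_inv, ← map_mul, ← map_mul, R_conj_C hij.symm (x_mem_O hpj)]
    exact N2_Cj q (gam_map _ hw)
  · rw [← map_inv, ← map_mul, ← map_mul, ← map_inv, ← map_mul, ← map_mul]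
    exact N2_Ri q (gam_conj hw _)
  · rw [← map_inv, ← map_mul, ← map_mul, R_conj_R hij.symm (x_mem_O hpj)]
    exact N2_Rj q (gam_map _ hw)

/-- conjugation by the signs and permutations maps `J2` into itself -/
theorem J2_conj_of {g : A n} (h1 : ∀ i : Fin n, ∀ w ∈ gam n 1, g * C i w * g⁻¹ ∈ J2 n)
    (h2 : ∀ i : Fin n, ∀ w ∈ gam n 2, g * R i w * g⁻¹ ∈ J2 n) {y : A n} (hy : y ∈ J2 n) :
    g * y * g⁻¹ ∈ J2 n := by
  refine conj_closure (Q := A n) g ?_ hy
  rintro s (⟨i, w, hw, rfl⟩ | ⟨i, w, hw, rfl⟩)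
  · exact h1 i w hw
  · exact h2 i w hw

section main

variable (hn : 4 ≤ n) (hT : ∀ i j : Fin n, i ≠ j → q (R i (x j)) ^ 3 = 1)
    (hC : ∀ i : Fin n, ∀ w ∈ gam n 2, q (C i w) = 1)
include hn hT hC

/-- commutators of elements of `J1` centralise `J1` -/
theorem comm_central {a b c : A n} (ha : a ∈ J1 n) (hb : b ∈ J1 n) (hc : c ∈ J1 n) :
    Commute (q ⁅a, b⁆) (q c) := by
  classical
  -- the centraliser
  let Z : Subgroup (A n) :=
    { carrier := {α | ∀ g ∈ J1 n, Commute (q α) (q g)}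
      one_mem' := fun g _ => by rw [map_one]; exact Commute.one_left _
      mul_mem' := fun {u v} hu hv g hg => by rw [map_mul]; exact (hu g hg).mul_left (hv g hg)
      inv_mem' := fun {u} hu g hg => by rw [map_inv]; exact (hu g hg).inv_left }
  have hZn : Z.Normal := by
    refine ⟨fun u hu v g hg => ?_⟩
    have h1 : v⁻¹ * g * v ∈ J1 n := by
      have := (J1_normal (n := n)).conj_mem g hg v⁻¹
      rwa [inv_inv] at this
    have h2 := hu _ h1
    have h3 : q (v * u * v⁻¹) * q g * (q (v * u * v⁻¹))⁻¹ = q g := by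
      have e : q (v * u * v⁻¹) * q g * (q (v * u * v⁻¹))⁻¹ =
          q v * (q u * q (v⁻¹ * g * v) * (q u)⁻¹) * (q v)⁻¹ := by
        simp only [map_mul, map_inv]; group
      rw [e, h2.eq, mul_inv_cancel_right]
      simp only [map_mul, map_inv]; group
    exact mul_inv_eq_iff_eq_mul.mp h3
  let M : Subgroup (A n) := Subgroup.normalClosure {g | ∃ i : Fin n, ∃ w ∈ gam n 1, g = C i w}
  have hMZ : M ≤ Z := by
    refine Subgroup.normalClosure_le_normal ?_
    rintro g ⟨i, w, hw, rfl⟩ u hu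
    exact (lev2_comm q hn hT hC hu (C_mem_J2 i hw)).symm
  let K : Subgroup (A n) := M ⊔ q.ker
  have hMn : M.Normal := Subgroup.normalClosure_normal
  have hKn : K.Normal := Subgroup.sup_normal M q.ker
  have hT' : ∀ i j : Fin n, i ≠ j → (QuotientGroup.mk' K) (R i (x j)) ^ 3 = 1 := by
    intro i j hij
    rw [← map_pow]
    refine (QuotientGroup.eq_one_iff _).mpr ?_
    refine (le_sup_right : q.ker ≤ K) ?_
    rw [MonoidHom.mem_ker, map_pow, hT i j hij]
  have hC' : ∀ i : Fin n, ∀ w ∈ gam n 1, (QuotientGroup.mk' K) (C i w) = 1 := by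
    intro i w hw
    refine (QuotientGroup.eq_one_iff _).mpr ?_
    exact (le_sup_left : M ≤ K) (Subgroup.subset_normalClosure ⟨i, w, hw, rfl⟩)
  have h1 := lev1 (QuotientGroup.mk' K) hT' hC' ha hb
  have h2 : ⁅a, b⁆ ∈ K := by
    rw [← QuotientGroup.eq_one_iff (N := K)]
    show (QuotientGroup.mk' K) ⁅a, b⁆ = 1
    rw [map_commutatorElement]
    exact commutatorElement_eq_one_iff_commute.mpr h1
  obtain ⟨u, hu, v, hv, huv⟩ := Subgroup.mem_sup_of_normal_left.mp h2
  have h3 : q ⁅a, b⁆ = q u := by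
    rw [← huv, map_mul, (MonoidHom.mem_ker.mp hv), mul_one]
  rw [h3]
  exact hMZ hu c hc

/-- products in a group in which the commutators are central -/
theorem comm_prod {a b c d : A n} (ha : a ∈ J1 n) (hb : b ∈ J1 n) (hc : c ∈ J1 n)
    (hd : d ∈ J1 n) : q ⁅a * b, c * d⁆ = q ⁅a, c⁆ * q ⁅a, d⁆ * (q ⁅b, c⁆ * q ⁅b, d⁆) := by
  have e1 : ⁅a * b, c * d⁆ = a * ⁅b, c * d⁆ * a⁻¹ * ⁅a, c * d⁆ := by
    simp only [commutatorElement_def]; group
  have e2 : ∀ u : A n, ⁅u, c * d⁆ = ⁅u, c⁆ * (c * ⁅u, d⁆ * c⁻¹) := by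
    intro u; simp only [commutatorElement_def]; group
  have hcd : c * d ∈ J1 n := (J1 n).mul_mem hc hd
  have k1 : q (a * ⁅b, c * d⁆ * a⁻¹) = q ⁅b, c * d⁆ := by
    rw [map_mul, map_mul, ← (comm_central q hn hT hC hb hcd ha).eq, map_inv, mul_inv_cancel_right]
  have k2 : ∀ u ∈ J1 n, q (c * ⁅u, d⁆ * c⁻¹) = q ⁅u, d⁆ := by
    intro u hu
    rw [map_mul, map_mul, ← (comm_central q hn hT hC hu hd hc).eq, map_inv, mul_inv_cancel_right]
  have hcomm : ∀ u ∈ J1 n, ∀ v ∈ J1 n, ⁅u, v⁆ ∈ J1 n := by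
    intro u hu v hv
    rw [commutatorElement_def]
    exact (J1 n).mul_mem ((J1 n).mul_mem ((J1 n).mul_mem hu hv) ((J1 n).inv_mem hu))
      ((J1 n).inv_mem hv)
  have k4 : ∀ u ∈ J1 n, q ⁅u, c * d⁆ = q ⁅u, c⁆ * q ⁅u, d⁆ := by
    intro u hu
    rw [e2, map_mul, k2 u hu]
  rw [e1, map_mul, k1, k4 a ha, k4 b hb]
  have k3 : Commute (q ⁅b, c⁆ * q ⁅b, d⁆) (q ⁅a, c⁆ * q ⁅a, d⁆) := by
    rw [← map_mul q ⁅a, c⁆]
    exact (comm_central q hn hT hC hb hc
      ((J1 n).mul_mem (hcomm a ha c hc) (hcomm a ha d hd))).mul_left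
      (comm_central q hn hT hC hb hd ((J1 n).mul_mem (hcomm a ha c hc) (hcomm a ha d hd)))
  exact k3.eq

/-- the loop case with `w = ⁅x j, x k⁆` -/
theorem loop_jk {i j k : Fin n} (hij : i ≠ j) (hik : i ≠ k) (hjk : j ≠ k) :
    q (R j (x i)) * q (C i ⁅x j, x k⁆) * (q (R j (x i)))⁻¹ ∈ N2 q i j := by
  have e0 : R j (x i) * C i ⁅x j, x k⁆ * (R j (x i))⁻¹ =
      ⁅C j (x i) * C i (x j), C i (x k) * R j ⁅x k, x i⁆⁆ := by
    rw [← R_conj_C_loop' hij, ← R_conj_C_loop hij (x_mem_O hik.symm) (x_mem_O hjk.symm),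
      map_commutatorElement (C i)]
    simp only [commutatorElement_def]; group
  have m1 : C j (x i) ∈ J1 n := C_mem_J1 _ _
  have m2 : C i (x j) ∈ J1 n := C_mem_J1 _ _
  have m3 : C i (x k) ∈ J1 n := C_mem_J1 _ _
  have m4 : R j ⁅x k, x i⁆ ∈ J1 n := R_mem_J1 _ (comm_mem_gam1 _ _)
  rw [← map_inv, ← map_mul, ← map_mul, e0, comm_prod q hn hT hC m1 m2 m3 m4]
  have n1 : q ⁅C j (x i), C i (x k)⁆ ∈ N2 q i j := by
    have : ⁅C i (x k), C j (x i)⁆ = C j ⁅(x k)⁻¹, x i⁆ := by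
      have h1 := C_conj_C hij.symm (x_mem_O hjk.symm) (x i)
      rw [commutatorElement_def, h1, C_apply_self, kill_ne hik.symm, ← map_inv, ← map_mul,
        commutatorElement_def, inv_inv]
    rw [← commutatorElement_inv, this, map_inv]
    exact (N2 q i j).inv_mem (N2_Cj q (comm_mem_gam1 _ _))
  have n2 : q ⁅C j (x i), R j ⁅x k, x i⁆⁆ ∈ N2 q i j := by
    have : ⁅C j (x i), R j ⁅x k, x i⁆⁆ = R j ⁅x i, ⁅x k, x i⁆⁆ := by
      rw [commutatorElement_def, C_conj_R_same, ← map_inv, ← map_mul,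
        commutatorElement_def (x i) ⁅x k, x i⁆]
    rw [this]
    exact N2_Rj q (comm_mem_gam2' _ (comm_mem_gam1 _ _))
  have n3 : q ⁅C i (x j), C i (x k)⁆ ∈ N2 q i j := by
    rw [← map_commutatorElement (C i)]
    exact N2_Ci q (comm_mem_gam1 _ _)
  have n4 : q ⁅C i (x j), R j ⁅x k, x i⁆⁆ ∈ N2 q i j := by
    have h1 := qloop q hT hij hik.symm hjk.symm
    have h2 : q (R j ⁅(x i)⁻¹, x k⁆) = q (R j ⁅x k, x i⁆) := by
      have := he_inv_left (q.comp (R j)) (hR3 q hT j) (x i) (x k)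
      rw [← map_inv, commutatorElement_inv] at this
      exact this
    rw [h2] at h1
    have h3 : q ⁅C i (x j), R j ⁅x k, x i⁆⁆ =
        q (C i (x j)) * (q (C j ⁅(x i)⁻¹, (x k)⁻¹⁆))⁻¹ * (q (C i (x j)))⁻¹ := by
      have : q ⁅C i (x j), R j ⁅x k, x i⁆⁆ = q (C i (x j)) *
          (q (R j ⁅x k, x i⁆) * q (C i (x j)) * (q (R j ⁅x k, x i⁆))⁻¹)⁻¹ := by
        rw [map_commutatorElement, commutatorElement_def]; group
      rw [this, h1]; group
    have h4 : Commute (q (C i (x j))) (q (C j ⁅(x i)⁻¹, (x k)⁻¹⁆)) :=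
      lev2_comm q hn hT hC m2 (C_mem_J2 j (comm_mem_gam1 _ _))
    rw [h3, (h4.inv_right).eq, mul_inv_cancel_right]
    exact (N2 q i j).inv_mem (N2_Cj q (comm_mem_gam1 _ _))
  exact (N2 q i j).mul_mem ((N2 q i j).mul_mem n1 n2) ((N2 q i j).mul_mem n3 n4)

/-- the loop case for `C i w`, all `w ∈ γ_2` -/
theorem loop_C {i j : Fin n} (hij : i ≠ j) {w : F n} (hw : w ∈ gam n 1) :
    q (R j (x i)) * q (C i w) * (q (R j (x i)))⁻¹ ∈ N2 q i j := by
  have h1 := gen2 (q.comp (C i)) (fun w hw => hC i w hw) hw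
  refine conj_closure (q (R j (x i))) ?_ h1
  rintro s ⟨c, d, hcd, rfl⟩
  show q (R j (x i)) * q (C i ⁅x c, x d⁆) * (q (R j (x i)))⁻¹ ∈ N2 q i j
  by_cases hci : c = i
  · have : C i ⁅x c, x d⁆ = 1 := by
      rw [hci, map_commutatorElement, C_self, commutatorElement_one_left]
    rw [this, map_one, mul_one, mul_inv_cancel]; exact (N2 q i j).one_mem
  by_cases hdi : d = i
  · have : C i ⁅x c, x d⁆ = 1 := by
      rw [hdi, map_commutatorElement, C_self, commutatorElement_one_right]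
    rw [this, map_one, mul_one, mul_inv_cancel]; exact (N2 q i j).one_mem
  by_cases hcj : c = j
  · subst hcj
    exact loop_jk q hn hT hC hij (fun h => hdi h.symm) hcd.ne
  by_cases hdj : d = j
  · subst hdj
    have h2 := loop_jk q hn hT hC hij (fun h => hci h.symm) hcd.ne'
    have h3 : q (R d (x i)) * q (C i ⁅x c, x d⁆) * (q (R d (x i)))⁻¹ =
        (q (R d (x i)) * q (C i ⁅x d, x c⁆) * (q (R d (x i)))⁻¹)⁻¹ := by
      rw [← commutatorElement_inv (x d) (x c), map_inv, map_inv]; group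
    rw [h3]
    exact (N2 q i d).inv_mem h2
  · have h2 : q (R j (x i)) * q (C i ⁅x c, x d⁆) * (q (R j (x i)))⁻¹ =
        q (C i ⁅x c, x d⁆) * q (R j ⁅⁅x c, x d⁆, x i⁆) := by
      rw [← map_inv, ← map_mul, ← map_mul, R_conj_C_loop hij
        (comm_mem_O (x_mem_O hci) (x_mem_O hdi)) (comm_mem_O (x_mem_O hcj) (x_mem_O hdj)), map_mul]
    rw [h2]
    exact (N2 q i j).mul_mem (N2_Ci q (comm_mem_gam1 _ _))
      (N2_Rj q (comm_mem_gam2 (comm_mem_gam1 _ _) _))

/-- the loop case for `R i ⁅⁅x j, x k⁆, x p⁆` -/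
theorem loop_R {i j k p : Fin n} (hij : i ≠ j) (hik : i ≠ k) (hip : i ≠ p) (hjp : j ≠ p) :
    q (R j (x i)) * q (R i ⁅⁅x j, x k⁆, x p⁆) * (q (R j (x i)))⁻¹ ∈ N2 q i j := by
  set w : F n := ⁅x j, x k⁆ with hw
  have hw1 : w ∈ gam n 1 := comm_mem_gam1 _ _
  -- `R i ⁅w⁻¹, x p⁆ = (C i w)⁻¹ * (R i (x p) * C i w * (R i (x p))⁻¹)`
  have e1 : R i ⁅w⁻¹, x p⁆ = (C i w)⁻¹ * (R i (x p) * C i w * (R i (x p))⁻¹) := by
    rw [R_conj_C_same]; group
  have e2 : q (R i ⁅w, x p⁆) = (q (R i ⁅w⁻¹, x p⁆))⁻¹ := by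
    have := he_inv_left (q.comp (R i)) (hR3 q hT i) w (x p)
    have h2 : q (R i ⁅w⁻¹, x p⁆) = (q (R i ⁅w, x p⁆))⁻¹ := this
    rw [h2, inv_inv]
  -- `R j (x i) * R i (x p) = R i (x p) * R j (x i) * (R j (x p))⁻¹`
  have e3 : R j (x i) * R i (x p) = R i (x p) * R j (x i) * (R j (x p))⁻¹ := by
    have h1 := R_conj_R hij.symm ((O j).inv_mem (x_mem_O hjp.symm)) (x i) (v := (x p)⁻¹)
    have h2 : R i (x p)⁻¹ (x i) = x i * (x p)⁻¹ := by
      rw [R_apply_self, map_inv, kill_ne hip.symm]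
    rw [h2, map_inv, inv_inv, map_mul, map_inv] at h1
    calc R j (x i) * R i (x p) = R i (x p) * ((R i (x p))⁻¹ * R j (x i) * R i (x p)) := by group
      _ = _ := by rw [h1]; group
  have e4 : (R j (x p))⁻¹ * C i w * R j (x p) = C i (R j (x p)⁻¹ w) := by
    have h1 := R_conj_C hij ((O i).inv_mem (x_mem_O hip.symm)) w (v := (x p)⁻¹)
    rw [map_inv, inv_inv] at h1
    rw [h1, map_inv]
  have e5 : R j (x i) * R i ⁅w⁻¹, x p⁆ * (R j (x i))⁻¹ =
      (R j (x i) * C i w * (R j (x i))⁻¹)⁻¹ *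
        (R i (x p) * (R j (x i) * C i (R j (x p)⁻¹ w) * (R j (x i))⁻¹) * (R i (x p))⁻¹) := by
    rw [e1, ← e4]
    have : R j (x i) * ((C i w)⁻¹ * (R i (x p) * C i w * (R i (x p))⁻¹)) * (R j (x i))⁻¹ =
        (R j (x i) * C i w * (R j (x i))⁻¹)⁻¹ *
        ((R j (x i) * R i (x p)) * C i w * (R j (x i) * R i (x p))⁻¹) := by group
    rw [this, e3]
    group
  have h6 : q (R j (x i)) * q (R i ⁅w⁻¹, x p⁆) * (q (R j (x i)))⁻¹ ∈ N2 q i j := by
    rw [← map_inv, ← map_mul, ← map_mul, e5]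
    simp only [map_mul, map_inv]
    refine (N2 q i j).mul_mem ((N2 q i j).inv_mem (loop_C q hn hT hC hij hw1)) ?_
    have h7 := loop_C q hn hT hC hij (gam_map (R j (x p)⁻¹) hw1)
    have h8 := N2_conj q hij hjp.symm h7
    simp only [map_inv] at h8
    exact h8
  have h9 : q (R j (x i)) * q (R i ⁅w, x p⁆) * (q (R j (x i)))⁻¹ =
      (q (R j (x i)) * q (R i ⁅w⁻¹, x p⁆) * (q (R j (x i)))⁻¹)⁻¹ := by
    rw [e2]; group
  rw [h9]
  exact (N2 q i j).inv_mem h6

/-- conjugation by `R a (x b)` maps `q(J2)` into itself -/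
theorem R_conj_J2 {a b : Fin n} (hab : a ≠ b) {y : Q} (hy : y ∈ (J2 n).map q) :
    q (R a (x b)) * y * (q (R a (x b)))⁻¹ ∈ (J2 n).map q := by
  have hJ : (J2 n).map q = Subgroup.closure (q '' ({g | ∃ i : Fin n, ∃ w ∈ gam n 1, g = C i w} ∪
    {g | ∃ i : Fin n, ∃ w ∈ gam n 2, g = R i w})) := by
    rw [J2, MonoidHom.map_closure]
  have hy' := hy
  rw [hJ] at hy'
  refine conj_closure _ ?_ hy'
  rintro _ ⟨g, ⟨i, w, hw, rfl⟩ | ⟨i, w, hw, rfl⟩, rfl⟩
  · -- `C i w`
    by_cases hai : a = i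
    · subst hai
      rw [← map_inv, ← map_mul, ← map_mul, R_conj_C_same]
      exact Subgroup.mem_map_of_mem q ((J2 n).mul_mem (C_mem_J2 _ hw)
        (R_mem_J2 _ (comm_mem_gam2 ((gam n 1).inv_mem hw) _)))
    · by_cases hbi : b = i
      · subst hbi
        exact N2_le q _ _ (loop_C q hn hT hC hab.symm hw)
      · rw [← map_inv, ← map_mul, ← map_mul, R_conj_C (fun h => hai h.symm) (x_mem_O hbi)]
        exact Subgroup.mem_map_of_mem q (C_mem_J2 _ (gam_map _ hw))
  · -- `R i w`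
    by_cases hai : a = i
    · subst hai
      rw [← map_inv, ← map_mul, ← map_mul, ← map_inv, ← map_mul, ← map_mul]
      exact Subgroup.mem_map_of_mem q (R_mem_J2 _ (gam_conj hw _))
    · by_cases hbi : b = i
      · subst hbi
        have h1 := he_gen3 (q.comp (R b)) (hR3 q hT b) hw
        refine conj_closure (q (R a (x b))) ?_ h1
        rintro s ⟨j, k, l, hjk, hkl, rfl⟩
        show q (R a (x b)) * q (R b ⁅⁅x j, x k⁆, x l⁆) * (q (R a (x b)))⁻¹ ∈ (J2 n).map q
        -- trivial cases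
        by_cases hjb : j = b
        · have : R b ⁅⁅x j, x k⁆, x l⁆ = 1 := by
            rw [hjb, map_commutatorElement, map_commutatorElement, R_self,
              commutatorElement_one_left, commutatorElement_one_left]
          rw [this, map_one, mul_one, mul_inv_cancel]; exact Subgroup.one_mem _
        by_cases hkb : k = b
        · have : R b ⁅⁅x j, x k⁆, x l⁆ = 1 := by
            rw [hkb, map_commutatorElement, map_commutatorElement, R_self,
              commutatorElement_one_right, commutatorElement_one_left]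
          rw [this, map_one, mul_one, mul_inv_cancel]; exact Subgroup.one_mem _
        by_cases hlb : l = b
        · have : R b ⁅⁅x j, x k⁆, x l⁆ = 1 := by
            rw [hlb, map_commutatorElement, R_self, commutatorElement_one_right]
          rw [this, map_one, mul_one, mul_inv_cancel]; exact Subgroup.one_mem _
        have hjl : j ≠ l := (hjk.trans hkl).ne
        have cyc1 : q (R b ⁅⁅x j, x k⁆, x l⁆) = q (R b ⁅⁅x k, x l⁆, x j⁆) :=
          he_cyc (q.comp (R b)) (hR3 q hT b) _ _ _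
        have cyc2 : q (R b ⁅⁅x k, x l⁆, x j⁆) = q (R b ⁅⁅x l, x j⁆, x k⁆) :=
          he_cyc (q.comp (R b)) (hR3 q hT b) _ _ _
        by_cases hja : j = a
        · subst hja
          exact N2_le q _ _ (loop_R q hn hT hC (fun h => hjb h.symm) (fun h => hkb h.symm)
            (fun h => hlb h.symm) hjl)
        by_cases hka : k = a
        · subst hka
          rw [cyc1]
          exact N2_le q _ _ (loop_R q hn hT hC (fun h => hkb h.symm) (fun h => hlb h.symm)
            (fun h => hjb h.symm) hjk.ne')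
        by_cases hla : l = a
        · subst hla
          rw [cyc1, cyc2]
          exact N2_le q _ _ (loop_R q hn hT hC (fun h => hlb h.symm) (fun h => hjb h.symm)
            (fun h => hkb h.symm) hkl.ne')
        · have hO1 : ⁅⁅x j, x k⁆, x l⁆ ∈ O b :=
            comm_mem_O (comm_mem_O (x_mem_O hjb) (x_mem_O hkb)) (x_mem_O hlb)
          have hO2 : ⁅⁅x j, x k⁆, x l⁆ ∈ O a :=
            comm_mem_O (comm_mem_O (x_mem_O hja) (x_mem_O hka)) (x_mem_O hla)
          rw [← map_inv, ← map_mul, ← map_mul, R_conj_R_loop hab.symm hO1 hO2]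
          exact Subgroup.mem_map_of_mem q ((J2 n).mul_mem
            (R_mem_J2 _ (comm_mem_gam2 (comm_mem_gam1 _ _) _))
            (R_mem_J2 _ (gam_conj ((gam n 2).inv_mem (comm_mem_gam2 (comm_mem_gam1 _ _) _)) _)))
      · rw [← map_inv, ← map_mul, ← map_mul, R_conj_R (fun h => hai h.symm) (x_mem_O hbi)]
        exact Subgroup.mem_map_of_mem q (R_mem_J2 _ (gam_map _ hw))

/-- MODULE LEV2C -/
theorem lev2_normal (α : A n) {b : A n} (hb : b ∈ J2 n) :
    q (α * b * α⁻¹) ∈ (J2 n).map q := by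
  -- the subgroup of those `α` such that `α` and `α⁻¹` normalise
  let H : Subgroup (A n) :=
    { carrier := {α | ∀ y ∈ (J2 n).map q, q α * y * (q α)⁻¹ ∈ (J2 n).map q ∧
        (q α)⁻¹ * y * q α ∈ (J2 n).map q}
      one_mem' := fun y hy => by simpa using hy
      mul_mem' := fun {u v} hu hv y hy => by
        constructor
        · have : q (u * v) * y * (q (u * v))⁻¹ = q u * (q v * y * (q v)⁻¹) * (q u)⁻¹ := by
            rw [map_mul]; group
          rw [this]; exact (hu _ (hv _ hy).1).1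
        · have : (q (u * v))⁻¹ * y * q (u * v) = (q v)⁻¹ * ((q u)⁻¹ * y * q u) * q v := by
            rw [map_mul]; group
          rw [this]; exact (hv _ (hu _ hy).2).2
      inv_mem' := fun {u} hu y hy => by
        constructor
        · rw [map_inv, inv_inv]; exact (hu y hy).2
        · rw [map_inv, inv_inv]; exact (hu y hy).1 }
  have hRm : ∀ i j : Fin n, i ≠ j → R i (x j) ∈ H := by
    intro i j hij y hy
    refine ⟨R_conj_J2 q hn hT hC hij hy, ?_⟩
    have h3 := hT i j hij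
    have h1 := R_conj_J2 q hn hT hC hij (R_conj_J2 q hn hT hC hij hy)
    generalize q (R i (x j)) = r at h3 h1
    have e : r⁻¹ = r * r := by rw [inv_eq_iff_mul_eq_one, ← h3, pow_three]
    have e2 : r⁻¹ * y * r = r * (r * y * r⁻¹) * r⁻¹ := by
      have : r = (r * r)⁻¹ := by rw [← e, inv_inv]
      calc r⁻¹ * y * r = (r * r) * y * (r * r)⁻¹ := by rw [← e, inv_inv]
        _ = _ := by group
    rw [e2]; exact h1
  have hCm : ∀ i : Fin n, ∀ w : F n, C i w ∈ H := by
    intro i w y hy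
    obtain ⟨b, hb, rfl⟩ := hy
    have h1 : Commute (q (C i w)) (q b) := lev2_comm q hn hT hC (C_mem_J1 i w) hb
    refine ⟨?_, ?_⟩
    · rw [h1.eq, mul_inv_cancel_right]; exact Subgroup.mem_map_of_mem q hb
    · rw [mul_assoc, ← h1.eq, inv_mul_cancel_left]; exact Subgroup.mem_map_of_mem q hb
  have hLm : ∀ i j : Fin n, i ≠ j → L i (x j) ∈ H := by
    intro i j hij
    rw [L_eq]
    exact H.mul_mem (hCm i _) (H.inv_mem (hRm i j hij))
  have invol : ∀ g : A n, (∀ y ∈ J2 n, g * y * g⁻¹ ∈ J2 n) →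
      (∀ y ∈ J2 n, g⁻¹ * y * g ∈ J2 n) → g ∈ H := by
    rintro g h1 h2 _ ⟨b, hb, rfl⟩
    refine ⟨?_, ?_⟩
    · rw [← map_inv, ← map_mul, ← map_mul]; exact Subgroup.mem_map_of_mem q (h1 b hb)
    · rw [← map_inv, ← map_mul, ← map_mul]; exact Subgroup.mem_map_of_mem q (h2 b hb)
  have hsg : ∀ i : Fin n, ∀ y ∈ J2 n, (sg i : A n) * y * (sg i)⁻¹ ∈ J2 n := by
    intro i y hy
    refine J2_conj_of ?_ ?_ hy
    · intro k w hw
      by_cases hk : k = i
      · subst hk; rw [sg_conj_C_same]; exact C_mem_J2 _ hw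
      · rw [C_def, sg_conj_tv hk, ← C_def]; exact C_mem_J2 _ (gam_map _ hw)
    · intro k w hw
      by_cases hk : k = i
      · subst hk; rw [sg_conj_R_same, L_eq]
        exact (J2 n).mul_mem (C_mem_J2 _ (gam_anti hw)) ((J2 n).inv_mem (R_mem_J2 _ hw))
      · rw [R_def, sg_conj_tv hk, map_one, ← R_def]; exact R_mem_J2 _ (gam_map _ hw)
  have hpm : ∀ σ : Equiv.Perm (Fin n), ∀ y ∈ J2 n, (pm σ : A n) * y * (pm σ)⁻¹ ∈ J2 n := by
    intro σ y hy
    refine J2_conj_of ?_ ?_ hy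
    · intro k w hw
      rw [pm_conj_C]; exact C_mem_J2 _ (gam_map _ hw)
    · intro k w hw
      rw [pm_conj_R]; exact R_mem_J2 _ (gam_map _ hw)
  have htop : H = ⊤ := by
    refine nielsen_top H ?_ ?_ ?_ ?_
    · intro i j hij ν h1 h2
      have : ν = R i (x j) := by
        refine A_ext fun k => ?_
        by_cases hk : k = i
        · subst hk; rw [R_apply_self, kill_ne hij.symm]; exact h1
        · rw [R_apply_ne hk]; exact h2 k hk
      rw [this]; exact hRm i j hij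
    · intro i j hij ν h1 h2
      have : ν = (L i (x j))⁻¹ := by
        rw [← map_inv]
        refine A_ext fun k => ?_
        by_cases hk : k = i
        · subst hk
          rw [L_def, tv_self, map_inv, kill_ne hij.symm, map_one, mul_one, inv_inv]; exact h1
        · rw [L_def, tv_ne hk]; exact h2 k hk
      rw [this]; exact H.inv_mem (hLm i j hij)
    · intro i ν h1 h2
      have : ν = sg i := by
        refine A_ext fun k => ?_
        by_cases hk : k = i
        · subst hk; rw [sg_self]; exact h1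
        · rw [sg_ne hk]; exact h2 k hk
      rw [this]
      refine invol _ (hsg i) fun y hy => ?_
      have := hsg i y hy
      rwa [sg_inv] at this ⊢
    · intro i j hij ν h1 h2 h3
      have : ν = pm (Equiv.swap i j) := by
        refine A_ext fun k => ?_
        rw [pm_x]
        by_cases hk : k = i
        · subst hk; rw [Equiv.swap_apply_left]; exact h1
        · by_cases hk' : k = j
          · subst hk'; rw [Equiv.swap_apply_right]; exact h2
          · rw [Equiv.swap_apply_of_ne_of_ne hk hk']; exact h3 k hk hk'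
      rw [this]
      refine invol _ (hpm _) fun y hy => ?_
      have := hpm (Equiv.swap i j)⁻¹ y hy
      rwa [← pm_inv, inv_inv] at this
  have hα : α ∈ H := htop ▸ Subgroup.mem_top α
  have := (hα (q b) (Subgroup.mem_map_of_mem q hb)).1
  rwa [← map_inv, ← map_mul, ← map_mul] at this

end main

end Lev2C

end Pool.Agent.CSP3
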