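import Pool.Agent.CSP3.Rel
import Pool.Agent.CSP3.ExpHom
import Pool.Agent.CSP3.IA
import Pool.Agent.CSP3.NielsenTop

/-!
# Level 3 (MODULE LEV3)

`q (R i w) = q (C i w) = 1` for `w ∈ γ_4` (`he_gamma4`, `qR_cube`, `qC_cube`).

(1) `lev3_eq`: for `w ∈ γ_3` without `x_i`, `x_l`: `q (C i w) = q (C l w)`.  `C i w` commutes in `Q`
 with `R l (x i)` (`R_conj_C_loop`: `C i w * R l ⁅w, x i⁆`, `⁅w, x i⁆ ∈ γ_4`), with `R i (x l)`
 (`R_conj_C_same`), with `C l (x i)` (`C i w * C l (x i) * (C i w)⁻¹ = C l (w⁻¹ * x i * w)`) and with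
 `C i (x l)`, hence with the `L`'s (`L_eq`).  The automorphism `s : x i ↦ x l, x l ↦ (x i)⁻¹`
 (others fixed) is a product of `R i (x l)^±1, R l (x i)^±1, L ..^±1`, and
 `s * C i w * s⁻¹ = C l w`.
(2) `5 ≤ n`.  Let `z = ⁅⁅x j, x k⁆, x m⁆` (distinct).  `P z := q (C l z)` does not depend on
 `l ∉ {j, k, m}`; there are at least two choices of `l`.  By `he_gen3` the image of `J3` is
 generated by such elements.  Conjugation by `R a (x b)`: choose `l ∉ {j, k, m}`, `l ≠ b`.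
 `a = l`: `C l z * R l ⁅z⁻¹, x b⁆ = C l z`; `a ≠ l`: `C l (R a (x b) z)`: fixed if `a ∉ {j, k, m}`;
 if `a ∈ {j, k, m}` it is `C l z * C l z'` with `z'` obtained from `z` by replacing `x a` by `x b`
 (trivial if `b ∈ {j, k, m}`), mod `γ_4`.  `C a (x b)`: `C l (C a (x b) z) = C l z` for a choice
 `l ≠ b` (`a = l`: `C l ⁅x b, z⁆`).  So `C a (x b)` commutes with `P z`, and `⁅R a (x b), R a (x c)⁆ =
 R a ⁅x b, x c⁆` too, since `R a (x b)`, `R a (x c)` act on the `P z` by commuting maps.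
 `sg`, `pm`: clear (`sg_conj_tv`, `sg_conj_C_same`, `pm_conj_C`). -/

set_option autoImplicit false

namespace Pool.Agent.CSP3

open scoped commutatorElement

variable {n : ℕ}

/-- generated by `C i w`, `w ∈ γ_3` -/
def J3 (n : ℕ) : Subgroup (A n) :=
  Subgroup.closure {g | ∃ i : Fin n, ∃ w ∈ gam n 2, g = C i w}

namespace Lev3Aux

theorem gam_succ {k : ℕ} {u : F n} (hu : u ∈ gam n k) (v : F n) :
    ⁅u, v⁆ ∈ gam n (k + 1) := by
  show ⁅u, v⁆ ∈ (⊤ : Subgroup (F n)).lowerCentralSeries (k + 1)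
  rw [Subgroup.lowerCentralSeries_succ]
  exact Subgroup.commutator_mem_commutator hu (Subgroup.mem_top v)

theorem gam_succ' {k : ℕ} (u : F n) {v : F n} (hv : v ∈ gam n k) :
    ⁅u, v⁆ ∈ gam n (k + 1) := by
  rw [← commutatorElement_inv]
  exact Subgroup.inv_mem _ (gam_succ hv u)

theorem comm_mem (u v : F n) : ⁅u, v⁆ ∈ gam n 1 := by
  refine gam_succ ?_ v
  show u ∈ (⊤ : Subgroup (F n)).lowerCentralSeries 0
  rw [Subgroup.lowerCentralSeries_zero]
  exact Subgroup.mem_top u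

theorem comm3_mem (u v w : F n) : ⁅⁅u, v⁆, w⁆ ∈ gam n 2 := gam_succ (comm_mem u v) w

theorem gam_map (φ : A n) {m : ℕ} {w : F n} (hw : w ∈ gam n m) : φ w ∈ gam n m := by
  have h1 : φ.toMonoidHom w ∈ (gam n m).map φ.toMonoidHom := Subgroup.mem_map_of_mem _ hw
  rw [Subgroup.map_lowerCentralSeries] at h1
  exact Subgroup.lowerCentralSeries_mono m le_top h1

theorem kill_mem_gam (a : Fin n) {v : F n} (hv : v ∈ gam n 1) : kill a v ∈ gam n 1 := by
  have h := Subgroup.mem_map_of_mem (kill a) hv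
  rw [Subgroup.map_lowerCentralSeries] at h
  exact Subgroup.lowerCentralSeries_mono 1 le_top h

theorem of_conj {G : Type*} [Group G] {g d : G} (h : g * d * g⁻¹ = d) :
    Commute g d := mul_inv_eq_iff_eq_mul.mp h

/-- an automorphism which is the identity modulo `γ_2` -/
def IA (φ : A n) : Prop := ∀ j, ∃ u ∈ gam n 1, φ (x j) = x j * u

theorem IA_C (a : Fin n) (v : F n) : IA (C a v) := by
  intro j
  by_cases hj : j = a
  · subst hj
    refine ⟨⁅(x j)⁻¹, (kill j v)⁻¹⁆, comm_mem _ _, ?_⟩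
    rw [C_apply_self, commutatorElement_def]
    group
  · exact ⟨1, Subgroup.one_mem _, by rw [C_apply_ne hj, mul_one]⟩

theorem IA_R (a : Fin n) {v : F n} (hv : v ∈ gam n 1) : IA (R a v) := by
  intro j
  by_cases hj : j = a
  · subst hj
    exact ⟨kill j v, kill_mem_gam j hv, R_apply_self j v⟩
  · exact ⟨1, Subgroup.one_mem _, by rw [R_apply_ne hj, mul_one]⟩

section he

variable {G : Type*} [Group G] (ρ : F n →* G) (h : ∀ w, ρ w ^ 3 = 1)
include h

theorem he_add_first (a b c d : F n) :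
    ρ ⁅⁅a * b, c⁆, d⁆ = ρ ⁅⁅a, c⁆, d⁆ * ρ ⁅⁅b, c⁆, d⁆ := by
  have := exp3_add_first (range_exp3 ρ h) (ρ.rangeRestrict a) (ρ.rangeRestrict b)
    (ρ.rangeRestrict c) (ρ.rangeRestrict d)
  simp only [← map_commutatorElement, ← map_mul] at this
  rw [← map_mul ρ]
  exact congrArg Subtype.val this

theorem he_add_mid (a b c d : F n) :
    ρ ⁅⁅a, b * c⁆, d⁆ = ρ ⁅⁅a, b⁆, d⁆ * ρ ⁅⁅a, c⁆, d⁆ := by
  have := exp3_add_mid (range_exp3 ρ h) (ρ.rangeRestrict a) (ρ.rangeRestrict b)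
    (ρ.rangeRestrict c) (ρ.rangeRestrict d)
  simp only [← map_commutatorElement, ← map_mul] at this
  rw [← map_mul ρ]
  exact congrArg Subtype.val this

theorem he_add_last (a b c d : F n) :
    ρ ⁅⁅a, b⁆, c * d⁆ = ρ ⁅⁅a, b⁆, c⁆ * ρ ⁅⁅a, b⁆, d⁆ := by
  have := exp3_add_last (range_exp3 ρ h) (ρ.rangeRestrict a) (ρ.rangeRestrict b)
    (ρ.rangeRestrict c) (ρ.rangeRestrict d)
  simp only [← map_commutatorElement, ← map_mul] at this
  rw [← map_mul ρ]
  exact congrArg Subtype.val this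

theorem he_class3 (a b c : F n) {u v w : F n} (hu : u ∈ gam n 1) (hv : v ∈ gam n 1)
    (hw : w ∈ gam n 1) : ρ ⁅⁅a * u, b * v⁆, c * w⁆ = ρ ⁅⁅a, b⁆, c⁆ := by
  rw [he_add_first ρ h, he_add_mid ρ h a, he_add_last ρ h a b,
    he_gamma4 ρ h (gam_succ (gam_succ hu (b * v)) (c * w)),
    he_gamma4 ρ h (gam_succ (gam_succ' a hv) (c * w)), mul_one, mul_one, he_cyc ρ h a b w,
    he_gamma4 ρ h (gam_succ (gam_succ' b hw) a), mul_one]

theorem IA_comm3 {φ : A n} (hφ : IA φ) (j k m : Fin n) :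
    ρ (φ ⁅⁅x j, x k⁆, x m⁆) = ρ ⁅⁅x j, x k⁆, x m⁆ := by
  obtain ⟨u, hu, eu⟩ := hφ j
  obtain ⟨v, hv, ev⟩ := hφ k
  obtain ⟨w, hw, ew⟩ := hφ m
  rw [map_commutatorElement φ, map_commutatorElement φ, eu, ev, ew]
  exact he_class3 ρ h (x j) (x k) (x m) hu hv hw

end he

theorem exists_new (s : Finset (Fin n)) (h : s.card < n) : ∃ l, l ∉ s := by
  by_contra hcon
  push Not at hcon
  have : s = Finset.univ := Finset.eq_univ_iff_forall.mpr hcon
  rw [this, Finset.card_univ, Fintype.card_fin] at h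
  exact lt_irrefl _ h

theorem exists_four (hn : 5 ≤ n) (j k m b : Fin n) : ∃ l, l ≠ j ∧ l ≠ k ∧ l ≠ m ∧ l ≠ b := by
  obtain ⟨l, hl⟩ := exists_new {j, k, m, b} (lt_of_le_of_lt Finset.card_le_four (by omega))
  simp only [Finset.mem_insert, Finset.mem_singleton, not_or] at hl
  exact ⟨l, hl.1, hl.2.1, hl.2.2.1, hl.2.2.2⟩

/-- the automorphism `x i ↦ x l, x l ↦ (x i)⁻¹` -/
def sw (i l : Fin n) : A n := R i (x l) * (R l (x i))⁻¹ * (L i (x l))⁻¹

theorem sw_i {i l : Fin n} (h : i ≠ l) : sw i l (x i) = x l := by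
  show R i (x l) ((R l (x i))⁻¹ ((L i (x l))⁻¹ (x i))) = x l
  have e1 : (L i (x l))⁻¹ = L i (x l)⁻¹ := (map_inv _ _).symm
  have e2 : (R l (x i))⁻¹ = R l (x i)⁻¹ := (map_inv _ _).symm
  rw [e1, e2, L_def, tv_self, map_inv (kill i), kill_ne h.symm, inv_inv, map_one, mul_one,
    map_mul, R_apply_self, R_apply_ne h, map_inv (kill l), kill_ne h, inv_mul_cancel_right,
    R_apply_ne h.symm]

theorem sw_l {i l : Fin n} (h : i ≠ l) : sw i l (x l) = (x i)⁻¹ := by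
  show R i (x l) ((R l (x i))⁻¹ ((L i (x l))⁻¹ (x l))) = (x i)⁻¹
  have e1 : (L i (x l))⁻¹ = L i (x l)⁻¹ := (map_inv _ _).symm
  have e2 : (R l (x i))⁻¹ = R l (x i)⁻¹ := (map_inv _ _).symm
  rw [e1, e2, L_def, tv_ne h.symm, R_apply_self, map_inv (kill l), kill_ne h, map_mul,
    map_inv (R i (x l)), R_apply_ne h.symm, R_apply_self, kill_ne h.symm]
  group

theorem sw_ne {i l k : Fin n} (hi : k ≠ i) (hl : k ≠ l) : sw i l (x k) = x k := by
  show R i (x l) ((R l (x i))⁻¹ ((L i (x l))⁻¹ (x k))) = x k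
  have e1 : (L i (x l))⁻¹ = L i (x l)⁻¹ := (map_inv _ _).symm
  have e2 : (R l (x i))⁻¹ = R l (x i)⁻¹ := (map_inv _ _).symm
  rw [e1, e2, L_def, tv_ne hi, R_apply_ne hl, R_apply_ne hi]

theorem sw_of_mem {i l : Fin n} {w : F n} (hi : w ∈ O i) (hl : w ∈ O l) : sw i l w = w := by
  show R i (x l) ((R l (x i))⁻¹ ((L i (x l))⁻¹ w)) = w
  have e1 : (L i (x l))⁻¹ = L i (x l)⁻¹ := (map_inv _ _).symm
  have e2 : (R l (x i))⁻¹ = R l (x i)⁻¹ := (map_inv _ _).symm
  rw [e1, e2, L_def, tv_of_mem hi, R_apply_of_mem hl, R_apply_of_mem hi]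

theorem sw_conj {i l : Fin n} (h : i ≠ l) {w : F n} (hi : w ∈ O i) (hl : w ∈ O l) :
    sw i l * C i w * (sw i l)⁻¹ = C l w := by
  rw [mul_inv_eq_iff_eq_mul]
  refine A_ext fun k => ?_
  show sw i l (C i w (x k)) = C l w (sw i l (x k))
  by_cases hki : k = i
  · subst hki
    rw [C_apply_self, kill_of_mem hi, map_mul, map_mul, map_inv, sw_of_mem hi hl, sw_i h,
      C_apply_self, kill_of_mem hl]
  · by_cases hkl : k = l
    · subst hkl
      rw [C_apply_ne h.symm, sw_l h, map_inv, C_apply_ne h]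
    · rw [C_apply_ne hki, sw_ne hki hkl, C_apply_ne hkl]

end Lev3Aux

open Lev3Aux

variable {Q : Type*} [Group Q] (q : A n →* Q)

theorem lev3_eq (hT : ∀ i j : Fin n, i ≠ j → q (R i (x j)) ^ 3 = 1) {i l : Fin n} (h : i ≠ l)
    {w : F n} (hw : w ∈ gam n 2) (hi : w ∈ O i) (hl : w ∈ O l) : q (C i w) = q (C l w) := by
  have kR : ∀ a : Fin n, ∀ z ∈ gam n 3, q (R a z) = 1 := fun a z hz =>
    he_gamma4 (q.comp (R a)) (fun w => qR_cube q hT a w) hz
  have c1 : Commute (q (R l (x i))) (q (C i w)) := by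
    have h1 := congrArg q (R_conj_C_loop h hi hl)
    rw [map_mul, map_mul, map_inv, map_mul, kR l _ (gam_succ hw _), mul_one] at h1
    exact of_conj h1
  have c2 : Commute (q (R i (x l))) (q (C i w)) := by
    have h1 := congrArg q (R_conj_C_same i (x l) w)
    rw [map_mul, map_mul, map_inv, map_mul, kR i _ (gam_succ (Subgroup.inv_mem _ hw) _),
      mul_one] at h1
    exact of_conj h1
  have c4 : Commute (q (C i (x l))) (q (C i w)) :=
    (he_gam3 (q.comp (C i)) (fun w => qC_cube q hT i w) hw (x l)).symm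
  have c5 : Commute (q (L i (x l))) (q (C i w)) := by
    rw [L_eq, map_mul, map_inv]
    exact c4.mul_left c2.inv_left
  have c6 : Commute (q (sw i l)) (q (C i w)) := by
    unfold sw
    rw [map_mul, map_mul, map_inv, map_inv]
    exact (c2.mul_left c1.inv_left).mul_left c5.inv_left
  rw [← sw_conj h hi hl, map_mul, map_mul, map_inv, c6.eq, mul_inv_cancel_right]

namespace Lev3Aux

theorem C_triv {i j k m : Fin n} (h : i = j ∨ i = k ∨ i = m) :
    C i ⁅⁅x j, x k⁆, x m⁆ = 1 := by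
  rcases h with rfl | rfl | rfl
  · rw [map_commutatorElement, map_commutatorElement, C_self, commutatorElement_one_left,
      commutatorElement_one_left]
  · rw [map_commutatorElement, map_commutatorElement, C_self, commutatorElement_one_right,
      commutatorElement_one_left]
  · rw [map_commutatorElement, C_self, commutatorElement_one_right]

theorem z_mem_O {i j k m : Fin n} (hj : j ≠ i) (hk : k ≠ i) (hm : m ≠ i) :
    ⁅⁅x j, x k⁆, x m⁆ ∈ O i :=
  comm_mem_O (comm_mem_O (x_mem_O hj) (x_mem_O hk)) (x_mem_O hm)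

/-- membership in the closure: commuting -/
theorem commute_closure {G : Type*} [Group G] {g : G} {S : Set G}
    (h : ∀ s ∈ S, Commute g s) {z : G} (hz : z ∈ Subgroup.closure S) : Commute g z := by
  induction hz using Subgroup.closure_induction with
  | mem x hx => exact h x hx
  | one => exact Commute.one_right g
  | mul a b _ _ ha hb => exact ha.mul_right hb
  | inv a _ ha => exact ha.inv_right

section main

variable (hT : ∀ i j : Fin n, i ≠ j → q (R i (x j)) ^ 3 = 1)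
include hT

theorem P_eq {i l j k m : Fin n} (hij : i ≠ j) (hik : i ≠ k) (him : i ≠ m) (hlj : l ≠ j)
    (hlk : l ≠ k) (hlm : l ≠ m) :
    q (C i ⁅⁅x j, x k⁆, x m⁆) = q (C l ⁅⁅x j, x k⁆, x m⁆) := by
  by_cases hil : i = l
  · rw [hil]
  · exact lev3_eq q hT hil (comm3_mem _ _ _) (z_mem_O hij.symm hik.symm him.symm)
      (z_mem_O hlj.symm hlk.symm hlm.symm)

/-- conjugation by an IA automorphism of the form `R a v`, `C a v` with `v` free of `x l` -/
theorem C_P (hn : 5 ≤ n) {i j k m : Fin n} (hij : i ≠ j) (hik : i ≠ k) (him : i ≠ m) (a b : Fin n) :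
    Commute (q (C a (x b))) (q (C i ⁅⁅x j, x k⁆, x m⁆)) := by
  obtain ⟨l, hlj, hlk, hlm, hlb⟩ := exists_four hn j k m b
  rw [P_eq q hT hij hik him hlj hlk hlm]
  have h3 : ∀ w, (q.comp (C l)) w ^ 3 = 1 := fun w => qC_cube q hT l w
  by_cases hal : a = l
  · subst hal
    exact (he_gam3 (q.comp (C a)) h3 (comm3_mem _ _ _) (x b)).symm
  · have h1 := congrArg q (C_conj_C (Ne.symm hal) (x_mem_O hlb.symm) ⁅⁅x j, x k⁆, x m⁆)
    have h2 : q (C l (C a (x b) ⁅⁅x j, x k⁆, x m⁆)) = q (C l ⁅⁅x j, x k⁆, x m⁆) :=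
      IA_comm3 (q.comp (C l)) h3 (IA_C a (x b)) j k m
    rw [h2, map_mul, map_mul, map_inv] at h1
    exact of_conj h1

/-- `R a ⁅x b, x c⁆` with a free index `l` -/
theorem R_P_free {i j k m l : Fin n} (hij : i ≠ j) (hik : i ≠ k) (him : i ≠ m) (a b c : Fin n)
    (hlj : l ≠ j) (hlk : l ≠ k) (hlm : l ≠ m) (hlb : l ≠ b) (hlc : l ≠ c) :
    Commute (q (R a ⁅x b, x c⁆)) (q (C i ⁅⁅x j, x k⁆, x m⁆)) := by
  rw [P_eq q hT hij hik him hlj hlk hlm]
  have h3 : ∀ w, (q.comp (C l)) w ^ 3 = 1 := fun w => qC_cube q hT l w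
  by_cases hal : a = l
  · subst hal
    have h1 := congrArg q (R_conj_C_same a ⁅x b, x c⁆ ⁅⁅x j, x k⁆, x m⁆)
    have h2 : q (R a ⁅⁅⁅x j, x k⁆, x m⁆⁻¹, ⁅x b, x c⁆⁆) = 1 :=
      he_gamma4 (q.comp (R a)) (fun w => qR_cube q hT a w)
        (gam_succ (Subgroup.inv_mem _ (comm3_mem _ _ _)) _)
    rw [map_mul, map_mul, map_inv, map_mul, h2, mul_one] at h1
    exact of_conj h1
  · have h1 := congrArg q (R_conj_C (Ne.symm hal)
      (comm_mem_O (x_mem_O hlb.symm) (x_mem_O hlc.symm)) ⁅⁅x j, x k⁆, x m⁆)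
    have h2 : q (C l (R a ⁅x b, x c⁆ ⁅⁅x j, x k⁆, x m⁆)) = q (C l ⁅⁅x j, x k⁆, x m⁆) :=
      IA_comm3 (q.comp (C l)) h3 (IA_R a (comm_mem _ _)) j k m
    rw [h2, map_mul, map_mul, map_inv] at h1
    exact of_conj h1

/-- conjugation by `R j (x b)` of `P ⁅⁅x j, x k⁆, x m⁆` -/
theorem R_act {j k m b c : Fin n} (hkj : k ≠ j) (hmj : m ≠ j) (hbj : b ≠ j)
    (hcj : c ≠ j) (hcb : c ≠ b) :
    q (R j (x b)) * q (C c ⁅⁅x j, x k⁆, x m⁆) * (q (R j (x b)))⁻¹ =
      q (C c ⁅⁅x j, x k⁆, x m⁆) * q (C c ⁅⁅x b, x k⁆, x m⁆) := by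
  have h3 : ∀ w, (q.comp (C c)) w ^ 3 = 1 := fun w => qC_cube q hT c w
  have h1 := congrArg q (R_conj_C hcj (x_mem_O hcb.symm) ⁅⁅x j, x k⁆, x m⁆)
  rw [map_commutatorElement (R j (x b)), map_commutatorElement (R j (x b)), R_apply_self,
    R_apply_ne hkj, R_apply_ne hmj, kill_ne hbj] at h1
  rw [map_mul, map_mul, map_inv] at h1
  rw [h1]
  exact he_add_first (q.comp (C c)) h3 (x j) (x b) (x k) (x m)

/-- `R j (x b)` commutes with `C j z` -/
theorem R_fix (j b : Fin n) {z : F n} (hz : z ∈ gam n 2) :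
    Commute (q (R j (x b))) (q (C j z)) := by
  have h1 := congrArg q (R_conj_C_same j (x b) z)
  have h2 : q (R j ⁅z⁻¹, x b⁆) = 1 :=
    he_gamma4 (q.comp (R j)) (fun w => qR_cube q hT j w) (gam_succ (Subgroup.inv_mem _ hz) _)
  rw [map_mul, map_mul, map_inv, map_mul, h2, mul_one] at h1
  exact of_conj h1

/-- the case in which all indices occur -/
theorem R_P_loop {i j k m b c : Fin n} (hij : i ≠ j) (hik : i ≠ k) (him : i ≠ m) (hkj : k ≠ j)
    (hmj : m ≠ j) (hbj : b ≠ j) (hbk : b ≠ k) (hbm : b ≠ m) (hcj : c ≠ j) (hck : c ≠ k)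
    (hcm : c ≠ m) (hcb : c ≠ b) :
    Commute (q (R j ⁅x b, x c⁆)) (q (C i ⁅⁅x j, x k⁆, x m⁆)) := by
  -- `P`, `P'`, `P''`
  have hP1 : q (C i ⁅⁅x j, x k⁆, x m⁆) = q (C c ⁅⁅x j, x k⁆, x m⁆) :=
    P_eq q hT hij hik him hcj hck hcm
  have hP2 : q (C i ⁅⁅x j, x k⁆, x m⁆) = q (C b ⁅⁅x j, x k⁆, x m⁆) :=
    P_eq q hT hij hik him hbj hbk hbm
  have hP' : q (C c ⁅⁅x b, x k⁆, x m⁆) = q (C j ⁅⁅x b, x k⁆, x m⁆) :=
    P_eq q hT hcb hck hcm hbj.symm hkj.symm hmj.symm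
  have hP'' : q (C b ⁅⁅x c, x k⁆, x m⁆) = q (C j ⁅⁅x c, x k⁆, x m⁆) :=
    P_eq q hT hcb.symm hbk hbm hcj.symm hkj.symm hmj.symm
  have a1 := R_act q hT (k := k) (m := m) hkj hmj hbj hcj hcb
  have a2 := R_act q hT (k := k) (m := m) hkj hmj hcj hbj hcb.symm
  rw [← hP1, hP'] at a1
  rw [← hP2, hP''] at a2
  have b1 : Commute (q (R j (x b))) (q (C j ⁅⁅x c, x k⁆, x m⁆)) :=
    R_fix q hT j b (comm3_mem _ _ _)
  have b2 : Commute (q (R j (x c))) (q (C j ⁅⁅x b, x k⁆, x m⁆)) :=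
    R_fix q hT j c (comm3_mem _ _ _)
  have d : Commute (q (C j ⁅⁅x b, x k⁆, x m⁆)) (q (C j ⁅⁅x c, x k⁆, x m⁆)) :=
    he_gam3 (q.comp (C j)) (fun w => qC_cube q hT j w) (comm3_mem _ _ _) _
  have hinv : q (R j ⁅x b, x c⁆) = ⁅(q (R j (x b)))⁻¹, (q (R j (x c)))⁻¹⁆ := by
    have h3 : ∀ w, (q.comp (R j)) w ^ 3 = 1 := fun w => qR_cube q hT j w
    have h4 : (q.comp (R j)) ⁅(x b)⁻¹, (x c)⁻¹⁆ = (q.comp (R j)) ⁅x b, x c⁆ := by
      rw [he_inv_left (q.comp (R j)) h3, he_inv_right (q.comp (R j)) h3, inv_inv]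
    have h5 : (q.comp (R j)) ⁅(x b)⁻¹, (x c)⁻¹⁆ = ⁅(q (R j (x b)))⁻¹, (q (R j (x c)))⁻¹⁆ := by
      rw [map_commutatorElement, map_inv, map_inv]; rfl
    rw [← h5, h4]; rfl
  rw [hinv]
  generalize q (C j ⁅⁅x b, x k⁆, x m⁆) = P' at *
  generalize q (C j ⁅⁅x c, x k⁆, x m⁆) = P'' at *
  generalize q (C i ⁅⁅x j, x k⁆, x m⁆) = P at *
  generalize q (R j (x b)) = r at *
  generalize q (R j (x c)) = s at *
  have e1 : (r * s) * P * (r * s)⁻¹ = P * P' * P'' := by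
    have : (r * s) * P * (r * s)⁻¹ = r * (s * P * s⁻¹) * r⁻¹ := by group
    rw [this, a2]
    have : r * (P * P'') * r⁻¹ = (r * P * r⁻¹) * (r * P'' * r⁻¹) := by group
    rw [this, a1, b1.eq, mul_inv_cancel_right]
  have e2 : (s * r) * P * (s * r)⁻¹ = P * P' * P'' := by
    have : (s * r) * P * (s * r)⁻¹ = s * (r * P * r⁻¹) * s⁻¹ := by group
    rw [this, a1]
    have : s * (P * P') * s⁻¹ = (s * P * s⁻¹) * (s * P' * s⁻¹) := by group
    rw [this, a2, b2.eq, mul_inv_cancel_right, mul_assoc, ← d.eq, mul_assoc]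
  have e3 : (s * r)⁻¹ * (P * P' * P'') * (s * r) = P := by
    rw [← e2]; group
  have e4 : ⁅r⁻¹, s⁻¹⁆ * P * ⁅r⁻¹, s⁻¹⁆⁻¹ = P := by
    have h0 : ⁅r⁻¹, s⁻¹⁆ * P * ⁅r⁻¹, s⁻¹⁆⁻¹ = (s * r)⁻¹ * ((r * s) * P * (r * s)⁻¹) * (s * r) := by
      rw [commutatorElement_def]; group
    rw [h0, e1, e3]
  exact of_conj e4

/-- `R a ⁅x b, x c⁆` commutes with `P z` -/
theorem R_P (hn : 5 ≤ n) {i j k m : Fin n} (hij : i ≠ j) (hik : i ≠ k) (him : i ≠ m)
    (hjk : j ≠ k) (hjm : j ≠ m) (hkm : k ≠ m) {a b c : Fin n} (hab : a ≠ b) (hac : a ≠ c)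
    (hbc : b ≠ c) :
    Commute (q (R a ⁅x b, x c⁆)) (q (C i ⁅⁅x j, x k⁆, x m⁆)) := by
  by_cases hfree : ∃ l, l ≠ j ∧ l ≠ k ∧ l ≠ m ∧ l ≠ b ∧ l ≠ c
  · obtain ⟨l, h1, h2, h3, h4, h5⟩ := hfree
    exact R_P_free q hT hij hik him a b c h1 h2 h3 h4 h5
  push Not at hfree
  -- all indices are in `{j, k, m, b, c}`
  have hall : ∀ l, l ≠ j → l ≠ k → l ≠ m → l ≠ b → l = c := fun l h1 h2 h3 h4 =>
    hfree l h1 h2 h3 h4
  have hb : b ≠ j ∧ b ≠ k ∧ b ≠ m := by
    by_contra hcon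
    obtain ⟨l, h1, h2, h3, h4⟩ := exists_four hn j k m c
    have h5 : l ≠ b := by
      rintro rfl
      exact hcon ⟨h1, h2, h3⟩
    exact h4 (hall l h1 h2 h3 h5)
  have hc : c ≠ j ∧ c ≠ k ∧ c ≠ m := by
    by_contra hcon
    obtain ⟨l, h1, h2, h3, h4⟩ := exists_four hn j k m b
    have h5 := hall l h1 h2 h3 h4
    rw [h5] at h1 h2 h3
    exact hcon ⟨h1, h2, h3⟩
  have h3 : ∀ w, (q.comp (C i)) w ^ 3 = 1 := fun w => qC_cube q hT i w
  have cyc1 : q (C i ⁅⁅x j, x k⁆, x m⁆) = q (C i ⁅⁅x k, x m⁆, x j⁆) :=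
    he_cyc (q.comp (C i)) h3 _ _ _
  have cyc2 : q (C i ⁅⁅x k, x m⁆, x j⁆) = q (C i ⁅⁅x m, x j⁆, x k⁆) :=
    he_cyc (q.comp (C i)) h3 _ _ _
  by_cases haj : a = j
  · subst haj
    exact R_P_loop q hT hij hik him hjk.symm hjm.symm hb.1 hb.2.1 hb.2.2 hc.1 hc.2.1 hc.2.2
      hbc.symm
  by_cases hak : a = k
  · subst hak
    rw [cyc1]
    exact R_P_loop q hT hik him hij hkm.symm hjk hb.2.1 hb.2.2 hb.1 hc.2.1 hc.2.2 hc.1
      hbc.symm
  by_cases ham : a = m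
  · subst ham
    rw [cyc1, cyc2]
    exact R_P_loop q hT him hij hik hjm hkm hb.2.2 hb.1 hb.2.1 hc.2.2 hc.1 hc.2.1
      hbc.symm
  · exact absurd (hall a haj hak ham hab) hac

theorem J1_P (hn : 5 ≤ n) {i j k m : Fin n} (hij : i ≠ j) (hik : i ≠ k) (him : i ≠ m)
    (hjk : j ≠ k) (hjm : j ≠ m) (hkm : k ≠ m) {a : A n} (ha : a ∈ J1 n) :
    Commute (q a) (q (C i ⁅⁅x j, x k⁆, x m⁆)) := by
  unfold J1 at ha
  induction ha using Subgroup.closure_induction with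
  | mem g hg =>
    rcases hg with ⟨a, b, _, rfl⟩ | ⟨a, b, c, hab, hac, hbc, rfl⟩
    · exact C_P q hT hn hij hik him a b
    · exact R_P q hT hn hij hik him hjk hjm hkm hab hac hbc
  | one => rw [map_one]; exact Commute.one_left _
  | mul a b _ _ ha hb => rw [map_mul]; exact ha.mul_left hb
  | inv a _ ha => rw [map_inv]; exact ha.inv_left

theorem J1_C (hn : 5 ≤ n) (i : Fin n) {w : F n} (hw : w ∈ gam n 2) {a : A n} (ha : a ∈ J1 n) :
    Commute (q a) (q (C i w)) := by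
  have h3 : ∀ w, (q.comp (C i)) w ^ 3 = 1 := fun w => qC_cube q hT i w
  refine commute_closure ?_ (he_gen3 (q.comp (C i)) h3 hw)
  rintro _ ⟨j, k, m, hjk, hkm, rfl⟩
  show Commute (q a) (q (C i ⁅⁅x j, x k⁆, x m⁆))
  by_cases hi : i = j ∨ i = k ∨ i = m
  · rw [C_triv hi, map_one]
    exact Commute.one_right _
  · push Not at hi
    exact J1_P q hT hn hi.1 hi.2.1 hi.2.2 hjk.ne (hjk.trans hkm).ne hkm.ne ha

end main

theorem C_mem_J3 (i : Fin n) {w : F n} (hw : w ∈ gam n 2) : C i w ∈ J3 n :=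
  Subgroup.subset_closure ⟨i, w, hw, rfl⟩

/-- conjugation of a closure -/
theorem conj_closure {S : Set Q} {N : Subgroup Q} (e : Q) (h : ∀ s ∈ S, e * s * e⁻¹ ∈ N) {g : Q}
    (hg : g ∈ Subgroup.closure S) : e * g * e⁻¹ ∈ N := by
  have : Subgroup.closure S ≤ N.comap (MulAut.conj e).toMonoidHom :=
    (Subgroup.closure_le _).mpr fun s hs => by
      show MulAut.conj e s ∈ N
      rw [MulAut.conj_apply]; exact h s hs
  have h2 := this hg
  rw [Subgroup.mem_comap] at h2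
  have h3 : MulAut.conj e g ∈ N := h2
  rwa [MulAut.conj_apply] at h3

/-- conjugation by the signs and permutations maps `J3` into itself -/
theorem J3_conj_of {g : A n} (h1 : ∀ i : Fin n, ∀ w ∈ gam n 2, g * C i w * g⁻¹ ∈ J3 n)
    {y : A n} (hy : y ∈ J3 n) : g * y * g⁻¹ ∈ J3 n := by
  refine conj_closure (Q := A n) g ?_ hy
  rintro s ⟨i, w, hw, rfl⟩
  exact h1 i w hw

/-- conjugation by `R a (x b)` maps `q(J3)` into itself -/
theorem R_conj_J3 (hn : 5 ≤ n) (hT : ∀ i j : Fin n, i ≠ j → q (R i (x j)) ^ 3 = 1) (a b : Fin n)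
    {y : Q} (hy : y ∈ (J3 n).map q) :
    q (R a (x b)) * y * (q (R a (x b)))⁻¹ ∈ (J3 n).map q := by
  have hJ : (J3 n).map q =
      Subgroup.closure (q '' {g | ∃ i : Fin n, ∃ w ∈ gam n 2, g = C i w}) := by
    rw [J3, MonoidHom.map_closure]
  have hy' := hy
  rw [hJ] at hy'
  refine conj_closure _ ?_ hy'
  rintro _ ⟨g, ⟨i, w, hw, rfl⟩, rfl⟩
  have h3 : ∀ w, (q.comp (C i)) w ^ 3 = 1 := fun w => qC_cube q hT i w
  refine conj_closure _ ?_ (he_gen3 (q.comp (C i)) h3 hw)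
  rintro _ ⟨j, k, m, hjk, hkm, rfl⟩
  show q (R a (x b)) * q (C i ⁅⁅x j, x k⁆, x m⁆) * (q (R a (x b)))⁻¹ ∈ (J3 n).map q
  by_cases hi : i = j ∨ i = k ∨ i = m
  · rw [C_triv hi, map_one, mul_one, mul_inv_cancel]
    exact Subgroup.one_mem _
  · push Not at hi
    obtain ⟨l, hlj, hlk, hlm, hlb⟩ := exists_four hn j k m b
    rw [P_eq q hT hi.1 hi.2.1 hi.2.2 hlj hlk hlm]
    by_cases hal : a = l
    · subst hal
      have h4 := R_fix q hT a b (comm3_mem (x j) (x k) (x m))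
      rw [h4.eq, mul_inv_cancel_right]
      exact Subgroup.mem_map_of_mem q (C_mem_J3 _ (comm3_mem _ _ _))
    · rw [← map_inv, ← map_mul, ← map_mul, R_conj_C (Ne.symm hal) (x_mem_O hlb.symm)]
      exact Subgroup.mem_map_of_mem q (C_mem_J3 _ (gam_map _ (comm3_mem _ _ _)))

end Lev3Aux

theorem lev3_comm (hn : 5 ≤ n) (hT : ∀ i j : Fin n, i ≠ j → q (R i (x j)) ^ 3 = 1)
    {a b : A n} (ha : a ∈ J1 n) (hb : b ∈ J3 n) : Commute (q a) (q b) := by
  unfold J3 at hb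
  induction hb using Subgroup.closure_induction with
  | mem g hg =>
    obtain ⟨i, w, hw, rfl⟩ := hg
    exact J1_C q hT hn i hw ha
  | one => rw [map_one]; exact Commute.one_right _
  | mul a b _ _ ha hb => rw [map_mul]; exact ha.mul_right hb
  | inv a _ ha => rw [map_inv]; exact ha.inv_right

theorem lev3_normal (hn : 5 ≤ n) (hT : ∀ i j : Fin n, i ≠ j → q (R i (x j)) ^ 3 = 1)
    (α : A n) {b : A n} (hb : b ∈ J3 n) : q (α * b * α⁻¹) ∈ (J3 n).map q := by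
  let H : Subgroup (A n) :=
    { carrier := {α | ∀ y ∈ (J3 n).map q, q α * y * (q α)⁻¹ ∈ (J3 n).map q ∧
        (q α)⁻¹ * y * q α ∈ (J3 n).map q}
      one_mem' := fun y hy => by simpa using hy
      mul_mem' := fun {u v} hu hv y hy => by
        constructor
        · have : q (u * v) * y * (q (u * v))⁻¹ = q u * (q v * y * (q v)⁻¹) * (q u)⁻¹ := by
            rw [map_mul]; group
          rw [this]; exact (hu _ (hv _ hy).1).1
        · have : (q (u * v))⁻¹ * y * q (u * v) = (q v)⁻¹ * ((q u)⁻¹ * y * q u) * q v := by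
            rw [map_mul]; group
          rw [this]; exact (hv _ (hu _ hy).2).2
      inv_mem' := fun {u} hu y hy => by
        constructor
        · rw [map_inv, inv_inv]; exact (hu y hy).2
        · rw [map_inv, inv_inv]; exact (hu y hy).1 }
  have hRm : ∀ i j : Fin n, i ≠ j → R i (x j) ∈ H := by
    intro i j hij y hy
    refine ⟨R_conj_J3 q hn hT i j hy, ?_⟩
    have h3 := hT i j hij
    have h1 := R_conj_J3 q hn hT i j (R_conj_J3 q hn hT i j hy)
    generalize q (R i (x j)) = r at h3 h1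
    have e : r⁻¹ = r * r := by rw [inv_eq_iff_mul_eq_one, ← h3, pow_three]
    have e2 : r⁻¹ * y * r = r * (r * y * r⁻¹) * r⁻¹ := by
      calc r⁻¹ * y * r = (r * r) * y * (r * r)⁻¹ := by rw [← e, inv_inv]
        _ = _ := by group
    rw [e2]; exact h1
  have hCm : ∀ i : Fin n, ∀ w : F n, C i w ∈ H := by
    intro i w y hy
    obtain ⟨b, hb, rfl⟩ := hy
    have h1 : Commute (q (C i w)) (q b) := lev3_comm q hn hT (C_mem_J1 i w) hb
    refine ⟨?_, ?_⟩
    · rw [h1.eq, mul_inv_cancel_right]; exact Subgroup.mem_map_of_mem q hb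
    · rw [mul_assoc, ← h1.eq, inv_mul_cancel_left]; exact Subgroup.mem_map_of_mem q hb
  have hLm : ∀ i j : Fin n, i ≠ j → L i (x j) ∈ H := by
    intro i j hij
    rw [L_eq]
    exact H.mul_mem (hCm i _) (H.inv_mem (hRm i j hij))
  have invol : ∀ g : A n, (∀ y ∈ J3 n, g * y * g⁻¹ ∈ J3 n) →
      (∀ y ∈ J3 n, g⁻¹ * y * g ∈ J3 n) → g ∈ H := by
    rintro g h1 h2 _ ⟨b, hb, rfl⟩
    refine ⟨?_, ?_⟩
    · rw [← map_inv, ← map_mul, ← map_mul]; exact Subgroup.mem_map_of_mem q (h1 b hb)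
    · rw [← map_inv, ← map_mul, ← map_mul]; exact Subgroup.mem_map_of_mem q (h2 b hb)
  have hsg : ∀ i : Fin n, ∀ y ∈ J3 n, (sg i : A n) * y * (sg i)⁻¹ ∈ J3 n := by
    intro i y hy
    refine J3_conj_of ?_ hy
    intro k w hw
    by_cases hk : k = i
    · subst hk; rw [sg_conj_C_same]; exact C_mem_J3 _ hw
    · rw [C_def, sg_conj_tv hk, ← C_def]; exact C_mem_J3 _ (gam_map _ hw)
  have hpm : ∀ σ : Equiv.Perm (Fin n), ∀ y ∈ J3 n, (pm σ : A n) * y * (pm σ)⁻¹ ∈ J3 n := by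
    intro σ y hy
    refine J3_conj_of ?_ hy
    intro k w hw
    rw [pm_conj_C]; exact C_mem_J3 _ (gam_map _ hw)
  have htop : H = ⊤ := by
    refine nielsen_top H ?_ ?_ ?_ ?_
    · intro i j hij ν h1 h2
      have : ν = R i (x j) := by
        refine A_ext fun k => ?_
        by_cases hk : k = i
        · subst hk; rw [R_apply_self, kill_ne hij.symm]; exact h1
        · rw [R_apply_ne hk]; exact h2 k hk
      rw [this]; exact hRm i j hij
    · intro i j hij ν h1 h2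
      have : ν = (L i (x j))⁻¹ := by
        rw [← map_inv]
        refine A_ext fun k => ?_
        by_cases hk : k = i
        · subst hk
          rw [L_def, tv_self, map_inv, kill_ne hij.symm, map_one, mul_one, inv_inv]; exact h1
        · rw [L_def, tv_ne hk]; exact h2 k hk
      rw [this]; exact H.inv_mem (hLm i j hij)
    · intro i ν h1 h2
      have : ν = sg i := by
        refine A_ext fun k => ?_
        by_cases hk : k = i
        · subst hk; rw [sg_self]; exact h1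
        · rw [sg_ne hk]; exact h2 k hk
      rw [this]
      refine invol _ (hsg i) fun y hy => ?_
      have := hsg i y hy
      rwa [sg_inv] at this ⊢
    · intro i j hij ν h1 h2 h3
      have : ν = pm (Equiv.swap i j) := by
        refine A_ext fun k => ?_
        rw [pm_x]
        by_cases hk : k = i
        · subst hk; rw [Equiv.swap_apply_left]; exact h1
        · by_cases hk' : k = j
          · subst hk'; rw [Equiv.swap_apply_right]; exact h2
          · rw [Equiv.swap_apply_of_ne_of_ne hk hk']; exact h3 k hk hk'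
      rw [this]
      refine invol _ (hpm _) fun y hy => ?_
      have := hpm (Equiv.swap i j)⁻¹ y hy
      rwa [← pm_inv, inv_inv] at this
  have hα : α ∈ H := htop ▸ Subgroup.mem_top α
  have := (hα (q b) (Subgroup.mem_map_of_mem q hb)).1
  rwa [← map_inv, ← map_mul, ← map_mul] at this

end Pool.Agent.CSP3
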