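import Pool.Agent.CSP3.NielsenTop

/-!
# The special automorphism group of a free group
-/

set_option autoImplicit false
set_option linter.unusedSectionVars false

namespace Pool.Agent.CSP3.SA

open FreeGroup hiding map_mul map_inv map_one norm norm_one

section

variable {α : Type} [DecidableEq α]

/-- `ν` is an elementary transvection -/
def IsTv (ν : MulAut (FreeGroup α)) (i j : α) : Prop :=
  (∀ k, k ≠ i → ν (of k) = of k) ∧ (ν (of i) = of i * of j ∨ ν (of i) = of j * of i)

/-- the group generated by the elementary transvections -/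
def SAut (α : Type) [DecidableEq α] : Subgroup (MulAut (FreeGroup α)) :=
  Subgroup.closure {ν | ∃ i j : α, i ≠ j ∧ IsTv ν i j}

theorem tv_mem {ν : MulAut (FreeGroup α)} {i j : α} (h : i ≠ j) (hν : IsTv ν i j) :
    ν ∈ SAut α := Subgroup.subset_closure ⟨i, j, h, hν⟩

theorem aut_inv_apply {ν : MulAut (FreeGroup α)} {g h : FreeGroup α} (e : ν g = h) :
    ν⁻¹ h = g := by
  rw [← e, ← MulAut.mul_apply, inv_mul_cancel, MulAut.one_apply]

theorem aut_ext {ν μ : MulAut (FreeGroup α)} (h : ∀ i, ν (of i) = μ (of i)) : ν = μ := by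
  apply MulEquiv.toMonoidHom_injective
  ext i
  exact h i

theorem tvinv_mem {ν : MulAut (FreeGroup α)} {i j : α} (h : i ≠ j)
    (h1 : ∀ k, k ≠ i → ν (of k) = of k)
    (h2 : ν (of i) = of i * (of j)⁻¹ ∨ ν (of i) = (of j)⁻¹ * of i) : ν ∈ SAut α := by
  have e : ν⁻¹ ∈ SAut α := by
    refine tv_mem h ⟨fun k hk => aut_inv_apply (h1 k hk), ?_⟩
    rcases h2 with h2 | h2
    · left
      apply aut_inv_apply
      rw [map_mul, h2, h1 j (Ne.symm h), inv_mul_cancel_right]
    · right
      apply aut_inv_apply
      rw [map_mul, h2, h1 j (Ne.symm h), mul_inv_cancel_left]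
  have := inv_mem e
  rwa [inv_inv] at this

/-- the inversion of a letter -/
def iot (i : α) : MulAut (FreeGroup α) := inversionEquiv i

theorem iot_of (i : α) : iot i (of i) = (of i)⁻¹ := inversion_of i

theorem iot_of_ne {i j : α} (h : j ≠ i) : iot i (of j) = of j := inversion_of_ne h

theorem iot_sq (i : α) : iot i * iot i = 1 := by
  apply aut_ext
  intro k
  rw [MulAut.mul_apply]
  by_cases h : k = i
  · subst h; rw [iot_of, map_inv, iot_of, inv_inv]; rfl
  · rw [iot_of_ne h, iot_of_ne h]; rfl

theorem iot_inv (i : α) : (iot i)⁻¹ = iot i := by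
  rw [inv_eq_iff_mul_eq_one]; exact iot_sq i

theorem iot_conj (m : α) {ν : MulAut (FreeGroup α)} (hν : ν ∈ SAut α) :
    iot m * ν * iot m ∈ SAut α := by
  unfold SAut at hν
  induction hν using Subgroup.closure_induction with
  | mem ν h =>
    obtain ⟨i, j, hij, h1, h2⟩ := h
    by_cases hi : i = m
    · subst hi
      refine tvinv_mem hij (fun k hk => ?_) ?_
      · rw [MulAut.mul_apply, MulAut.mul_apply, iot_of_ne hk, h1 k hk, iot_of_ne hk]
      · rw [MulAut.mul_apply, MulAut.mul_apply, iot_of, map_inv]
        rcases h2 with h2 | h2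
        · right
          rw [h2, map_inv, map_mul, iot_of, iot_of_ne (Ne.symm hij), mul_inv_rev, inv_inv]
        · left
          rw [h2, map_inv, map_mul, iot_of, iot_of_ne (Ne.symm hij), mul_inv_rev, inv_inv]
    · have c1 : ∀ k, k ≠ i → (iot m * ν * iot m) (of k) = of k := by
        intro k hk
        rw [MulAut.mul_apply, MulAut.mul_apply]
        by_cases hkm : k = m
        · subst hkm; rw [iot_of, map_inv, h1 k hk, map_inv, iot_of, inv_inv]
        · rw [iot_of_ne hkm, h1 k hk, iot_of_ne hkm]
      have c2 : (iot m * ν * iot m) (of i) = iot m (ν (of i)) := by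
        rw [MulAut.mul_apply, MulAut.mul_apply, iot_of_ne hi]
      by_cases hj : j = m
      · subst hj
        refine tvinv_mem hij c1 ?_
        rw [c2]
        rcases h2 with h2 | h2
        · left; rw [h2, map_mul, iot_of, iot_of_ne hi]
        · right; rw [h2, map_mul, iot_of, iot_of_ne hi]
      · refine tv_mem hij ⟨c1, ?_⟩
        rw [c2]
        rcases h2 with h2 | h2
        · left; rw [h2, map_mul, iot_of_ne hi, iot_of_ne hj]
        · right; rw [h2, map_mul, iot_of_ne hi, iot_of_ne hj]
  | one => rw [mul_one, iot_sq]; exact Subgroup.one_mem _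
  | mul x y _ _ hx hy =>
    have : iot m * (x * y) * iot m = (iot m * x * iot m) * (iot m * y * iot m) := by
      have e := iot_sq m
      calc iot m * (x * y) * iot m = iot m * x * (1 * (y * iot m)) := by group
        _ = iot m * x * ((iot m * iot m) * (y * iot m)) := by rw [e]
        _ = _ := by group
    rw [this]
    exact Subgroup.mul_mem _ hx hy
  | inv x _ hx =>
    have : iot m * x⁻¹ * iot m = (iot m * x * iot m)⁻¹ := by
      rw [mul_inv_rev, mul_inv_rev, iot_inv, mul_assoc]
    rw [this]
    exact Subgroup.inv_mem _ hx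

/-- the Weyl element `x_i ↦ x_j`, `x_j ↦ x_i⁻¹` -/
theorem weyl_mem {i j : α} (h : i ≠ j) {ν : MulAut (FreeGroup α)} (h1 : ν (of i) = of j)
    (h2 : ν (of j) = (of i)⁻¹) (h3 : ∀ k, k ≠ i → k ≠ j → ν (of k) = of k) : ν ∈ SAut α := by
  have hj : (of i : FreeGroup α)⁻¹ ∈ Subgroup.closure (of '' {k | k ≠ j}) :=
    Subgroup.inv_mem _ (of_mem_others h)
  let ν1 : MulAut (FreeGroup α) := ltransvEquiv j (of i)⁻¹ hj
  let ν2 : MulAut (FreeGroup α) := transvEquiv i (of j) (of_mem_others (Ne.symm h))
  let ν3 : MulAut (FreeGroup α) := transvEquiv j (of i)⁻¹ hj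
  have a1 : ν1 (of j) = (of i)⁻¹ * of j := ltransv_of j _
  have a2 : ∀ k, k ≠ j → ν1 (of k) = of k := fun k hk => ltransv_of_ne hk _
  have b1 : ν2 (of i) = of i * of j := transv_of i _
  have b2 : ∀ k, k ≠ i → ν2 (of k) = of k := fun k hk => transv_of_ne hk _
  have c1 : ν3 (of j) = of j * (of i)⁻¹ := transv_of j _
  have c2 : ∀ k, k ≠ j → ν3 (of k) = of k := fun k hk => transv_of_ne hk _
  have m1 : ν1 ∈ SAut α := tvinv_mem (Ne.symm h) a2 (Or.inr a1)
  have m2 : ν2 ∈ SAut α := tv_mem h ⟨b2, Or.inl b1⟩
  have m3 : ν3 ∈ SAut α := tvinv_mem (Ne.symm h) c2 (Or.inl c1)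
  have e : ν = ν1 * ν2 * ν3 := by
    apply aut_ext
    intro k
    rw [MulAut.mul_apply, MulAut.mul_apply]
    by_cases hki : k = i
    · subst hki
      rw [h1, c2 k h, b1, map_mul, a2 k h, a1, mul_inv_cancel_left]
    · by_cases hkj : k = j
      · subst hkj
        rw [h2, c1, map_mul, map_inv, b1, b2 k hki, mul_inv_rev, mul_inv_cancel_left, map_inv,
          a2 i h]
      · rw [h3 k hki hkj, c2 k hkj, b2 k hki, a2 k hkj]
  rw [e]
  exact mul_mem (mul_mem m1 m2) m3

theorem exists_swap (i j : α) : ∃ ν : MulAut (FreeGroup α), ν (of i) = of j ∧ ν (of j) = of i ∧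
    ∀ k, k ≠ i → k ≠ j → ν (of k) = of k := by
  refine ⟨freeGroupCongr (Equiv.swap i j), ?_, ?_, ?_⟩
  · simp
  · simp
  · intro k hi hj
    simp [Equiv.swap_apply_of_ne_of_ne hi hj]

theorem swap_iot_mem {i j : α} (h : i ≠ j) {ν : MulAut (FreeGroup α)} (h1 : ν (of i) = of j)
    (h2 : ν (of j) = of i) (h3 : ∀ k, k ≠ i → k ≠ j → ν (of k) = of k) : ν * iot j ∈ SAut α := by
  refine weyl_mem h ?_ ?_ ?_
  · rw [MulAut.mul_apply, iot_of_ne h, h1]
  · rw [MulAut.mul_apply, iot_of, map_inv, h2]
  · intro k hi hj
    rw [MulAut.mul_apply, iot_of_ne hj, h3 k hi hj]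

theorem iot_iot_mem (i j : α) : iot i * iot j ∈ SAut α := by
  by_cases h : i = j
  · subst h; rw [iot_sq]; exact Subgroup.one_mem _
  · obtain ⟨ν, h1, h2, h3⟩ := exists_swap i j
    have hw := swap_iot_mem h h1 h2 h3
    have hsq : (ν * iot j) * (ν * iot j) = iot i * iot j := by
      apply aut_ext
      intro k
      simp only [MulAut.mul_apply]
      by_cases hki : k = i
      · subst hki
        rw [iot_of_ne h, h1, iot_of, map_inv, h2, iot_of]
      · by_cases hkj : k = j
        · subst hkj
          rw [iot_of, map_inv, h2, map_inv, map_inv, iot_of_ne h, h1, map_inv,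
            iot_of_ne (Ne.symm h)]
        · rw [iot_of_ne hkj, h3 k hki hkj, iot_of_ne hkj, h3 k hki hkj, iot_of_ne hki]
    rw [← hsq]
    exact Subgroup.mul_mem _ hw hw

variable [Fintype α]

/-- every automorphism is special up to the inversion of the letter `m` -/
theorem saut_or (m : α) (φ : MulAut (FreeGroup α)) : φ ∈ SAut α ∨ φ * iot m ∈ SAut α := by
  let H : Subgroup (MulAut (FreeGroup α)) :=
    { carrier := {φ | φ ∈ SAut α ∨ φ * iot m ∈ SAut α}
      one_mem' := Or.inl (Subgroup.one_mem _)
      mul_mem' := by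
        intro φ ψ hφ hψ
        rcases hφ with hφ | hφ <;> rcases hψ with hψ | hψ
        · exact Or.inl (Subgroup.mul_mem _ hφ hψ)
        · right
          rw [mul_assoc]
          exact Subgroup.mul_mem _ hφ hψ
        · right
          have e : φ * ψ * iot m = (φ * iot m) * (iot m * ψ * iot m) := by
            calc φ * ψ * iot m = φ * 1 * ψ * iot m := by group
              _ = φ * (iot m * iot m) * ψ * iot m := by rw [iot_sq]
              _ = _ := by group
          rw [e]
          exact Subgroup.mul_mem _ hφ (iot_conj m hψ)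
        · left
          have e : φ * ψ = (φ * iot m) * (iot m * (ψ * iot m) * iot m) := by
            calc φ * ψ = φ * 1 * ψ * 1 := by group
              _ = φ * (iot m * iot m) * ψ * (iot m * iot m) := by rw [iot_sq]
              _ = _ := by group
          rw [e]
          exact Subgroup.mul_mem _ hφ (iot_conj m hψ)
      inv_mem' := by
        intro φ hφ
        rcases hφ with hφ | hφ
        · exact Or.inl (Subgroup.inv_mem _ hφ)
        · right
          have h1 := iot_conj m (Subgroup.inv_mem _ hφ)
          have e : φ⁻¹ * iot m = iot m * (φ * iot m)⁻¹ * iot m := by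
            rw [mul_inv_rev, iot_inv, ← mul_assoc, iot_sq, one_mul]
          rw [e]
          exact h1 }
  have hH : H = ⊤ := by
    refine nielsen_top H ?_ ?_ ?_ ?_
    · intro i j hij ν h1 h2
      exact Or.inl (tv_mem hij ⟨h2, Or.inl h1⟩)
    · intro i j hij ν h1 h2
      exact Or.inl (tv_mem hij ⟨h2, Or.inr h1⟩)
    · intro i ν h1 h2
      right
      have : ν = iot i := by
        apply aut_ext
        intro k
        by_cases hk : k = i
        · subst hk; rw [h1, iot_of]
        · rw [h2 k hk, iot_of_ne hk]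
      rw [this]
      exact iot_iot_mem i m
    · intro i j hij ν h1 h2 h3
      right
      have e : ν * iot m = (ν * iot j) * (iot j * iot m) := by
        calc ν * iot m = ν * 1 * iot m := by group
          _ = ν * (iot j * iot j) * iot m := by rw [iot_sq]
          _ = _ := by group
      rw [e]
      exact Subgroup.mul_mem _ (swap_iot_mem hij h1 h2 h3) (iot_iot_mem j m)
  have : φ ∈ H := by rw [hH]; trivial
  exact this

/-! ### The action on the abelianisation -/

/-- the map onto `(ℤ/k)^α` -/
def ab (α : Type) [DecidableEq α] (k : ℕ) : FreeGroup α →* Multiplicative (α → ZMod k) :=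
  FreeGroup.lift (fun i => Multiplicative.ofAdd (Pi.single i 1))

theorem ab_of (k : ℕ) (i : α) : ab α k (of i) = Multiplicative.ofAdd (Pi.single i 1) := by
  simp [ab]

/-- the matrix of an endomorphism -/
def abM (k : ℕ) (φ : MulAut (FreeGroup α)) : Matrix α α (ZMod k) :=
  fun i j => Multiplicative.toAdd (ab α k (φ (of j))) i

theorem ab_apply (k : ℕ) (φ : MulAut (FreeGroup α)) (g : FreeGroup α) :
    Multiplicative.toAdd (ab α k (φ g)) = (abM k φ).mulVec (Multiplicative.toAdd (ab α k g)) := by
  induction g using FreeGroup.induction_on with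
  | C1 => simp
  | of j =>
    rw [ab_of, toAdd_ofAdd, Matrix.mulVec_single_one]
    rfl
  | inv_of j hj =>
    rw [map_inv φ, map_inv (ab α k), map_inv (ab α k), toAdd_inv, toAdd_inv, hj, Matrix.mulVec_neg]
  | mul x y hx hy =>
    rw [map_mul φ, map_mul (ab α k), map_mul (ab α k), toAdd_mul, toAdd_mul, hx, hy,
      Matrix.mulVec_add]

theorem abM_mul (k : ℕ) (φ ψ : MulAut (FreeGroup α)) : abM k (φ * ψ) = abM k φ * abM k ψ := by
  ext i j
  have h := congrFun (ab_apply k φ (ψ (of j))) i
  exact h

theorem abM_one (k : ℕ) : abM (α := α) k 1 = 1 := by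
  ext i j
  simp only [abM, MulAut.one_apply, ab_of, toAdd_ofAdd]
  rw [Matrix.one_apply, Pi.single_apply]

/-- the determinant -/
def abDet (α : Type) [DecidableEq α] [Fintype α] (k : ℕ) : MulAut (FreeGroup α) →* ZMod k where
  toFun φ := (abM k φ).det
  map_one' := by rw [abM_one, Matrix.det_one]
  map_mul' φ ψ := by rw [abM_mul, Matrix.det_mul]

theorem abDet_saut (k : ℕ) {φ : MulAut (FreeGroup α)} (h : φ ∈ SAut α) : abDet α k φ = 1 := by
  have hle : SAut α ≤ (abDet α k).ker := by
    unfold SAut
    rw [Subgroup.closure_le]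
    rintro ν ⟨i, j, hij, h1, h2⟩
    show (abM k ν).det = 1
    have e : abM k ν = Matrix.transvection j i 1 := by
      ext p q
      unfold abM Matrix.transvection
      rw [Matrix.add_apply, Matrix.one_apply, Matrix.single_apply]
      by_cases hq : q = i
      · subst hq
        have e2 : Multiplicative.toAdd (ab α k (ν (of q))) =
            Pi.single q 1 + Pi.single j 1 := by
          rcases h2 with h2 | h2
          · rw [h2, map_mul, ab_of, ab_of]; rfl
          · rw [h2, map_mul, ab_of, ab_of, toAdd_mul, add_comm]; rfl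
        rw [e2, Pi.add_apply, Pi.single_apply, Pi.single_apply]
        simp [eq_comm]
      · rw [h1 q hq, ab_of, toAdd_ofAdd, Pi.single_apply]
        simp [Ne.symm hq]
    rw [e]
    exact Matrix.det_transvection_of_ne _ _ (Ne.symm hij) 1
  exact hle h

theorem abDet_iot (k : ℕ) (m : α) : abDet α k (iot m) = -1 := by
  show (abM k (iot m)).det = -1
  have e : abM k (iot m) = Matrix.diagonal (fun i => if i = m then -1 else 1) := by
    ext p q
    unfold abM
    rw [Matrix.diagonal_apply]
    by_cases hq : q = m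
    · subst hq
      rw [iot_of, map_inv, ab_of, toAdd_inv, toAdd_ofAdd, Pi.neg_apply, Pi.single_apply]
      by_cases hp : p = q
      · simp [hp]
      · simp [hp]
    · rw [iot_of_ne hq, ab_of, toAdd_ofAdd, Pi.single_apply]
      by_cases hp : p = q
      · subst hp; simp [hq]
      · simp [hp]
  rw [e, Matrix.det_diagonal, Finset.prod_ite_eq' Finset.univ m]
  simp

/-- **An automorphism acting trivially on `(ℤ/k)^n`, `k ≥ 3`, is a product of transvections.** -/
theorem mem_saut [Nonempty α] {k : ℕ} (hk : 3 ≤ k) {φ : MulAut (FreeGroup α)}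
    (h : ∀ g, ab α k (φ g) = ab α k g) : φ ∈ SAut α := by
  obtain ⟨m⟩ := ‹Nonempty α›
  rcases saut_or m φ with h1 | h1
  · exact h1
  · exfalso
    have h2 := abDet_saut k h1
    rw [map_mul, abDet_iot] at h2
    have h3 : abDet α k φ = 1 := by
      show (abM k φ).det = 1
      have : abM k φ = 1 := by
        rw [← abM_one]
        ext i j
        unfold abM
        rw [h, MulAut.one_apply]
      rw [this, Matrix.det_one]
    rw [h3, one_mul] at h2
    have h4 : ((2 : ℕ) : ZMod k) = 0 := by
      push_cast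
      linear_combination -h2
    rw [ZMod.natCast_eq_zero_iff] at h4
    have := Nat.le_of_dvd (by norm_num) h4
    omega

end

end Pool.Agent.CSP3.SA
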