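import Pool.Agent.CSP3.SteinN

/-!
# Bruhat decomposition of a group with Steinberg relations (units `±1`), and the main theorem:
the natural representation is faithful.
-/

set_option autoImplicit false

namespace Pool.Agent.CSP3

namespace Stein

variable {n : ℕ} {F : Type*} [Field F] {G : Type*} [Group G] (S : Stein n F G)

/-! ### The unipotent group -/

/-- the group generated by the `x i j a`, `(i, j) ∈ P` -/
def UP (P : Fin n → Fin n → Prop) : Subgroup G :=
  Subgroup.closure {g | ∃ i j : Fin n, ∃ a : F, i < j ∧ P i j ∧ g = S.x i j a}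

theorem x_mem_UP {P : Fin n → Fin n → Prop} {i j : Fin n} (h : i < j) (hP : P i j) (a : F) :
    S.x i j a ∈ S.UP P := Subgroup.subset_closure ⟨i, j, a, h, hP, rfl⟩

theorem UP_induction {P : Fin n → Fin n → Prop} {p : G → Prop} (one : p 1)
    (mul : ∀ (i j : Fin n) (a : F), i < j → P i j → ∀ y ∈ S.UP P, p y → p (S.x i j a * y))
    {g : G} (hg : g ∈ S.UP P) : p g := by
  unfold UP at hg
  induction hg using Subgroup.closure_induction_left with
  | one => exact one
  | mul_left x hx y hy' hy =>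
    obtain ⟨i, j, a, h, hP, rfl⟩ := hx
    exact mul i j a h hP y hy' hy
  | inv_mul_cancel x hx y hy' hy =>
    obtain ⟨i, j, a, h, hP, rfl⟩ := hx
    rw [← S.x_neg h.ne]
    exact mul i j (-a) h hP y hy' hy

/-! ### Injectivity on the unipotent group -/

/-- the filtration -/
def Fil (K M : ℕ) (i j : Fin n) : Prop := j.val < K ∨ (j.val = K ∧ i.val < M)

theorem fil_step {K M : ℕ} (hK : K < n) (hM : M < K) {u : G} (hu : u ∈ S.UP (Fil K (M + 1))) :
    ∃ a : F, ∃ u' ∈ S.UP (Fil K M),
      u = S.x ⟨M, hM.trans hK⟩ ⟨K, hK⟩ a * u' := by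
  have hmk : (⟨M, hM.trans hK⟩ : Fin n) < ⟨K, hK⟩ := hM
  have hne := hmk.ne
  refine S.UP_induction (p := fun u => ∃ a : F, ∃ u' ∈ S.UP (Fil K M),
      u = S.x ⟨M, hM.trans hK⟩ ⟨K, hK⟩ a * u') ?_ ?_ hu
  · exact ⟨0, 1, Subgroup.one_mem _, by rw [S.x_zero hne, one_mul]⟩
  · rintro i j b hij hP y _ ⟨a, u', hu', rfl⟩
    by_cases hc : Fil K M i j
    · -- move `x i j b` to the right
      have hm : MulAut.conj (S.x ⟨M, hM.trans hK⟩ ⟨K, hK⟩ (-a)) (S.x i j b) ∈ S.UP (Fil K M) := by
        by_cases hj : j = ⟨M, hM.trans hK⟩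
        · subst hj
          rw [S.cj_right hij.ne hne (ne_of_lt (hij.trans hmk))]
          refine Subgroup.mul_mem _ ?_ (S.x_mem_UP hij hc b)
          exact S.x_mem_UP (hij.trans hmk) (Or.inr ⟨rfl, hij⟩) _
        · have hik : i ≠ ⟨K, hK⟩ := by
            rintro rfl
            rcases hc with hc | hc
            · have : (⟨K, hK⟩ : Fin n).val < j.val := hij
              simp only at this
              omega
            · have : (⟨K, hK⟩ : Fin n).val < j.val := hij
              simp only at this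
              omega
          rw [S.cj_comm hne hij.ne hik.symm (Ne.symm hj)]
          exact S.x_mem_UP hij hc b
      refine ⟨a, _, Subgroup.mul_mem _ hm hu', ?_⟩
      rw [S.x_neg hne, MulAut.conj_apply]; group
    · -- the new generator
      have hi : i = ⟨M, hM.trans hK⟩ := by
        rcases hP with h | ⟨h1, h2⟩
        · exact absurd (Or.inl h) hc
        · apply Fin.ext
          simp only
          by_contra hcc
          exact hc (Or.inr ⟨h1, by omega⟩)
      have hj : j = ⟨K, hK⟩ := by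
        rcases hP with h | ⟨h1, h2⟩
        · exact absurd (Or.inl h) hc
        · exact Fin.ext h1
      subst hi hj
      exact ⟨b + a, u', hu', by rw [S.add hne, mul_assoc]⟩

variable {S} {ρ : G →* Module.End F (Fin n → F)}

theorem IsRep.fil_fix (hρ : S.IsRep ρ) {K M : ℕ} (hK : K < n) (hM : M < K) {u : G}
    (hu : u ∈ S.UP (Fil K M)) (v : Fin n → F) (h1 : v ⟨K, hK⟩ = 1)
    (h2 : ∀ i : Fin n, M ≤ i.val → i.val ≠ K → v i = 0) :
    ρ u v ⟨K, hK⟩ = 1 ∧ ∀ i : Fin n, M ≤ i.val → i.val ≠ K → ρ u v i = 0 := by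
  refine S.UP_induction (p := fun u => ρ u v ⟨K, hK⟩ = 1 ∧
    ∀ i : Fin n, M ≤ i.val → i.val ≠ K → ρ u v i = 0) ?_ ?_ hu
  · rw [map_one]; exact ⟨h1, h2⟩
  · rintro i j b hij hP y _ ⟨e1, e2⟩
    rw [map_mul, Module.End.mul_apply, hρ i j hij.ne]
    have hij' : i.val < j.val := hij
    have key : ∀ m : Fin n, M ≤ m.val → (Pi.single i (b * ρ y v j) : Fin n → F) m = 0 := by
      intro m hm
      by_cases him : m = i
      · subst him
        rw [Pi.single_eq_same]
        rcases hP with h | ⟨h3, h4⟩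
        · rw [e2 j (by omega) (by omega), mul_zero]
        · omega
      · rw [Pi.single_eq_of_ne him]
    constructor
    · rw [Pi.add_apply, e1, key _ (by simp only; omega), add_zero]
    · intro m hm hmK
      rw [Pi.add_apply, e2 m hm hmK, key m hm, add_zero]

theorem IsRep.inj_fil (hρ : S.IsRep ρ) (K : ℕ) : ∀ M : ℕ,
    (∀ u ∈ S.UP (Fil K 0), ρ u = 1 → u = 1) → ∀ u ∈ S.UP (Fil K M), ρ u = 1 → u = 1 := by
  intro M h0
  induction M with
  | zero => exact h0
  | succ M ih =>
    intro u hu h1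
    by_cases hc : K < n ∧ M < K
    · obtain ⟨hK, hM⟩ := hc
      obtain ⟨a, u', hu', rfl⟩ := S.fil_step hK hM hu
      have hne : (⟨M, hM.trans hK⟩ : Fin n) ≠ ⟨K, hK⟩ := by
        intro h
        have := congrArg Fin.val h
        simp only at this
        omega
      have e := hρ.fil_fix hK hM hu' (Pi.single ⟨K, hK⟩ 1) (by rw [Pi.single_eq_same])
        (fun i _ hi => Pi.single_eq_of_ne (fun h => hi (congrArg Fin.val h)) _)
      have h2 : ρ (S.x ⟨M, hM.trans hK⟩ ⟨K, hK⟩ a * u') (Pi.single ⟨K, hK⟩ 1)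
          ⟨M, hM.trans hK⟩ = 0 := by
        rw [h1]
        exact Pi.single_eq_of_ne hne _
      rw [map_mul, Module.End.mul_apply, hρ _ _ hne, Pi.add_apply, Pi.single_eq_same, e.1,
        e.2 _ (by simp only; omega) (by simp only; omega), mul_one, zero_add] at h2
      subst h2
      rw [S.x_zero hne, one_mul] at h1 ⊢
      exact ih u' hu' h1
    · refine ih u ?_ h1
      have : S.UP (Fil K (M + 1)) ≤ S.UP (Fil K M) := by
        unfold UP
        rw [Subgroup.closure_le]
        rintro _ ⟨i, j, a, hij, hP, rfl⟩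
        refine S.x_mem_UP hij ?_ a
        have hij' : i.val < j.val := hij
        have hj := j.isLt
        rcases hP with h | ⟨h2, h3⟩
        · exact Or.inl h
        · refine Or.inr ⟨h2, ?_⟩
          by_contra hcc
          apply hc
          omega
      exact this hu

theorem IsRep.inj_fil_zero (hρ : S.IsRep ρ) (K : ℕ) :
    ∀ u ∈ S.UP (Fil K 0), ρ u = 1 → u = 1 := by
  induction K with
  | zero =>
    intro u hu _
    have : S.UP (Fil (n := n) 0 0) = ⊥ := by
      unfold UP
      rw [Subgroup.closure_eq_bot_iff]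
      rintro _ ⟨i, j, a, hij, hP, rfl⟩
      rcases hP with h | h
      · omega
      · omega
    rw [this] at hu
    simpa using hu
  | succ K ih =>
    intro u hu h1
    have h := hρ.inj_fil K K ih
    refine h u ?_ h1
    have : S.UP (Fil (K + 1) 0) ≤ S.UP (Fil K K) := by
      unfold UP
      rw [Subgroup.closure_le]
      rintro _ ⟨i, j, a, hij, hP, rfl⟩
      refine S.x_mem_UP hij ?_ a
      have hij' : i.val < j.val := hij
      rcases hP with h | ⟨h2, h3⟩
      · by_cases hjK : j.val = K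
        · exact Or.inr ⟨hjK, by omega⟩
        · exact Or.inl (by omega)
      · omega
    exact this hu

/-- `U` -/
def U (S : Stein n F G) : Subgroup G := S.UP (fun _ _ => True)

theorem IsRep.inj_U (hρ : S.IsRep ρ) {u : G} (hu : u ∈ S.U) (h1 : ρ u = 1) : u = 1 := by
  refine hρ.inj_fil_zero n u ?_ h1
  have : S.U ≤ S.UP (Fil n 0) := by
    unfold U UP
    rw [Subgroup.closure_le]
    rintro _ ⟨i, j, a, hij, hP, rfl⟩
    exact S.x_mem_UP hij (Or.inl j.isLt) a
  exact this hu

/-! ### The Bruhat decomposition -/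

theorem mono_of_NS (hn : 3 ≤ n) {g : G} (hg : g ∈ S.NS Finset.univ) :
    ∃ σ : Equiv.Perm (Fin n), ∀ k l : Fin n, k ≠ l → ∀ a : F, ∃ b : F,
      MulAut.conj g (S.x k l a) = S.x (σ k) (σ l) b := by
  have key : ∀ i j : Fin n, i ≠ j → ∀ y : G, (∃ σ : Equiv.Perm (Fin n), ∀ k l : Fin n, k ≠ l →
      ∀ a : F, ∃ b : F, MulAut.conj y (S.x k l a) = S.x (σ k) (σ l) b) →
      (∃ σ : Equiv.Perm (Fin n), ∀ k l : Fin n, k ≠ l →
      ∀ a : F, ∃ b : F, MulAut.conj (S.w i j * y) (S.x k l a) = S.x (σ k) (σ l) b) := by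
    rintro i j hij y ⟨σ, hσ⟩
    refine ⟨σ.trans (Equiv.swap i j), fun k l hkl a => ?_⟩
    obtain ⟨b, hb⟩ := hσ k l hkl a
    have hne : σ k ≠ σ l := fun h => hkl (σ.injective h)
    exact ⟨_, by rw [map_mul, MulAut.mul_apply, hb, S.cj_w hn hij hne]; rfl⟩
  unfold NS at hg
  induction hg using Subgroup.closure_induction_left with
  | one => exact ⟨1, fun k l _ a => ⟨a, by rw [map_one]; rfl⟩⟩
  | mul_left x hx y _ hy =>
    obtain ⟨k, hk, l, hl, hkl, rfl⟩ := hx
    exact key k l hkl y hy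
  | inv_mul_cancel x hx y _ hy =>
    obtain ⟨k, hk, l, hl, hkl, rfl⟩ := hx
    rw [S.w_inv hn hkl]
    exact key l k hkl.symm y hy

/-- `U` without the root `(i, i')` -/
def V (S : Stein n F G) (i i' : Fin n) : Subgroup G := S.UP (fun k l => ¬ (k = i ∧ l = i'))

theorem V_le_U (i i' : Fin n) : S.V i i' ≤ S.U := by
  unfold V U UP
  rw [Subgroup.closure_le]
  rintro _ ⟨k, l, a, hkl, _, rfl⟩
  exact S.x_mem_UP hkl trivial a

theorem V_cj {i i' : Fin n} (h : i < i') (b : F) {v : G} (hv : v ∈ S.V i i') :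
    MulAut.conj (S.x i i' b) v ∈ S.V i i' := by
  refine S.UP_induction (p := fun v => MulAut.conj (S.x i i' b) v ∈ S.V i i') ?_ ?_ hv
  · rw [map_one]; exact Subgroup.one_mem _
  · intro k l a hkl hP y _ hy
    rw [map_mul]
    refine Subgroup.mul_mem _ ?_ hy
    by_cases hk : k = i'
    · subst hk
      rw [S.cj_left h.ne hkl.ne (h.trans hkl).ne]
      refine Subgroup.mul_mem _ ?_ (S.x_mem_UP hkl hP a)
      exact S.x_mem_UP (h.trans hkl) (fun hh => hkl.ne hh.2.symm) _
    · by_cases hl : l = i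
      · subst hl
        rw [S.cj_right hkl.ne h.ne (hkl.trans h).ne]
        refine Subgroup.mul_mem _ ?_ (S.x_mem_UP hkl hP a)
        exact S.x_mem_UP (hkl.trans h) (fun hh => hkl.ne hh.1) _
      · rw [S.cj_comm h.ne hkl.ne (Ne.symm hk) (Ne.symm hl)]
        exact S.x_mem_UP hkl hP a

theorem U_dec {i i' : Fin n} (h : i < i') {u : G} (hu : u ∈ S.U) :
    ∃ v ∈ S.V i i', ∃ a : F, u = v * S.x i i' a := by
  refine S.UP_induction (p := fun u => ∃ v ∈ S.V i i', ∃ a : F, u = v * S.x i i' a) ?_ ?_ hu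
  · exact ⟨1, Subgroup.one_mem _, 0, by rw [S.x_zero h.ne, one_mul]⟩
  · rintro k l b hkl _ y _ ⟨v, hv, a, rfl⟩
    by_cases hc : k = i ∧ l = i'
    · obtain ⟨rfl, rfl⟩ := hc
      refine ⟨_, V_cj h b hv, b + a, ?_⟩
      rw [S.add h.ne, MulAut.conj_apply]; group
    · exact ⟨S.x k l b * v, Subgroup.mul_mem _ (S.x_mem_UP hkl hc b) hv, a, by rw [mul_assoc]⟩

theorem V_w (hn : 3 ≤ n) {i i' : Fin n} (h : i'.val = i.val + 1) {v : G} (hv : v ∈ S.V i i') :
    MulAut.conj (S.w i i') v ∈ S.U := by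
  have hlt : i < i' := by rw [Fin.lt_def]; omega
  refine S.UP_induction (p := fun v => MulAut.conj (S.w i i') v ∈ S.U) ?_ ?_ hv
  · rw [map_one]; exact Subgroup.one_mem _
  · intro k l a hkl hP y _ hy
    rw [map_mul]
    refine Subgroup.mul_mem _ ?_ hy
    rw [S.cj_w hn hlt.ne hkl.ne]
    refine S.x_mem_UP ?_ trivial _
    rw [Fin.lt_def] at hkl
    rw [Equiv.swap_apply_def, Equiv.swap_apply_def]
    split_ifs with h1 h2 h3 h4 h5 h6 h7 h8
    · subst h1 h2; omega
    · subst h1 h3; exact absurd ⟨rfl, rfl⟩ hP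
    · subst h1
      rw [Fin.lt_def]
      have : l.val ≠ i'.val := fun hh => h3 (Fin.ext hh)
      omega
    · subst h4 h5; omega
    · subst h4 h6; omega
    · subst h4; rw [Fin.lt_def]; omega
    · subst h7; rw [Fin.lt_def]; omega
    · subst h8
      rw [Fin.lt_def]
      have : k.val ≠ i.val := fun hh => h1 (Fin.ext hh)
      omega
    · exact hkl

/-- the big cell decomposition -/
def D (S : Stein n F G) : Set G :=
  {g | ∃ u ∈ S.U, ∃ m ∈ S.NS Finset.univ, ∃ u' ∈ S.U, g = u * m * u'}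

theorem D_U {g u : G} (hg : g ∈ S.D) (hu : u ∈ S.U) : u * g ∈ S.D := by
  obtain ⟨u1, h1, m, hm, u2, h2, rfl⟩ := hg
  exact ⟨u * u1, Subgroup.mul_mem _ hu h1, m, hm, u2, h2, by simp only [mul_assoc]⟩

theorem D_w (hn : 3 ≤ n) (hF : SmallF F) {i i' : Fin n} (h : i'.val = i.val + 1) {g : G}
    (hg : g ∈ S.D) : S.w i i' * g ∈ S.D := by
  have hlt : i < i' := by rw [Fin.lt_def]; omega
  obtain ⟨u, hu, m, hm, u', hu', rfl⟩ := hg
  obtain ⟨v, hv, a, rfl⟩ := U_dec hlt hu
  have hv' := V_w hn h hv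
  have hwN : S.w i i' ∈ S.NS Finset.univ := S.w_mem_NS (Finset.mem_univ _) (Finset.mem_univ _) hlt.ne
  obtain ⟨σ, hσ⟩ := mono_of_NS hn (Subgroup.inv_mem _ hm)
  have e1 : S.w i i' * (v * S.x i i' a * m * u') =
      MulAut.conj (S.w i i') v * (S.w i i' * (S.x i i' a * m) * u') := by
    rw [MulAut.conj_apply]; group
  rw [e1]
  refine D_U ?_ hv'
  by_cases hs : σ i < σ i'
  · obtain ⟨b, hb⟩ := hσ i i' hlt.ne a
    have e2 : S.x i i' a * m = m * S.x (σ i) (σ i') b := by
      rw [← hb, MulAut.conj_apply]; group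
    refine ⟨1, Subgroup.one_mem _, S.w i i' * m, Subgroup.mul_mem _ hwN hm,
      S.x (σ i) (σ i') b * u', Subgroup.mul_mem _ (S.x_mem_UP hs trivial b) hu', ?_⟩
    rw [e2]; simp only [one_mul, mul_assoc]
  · have hs' : σ i' < σ i := by
      rcases lt_trichotomy (σ i) (σ i') with h1 | h1 | h1
      · exact absurd h1 hs
      · exact absurd (σ.injective h1) hlt.ne
      · exact h1
    have hy : ∀ c : F, c = 1 ∨ c = -1 → ∃ m0 ∈ S.NS Finset.univ, ∃ d : F,
        S.x i' i c = S.x i i' d * m0 * S.x i i' d := by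
      rintro c (rfl | rfl)
      · refine ⟨(S.w i i')⁻¹, Subgroup.inv_mem _ hwN, 1, ?_⟩
        rw [S.w_def, S.x_neg hlt.ne']; group
      · refine ⟨S.w i i', hwN, -1, ?_⟩
        rw [S.w_def, S.x_neg hlt.ne, S.x_neg hlt.ne']; group
    have e3 : S.w i i' * S.x i i' a = S.x i' i (-a) * S.w i i' := by
      rw [← S.cj_w_ij hn hlt.ne, MulAut.conj_apply]; group
    rcases hF a with ha | ha
    · subst ha
      rw [S.x_zero hlt.ne, one_mul]
      exact ⟨1, Subgroup.one_mem _, S.w i i' * m, Subgroup.mul_mem _ hwN hm, u', hu', by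
        rw [one_mul]⟩
    · have ha' : -a = 1 ∨ -a = -1 := by
        rcases ha with h | h
        · right; rw [h]
        · left; rw [h, neg_neg]
      obtain ⟨m0, hm0, d, hd⟩ := hy (-a) ha'
      obtain ⟨b, hb⟩ := hσ i' i hlt.ne' (-d)
      have e4 : (S.w i i')⁻¹ * S.x i i' d * S.w i i' = S.x i' i (-d) := by
        have := S.cj_w_ji hn hlt.ne' d
        rw [MulAut.conj_apply, ← S.w_inv hn hlt.ne, inv_inv] at this
        exact this
      have e5 : S.x i i' d * S.w i i' * m = S.w i i' * m * S.x (σ i') (σ i) b := by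
        rw [← hb, MulAut.conj_apply, ← e4]; group
      refine ⟨S.x i i' d, S.x_mem_UP hlt trivial d, m0 * (S.w i i' * m),
        Subgroup.mul_mem _ hm0 (Subgroup.mul_mem _ hwN hm), S.x (σ i') (σ i) b * u',
        Subgroup.mul_mem _ (S.x_mem_UP hs' trivial b) hu', ?_⟩
      calc S.w i i' * (S.x i i' a * m) * u'
          = (S.w i i' * S.x i i' a) * m * u' := by simp only [mul_assoc]
        _ = S.x i' i (-a) * S.w i i' * m * u' := by rw [e3]
        _ = S.x i i' d * m0 * S.x i i' d * S.w i i' * m * u' := by rw [hd]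
        _ = S.x i i' d * m0 * (S.x i i' d * S.w i i' * m) * u' := by simp only [mul_assoc]
        _ = S.x i i' d * m0 * (S.w i i' * m * S.x (σ i') (σ i) b) * u' := by rw [e5]
        _ = _ := by simp only [mul_assoc]

theorem D_all (hn : 3 ≤ n) (hF : SmallF F)
    (hgen : Subgroup.closure {g | ∃ i j : Fin n, ∃ a : F, i ≠ j ∧ g = S.x i j a} = ⊤) (g : G) :
    g ∈ S.D := by
  -- the stabiliser of `D`
  have hx : ∀ d : ℕ, ∀ k l : Fin n, k ≠ l → k.val ≤ l.val + d → ∀ (a : F) (y : G), y ∈ S.D →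
      S.x k l a * y ∈ S.D := by
    intro d
    induction d with
    | zero =>
      intro k l hkl hd a y hy
      refine D_U hy (S.x_mem_UP ?_ trivial a)
      rw [Fin.lt_def]
      have : k.val ≠ l.val := fun h => hkl (Fin.ext h)
      omega
    | succ d ih =>
      intro k l hkl hd a y hy
      by_cases h0 : k.val ≤ l.val + d
      · exact ih k l hkl h0 a y hy
      · have hk := k.isLt
        by_cases h1 : d = 0
        · subst h1
          have hkl' : k.val = l.val + 1 := by omega
          have hlk : l < k := by rw [Fin.lt_def]; omega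
          have e : S.x k l a = S.w l k * S.x l k (-a) * (S.w l k)⁻¹ := by
            have := S.cj_w_ij hn hlk.ne (-a)
            rw [neg_neg, MulAut.conj_apply] at this
            exact this.symm
          have e3 : (S.w l k)⁻¹ = S.w l k * (S.w l k * S.w l k) := by
            rw [inv_eq_iff_mul_eq_one, ← S.w_four hn hF hlk.ne]; group
          rw [e, e3]
          simp only [mul_assoc]
          refine D_w hn hF hkl' ?_
          refine D_U ?_ (S.x_mem_UP hlk trivial _)
          exact D_w hn hF hkl' (D_w hn hF hkl' (D_w hn hF hkl' hy))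
        · obtain ⟨m, hm⟩ : ∃ m : Fin n, m.val = l.val + 1 := ⟨⟨l.val + 1, by omega⟩, rfl⟩
          have hkm : k ≠ m := fun h => by rw [h] at h0; omega
          have hml : m ≠ l := fun h => by rw [h] at hm; omega
          have e : S.x k l a = S.x k m a * S.x m l 1 * S.x k m (-a) * S.x m l (-1) := by
            rw [S.x_neg hkm, S.x_neg hml, ← S.brk' hkm hml hkl, mul_one]
          rw [e]
          simp only [mul_assoc]
          have i1 : k.val ≤ m.val + d := by omega
          have i2 : m.val ≤ l.val + d := by omega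
          exact ih k m hkm i1 _ _ (ih m l hml i2 _ _ (ih k m hkm i1 _ _ (ih m l hml i2 _ _ hy)))
  have hg : g ∈ Subgroup.closure {g | ∃ i j : Fin n, ∃ a : F, i ≠ j ∧ g = S.x i j a} := by
    rw [hgen]; trivial
  induction hg using Subgroup.closure_induction_left with
  | one => exact ⟨1, Subgroup.one_mem _, 1, Subgroup.one_mem _, 1, Subgroup.one_mem _, by simp⟩
  | mul_left x hx' y _ hy =>
    obtain ⟨i, j, a, hij, rfl⟩ := hx'
    exact hx n i j hij (by omega) a y hy
  | inv_mul_cancel x hx' y _ hy =>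
    obtain ⟨i, j, a, hij, rfl⟩ := hx'
    rw [← S.x_neg hij]
    exact hx n i j hij (by omega) (-a) y hy

/-! ### Faithfulness -/

theorem IsRep.ut (hρ : S.IsRep ρ) {u : G} (hu : u ∈ S.U) :
    ∀ (v : Fin n → F) (k : Fin n), (∀ m, k < m → v m = 0) →
      ρ u v k = v k ∧ ∀ m, k < m → ρ u v m = 0 := by
  refine S.UP_induction (p := fun u => ∀ (v : Fin n → F) (k : Fin n), (∀ m, k < m → v m = 0) →
      ρ u v k = v k ∧ ∀ m, k < m → ρ u v m = 0) ?_ ?_ hu
  · intro v k hv
    rw [map_one]; exact ⟨rfl, hv⟩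
  · intro i j a hij _ y _ hy v k hv
    obtain ⟨h1, h2⟩ := hy v k hv
    rw [map_mul, Module.End.mul_apply, hρ i j hij.ne]
    have key : ∀ m, k ≤ m → (Pi.single i (a * ρ y v j) : Fin n → F) m = 0 := by
      intro m hm
      by_cases him : m = i
      · subst him
        rw [Pi.single_eq_same, h2 j (lt_of_le_of_lt hm hij), mul_zero]
      · rw [Pi.single_eq_of_ne him]
    constructor
    · rw [Pi.add_apply, key k le_rfl, add_zero, h1]
    · intro m hm
      rw [Pi.add_apply, key m hm.le, add_zero, h2 m hm]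

theorem IsRep.sp (hn : 3 ≤ n) (hρ : S.IsRep ρ) {g : G} (hg : g ∈ S.NS Finset.univ) :
    ∀ (k : Fin n) (c : F), ∃ (m : Fin n) (d : F), ρ g (Pi.single k c) = Pi.single m d := by
  have key : ∀ i j : Fin n, i ≠ j → ∀ (k : Fin n) (c : F), ∃ (m : Fin n) (d : F),
      ρ (S.w i j) (Pi.single k c) = Pi.single m d := by
    intro i j hij k c
    rw [hρ.w_apply hij]
    by_cases hki : k = i
    · subst hki
      refine ⟨j, -c, ?_⟩
      funext m
      by_cases h1 : m = k
      · subst h1; simp [hij, hij.symm]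
      · by_cases h2 : m = j
        · subst h2; simp [hij.symm]
        · simp [h1, h2]
    · by_cases hkj : k = j
      · subst hkj
        refine ⟨i, c, ?_⟩
        funext m
        by_cases h1 : m = i
        · subst h1; simp
        · by_cases h2 : m = k
          · subst h2; simp [h1, Ne.symm hki]
          · simp [h1, h2]
      · refine ⟨k, c, ?_⟩
        funext m
        by_cases h1 : m = i
        · subst h1; simp [Ne.symm hki, Ne.symm hkj]
        · by_cases h2 : m = j
          · subst h2; simp [h1, Ne.symm hki, Ne.symm hkj]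
          · simp [h1, h2]
  unfold NS at hg
  induction hg using Subgroup.closure_induction_left with
  | one => intro k c; exact ⟨k, c, by rw [map_one]; rfl⟩
  | mul_left x hx y _ hy =>
    obtain ⟨i, hi, j, hj, hij, rfl⟩ := hx
    intro k c
    obtain ⟨m, d, h⟩ := hy k c
    obtain ⟨m', d', h'⟩ := key i j hij m d
    exact ⟨m', d', by rw [map_mul, Module.End.mul_apply, h, h']⟩
  | inv_mul_cancel x hx y _ hy =>
    obtain ⟨i, hi, j, hj, hij, rfl⟩ := hx
    intro k c
    obtain ⟨m, d, h⟩ := hy k c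
    obtain ⟨m', d', h'⟩ := key j i hij.symm m d
    exact ⟨m', d', by rw [S.w_inv hn hij, map_mul, Module.End.mul_apply, h, h']⟩

/-- **Main theorem**: a group generated by elements with the Steinberg relations over a field
with units `±1` acts faithfully in the natural representation. -/
theorem IsRep.faithful (hn : 3 ≤ n) (hF : SmallF F) (hρ : S.IsRep ρ)
    (hgen : Subgroup.closure {g | ∃ i j : Fin n, ∃ a : F, i ≠ j ∧ g = S.x i j a} = ⊤)
    {g : G} (h1 : ρ g = 1) : g = 1 := by
  obtain ⟨u, hu, m, hm, u', hu', rfl⟩ := D_all hn hF hgen g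
  have hm1 : m = u⁻¹ * (u * m * u') * u'⁻¹ := by group
  have e1 : ρ m = ρ (u⁻¹ * u'⁻¹) := by
    rw [hm1, map_mul, map_mul, h1, mul_one, ← map_mul]
  have hUU : u⁻¹ * u'⁻¹ ∈ S.U := Subgroup.mul_mem _ (Subgroup.inv_mem _ hu) (Subgroup.inv_mem _ hu')
  have hm2 : ρ m = 1 := by
    refine LinearMap.pi_ext' fun k => LinearMap.ext_ring ?_
    simp only [LinearMap.coe_comp, Function.comp_apply, LinearMap.coe_single]
    obtain ⟨m', d, h⟩ := hρ.sp hn hm k 1
    have h2 := (hρ.ut hUU (Pi.single k 1) k (fun l hl => Pi.single_eq_of_ne hl.ne' _)).1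
    rw [← e1, h, Pi.single_eq_same] at h2
    have hk : m' = k := by
      by_contra hne
      rw [Pi.single_eq_of_ne (Ne.symm hne)] at h2
      exact zero_ne_one h2
    subst hk
    rw [Pi.single_eq_same] at h2
    rw [h, h2]; rfl
  have hm3 : m = 1 := hρ.inj_NS hn hF Finset.univ m hm hm2
  subst hm3
  rw [mul_one] at h1 ⊢
  exact hρ.inj_U (Subgroup.mul_mem _ hu hu') h1

theorem IsRep.injective (hn : 3 ≤ n) (hF : SmallF F) (hρ : S.IsRep ρ)
    (hgen : Subgroup.closure {g | ∃ i j : Fin n, ∃ a : F, i ≠ j ∧ g = S.x i j a} = ⊤) :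
    Function.Injective ρ :=
  (injective_iff_map_eq_one ρ).mpr fun _ h => hρ.faithful hn hF hgen h

end Stein

end Pool.Agent.CSP3
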