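import Pool.Agent.CSP3.Base
import Pool.Agent.CSP3.IA
import Pool.Agent.CSP3.SAut
import Pool.Agent.CSP3.SteinBN

/-!
# Automorphisms trivial on the homology modulo `p`

`p = 2` or `3`, `3 ≤ n`: an automorphism which acts trivially on `H_1(F_n; Z/p)` is a product of an
element of `J1 n` and of conjugates of `p`-th powers of transvections.
-/

set_option autoImplicit false

namespace Pool.Agent.CSP3

open scoped commutatorElement

variable {n : ℕ}

/-- exponent sums modulo `p` -/
def ab (p : ℕ) : F n →* Multiplicative (Fin n → ZMod p) :=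
  FreeGroup.lift (fun i => Multiplicative.ofAdd (Pi.single i 1))

namespace SQ

theorem abM_eq_one {p : ℕ} {φ : A n} (h : ∀ k, ab p (φ (x k)) = ab p (x k)) :
    SA.abM p φ = 1 := by
  rw [← SA.abM_one (α := Fin n) p]
  ext i j
  unfold SA.abM
  have := h j
  rw [MulAut.one_apply]
  exact congrArg (fun f : Multiplicative (Fin n → ZMod p) => Multiplicative.toAdd f i) this

/-- the representation on the homology -/
noncomputable def rho0 (n p : ℕ) : A n →* Module.End (ZMod p) (Fin n → ZMod p) where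
  toFun φ := Matrix.toLin' (SA.abM p φ)
  map_one' := by rw [SA.abM_one, Matrix.toLin'_one]; rfl
  map_mul' φ ψ := by rw [SA.abM_mul, Matrix.toLin'_mul]; rfl

theorem rho0_eq_one {p : ℕ} {φ : A n} (h : ∀ k, ab p (φ (x k)) = ab p (x k)) :
    rho0 n p φ = 1 := by
  show Matrix.toLin' (SA.abM p φ) = 1
  rw [abM_eq_one h, Matrix.toLin'_one]; rfl

theorem rho0_R {p : ℕ} {i j : Fin n} (h : i ≠ j) (v : Fin n → ZMod p) :
    rho0 n p (R j (x i)) v = v + Pi.single i (v j) := by
  show Matrix.toLin' (SA.abM p (R j (x i))) v = _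
  have e : SA.abM p (R j (x i)) = Matrix.transvection i j 1 := by
    ext a b
    unfold SA.abM Matrix.transvection
    rw [Matrix.add_apply, Matrix.one_apply, Matrix.single_apply]
    by_cases hb : b = j
    · subst hb
      have : R b (x i) (FreeGroup.of b) = x b * x i := by
        have := R_apply_self b (x i)
        rwa [kill_ne h] at this
      rw [this, map_mul, SA.ab_of, SA.ab_of, toAdd_mul, toAdd_ofAdd, toAdd_ofAdd, Pi.add_apply,
        Pi.single_apply, Pi.single_apply]
      simp [eq_comm]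
    · have : R j (x i) (FreeGroup.of b) = x b := R_apply_ne hb _
      rw [this, SA.ab_of, toAdd_ofAdd, Pi.single_apply]
      simp [Ne.symm hb]
  rw [e, Matrix.toLin'_apply]
  unfold Matrix.transvection
  rw [Matrix.add_mulVec, Matrix.one_mulVec]
  congr 1
  funext k
  rw [Matrix.single_mulVec]
  simp [Function.update_apply, Pi.single_apply]

/-- the kernel -/
def K (n p : ℕ) : Subgroup (A n) :=
  J1 n ⊔ Subgroup.normalClosure {g : A n | ∃ i j : Fin n, i ≠ j ∧ g = R i (x j) ^ p}

instance (p : ℕ) : (K n p).Normal := by unfold K; infer_instance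

theorem J1_le_K (p : ℕ) : J1 n ≤ K n p := le_sup_left

theorem pow_mem_K (p : ℕ) {i j : Fin n} (h : i ≠ j) : R i (x j) ^ p ∈ K n p :=
  Subgroup.mem_sup_right (Subgroup.subset_normalClosure ⟨i, j, h, rfl⟩)

theorem ab_of_J1 (p : ℕ) {g : A n} (hg : g ∈ J1 n) : rho0 n p g = 1 := by
  have h : J1 n ≤ (rho0 n p).ker := by
    conv_lhs => rw [J1]
    rw [Subgroup.closure_le]
    rintro _ (⟨i, j, hij, rfl⟩ | ⟨i, j, k, hij, hik, hjk, rfl⟩)
    · refine rho0_eq_one fun k => ?_
      by_cases hk : k = i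
      · subst hk
        rw [C_apply_self, map_mul, map_mul, map_inv, mul_comm _ (ab p (x k)), mul_assoc,
          inv_mul_cancel, mul_one]
      · rw [C_apply_ne hk]
    · refine rho0_eq_one fun k' => ?_
      by_cases hk : k' = i
      · subst hk
        rw [R_apply_self, map_mul, map_commutatorElement, map_commutatorElement,
          commutatorElement_eq_one_iff_mul_comm.mpr (mul_comm _ _), mul_one]
      · rw [R_apply_ne hk]
  exact h hg

theorem rho0_R_pow {p : ℕ} {i j : Fin n} (h : i ≠ j) (m : ℕ) (v : Fin n → ZMod p) :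
    (rho0 n p (R j (x i)) ^ m) v = v + Pi.single i ((m : ZMod p) * v j) := by
  induction m generalizing v with
  | zero => simp
  | succ m ih =>
    rw [pow_succ, Module.End.mul_apply, ih, rho0_R h, Pi.add_apply, Pi.single_eq_of_ne h.symm,
      add_zero, add_assoc, ← Pi.single_add]
    congr 2
    push_cast
    ring

theorem K_le_ker (p : ℕ) : K n p ≤ (rho0 n p).ker := by
  unfold K
  refine sup_le (fun g hg => ab_of_J1 p hg) (Subgroup.normalClosure_le_normal ?_)
  rintro _ ⟨i, j, hij, rfl⟩
  show rho0 n p (R i (x j) ^ p) = 1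
  rw [map_pow]
  refine LinearMap.ext fun v => ?_
  rw [rho0_R_pow hij.symm]
  simp

/-- the representation of the quotient -/
noncomputable def rhoQ (n p : ℕ) : A n ⧸ K n p →* Module.End (ZMod p) (Fin n → ZMod p) :=
  QuotientGroup.lift (K n p) (rho0 n p) (K_le_ker p)

theorem rhoQ_mk (p : ℕ) (φ : A n) : rhoQ n p (QuotientGroup.mk φ) = rho0 n p φ := rfl

/-- the class of a transvection -/
def tc (p : ℕ) (i j : Fin n) : A n ⧸ K n p := QuotientGroup.mk (R j (x i))

theorem tc_pow (p : ℕ) {i j : Fin n} (h : i ≠ j) : tc (n := n) p i j ^ p = 1 := by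
  show (QuotientGroup.mk (R j (x i) ^ p) : A n ⧸ K n p) = 1
  rw [QuotientGroup.eq_one_iff]
  exact pow_mem_K p h.symm

theorem tc_comm (p : ℕ) {i j k l : Fin n} (hjk : j ≠ k) (hil : i ≠ l) :
    Commute (tc (n := n) p i j) (tc p k l) := by
  by_cases hjl : j = l
  · subst hjl
    rw [← commutatorElement_eq_one_iff_commute]
    show (QuotientGroup.mk ⁅R j (x i), R j (x k)⁆ : A n ⧸ K n p) = 1
    rw [QuotientGroup.eq_one_iff, ← map_commutatorElement]
    exact J1_le_K p (R_mem_J1 _ (comm_mem_lcs1 _ _))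
  · have h := R_conj_R (i := l) (j := j) (Ne.symm hjl) (x_mem_O hil) (x k)
    rw [R_apply_ne hjk.symm, mul_inv_eq_iff_eq_mul] at h
    exact congrArg (QuotientGroup.mk (s := K n p)) h

theorem tc_brk (p : ℕ) {i j k : Fin n} (hij : i ≠ j) (hjk : j ≠ k) (hik : i ≠ k) :
    tc (n := n) p i j * tc p j k = tc p i k * (tc p j k * tc p i j) := by
  have h := R_conj_R (i := k) (j := j) hjk.symm (x_mem_O hik) (x j)
  rw [R_apply_self, kill_ne hij, map_mul, mul_inv_eq_iff_eq_mul] at h
  have h2 : tc (n := n) p i j * tc p j k = tc p j k * tc p i k * tc p i j :=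
    congrArg (QuotientGroup.mk (s := K n p)) h
  rw [h2, (tc_comm (n := n) p (i := j) (j := k) (k := i) (l := k) hik.symm hjk).eq, mul_assoc]

theorem pow_brk {G : Type*} [Group G] {X Y Z : G} (h : X * Y = Z * (Y * X)) (hX : Commute Z X)
    (hY : Commute Z Y) (a b : ℕ) : X ^ a * Y ^ b = Z ^ (a * b) * (Y ^ b * X ^ a) := by
  have h1 : ∀ b : ℕ, X * Y ^ b = Z ^ b * (Y ^ b * X) := by
    intro b
    induction b with
    | zero => simp
    | succ b ih =>
      calc X * Y ^ (b + 1) = (X * Y ^ b) * Y := by rw [pow_succ, mul_assoc]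
        _ = Z ^ b * Y ^ b * (X * Y) := by rw [ih]; simp only [mul_assoc]
        _ = Z ^ b * (Y ^ b * Z) * (Y * X) := by rw [h]; simp only [mul_assoc]
        _ = Z ^ b * (Z * Y ^ b) * (Y * X) := by rw [(hY.pow_right b).eq]
        _ = _ := by rw [pow_succ, pow_succ]; simp only [mul_assoc]
  induction a with
  | zero => simp
  | succ a ih =>
    calc X ^ (a + 1) * Y ^ b = X ^ a * (X * Y ^ b) := by rw [pow_succ, mul_assoc]
      _ = X ^ a * Z ^ b * (Y ^ b * X) := by rw [h1]; simp only [mul_assoc]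
      _ = Z ^ b * X ^ a * (Y ^ b * X) := by rw [((hX.pow_left b).pow_right a).eq]
      _ = Z ^ b * (X ^ a * Y ^ b) * X := by simp only [mul_assoc]
      _ = Z ^ b * Z ^ (a * b) * (Y ^ b * X ^ a) * X := by rw [ih]; simp only [mul_assoc]
      _ = _ := by
        rw [← pow_add, show b + a * b = (a + 1) * b by ring, pow_succ]
        simp only [mul_assoc]

/-- the group generated by the classes of the transvections -/
def GG (n p : ℕ) : Subgroup (A n ⧸ K n p) :=
  Subgroup.closure {g | ∃ i j : Fin n, i ≠ j ∧ g = tc p i j}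

theorem tc_mem (p : ℕ) {i j : Fin n} (h : i ≠ j) : tc p i j ∈ GG n p :=
  Subgroup.subset_closure ⟨i, j, h, rfl⟩

/-- the transvections as elements of `GG` (trivial on the diagonal) -/
noncomputable def tg (p : ℕ) (i j : Fin n) : GG n p :=
  if h : i ≠ j then ⟨tc p i j, tc_mem p h⟩ else 1

theorem tg_val (p : ℕ) {i j : Fin n} (h : i ≠ j) : (tg (n := n) p i j : A n ⧸ K n p) = tc p i j := by
  unfold tg; rw [dif_pos h]

variable {p : ℕ} [hp : Fact p.Prime]

theorem pow_val {G : Type*} [Group G] {g : G} (hg : g ^ p = 1) {m : ℕ} {a : ZMod p}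
    (h : (m : ZMod p) = a) : g ^ a.val = g ^ m := by
  rw [← h, ZMod.val_natCast, ← pow_mod_orderOf, ← pow_mod_orderOf g m]
  congr 1
  have : orderOf g ∣ p := orderOf_dvd_of_pow_eq_one hg
  exact Nat.mod_mod_of_dvd m this

/-- the Steinberg relations -/
noncomputable def stein (n : ℕ) (p : ℕ) [hp : Fact p.Prime] : Stein n (ZMod p) (GG n p) where
  x i j a := tg p i j ^ a.val
  add := by
    intro i j h a b
    have hg : (tg p i j : GG n p) ^ p = 1 := by
      apply Subtype.ext
      rw [Subgroup.coe_pow, tg_val p h, tc_pow p h, Subgroup.coe_one]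
    rw [← pow_add]
    exact pow_val hg (by rw [Nat.cast_add, ZMod.natCast_zmod_val, ZMod.natCast_zmod_val])
  comm := by
    intro i j k l h1 h2 h3 h4 a b
    apply Subtype.ext
    rw [Subgroup.coe_mul, Subgroup.coe_mul, Subgroup.coe_pow, Subgroup.coe_pow, tg_val p h1,
      tg_val p h2]
    exact ((tc_comm p h3 h4).pow_left _).pow_right _
  brk := by
    intro i j k h1 h2 h3 a b
    have hg : (tg p i k : GG n p) ^ p = 1 := by
      apply Subtype.ext
      rw [Subgroup.coe_pow, tg_val p h3, tc_pow p h3, Subgroup.coe_one]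
    rw [pow_val hg (m := a.val * b.val)
      (by rw [Nat.cast_mul, ZMod.natCast_zmod_val, ZMod.natCast_zmod_val])]
    apply Subtype.ext
    rw [Subgroup.coe_mul, Subgroup.coe_mul, Subgroup.coe_mul, Subgroup.coe_pow, Subgroup.coe_pow,
      Subgroup.coe_pow, tg_val p h1, tg_val p h2, tg_val p h3, mul_assoc]
    exact pow_brk (tc_brk p h1 h2 h3) (tc_comm p h3.symm h1) (tc_comm p h2.symm.symm.symm h3) _ _

theorem pow_rho {M : Type*} [Monoid M] {G : Type*} [Group G] (f : G →* M) (g : G) (m : ℕ) :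
    f (g ^ m) = f g ^ m := map_pow f g m

/-- the representation of `GG` -/
noncomputable def rhoG (n p : ℕ) : GG n p →* Module.End (ZMod p) (Fin n → ZMod p) :=
  (rhoQ n p).comp (GG n p).subtype

theorem isRep : (stein n p).IsRep (rhoG n p) := by
  intro i j h a v
  show rhoG n p (tg p i j ^ a.val) v = _
  rw [map_pow]
  have : rhoG n p (tg p i j) = rho0 n p (R j (x i)) := by
    show rhoQ n p (tg p i j : A n ⧸ K n p) = _
    rw [tg_val p h]
    rfl
  rw [this, rho0_R_pow h, ZMod.natCast_zmod_val]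

theorem gen : Subgroup.closure {g | ∃ i j : Fin n, ∃ a : ZMod p, i ≠ j ∧ g = (stein n p).x i j a} =
    ⊤ := by
  rw [eq_top_iff]
  rintro ⟨g, hg⟩ -
  have key : ∀ g ∈ GG n p, ∀ h : g ∈ GG n p, (⟨g, h⟩ : GG n p) ∈
      Subgroup.closure {g | ∃ i j : Fin n, ∃ a : ZMod p, i ≠ j ∧ g = (stein n p).x i j a} := by
    intro g hg
    induction hg using Subgroup.closure_induction with
    | mem g hg =>
      obtain ⟨i, j, hij, rfl⟩ := hg
      intro h
      refine Subgroup.subset_closure ⟨i, j, 1, hij, ?_⟩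
      apply Subtype.ext
      show tc p i j = ((tg p i j ^ (1 : ZMod p).val : GG n p) : A n ⧸ K n p)
      rw [ZMod.val_one, pow_one, tg_val p hij]
    | one => intro h; exact Subgroup.one_mem _
    | mul a b ha hb iha ihb =>
      intro h
      have : (⟨a * b, h⟩ : GG n p) = ⟨a, ha⟩ * ⟨b, hb⟩ := rfl
      rw [this]
      exact Subgroup.mul_mem _ (iha ha) (ihb hb)
    | inv a ha iha =>
      intro h
      have : (⟨a⁻¹, h⟩ : GG n p) = ⟨a, ha⟩⁻¹ := rfl
      rw [this]
      exact Subgroup.inv_mem _ (iha ha)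
  exact key g hg hg

/-- elements of `SAut` which act trivially on the homology modulo `p` -/
theorem mem_K (hn : 3 ≤ n) (hF : Stein.SmallF (ZMod p)) {α : A n} (h1 : α ∈ SA.SAut (Fin n))
    (h2 : rho0 n p α = 1) : α ∈ K n p := by
  have hle : SA.SAut (Fin n) ≤ (GG n p).comap (QuotientGroup.mk' (K n p)) := by
    unfold SA.SAut
    rw [Subgroup.closure_le]
    rintro ν ⟨i, j, hij, hν1, hν2⟩
    show QuotientGroup.mk' (K n p) ν ∈ GG n p
    rcases hν2 with hν2 | hν2
    · have : ν = R i (x j) := by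
        refine A_ext fun k => ?_
        by_cases hk : k = i
        · subst hk; rw [R_apply_self, kill_ne hij.symm]; exact hν2
        · rw [R_apply_ne hk]; exact hν1 k hk
      subst this
      exact tc_mem p hij.symm
    · have : ν = R i (x j) * (C i (x j))⁻¹ := by
        have : ν = (L i (x j))⁻¹ := by
          rw [← map_inv]
          refine A_ext fun k => ?_
          by_cases hk : k = i
          · subst hk
            rw [L_def, tv_self, map_inv, kill_ne hij.symm, map_one, mul_one, inv_inv]; exact hν2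
          · rw [L_def, tv_ne hk]; exact hν1 k hk
        rw [this, L_eq, mul_inv_rev, inv_inv]
      subst this
      rw [map_mul, map_inv]
      refine (GG n p).mul_mem (tc_mem p hij.symm) ((GG n p).inv_mem ?_)
      have : QuotientGroup.mk' (K n p) (C i (x j)) = 1 :=
        (QuotientGroup.eq_one_iff _).mpr (J1_le_K p (C_mem_J1 _ _))
      rw [this]
      exact (GG n p).one_mem
  have hG : QuotientGroup.mk' (K n p) α ∈ GG n p := hle h1
  have h3 : (⟨QuotientGroup.mk' (K n p) α, hG⟩ : GG n p) = 1 :=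
    isRep.faithful hn hF gen (show rhoQ n p (QuotientGroup.mk α) = 1 by rw [rhoQ_mk]; exact h2)
  exact (QuotientGroup.eq_one_iff _).mp (congrArg Subtype.val h3)

end SQ

theorem small_three : ∀ a : ZMod 3, a = 0 ∨ a = 1 ∨ a = -1 := by decide

theorem small_two : ∀ a : ZMod 2, a = 0 ∨ a = 1 ∨ a = -1 := by decide

theorem stein_three (hn : 3 ≤ n) {α : A n} (hα : ∀ w, ab 3 (α w) = ab 3 w) :
    α ∈ J1 n ⊔ Subgroup.normalClosure {g : A n | ∃ i j : Fin n, i ≠ j ∧ g = R i (x j) ^ 3} := by
  have : Fact (Nat.Prime 3) := ⟨Nat.prime_three⟩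
  have : Nonempty (Fin n) := ⟨⟨0, by omega⟩⟩
  have h1 : α ∈ SA.SAut (Fin n) := SA.mem_saut (k := 3) le_rfl hα
  exact SQ.mem_K (p := 3) hn small_three h1 (SQ.rho0_eq_one fun k => hα (x k))

theorem ab_two_of_four (w : F n) :
    Multiplicative.toAdd (ab 2 w) = fun i => ZMod.castHom (show 2 ∣ 4 by norm_num) (ZMod 2)
      (Multiplicative.toAdd (ab 4 w) i) := by
  induction w using FreeGroup.induction_on with
  | C1 => funext i; simp
  | of j =>
    funext i
    simp only [ab, FreeGroup.lift_apply_of, toAdd_ofAdd, Pi.single_apply]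
    split_ifs <;> simp
  | inv_of j hj =>
    rw [map_inv (ab 2), map_inv (ab 4), toAdd_inv, toAdd_inv, hj]
    funext i
    simp
  | mul x y hx hy =>
    rw [map_mul (ab 2), map_mul (ab 4), toAdd_mul, toAdd_mul, hx, hy]
    funext i
    simp

/-- for `p = 2` the determinant of `α` over the integers has to be one: we ask that `α` acts
trivially on `H_1(F; Z/4)` -/
theorem stein_two (hn : 3 ≤ n) {α : A n} (hα : ∀ w, ab 4 (α w) = ab 4 w) :
    α ∈ J1 n ⊔ Subgroup.normalClosure {g : A n | ∃ i j : Fin n, i ≠ j ∧ g = R i (x j) ^ 2} := by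
  have : Fact (Nat.Prime 2) := ⟨Nat.prime_two⟩
  have : Nonempty (Fin n) := ⟨⟨0, by omega⟩⟩
  have h1 : α ∈ SA.SAut (Fin n) := SA.mem_saut (k := 4) (by norm_num) hα
  refine SQ.mem_K (p := 2) hn small_two h1 (SQ.rho0_eq_one fun k => ?_)
  apply Multiplicative.toAdd.injective
  rw [ab_two_of_four, ab_two_of_four, hα]

end Pool.Agent.CSP3
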