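import Pool.Agent.CSP3.Theta
import Pool.Agent.CSP3.Lev1
import Pool.Agent.CSP3.Lev2C
import Pool.Agent.CSP3.Lev3
import Pool.Agent.CSP3.SteinQ
import Pool.Agent.CSP3.Dual

/-!
# The assembly for `p = 3`
-/

set_option autoImplicit false

namespace Pool.Agent.CSP3

open scoped commutatorElement

variable {n : ℕ}

/-- the normal subgroup generated by the cubes of the transvections and the `C i w`,
`w ∈ γ_{k+1}` -/
def NC (n k : ℕ) : Subgroup (A n) :=
  N0 n ⊔ Subgroup.normalClosure {g | ∃ i : Fin n, ∃ w ∈ gam n k, g = C i w}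

instance N0_normal : (N0 n).Normal := Subgroup.normalClosure_normal

instance NC_normal (k : ℕ) : (NC n k).Normal := by
  unfold NC; infer_instance

theorem cube_mem_N0 {i j : Fin n} (h : i ≠ j) : R i (x j) ^ 3 ∈ N0 n :=
  Subgroup.subset_normalClosure ⟨i, j, h, rfl⟩

theorem N0_le_NC (k : ℕ) : N0 n ≤ NC n k := le_sup_left

theorem C_mem_NC {k : ℕ} (i : Fin n) {w : F n} (hw : w ∈ gam n k) : C i w ∈ NC n k :=
  (le_sup_right : _ ≤ NC n k) (Subgroup.subset_normalClosure ⟨i, w, hw, rfl⟩)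

theorem N0_le_AA : N0 n ≤ AA 3 n 3 := by
  refine Subgroup.normalClosure_le_normal ?_
  rintro _ ⟨i, j, h, rfl⟩
  exact cube_mem_AA3 h

theorem gam_anti {k l : ℕ} (h : k ≤ l) : gam n l ≤ gam n k :=
  Subgroup.lowerCentralSeries_antitone _ h

theorem NC_le_AA {k : ℕ} (hk : 1 ≤ k) : NC n k ≤ AA 3 n 3 := by
  refine sup_le N0_le_AA (Subgroup.normalClosure_le_normal ?_)
  rintro _ ⟨i, w, hw, rfl⟩
  exact C_gam2_mem_AA3 i (gam_anti hk hw)

/-- the quotient map by a normal subgroup kills the cubes of the transvections -/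
theorem mk_cube {N : Subgroup (A n)} [N.Normal] (h : N0 n ≤ N) (i j : Fin n) (hij : i ≠ j) :
    QuotientGroup.mk' N (R i (x j)) ^ 3 = 1 := by
  rw [← map_pow]
  exact (QuotientGroup.eq_one_iff _).mpr (h (cube_mem_N0 hij))

theorem mk_C {k : ℕ} (i : Fin n) (w : F n) (hw : w ∈ gam n k) :
    QuotientGroup.mk' (NC n k) (C i w) = 1 :=
  (QuotientGroup.eq_one_iff _).mpr (C_mem_NC i hw)

theorem comm_mem_of_commute {G : Type*} [Group G] {N : Subgroup G} [N.Normal] {a b : G}
    (h : Commute (QuotientGroup.mk' N a) (QuotientGroup.mk' N b)) : ⁅a, b⁆ ∈ N := by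
  rw [← QuotientGroup.eq_one_iff]
  show QuotientGroup.mk' N ⁅a, b⁆ = 1
  rw [map_commutatorElement]
  exact commutatorElement_eq_one_iff_commute.mpr h

theorem mem_sup_of_mk {G : Type*} [Group G] {N J : Subgroup G} [N.Normal] {a : G}
    (h : QuotientGroup.mk' N a ∈ J.map (QuotientGroup.mk' N)) : a ∈ J ⊔ N := by
  obtain ⟨b, hb, hab⟩ := h
  have : b⁻¹ * a ∈ N := by
    rw [← QuotientGroup.eq_one_iff]
    show QuotientGroup.mk' N (b⁻¹ * a) = 1
    rw [map_mul, map_inv, hab, inv_mul_cancel]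
  have e : a = b * (b⁻¹ * a) := by group
  rw [e]
  exact (J ⊔ N).mul_mem (Subgroup.mem_sup_left hb) (Subgroup.mem_sup_right this)

theorem ab_eq (p : ℕ) (g : F n) :
    ab p g = Multiplicative.ofAdd (fun j => mu p [j] g) := by
  let f : F n →* Multiplicative (Fin n → ZMod p) :=
    { toFun := fun g => Multiplicative.ofAdd (fun j => mu p [j] g)
      map_one' := by
        have : (fun j : Fin n => mu p [j] (1 : F n)) = 0 := by
          funext j
          exact mu_one (by simp)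
        rw [this]; rfl
      map_mul' := by
        intro a b
        rw [← ofAdd_add]
        congr 1
        funext j
        rw [mu_mul]
        simp [Finset.sum_range_succ, mu_nil, add_comm] }
  have : ab p = f := by
    refine FreeGroup.ext_hom _ _ fun i => ?_
    show ab p (x i) = Multiplicative.ofAdd (fun j => mu p [j] (x i))
    have : ab p (x i) = Multiplicative.ofAdd (Pi.single i 1) := by simp [ab]
    rw [this]
    congr 1
    funext j
    rw [mu_x, Pi.single_apply]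
  rw [this]
  rfl

theorem ab_of_mem_DD {p : ℕ} {g : F n} (h : g ∈ DD p n 2) : ab p g = 1 := by
  rw [ab_eq]
  have : (fun j => mu p [j] g) = (0 : Fin n → ZMod p) := by
    funext j
    exact h [j] (by simp) (by simp)
  rw [this]; rfl

theorem mem_J1_of_AA (hn : 3 ≤ n) {α : A n} (hα : α ∈ AA 3 n 2) : α ∈ J1 n ⊔ N0 n := by
  refine stein_three hn fun w => ?_
  have h1 := ab_of_mem_DD (hα w)
  rwa [map_mul, map_inv, mul_inv_eq_one] at h1

/-! ### step 1 -/

abbrev S1 (n : ℕ) := {s : Fin n × Fin n × Fin n // s.2.1 < s.2.2}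

def gg1 (s : S1 n) : A n := g1 s.1.1 s.1.2.1 s.1.2.2

theorem g1_mem_J1 (i : Fin n) {j k : Fin n} (h : j < k) : g1 i j k ∈ J1 n := by
  unfold g1
  split_ifs with h1 h2
  · exact C_mem_J1 _ _
  · exact C_mem_J1 _ _
  · exact Subgroup.subset_closure (Or.inr ⟨i, j, k, h1, h2, h.ne, rfl⟩)

theorem J1_le_closure : J1 n ≤ Subgroup.closure (Set.range (gg1 (n := n))) := by
  refine (Subgroup.closure_le _).mpr ?_
  rintro _ (⟨i, j, hij, rfl⟩ | ⟨i, j, k, hij, hik, hjk, rfl⟩)
  · rcases lt_or_gt_of_ne hij with h | h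
    · refine Subgroup.subset_closure ⟨⟨(i, i, j), h⟩, ?_⟩
      simp [gg1, g1]
    · refine Subgroup.subset_closure ⟨⟨(i, j, i), h⟩, ?_⟩
      simp [gg1, g1, hij]
  · rcases lt_or_gt_of_ne hjk with h | h
    · refine Subgroup.subset_closure ⟨⟨(i, j, k), h⟩, ?_⟩
      simp [gg1, g1, hij, hik]
    · have e : R i ⁅x j, x k⁆ = (R i ⁅x k, x j⁆)⁻¹ := by
        rw [← map_inv, commutatorElement_inv]
      show R i ⁅x j, x k⁆ ∈ Subgroup.closure (Set.range (gg1 (n := n)))
      rw [e]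
      refine Subgroup.inv_mem _ (Subgroup.subset_closure ⟨⟨(i, k, j), h⟩, ?_⟩)
      simp [gg1, g1, hij, hik]

theorem g1_cube {Q : Type*} [Group Q] (q : A n →* Q)
    (hT : ∀ i j : Fin n, i ≠ j → q (R i (x j)) ^ 3 = 1) (i j k : Fin n) :
    q (g1 i j k) ^ 3 = 1 := by
  unfold g1
  split_ifs
  · exact qC_cube q hT _ _
  · exact qC_cube q hT _ _
  · exact qR_cube q hT _ _

theorem step1 (hn : 3 ≤ n) : AA 3 n 3 ≤ NC n 1 := by
  intro α hα
  have h1 : α ∈ J1 n ⊔ N0 n := mem_J1_of_AA hn (AA_anti (by norm_num) hα)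
  have hT := mk_cube (N0_le_NC (n := n) 1)
  have hcm : ∀ a ∈ J1 n, ∀ b ∈ J1 n, ⁅a, b⁆ ∈ NC n 1 := fun a ha b hb =>
    comm_mem_of_commute (lev1 _ hT (fun i w hw => mk_C i w hw) ha hb)
  refine dual (AA 3 n 2) (NC n 1) ((NC_le_AA le_rfl).trans (AA_anti (by norm_num))) gg1
    (fun s => J1_le_AA2 (g1_mem_J1 _ s.2)) (fun s t => hcm _ (g1_mem_J1 _ s.2) _ (g1_mem_J1 _ t.2))
    (fun s => ?_) (fun s a => lam1 s.1.1 s.1.2.1 s.1.2.2 a) (fun s a ha b hb => lam1_add _ _ _ ha hb)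
    (fun s a ha => lam1_AA3 _ _ _ (NC_le_AA le_rfl ha)) (fun s t hst => ?_)
    (fun s => lam1_on s.2) ?_ (fun s => lam1_AA3 _ _ _ hα)
  · rw [← QuotientGroup.eq_one_iff]
    exact g1_cube (QuotientGroup.mk' (NC n 1)) hT _ _ _
  · refine lam1_off s.2 t.2 ?_
    intro h
    exact hst (Subtype.ext h)
  · exact (sup_le_sup J1_le_closure (N0_le_NC 1)) h1

/-! ### step 2 -/

abbrev S2 (n : ℕ) :=
  {s : Fin n × Fin n × Fin n × Fin n // s.2.1 < s.2.2.1 ∧ s.2.2.1 < s.2.2.2}

def gg2 (s : S2 n) : A n := g2 s.1.1 s.1.2.1 s.1.2.2.1 s.1.2.2.2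

theorem comm_mem_gam1 (a b : F n) : ⁅a, b⁆ ∈ gam n 1 :=
  Subgroup.commutator_mem_commutator (Subgroup.mem_top a) (Subgroup.mem_top b)

theorem comm_mem_gam2 {a : F n} (ha : a ∈ gam n 1) (b : F n) : ⁅a, b⁆ ∈ gam n 2 :=
  Subgroup.commutator_mem_commutator ha (Subgroup.mem_top b)

theorem g2_mem_J2 (i j k l : Fin n) : g2 i j k l ∈ J2 n := by
  unfold g2
  split_ifs
  · exact Subgroup.subset_closure (Or.inl ⟨_, _, comm_mem_gam1 _ _, rfl⟩)
  · exact Subgroup.subset_closure (Or.inl ⟨_, _, comm_mem_gam1 _ _, rfl⟩)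
  · exact Subgroup.subset_closure (Or.inl ⟨_, _, comm_mem_gam1 _ _, rfl⟩)
  · exact Subgroup.subset_closure (Or.inr ⟨_, _, comm_mem_gam2 (comm_mem_gam1 _ _) _, rfl⟩)

theorem J2_le_J1 : J2 n ≤ J1 n := by
  refine (Subgroup.closure_le _).mpr ?_
  rintro _ (⟨i, w, hw, rfl⟩ | ⟨i, w, hw, rfl⟩)
  · exact C_mem_J1 _ _
  · exact R_mem_J1 _ (gam_anti (by norm_num) hw)

theorem C_comm_mem_range (i : Fin n) {j k : Fin n} (h : j < k) :
    C i ⁅x j, x k⁆ ∈ Subgroup.closure (Set.range (gg2 (n := n))) := by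
  by_cases hij : i = j
  · subst hij
    have : C i ⁅x i, x k⁆ = 1 := by
      rw [map_commutatorElement, C_self, commutatorElement_one_left]
    rw [this]; exact Subgroup.one_mem _
  by_cases hik : i = k
  · subst hik
    have : C i ⁅x j, x i⁆ = 1 := by
      rw [map_commutatorElement, C_self, commutatorElement_one_right]
    rw [this]; exact Subgroup.one_mem _
  rcases lt_or_gt_of_ne hij with h1 | h1
  · refine Subgroup.subset_closure ⟨⟨(i, i, j, k), h1, h⟩, ?_⟩
    simp [gg2, g2]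
  · rcases lt_or_gt_of_ne hik with h2 | h2
    · refine Subgroup.subset_closure ⟨⟨(i, j, i, k), h1, h2⟩, ?_⟩
      simp [gg2, g2, hij]
    · refine Subgroup.subset_closure ⟨⟨(i, j, k, i), h, h2⟩, ?_⟩
      simp [gg2, g2, hij, hik]

theorem R_comm_mem_range (i : Fin n) {j k l : Fin n} (h : j < k) (h' : k < l) :
    R i ⁅⁅x j, x k⁆, x l⁆ ∈ Subgroup.closure (Set.range (gg2 (n := n))) := by
  by_cases hij : i = j
  · subst hij
    have : R i ⁅⁅x i, x k⁆, x l⁆ = 1 := by
      rw [map_commutatorElement, map_commutatorElement, R_self, commutatorElement_one_left,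
        commutatorElement_one_left]
    rw [this]; exact Subgroup.one_mem _
  by_cases hik : i = k
  · subst hik
    have : R i ⁅⁅x j, x i⁆, x l⁆ = 1 := by
      rw [map_commutatorElement, map_commutatorElement, R_self, commutatorElement_one_right,
        commutatorElement_one_left]
    rw [this]; exact Subgroup.one_mem _
  by_cases hil : i = l
  · subst hil
    have : R i ⁅⁅x j, x k⁆, x i⁆ = 1 := by
      rw [map_commutatorElement, R_self, commutatorElement_one_right]
    rw [this]; exact Subgroup.one_mem _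
  refine Subgroup.subset_closure ⟨⟨(i, j, k, l), h, h'⟩, ?_⟩
  simp [gg2, g2, hij, hik, hil]

theorem J2_le_closure : J2 n ≤ Subgroup.closure (Set.range (gg2 (n := n))) ⊔ NC n 2 := by
  refine (Subgroup.closure_le _).mpr ?_
  have hT := mk_cube (N0_le_NC (n := n) 2)
  rintro _ (⟨i, w, hw, rfl⟩ | ⟨i, w, hw, rfl⟩)
  · refine mem_sup_of_mk ?_
    have h := gen2 ((QuotientGroup.mk' (NC n 2)).comp (C i)) (fun w hw => mk_C i w hw) hw
    refine (Subgroup.closure_le _).mpr ?_ h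
    rintro _ ⟨j, k, hjk, rfl⟩
    exact Subgroup.mem_map_of_mem _ (C_comm_mem_range i hjk)
  · refine mem_sup_of_mk ?_
    have h := he_gen3 ((QuotientGroup.mk' (NC n 2)).comp (R i)) (fun w => qR_cube _ hT i w) hw
    refine (Subgroup.closure_le _).mpr ?_ h
    rintro _ ⟨j, k, l, hjk, hkl, rfl⟩
    exact Subgroup.mem_map_of_mem _ (R_comm_mem_range i hjk hkl)

theorem NC1_le (hn : 4 ≤ n) : NC n 1 ≤ J2 n ⊔ NC n 2 := by
  have hT := mk_cube (N0_le_NC (n := n) 2)
  have hnormal : (J2 n ⊔ NC n 2).Normal := by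
    refine ⟨fun b hb α => ?_⟩
    have h2 : QuotientGroup.mk' (NC n 2) b ∈ (J2 n).map (QuotientGroup.mk' (NC n 2)) := by
      have : (J2 n ⊔ NC n 2).map (QuotientGroup.mk' (NC n 2)) =
          (J2 n).map (QuotientGroup.mk' (NC n 2)) := by
        rw [Subgroup.map_sup]
        refine sup_eq_left.mpr ?_
        rw [QuotientGroup.map_mk'_self]; exact bot_le
      rw [← this]
      exact Subgroup.mem_map_of_mem _ hb
    obtain ⟨c, hc, hcb⟩ := h2
    have h3 := Lev2C.lev2_normal (QuotientGroup.mk' (NC n 2)) hn hT (fun i w hw => mk_C i w hw) α hc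
    refine mem_sup_of_mk ?_
    rw [map_mul, map_mul, ← hcb, ← map_mul, ← map_mul]
    exact h3
  refine sup_le ((N0_le_NC 2).trans le_sup_right) (Subgroup.normalClosure_le_normal ?_)
  rintro _ ⟨i, w, hw, rfl⟩
  exact Subgroup.mem_sup_left (Subgroup.subset_closure (Or.inl ⟨i, w, hw, rfl⟩))

theorem g2_cube {Q : Type*} [Group Q] (q : A n →* Q)
    (hT : ∀ i j : Fin n, i ≠ j → q (R i (x j)) ^ 3 = 1) (i j k l : Fin n) :
    q (g2 i j k l) ^ 3 = 1 := by
  unfold g2
  split_ifs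
  · exact qC_cube q hT _ _
  · exact qC_cube q hT _ _
  · exact qC_cube q hT _ _
  · exact qR_cube q hT _ _

theorem step2 (hn : 4 ≤ n) : AA 3 n 4 ≤ NC n 2 := by
  intro α hα
  have h1 : α ∈ J2 n ⊔ NC n 2 := NC1_le hn (step1 (by omega) (AA_anti (by norm_num) hα))
  have h2 : α ∈ Subgroup.closure (Set.range (gg2 (n := n))) ⊔ NC n 2 :=
    (sup_le J2_le_closure le_sup_right) h1
  have hT := mk_cube (N0_le_NC (n := n) 2)
  have hcm : ∀ a ∈ J2 n, ∀ b ∈ J2 n, ⁅a, b⁆ ∈ NC n 2 := fun a ha b hb =>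
    comm_mem_of_commute (lev2_comm _ hn hT (fun i w hw => mk_C i w hw) (J2_le_J1 ha) hb)
  refine dual (AA 3 n 3) (NC n 2) (NC_le_AA (by norm_num)) gg2
    (fun s => J2_le_AA3 (g2_mem_J2 _ _ _ _))
    (fun s t => hcm _ (g2_mem_J2 _ _ _ _) _ (g2_mem_J2 _ _ _ _))
    (fun s => ?_) (fun s a => lam2 s.1.1 s.1.2.1 s.1.2.2.1 s.1.2.2.2 a)
    (fun s a ha b hb => lam2_add _ _ _ _ ha hb)
    (fun s a ha => lam2_N _ _ _ _ ha) (fun s t hst => ?_)
    (fun s => lam2_on s.2.1 s.2.2) h2 (fun s => lam2_AA4 _ _ _ _ hα)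
  · rw [← QuotientGroup.eq_one_iff]
    exact g2_cube (QuotientGroup.mk' (NC n 2)) hT _ _ _ _
  · refine lam2_off s.2.1 s.2.2 t.2.1 t.2.2 ?_
    intro h
    exact hst (Subtype.ext h)

/-! ### step 3 -/

abbrev S3 (n : ℕ) := {s : Fin n × Fin n × Fin n // s.1 < s.2.1 ∧ s.2.1 < s.2.2}

theorem exists_out (hn : 4 ≤ n) (a b c : Fin n) : ∃ p : Fin n, p ≠ a ∧ p ≠ b ∧ p ≠ c := by
  obtain ⟨k, hk⟩ : ∃ k : Fin n, k ∉ ({a, b, c} : Finset (Fin n)) := by
    by_contra hc
    push Not at hc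
    have : (Finset.univ : Finset (Fin n)).card ≤ ({a, b, c} : Finset (Fin n)).card :=
      Finset.card_le_card (fun k _ => hc k)
    rw [Finset.card_univ, Fintype.card_fin] at this
    have h2 := Finset.card_le_three (a := a) (b := b) (c := c)
    omega
  simp only [Finset.mem_insert, Finset.mem_singleton, not_or] at hk
  exact ⟨k, hk.1, hk.2.1, hk.2.2⟩

noncomputable def out (hn : 4 ≤ n) (s : S3 n) : Fin n :=
  (exists_out hn s.1.1 s.1.2.1 s.1.2.2).choose

theorem out_spec (hn : 4 ≤ n) (s : S3 n) :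
    out hn s ≠ s.1.1 ∧ out hn s ≠ s.1.2.1 ∧ out hn s ≠ s.1.2.2 :=
  (exists_out hn s.1.1 s.1.2.1 s.1.2.2).choose_spec

noncomputable def gg3 (hn : 4 ≤ n) (s : S3 n) : A n :=
  C (out hn s) ⁅⁅x s.1.1, x s.1.2.1⁆, x s.1.2.2⁆

theorem triple_mem_gam2 (a b c : Fin n) : ⁅⁅x a, x b⁆, x c⁆ ∈ gam n 2 :=
  comm_mem_gam2 (comm_mem_gam1 _ _) _

theorem gg3_mem_J3 (hn : 4 ≤ n) (s : S3 n) : gg3 hn s ∈ J3 n :=
  Subgroup.subset_closure ⟨_, _, triple_mem_gam2 _ _ _, rfl⟩

theorem J3_le_J2 : J3 n ≤ J2 n := by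
  refine (Subgroup.closure_le _).mpr ?_
  rintro _ ⟨i, w, hw, rfl⟩
  exact Subgroup.subset_closure (Or.inl ⟨i, w, gam_anti (by norm_num) hw, rfl⟩)

theorem triple_mem_O {i a b c : Fin n} (ha : i ≠ a) (hb : i ≠ b) (hc : i ≠ c) :
    ⁅⁅x a, x b⁆, x c⁆ ∈ O i :=
  comm_mem_O (comm_mem_O (x_mem_O ha.symm) (x_mem_O hb.symm)) (x_mem_O hc.symm)

theorem J3_le_closure (hn : 4 ≤ n) :
    J3 n ≤ Subgroup.closure (Set.range (gg3 hn)) ⊔ N0 n := by
  refine (Subgroup.closure_le _).mpr ?_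
  have hT := mk_cube (le_refl (N0 n))
  rintro _ ⟨i, w, hw, rfl⟩
  refine mem_sup_of_mk ?_
  have h := he_gen3 ((QuotientGroup.mk' (N0 n)).comp (C i)) (fun w => qC_cube _ hT i w) hw
  refine (Subgroup.closure_le _).mpr ?_ h
  rintro _ ⟨j, k, l, hjk, hkl, rfl⟩
  show QuotientGroup.mk' (N0 n) (C i ⁅⁅x j, x k⁆, x l⁆) ∈ _
  by_cases hij : i = j
  · subst hij
    have : C i ⁅⁅x i, x k⁆, x l⁆ = 1 := by
      rw [map_commutatorElement, map_commutatorElement, C_self, commutatorElement_one_left,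
        commutatorElement_one_left]
    rw [this, map_one]; exact Subgroup.one_mem _
  by_cases hik : i = k
  · subst hik
    have : C i ⁅⁅x j, x i⁆, x l⁆ = 1 := by
      rw [map_commutatorElement, map_commutatorElement, C_self, commutatorElement_one_right,
        commutatorElement_one_left]
    rw [this, map_one]; exact Subgroup.one_mem _
  by_cases hil : i = l
  · subst hil
    have : C i ⁅⁅x j, x k⁆, x i⁆ = 1 := by
      rw [map_commutatorElement, C_self, commutatorElement_one_right]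
    rw [this, map_one]; exact Subgroup.one_mem _
  let s : S3 n := ⟨(j, k, l), hjk, hkl⟩
  obtain ⟨h1, h2, h3⟩ := out_spec hn s
  have e : QuotientGroup.mk' (N0 n) (C i ⁅⁅x j, x k⁆, x l⁆) =
      QuotientGroup.mk' (N0 n) (gg3 hn s) := by
    by_cases ho : i = out hn s
    · unfold gg3; rw [← ho]
    · exact lev3_eq _ hT ho (triple_mem_gam2 _ _ _) (triple_mem_O hij hik hil)
        (triple_mem_O h1 h2 h3)
  rw [e]
  exact Subgroup.mem_map_of_mem _ (Subgroup.subset_closure ⟨s, rfl⟩)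

theorem NC2_le (hn : 5 ≤ n) : NC n 2 ≤ J3 n ⊔ N0 n := by
  have hT := mk_cube (le_refl (N0 n))
  have hnormal : (J3 n ⊔ N0 n).Normal := by
    refine ⟨fun b hb α => ?_⟩
    have h2 : QuotientGroup.mk' (N0 n) b ∈ (J3 n).map (QuotientGroup.mk' (N0 n)) := by
      have : (J3 n ⊔ N0 n).map (QuotientGroup.mk' (N0 n)) =
          (J3 n).map (QuotientGroup.mk' (N0 n)) := by
        rw [Subgroup.map_sup]
        refine sup_eq_left.mpr ?_
        rw [QuotientGroup.map_mk'_self]; exact bot_le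
      rw [← this]
      exact Subgroup.mem_map_of_mem _ hb
    obtain ⟨c, hc, hcb⟩ := h2
    have h3 := lev3_normal (QuotientGroup.mk' (N0 n)) hn hT α hc
    refine mem_sup_of_mk ?_
    rw [map_mul, map_mul, ← hcb, ← map_mul, ← map_mul]
    exact h3
  refine sup_le le_sup_right (Subgroup.normalClosure_le_normal ?_)
  rintro _ ⟨i, w, hw, rfl⟩
  exact Subgroup.mem_sup_left (Subgroup.subset_closure ⟨i, w, hw, rfl⟩)

/-- **Theorem for `n ≥ 5`**: an automorphism of `F_n` which acts trivially modulo the fifth term of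
the Zassenhaus filtration modulo 3 is a product of conjugates of cubes of transvections. -/
theorem step3 (hn : 5 ≤ n) : AA 3 n 5 ≤ N0 n := by
  intro α hα
  have hn4 : 4 ≤ n := by omega
  have h1 : α ∈ J3 n ⊔ N0 n := NC2_le hn (step2 hn4 (AA_anti (by norm_num) hα))
  have h2 : α ∈ Subgroup.closure (Set.range (gg3 hn4)) ⊔ N0 n :=
    (sup_le (J3_le_closure hn4) le_sup_right) h1
  have hT := mk_cube (le_refl (N0 n))
  have hcm : ∀ a ∈ J3 n, ∀ b ∈ J3 n, ⁅a, b⁆ ∈ N0 n := fun a ha b hb =>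
    comm_mem_of_commute (lev3_comm _ hn hT (J2_le_J1 (J3_le_J2 ha)) hb)
  refine dual (AA 3 n 3) (N0 n) N0_le_AA (gg3 hn4)
    (fun s => J2_le_AA3 (J3_le_J2 (gg3_mem_J3 hn4 s)))
    (fun s t => hcm _ (gg3_mem_J3 hn4 s) _ (gg3_mem_J3 hn4 t))
    (fun s => ?_) (fun s a => lam3 s.1.1 s.1.2.1 s.1.2.2 a)
    (fun s a ha b hb => lam3_add _ _ _ ha hb)
    (fun s a ha => lam3_N0 s.2.1.ne (s.2.1.trans s.2.2).ne s.2.2.ne ha) (fun s t hst => ?_)
    (fun s => ?_) h2 (fun s => lam3_AA5 _ _ _ hα)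
  · rw [← QuotientGroup.eq_one_iff]
    exact qC_cube (QuotientGroup.mk' (N0 n)) hT _ _
  · obtain ⟨o1, o2, o3⟩ := out_spec hn4 t
    refine lam3_off s.2.1 s.2.2 t.2.1 t.2.2 ?_ o1 o2 o3
    intro h
    exact hst (Subtype.ext h)
  · obtain ⟨o1, o2, o3⟩ := out_spec hn4 s
    exact lam3_on s.2.1.ne (s.2.1.trans s.2.2).ne s.2.2.ne o1 o2 o3

/-! ### rank three -/

/-- in rank three the `C i w`, `w ∈ γ_2`, are products of conjugates of cubes of transvections and
of inner automorphisms -/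
theorem C_inn_three {Q : Type*} [Group Q] (q : A 3 →* Q)
    (hT : ∀ i j : Fin 3, i ≠ j → q (R i (x j)) ^ 3 = 1)
    (hI : ∀ g : F 3, q (MulAut.conj g) = 1) (i : Fin 3) (w : F 3) (hw : w ∈ gam 3 1) :
    q (C i w) = 1 := by
  have hconj : ∀ i j k : Fin 3, i ≠ j → i ≠ k → j ≠ k → q (C i (x j)) = (q (C k (x j)))⁻¹ := by
    intro i j k hij hik hjk
    rw [eq_inv_iff_mul_eq_one, ← map_mul]
    have : C i (x j) * C k (x j) = MulAut.conj (x j)⁻¹ := by
      refine A_ext fun m => ?_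
      show C i (x j) (C k (x j) (x m)) = (x j)⁻¹ * x m * ((x j)⁻¹)⁻¹
      rw [inv_inv]
      by_cases hmk : m = k
      · subst hmk
        rw [C_apply_self, kill_ne hjk, map_mul, map_mul, map_inv, C_apply_ne hij.symm,
          C_apply_ne hik.symm]
      · rw [C_apply_ne hmk]
        by_cases hmi : m = i
        · subst hmi; rw [C_apply_self, kill_ne hij.symm]
        · have hmj : m = j := by omega
          subst hmj
          rw [C_apply_ne hmi]; group
    rw [this]; exact hI _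
  -- the image of `q ∘ C i` is abelian
  have hcomm : ∀ j k : Fin 3, Commute (q (C i (x j))) (q (C i (x k))) := by
    intro j k
    by_cases hjk : j = k
    · subst hjk; exact Commute.refl _
    by_cases hij : i = j
    · subst hij; rw [C_self, map_one]; exact Commute.one_left _
    by_cases hik : i = k
    · subst hik; rw [C_self, map_one]; exact Commute.one_right _
    rw [hconj i j k hij hik hjk, hconj i k j hik hij (Ne.symm hjk)]
    exact (qbase q hT (Ne.symm hjk)).inv_inv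
  have hab : ∀ a b : F 3, Commute (q (C i a)) (q (C i b)) := by
    have h1 : ∀ (j : Fin 3) (b : F 3), Commute (q (C i (x j))) (q (C i b)) := by
      intro j b
      induction b using FreeGroup.induction_on with
      | C1 => rw [map_one, map_one]; exact Commute.one_right _
      | of k => exact hcomm j k
      | inv_of k hk => rw [map_inv, map_inv]; exact hk.inv_right
      | mul a b ha hb => rw [map_mul, map_mul]; exact ha.mul_right hb
    intro a b
    induction a using FreeGroup.induction_on with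
    | C1 => rw [map_one, map_one]; exact Commute.one_left _
    | of k => exact h1 k b
    | inv_of k hk => rw [map_inv, map_inv]; exact hk.inv_left
    | mul a c ha hc => rw [map_mul, map_mul]; exact ha.mul_left hc
  have hle : gam 3 1 ≤ (q.comp (C i)).ker := by
    refine Subgroup.commutator_le.mpr fun a _ b _ => ?_
    rw [MonoidHom.mem_ker, map_commutatorElement]
    exact commutatorElement_eq_one_iff_commute.mpr (hab a b)
  exact hle hw

/-- `N` contains the cubes of the transvections and the inner automorphisms; `n = 3` or `n ≥ 5` -/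
theorem main_three (hn : n = 3 ∨ 5 ≤ n) (N : Subgroup (A n)) [N.Normal]
    (hT : ∀ i j : Fin n, i ≠ j → R i (x j) ^ 3 ∈ N) (hI : ∀ g : F n, MulAut.conj g ∈ N) :
    AA 3 n 5 ≤ N := by
  have hN0 : N0 n ≤ N := by
    refine Subgroup.normalClosure_le_normal ?_
    rintro _ ⟨i, j, h, rfl⟩
    exact hT i j h
  rcases hn with rfl | hn
  · intro α hα
    have h1 := step1 (n := 3) le_rfl (AA_anti (by norm_num) hα)
    refine (sup_le hN0 (Subgroup.normalClosure_le_normal ?_) : NC 3 1 ≤ N) h1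
    rintro _ ⟨i, w, hw, rfl⟩
    show C i w ∈ N
    rw [← QuotientGroup.eq_one_iff]
    exact C_inn_three (QuotientGroup.mk' N) (mk_cube hN0)
      (fun g => (QuotientGroup.eq_one_iff _).mpr (hI g)) i w hw
  · exact (step3 hn).trans hN0

end Pool.Agent.CSP3
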