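import Pool.Agent.CSP3.Base

/-!
# Magnus coefficients modulo `p` (MODULE FOX)

`RR p n = MonoidAlgebra (ZMod p) (F n)`, `gg p : F n →* RR p n`, augmentation `aug p`,
Fox derivatives `dd p j : RR p n →ₗ RR p n` with `dd_mul : ∂_j (r * s) = r * ∂_j s + ε s • ∂_j r`,
`dd_x : ∂_j (x i) = δ_ij`, induced maps `mm p f` with the chain rule `dd_mm`,
`muR p w : RR p n →ₗ ZMod p`, `muR (w ++ [j]) r = muR w (∂_j r)`, the filtration `JJ p n k` of the
group ring (coefficients of degree `< k` vanish), and `mu p w g = muR p w (gg p g)` is the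
coefficient of `X_{w_1} ... X_{w_k}` in the Magnus expansion `x i ↦ 1 + X i`. -/

set_option autoImplicit false

namespace Pool.Agent.CSP3

open scoped commutatorElement

variable {n : ℕ}

/-! ### the group ring -/

/-- the group ring of the free group over `ZMod p` -/
abbrev RR (p n : ℕ) := MonoidAlgebra (ZMod p) (F n)

/-- group elements in the group ring -/
noncomputable def gg (p : ℕ) : F n →* RR p n := MonoidAlgebra.of (ZMod p) (F n)

/-- the augmentation -/
noncomputable def aug (p : ℕ) : RR p n →ₐ[ZMod p] ZMod p :=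
  MonoidAlgebra.lift (ZMod p) (ZMod p) (F n) 1

theorem aug_gg (p : ℕ) (g : F n) : aug p (gg p g) = 1 := by
  simp [aug, gg]

theorem RR_hom_ext {p : ℕ} {M : Type*} [AddCommMonoid M] [Module (ZMod p) M]
    {f g : RR p n →ₗ[ZMod p] M} (h : ∀ u : F n, f (gg p u) = g (gg p u)) : f = g := by
  refine MonoidAlgebra.lhom_ext' fun a => ?_
  refine LinearMap.ext_ring ?_
  exact h a

theorem gg_inv_mul (p : ℕ) (g : F n) : gg p g⁻¹ * gg p g = 1 := by
  rw [← map_mul, inv_mul_cancel, map_one]

theorem gg_mul_inv (p : ℕ) (g : F n) : gg p g * gg p g⁻¹ = 1 := by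
  rw [← map_mul, mul_inv_cancel, map_one]

/-- the map of group rings induced by an endomorphism of `F n` -/
noncomputable def mm (p : ℕ) (f : F n →* F n) : RR p n →ₐ[ZMod p] RR p n :=
  MonoidAlgebra.mapDomainAlgHom (ZMod p) (ZMod p) f

theorem mm_gg (p : ℕ) (f : F n →* F n) (g : F n) : mm p f (gg p g) = gg p (f g) := by
  simp [mm, gg]

theorem aug_mm (p : ℕ) (f : F n →* F n) (r : RR p n) : aug p (mm p f r) = aug p r := by
  have : (aug p).toLinearMap ∘ₗ (mm p f).toLinearMap = (aug p).toLinearMap := by
    refine RR_hom_ext fun u => ?_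
    simp only [LinearMap.comp_apply, AlgHom.toLinearMap_apply, mm_gg, aug_gg]
  exact LinearMap.congr_fun this r

theorem mm_comp (p : ℕ) (f f' : F n →* F n) (r : RR p n) :
    mm p f (mm p f' r) = mm p (f.comp f') r := by
  have : (mm p f).toLinearMap ∘ₗ (mm p f').toLinearMap = (mm p (f.comp f')).toLinearMap := by
    refine RR_hom_ext fun u => ?_
    simp only [LinearMap.comp_apply, AlgHom.toLinearMap_apply, mm_gg, MonoidHom.comp_apply]
  exact LinearMap.congr_fun this r

theorem mm_id (p : ℕ) (r : RR p n) : mm p (MonoidHom.id _) r = r := by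
  have : (mm p (MonoidHom.id (F n))).toLinearMap = LinearMap.id := by
    refine RR_hom_ext fun u => ?_
    simp only [AlgHom.toLinearMap_apply, mm_gg, MonoidHom.id_apply, LinearMap.id_apply]
  exact LinearMap.congr_fun this r

/-! ### Fox derivatives -/

/-- affine action of the free group on the group ring: `x i` acts by `r ↦ x i * r + δ_ij` -/
noncomputable def aff (p : ℕ) (j : Fin n) : F n →* Equiv.Perm (RR p n) :=
  FreeGroup.lift (fun i =>
    { toFun := fun r => gg p (x i) * r + (if i = j then 1 else 0)
      invFun := fun r => gg p (x i)⁻¹ * (r - (if i = j then 1 else 0))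
      left_inv := fun r => by
        beta_reduce
        rw [add_sub_cancel_right, ← mul_assoc, gg_inv_mul, one_mul]
      right_inv := fun r => by
        beta_reduce
        rw [← mul_assoc, gg_mul_inv, one_mul, sub_add_cancel] })

theorem aff_x (p : ℕ) (j i : Fin n) (r : RR p n) :
    aff p j (x i) r = gg p (x i) * r + (if i = j then 1 else 0) := by
  simp [aff]

/-- the Fox derivative of a group element -/
noncomputable def fox (p : ℕ) (j : Fin n) (g : F n) : RR p n := aff p j g 0

theorem aff_apply (p : ℕ) (j : Fin n) (g : F n) (r : RR p n) :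
    aff p j g r = gg p g * r + fox p j g := by
  induction g using FreeGroup.induction_on generalizing r with
  | C1 => simp [fox]
  | of i => simp [fox, aff_x]
  | inv_of i ih =>
    have key : ∀ r, aff p j (x i)⁻¹ r = gg p (x i)⁻¹ * (r - (if i = j then 1 else 0)) := by
      intro r
      rw [map_inv, Equiv.Perm.inv_def, Equiv.symm_apply_eq, aff_x, ← mul_assoc, gg_mul_inv, one_mul,
        sub_add_cancel]
    show aff p j (x i)⁻¹ r = gg p (x i)⁻¹ * r + aff p j (x i)⁻¹ 0
    rw [key, key]
    noncomm_ring
  | mul a b iha ihb =>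
    have h1 : ∀ r, aff p j (a * b) r = aff p j a (aff p j b r) := fun r => by
      rw [map_mul, Equiv.Perm.mul_apply]
    show aff p j (a * b) r = gg p (a * b) * r + aff p j (a * b) 0
    rw [h1, h1, ihb r, ihb 0, iha, iha (gg p b * 0 + fox p j b), map_mul]
    noncomm_ring

theorem fox_one (p : ℕ) (j : Fin n) : fox p j (1 : F n) = 0 := by simp [fox]

theorem fox_mul (p : ℕ) (j : Fin n) (g h : F n) :
    fox p j (g * h) = gg p g * fox p j h + fox p j g := by
  show aff p j (g * h) 0 = _
  rw [map_mul, Equiv.Perm.mul_apply, aff_apply p j g]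
  rfl

theorem fox_x (p : ℕ) (j i : Fin n) : fox p j (x i) = if i = j then 1 else 0 := by
  show aff p j (x i) 0 = _
  rw [aff_x, mul_zero, zero_add]

theorem fox_inv (p : ℕ) (j : Fin n) (g : F n) : fox p j g⁻¹ = -(gg p g⁻¹ * fox p j g) := by
  have h := fox_mul p j g⁻¹ g
  rw [inv_mul_cancel, fox_one] at h
  exact (neg_eq_of_add_eq_zero_right h.symm).symm

/-- the Fox derivative on the group ring -/
noncomputable def dd (p : ℕ) (j : Fin n) : RR p n →ₗ[ZMod p] RR p n :=
  (Finsupp.linearCombination (ZMod p) (fox p j)) ∘ₗ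
    (MonoidAlgebra.coeffLinearEquiv (ZMod p)).toLinearMap

theorem dd_gg (p : ℕ) (j : Fin n) (g : F n) : dd p j (gg p g) = fox p j g := by
  simp [dd, gg]

theorem dd_one (p : ℕ) (j : Fin n) : dd p j (1 : RR p n) = 0 := by
  rw [← map_one (gg p), dd_gg, fox_one]

theorem dd_mul (p : ℕ) (j : Fin n) (r s : RR p n) :
    dd p j (r * s) = r * dd p j s + aug p s • dd p j r := by
  have h1 : ∀ g : F n, (dd p j) ∘ₗ (LinearMap.mulLeft (ZMod p) (gg p g)) =
      (LinearMap.mulLeft (ZMod p) (gg p g)) ∘ₗ (dd p j) +
        (aug p).toLinearMap.smulRight (dd p j (gg p g)) := by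
    intro g
    refine RR_hom_ext fun u => ?_
    simp only [LinearMap.comp_apply, LinearMap.mulLeft_apply, LinearMap.add_apply,
      LinearMap.smulRight_apply, AlgHom.toLinearMap_apply, aug_gg, one_smul]
    rw [← map_mul, dd_gg, dd_gg, dd_gg, fox_mul]
  have h2 : ∀ (g : F n) (s : RR p n), dd p j (gg p g * s) = gg p g * dd p j s +
      aug p s • dd p j (gg p g) := fun g s => LinearMap.congr_fun (h1 g) s
  have h3 : (dd p j) ∘ₗ (LinearMap.mulRight (ZMod p) s) =
      LinearMap.mulRight (ZMod p) (dd p j s) + aug p s • (dd p j) := by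
    refine RR_hom_ext fun u => ?_
    simp only [LinearMap.comp_apply, LinearMap.mulRight_apply, LinearMap.add_apply,
      LinearMap.smul_apply]
    exact h2 u s
  exact LinearMap.congr_fun h3 r

/-- the chain rule for group elements -/
theorem fox_map (p : ℕ) (j : Fin n) (f : F n →* F n) (g : F n) :
    fox p j (f g) = ∑ k, mm p f (fox p k g) * fox p j (f (x k)) := by
  have hmul : ∀ a b : F n,
      (fox p j (f a) = ∑ k, mm p f (fox p k a) * fox p j (f (x k))) →
      (fox p j (f b) = ∑ k, mm p f (fox p k b) * fox p j (f (x k))) →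
      (fox p j (f (a * b)) = ∑ k, mm p f (fox p k (a * b)) * fox p j (f (x k))) := by
    intro a b ha hb
    rw [map_mul, fox_mul, ha, hb, Finset.mul_sum, ← Finset.sum_add_distrib]
    refine Finset.sum_congr rfl fun k _ => ?_
    rw [fox_mul, map_add, map_mul, mm_gg, add_mul, mul_assoc]
  induction g using FreeGroup.induction_on with
  | C1 => simp [fox_one]
  | of i =>
    show fox p j (f (x i)) = ∑ k, mm p f (fox p k (x i)) * fox p j (f (x k))
    rw [Finset.sum_eq_single i]
    · rw [fox_x, if_pos rfl, map_one, one_mul]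
    · intro k _ hk
      rw [fox_x, if_neg (fun h => hk h.symm), map_zero, zero_mul]
    · intro h; exact absurd (Finset.mem_univ i) h
  | inv_of i ih =>
    show fox p j (f (x i)⁻¹) = ∑ k, mm p f (fox p k (x i)⁻¹) * fox p j (f (x k))
    have ih' : fox p j (f (x i)) = ∑ k, mm p f (fox p k (x i)) * fox p j (f (x k)) := ih
    rw [map_inv, fox_inv, ih', Finset.mul_sum, ← Finset.sum_neg_distrib]
    refine Finset.sum_congr rfl fun k _ => ?_
    rw [fox_inv, map_neg, map_mul, mm_gg, map_inv f, neg_mul, mul_assoc]
  | mul a b iha ihb => exact hmul a b iha ihb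

/-- the chain rule -/
theorem dd_mm (p : ℕ) (j : Fin n) (f : F n →* F n) (r : RR p n) :
    dd p j (mm p f r) = ∑ k, mm p f (dd p k r) * fox p j (f (x k)) := by
  have : (dd p j) ∘ₗ (mm p f).toLinearMap =
      ∑ k, (LinearMap.mulRight (ZMod p) (fox p j (f (x k)))) ∘ₗ (mm p f).toLinearMap ∘ₗ
        (dd p k) := by
    refine RR_hom_ext fun u => ?_
    simp only [LinearMap.comp_apply, LinearMap.sum_apply, LinearMap.mulRight_apply,
      AlgHom.toLinearMap_apply, mm_gg, dd_gg]
    exact fox_map p j f u
  have h := LinearMap.congr_fun this r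
  simpa only [LinearMap.comp_apply, LinearMap.sum_apply, LinearMap.mulRight_apply,
      AlgHom.toLinearMap_apply] using h

/-! ### Magnus coefficients -/

/-- coefficients, indexed by the reversed word -/
noncomputable def muRev (p : ℕ) : List (Fin n) → (RR p n →ₗ[ZMod p] ZMod p)
  | [] => (aug p).toLinearMap
  | j :: w => (muRev p w) ∘ₗ (dd p j)

/-- the coefficient of the monomial `w` in the Magnus expansion of an element of the group ring -/
noncomputable def muR (p : ℕ) (w : List (Fin n)) : RR p n →ₗ[ZMod p] ZMod p := muRev p w.reverse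

theorem muR_nil (p : ℕ) (r : RR p n) : muR p [] r = aug p r := rfl

theorem muR_append (p : ℕ) (w : List (Fin n)) (j : Fin n) (r : RR p n) :
    muR p (w ++ [j]) r = muR p w (dd p j r) := by
  rw [muR, List.reverse_append]
  rfl

theorem muR_mul (p : ℕ) (w : List (Fin n)) (r s : RR p n) :
    muR p w (r * s) =
      ∑ k ∈ Finset.range (w.length + 1), muR p (w.take k) r * muR p (w.drop k) s := by
  induction w using List.reverseRecOn generalizing r s with
  | nil => simp [muR_nil]
  | append_singleton w j ih =>
    rw [muR_append, dd_mul, map_add, ih, map_smul, List.length_append, List.length_singleton,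
      Finset.sum_range_succ _ (w.length + 1)]
    congr 1
    · refine Finset.sum_congr rfl fun k hk => ?_
      have hk' : k ≤ w.length := Nat.lt_succ_iff.mp (Finset.mem_range.mp hk)
      rw [List.take_append_of_le_length hk', List.drop_append_of_le_length hk', muR_append]
    · rw [List.take_of_length_le (by simp), List.drop_of_length_le (by simp), muR_append, muR_nil,
        smul_eq_mul, mul_comm]

theorem muR_one_nil (p : ℕ) : muR p [] (1 : RR p n) = 1 := by
  rw [muR_nil, map_one]

theorem muR_one {p : ℕ} {w : List (Fin n)} (hw : w ≠ []) : muR p w (1 : RR p n) = 0 := by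
  induction w using List.reverseRecOn with
  | nil => exact absurd rfl hw
  | append_singleton w j _ => rw [muR_append, dd_one, map_zero]

/-- the coefficient of the monomial `w` in the Magnus expansion of `g` modulo `p` -/
noncomputable def mu (p : ℕ) (w : List (Fin n)) (g : F n) : ZMod p := muR p w (gg p g)

variable {p : ℕ}

theorem mu_nil (g : F n) : mu p [] g = 1 := by
  rw [mu, muR_nil, aug_gg]

theorem mu_one {w : List (Fin n)} (hw : w ≠ []) : mu p w (1 : F n) = 0 := by
  rw [mu, map_one, muR_one hw]

theorem mu_mul (w : List (Fin n)) (g h : F n) :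
    mu p w (g * h) = ∑ k ∈ Finset.range (w.length + 1), mu p (w.take k) g * mu p (w.drop k) h := by
  rw [mu, map_mul, muR_mul]
  rfl

theorem mu_append (w : List (Fin n)) (j : Fin n) (g : F n) :
    mu p (w ++ [j]) g = muR p w (fox p j g) := by
  rw [mu, muR_append, dd_gg]

theorem mu_single (j : Fin n) (g : F n) : mu p [j] g = aug p (fox p j g) :=
  mu_append [] j g

theorem mu_x (i j : Fin n) : mu p [j] (x i) = if j = i then 1 else 0 := by
  rw [mu_single, fox_x]
  by_cases h : i = j
  · rw [if_pos h, if_pos h.symm, map_one]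
  · rw [if_neg h, if_neg (fun e => h e.symm), map_zero]

theorem mu_x_two (i : Fin n) {w : List (Fin n)} (hw : 2 ≤ w.length) : mu p w (x i) = 0 := by
  induction w using List.reverseRecOn with
  | nil => simp at hw
  | append_singleton w j _ =>
    have hw0 : w ≠ [] := by
      rintro rfl
      simp at hw
    rw [mu_append, fox_x]
    by_cases h : i = j
    · rw [if_pos h, muR_one hw0]
    · rw [if_neg h, map_zero]

/-! ### the filtration of the group ring -/

/-- elements of the group ring whose Magnus coefficients of degree `< k` vanish -/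
noncomputable def JJ (p n k : ℕ) : Submodule (ZMod p) (RR p n) where
  carrier := {r | ∀ w : List (Fin n), w.length < k → muR p w r = 0}
  zero_mem' := fun w _ => map_zero _
  add_mem' := fun {a b} ha hb w hw => by rw [map_add, ha w hw, hb w hw, add_zero]
  smul_mem' := fun c a ha w hw => by rw [map_smul, ha w hw, smul_zero]

theorem mem_JJ {k : ℕ} {r : RR p n} :
    r ∈ JJ p n k ↔ ∀ w : List (Fin n), w.length < k → muR p w r = 0 := Iff.rfl

theorem JJ_zero (r : RR p n) : r ∈ JJ p n 0 := fun _ hw => absurd hw (Nat.not_lt_zero _)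

theorem JJ_anti {k l : ℕ} (h : k ≤ l) {r : RR p n} (hr : r ∈ JJ p n l) : r ∈ JJ p n k :=
  fun w hw => hr w (hw.trans_le h)

theorem JJ_mul {k l : ℕ} {r s : RR p n} (hr : r ∈ JJ p n k) (hs : s ∈ JJ p n l) :
    r * s ∈ JJ p n (k + l) := by
  intro w hw
  rw [muR_mul]
  refine Finset.sum_eq_zero fun t ht => ?_
  have ht' : t ≤ w.length := Nat.lt_succ_iff.mp (Finset.mem_range.mp ht)
  by_cases h : t < k
  · rw [hr _ (by rw [List.length_take]; omega), zero_mul]
  · rw [hs _ (by rw [List.length_drop]; omega), mul_zero]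

/-- leading term of a product -/
theorem muR_mul_lead {k l : ℕ} {r s : RR p n} (hr : r ∈ JJ p n k) (hs : s ∈ JJ p n l)
    {w : List (Fin n)} (hw : w.length = k + l) :
    muR p w (r * s) = muR p (w.take k) r * muR p (w.drop k) s := by
  rw [muR_mul, Finset.sum_eq_single k]
  · intro t ht htk
    have ht' : t ≤ w.length := Nat.lt_succ_iff.mp (Finset.mem_range.mp ht)
    rcases Nat.lt_or_gt_of_ne htk with h | h
    · rw [hr _ (by rw [List.length_take]; omega), zero_mul]
    · rw [hs _ (by rw [List.length_drop]; omega), mul_zero]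
  · intro h
    exact absurd (Finset.mem_range.mpr (by omega)) h

theorem JJ_pow {r : RR p n} (hr : r ∈ JJ p n 1) (k : ℕ) : r ^ k ∈ JJ p n k := by
  induction k with
  | zero => exact JJ_zero _
  | succ k ih => rw [pow_succ]; exact JJ_mul ih hr

theorem dd_mem_JJ {k : ℕ} {r : RR p n} (hr : r ∈ JJ p n (k + 1)) (j : Fin n) :
    dd p j r ∈ JJ p n k := by
  intro w hw
  rw [← muR_append]
  exact hr _ (by rw [List.length_append, List.length_singleton]; omega)

theorem dd_mem_JJ' {k : ℕ} {r : RR p n} (hr : r ∈ JJ p n k) (j : Fin n) :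
    dd p j r ∈ JJ p n (k - 1) := by
  cases k with
  | zero => exact JJ_zero _
  | succ k => exact dd_mem_JJ hr j

theorem mm_mem_JJ (f : F n →* F n) {k : ℕ} {r : RR p n} (hr : r ∈ JJ p n k) :
    mm p f r ∈ JJ p n k := by
  induction k generalizing r with
  | zero => exact JJ_zero _
  | succ k ih =>
    intro w hw
    rcases List.eq_nil_or_concat' w with rfl | ⟨w', j, rfl⟩
    · rw [muR_nil, aug_mm]
      exact hr [] (by simp)
    · rw [muR_append, dd_mm]
      have h : ∑ m, mm p f (dd p m r) * fox p j (f (x m)) ∈ JJ p n k := by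
        refine Submodule.sum_mem _ fun m _ => ?_
        exact JJ_mul (l := 0) (ih (dd_mem_JJ hr m)) (JJ_zero _)
      refine h w' ?_
      rw [List.length_append, List.length_singleton] at hw
      omega

/-- the `k`-th term of the Zassenhaus filtration modulo `p`: all Magnus coefficients of degree
`1, ..., k - 1` vanish -/
def DD (p n k : ℕ) : Subgroup (F n) where
  carrier := {g | ∀ w : List (Fin n), w ≠ [] → w.length < k → mu p w g = 0}
  one_mem' := fun w hw _ => mu_one hw
  mul_mem' := by
    intro a b ha hb w hw hwk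
    rw [mu_mul]
    refine Finset.sum_eq_zero fun t ht => ?_
    have ht' : t ≤ w.length := Nat.lt_succ_iff.mp (Finset.mem_range.mp ht)
    have hl : 0 < w.length := List.length_pos_iff.mpr hw
    by_cases h : t = 0
    · subst h
      rw [List.drop_zero, hb w hw hwk, mul_zero]
    · rw [ha (w.take t) (by
        intro e
        have := congrArg List.length e
        rw [List.length_take, List.length_nil] at this
        omega) (by rw [List.length_take]; omega), zero_mul]
  inv_mem' := by
    intro a ha
    have key : ∀ k' : ℕ, ∀ w : List (Fin n), w ≠ [] → w.length < k' → w.length < k →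
        mu p w a⁻¹ = 0 := by
      intro k'
      induction k' with
      | zero => intro w _ h; exact absurd h (Nat.not_lt_zero _)
      | succ k' ih =>
        intro w hw h1 hwk
        have h := mu_mul (p := p) w a a⁻¹
        rw [mul_inv_cancel, mu_one hw, Finset.sum_eq_single 0] at h
        · rw [List.take_zero, List.drop_zero, mu_nil, one_mul] at h
          exact h.symm
        · intro t ht h0
          have ht' : t ≤ w.length := Nat.lt_succ_iff.mp (Finset.mem_range.mp ht)
          rw [ha (w.take t) (by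
            intro e
            have := congrArg List.length e
            rw [List.length_take, List.length_nil] at this
            have hl : 0 < w.length := List.length_pos_iff.mpr hw
            omega) (by rw [List.length_take]; omega), zero_mul]
        · intro h'
          exact absurd (Finset.mem_range.mpr (Nat.succ_pos _)) h'
    exact fun w hw hwk => key k w hw hwk hwk

theorem mem_DD {k : ℕ} {g : F n} :
    g ∈ DD p n k ↔ ∀ w : List (Fin n), w ≠ [] → w.length < k → mu p w g = 0 := Iff.rfl

theorem DD_anti {k l : ℕ} (h : k ≤ l) : DD p n l ≤ DD p n k :=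
  fun _ hg w hw hk => hg w hw (hk.trans_le h)

theorem muR_sub_one {w : List (Fin n)} (hw : w ≠ []) (g : F n) :
    muR p w (gg p g - 1) = mu p w g := by
  rw [map_sub, muR_one hw, sub_zero, mu]

theorem mem_DD_iff {k : ℕ} {g : F n} : g ∈ DD p n k ↔ gg p g - 1 ∈ JJ p n k := by
  constructor
  · intro h w hw
    by_cases h0 : w = []
    · subst h0
      rw [map_sub, muR_nil, muR_nil, aug_gg, map_one, sub_self]
    · rw [muR_sub_one h0]
      exact h w h0 hw
  · intro h w h0 hw
    rw [← muR_sub_one h0]
    exact h w hw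

theorem gg_sub_one_mem (g : F n) : gg p g - 1 ∈ JJ p n 1 := by
  rw [← mem_DD_iff]
  intro w hw h1
  exact absurd (List.length_eq_zero_iff.mp (Nat.lt_one_iff.mp h1)) hw

/-- the terms of the filtration are fully invariant -/
theorem map_mem_DD (f : F n →* F n) {k : ℕ} {g : F n} (hg : g ∈ DD p n k) : f g ∈ DD p n k := by
  rw [mem_DD_iff] at hg ⊢
  have h := mm_mem_JJ f hg
  rwa [map_sub, map_one, mm_gg] at h

instance DD_char (k : ℕ) : (DD p n k).Characteristic := by
  refine Subgroup.characteristic_iff_le_comap.mpr fun φ g hg => ?_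
  exact map_mem_DD φ.toMonoidHom hg

/-- two elements with the same coefficients of degree `< k` are congruent modulo `D_k` -/
theorem mul_inv_mem_DD {k : ℕ} {g h : F n}
    (H : ∀ w : List (Fin n), w.length < k → mu p w g = mu p w h) : g * h⁻¹ ∈ DD p n k := by
  rw [mem_DD_iff]
  have h1 : gg p (g * h⁻¹) - 1 = (gg p g - gg p h) * gg p h⁻¹ := by
    rw [sub_mul, gg_mul_inv, map_mul]
  rw [h1]
  refine JJ_mul (l := 0) (fun w hw => ?_) (JJ_zero _)
  rw [map_sub]
  exact sub_eq_zero.mpr (H w hw)

theorem mu_eq_of_mul_inv_mem {k : ℕ} {g h : F n} (H : g * h⁻¹ ∈ DD p n k)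
    {w : List (Fin n)} (hw : w.length < k) : mu p w g = mu p w h := by
  rw [mem_DD_iff] at H
  have h1 : gg p g - gg p h = (gg p (g * h⁻¹) - 1) * gg p h := by
    rw [sub_mul, ← map_mul, inv_mul_cancel_right, one_mul]
  have h2 : gg p g - gg p h ∈ JJ p n k := by
    rw [h1]; exact JJ_mul (l := 0) H (JJ_zero _)
  have h3 := h2 w hw
  rw [map_sub] at h3
  exact sub_eq_zero.mp h3

instance DD_finiteIndex [NeZero p] (k : ℕ) : (DD p n k).FiniteIndex := by
  have hfin : Finite {w : List (Fin n) // w.length < k} :=
    (List.finite_length_lt (Fin n) k).to_subtype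
  have hF : Finite ({w : List (Fin n) // w.length < k} → ZMod p) := inferInstance
  have : Finite (F n ⧸ DD p n k) := by
    refine Finite.of_injective (β := {w : List (Fin n) // w.length < k} → ZMod p)
      (fun q w => mu p w.1 (q.out)⁻¹) ?_
    intro a b hab
    have h1 : (Quotient.out a)⁻¹ * ((Quotient.out b)⁻¹)⁻¹ ∈ DD p n k :=
      mul_inv_mem_DD fun w hw => congrFun hab ⟨w, hw⟩
    rw [inv_inv] at h1
    have h2 : ((Quotient.out a : F n) : F n ⧸ DD p n k) = ((Quotient.out b : F n) : F n ⧸ DD p n k) :=
      QuotientGroup.eq.mpr h1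
    rwa [QuotientGroup.out_eq', QuotientGroup.out_eq'] at h2
  exact Subgroup.finiteIndex_of_finite_quotient

/-- if `g ∈ D_k`, `h ∈ D_l` then `⁅g, h⁆ ∈ D_{k+l}` and its degree `k + l` part is the commutator -/
theorem comm_mem_DD {k l : ℕ} {g h : F n} (hg : g ∈ DD p n k) (hh : h ∈ DD p n l) :
    ⁅g, h⁆ ∈ DD p n (k + l) := by
  rw [mem_DD_iff] at hg hh ⊢
  have h1 : gg p ⁅g, h⁆ - 1 = ((gg p g - 1) * (gg p h - 1) - (gg p h - 1) * (gg p g - 1)) *
      (gg p g⁻¹ * gg p h⁻¹) := by
    have e : gg p ⁅g, h⁆ = gg p g * gg p h * (gg p g⁻¹ * gg p h⁻¹) := by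
      rw [commutatorElement_def, map_mul, map_mul, map_mul]; noncomm_ring
    have e2 : gg p h * gg p g * (gg p g⁻¹ * gg p h⁻¹) = 1 := by
      rw [mul_assoc, ← mul_assoc (gg p g), gg_mul_inv, one_mul, gg_mul_inv]
    have e3 : (gg p g - 1) * (gg p h - 1) - (gg p h - 1) * (gg p g - 1) =
        gg p g * gg p h - gg p h * gg p g := by noncomm_ring
    rw [e3, sub_mul, e2, e]
  rw [h1]
  refine JJ_mul (k := k + l) (l := 0) (Submodule.sub_mem _ (JJ_mul hg hh) ?_) (JJ_zero _)
  rw [add_comm k l]
  exact JJ_mul hh hg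

theorem mu_comm {k l : ℕ} (hk : k ≠ 0) (hl : l ≠ 0) {g h : F n} (hg : g ∈ DD p n k)
    (hh : h ∈ DD p n l) {w : List (Fin n)} (hw : w.length = k + l) :
    mu p w ⁅g, h⁆ = mu p (w.take k) g * mu p (w.drop k) h -
      mu p (w.take l) h * mu p (w.drop l) g := by
  have hg' := mem_DD_iff.mp hg
  have hh' := mem_DD_iff.mp hh
  have hw0 : w ≠ [] := by
    rintro rfl
    simp at hw
    omega
  have h1 : gg p ⁅g, h⁆ - 1 = ((gg p g - 1) * (gg p h - 1) - (gg p h - 1) * (gg p g - 1)) *
      (gg p g⁻¹ * gg p h⁻¹) := by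
    have e : gg p ⁅g, h⁆ = gg p g * gg p h * (gg p g⁻¹ * gg p h⁻¹) := by
      rw [commutatorElement_def, map_mul, map_mul, map_mul]; noncomm_ring
    have e2 : gg p h * gg p g * (gg p g⁻¹ * gg p h⁻¹) = 1 := by
      rw [mul_assoc, ← mul_assoc (gg p g), gg_mul_inv, one_mul, gg_mul_inv]
    have e3 : (gg p g - 1) * (gg p h - 1) - (gg p h - 1) * (gg p g - 1) =
        gg p g * gg p h - gg p h * gg p g := by noncomm_ring
    rw [e3, sub_mul, e2, e]
  have hA : (gg p g - 1) * (gg p h - 1) - (gg p h - 1) * (gg p g - 1) ∈ JJ p n (k + l) := by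
    refine Submodule.sub_mem _ (JJ_mul hg' hh') ?_
    rw [add_comm k l]
    exact JJ_mul hh' hg'
  have ne1 : ∀ t : ℕ, t ≠ 0 → w.take t ≠ [] := by
    intro t ht e
    have := congrArg List.length e
    rw [List.length_take, List.length_nil] at this
    omega
  have ne2 : ∀ t : ℕ, t < k + l → w.drop t ≠ [] := by
    intro t ht e
    have := congrArg List.length e
    rw [List.length_drop, List.length_nil] at this
    omega
  rw [← muR_sub_one hw0, h1, muR_mul_lead (l := 0) hA (JJ_zero _) (by rw [hw, add_zero]),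
    List.take_of_length_le (by omega), List.drop_of_length_le (by omega), muR_nil, map_mul, aug_gg,
    aug_gg, mul_one, mul_one, map_sub, muR_mul_lead hg' hh' hw,
    muR_mul_lead hh' hg' (by rw [hw, add_comm]), muR_sub_one (ne1 k hk), muR_sub_one (ne1 l hl),
    muR_sub_one (ne2 k (by omega)), muR_sub_one (ne2 l (by omega))]

theorem gam_le_DD (k : ℕ) :
    (⊤ : Subgroup (F n)).lowerCentralSeries k ≤ DD p n (k + 1) := by
  induction k with
  | zero =>
    intro g _
    rw [mem_DD_iff]
    exact gg_sub_one_mem g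
  | succ k ih =>
    rw [Subgroup.lowerCentralSeries_succ, Subgroup.commutator_le]
    intro g hg h _
    have hh : h ∈ DD p n 1 := mem_DD_iff.mpr (gg_sub_one_mem h)
    exact comm_mem_DD (ih hg) hh

theorem pow_mem_DD [Fact p.Prime] (g : F n) : g ^ p ∈ DD p n p := by
  rw [mem_DD_iff]
  have : CharP (RR p n) p := charP_of_injective_algebraMap (algebraMap (ZMod p) (RR p n)).injective p
  have h : gg p (g ^ p) - 1 = (gg p g - 1) ^ p := by
    rw [map_pow, sub_pow_char_of_commute p (Commute.one_right (gg p g)), one_pow]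
  rw [h]
  exact JJ_pow (gg_sub_one_mem g) p

/-! ### substitutions -/

theorem muR_map_lowest (f : F n →* F n) {k : ℕ} {r : RR p n} (hr : r ∈ JJ p n k)
    (w : List (Fin n)) (hw : w.length = k) :
    muR p w (mm p f r) = ∑ v : Fin k → Fin n,
      muR p (List.ofFn v) r * ∏ t : Fin k, mu p [w.get (t.cast hw.symm)] (f (x (v t))) := by
  induction k generalizing r w with
  | zero =>
    have hw' : w = [] := List.length_eq_zero_iff.mp hw
    subst hw'
    simp [muR_nil, aug_mm]
  | succ k ih =>
    rcases List.eq_nil_or_concat' w with rfl | ⟨w', j, rfl⟩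
    · simp at hw
    · have hw' : w'.length = k := by
        rw [List.length_append, List.length_singleton] at hw
        omega
      rw [muR_append, dd_mm, map_sum]
      have h1 : ∀ m : Fin n, muR p w' (mm p f (dd p m r) * fox p j (f (x m))) =
          (∑ v : Fin k → Fin n, muR p (List.ofFn v) (dd p m r) *
            ∏ t : Fin k, mu p [w'.get (t.cast hw'.symm)] (f (x (v t)))) * mu p [j] (f (x m)) := by
        intro m
        rw [muR_mul_lead (l := 0) (mm_mem_JJ f (dd_mem_JJ hr m)) (JJ_zero _)
          (by rw [hw', add_zero]), List.take_of_length_le (by omega),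
          List.drop_of_length_le (by omega), muR_nil, mu_single, ih (dd_mem_JJ hr m) w' hw']
      rw [Finset.sum_congr rfl fun m _ => h1 m]
      rw [← (Fin.snocEquiv (fun _ : Fin (k + 1) => Fin n)).sum_comp, Fintype.sum_prod_type]
      refine Finset.sum_congr rfl fun m _ => ?_
      rw [Finset.sum_mul]
      refine Finset.sum_congr rfl fun v _ => ?_
      have e1 : muR p (List.ofFn ((Fin.snocEquiv (fun _ : Fin (k + 1) => Fin n)) (m, v))) r =
          muR p (List.ofFn v) (dd p m r) := by
        rw [← muR_append]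
        congr 1
        rw [List.ofFn_succ', List.concat_eq_append]
        simp [Fin.snocEquiv]
      rw [e1, Fin.prod_univ_castSucc, mul_assoc]
      congr 1
      congr 1
      · refine Finset.prod_congr rfl fun t _ => ?_
        have : (w' ++ [j]).get ((Fin.castSucc t).cast hw.symm) = w'.get (t.cast hw'.symm) := by
          simp only [List.get_eq_getElem, Fin.val_cast, Fin.val_castSucc]
          exact List.getElem_append_left (by rw [hw']; exact t.2)
        rw [this]
        simp [Fin.snocEquiv]
      · have : (w' ++ [j]).get ((Fin.last k).cast hw.symm) = j := by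
          simp only [List.get_eq_getElem, Fin.val_cast, Fin.val_last]
          rw [List.getElem_append_right (by omega)]
          simp
        rw [this]
        simp [Fin.snocEquiv]

theorem ofFn_ne_nil {k : ℕ} (hk : k ≠ 0) (v : Fin k → Fin n) : List.ofFn v ≠ [] := by
  intro e
  have := congrArg List.length e
  rw [List.length_ofFn, List.length_nil] at this
  exact hk this

/-- substitution in lowest degree: if `g ∈ D_k` then the degree `k` part of `f g` is obtained from
the degree `k` part of `g` by the linear substitution given by `f` -/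
theorem mu_map_lowest (f : F n →* F n) {k : ℕ} (hk : k ≠ 0) {g : F n} (hg : g ∈ DD p n k)
    (w : List (Fin n)) (hw : w.length = k) :
    mu p w (f g) = ∑ v : Fin k → Fin n,
      mu p (List.ofFn v) g * ∏ t : Fin k, mu p [w.get (t.cast hw.symm)] (f (x (v t))) := by
  have hw0 : w ≠ [] := by
    rintro rfl
    exact hk (by simpa using hw.symm)
  have h := muR_map_lowest f (mem_DD_iff.mp hg) w hw
  rw [map_sub, map_one, mm_gg, muR_sub_one hw0] at h
  rw [h]
  refine Finset.sum_congr rfl fun v _ => ?_
  rw [muR_sub_one (ofFn_ne_nil hk v)]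

/-- if `f` is the identity modulo `D_{e+1}` and `r ∈ J_k`, then `f r` and `r` have the same
coefficients of degree `< k + e` -/
theorem muR_map_near (f : F n →* F n) {e : ℕ} (hf : ∀ i, f (x i) * (x i)⁻¹ ∈ DD p n (e + 1)) {k : ℕ}
    {r : RR p n} (hr : r ∈ JJ p n k) (w : List (Fin n)) (hw : w.length < k + e) :
    muR p w (mm p f r) = muR p w r := by
  induction w using List.reverseRecOn generalizing r k with
  | nil => rw [muR_nil, muR_nil, aug_mm]
  | append_singleton w j ih =>
    rw [List.length_append, List.length_singleton] at hw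
    have h1 : muR p (w ++ [j]) (mm p f r) =
        ∑ m, muR p w (mm p f (dd p m r) * fox p j (x m)) := by
      rw [muR_append, dd_mm, map_sum]
      refine Finset.sum_congr rfl fun m _ => ?_
      rw [muR_mul, muR_mul]
      refine Finset.sum_congr rfl fun t ht => ?_
      have ht' : t ≤ w.length := Nat.lt_succ_iff.mp (Finset.mem_range.mp ht)
      by_cases h : (w.drop t).length + 1 < e + 1
      · congr 1
        rw [← mu_append, ← mu_append]
        exact mu_eq_of_mul_inv_mem (hf m) (by
          rw [List.length_append, List.length_singleton]; exact h)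
      · have h2 : muR p (w.take t) (mm p f (dd p m r)) = 0 := by
          refine mm_mem_JJ f (dd_mem_JJ' hr m) _ ?_
          rw [List.length_drop] at h
          rw [List.length_take]
          omega
        rw [h2, zero_mul, zero_mul]
    rw [h1, Finset.sum_eq_single j]
    · rw [fox_x, if_pos rfl, mul_one, muR_append]
      exact ih (dd_mem_JJ' hr j) (by omega)
    · intro m _ hm
      rw [fox_x, if_neg hm, mul_zero, map_zero]
    · intro h; exact absurd (Finset.mem_univ j) h

theorem mu_map_near (f : F n →* F n) {e : ℕ} (hf : ∀ i, f (x i) * (x i)⁻¹ ∈ DD p n (e + 1)) {k : ℕ}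
    {g : F n} (hg : g ∈ DD p n k) (w : List (Fin n)) (hw : w.length < k + e) :
    mu p w (f g) = mu p w g := by
  have h := muR_map_near f hf (mem_DD_iff.mp hg) w hw
  rw [map_sub, map_one, mm_gg, map_sub, map_sub] at h
  exact sub_left_injective h

/-- in particular, if `f` is the identity modulo `D_2` the degree `k` part does not change -/
theorem mu_map_id (f : F n →* F n) (hf : ∀ i, f (x i) * (x i)⁻¹ ∈ DD p n 2) {k : ℕ} (hk : k ≠ 0)
    {g : F n} (hg : g ∈ DD p n k) (w : List (Fin n)) (hw : w.length = k) :
    mu p w (f g) = mu p w g :=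
  have _ := hk
  mu_map_near f (e := 1) hf hg w (by omega)

/-- if `f` is the identity modulo `D_2`, then the degree 2 coefficients are additive -/
theorem mu_map_two (f : F n →* F n) (hf : ∀ i, f (x i) * (x i)⁻¹ ∈ DD p n 2) {i : Fin n} {g : F n}
    (hg : g * (x i)⁻¹ ∈ DD p n 2) (w : List (Fin n)) (hw : w.length = 2) :
    mu p w (f g) = mu p w g + mu p w (f (x i)) := by
  obtain ⟨a, b, rfl⟩ := List.length_eq_two.mp hw
  have h1 : g = (g * (x i)⁻¹) * x i := by rw [inv_mul_cancel_right]
  set d := g * (x i)⁻¹ with hd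
  have hfd := map_mem_DD f hg
  have e1 : mu p [a, b] (f g) = mu p [a, b] (f (x i)) + mu p [a, b] d := by
    rw [h1, map_mul, mu_mul]
    have h2 : mu p [a] (f d) = 0 := hfd [a] (by simp) (by simp)
    simp [Finset.sum_range_succ, mu_nil, h2, mu_map_id f hf (k := 2) (by norm_num) hg [a, b] rfl]
  have e2 : mu p [a, b] g = mu p [a, b] d := by
    rw [h1, mu_mul]
    have h2 : mu p [a] d = 0 := hg [a] (by simp) (by simp)
    simp [Finset.sum_range_succ, mu_nil, h2, mu_x_two]
  rw [e1, e2, add_comm]

/-- if `f` is the identity modulo `D_3`, then the degree 4 coefficients are additive -/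
theorem mu_map_four (f : F n →* F n) (hf : ∀ i, f (x i) * (x i)⁻¹ ∈ DD p n 3) {i : Fin n} {g : F n}
    (hg : g * (x i)⁻¹ ∈ DD p n 3) (w : List (Fin n)) (hw : w.length = 4) :
    mu p w (f g) = mu p w g + mu p w (f (x i)) := by
  obtain ⟨a, b, c, d', rfl⟩ : ∃ a b c d', w = [a, b, c, d'] := by
    rcases w with _ | ⟨a, _ | ⟨b, _ | ⟨c, _ | ⟨d', _ | ⟨e, w⟩⟩⟩⟩⟩
    · simp at hw
    · simp at hw
    · simp at hw
    · simp at hw
    · exact ⟨a, b, c, d', rfl⟩
    · simp at hw
  have h1 : g = (g * (x i)⁻¹) * x i := by rw [inv_mul_cancel_right]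
  set d := g * (x i)⁻¹ with hd
  have hfd := map_mem_DD f hg
  have h3 : mu p [a, b, c] (f d) = mu p [a, b, c] d := mu_map_near f hf hg _ (by simp)
  have h4 : mu p [a, b, c, d'] (f d) = mu p [a, b, c, d'] d := mu_map_near f hf hg _ (by simp)
  have h5 : mu p [d'] (f (x i)) = mu p [d'] (x i) := mu_eq_of_mul_inv_mem (hf i) (by simp)
  have e1 : mu p [a, b, c, d'] (f g) = mu p [a, b, c, d'] (f (x i)) +
      mu p [a, b, c] d * mu p [d'] (x i) + mu p [a, b, c, d'] d := by
    rw [h1, map_mul, mu_mul]
    have h2 : mu p [a] (f d) = 0 := hfd [a] (by simp) (by simp)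
    have h2' : mu p [a, b] (f d) = 0 := hfd [a, b] (by simp) (by simp)
    simp [Finset.sum_range_succ, mu_nil, h2, h2', h3, h4, h5]
  have e2 : mu p [a, b, c, d'] g = mu p [a, b, c] d * mu p [d'] (x i) +
      mu p [a, b, c, d'] d := by
    rw [h1, mu_mul]
    have h2 : mu p [a] d = 0 := hg [a] (by simp) (by simp)
    have h2' : mu p [a, b] d = 0 := hg [a, b] (by simp) (by simp)
    simp [Finset.sum_range_succ, mu_nil, h2, h2', mu_x_two]
  rw [e1, e2]
  ring

end Pool.Agent.CSP3
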