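import Pool.Agent.CSP3.SAut

/-!
# Fox derivatives with values in a group ring and the Jacobian matrix
-/

set_option autoImplicit false
set_option linter.unusedSectionVars false

namespace Pool.Agent.CSP3

open SA

open FreeGroup hiding map_mul map_inv map_one norm norm_one

namespace Fox

variable {α : Type} [DecidableEq α] {k : Type} [CommRing k] {B : Type} [Group B]

/-- the basis element of the group ring -/
noncomputable def br (k : Type) [CommRing k] (b : B) : MonoidAlgebra k B := MonoidAlgebra.of k B b

theorem br_mul (b c : B) : br k (b * c) = br k b * br k c := map_mul (MonoidAlgebra.of k B) b c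

theorem br_one : br k (1 : B) = 1 := map_one (MonoidAlgebra.of k B)

theorem br_mul_inv (b : B) : br k b * br k b⁻¹ = 1 := by rw [← br_mul, mul_inv_cancel, br_one]

theorem br_inv_mul (b : B) : br k b⁻¹ * br k b = 1 := by rw [← br_mul, inv_mul_cancel, br_one]

variable (k) in
/-- the affine map attached to a letter -/
noncomputable def stp (π : FreeGroup α →* B) (i : α) : Equiv.Perm (α → MonoidAlgebra k B) where
  toFun v := fun j => Pi.single (M := fun _ => MonoidAlgebra k B) i 1 j + br k (π (of i)) * v j
  invFun v := fun j => br k (π (of i))⁻¹ *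
    (v j - Pi.single (M := fun _ => MonoidAlgebra k B) i 1 j)
  left_inv v := by
    funext j
    simp only
    rw [add_sub_cancel_left, ← mul_assoc, br_inv_mul, one_mul]
  right_inv v := by
    funext j
    simp only
    rw [← mul_assoc, br_mul_inv, one_mul, add_sub_cancel]

variable (k) in
/-- the affine representation -/
noncomputable def tht (π : FreeGroup α →* B) :
    FreeGroup α →* Equiv.Perm (α → MonoidAlgebra k B) := FreeGroup.lift (stp k π)

variable (k) in
/-- the vector of the Fox derivatives -/
noncomputable def D (π : FreeGroup α →* B) (w : FreeGroup α) : α → MonoidAlgebra k B :=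
  tht k π w 0

theorem tht_of (π : FreeGroup α →* B) (i : α) : tht k π (of i) = stp k π i := by simp [tht]

theorem tht_apply (π : FreeGroup α →* B) (w : FreeGroup α) (v : α → MonoidAlgebra k B) (j : α) :
    tht k π w v j = D k π w j + br k (π w) * v j := by
  have key : ∀ w : FreeGroup α, ∀ v v' : α → MonoidAlgebra k B, ∀ j,
      tht k π w v j - tht k π w v' j = br k (π w) * (v j - v' j) := by
    intro w
    induction w using FreeGroup.induction_on with
    | C1 => intro v v' j; rw [map_one, map_one, br_one, one_mul]; rfl
    | of i =>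
      intro v v' j
      rw [tht_of]
      simp only [stp, Equiv.coe_fn_mk]
      rw [mul_sub]; abel
    | inv_of i hi =>
      intro v v' j
      have h := hi ((tht k π (of i))⁻¹ v) ((tht k π (of i))⁻¹ v') j
      have e : ∀ u, tht k π (of i) ((tht k π (of i))⁻¹ u) = u := fun u =>
        Equiv.apply_symm_apply _ u
      rw [e, e] at h
      rw [map_inv, map_inv, h, ← mul_assoc, br_inv_mul, one_mul]
    | mul x y hx hy =>
      intro v v' j
      rw [map_mul, map_mul, Equiv.Perm.mul_apply, Equiv.Perm.mul_apply, hx, hy, br_mul, mul_assoc]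
  have h := key w v 0 j
  rw [Pi.zero_apply, sub_zero] at h
  rw [← h]
  unfold D
  abel

theorem D_of (π : FreeGroup α →* B) (i : α) :
    D k π (of i) = Pi.single (M := fun _ => MonoidAlgebra k B) i 1 := by
  funext j
  unfold D
  rw [tht_of]
  simp [stp]

theorem D_one (π : FreeGroup α →* B) (j : α) : D k π 1 j = 0 := by
  unfold D; rw [map_one]; rfl

theorem D_mul (π : FreeGroup α →* B) (u v : FreeGroup α) (j : α) :
    D k π (u * v) j = D k π u j + br k (π u) * D k π v j := by
  have : D k π (u * v) = tht k π u (D k π v) := by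
    unfold D; rw [map_mul]; rfl
  rw [this, tht_apply]

theorem D_inv (π : FreeGroup α →* B) (u : FreeGroup α) (j : α) :
    D k π u⁻¹ j = - (br k (π u)⁻¹ * D k π u j) := by
  have h := D_mul (k := k) π u⁻¹ u j
  rw [inv_mul_cancel, D_one, map_inv] at h
  exact eq_neg_of_add_eq_zero_left h.symm

/-- the Jacobian matrix -/
noncomputable def J (k : Type) [CommRing k] (π : FreeGroup α →* B) (φ : MulAut (FreeGroup α)) :
    Matrix α α (MonoidAlgebra k B) := fun i j => D k π (φ (of i)) j

theorem J_one (π : FreeGroup α →* B) : J k π 1 = 1 := by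
  ext i j
  unfold J
  rw [MulAut.one_apply, D_of, Matrix.one_apply, Pi.single_apply]
  simp [eq_comm]

variable [Fintype α]

/-- **the chain rule** -/
theorem D_comp (π : FreeGroup α →* B) (φ : MulAut (FreeGroup α)) (β : B →* B)
    (h : ∀ w, π (φ w) = β (π w)) (w : FreeGroup α) (j : α) :
    D k π (φ w) j = ∑ i, MonoidAlgebra.mapDomainRingHom k β (D k π w i) * J k π φ i j := by
  have hbr : ∀ b : B, MonoidAlgebra.mapDomainRingHom k β (br k b) = br k (β b) := by
    intro b
    unfold br
    rw [MonoidAlgebra.of_apply, MonoidAlgebra.of_apply, MonoidAlgebra.mapDomainRingHom_apply,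
      MonoidAlgebra.mapDomain_single]
  induction w using FreeGroup.induction_on with
  | C1 => rw [map_one, D_one]; simp [D_one]
  | of m =>
    rw [D_of, Finset.sum_eq_single m]
    · rw [Pi.single_eq_same, map_one, one_mul]; rfl
    · intro i _ hi
      rw [Pi.single_eq_of_ne hi, map_zero, zero_mul]
    · intro hm; exact absurd (Finset.mem_univ m) hm
  | inv_of m hm =>
    rw [map_inv, D_inv, hm, h]
    simp only [D_inv, map_neg, map_mul, neg_mul, Finset.sum_neg_distrib, hbr, map_inv,
      Finset.mul_sum, mul_assoc]
  | mul x y hx hy =>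
    rw [map_mul, D_mul, hx, hy, h, Finset.mul_sum, ← Finset.sum_add_distrib]
    refine Finset.sum_congr rfl fun i _ => ?_
    rw [D_mul, map_add, map_mul, hbr, add_mul, mul_assoc]

theorem J_mul (π : FreeGroup α →* B) (φ ψ : MulAut (FreeGroup α)) (β : B →* B)
    (h : ∀ w, π (φ w) = β (π w)) :
    J k π (φ * ψ) = (J k π ψ).map (MonoidAlgebra.mapDomainRingHom k β) * J k π φ := by
  refine Matrix.ext fun i j => ?_
  rw [Matrix.mul_apply]
  exact D_comp (k := k) π φ β h (ψ (of i)) j

/-- derivatives determine the Jacobian: an automorphism acting trivially on the affine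
representation has trivial Jacobian -/
theorem J_of_trivial (π : FreeGroup α →* B) (φ : MulAut (FreeGroup α))
    (h : ∀ i, tht k π (φ (of i)) = tht k π (of i)) : J k π φ = 1 := by
  rw [← J_one (k := k) (α := α) π]
  ext i j
  unfold J D
  rw [h i, MulAut.one_apply]

end Fox

end Pool.Agent.CSP3
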