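import Pool.Agent.CSP3.Det

/-!
# The quotients of the free group by the Zassenhaus filtration are finite `p`-groups
-/

set_option autoImplicit false

namespace Pool.Agent.CSP3

variable {n : ℕ}

theorem pow_mem_DD_succ {p k : ℕ} (hk : k ≠ 0) {g : F n} (hg : g ∈ DD p n k) :
    g ^ p ∈ DD p n (k + 1) := by
  intro w hw hl
  by_cases h : w.length < k
  · exact (DD p n k).pow_mem hg p w hw h
  · have hk' : w.length = k := by omega
    have key : ∀ m : ℕ, mu p w (g ^ m) = m * mu p w g := by
      intro m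
      induction m with
      | zero => rw [pow_zero, mu_one hw, Nat.cast_zero, zero_mul]
      | succ m ih => rw [pow_succ', mu_mul_low hg _ hk' hk, ih]; push_cast; ring
    rw [key, ZMod.natCast_self, zero_mul]

theorem pow_pow_mem_DD {p : ℕ} (g : F n) (e : ℕ) : g ^ p ^ e ∈ DD p n (e + 1) := by
  induction e with
  | zero => exact mem_DD_one p _
  | succ e ih =>
    rw [pow_succ, pow_mul]
    exact pow_mem_DD_succ (Nat.succ_ne_zero e) ih

theorem index_DD {p : ℕ} (hp : p.Prime) (k : ℕ) : ∃ e : ℕ, (DD p n k).index = p ^ e := by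
  haveI : Fact p.Prime := ⟨hp⟩
  haveI : NeZero p := ⟨hp.ne_zero⟩
  haveI : Finite (F n ⧸ DD p n k) := Subgroup.finite_quotient_of_finiteIndex
  have h : IsPGroup p (F n ⧸ DD p n k) := by
    intro q
    obtain ⟨g, rfl⟩ := QuotientGroup.mk_surjective q
    refine ⟨k, ?_⟩
    rw [← QuotientGroup.mk_pow]
    exact (QuotientGroup.eq_one_iff _).mpr (DD_anti (Nat.le_succ k) (pow_pow_mem_DD g k))
  exact IsPGroup.iff_card.mp h

end Pool.Agent.CSP3
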