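import Mathlib

/-!
# The presentation of `GL_n(ℤ)` (Magnus, Silvester), abstract form

A group `G` with elements `t i j` (transvections) and `sp σ ε` (signed permutations) satisfying the
Steinberg relations, and a representation `ρ` on `ℤ^n`: `ρ` is injective on the subgroup generated
by these elements.
-/

set_option autoImplicit false
set_option linter.unusedSectionVars false

namespace Pool.Agent.CSP3.Mag

structure St (n : ℕ) (G : Type*) [Group G] where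
  t : Fin n → Fin n → G
  sp : Equiv.Perm (Fin n) → (Fin n → ℤˣ) → G
  rho : G →* Module.End ℤ (Fin n → ℤ)
  comm : ∀ {i j k l : Fin n}, i ≠ j → k ≠ l → j ≠ k → i ≠ l → Commute (t i j) (t k l)
  brk : ∀ {i j k : Fin n}, i ≠ j → j ≠ k → i ≠ k → t i j * t j k = t i k * (t j k * t i j)
  sp_one : sp 1 1 = 1
  sp_mul : ∀ (σ τ : Equiv.Perm (Fin n)) (ε δ : Fin n → ℤˣ),
    sp σ ε * sp τ δ = sp (σ * τ) (fun k => ε (τ k) * δ k)
  sp_t : ∀ (σ : Equiv.Perm (Fin n)) (ε : Fin n → ℤˣ) {i j : Fin n}, i ≠ j →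
    sp σ ε * t i j * (sp σ ε)⁻¹ = t (σ i) (σ j) ^ ((ε i * ε j : ℤˣ) : ℤ)
  weyl : ∀ {i j : Fin n}, i ≠ j → t i j * (t j i)⁻¹ * t i j =
    sp (Equiv.swap i j) (fun k => if k = i then -1 else 1)
  rho_t : ∀ {i j : Fin n}, i ≠ j → ∀ v : Fin n → ℤ, rho (t i j) v = v + Pi.single i (v j)
  rho_sp : ∀ (σ : Equiv.Perm (Fin n)) (ε : Fin n → ℤˣ) (v : Fin n → ℤ) (k : Fin n),
    rho (sp σ ε) v (σ k) = (ε k : ℤ) * v k

/-- `X Y = Z Y X` with `Z` commuting with `X`, `Y` -/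
theorem zpow_brk {G : Type*} [Group G] {X Y Z : G} (h : X * Y = Z * (Y * X)) (hX : Commute Z X)
    (hY : Commute Z Y) (a b : ℤ) : X ^ a * Y ^ b = Z ^ (a * b) * (Y ^ b * X ^ a) := by
  have h1 : X * Y * X⁻¹ = Z * Y := by rw [h]; group
  have h2 : ∀ a : ℤ, X ^ a * Y * (X ^ a)⁻¹ = Z ^ a * Y := by
    intro a
    induction a using Int.induction_on with
    | zero => simp
    | succ a ih =>
      have : X ^ ((a : ℤ) + 1) * Y * (X ^ ((a : ℤ) + 1))⁻¹ =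
          X * (X ^ (a : ℤ) * Y * (X ^ (a : ℤ))⁻¹) * X⁻¹ := by
        rw [zpow_add_one, ← (Commute.refl X).zpow_right (a : ℤ) |>.eq]; group
      rw [this, ih]
      calc X * (Z ^ (a : ℤ) * Y) * X⁻¹ = (X * Z ^ (a : ℤ)) * Y * X⁻¹ := by group
        _ = (Z ^ (a : ℤ) * X) * Y * X⁻¹ := by rw [(hX.zpow_left (a : ℤ)).eq]
        _ = Z ^ (a : ℤ) * (X * Y * X⁻¹) := by group
        _ = _ := by rw [h1, ← mul_assoc, zpow_add_one]
    | pred a ih =>
      have e1 : X⁻¹ * (Z * Y) * X = Y := by rw [← h1]; group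
      have e2 : X⁻¹ * Y * X = Z⁻¹ * Y := by
        have h3 : Commute Z X⁻¹ := hX.inv_right
        calc X⁻¹ * Y * X = Z⁻¹ * (Z * X⁻¹) * Y * X := by group
          _ = Z⁻¹ * (X⁻¹ * Z) * Y * X := by rw [h3.eq]
          _ = Z⁻¹ * (X⁻¹ * (Z * Y) * X) := by group
          _ = _ := by rw [e1]
      have : X ^ (-(a : ℤ) - 1) * Y * (X ^ (-(a : ℤ) - 1))⁻¹ =
          X⁻¹ * (X ^ (-(a : ℤ)) * Y * (X ^ (-(a : ℤ)))⁻¹) * X := by
        have : X ^ (-(a : ℤ) - 1) = X⁻¹ * X ^ (-(a : ℤ)) := by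
          rw [sub_eq_add_neg, add_comm, zpow_add, zpow_neg_one]
        rw [this]; group
      rw [this, ih]
      have h3 : Commute Z X⁻¹ := hX.inv_right
      calc X⁻¹ * (Z ^ (-(a : ℤ)) * Y) * X = (X⁻¹ * Z ^ (-(a : ℤ))) * Y * X := by group
        _ = (Z ^ (-(a : ℤ)) * X⁻¹) * Y * X := by rw [(h3.zpow_left (-(a : ℤ))).eq]
        _ = Z ^ (-(a : ℤ)) * (X⁻¹ * Y * X) := by group
        _ = _ := by rw [e2, ← mul_assoc, sub_eq_add_neg, zpow_add, zpow_neg_one]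
  have h3 : X ^ a * Y ^ b * (X ^ a)⁻¹ = Z ^ (a * b) * Y ^ b := by
    rw [← conj_zpow, h2, (hY.zpow_left a).mul_zpow, zpow_mul]
  rw [← mul_assoc, ← h3]; group

variable {n : ℕ} {G : Type*} [Group G] (S : St n G)

namespace St

theorem commT {i j k l : Fin n} (h1 : i ≠ j) (h2 : k ≠ l) (h3 : j ≠ k) (h4 : i ≠ l) (a b : ℤ) :
    Commute (S.t i j ^ a) (S.t k l ^ b) :=
  ((S.comm h1 h2 h3 h4).zpow_left a).zpow_right b

theorem brkT {i j k : Fin n} (h1 : i ≠ j) (h2 : j ≠ k) (h3 : i ≠ k) (a b : ℤ) :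
    S.t i j ^ a * S.t j k ^ b = S.t i k ^ (a * b) * (S.t j k ^ b * S.t i j ^ a) :=
  zpow_brk (S.brk h1 h2 h3) (S.comm h3 h1 h3.symm h1) (S.comm h3 h2 h2.symm h3) a b

theorem sp_inv (σ : Equiv.Perm (Fin n)) (ε : Fin n → ℤˣ) :
    (S.sp σ ε)⁻¹ = S.sp σ⁻¹ (fun k => ε (σ⁻¹ k)) := by
  rw [inv_eq_iff_mul_eq_one, S.sp_mul, mul_inv_cancel]
  have : (fun k => ε (σ⁻¹ k) * ε (σ⁻¹ k)) = (1 : Fin n → ℤˣ) := by
    funext k
    rw [Pi.one_apply]
    exact Int.units_mul_self _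
  rw [this, S.sp_one]

/-- conjugation of a power of a transvection -/
theorem sp_tz (σ : Equiv.Perm (Fin n)) (ε : Fin n → ℤˣ) {i j : Fin n} (h : i ≠ j) (a : ℤ) :
    S.sp σ ε * S.t i j ^ a * (S.sp σ ε)⁻¹ = S.t (σ i) (σ j) ^ (((ε i * ε j : ℤˣ) : ℤ) * a) := by
  rw [← conj_zpow, S.sp_t σ ε h, zpow_mul]

theorem sp_tz' (σ : Equiv.Perm (Fin n)) (ε : Fin n → ℤˣ) {i j : Fin n} (h : i ≠ j) (a : ℤ) :
    S.sp σ ε * S.t i j ^ a = S.t (σ i) (σ j) ^ (((ε i * ε j : ℤˣ) : ℤ) * a) * S.sp σ ε := by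
  rw [← S.sp_tz σ ε h a]; group

/-- the Weyl elements of both signs -/
theorem weyl' {i j : Fin n} (h : i ≠ j) {e : ℤ} (he : e = 1 ∨ e = -1) :
    ∃ ε : Fin n → ℤˣ, (∀ k, k ≠ i → k ≠ j → ε k = 1) ∧
      S.t i j ^ e * S.t j i ^ (-e) * S.t i j ^ e = S.sp (Equiv.swap i j) ε := by
  rcases he with rfl | rfl
  · refine ⟨fun k => if k = i then -1 else 1, fun k hk _ => if_neg hk, ?_⟩
    rw [zpow_one, zpow_neg_one, S.weyl h]
  · refine ⟨fun k => if Equiv.swap i j k = i then -1 else 1, fun k hk hk' => ?_, ?_⟩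
    · show (if Equiv.swap i j k = i then (-1 : ℤˣ) else 1) = 1
      rw [Equiv.swap_apply_of_ne_of_ne hk hk', if_neg hk]
    · have h1 := congrArg (·⁻¹) (S.weyl h)
      simp only [mul_inv_rev, inv_inv, S.sp_inv, Equiv.swap_inv] at h1
      rw [neg_neg, zpow_one, zpow_neg_one, mul_assoc]
      exact h1

theorem rho_tz {i j : Fin n} (h : i ≠ j) (a : ℤ) (v : Fin n → ℤ) :
    S.rho (S.t i j ^ a) v = v + Pi.single i (a * v j) := by
  have h1 : ∀ v : Fin n → ℤ, S.rho (S.t i j) v = v + Pi.single i (v j) := S.rho_t h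
  have h2 : ∀ v : Fin n → ℤ, S.rho (S.t i j)⁻¹ v = v - Pi.single i (v j) := by
    intro v
    have e : S.rho (S.t i j) (v - Pi.single i (v j)) = v := by
      rw [h1, Pi.sub_apply, Pi.single_eq_of_ne h.symm, sub_zero, sub_add_cancel]
    conv_lhs => rw [← e]
    rw [← Module.End.mul_apply, ← map_mul, inv_mul_cancel, map_one, Module.End.one_apply]
  induction a using Int.induction_on generalizing v with
  | zero => simp
  | succ a ih =>
    rw [zpow_add_one, map_mul, Module.End.mul_apply, h1, ih, Pi.add_apply,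
      Pi.single_eq_of_ne h.symm, add_zero, add_assoc, ← Pi.single_add]
    congr 2; ring
  | pred a ih =>
    rw [zpow_sub_one, map_mul, Module.End.mul_apply, h2, ih, Pi.sub_apply,
      Pi.single_eq_of_ne h.symm, sub_zero, sub_add, ← Pi.single_sub, sub_eq_add_neg, ← Pi.single_neg]
    congr 2; ring

/-- the subgroup generated by the transvections and the signed permutations in `A` -/
def H (A : Finset (Fin n)) : Subgroup G :=
  Subgroup.closure ({g | ∃ i j, i ∈ A ∧ j ∈ A ∧ i ≠ j ∧ g = S.t i j} ∪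
    {g | ∃ σ ε, (∀ k, k ∉ A → σ k = k) ∧ (∀ k, k ∉ A → ε k = 1) ∧ g = S.sp σ ε})

/-- the stabiliser of the basis vector `s` -/
def P (A : Finset (Fin n)) (s : Fin n) : Subgroup G :=
  Subgroup.closure ({g | ∃ i j, i ∈ A ∧ j ∈ A ∧ i ≠ j ∧ j ≠ s ∧ g = S.t i j} ∪
    {g | ∃ σ ε, (∀ k, k ∉ A.erase s → σ k = k) ∧ (∀ k, k ∉ A.erase s → ε k = 1) ∧ g = S.sp σ ε})

theorem t_mem_H {A : Finset (Fin n)} {i j : Fin n} (hi : i ∈ A) (hj : j ∈ A) (h : i ≠ j) :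
    S.t i j ∈ S.H A := Subgroup.subset_closure (Or.inl ⟨i, j, hi, hj, h, rfl⟩)

theorem sp_mem_H {A : Finset (Fin n)} {σ : Equiv.Perm (Fin n)} {ε : Fin n → ℤˣ}
    (h1 : ∀ k, k ∉ A → σ k = k) (h2 : ∀ k, k ∉ A → ε k = 1) : S.sp σ ε ∈ S.H A :=
  Subgroup.subset_closure (Or.inr ⟨σ, ε, h1, h2, rfl⟩)

theorem t_mem_P {A : Finset (Fin n)} {s i j : Fin n} (hi : i ∈ A) (hj : j ∈ A) (h : i ≠ j)
    (hs : j ≠ s) : S.t i j ∈ S.P A s := Subgroup.subset_closure (Or.inl ⟨i, j, hi, hj, h, hs, rfl⟩)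

theorem sp_mem_P {A : Finset (Fin n)} {s : Fin n} {σ : Equiv.Perm (Fin n)} {ε : Fin n → ℤˣ}
    (h1 : ∀ k, k ∉ A.erase s → σ k = k) (h2 : ∀ k, k ∉ A.erase s → ε k = 1) :
    S.sp σ ε ∈ S.P A s :=
  Subgroup.subset_closure (Or.inr ⟨σ, ε, h1, h2, rfl⟩)

/-- outside of `A` nothing changes -/
theorem H_fix {A : Finset (Fin n)} {g : G} (hg : g ∈ S.H A) {s : Fin n} (hs : s ∉ A)
    (v : Fin n → ℤ) : S.rho g v s = v s := by
  unfold H at hg
  induction hg using Subgroup.closure_induction generalizing v with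
  | mem g hg =>
    rcases hg with ⟨i, j, hi, hj, hij, rfl⟩ | ⟨σ, ε, h1, h2, rfl⟩
    · rw [S.rho_t hij, Pi.add_apply, Pi.single_eq_of_ne (fun e : s = i => hs (e.symm ▸ hi)),
        add_zero]
    · have := S.rho_sp σ ε v s
      rw [h1 s hs, h2 s hs] at this
      rw [this]; simp
  | one => simp
  | mul a b _ _ ha hb => rw [map_mul, Module.End.mul_apply, ha, hb]
  | inv a _ ha =>
    rw [← ha (S.rho a⁻¹ v), ← Module.End.mul_apply, ← map_mul, mul_inv_cancel, map_one,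
      Module.End.one_apply]

end St

end Pool.Agent.CSP3.Mag
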