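import Pool.Agent.CSP3.MagA

/-!
# The presentation of `GL_n(ℤ)`: norm reduction (Silvester)

For a finite set `A` of indices and `s ∈ A` we attach to every vector `v` a coset `c v` of
`S.P A s` by a chain of norm reducing transvections, and prove that it does not depend on the chain.
-/

set_option autoImplicit false
set_option linter.unusedSectionVars false

namespace Pool.Agent.CSP3.Mag

variable {n : ℕ}

/-- the `ℓ¹` norm -/
def nn (v : Fin n → ℤ) : ℕ := ∑ k, (v k).natAbs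

/-- the action of a power of a transvection -/
def act (i j : Fin n) (e : ℤ) (v : Fin n → ℤ) : Fin n → ℤ := v + Pi.single i (e * v j)

theorem act_self (i j : Fin n) (e : ℤ) (v : Fin n → ℤ) : act i j e v i = v i + e * v j := by
  simp [act]

theorem act_ne {i k : Fin n} (h : k ≠ i) (j : Fin n) (e : ℤ) (v : Fin n → ℤ) :
    act i j e v k = v k := by
  simp [act, h]

theorem nn_act (i j : Fin n) (e : ℤ) (v : Fin n → ℤ) :
    nn (act i j e v) + (v i).natAbs = nn v + (v i + e * v j).natAbs := by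
  unfold nn
  rw [← Finset.add_sum_erase _ _ (Finset.mem_univ i), ← Finset.add_sum_erase _ (fun k => (v k).natAbs)
    (Finset.mem_univ i), act_self]
  have : ∑ x ∈ Finset.univ.erase i, (act i j e v x).natAbs =
      ∑ x ∈ Finset.univ.erase i, (v x).natAbs :=
    Finset.sum_congr rfl fun k hk => by rw [act_ne (Finset.ne_of_mem_erase hk)]
  rw [this]; omega

theorem act_neg {i j : Fin n} (h : i ≠ j) (e : ℤ) (v : Fin n → ℤ) : act i j (-e) (act i j e v) = v := by
  funext k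
  by_cases hk : k = i
  · subst hk; rw [act_self, act_self, act_ne h.symm]; ring
  · rw [act_ne hk, act_ne hk]

/-- norm reducing moves -/
def Red (A : Finset (Fin n)) (i j : Fin n) (e : ℤ) (v : Fin n → ℤ) : Prop :=
  i ∈ A ∧ j ∈ A ∧ i ≠ j ∧ (e = 1 ∨ e = -1) ∧ nn (act i j e v) < nn v

theorem red_iff {A : Finset (Fin n)} {i j : Fin n} {e : ℤ} {v : Fin n → ℤ} :
    Red A i j e v ↔ i ∈ A ∧ j ∈ A ∧ i ≠ j ∧ (e = 1 ∨ e = -1) ∧ (v i + e * v j).natAbs < (v i).natAbs := by
  unfold Red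
  have := nn_act i j e v
  constructor
  · rintro ⟨h1, h2, h3, h4, h5⟩; exact ⟨h1, h2, h3, h4, by omega⟩
  · rintro ⟨h1, h2, h3, h4, h5⟩; exact ⟨h1, h2, h3, h4, by omega⟩

variable {G : Type*} [Group G] (S : St n G)

namespace St

theorem rho_act {i j : Fin n} (h : i ≠ j) (e : ℤ) (v : Fin n → ℤ) :
    S.rho (S.t i j ^ e) v = act i j e v := S.rho_tz h e v

theorem nn_sp (σ : Equiv.Perm (Fin n)) (ε : Fin n → ℤˣ) (v : Fin n → ℤ) :
    nn (S.rho (S.sp σ ε) v) = nn v := by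
  unfold nn
  rw [← Equiv.sum_comp σ]
  refine Finset.sum_congr rfl fun k _ => ?_
  rw [S.rho_sp, Int.natAbs_mul, Int.units_natAbs, one_mul]

variable (A : Finset (Fin n)) (s : Fin n)

open Classical in
/-- the coset attached to a vector -/
noncomputable def c (v : Fin n → ℤ) : G ⧸ S.P A s :=
  if h : ∃ m : Fin n × Fin n × ℤ, Red A m.1 m.2.1 m.2.2 v then
    (S.t h.choose.1 h.choose.2.1 ^ h.choose.2.2)⁻¹ •
      c (act h.choose.1 h.choose.2.1 h.choose.2.2 v)
  else if h' : ∃ m : Equiv.Perm (Fin n) × (Fin n → ℤˣ), (∀ k, k ∉ A → m.1 k = k) ∧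
      (∀ k, k ∉ A → m.2 k = 1) ∧ S.rho (S.sp m.1 m.2) (Pi.single s 1) = v then
    QuotientGroup.mk (S.sp h'.choose.1 h'.choose.2)
  else QuotientGroup.mk 1
termination_by nn v
decreasing_by exact h.choose_spec.2.2.2.2

theorem c_red {v : Fin n → ℤ} (h : ∃ i j e, Red A i j e v) :
    ∃ i j e, Red A i j e v ∧ S.c A s v = (S.t i j ^ e)⁻¹ • S.c A s (act i j e v) := by
  classical
  have h' : ∃ m : Fin n × Fin n × ℤ, Red A m.1 m.2.1 m.2.2 v := by
    obtain ⟨i, j, e, h⟩ := h; exact ⟨(i, j, e), h⟩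
  refine ⟨_, _, _, h'.choose_spec, ?_⟩
  rw [c, dif_pos h']

/-- the vectors in the orbit of the basis vector `s` -/
def Prim (v : Fin n → ℤ) : Prop := ∃ g ∈ S.H A, S.rho g (Pi.single s 1) = v

variable {A s}

theorem Prim.act {v : Fin n → ℤ} (hv : S.Prim A s v) {i j : Fin n} (hi : i ∈ A) (hj : j ∈ A)
    (h : i ≠ j) (e : ℤ) : S.Prim A s (act i j e v) := by
  obtain ⟨g, hg, rfl⟩ := hv
  refine ⟨S.t i j ^ e * g, (S.H A).mul_mem ((S.H A).zpow_mem (S.t_mem_H hi hj h) e) hg, ?_⟩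
  rw [map_mul, Module.End.mul_apply, S.rho_act h]

theorem Prim.sp {v : Fin n → ℤ} (hv : S.Prim A s v) {σ : Equiv.Perm (Fin n)} {ε : Fin n → ℤˣ}
    (h1 : ∀ k, k ∉ A → σ k = k) (h2 : ∀ k, k ∉ A → ε k = 1) :
    S.Prim A s (S.rho (S.sp σ ε) v) := by
  obtain ⟨g, hg, rfl⟩ := hv
  exact ⟨S.sp σ ε * g, (S.H A).mul_mem (S.sp_mem_H h1 h2) hg, by
    rw [map_mul, Module.End.mul_apply]⟩

theorem Prim.supp {v : Fin n → ℤ} (hv : S.Prim A s v) (hs : s ∈ A) {k : Fin n} (hk : k ∉ A) :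
    v k = 0 := by
  obtain ⟨g, hg, rfl⟩ := hv
  rw [S.H_fix hg hk]
  exact Pi.single_eq_of_ne (fun e : k = s => hk (e.symm ▸ hs)) _

/-- a vector of the orbit with at most one nonzero coordinate is a signed basis vector -/
theorem Prim.one {v : Fin n → ℤ} (hv : S.Prim A s v) {k : Fin n} (h : ∀ l, l ≠ k → v l = 0) :
    v k = 1 ∨ v k = -1 := by
  obtain ⟨g, hg, hg'⟩ := hv
  have e1 : v = v k • Pi.single k (1 : ℤ) := by
    funext l
    by_cases hl : l = k
    · subst hl; simp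
    · simp [h l hl, hl]
  have e2 : S.rho g⁻¹ v = Pi.single s 1 := by
    rw [← hg', ← Module.End.mul_apply, ← map_mul, inv_mul_cancel, map_one, Module.End.one_apply]
  rw [e1, map_smul] at e2
  have e3 := congrFun e2 s
  rw [Pi.smul_apply, Pi.single_eq_same, smul_eq_mul] at e3
  exact Int.isUnit_iff.mp (IsUnit.of_mul_eq_one _ e3)

theorem Prim.exists_red {v : Fin n → ℤ} (hv : S.Prim A s v) (hs : s ∈ A) (h : 2 ≤ nn v) :
    ∃ i j e, Red A i j e v := by
  have h0 : ∃ i, v i ≠ 0 := by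
    by_contra hc
    push Not at hc
    have : nn v = 0 := Finset.sum_eq_zero fun k _ => by rw [hc k]; rfl
    omega
  obtain ⟨i, hi⟩ := h0
  have h1 : ∃ j, j ≠ i ∧ v j ≠ 0 := by
    by_contra hc
    push Not at hc
    have h2 : nn v = (v i).natAbs := by
      unfold nn
      exact Finset.sum_eq_single i (fun k _ hk => by rw [hc k hk]; rfl) (fun h => absurd (Finset.mem_univ _) h)
    rcases hv.one S hc with h3 | h3 <;> rw [h3] at h2 <;> simp at h2 <;> omega
  obtain ⟨j, hji, hj⟩ := h1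
  have hiA : i ∈ A := by by_contra hc; exact hi (hv.supp S hs hc)
  have hjA : j ∈ A := by by_contra hc; exact hj (hv.supp S hs hc)
  have key : ∀ a b : Fin n, a ∈ A → b ∈ A → a ≠ b → v a ≠ 0 → v b ≠ 0 →
      (v b).natAbs ≤ (v a).natAbs → ∃ i j e, Red A i j e v := by
    intro a b ha hb hab h1 h2 h3
    by_cases h4 : (v a + 1 * v b).natAbs < (v a).natAbs
    · exact ⟨a, b, 1, red_iff.mpr ⟨ha, hb, hab, Or.inl rfl, h4⟩⟩
    · refine ⟨a, b, -1, red_iff.mpr ⟨ha, hb, hab, Or.inr rfl, ?_⟩⟩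
      omega
  rcases le_total (v j).natAbs (v i).natAbs with h2 | h2
  · exact key i j hiA hjA hji.symm hi hj h2
  · exact key j i hjA hiA hji hj hi h2

end St

end Pool.Agent.CSP3.Mag
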