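import Pool.Agent.CSP3.MagB

/-!
# The presentation of `GL_n(ℤ)`: confluence
-/

set_option autoImplicit false
set_option linter.unusedSectionVars false

namespace Pool.Agent.CSP3.Mag

variable {n : ℕ} {G : Type*} [Group G] (S : St n G)

namespace St

variable (A : Finset (Fin n)) (s : Fin n)

/-- equivariance below the norm `N` -/
def EqvT (N : ℕ) : Prop := ∀ v, S.Prim A s v → nn v < N → ∀ i j e, i ∈ A → j ∈ A → i ≠ j →
  (e = 1 ∨ e = -1) → nn (act i j e v) < N → S.c A s (act i j e v) = S.t i j ^ e • S.c A s v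

def EqvS (N : ℕ) : Prop := ∀ v, S.Prim A s v → nn v < N → ∀ (σ : Equiv.Perm (Fin n))
  (ε : Fin n → ℤˣ), (∀ k, k ∉ A → σ k = k) → (∀ k, k ∉ A → ε k = 1) →
  S.c A s (S.rho (S.sp σ ε) v) = S.sp σ ε • S.c A s v

/-- two moves lead to the same coset -/
def Conf (v : Fin n → ℤ) (i j : Fin n) (e : ℤ) (k l : Fin n) (d : ℤ) : Prop :=
  (S.t i j ^ e)⁻¹ • S.c A s (act i j e v) = (S.t k l ^ d)⁻¹ • S.c A s (act k l d v)

variable {A s}

theorem Conf.trans {v : Fin n → ℤ} {i j k l p q : Fin n} {e d f : ℤ}
    (h1 : S.Conf A s v i j e k l d) (h2 : S.Conf A s v k l d p q f) :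
    S.Conf A s v i j e p q f := Eq.trans h1 h2

theorem Conf.symm {v : Fin n → ℤ} {i j k l : Fin n} {e d : ℤ}
    (h1 : S.Conf A s v i j e k l d) : S.Conf A s v k l d i j e := Eq.symm h1

/-- moves with different targets, none a source of the other -/
theorem conf_comm {N : ℕ} (hT : S.EqvT A s N) {v : Fin n → ℤ} (hv : S.Prim A s v) (hN : nn v = N)
    {i j k l : Fin n} {e d : ℤ} (h1 : Red A i j e v) (h2 : Red A k l d v) (hik : i ≠ k)
    (hjk : j ≠ k) (hil : i ≠ l) : S.Conf A s v i j e k l d := by
  have r1 := red_iff.mp h1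
  have r2 := red_iff.mp h2
  obtain ⟨hi, hj, hij, he, r1'⟩ := r1
  obtain ⟨hk, hl, hkl, hd, r2'⟩ := r2
  have e1 : act k l d (act i j e v) = act i j e (act k l d v) := by
    funext m
    by_cases hmk : m = k
    · subst hmk
      rw [act_self, act_ne hik.symm, act_ne hil.symm, act_ne hik.symm, act_self]
    · rw [act_ne hmk]
      by_cases hmi : m = i
      · subst hmi
        rw [act_self, act_self, act_ne hik, act_ne hjk]
      · rw [act_ne hmi, act_ne hmi, act_ne hmk]
  have n1 : nn (act k l d (act i j e v)) < N := by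
    have := nn_act k l d (act i j e v)
    rw [act_ne hik.symm, act_ne hil.symm] at this
    have := h1.2.2.2.2
    omega
  have c1 := hT (act i j e v) (hv.act S hi hj hij e) (by rw [← hN]; exact h1.2.2.2.2) k l d hk hl hkl
    hd n1
  have c2 := hT (act k l d v) (hv.act S hk hl hkl d) (by rw [← hN]; exact h2.2.2.2.2) i j e hi hj hij
    he (by rw [← e1]; exact n1)
  rw [e1, c2] at c1
  unfold Conf
  rw [inv_smul_eq_iff, smul_smul, (S.commT hij hkl hjk hil e d).inv_right.eq, ← smul_smul, ← c1.symm,
    smul_smul, inv_mul_cancel, one_smul]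

theorem brk_smul {X : Type*} [MulAction G X] {a b z : G} {x y : X} (h : a * b = z * (b * a))
    (h1 : a • y = z • b • x) : a⁻¹ • x = b⁻¹ • y := by
  have h2 : y = a⁻¹ • z • b • x := by rw [← h1, inv_smul_smul]
  have h3 : z * b = a * b * a⁻¹ := by rw [h]; group
  rw [h2, ← mul_smul z b x, h3, ← mul_smul, ← mul_smul]
  congr 1
  group

/-- the Steinberg relation, good case -/
theorem conf_brk {N : ℕ} (hT : S.EqvT A s N) {v : Fin n → ℤ} (hv : S.Prim A s v) (hN : nn v = N)
    {i j l : Fin n} {e d : ℤ} (h1 : Red A i j e v) (h2 : Red A j l d v) (hil : i ≠ l)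
    (hlj : (v l).natAbs ≤ (v j).natAbs) : S.Conf A s v i j e j l d := by
  have r1 := red_iff.mp h1
  have r2 := red_iff.mp h2
  obtain ⟨hi, hj, hij, he, r1'⟩ := r1
  obtain ⟨_, hl, hjl, hd, r2'⟩ := r2
  have e1 : act i j e (act j l d v) = act i l (e * d) (act j l d (act i j e v)) := by
    funext m
    by_cases hmi : m = i
    · subst hmi
      rw [act_self, act_self, act_self, act_ne hij, act_ne hij, act_self, act_ne hjl.symm,
        act_ne hil.symm]
      ring
    · rw [act_ne hmi, act_ne hmi]
      by_cases hmj : m = j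
      · subst hmj
        rw [act_self, act_self, act_ne hij.symm, act_ne hil.symm]
      · rw [act_ne hmj, act_ne hmj, act_ne hmi]
  have hN1 : nn (act i j e v) < N := by rw [← hN]; exact h1.2.2.2.2
  have hN2 : nn (act j l d v) < N := by rw [← hN]; exact h2.2.2.2.2
  have n1 : nn (act j l d (act i j e v)) < N := by
    have := nn_act j l d (act i j e v)
    rw [act_ne hij.symm, act_ne hil.symm] at this
    omega
  have n2 : nn (act i j e (act j l d v)) < N := by
    have h3 := nn_act i j e (act j l d v)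
    rw [act_ne hij, act_self] at h3
    have h4 := nn_act j l d v
    have h5 : (v i + e * (v j + d * v l)).natAbs ≤ (v i).natAbs := by
      rcases he with rfl | rfl <;> rcases hd with rfl | rfl <;>
        simp only [one_mul, neg_mul] at * <;> omega
    omega
  have hed : e * d = 1 ∨ e * d = -1 := by
    rcases he with rfl | rfl <;> rcases hd with rfl | rfl <;> simp
  have p1 := hv.act S hi hj hij e
  have c1 := hT _ p1 hN1 j l d hj hl hjl hd n1
  have c2 := hT _ (hv.act S hj hl hjl d) hN2 i j e hi hj hij he n2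
  have c3 := hT _ (p1.act S hj hl hjl d) n1 i l (e * d) hi hl hil hed (by rw [← e1]; exact n2)
  rw [← e1, c2, c1] at c3
  exact brk_smul (S.brkT hij hjl hil e d) c3

/-- opposite moves -/
theorem conf_opp {N : ℕ} (hT : S.EqvT A s N) (hS : S.EqvS A s N) {v : Fin n → ℤ}
    (hv : S.Prim A s v) (hN : nn v = N)
    {i j : Fin n} {e d : ℤ} (h1 : Red A i j e v) (h2 : Red A j i d v) :
    S.Conf A s v i j e j i d := by
  obtain ⟨hi, hj, hij, he, r1'⟩ := red_iff.mp h1
  obtain ⟨_, _, hji, hd, r2'⟩ := red_iff.mp h2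
  have hed : e = d := by
    rcases he with rfl | rfl <;> rcases hd with rfl | rfl <;>
        simp only [one_mul, neg_mul] at * <;> omega
  subst hed
  have he' : -e = 1 ∨ -e = -1 := by rcases he with rfl | rfl <;> simp
  obtain ⟨ε, hε, hw⟩ := S.weyl' hij he'
  rw [neg_neg] at hw
  have hσ : ∀ k, k ∉ A → Equiv.swap i j k = k := fun k hk =>
    Equiv.swap_apply_of_ne_of_ne (fun e : k = i => hk (e.symm ▸ hi)) (fun e : k = j => hk (e.symm ▸ hj))
  have hε' : ∀ k, k ∉ A → ε k = 1 := fun k hk =>
    hε k (fun e : k = i => hk (e.symm ▸ hi)) (fun e : k = j => hk (e.symm ▸ hj))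
  have hN1 : nn (act i j e v) < N := by rw [← hN]; exact h1.2.2.2.2
  have hN2 : nn (act j i e v) < N := by rw [← hN]; exact h2.2.2.2.2
  have e1 : S.rho (S.sp (Equiv.swap i j) ε) (act i j e v) = act i j (-e) (act j i e v) := by
    rw [← hw, map_mul, map_mul, Module.End.mul_apply, Module.End.mul_apply, S.rho_act hij,
      S.rho_act hji, S.rho_act hij, act_neg hij]
  have p1 := hv.act S hi hj hij e
  have c1 := hS _ p1 hN1 _ ε hσ hε'
  have p2 := p1.sp S hσ hε'
  have e2 : act i j e (S.rho (S.sp (Equiv.swap i j) ε) (act i j e v)) = act j i e v := by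
    rw [e1]
    have := act_neg hij (-e) (act j i e v)
    rwa [neg_neg] at this
  have c2 := hT _ p2 (by rw [S.nn_sp]; exact hN1) i j e hi hj hij he (by rw [e2]; exact hN2)
  rw [e2, c1, ← hw, ← mul_smul] at c2
  unfold Conf
  rw [c2, ← mul_smul]
  congr 1
  rw [zpow_neg]
  group

/-- any two reducing moves lead to the same coset -/
theorem conf {N : ℕ} (hT : S.EqvT A s N) (hS : S.EqvS A s N) {v : Fin n → ℤ}
    (hv : S.Prim A s v) (hN : nn v = N)
    {i j k l : Fin n} {e d : ℤ} (h1 : Red A i j e v) (h2 : Red A k l d v) :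
    S.Conf A s v i j e k l d := by
  obtain ⟨hi, hj, hij, he, r1'⟩ := red_iff.mp h1
  obtain ⟨hk, hl, hkl, hd, r2'⟩ := red_iff.mp h2
  -- the Steinberg case
  have key : ∀ {i j l : Fin n} {e d : ℤ}, Red A i j e v → Red A j l d v → i ≠ l →
      S.Conf A s v i j e j l d := by
    intro i j l e d h1 h2 hil
    obtain ⟨hi, hj, hij, he, r1'⟩ := red_iff.mp h1
    obtain ⟨_, hl, hjl, hd, r2'⟩ := red_iff.mp h2
    rcases le_or_gt (v l).natAbs (v j).natAbs with h | h
    · exact S.conf_brk hT hv hN h1 h2 hil h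
    · have h3 : Red A l j d v := by
        refine red_iff.mpr ⟨hl, hj, hjl.symm, hd, ?_⟩
        rcases hd with rfl | rfl <;> simp only [one_mul, neg_mul] at * <;> omega
      exact (S.conf_comm hT hv hN h1 h3 hil hjl hij).trans S (S.conf_opp hT hS hv hN h3 h2)
  by_cases hik : i = k
  · subst hik
    by_cases hjl : j = l
    · subst hjl
      have hed : e = d := by
        rcases he with rfl | rfl <;> rcases hd with rfl | rfl <;>
          simp only [one_mul, neg_mul] at * <;> omega
      subst hed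
      rfl
    · -- same target, different sources
      have key2 : ∀ {j l : Fin n} {e d : ℤ}, Red A i j e v → Red A i l d v → j ≠ l →
          (v l).natAbs ≤ (v j).natAbs → S.Conf A s v i j e i l d := by
        intro j l e d h1 h2 hjl hle
        obtain ⟨hi, hj, hij, he, r1'⟩ := red_iff.mp h1
        obtain ⟨_, hl, hil, hd, r2'⟩ := red_iff.mp h2
        have h3 : ∃ f, Red A j l f v := by
          by_cases h4 : (v j + 1 * v l).natAbs < (v j).natAbs
          · exact ⟨1, red_iff.mpr ⟨hj, hl, hjl, Or.inl rfl, h4⟩⟩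
          · refine ⟨-1, red_iff.mpr ⟨hj, hl, hjl, Or.inr rfl, ?_⟩⟩
            rcases hd with rfl | rfl <;> simp only [one_mul, neg_mul] at * <;> omega
        obtain ⟨f, h3⟩ := h3
        exact (key h1 h3 hil).trans S (S.conf_comm hT hv hN h3 h2 hij.symm hil.symm hjl)
      rcases le_total (v l).natAbs (v j).natAbs with h | h
      · exact key2 h1 h2 hjl h
      · exact (key2 h2 h1 (Ne.symm hjl) h).symm S
  · by_cases hjk : j = k
    · subst hjk
      by_cases hil : i = l
      · subst hil
        exact S.conf_opp hT hS hv hN h1 h2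
      · exact key h1 h2 hil
    · by_cases hil : i = l
      · subst hil
        exact (key h2 h1 (Ne.symm hjk)).symm S
      · exact S.conf_comm hT hv hN h1 h2 hik hjk hil

end St

end Pool.Agent.CSP3.Mag
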