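import Pool.Agent.CSP3.MagC

/-!
# The presentation of `GL_n(ℤ)`: the induction over the norm, stabilisers
-/

set_option autoImplicit false
set_option linter.unusedSectionVars false

namespace Pool.Agent.CSP3.Mag

variable {n : ℕ} {G : Type*} [Group G] (S : St n G)

namespace St

variable {A : Finset (Fin n)} {s : Fin n}

theorem c_eq {N : ℕ} (hT : S.EqvT A s N) (hS : S.EqvS A s N) {v : Fin n → ℤ}
    (hv : S.Prim A s v) (hN : nn v = N) {i j : Fin n} {e : ℤ} (h : Red A i j e v) :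
    S.c A s v = (S.t i j ^ e)⁻¹ • S.c A s (act i j e v) := by
  obtain ⟨k, l, d, h1, h2⟩ := S.c_red A s ⟨i, j, e, h⟩
  rw [h2]
  exact S.conf hT hS hv hN h1 h

theorem sp_maps {σ : Equiv.Perm (Fin n)} (h1 : ∀ k, k ∉ A → σ k = k) {i : Fin n} (hi : i ∈ A) :
    σ i ∈ A := by
  by_contra hc
  have := σ.injective (h1 _ hc)
  exact hc (this.symm ▸ hi)

theorem act_sp (σ : Equiv.Perm (Fin n)) (ε : Fin n → ℤˣ) {i j : Fin n} (h : i ≠ j) (e : ℤ)
    (v : Fin n → ℤ) : act (σ i) (σ j) (((ε i * ε j : ℤˣ) : ℤ) * e) (S.rho (S.sp σ ε) v) =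
      S.rho (S.sp σ ε) (act i j e v) := by
  rw [← S.rho_act (fun h' => h (σ.injective h')), ← S.rho_act h, ← Module.End.mul_apply,
    ← Module.End.mul_apply, ← map_mul, ← map_mul, S.sp_tz' σ ε h]

theorem sgn_mul (u : ℤˣ) {e : ℤ} (he : e = 1 ∨ e = -1) :
    (u : ℤ) * e = 1 ∨ (u : ℤ) * e = -1 := by
  rcases Int.units_eq_one_or u with rfl | rfl <;> rcases he with rfl | rfl <;> simp

theorem red_sp {σ : Equiv.Perm (Fin n)} {ε : Fin n → ℤˣ} (h1 : ∀ k, k ∉ A → σ k = k)
    {v : Fin n → ℤ} {i j : Fin n} {e : ℤ} (h : Red A i j e v) :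
    Red A (σ i) (σ j) (((ε i * ε j : ℤˣ) : ℤ) * e) (S.rho (S.sp σ ε) v) := by
  obtain ⟨hi, hj, hij, he, h2⟩ := h
  refine ⟨sp_maps h1 hi, sp_maps h1 hj, fun h' => hij (σ.injective h'), sgn_mul _ he, ?_⟩
  rw [S.act_sp σ ε hij, S.nn_sp, S.nn_sp]
  exact h2

/-- vectors of norm one -/
theorem one_of_nn {v : Fin n → ℤ} (hv : S.Prim A s v) (hs : s ∈ A) (h : nn v ≤ 1) :
    ∃ q ∈ A, (v q = 1 ∨ v q = -1) ∧ ∀ l, l ≠ q → v l = 0 := by
  have h0 : ∃ i, v i ≠ 0 := by
    by_contra hc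
    push Not at hc
    rcases hv.one S (k := s) (fun l _ => hc l) with h | h <;> rw [hc s] at h <;> simp at h
  obtain ⟨q, hq⟩ := h0
  have h1 : nn v = (v q).natAbs + ∑ k ∈ Finset.univ.erase q, (v k).natAbs := by
    unfold nn
    rw [← Finset.add_sum_erase _ _ (Finset.mem_univ q)]
  have h2 : ∑ k ∈ Finset.univ.erase q, (v k).natAbs = 0 := by omega
  have h3 : ∀ l, l ≠ q → v l = 0 := by
    intro l hl
    have := Finset.sum_eq_zero_iff.mp h2 l (Finset.mem_erase.mpr ⟨hl, Finset.mem_univ l⟩)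
    exact Int.natAbs_eq_zero.mp this
  refine ⟨q, ?_, hv.one S h3, h3⟩
  by_contra hc
  exact hq (hv.supp S hs hc)

theorem sp_fix {σ : Equiv.Perm (Fin n)} {ε : Fin n → ℤˣ} (h1 : ∀ k, k ∉ A → σ k = k)
    (h2 : ∀ k, k ∉ A → ε k = 1) (h3 : S.rho (S.sp σ ε) (Pi.single s 1) = Pi.single s 1) :
    S.sp σ ε ∈ S.P A s := by
  have h4 := S.rho_sp σ ε (Pi.single s 1) s
  rw [h3, Pi.single_eq_same, mul_one] at h4
  have h5 : σ s = s := by
    by_contra hc
    rw [Pi.single_eq_of_ne hc] at h4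
    exact (ε s).ne_zero h4.symm
  rw [h5, Pi.single_eq_same] at h4
  have h6 : ε s = 1 := Units.ext h4.symm
  refine S.sp_mem_P (fun k hk => ?_) fun k hk => ?_
  · by_cases hks : k = s
    · rw [hks, h5]
    · exact h1 k fun hkA => hk (Finset.mem_erase.mpr ⟨hks, hkA⟩)
  · by_cases hks : k = s
    · rw [hks, h6]
    · exact h2 k fun hkA => hk (Finset.mem_erase.mpr ⟨hks, hkA⟩)

theorem supp_mul {σ τ : Equiv.Perm (Fin n)} (h1 : ∀ k, k ∉ A → σ k = k)
    (h2 : ∀ k, k ∉ A → τ k = k) : ∀ k, k ∉ A → (σ * τ) k = k := by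
  intro k hk
  rw [Equiv.Perm.mul_apply, h2 k hk, h1 k hk]

theorem supp_inv {σ : Equiv.Perm (Fin n)} (h1 : ∀ k, k ∉ A → σ k = k) :
    ∀ k, k ∉ A → σ⁻¹ k = k := by
  intro k hk
  rw [Equiv.Perm.inv_eq_iff_eq, h1 k hk]

theorem c_base {v : Fin n → ℤ} (hv : S.Prim A s v) (hs : s ∈ A) (h : nn v ≤ 1)
    {σ : Equiv.Perm (Fin n)} {ε : Fin n → ℤˣ} (h1 : ∀ k, k ∉ A → σ k = k)
    (h2 : ∀ k, k ∉ A → ε k = 1) (h3 : S.rho (S.sp σ ε) (Pi.single s 1) = v) :
    S.c A s v = QuotientGroup.mk (S.sp σ ε) := by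
  classical
  obtain ⟨q, hq, hv1, hv0⟩ := S.one_of_nn hv hs h
  have hno : ¬ ∃ m : Fin n × Fin n × ℤ, Red A m.1 m.2.1 m.2.2 v := by
    rintro ⟨⟨i, j, e⟩, hr⟩
    obtain ⟨hi, hj, hij, he, hr⟩ := red_iff.mp hr
    simp only at hr hij he
    by_cases hjq : j = q
    · have : v i = 0 := hv0 i (fun h => hij (h.trans hjq.symm))
      rw [this] at hr; simp at hr
    · rw [hv0 j hjq] at hr; simp at hr
  have hyes : ∃ m : Equiv.Perm (Fin n) × (Fin n → ℤˣ), (∀ k, k ∉ A → m.1 k = k) ∧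
      (∀ k, k ∉ A → m.2 k = 1) ∧ S.rho (S.sp m.1 m.2) (Pi.single s 1) = v :=
    ⟨(σ, ε), h1, h2, h3⟩
  rw [c, dif_neg hno, dif_pos hyes]
  obtain ⟨g1, g2, g3⟩ := hyes.choose_spec
  rw [QuotientGroup.eq, S.sp_inv, S.sp_mul]
  refine S.sp_fix (supp_mul (supp_inv g1) h1) (fun k hk => ?_) ?_
  · rw [h2 k hk, h1 k hk, supp_inv g1 k hk, g2 k hk, one_mul]
  · have e : S.sp (hyes.choose.1⁻¹ * σ) (fun k => hyes.choose.2 (hyes.choose.1⁻¹ (σ k)) * ε k) =
        (S.sp hyes.choose.1 hyes.choose.2)⁻¹ * S.sp σ ε := by rw [S.sp_inv, S.sp_mul]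
    rw [e, map_mul, Module.End.mul_apply, h3]
    have e3 := congrArg (S.rho (S.sp hyes.choose.1 hyes.choose.2)⁻¹) g3
    rw [← Module.End.mul_apply, ← map_mul, inv_mul_cancel, map_one, Module.End.one_apply] at e3
    exact e3.symm

theorem exists_base {v : Fin n → ℤ} (hv : S.Prim A s v) (hs : s ∈ A) (h : nn v ≤ 1) :
    ∃ (σ : Equiv.Perm (Fin n)) (ε : Fin n → ℤˣ), (∀ k, k ∉ A → σ k = k) ∧
    (∀ k, k ∉ A → ε k = 1) ∧ S.rho (S.sp σ ε) (Pi.single s 1) = v := by
  obtain ⟨q, hq, hv1, hv0⟩ := S.one_of_nn hv hs h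
  have hu : ∃ u : ℤˣ, (u : ℤ) = v q := by
    rcases hv1 with h | h
    · exact ⟨1, h.symm⟩
    · exact ⟨-1, h.symm⟩
  obtain ⟨u, hu⟩ := hu
  refine ⟨Equiv.swap s q, fun k => if k = s then u else 1, fun k hk => ?_, fun k hk => ?_, ?_⟩
  · exact Equiv.swap_apply_of_ne_of_ne (fun e : k = s => hk (e.symm ▸ hs))
      (fun e : k = q => hk (e.symm ▸ hq))
  · exact if_neg (fun e : k = s => hk (e.symm ▸ hs))
  · funext l
    have h1 := S.rho_sp (Equiv.swap s q) (fun k => if k = s then u else 1) (Pi.single s 1)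
      (Equiv.swap s q l)
    rw [Equiv.swap_apply_self] at h1
    rw [h1]
    by_cases hl : l = q
    · subst hl
      rw [Equiv.swap_apply_right, Pi.single_eq_same, if_pos rfl, mul_one, hu]
    · have : Equiv.swap s q l ≠ s := by
        intro h2
        have h3 := congrArg (Equiv.swap s q) h2
        rw [Equiv.swap_apply_self, Equiv.swap_apply_left] at h3
        exact hl h3
      rw [Pi.single_eq_of_ne this, mul_zero, hv0 l hl]

theorem eqvS_succ {N : ℕ} (hs : s ∈ A) (hT : S.EqvT A s N) (hS : S.EqvS A s N) :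
    S.EqvS A s (N + 1) := by
  intro v hv hN σ ε h1 h2
  rcases Nat.lt_succ_iff_lt_or_eq.mp hN with hN | hN
  · exact hS v hv hN σ ε h1 h2
  by_cases hN2 : 2 ≤ N
  · obtain ⟨i, j, e, hr⟩ := hv.exists_red S hs (by omega)
    have hr' := S.red_sp (ε := ε) h1 hr
    have hij := hr.2.2.1
    rw [S.c_eq hT hS hv hN hr, S.c_eq hT hS (hv.sp S h1 h2) (by rw [S.nn_sp]; exact hN) hr',
      S.act_sp σ ε hij, hS _ (hv.act S hr.1 hr.2.1 hij e) (by rw [← hN]; exact hr.2.2.2.2) σ ε h1 h2,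
      inv_smul_eq_iff, ← mul_smul, ← mul_smul]
    congr 1
    rw [← S.sp_tz σ ε hij]
    group
  · obtain ⟨τ, δ, g1, g2, g3⟩ := S.exists_base hv hs (by omega)
    rw [S.c_base hv hs (by omega) g1 g2 g3]
    have g4 : S.rho (S.sp (σ * τ) (fun k => ε (τ k) * δ k)) (Pi.single s 1) =
        S.rho (S.sp σ ε) v := by
      rw [← S.sp_mul, map_mul, Module.End.mul_apply, g3]
    rw [S.c_base (hv.sp S h1 h2) hs (by rw [S.nn_sp]; omega) (supp_mul h1 g1)
      (fun k hk => by rw [g1 k hk, g2 k hk, h2 k hk, one_mul]) g4, ← S.sp_mul]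
    rfl

/-- a transvection whose source coordinate vanishes -/
theorem fix_zero {N : ℕ} (hs : s ∈ A) (hT : S.EqvT A s N) (hS : S.EqvS A s N) {v : Fin n → ℤ}
    (hv : S.Prim A s v) (hN : nn v = N) {k l : Fin n} (hk : k ∈ A) (hl : l ∈ A) (hkl : k ≠ l)
    {d : ℤ} (hd : d = 1 ∨ d = -1) (h0 : v l = 0) : S.t k l ^ d • S.c A s v = S.c A s v := by
  by_cases hN2 : 2 ≤ N
  · obtain ⟨i, j, e, hr⟩ := hv.exists_red S hs (by omega)
    obtain ⟨hi, hj, hij, he, hr'⟩ := red_iff.mp hr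
    have hil : i ≠ l := by
      rintro rfl
      rw [h0] at hr'; simp at hr'
    have hjl : j ≠ l := by
      rintro rfl
      rw [h0] at hr'; simp at hr'
    have p1 := hv.act S hi hj hij e
    have z1 : act i j e v l = 0 := by rw [act_ne hil.symm, h0]
    have n1 : nn (act i j e v) < N := by rw [← hN]; exact hr.2.2.2.2
    have fix : ∀ {k : Fin n} {d : ℤ}, k ∈ A → k ≠ l → (d = 1 ∨ d = -1) →
        S.t k l ^ d • S.c A s (act i j e v) = S.c A s (act i j e v) := by
      intro k d hk hkl hd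
      have e1 : act k l d (act i j e v) = act i j e v := by
        funext m
        by_cases hm : m = k
        · subst hm; rw [act_self, z1, mul_zero, add_zero]
        · rw [act_ne hm]
      have := hT _ p1 n1 k l d hk hl hkl hd (by rw [e1]; exact n1)
      rw [e1] at this
      exact this.symm
    rw [S.c_eq hT hS hv hN hr]
    by_cases hjk : j = k
    · subst hjk
      have hb := S.brkT hij hjl hil e d
      have hed : e * d = 1 ∨ e * d = -1 := by
        rcases he with rfl | rfl <;> rcases hd with rfl | rfl <;> simp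
      have e2 : S.t j l ^ d * (S.t i j ^ e)⁻¹ =
          (S.t i j ^ e)⁻¹ * (S.t i l ^ (e * d) * S.t j l ^ d) := by
        have : S.t i l ^ (e * d) * S.t j l ^ d = S.t i j ^ e * S.t j l ^ d * (S.t i j ^ e)⁻¹ := by
          rw [hb]; group
        rw [this]; group
      rw [← mul_smul, e2, mul_smul, mul_smul, fix hj hjl hd, fix hi hil hed]
    · rw [← mul_smul, ((S.commT hij hkl hjk hil e d).symm.inv_right).eq, mul_smul, fix hk hkl hd]
  · obtain ⟨τ, δ, g1, g2, g3⟩ := S.exists_base hv hs (by omega)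
    rw [S.c_base hv hs (by omega) g1 g2 g3]
    show QuotientGroup.mk (S.t k l ^ d * S.sp τ δ) = QuotientGroup.mk (S.sp τ δ)
    rw [eq_comm, QuotientGroup.eq, S.sp_inv]
    have e1 := S.sp_tz τ⁻¹ (fun k => δ (τ⁻¹ k)) hkl d
    rw [← S.sp_inv, inv_inv] at e1
    rw [← S.sp_inv, ← mul_assoc, e1]
    refine (S.P A s).zpow_mem (S.t_mem_P (sp_maps (supp_inv g1) hk) (sp_maps (supp_inv g1) hl)
      (fun h => hkl (τ⁻¹.injective h)) ?_) _
    intro h
    rw [Equiv.Perm.inv_eq_iff_eq] at h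
    have h2 := S.rho_sp τ δ (Pi.single s 1) s
    rw [g3, ← h, h0, Pi.single_eq_same, mul_one] at h2
    exact (δ s).ne_zero h2.symm

theorem eqvT_succ {N : ℕ} (hs : s ∈ A) (hT : S.EqvT A s N) (hS : S.EqvS A s N) :
    S.EqvT A s (N + 1) := by
  intro v hv hN i j e hi hj hij he hN'
  have hji := Ne.symm hij
  have he' : -e = 1 ∨ -e = -1 := by rcases he with rfl | rfl <;> simp
  have p' := hv.act S hi hj hij e
  rcases Nat.lt_succ_iff_lt_or_eq.mp hN with h1 | h1
  · rcases Nat.lt_succ_iff_lt_or_eq.mp hN' with h2 | h2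
    · exact hT v hv h1 i j e hi hj hij he h2
    · have hr : Red A i j (-e) (act i j e v) := by
        refine ⟨hi, hj, hij, he', ?_⟩
        rw [act_neg hij]; omega
      rw [S.c_eq hT hS p' h2 hr, act_neg hij, zpow_neg, inv_inv]
  · rcases Nat.lt_succ_iff_lt_or_eq.mp hN' with h2 | h2
    · have hr : Red A i j e v := ⟨hi, hj, hij, he, by omega⟩
      rw [S.c_eq hT hS hv h1 hr, smul_inv_smul]
    · by_cases h0 : v j = 0
      · have e1 : act i j e v = v := by
          funext m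
          by_cases hm : m = i
          · subst hm; rw [act_self, h0, mul_zero, add_zero]
          · rw [act_ne hm]
        rw [e1, S.fix_zero hs hT hS hv h1 hi hj hij he h0]
      · have h3 := nn_act i j e v
        have h4 : (v i).natAbs = (v i + e * v j).natAbs := by omega
        have r1 : Red A j i e v := by
          refine red_iff.mpr ⟨hj, hi, hji, he, ?_⟩
          rcases he with rfl | rfl <;> simp only [one_mul, neg_mul] at * <;> omega
        have r3 : Red A j i (-e) (act i j e v) := by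
          refine red_iff.mpr ⟨hj, hi, hji, he', ?_⟩
          rw [act_ne hji, act_self]
          rcases he with rfl | rfl <;> simp only [one_mul, neg_mul, neg_neg] at * <;> omega
        obtain ⟨ε, hε, hw⟩ := S.weyl' hji he'
        rw [neg_neg] at hw
        have hσ : ∀ k, k ∉ A → Equiv.swap j i k = k := fun k hk =>
          Equiv.swap_apply_of_ne_of_ne (fun e : k = j => hk (e.symm ▸ hj))
            (fun e : k = i => hk (e.symm ▸ hi))
        have hε' : ∀ k, k ∉ A → ε k = 1 := fun k hk =>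
          hε k (fun e : k = j => hk (e.symm ▸ hj)) (fun e : k = i => hk (e.symm ▸ hi))
        have p1 := hv.act S hj hi hji e
        have n1 : nn (act j i e v) < N := by rw [← h1]; exact r1.2.2.2.2
        have e1 : S.rho (S.sp (Equiv.swap j i) ε) (act j i e v) =
            act j i (-e) (act i j e v) := by
          rw [← hw, map_mul, map_mul, Module.End.mul_apply, Module.End.mul_apply, S.rho_act hji,
            S.rho_act hij, S.rho_act hji, act_neg hji]
        have c1 := hS _ p1 n1 _ ε hσ hε'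
        rw [e1] at c1
        rw [S.c_eq hT hS p' h2 r3, c1, S.c_eq hT hS hv h1 r1, ← hw, ← mul_smul, ← mul_smul]
        congr 1
        rw [zpow_neg]
        group

theorem eqv (hs : s ∈ A) (N : ℕ) : S.EqvT A s N ∧ S.EqvS A s N := by
  induction N with
  | zero => exact ⟨fun v _ h => absurd h (Nat.not_lt_zero _), fun v _ h => absurd h (Nat.not_lt_zero _)⟩
  | succ N ih => exact ⟨S.eqvT_succ hs ih.1 ih.2, S.eqvS_succ hs ih.1 ih.2⟩

theorem c_equivariant (hs : s ∈ A) {g : G} (hg : g ∈ S.H A) :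
    ∀ v, S.Prim A s v → S.c A s (S.rho g v) = g • S.c A s v := by
  have hg0 := hg
  unfold H at hg
  induction hg using Subgroup.closure_induction with
  | mem g hg =>
    intro v hv
    rcases hg with ⟨i, j, hi, hj, hij, rfl⟩ | ⟨σ, ε, h1, h2, rfl⟩
    · have := (S.eqv hs (nn v + nn (act i j 1 v) + 1)).1 v hv (by omega) i j 1 hi hj hij
        (Or.inl rfl) (by omega)
      rwa [← S.rho_act hij, zpow_one] at this
    · exact (S.eqv hs (nn v + 1)).2 v hv (by omega) σ ε h1 h2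
  | one => intro v _; rw [map_one, Module.End.one_apply, one_smul]
  | mul a b ha hb iha ihb =>
    intro v hv
    obtain ⟨g, hg, rfl⟩ := hv
    rw [map_mul, Module.End.mul_apply, iha ha _ ?_, ihb hb _ ⟨g, hg, rfl⟩, mul_smul]
    exact ⟨b * g, (S.H A).mul_mem hb hg, by rw [map_mul, Module.End.mul_apply]⟩
  | inv a ha iha =>
    intro v hv
    obtain ⟨g, hg, rfl⟩ := hv
    have h1 := iha ha (S.rho a⁻¹ (S.rho g (Pi.single s 1)))
      ⟨a⁻¹ * g, (S.H A).mul_mem ((S.H A).inv_mem ha) hg, by rw [map_mul, Module.End.mul_apply]⟩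
    rw [← Module.End.mul_apply (S.rho a), ← map_mul, mul_inv_cancel, map_one,
      Module.End.one_apply] at h1
    rw [h1, inv_smul_smul]

/-- the stabiliser of a basis vector -/
theorem stab (hs : s ∈ A) {g : G} (hg : g ∈ S.H A)
    (h : S.rho g (Pi.single s 1) = Pi.single s 1) : g ∈ S.P A s := by
  have p0 : S.Prim A s (Pi.single s 1) := ⟨1, (S.H A).one_mem, by rw [map_one, Module.End.one_apply]⟩
  have n0 : nn (Pi.single s (1 : ℤ)) ≤ 1 := by
    unfold nn
    rw [Finset.sum_eq_single s (fun k _ hk => by rw [Pi.single_eq_of_ne hk]; rfl)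
      (fun h => absurd (Finset.mem_univ _) h), Pi.single_eq_same]
    rfl
  have h1 := S.c_equivariant hs hg _ p0
  have h2 : S.c A s (Pi.single s 1) = QuotientGroup.mk 1 := by
    rw [S.c_base p0 hs n0 (σ := 1) (ε := 1) (fun k _ => rfl) (fun k _ => rfl)
      (by rw [S.sp_one, map_one, Module.End.one_apply]), S.sp_one]
  rw [h, h2] at h1
  have h3 : (QuotientGroup.mk 1 : G ⧸ S.P A s) = QuotientGroup.mk (g * 1) := h1
  rw [QuotientGroup.eq, inv_one, one_mul, mul_one] at h3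
  exact h3

end St

end Pool.Agent.CSP3.Mag
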