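import Pool.Agent.CSP3.MagD

/-!
# The presentation of `GL_n(ℤ)`: faithfulness
-/

set_option autoImplicit false
set_option linter.unusedSectionVars false

namespace Pool.Agent.CSP3.Mag

variable {n : ℕ} {G : Type*} [Group G] (S : St n G)

namespace St

/-- the row `s`: generated by `t s j`, `j ∈ B` -/
def U (B : Finset (Fin n)) (s : Fin n) : Subgroup G :=
  Subgroup.closure {g | ∃ j ∈ B, j ≠ s ∧ g = S.t s j}

theorem t_mem_U {B : Finset (Fin n)} {s j : Fin n} (hj : j ∈ B) (h : j ≠ s) :
    S.t s j ∈ S.U B s := Subgroup.subset_closure ⟨j, hj, h, rfl⟩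

/-- an element of `U` moves only the coordinate `s` and fixes the basis vectors outside `B` -/
theorem U_fix {B : Finset (Fin n)} {s : Fin n} {g : G} (hg : g ∈ S.U B s) (v : Fin n → ℤ) :
    (∀ k, k ≠ s → S.rho g v k = v k) ∧ ((∀ k ∈ B, k ≠ s → v k = 0) → S.rho g v = v) := by
  unfold U at hg
  induction hg using Subgroup.closure_induction generalizing v with
  | mem g hg =>
    obtain ⟨j, hj, hjs, rfl⟩ := hg
    rw [S.rho_t (Ne.symm hjs)]
    refine ⟨fun k hk => ?_, fun h => ?_⟩
    · rw [Pi.add_apply, Pi.single_eq_of_ne hk, add_zero]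
    · rw [h j hj hjs, Pi.single_zero, add_zero]
  | one => rw [map_one, Module.End.one_apply]; exact ⟨fun _ _ => rfl, fun _ => rfl⟩
  | mul a b _ _ ha hb =>
    rw [map_mul, Module.End.mul_apply]
    refine ⟨fun k hk => ?_, fun h => ?_⟩
    · rw [(ha _).1 k hk, (hb v).1 k hk]
    · rw [(hb v).2 h, (ha v).2 h]
  | inv a _ ha =>
    have e : S.rho a (S.rho a⁻¹ v) = v := by
      rw [← Module.End.mul_apply, ← map_mul, mul_inv_cancel, map_one, Module.End.one_apply]
    have h1 : ∀ k, k ≠ s → S.rho a⁻¹ v k = v k := by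
      intro k hk
      have := (ha (S.rho a⁻¹ v)).1 k hk
      rw [e] at this
      exact this.symm
    refine ⟨h1, fun h => ?_⟩
    have := (ha (S.rho a⁻¹ v)).2 (fun k hk hks => by rw [h1 k hks]; exact h k hk hks)
    rw [e] at this
    exact this.symm

/-- `U` is generated by commuting elements -/
theorem U_comm {B : Finset (Fin n)} {s k : Fin n} (hk : k ≠ s) {g : G} (hg : g ∈ S.U B s) :
    Commute (S.t s k) g := by
  unfold U at hg
  induction hg using Subgroup.closure_induction with
  | mem g hg =>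
    obtain ⟨j, hj, hjs, rfl⟩ := hg
    exact S.comm (Ne.symm hk) (Ne.symm hjs) hk (Ne.symm hjs)
  | one => exact Commute.one_right _
  | mul a b _ _ ha hb => exact ha.mul_right hb
  | inv a _ ha => exact ha.inv_right

theorem U_inj (s : Fin n) (B : Finset (Fin n)) : ∀ g ∈ S.U B s, S.rho g = 1 → g = 1 := by
  induction B using Finset.induction_on with
  | empty =>
    intro g hg _
    have : S.U ∅ s = ⊥ := by
      unfold U
      rw [Subgroup.closure_eq_bot_iff]
      rintro g ⟨j, hj, _⟩
      exact absurd hj (Finset.notMem_empty j)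
    rw [this] at hg
    exact Subgroup.mem_bot.mp hg
  | insert k B hk ih =>
    intro g hg hg1
    by_cases hks : k = s
    · refine ih g ?_ hg1
      have : S.U (insert k B) s ≤ S.U B s := by
        conv_lhs => rw [U]
        rw [Subgroup.closure_le]
        rintro g ⟨j, hj, hjs, rfl⟩
        rcases Finset.mem_insert.mp hj with h | h
        · exact absurd (h.trans hks) hjs
        · exact S.t_mem_U h hjs
      exact this hg
    · -- split off the power of `t s k`
      have key : ∃ (a : ℤ) (u : G), u ∈ S.U B s ∧ g = S.t s k ^ a * u := by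
        clear hg1
        unfold U at hg
        induction hg using Subgroup.closure_induction with
        | mem g hg =>
          obtain ⟨j, hj, hjs, rfl⟩ := hg
          rcases Finset.mem_insert.mp hj with h | h
          · exact ⟨1, 1, (S.U B s).one_mem, by rw [zpow_one, mul_one, h]⟩
          · exact ⟨0, S.t s j, S.t_mem_U h hjs, by rw [zpow_zero, one_mul]⟩
        | one => exact ⟨0, 1, (S.U B s).one_mem, by rw [zpow_zero, one_mul]⟩
        | mul x y _ _ hx hy =>
          obtain ⟨a, u, hu, rfl⟩ := hx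
          obtain ⟨b, w, hw, rfl⟩ := hy
          refine ⟨a + b, u * w, (S.U B s).mul_mem hu hw, ?_⟩
          have : Commute (S.t s k ^ b) u := (S.U_comm hks hu).zpow_left b
          rw [zpow_add, mul_assoc, mul_assoc, ← mul_assoc u, ← this.eq, mul_assoc]
        | inv x _ hx =>
          obtain ⟨a, u, hu, rfl⟩ := hx
          refine ⟨-a, u⁻¹, (S.U B s).inv_mem hu, ?_⟩
          have : Commute (S.t s k ^ a) u := (S.U_comm hks hu).zpow_left a
          rw [this.eq, mul_inv_rev, zpow_neg]
      obtain ⟨a, u, hu, rfl⟩ := key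
      have h1 : S.rho u (Pi.single k 1) = Pi.single k 1 := by
        refine (S.U_fix hu _).2 fun j hj _ => ?_
        exact Pi.single_eq_of_ne (fun e : j = k => hk (e ▸ hj)) _
      have h2 : S.rho (S.t s k ^ a * u) (Pi.single k 1) s = (Pi.single k 1 : Fin n → ℤ) s := by
        rw [hg1, Module.End.one_apply]
      rw [map_mul, Module.End.mul_apply, h1, S.rho_tz (Ne.symm hks), Pi.add_apply,
        Pi.single_eq_same, Pi.single_eq_same, mul_one] at h2
      have ha : a = 0 := by omega
      subst ha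
      rw [zpow_zero, one_mul] at hg1 ⊢
      exact ih u hu hg1

/-- the decomposition of the stabiliser -/
theorem P_dec {A : Finset (Fin n)} {s : Fin n} (hs : s ∈ A) {g : G} (hg : g ∈ S.P A s) :
    ∃ u ∈ S.U A s, ∃ h ∈ S.H (A.erase s), g = u * h := by
  -- the generators of `H (A.erase s)` normalise `U`
  have nT : ∀ i j, i ∈ A → j ∈ A → i ≠ j → i ≠ s → j ≠ s → ∀ u ∈ S.U A s,
      S.t i j * u * (S.t i j)⁻¹ ∈ S.U A s ∧ (S.t i j)⁻¹ * u * S.t i j ∈ S.U A s := by
    intro i j hi hj hij his hjs u hu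
    have hu0 := hu
    unfold U at hu
    induction hu using Subgroup.closure_induction with
    | mem u hu =>
      obtain ⟨k, hk, hks, rfl⟩ := hu
      by_cases hki : k = i
      · subst hki
        have h1 := S.brk (Ne.symm his) hij (Ne.symm hjs)
        have c1 : Commute (S.t s j) (S.t k j) := S.comm (Ne.symm hjs) hij hij.symm (Ne.symm hjs)
        have c2 : Commute (S.t s j) (S.t s k) := S.comm (Ne.symm hjs) (Ne.symm his) hjs (Ne.symm his)
        have m1 := S.t_mem_U (s := s) hj hjs
        have m2 := S.t_mem_U (s := s) hi his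
        constructor
        · have e : S.t k j * S.t s k * (S.t k j)⁻¹ = (S.t s j)⁻¹ * S.t s k := by
            have : S.t k j * S.t s k = (S.t s j)⁻¹ * (S.t s k * S.t k j) := by rw [h1]; group
            rw [this]; group
          rw [e]; exact (S.U A s).mul_mem ((S.U A s).inv_mem m1) m2
        · have e : (S.t k j)⁻¹ * S.t s k * S.t k j = S.t s j * S.t s k := by
            calc (S.t k j)⁻¹ * S.t s k * S.t k j = (S.t k j)⁻¹ * (S.t s k * S.t k j) := by group
              _ = (S.t k j)⁻¹ * (S.t s j * (S.t k j * S.t s k)) := by rw [h1]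
              _ = ((S.t k j)⁻¹ * S.t s j) * (S.t k j * S.t s k) := by group
              _ = (S.t s j * (S.t k j)⁻¹) * (S.t k j * S.t s k) := by rw [c1.inv_right.eq]
              _ = _ := by group
          rw [e]; exact (S.U A s).mul_mem m1 m2
      · have c1 : Commute (S.t i j) (S.t s k) := S.comm hij (Ne.symm hks) hjs (Ne.symm hki)
        rw [c1.eq, mul_inv_cancel_right, c1.inv_left.eq, inv_mul_cancel_right]
        exact ⟨S.t_mem_U hk hks, S.t_mem_U hk hks⟩
    | one => simp
    | mul a b ha hb iha ihb =>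
      obtain ⟨a1, a2⟩ := iha ha
      obtain ⟨b1, b2⟩ := ihb hb
      constructor
      · have : S.t i j * (a * b) * (S.t i j)⁻¹ =
            (S.t i j * a * (S.t i j)⁻¹) * (S.t i j * b * (S.t i j)⁻¹) := by group
        rw [this]; exact (S.U A s).mul_mem a1 b1
      · have : (S.t i j)⁻¹ * (a * b) * S.t i j =
            ((S.t i j)⁻¹ * a * S.t i j) * ((S.t i j)⁻¹ * b * S.t i j) := by group
        rw [this]; exact (S.U A s).mul_mem a2 b2
    | inv a ha iha =>
      obtain ⟨a1, a2⟩ := iha ha
      constructor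
      · have : S.t i j * a⁻¹ * (S.t i j)⁻¹ = (S.t i j * a * (S.t i j)⁻¹)⁻¹ := by group
        rw [this]; exact (S.U A s).inv_mem a1
      · have : (S.t i j)⁻¹ * a⁻¹ * S.t i j = ((S.t i j)⁻¹ * a * S.t i j)⁻¹ := by group
        rw [this]; exact (S.U A s).inv_mem a2
  have nS : ∀ (σ : Equiv.Perm (Fin n)) (ε : Fin n → ℤˣ), (∀ k, k ∉ A.erase s → σ k = k) →
      ∀ u ∈ S.U A s, S.sp σ ε * u * (S.sp σ ε)⁻¹ ∈ S.U A s := by
    intro σ ε h1 u hu
    have hσs : σ s = s := h1 s (Finset.notMem_erase s A)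
    unfold U at hu
    induction hu using Subgroup.closure_induction with
    | mem u hu =>
      obtain ⟨k, hk, hks, rfl⟩ := hu
      rw [S.sp_t σ ε (Ne.symm hks), hσs]
      have hk' : σ k ∈ A.erase s := sp_maps h1 (Finset.mem_erase.mpr ⟨hks, hk⟩)
      exact (S.U A s).zpow_mem (S.t_mem_U (Finset.mem_of_mem_erase hk') (Finset.ne_of_mem_erase hk')) _
    | one => simp
    | mul a b _ _ iha ihb =>
      have : S.sp σ ε * (a * b) * (S.sp σ ε)⁻¹ =
          (S.sp σ ε * a * (S.sp σ ε)⁻¹) * (S.sp σ ε * b * (S.sp σ ε)⁻¹) := by group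
      rw [this]; exact (S.U A s).mul_mem iha ihb
    | inv a _ iha =>
      have : S.sp σ ε * a⁻¹ * (S.sp σ ε)⁻¹ = (S.sp σ ε * a * (S.sp σ ε)⁻¹)⁻¹ := by group
      rw [this]; exact (S.U A s).inv_mem iha
  unfold P at hg
  induction hg using Subgroup.closure_induction_left with
  | one => exact ⟨1, (S.U A s).one_mem, 1, (S.H _).one_mem, by rw [mul_one]⟩
  | mul_left x hx y _ ih =>
    obtain ⟨u, hu, h, hh, rfl⟩ := ih
    rcases hx with ⟨i, j, hi, hj, hij, hjs, rfl⟩ | ⟨σ, ε, h1, h2, rfl⟩
    · by_cases his : i = s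
      · subst his
        exact ⟨S.t i j * u, (S.U A i).mul_mem (S.t_mem_U hj hjs) hu, h, hh, by rw [mul_assoc]⟩
      · refine ⟨S.t i j * u * (S.t i j)⁻¹, (nT i j hi hj hij his hjs u hu).1, S.t i j * h,
          (S.H _).mul_mem (S.t_mem_H (Finset.mem_erase.mpr ⟨his, hi⟩)
            (Finset.mem_erase.mpr ⟨hjs, hj⟩) hij) hh, by group⟩
    · exact ⟨S.sp σ ε * u * (S.sp σ ε)⁻¹, nS σ ε h1 u hu, S.sp σ ε * h,
        (S.H _).mul_mem (S.sp_mem_H h1 h2) hh, by group⟩
  | inv_mul_cancel x hx y _ ih =>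
    obtain ⟨u, hu, h, hh, rfl⟩ := ih
    rcases hx with ⟨i, j, hi, hj, hij, hjs, rfl⟩ | ⟨σ, ε, h1, h2, rfl⟩
    · by_cases his : i = s
      · subst his
        exact ⟨(S.t i j)⁻¹ * u, (S.U A i).mul_mem ((S.U A i).inv_mem (S.t_mem_U hj hjs)) hu, h, hh,
          by rw [mul_assoc]⟩
      · refine ⟨(S.t i j)⁻¹ * u * S.t i j, (nT i j hi hj hij his hjs u hu).2, (S.t i j)⁻¹ * h,
          (S.H _).mul_mem ((S.H _).inv_mem (S.t_mem_H (Finset.mem_erase.mpr ⟨his, hi⟩)
            (Finset.mem_erase.mpr ⟨hjs, hj⟩) hij)) hh, by group⟩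
    · have h1' := supp_inv h1
      have h2' : ∀ k, k ∉ A.erase s → (fun k => ε (σ⁻¹ k)) k = 1 := fun k hk => by
        show ε (σ⁻¹ k) = 1
        rw [h1' k hk]; exact h2 k hk
      rw [S.sp_inv]
      exact ⟨S.sp _ _ * u * (S.sp _ _)⁻¹, nS _ (fun k => ε (σ⁻¹ k)) h1' u hu, S.sp _ _ * h,
        (S.H _).mul_mem (S.sp_mem_H h1' h2') hh, by group⟩

/-- **faithfulness**: the representation is injective on the group generated by the transvections
and the signed permutations in `A` -/
theorem faithful : ∀ (m : ℕ) (A : Finset (Fin n)), A.card = m → ∀ g ∈ S.H A, S.rho g = 1 → g = 1 := by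
  intro m
  induction m with
  | zero =>
    intro A hA g hg _
    have hA' : A = ∅ := Finset.card_eq_zero.mp hA
    subst hA'
    have : S.H (∅ : Finset (Fin n)) = ⊥ := by
      unfold H
      rw [Subgroup.closure_eq_bot_iff]
      rintro g (⟨i, j, hi, _⟩ | ⟨σ, ε, h1, h2, rfl⟩)
      · exact absurd hi (Finset.notMem_empty i)
      · have e1 : σ = 1 := Equiv.ext fun k => h1 k (Finset.notMem_empty k)
        have e2 : ε = 1 := funext fun k => h2 k (Finset.notMem_empty k)
        rw [e1, e2, S.sp_one]; rfl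
    rw [this] at hg
    exact Subgroup.mem_bot.mp hg
  | succ m ih =>
    intro A hA g hg hg1
    obtain ⟨s, hs⟩ : A.Nonempty := Finset.card_pos.mp (by omega)
    have hP := S.stab hs hg (by rw [hg1, Module.End.one_apply])
    obtain ⟨u, hu, h, hh, rfl⟩ := S.P_dec hs hP
    have hs' : s ∉ A.erase s := Finset.notMem_erase s A
    have e1 : ∀ v, S.rho u v = S.rho h⁻¹ v := by
      intro v
      have e2 : S.rho (u * h) (S.rho h⁻¹ v) = S.rho u v := by
        rw [← Module.End.mul_apply, ← map_mul, mul_inv_cancel_right]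
      rw [← e2, hg1, Module.End.one_apply]
    have hu1 : S.rho u = 1 := by
      refine LinearMap.ext fun v => ?_
      rw [Module.End.one_apply]
      funext k
      by_cases hk : k = s
      · subst hk
        rw [e1, S.H_fix ((S.H _).inv_mem hh) hs']
      · exact (S.U_fix hu v).1 k hk
    have hu2 := S.U_inj s A u hu hu1
    subst hu2
    rw [one_mul] at hg1 ⊢
    exact ih (A.erase s) (by rw [Finset.card_erase_of_mem hs, hA]; rfl) h hh hg1

end St

end Pool.Agent.CSP3.Mag
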