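import Pool.Agent.CSP3.IA
import Pool.Agent.CSP3.MagE

/-!
# Magnus' theorem: `IA_n` is generated by Magnus' generators

`J1 n` is the subgroup generated by the `C i (x j)` and the `R i ⁅x j, x k⁆`.  Every automorphism of
the free group which acts trivially on the homology `ℤ^n` lies in `J1 n`.
-/

set_option autoImplicit false
set_option linter.unusedSectionVars false

namespace Pool.Agent.CSP3

open scoped commutatorElement

variable {n : ℕ}

/-- exponent sums -/
def abz (n : ℕ) : F n →* Multiplicative (Fin n → ℤ) :=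
  FreeGroup.lift (fun i => Multiplicative.ofAdd (Pi.single i 1))

theorem abz_x (k : Fin n) : Multiplicative.toAdd (abz n (x k)) = Pi.single k 1 := by
  simp [abz]

namespace Mag

noncomputable def rz0 (φ : A n) : Module.End ℤ (Fin n → ℤ) :=
  (Pi.basisFun ℤ (Fin n)).constr ℤ (fun k => Multiplicative.toAdd (abz n (φ (x k))))

theorem rz0_single (φ : A n) (k : Fin n) :
    rz0 φ (Pi.single k 1) = Multiplicative.toAdd (abz n (φ (x k))) := by
  have := (Pi.basisFun ℤ (Fin n)).constr_basis ℤ
    (fun k => Multiplicative.toAdd (abz n (φ (x k)))) k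
  rwa [Pi.basisFun_apply] at this

theorem rz0_ab (φ : A n) (w : F n) :
    rz0 φ (Multiplicative.toAdd (abz n w)) = Multiplicative.toAdd (abz n (φ w)) := by
  induction w using FreeGroup.induction_on with
  | C1 => simp
  | of j => rw [abz_x, rz0_single]
  | inv_of j hj =>
    rw [map_inv (abz n), toAdd_inv, map_neg, hj, map_inv, map_inv, toAdd_inv]
  | mul a b ha hb =>
    rw [map_mul (abz n), toAdd_mul, map_add, ha, hb, map_mul φ, map_mul (abz n), toAdd_mul]

theorem end_ext {f g : Module.End ℤ (Fin n → ℤ)} (h : ∀ k, f (Pi.single k 1) = g (Pi.single k 1)) :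
    f = g :=
  (Pi.basisFun ℤ (Fin n)).ext fun k => by rw [Pi.basisFun_apply]; exact h k

/-- the action on the homology -/
noncomputable def rz (n : ℕ) : A n →* Module.End ℤ (Fin n → ℤ) where
  toFun := rz0
  map_one' := end_ext fun k => by
    rw [rz0_single, MulAut.one_apply, abz_x, Module.End.one_apply]
  map_mul' φ ψ := end_ext fun k => by
    rw [rz0_single, MulAut.mul_apply, Module.End.mul_apply, rz0_single, rz0_ab]

theorem rz_single (φ : A n) (k : Fin n) :
    rz n φ (Pi.single k 1) = Multiplicative.toAdd (abz n (φ (x k))) := rz0_single φ k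

theorem rz_R {i j : Fin n} (h : i ≠ j) (v : Fin n → ℤ) :
    rz n (R j (x i)) v = v + Pi.single i (v j) := by
  have : rz n (R j (x i)) = 1 + (LinearMap.single ℤ (fun _ : Fin n => ℤ) i).comp
      (LinearMap.proj j) := by
    refine end_ext fun k => ?_
    rw [rz_single]
    by_cases hk : k = j
    · subst hk
      rw [R_apply_self, kill_ne h, map_mul, toAdd_mul, abz_x, abz_x]
      simp
    · rw [R_apply_ne hk, abz_x]
      simp [hk]
  rw [this]
  simp

theorem rz_C (i : Fin n) (w : F n) : rz n (C i w) = 1 := by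
  refine end_ext fun k => ?_
  rw [rz_single, Module.End.one_apply]
  by_cases hk : k = i
  · subst hk
    have : abz n ((kill k w)⁻¹ * x k * kill k w) = abz n (x k) := by
      rw [map_mul, map_mul, map_inv, mul_comm _ (abz n (x k)), mul_assoc,
        inv_mul_cancel, mul_one]
    rw [C_apply_self, this, abz_x]
  · rw [C_apply_ne hk, abz_x]

theorem J1_le_ker : J1 n ≤ (rz n).ker := by
  conv_lhs => rw [J1]
  rw [Subgroup.closure_le]
  rintro _ (⟨i, j, hij, rfl⟩ | ⟨i, j, k, hij, hik, hjk, rfl⟩)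
  · exact rz_C i (x j)
  · refine end_ext fun k' => ?_
    rw [rz_single, Module.End.one_apply]
    by_cases hk : k' = i
    · subst hk
      have : abz n (x k' * kill k' ⁅x j, x k⁆) = abz n (x k') := by
        rw [map_mul, map_commutatorElement, map_commutatorElement,
          commutatorElement_eq_one_iff_mul_comm.mpr (mul_comm _ _), mul_one]
      rw [R_apply_self, this, abz_x]
    · rw [R_apply_ne hk, abz_x]

/-! ### signed permutations -/

def spH (σ : Equiv.Perm (Fin n)) (ε : Fin n → ℤˣ) : F n →* F n :=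
  FreeGroup.lift (fun k => x (σ k) ^ ((ε k : ℤˣ) : ℤ))

theorem spH_x (σ : Equiv.Perm (Fin n)) (ε : Fin n → ℤˣ) (k : Fin n) :
    spH σ ε (x k) = x (σ k) ^ ((ε k : ℤˣ) : ℤ) := by simp [spH]

theorem spH_comp (σ τ : Equiv.Perm (Fin n)) (ε δ : Fin n → ℤˣ) (w : F n) :
    spH σ ε (spH τ δ w) = spH (σ * τ) (fun k => ε (τ k) * δ k) w := by
  have : (spH σ ε).comp (spH τ δ) = spH (σ * τ) (fun k => ε (τ k) * δ k) := by
    refine FreeGroup.ext_hom _ _ fun k => ?_
    show spH σ ε (spH τ δ (x k)) = spH (σ * τ) (fun k => ε (τ k) * δ k) (x k)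
    rw [spH_x, spH_x, map_zpow, spH_x, ← zpow_mul, Units.val_mul, Equiv.Perm.mul_apply]
  exact DFunLike.congr_fun this w

theorem spH_one (w : F n) : spH 1 1 w = w := by
  have : spH 1 1 = MonoidHom.id (F n) := by
    refine FreeGroup.ext_hom _ _ fun k => ?_
    show spH 1 1 (x k) = x k
    rw [spH_x]; simp
  exact DFunLike.congr_fun this w

theorem usq (u : ℤˣ) : u * u = 1 := Int.units_mul_self u

/-- the signed permutations as automorphisms -/
def spA (σ : Equiv.Perm (Fin n)) (ε : Fin n → ℤˣ) : A n where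
  toFun := spH σ ε
  invFun := spH σ⁻¹ (fun k => ε (σ⁻¹ k))
  left_inv w := by
    rw [spH_comp, inv_mul_cancel]
    have : (fun k => ε (σ⁻¹ (σ k)) * ε k) = (1 : Fin n → ℤˣ) := by
      funext k
      rw [Equiv.Perm.inv_eq_iff_eq.mpr rfl, usq, Pi.one_apply]
    rw [this, spH_one]
  right_inv w := by
    rw [spH_comp, mul_inv_cancel]
    have : (fun k => ε (σ⁻¹ k) * ε (σ⁻¹ k)) = (1 : Fin n → ℤˣ) := by
      funext k
      rw [usq, Pi.one_apply]
    rw [this, spH_one]
  map_mul' := map_mul _

theorem spA_x (σ : Equiv.Perm (Fin n)) (ε : Fin n → ℤˣ) (k : Fin n) :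
    spA σ ε (x k) = x (σ k) ^ ((ε k : ℤˣ) : ℤ) := spH_x σ ε k

theorem spA_conj_pos (σ : Equiv.Perm (Fin n)) (ε : Fin n → ℤˣ) {i j : Fin n} (h : i ≠ j)
    (hj : ε j = 1) : spA σ ε * R j (x i) = R (σ j) (x (σ i)) ^ ((ε i : ℤˣ) : ℤ) * spA σ ε := by
  rw [← map_zpow]
  refine A_ext fun k => ?_
  rw [MulAut.mul_apply, MulAut.mul_apply]
  have hσ : σ i ≠ σ j := fun e => h (σ.injective e)
  have hO : x (σ i) ^ ((ε i : ℤˣ) : ℤ) ∈ O (σ j) := (O (σ j)).zpow_mem (x_mem_O hσ) _
  by_cases hk : k = j
  · subst hk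
    rw [R_apply_self, kill_ne h, map_mul, spA_x, spA_x, hj, Units.val_one, zpow_one, R_apply_self,
      kill_of_mem hO]
  · rw [R_apply_ne hk, spA_x, map_zpow, R_apply_ne (fun e => hk (σ.injective e))]

theorem spA_conj_neg (σ : Equiv.Perm (Fin n)) (ε : Fin n → ℤˣ) {i j : Fin n} (h : i ≠ j)
    (hj : ε j = -1) : spA σ ε * R j (x i) = L (σ j) (x (σ i)) ^ ((ε i : ℤˣ) : ℤ) * spA σ ε := by
  rw [← map_zpow]
  refine A_ext fun k => ?_
  rw [MulAut.mul_apply, MulAut.mul_apply]
  have hσ : σ i ≠ σ j := fun e => h (σ.injective e)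
  have hO : x (σ i) ^ ((ε i : ℤˣ) : ℤ) ∈ O (σ j) := (O (σ j)).zpow_mem (x_mem_O hσ) _
  by_cases hk : k = j
  · subst hk
    rw [R_apply_self, kill_ne h, map_mul, spA_x, spA_x, hj, Units.val_neg, Units.val_one,
      zpow_neg_one, map_inv, L_def, tv_self, kill_of_mem hO, map_one, mul_one, mul_inv_rev, inv_inv]
  · rw [R_apply_ne hk, spA_x, map_zpow, L_def, tv_ne (fun e => hk (σ.injective e))]

theorem weyl_A {i j : Fin n} (h : i ≠ j) : R j (x i) * (R i (x j))⁻¹ * R j (x i) =
    spA (Equiv.swap i j) (fun k => if k = i then -1 else 1) * C j (x i) := by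
  refine A_ext fun k => ?_
  rw [← map_inv]
  simp only [MulAut.mul_apply]
  have hO : (x j)⁻¹ ∈ O i := (O i).inv_mem (x_mem_O h.symm)
  by_cases hk : k = j
  · subst hk
    rw [R_apply_self, kill_ne h, map_mul, R_apply_ne h.symm, R_apply_self, kill_of_mem hO, map_mul,
      map_mul, map_inv, R_apply_self, kill_ne h, R_apply_ne h, C_apply_self, kill_ne h, map_mul,
      map_mul, map_inv, spA_x, spA_x, Equiv.swap_apply_left, Equiv.swap_apply_right, if_pos rfl,
      if_neg h.symm]
    simp only [Units.val_neg, Units.val_one, zpow_neg_one, zpow_one]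
    group
  · by_cases hk2 : k = i
    · subst hk2
      rw [R_apply_ne h, R_apply_self, kill_of_mem hO, map_mul, map_inv, R_apply_ne h, R_apply_self,
        kill_ne h, C_apply_ne h, spA_x, Equiv.swap_apply_left, if_pos rfl]
      simp only [Units.val_neg, Units.val_one, zpow_neg_one]
      group
    · rw [R_apply_ne hk, R_apply_ne hk2, R_apply_ne hk, C_apply_ne hk, spA_x,
        Equiv.swap_apply_of_ne_of_ne hk2 hk, if_neg hk2]
      simp

theorem rz_sp (σ : Equiv.Perm (Fin n)) (ε : Fin n → ℤˣ) (v : Fin n → ℤ) (k : Fin n) :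
    rz n (spA σ ε) v (σ k) = (ε k : ℤ) * v k := by
  have : (LinearMap.proj (σ k)).comp (rz n (spA σ ε)) =
      ((ε k : ℤˣ) : ℤ) • (LinearMap.proj k : (Fin n → ℤ) →ₗ[ℤ] ℤ) := by
    refine (Pi.basisFun ℤ (Fin n)).ext fun m => ?_
    rw [Pi.basisFun_apply, LinearMap.comp_apply, rz_single, spA_x, map_zpow, toAdd_zpow, abz_x]
    simp only [LinearMap.proj_apply, LinearMap.smul_apply, Pi.smul_apply, smul_eq_mul]
    by_cases hm : m = k
    · subst hm; simp
    · rw [Pi.single_eq_of_ne (fun e => hm (σ.injective e).symm),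
        Pi.single_eq_of_ne (Ne.symm hm)]
      simp
  exact LinearMap.congr_fun this v

/-! ### the structure on `A n ⧸ J1 n` -/

abbrev cl (φ : A n) : A n ⧸ J1 n := QuotientGroup.mk φ

theorem cl_C (i : Fin n) (w : F n) : cl (C i w) = 1 := (QuotientGroup.eq_one_iff _).mpr (C_mem_J1 i w)

theorem cl_L (i : Fin n) (w : F n) : cl (L i w) = (cl (R i w))⁻¹ := by
  have : cl (L i w) = cl (C i w) * (cl (R i w))⁻¹ := by rw [L_eq]; rfl
  rw [this, cl_C, one_mul]

theorem cl_comm {i j k l : Fin n} (hjk : j ≠ k) (hil : i ≠ l) :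
    Commute (cl (R j (x i))) (cl (R l (x k))) := by
  by_cases hjl : j = l
  · subst hjl
    rw [← commutatorElement_eq_one_iff_commute]
    show (QuotientGroup.mk ⁅R j (x i), R j (x k)⁆ : A n ⧸ J1 n) = 1
    rw [QuotientGroup.eq_one_iff, ← map_commutatorElement]
    exact R_mem_J1 _ (comm_mem_lcs1 _ _)
  · have h := R_conj_R (i := l) (j := j) (Ne.symm hjl) (x_mem_O hil) (x k)
    rw [R_apply_ne hjk.symm, mul_inv_eq_iff_eq_mul] at h
    exact congrArg (QuotientGroup.mk (s := J1 n)) h

theorem cl_brk {i j k : Fin n} (hij : i ≠ j) (hjk : j ≠ k) (hik : i ≠ k) :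
    cl (R j (x i)) * cl (R k (x j)) = cl (R k (x i)) * (cl (R k (x j)) * cl (R j (x i))) := by
  have h := R_conj_R (i := k) (j := j) hjk.symm (x_mem_O hik) (x j)
  rw [R_apply_self, kill_ne hij, map_mul, mul_inv_eq_iff_eq_mul] at h
  have h2 : cl (R j (x i)) * cl (R k (x j)) = cl (R k (x j)) * cl (R k (x i)) * cl (R j (x i)) :=
    congrArg (QuotientGroup.mk (s := J1 n)) h
  rw [h2, (cl_comm (i := j) (j := k) (k := i) (l := k) hik.symm hjk).eq, mul_assoc]

noncomputable def stM (n : ℕ) : St n (A n ⧸ J1 n) where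
  t i j := cl (R j (x i))
  sp σ ε := cl (spA σ ε)
  rho := QuotientGroup.lift (J1 n) (rz n) J1_le_ker
  comm := fun _ _ h3 h4 => cl_comm h3 h4
  brk := fun h1 h2 h3 => cl_brk h1 h2 h3
  sp_one := by
    have : spA (n := n) 1 1 = 1 := by ext w; exact spH_one w
    rw [this]; rfl
  sp_mul := fun σ τ ε δ => by
    have : spA σ ε * spA τ δ = spA (σ * τ) (fun k => ε (τ k) * δ k) := by
      ext w; exact spH_comp σ τ ε δ w
    rw [← this]; rfl
  sp_t := by
    intro σ ε i j h
    rw [mul_inv_eq_iff_eq_mul]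
    rcases Int.units_eq_one_or (ε j) with hj | hj
    · rw [hj, mul_one]
      exact congrArg (QuotientGroup.mk (s := J1 n)) (spA_conj_pos σ ε h hj)
    · have h1 : cl (spA σ ε) * cl (R j (x i)) =
          cl (L (σ j) (x (σ i))) ^ ((ε i : ℤˣ) : ℤ) * cl (spA σ ε) :=
        congrArg (QuotientGroup.mk (s := J1 n)) (spA_conj_neg σ ε h hj)
      rw [h1, cl_L, hj, inv_zpow, ← zpow_neg]
      simp
  weyl := by
    intro i j h
    have h1 : cl (R j (x i)) * (cl (R i (x j)))⁻¹ * cl (R j (x i)) =
        cl (spA (Equiv.swap i j) (fun k => if k = i then -1 else 1)) * cl (C j (x i)) :=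
      congrArg (QuotientGroup.mk (s := J1 n)) (weyl_A h)
    rw [h1, cl_C, mul_one]
  rho_t := fun h v => rz_R h v
  rho_sp := fun σ ε v k => rz_sp σ ε v k

theorem gen (φ : A n) : cl φ ∈ (stM n).H Finset.univ := by
  let H : Subgroup (A n) := ((stM n).H Finset.univ).comap (QuotientGroup.mk' (J1 n))
  have hR : ∀ i j : Fin n, i ≠ j → R i (x j) ∈ H := fun i j hij =>
    (stM n).t_mem_H (Finset.mem_univ j) (Finset.mem_univ i) hij.symm
  have hsp : ∀ (σ : Equiv.Perm (Fin n)) (ε : Fin n → ℤˣ), spA σ ε ∈ H := fun σ ε =>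
    (stM n).sp_mem_H (fun k hk => absurd (Finset.mem_univ k) hk)
      (fun k hk => absurd (Finset.mem_univ k) hk)
  have hH : H = ⊤ := by
    refine nielsen_top H ?_ ?_ ?_ ?_
    · intro i j hij ν h1 h2
      have : ν = R i (x j) := by
        refine A_ext fun k => ?_
        by_cases hk : k = i
        · subst hk; rw [R_apply_self, kill_ne hij.symm]; exact h1
        · rw [R_apply_ne hk]; exact h2 k hk
      subst this
      exact hR i j hij
    · intro i j hij ν h1 h2
      have : ν = (L i (x j))⁻¹ := by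
        rw [← map_inv]
        refine A_ext fun k => ?_
        by_cases hk : k = i
        · subst hk
          rw [L_def, tv_self, map_inv, kill_ne hij.symm, map_one, mul_one, inv_inv]; exact h1
        · rw [L_def, tv_ne hk]; exact h2 k hk
      subst this
      have h3 : C i (x j) ∈ H := by
        show cl (C i (x j)) ∈ (stM n).H Finset.univ
        rw [cl_C]; exact Subgroup.one_mem _
      rw [L_eq]
      exact H.inv_mem (H.mul_mem h3 (H.inv_mem (hR i j hij)))
    · intro i ν h1 h2
      have : ν = spA 1 (fun k => if k = i then -1 else 1) := by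
        refine A_ext fun k => ?_
        rw [spA_x]
        by_cases hk : k = i
        · subst hk; rw [if_pos rfl]; simp [h1]
        · rw [if_neg hk]; simp [h2 k hk]
      subst this
      exact hsp _ _
    · intro i j hij ν h1 h2 h3
      have : ν = spA (Equiv.swap i j) 1 := by
        refine A_ext fun k => ?_
        rw [spA_x, Pi.one_apply, Units.val_one, zpow_one]
        by_cases hk : k = i
        · subst hk; rw [Equiv.swap_apply_left]; exact h1
        · by_cases hk2 : k = j
          · subst hk2; rw [Equiv.swap_apply_right]; exact h2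
          · rw [Equiv.swap_apply_of_ne_of_ne hk hk2]; exact h3 k hk hk2
      subst this
      exact hsp _ _
  have : φ ∈ H := by rw [hH]; exact Subgroup.mem_top φ
  exact this

end Mag

open Mag in
/-- **Magnus' theorem** -/
theorem magnus {φ : A n} (h : ∀ k, abz n (φ (x k)) = abz n (x k)) : φ ∈ J1 n := by
  have h1 : (stM n).rho (cl φ) = 1 := by
    show rz n φ = 1
    refine end_ext fun k => ?_
    rw [rz_single, h k, abz_x, Module.End.one_apply]
  exact (QuotientGroup.eq_one_iff φ).mp
    ((stM n).faithful n Finset.univ (by simp) (cl φ) (gen φ) h1)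

end Pool.Agent.CSP3
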