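import Pool.Agent.CSP3.N4Rel

/-!
# The element `kap` (rank 4, exponent 3)
-/

set_option autoImplicit false

namespace Pool.Agent.CSP3

open scoped commutatorElement

variable {n : ℕ}

/-- `kap i j w = A⁻¹ * c * A * c⁻¹` with `A = C i ⁅w, x j⁆`, `c = C j (x i)` -/
def kap (i j : Fin n) (w : F n) : A n := N4.kp (C i ⁅w, x j⁆) (C j (x i))

theorem map_kp {G H : Type*} [Group G] [Group H] (f : G →* H) (a c : G) :
    f (N4.kp a c) = N4.kp (f a) (f c) := by
  unfold N4.kp
  rw [map_mul, map_mul, map_mul, map_inv, map_inv]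

/-- the basic element -/
def kap0 : A 4 := kap 0 1 ⁅(x 2 : F 4), x 3⁆

end Pool.Agent.CSP3
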