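import Pool.Agent.CSP3.Det
import Pool.Agent.CSP3.N4Def

/-!
# Commutators in the filtration `AA` (rank four)
-/

set_option autoImplicit false

namespace Pool.Agent.CSP3

open scoped commutatorElement

namespace N4AA

/-- `α ∈ AA_(k+1)` changes `b ∈ DD_(l+1)` only in degrees `> k + l` -/
theorem map_mul_inv_mem {n k l : ℕ} {α : A n} (ha : α ∈ AA 3 n (k + 1)) {b : F n}
    (hb : b ∈ DD 3 n (l + 1)) : α b * b⁻¹ ∈ DD 3 n (k + l + 1) := by
  refine mul_inv_mem_DD fun w hw => ?_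
  exact mu_map_near α.toMonoidHom (e := k) (fun i => ha (x i)) hb w (by omega)

theorem kp_eq {G : Type*} [Group G] (a c : G) : N4.kp a c = ⁅a⁻¹, c⁆ := by
  unfold N4.kp
  rw [commutatorElement_def, inv_inv]

end N4AA

open N4AA in
theorem comm_mem_AA {n k l : ℕ} {α β : A n} (ha : α ∈ AA 3 n (k + 1)) (hb : β ∈ AA 3 n (l + 1)) :
    ⁅α, β⁆ ∈ AA 3 n (k + l + 1) := by
  intro u
  set w : F n := (β * α)⁻¹ u with hw
  have hu : β (α w) = u := by
    rw [← MulAut.mul_apply, hw, ← MulAut.mul_apply, mul_inv_cancel, MulAut.one_apply]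
  have h1 : ⁅α, β⁆ u = α (β w) := by
    rw [commutatorElement_def]
    have : α * β * α⁻¹ * β⁻¹ = α * β * (β * α)⁻¹ := by group
    rw [this, MulAut.mul_apply, ← hw, MulAut.mul_apply]
  have ha' := ha w
  have hb' := hb w
  set a : F n := α w * w⁻¹ with hadef
  set b : F n := β w * w⁻¹ with hbdef
  have eα : α w = a * w := by rw [hadef]; group
  have eβ : β w = b * w := by rw [hbdef]; group
  clear_value a b w
  have h2 : ⁅α, β⁆ u * u⁻¹ = (α b * b⁻¹) * ⁅b, a⁆ * (β a * a⁻¹)⁻¹ := by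
    rw [h1, ← hu, eβ, map_mul, eα, map_mul, eβ, commutatorElement_def]
    group
  rw [h2]
  refine (DD 3 n _).mul_mem ((DD 3 n _).mul_mem (map_mul_inv_mem ha hb') ?_)
    ((DD 3 n _).inv_mem ?_)
  · exact DD_anti (by omega) (comm_mem_DD hb' ha')
  · exact DD_anti (by omega) (map_mul_inv_mem hb ha')

open N4AA in
theorem kap_mem_AA {n : ℕ} (i j k l : Fin n) : kap i j ⁅x k, x l⁆ ∈ AA 3 n 5 := by
  have h1 : C i ⁅⁅x k, x l⁆, x j⁆ ∈ AA 3 n (3 + 1) := by
    refine C_mem_AA i ?_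
    rw [map_commutatorElement, map_commutatorElement]
    exact comm_mem_DD (k := 2) (l := 1) (comm_mem_DD (k := 1) (l := 1) (mem_DD_one 3 _)
      (mem_DD_one 3 _)) (mem_DD_one 3 _)
  have h2 : C j (x i) ∈ AA 3 n (1 + 1) := C_mem_AA j (mem_DD_one 3 _)
  have h3 := comm_mem_AA ((AA 3 n (3 + 1)).inv_mem h1) h2
  have h4 : kap i j ⁅x k, x l⁆ = ⁅(C i ⁅⁅x k, x l⁆, x j⁆)⁻¹, C j (x i)⁆ := kp_eq _ _
  rw [h4]
  exact h3

end Pool.Agent.CSP3
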