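import Pool.Agent.CSP3.N4K

/-!
# `kap` commutes with the transvections in rank four
-/

set_option autoImplicit false

namespace Pool.Agent.CSP3

open scoped commutatorElement

variable {n : ℕ}

open Lev3Aux

namespace N4

/-- four distinct indices -/
structure Dst (i j k l : Fin n) : Prop where
  ij : i ≠ j
  ik : i ≠ k
  il : i ≠ l
  jk : j ≠ k
  jl : j ≠ l
  kl : k ≠ l

namespace Dst

variable {i j k l : Fin n} (d : Dst i j k l)
include d

theorem s12 : Dst j i k l := ⟨d.ij.symm, d.jk, d.jl, d.ik, d.il, d.kl⟩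
theorem s34 : Dst i j l k := ⟨d.ij, d.il, d.ik, d.jl, d.jk, d.kl.symm⟩
theorem s23 : Dst i k j l := ⟨d.ik, d.ij, d.il, d.jk.symm, d.kl, d.jl⟩

/-- membership of the word -/
theorem wi : ⁅x k, x l⁆ ∈ O i := comm_mem_O (x_mem_O d.ik.symm) (x_mem_O d.il.symm)
theorem wj : ⁅x k, x l⁆ ∈ O j := comm_mem_O (x_mem_O d.jk.symm) (x_mem_O d.jl.symm)

end Dst

theorem kp_conj {G : Type*} [Group G] (g A c : G) :
    g * kp A c * g⁻¹ = kp (g * A * g⁻¹) (g * c * g⁻¹) := by
  unfold kp; group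

variable {Q : Type*} [Group Q] (q : A n →* Q)

theorem q_kap (i j : Fin n) (w : F n) :
    q (kap i j w) = kp (q (C i ⁅w, x j⁆)) (q (C j (x i))) := map_kp q _ _

section
variable (hT : ∀ i j : Fin n, i ≠ j → q (R i (x j)) ^ 3 = 1)
include hT

theorem relsK {i j k l : Fin n} (d : Dst i j k l) :
    Rels (q (C i ⁅x k, x l⁆)) (q (R j ⁅x k, x l⁆)) (q (R j (x i))) (q (C j (x i)))
      (q (C i (x j))) (q (C i ⁅⁅x k, x l⁆, x j⁆)) (q (C j ⁅⁅x k, x l⁆, x i⁆))
      (q (R j ⁅⁅x k, x l⁆, x i⁆)) :=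
  rels q hT d.ij (comm_mem _ _) d.wi d.wj

theorem K_cube {i j k l : Fin n} (d : Dst i j k l) : q (kap i j ⁅x k, x l⁆) ^ 3 = 1 := by
  rw [q_kap]; exact (relsK q hT d).s12

theorem K_12 {i j k l : Fin n} (d : Dst i j k l) :
    q (kap j i ⁅x k, x l⁆) = (q (kap i j ⁅x k, x l⁆))⁻¹ := by
  rw [q_kap, q_kap]; exact (relsK q hT d).mirror

theorem K_34 {i j k l : Fin n} (d : Dst i j k l) :
    q (kap i j ⁅x l, x k⁆) = (q (kap i j ⁅x k, x l⁆))⁻¹ := by
  have kC : ∀ a : Fin n, ∀ z, (q.comp (C a)) z ^ 3 = 1 := fun a z => qC_cube q hT a z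
  have h1 : q (C i ⁅⁅x l, x k⁆, x j⁆) = (q (C i ⁅⁅x k, x l⁆, x j⁆))⁻¹ :=
    he_swap' (q.comp (C i)) (kC i) (x k) (x l) (x j)
  rw [q_kap, q_kap, h1]; exact (relsK q hT d).s16

theorem K_ji {i j k l : Fin n} (d : Dst i j k l) :
    Commute (q (R j (x i))) (q (kap i j ⁅x k, x l⁆)) := by
  rw [q_kap]; exact (relsK q hT d).s14

theorem K_c {i j k l : Fin n} (d : Dst i j k l) :
    Commute (q (C j (x i))) (q (kap i j ⁅x k, x l⁆)) := by
  rw [q_kap]; exact (relsK q hT d).s10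

/-- transfer of a commutation along the symmetries -/
theorem of12 {i j k l : Fin n} (d : Dst i j k l) {g : Q}
    (h : Commute g (q (kap j i ⁅x k, x l⁆))) : Commute g (q (kap i j ⁅x k, x l⁆)) := by
  rw [K_12 q hT d] at h
  simpa using h.inv_right

theorem of34 {i j k l : Fin n} (d : Dst i j k l) {g : Q}
    (h : Commute g (q (kap i j ⁅x l, x k⁆))) : Commute g (q (kap i j ⁅x k, x l⁆)) := by
  rw [K_34 q hT d] at h
  simpa using h.inv_right

omit hT in
theorem comm_of_conj {i j k l : Fin n} {g : Q}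
    (hA : g * q (C i ⁅⁅x k, x l⁆, x j⁆) * g⁻¹ = q (C i ⁅⁅x k, x l⁆, x j⁆))
    {r : Q} (hc : g * q (C j (x i)) * g⁻¹ = q (C j (x i)) * r)
    (hr : Commute r (q (C i ⁅⁅x k, x l⁆, x j⁆))) :
    Commute g (q (kap i j ⁅x k, x l⁆)) := by
  refine of_conj ?_
  rw [q_kap, kp_conj, hA, hc]
  unfold kp
  generalize q (C i ⁅⁅x k, x l⁆, x j⁆) = A at *
  generalize q (C j (x i)) = c at *
  calc A⁻¹ * (c * r) * A * (c * r)⁻¹ = A⁻¹ * c * (r * A) * r⁻¹ * c⁻¹ := by group
    _ = A⁻¹ * c * (A * r) * r⁻¹ * c⁻¹ := by rw [hr.eq]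
    _ = _ := by group

omit hT in
theorem K_kl {i j k l : Fin n} (d : Dst i j k l) :
    Commute (q (R k (x l))) (q (kap i j ⁅x k, x l⁆)) := by
  refine comm_of_conj q (r := 1) ?_ ?_ (Commute.one_left _)
  · have h1 := congrArg q (R_conj_C (i := i) (j := k) d.ik (x_mem_O d.il.symm) ⁅⁅x k, x l⁆, x j⁆)
    have h2 : R k (x l) ⁅⁅x k, x l⁆, x j⁆ = ⁅⁅x k, x l⁆, x j⁆ := by
      rw [map_commutatorElement, map_commutatorElement, R_apply_self, R_apply_ne d.kl.symm,
        R_apply_ne d.jk, kill_ne d.kl.symm]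
      simp only [commutatorElement_def]; group
    rw [h2] at h1
    simpa only [map_mul, map_inv] using h1
  · have h1 := congrArg q (R_conj_C (i := j) (j := k) d.jk (x_mem_O d.jl.symm) (x i))
    rw [R_apply_ne d.ik] at h1
    rw [mul_one]
    simpa only [map_mul, map_inv] using h1

theorem K_jk {i j k l : Fin n} (d : Dst i j k l) :
    Commute (q (R j (x k))) (q (kap i j ⁅x k, x l⁆)) := by
  have kC : ∀ a : Fin n, ∀ z, (q.comp (C a)) z ^ 3 = 1 := fun a z => qC_cube q hT a z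
  refine comm_of_conj q (r := q (R j ⁅(x i)⁻¹, x k⁆)) ?_ ?_ ?_
  · have h1 := congrArg q (R_conj_C (i := i) (j := j) d.ij (x_mem_O d.ik.symm) ⁅⁅x k, x l⁆, x j⁆)
    have h2 : R j (x k) ⁅⁅x k, x l⁆, x j⁆ =
        ⁅⁅x k, x l⁆, x j * x k⁆ := by
      rw [map_commutatorElement, map_commutatorElement, R_apply_self, R_apply_ne d.jk.symm,
        R_apply_ne d.jl.symm, kill_ne d.jk.symm]
    have h3 : q (C i ⁅⁅x k, x l⁆, x j * x k⁆) = q (C i ⁅⁅x k, x l⁆, x j⁆) := by
      have e := he_add_last (q.comp (C i)) (kC i) (x k) (x l) (x j) (x k)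
      have e2 : (q.comp (C i)) ⁅⁅x k, x l⁆, x k⁆ = 1 := by
        rw [map_commutatorElement]
        exact commutatorElement_eq_one_iff_commute.mpr
          (he_comm_left (q.comp (C i)) (kC i) _ _)
      rw [e2, mul_one] at e
      exact e
    rw [h2, h3] at h1
    simpa only [map_mul, map_inv] using h1
  · have h1 := congrArg q (R_conj_C_same j (x k) (x i))
    simpa only [map_mul, map_inv] using h1
  · exact lemL q hT d.ik d.ij d.jk.symm (comm_mem _ _) d.wi d.wj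

theorem K_kj {i j k l : Fin n} (d : Dst i j k l) :
    Commute (q (R k (x j))) (q (kap i j ⁅x k, x l⁆)) := by
  have kC : ∀ a : Fin n, ∀ z, (q.comp (C a)) z ^ 3 = 1 := fun a z => qC_cube q hT a z
  have kR : ∀ a : Fin n, ∀ z, (q.comp (R a)) z ^ 3 = 1 := fun a z => qR_cube q hT a z
  refine comm_of_conj q (r := q (R k ⁅x i, x j⁆)) ?_ ?_ ?_
  · have h1 := congrArg q (R_conj_C (i := i) (j := k) d.ik (x_mem_O d.ij.symm) ⁅⁅x k, x l⁆, x j⁆)
    have h2 : R k (x j) ⁅⁅x k, x l⁆, x j⁆ =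
        ⁅⁅x k * x j, x l⁆, x j⁆ := by
      rw [map_commutatorElement, map_commutatorElement, R_apply_self, R_apply_ne d.kl.symm,
        R_apply_ne d.jk, kill_ne d.jk]
    have h3 : q (C i ⁅⁅x k * x j, x l⁆, x j⁆) = q (C i ⁅⁅x k, x l⁆, x j⁆) := by
      have e := he_add_first (q.comp (C i)) (kC i) (x k) (x j) (x l) (x j)
      have e2 : (q.comp (C i)) ⁅⁅x j, x l⁆, x j⁆ = 1 := by
        rw [map_commutatorElement]
        exact commutatorElement_eq_one_iff_commute.mpr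
          (he_comm_left (q.comp (C i)) (kC i) _ _)
      rw [e2, mul_one] at e
      exact e
    rw [h2, h3] at h1
    simpa only [map_mul, map_inv] using h1
  · have h1 := congrArg q (R_conj_C_loop (i := j) (j := k) d.jk (x_mem_O d.ij) (x_mem_O d.ik))
    simpa only [map_mul, map_inv] using h1
  · have h1 := lemL q hT d.ij d.ik d.jk (v := ⁅x l, x j⁆) (comm_mem _ _)
      (comm_mem_O (x_mem_O d.il.symm) (x_mem_O d.ij.symm))
      (comm_mem_O (x_mem_O d.kl.symm) (x_mem_O d.jk))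
    have h2 : q (C i ⁅⁅x l, x j⁆, x k⁆) = q (C i ⁅⁅x k, x l⁆, x j⁆) :=
      (he_cyc (q.comp (C i)) (kC i) (x k) (x l) (x j)).symm
    have h3 : q (R k ⁅(x i)⁻¹, x j⁆) = (q (R k ⁅x i, x j⁆))⁻¹ :=
      he_inv_left (q.comp (R k)) (kR k) (x i) (x j)
    rw [h2, h3] at h1
    simpa using h1.inv_left

/-- **(K)** the transvections between the four indices commute with `kap` -/
theorem K_R {i j k l : Fin n} (d : Dst i j k l) {a b : Fin n} (hab : a ≠ b)
    (ha : a = i ∨ a = j ∨ a = k ∨ a = l) (hb : b = i ∨ b = j ∨ b = k ∨ b = l) :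
    Commute (q (R a (x b))) (q (kap i j ⁅x k, x l⁆)) := by
  rcases ha with rfl | rfl | rfl | rfl <;> rcases hb with rfl | rfl | rfl | rfl
  · exact absurd rfl hab
  · exact of12 q hT d (K_ji q hT d.s12)
  · exact of12 q hT d (K_jk q hT d.s12)
  · exact of12 q hT d (of34 q hT d.s12 (K_jk q hT d.s12.s34))
  · exact K_ji q hT d
  · exact absurd rfl hab
  · exact K_jk q hT d
  · exact of34 q hT d (K_jk q hT d.s34)
  · exact of12 q hT d (K_kj q hT d.s12)
  · exact K_kj q hT d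
  · exact absurd rfl hab
  · exact K_kl q d
  · exact of34 q hT d (of12 q hT d.s34 (K_kj q hT d.s12.s34))
  · exact of34 q hT d (K_kj q hT d.s34)
  · exact of34 q hT d (K_kl q d.s34)
  · exact absurd rfl hab

end

end N4

end Pool.Agent.CSP3
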