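import Pool.Agent.CSP3.N4N

/-!
# Level 3 in rank four, when the `kap`'s vanish
-/

set_option autoImplicit false

namespace Pool.Agent.CSP3

open scoped commutatorElement

open Lev3Aux N4

namespace N4

variable {Q : Type*} [Group Q] (q : A 4 →* Q)

/-- vanishing of the `kap`'s -/
def KV : Prop := ∀ i j k l : Fin 4, Dst i j k l → q (kap i j ⁅x k, x l⁆) = 1

theorem exists_l {i j k : Fin 4} (hij : i ≠ j) (hik : i ≠ k) (hjk : j ≠ k) :
    ∃ l, Dst i j k l := by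
  obtain ⟨l, hl⟩ := exists_new (n := 4) {i, j, k}
    (lt_of_le_of_lt Finset.card_le_three (by norm_num))
  simp only [Finset.mem_insert, Finset.mem_singleton, not_or] at hl
  exact ⟨l, hij, hik, Ne.symm hl.1, hjk, Ne.symm hl.2.1, Ne.symm hl.2.2⟩

section
variable (hT : ∀ i j : Fin 4, i ≠ j → q (R i (x j)) ^ 3 = 1) (hκ : KV q)
include hT hκ

/-- `C j (x i)` and `C i ⁅⁅x k, x l⁆, x j⁆` -/
theorem cA_comm {i j k l : Fin 4} (d : Dst i j k l) :
    Commute (q (C j (x i))) (q (C i ⁅⁅x k, x l⁆, x j⁆)) := by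
  have h1 := hκ i j k l d
  rw [q_kap] at h1
  unfold kp at h1
  generalize q (C i ⁅⁅x k, x l⁆, x j⁆) = A at *
  generalize q (C j (x i)) = c at *
  have h2 : A⁻¹ * (c * A * c⁻¹) = 1 := by
    rw [← h1]; group
  exact of_conj (inv_mul_eq_one.mp h2).symm

/-- `C a (x b)` and `C i ⁅⁅x k, x l⁆, x j⁆` -/
theorem C_f {i j k l : Fin 4} (d : Dst i j k l) (a b : Fin 4) :
    Commute (q (C a (x b))) (q (C i ⁅⁅x k, x l⁆, x j⁆)) := by
  have kC : ∀ a : Fin 4, ∀ z, (q.comp (C a)) z ^ 3 = 1 := fun a z => qC_cube q hT a z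
  by_cases hai : a = i
  · subst hai
    exact (he_gam3 (q.comp (C a)) (kC a) (comm3_mem _ _ _) (x b)).symm
  by_cases hbi : b = i
  · subst hbi
    -- `a ∈ {j, k, l}`
    rcases d.all a with rfl | rfl | rfl | rfl
    · exact absurd rfl hai
    · exact cA_comm q hT hκ d
    · have h1 := cA_comm q hT hκ (i := b) (j := a) (k := l) (l := j)
        ⟨d.ik, d.il, d.ij, d.kl, d.jk.symm, d.jl.symm⟩
      have h2 : q (C b ⁅⁅x a, x l⁆, x j⁆) = q (C b ⁅⁅x l, x j⁆, x a⁆) :=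
        he_cyc (q.comp (C b)) (kC b) _ _ _
      rw [h2]; exact h1
    · have h1 := cA_comm q hT hκ (i := b) (j := a) (k := j) (l := k)
        ⟨d.il, d.ij, d.ik, d.jl.symm, d.kl.symm, d.jk⟩
      have h2 : q (C b ⁅⁅x k, x a⁆, x j⁆) = q (C b ⁅⁅x j, x k⁆, x a⁆) :=
        (he_cyc (q.comp (C b)) (kC b) _ _ _).symm
      rw [h2]; exact h1
  · have h1 := congrArg q (C_conj_C (i := i) (j := a) (Ne.symm hai) (x_mem_O hbi)
      ⁅⁅x k, x l⁆, x j⁆)
    have h2 : q (C i (C a (x b) ⁅⁅x k, x l⁆, x j⁆)) = q (C i ⁅⁅x k, x l⁆, x j⁆) :=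
      IA_comm3 (q.comp (C i)) (kC i) (IA_C a (x b)) k l j
    rw [h2, map_mul, map_mul, map_inv] at h1
    exact of_conj h1

omit hκ in
/-- `R j ⁅x i, x k⁆` and `C i ⁅⁅x k, x l⁆, x j⁆` -/
theorem R_f1 {i j k l : Fin 4} (d : Dst i j k l) :
    Commute (q (R j ⁅x i, x k⁆)) (q (C i ⁅⁅x k, x l⁆, x j⁆)) := by
  have kR : ∀ a : Fin 4, ∀ z, (q.comp (R a)) z ^ 3 = 1 := fun a z => qR_cube q hT a z
  have h1 := lemL q hT d.ik d.ij d.jk.symm (v := ⁅x k, x l⁆) (comm_mem _ _) d.wi d.wj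
  have h3 : q (R j ⁅(x i)⁻¹, x k⁆) = (q (R j ⁅x i, x k⁆))⁻¹ :=
    he_inv_left (q.comp (R j)) (kR j) (x i) (x k)
  rw [h3] at h1
  simpa using h1.inv_left

omit hT hκ in
theorem f_34 {i j k l : Fin 4} (hT : ∀ i j : Fin 4, i ≠ j → q (R i (x j)) ^ 3 = 1) :
    q (C i ⁅⁅x l, x k⁆, x j⁆) = (q (C i ⁅⁅x k, x l⁆, x j⁆))⁻¹ :=
  he_swap' (q.comp (C i)) (fun z => qC_cube q hT i z) (x k) (x l) (x j)

omit hκ in
/-- `R j ⁅x i, x l⁆` and `C i ⁅⁅x k, x l⁆, x j⁆` -/
theorem R_f2 {i j k l : Fin 4} (d : Dst i j k l) :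
    Commute (q (R j ⁅x i, x l⁆)) (q (C i ⁅⁅x k, x l⁆, x j⁆)) := by
  have h1 := R_f1 q hT d.s34
  rw [f_34 q (i := i) (j := j) (k := k) (l := l) hT] at h1
  simpa using h1.inv_right

omit hκ in
theorem R_anti (a b c : Fin 4) : q (R a ⁅x b, x c⁆) = (q (R a ⁅x c, x b⁆))⁻¹ := by
  rw [← map_inv, ← map_inv, commutatorElement_inv]

omit hκ in
/-- `R a ⁅x b, x c⁆` and `C i ⁅⁅x k, x l⁆, x j⁆`, `i ∈ {b, c}` -/
theorem R_fi {i j k l : Fin 4} (d : Dst i j k l) {a c : Fin 4} (hai : a ≠ i) (hac : a ≠ c)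
    (hci : c ≠ i) :
    Commute (q (R a ⁅x i, x c⁆)) (q (C i ⁅⁅x k, x l⁆, x j⁆)) := by
  have kC : ∀ a : Fin 4, ∀ z, (q.comp (C a)) z ^ 3 = 1 := fun a z => qC_cube q hT a z
  have cyc : q (C i ⁅⁅x k, x l⁆, x j⁆) = q (C i ⁅⁅x l, x j⁆, x k⁆) :=
    he_cyc (q.comp (C i)) (kC i) _ _ _
  have cyc2 : q (C i ⁅⁅x k, x l⁆, x j⁆) = q (C i ⁅⁅x j, x k⁆, x l⁆) :=
    (he_cyc (q.comp (C i)) (kC i) _ _ _).symm
  have dk : Dst i k l j := ⟨d.ik, d.il, d.ij, d.kl, d.jk.symm, d.jl.symm⟩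
  have dl : Dst i l j k := ⟨d.il, d.ij, d.ik, d.jl.symm, d.kl.symm, d.jk⟩
  rcases d.all a with rfl | rfl | rfl | rfl
  · exact absurd rfl hai
  · rcases d.all c with rfl | rfl | rfl | rfl
    · exact absurd rfl hci
    · exact absurd rfl hac
    · exact R_f1 q hT d
    · exact R_f2 q hT d
  · rw [cyc]
    rcases d.all c with rfl | rfl | rfl | rfl
    · exact absurd rfl hci
    · exact R_f2 q hT dk
    · exact absurd rfl hac
    · exact R_f1 q hT dk
  · rw [cyc2]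
    rcases d.all c with rfl | rfl | rfl | rfl
    · exact absurd rfl hci
    · exact R_f1 q hT dl
    · exact R_f2 q hT dl
    · exact absurd rfl hac

omit hκ in
/-- `R a ⁅x b, x c⁆` and `C i ⁅⁅x k, x l⁆, x j⁆` -/
theorem R_f {i j k l : Fin 4} (d : Dst i j k l) {a b c : Fin 4} (hab : a ≠ b) (hac : a ≠ c)
    (hbc : b ≠ c) :
    Commute (q (R a ⁅x b, x c⁆)) (q (C i ⁅⁅x k, x l⁆, x j⁆)) := by
  have kC : ∀ a : Fin 4, ∀ z, (q.comp (C a)) z ^ 3 = 1 := fun a z => qC_cube q hT a z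
  by_cases hai : a = i
  · subst hai
    have h1 := congrArg q (R_conj_C_same a ⁅x b, x c⁆ ⁅⁅x k, x l⁆, x j⁆)
    have h2 : q (R a ⁅⁅⁅x k, x l⁆, x j⁆⁻¹, ⁅x b, x c⁆⁆) = 1 :=
      he_gamma4 (q.comp (R a)) (fun w => qR_cube q hT a w)
        (gam_succ (Subgroup.inv_mem _ (comm3_mem _ _ _)) _)
    rw [map_mul, map_mul, map_inv, map_mul, h2, mul_one] at h1
    exact of_conj h1
  by_cases hbi : b = i
  · subst hbi
    exact R_fi q hT d hai hac hbc.symm
  by_cases hci : c = i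
  · subst hci
    rw [R_anti q hT]
    exact (R_fi q hT d hai hab hbc).inv_left
  · have h1 := congrArg q (R_conj_C (i := i) (j := a) (Ne.symm hai)
      (comm_mem_O (x_mem_O hbi) (x_mem_O hci)) ⁅⁅x k, x l⁆, x j⁆)
    have h2 : q (C i (R a ⁅x b, x c⁆ ⁅⁅x k, x l⁆, x j⁆)) = q (C i ⁅⁅x k, x l⁆, x j⁆) :=
      IA_comm3 (q.comp (C i)) (kC i) (IA_R a (comm_mem _ _)) k l j
    rw [h2, map_mul, map_mul, map_inv] at h1
    exact of_conj h1

theorem J1_f {i j k l : Fin 4} (d : Dst i j k l) {a : A 4} (ha : a ∈ J1 4) :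
    Commute (q a) (q (C i ⁅⁅x k, x l⁆, x j⁆)) := by
  unfold J1 at ha
  induction ha using Subgroup.closure_induction with
  | mem g hg =>
    rcases hg with ⟨a, b, _, rfl⟩ | ⟨a, b, c, hab, hac, hbc, rfl⟩
    · exact C_f q hT hκ d a b
    · exact R_f q hT d hab hac hbc
  | one => rw [map_one]; exact Commute.one_left _
  | mul a b _ _ ha hb => rw [map_mul]; exact ha.mul_left hb
  | inv a _ ha => rw [map_inv]; exact ha.inv_left

theorem J1_C4 (i : Fin 4) {w : F 4} (hw : w ∈ gam 4 2) {a : A 4} (ha : a ∈ J1 4) :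
    Commute (q a) (q (C i w)) := by
  have h3 : ∀ w, (q.comp (C i)) w ^ 3 = 1 := fun w => qC_cube q hT i w
  refine commute_closure ?_ (he_gen3 (q.comp (C i)) h3 hw)
  rintro _ ⟨k, l, j, hkl, hlj, rfl⟩
  show Commute (q a) (q (C i ⁅⁅x k, x l⁆, x j⁆))
  by_cases hi : i = k ∨ i = l ∨ i = j
  · rw [C_triv hi, map_one]
    exact Commute.one_right _
  · push Not at hi
    exact J1_f q hT hκ ⟨hi.2.2, hi.1, hi.2.1, (hkl.trans hlj).ne', hlj.ne', hkl.ne⟩ ha

/-- conjugation by `R a (x b)` maps `q(J3)` into itself -/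
theorem R_conj_J3' (a b : Fin 4) {y : Q} (hy : y ∈ (J3 4).map q) :
    q (R a (x b)) * y * (q (R a (x b)))⁻¹ ∈ (J3 4).map q := by
  by_cases hab : a = b
  · subst hab
    rw [R_self, map_one, one_mul, inv_one, mul_one]; exact hy
  have kC : ∀ a : Fin 4, ∀ z, (q.comp (C a)) z ^ 3 = 1 := fun a z => qC_cube q hT a z
  have hJ : (J3 4).map q =
      Subgroup.closure (q '' {g | ∃ i : Fin 4, ∃ w ∈ gam 4 2, g = C i w}) := by
    rw [J3, MonoidHom.map_closure]
  have hy' := hy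
  rw [hJ] at hy'
  refine conj_closure _ ?_ hy'
  rintro _ ⟨g, ⟨i, w, hw, rfl⟩, rfl⟩
  refine conj_closure _ ?_ (he_gen3 (q.comp (C i)) (kC i) hw)
  rintro _ ⟨k, l, j, hkl, hlj, rfl⟩
  show q (R a (x b)) * q (C i ⁅⁅x k, x l⁆, x j⁆) * (q (R a (x b)))⁻¹ ∈ (J3 4).map q
  by_cases hi : i = k ∨ i = l ∨ i = j
  · rw [C_triv hi, map_one, mul_one, mul_inv_cancel]
    exact Subgroup.one_mem _
  push Not at hi
  have d : Dst i j k l := ⟨hi.2.2, hi.1, hi.2.1, (hkl.trans hlj).ne', hlj.ne', hkl.ne⟩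
  by_cases hai : a = i
  · subst hai
    have h4 := R_fix q hT a b (comm3_mem (x k) (x l) (x j))
    rw [h4.eq, mul_inv_cancel_right]
    exact Subgroup.mem_map_of_mem q (C_mem_J3 _ (comm3_mem _ _ _))
  by_cases hbi : b = i
  · subst hbi
    -- `R a (x i)`: `s13`
    have key : ∀ k l : Fin 4, Dst b a k l → ∀ e : Q, e ∈ (J3 4).map q →
        q (C b ⁅⁅x k, x l⁆, x a⁆) = e →
        q (R a (x b)) * e * (q (R a (x b)))⁻¹ ∈ (J3 4).map q := by
      intro k l d' e he hd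
      have r := relsK q hT d'
      have g1 := r.s13
      rw [← q_kap, hκ _ _ _ _ d', inv_one, mul_one] at g1
      rw [← hd, g1]
      exact Subgroup.mul_mem _ (Subgroup.mem_map_of_mem q (C_mem_J3 _ (comm3_mem _ _ _)))
        (Subgroup.mem_map_of_mem q (C_mem_J3 _ (comm3_mem _ _ _)))
    have hmem : q (C b ⁅⁅x k, x l⁆, x j⁆) ∈ (J3 4).map q :=
      Subgroup.mem_map_of_mem q (C_mem_J3 _ (comm3_mem _ _ _))
    rcases d.all a with rfl | rfl | rfl | rfl
    · exact absurd rfl hai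
    · exact key k l d _ hmem rfl
    · exact key l j ⟨d.ik, d.il, d.ij, d.kl, d.jk.symm, d.jl.symm⟩ _ hmem
        (he_cyc (q.comp (C b)) (kC b) _ _ _).symm
    · exact key j k ⟨d.il, d.ij, d.ik, d.jl.symm, d.kl.symm, d.jk⟩ _ hmem
        (he_cyc (q.comp (C b)) (kC b) _ _ _)
  · rw [← map_inv, ← map_mul, ← map_mul, R_conj_C (Ne.symm hai) (x_mem_O hbi)]
    exact Subgroup.mem_map_of_mem q (C_mem_J3 _ (gam_map _ (comm3_mem _ _ _)))

end

end N4

section
variable {Q : Type*} [Group Q] (q : A 4 →* Q)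
  (hT : ∀ i j : Fin 4, i ≠ j → q (R i (x j)) ^ 3 = 1)
include hT

theorem lev3_comm4 (hκ : ∀ i j k l : Fin 4, i ≠ j → i ≠ k → i ≠ l → j ≠ k → j ≠ l → k ≠ l →
    q (kap i j ⁅x k, x l⁆) = 1) {a b : A 4} (ha : a ∈ J1 4) (hb : b ∈ J3 4) :
    Commute (q a) (q b) := by
  have hK : KV q := fun i j k l d => hκ i j k l d.ij d.ik d.il d.jk d.jl d.kl
  unfold J3 at hb
  induction hb using Subgroup.closure_induction with
  | mem g hg =>
    obtain ⟨i, w, hw, rfl⟩ := hg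
    exact J1_C4 q hT hK i hw ha
  | one => rw [map_one]; exact Commute.one_right _
  | mul a b _ _ ha hb => rw [map_mul]; exact ha.mul_right hb
  | inv a _ ha => rw [map_inv]; exact ha.inv_right

theorem lev3_normal4 (hκ : ∀ i j k l : Fin 4, i ≠ j → i ≠ k → i ≠ l → j ≠ k → j ≠ l → k ≠ l →
    q (kap i j ⁅x k, x l⁆) = 1) (α : A 4) {b : A 4} (hb : b ∈ J3 4) :
    q (α * b * α⁻¹) ∈ (J3 4).map q := by
  have hK : KV q := fun i j k l d => hκ i j k l d.ij d.ik d.il d.jk d.jl d.kl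
  let H : Subgroup (A 4) :=
    { carrier := {α | ∀ y ∈ (J3 4).map q, q α * y * (q α)⁻¹ ∈ (J3 4).map q ∧
        (q α)⁻¹ * y * q α ∈ (J3 4).map q}
      one_mem' := fun y hy => by simpa using hy
      mul_mem' := fun {u v} hu hv y hy => by
        constructor
        · have : q (u * v) * y * (q (u * v))⁻¹ = q u * (q v * y * (q v)⁻¹) * (q u)⁻¹ := by
            rw [map_mul]; group
          rw [this]; exact (hu _ (hv _ hy).1).1
        · have : (q (u * v))⁻¹ * y * q (u * v) = (q v)⁻¹ * ((q u)⁻¹ * y * q u) * q v := by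
            rw [map_mul]; group
          rw [this]; exact (hv _ (hu _ hy).2).2
      inv_mem' := fun {u} hu y hy => by
        constructor
        · rw [map_inv, inv_inv]; exact (hu y hy).2
        · rw [map_inv, inv_inv]; exact (hu y hy).1 }
  have hRm : ∀ i j : Fin 4, i ≠ j → R i (x j) ∈ H := by
    intro i j hij y hy
    refine ⟨R_conj_J3' q hT hK i j hy, ?_⟩
    have h3 := hT i j hij
    have h1 := R_conj_J3' q hT hK i j (R_conj_J3' q hT hK i j hy)
    generalize q (R i (x j)) = r at h3 h1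
    have e : r⁻¹ = r * r := by rw [inv_eq_iff_mul_eq_one, ← h3, pow_three]
    have e2 : r⁻¹ * y * r = r * (r * y * r⁻¹) * r⁻¹ := by
      calc r⁻¹ * y * r = (r * r) * y * (r * r)⁻¹ := by rw [← e, inv_inv]
        _ = _ := by group
    rw [e2]; exact h1
  have hCm : ∀ i : Fin 4, ∀ w : F 4, C i w ∈ H := by
    intro i w y hy
    obtain ⟨b, hb, rfl⟩ := hy
    have h1 : Commute (q (C i w)) (q b) := lev3_comm4 q hT hκ (C_mem_J1 i w) hb
    refine ⟨?_, ?_⟩
    · rw [h1.eq, mul_inv_cancel_right]; exact Subgroup.mem_map_of_mem q hb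
    · rw [mul_assoc, ← h1.eq, inv_mul_cancel_left]; exact Subgroup.mem_map_of_mem q hb
  have hLm : ∀ i j : Fin 4, i ≠ j → L i (x j) ∈ H := by
    intro i j hij
    rw [L_eq]
    exact H.mul_mem (hCm i _) (H.inv_mem (hRm i j hij))
  have invol : ∀ g : A 4, (∀ y ∈ J3 4, g * y * g⁻¹ ∈ J3 4) →
      (∀ y ∈ J3 4, g⁻¹ * y * g ∈ J3 4) → g ∈ H := by
    rintro g h1 h2 _ ⟨b, hb, rfl⟩
    refine ⟨?_, ?_⟩
    · rw [← map_inv, ← map_mul, ← map_mul]; exact Subgroup.mem_map_of_mem q (h1 b hb)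
    · rw [← map_inv, ← map_mul, ← map_mul]; exact Subgroup.mem_map_of_mem q (h2 b hb)
  have hsg : ∀ i : Fin 4, ∀ y ∈ J3 4, (sg i : A 4) * y * (sg i)⁻¹ ∈ J3 4 := by
    intro i y hy
    refine J3_conj_of ?_ hy
    intro k w hw
    by_cases hk : k = i
    · subst hk; rw [sg_conj_C_same]; exact C_mem_J3 _ hw
    · rw [C_def, sg_conj_tv hk, ← C_def]; exact C_mem_J3 _ (gam_map _ hw)
  have hpm : ∀ σ : Equiv.Perm (Fin 4), ∀ y ∈ J3 4, (pm σ : A 4) * y * (pm σ)⁻¹ ∈ J3 4 := by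
    intro σ y hy
    refine J3_conj_of ?_ hy
    intro k w hw
    rw [pm_conj_C]; exact C_mem_J3 _ (gam_map _ hw)
  have htop : H = ⊤ := by
    refine nielsen_top H ?_ ?_ ?_ ?_
    · intro i j hij ν h1 h2
      have : ν = R i (x j) := by
        refine A_ext fun k => ?_
        by_cases hk : k = i
        · subst hk; rw [R_apply_self, kill_ne hij.symm]; exact h1
        · rw [R_apply_ne hk]; exact h2 k hk
      rw [this]; exact hRm i j hij
    · intro i j hij ν h1 h2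
      have : ν = (L i (x j))⁻¹ := by
        rw [← map_inv]
        refine A_ext fun k => ?_
        by_cases hk : k = i
        · subst hk
          rw [L_def, tv_self, map_inv, kill_ne hij.symm, map_one, mul_one, inv_inv]; exact h1
        · rw [L_def, tv_ne hk]; exact h2 k hk
      rw [this]; exact H.inv_mem (hLm i j hij)
    · intro i ν h1 h2
      have : ν = sg i := by
        refine A_ext fun k => ?_
        by_cases hk : k = i
        · subst hk; rw [sg_self]; exact h1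
        · rw [sg_ne hk]; exact h2 k hk
      rw [this]
      refine invol _ (hsg i) fun y hy => ?_
      have := hsg i y hy
      rwa [sg_inv] at this ⊢
    · intro i j hij ν h1 h2 h3
      have : ν = pm (Equiv.swap i j) := by
        refine A_ext fun k => ?_
        rw [pm_x]
        by_cases hk : k = i
        · subst hk; rw [Equiv.swap_apply_left]; exact h1
        · by_cases hk' : k = j
          · subst hk'; rw [Equiv.swap_apply_right]; exact h2
          · rw [Equiv.swap_apply_of_ne_of_ne hk hk']; exact h3 k hk hk'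
      rw [this]
      refine invol _ (hpm _) fun y hy => ?_
      have := hpm (Equiv.swap i j)⁻¹ y hy
      rwa [← pm_inv, inv_inv] at this
  have hα : α ∈ H := htop ▸ Subgroup.mem_top α
  have := (hα (q b) (Subgroup.mem_map_of_mem q hb)).1
  rwa [← map_inv, ← map_mul, ← map_mul] at this

end

end Pool.Agent.CSP3
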