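import Pool.Agent.CSP3.Theta4B

/-!
# Detection in degree four, rank four: `lam4` vanishes on `N0` (MODULE TH4C)

With `w = β (x j)`, `v p = mu 3 [p] w`, `q p m = mu 3 [p, m] w - mu 3 [m, p] w`,
`h m = tha β (∂_i (β⁻¹ (x m)))`, `c m = thnu [] (h m)` one has `∑ m, v m * c m = 0` and
`lam4 (β * R i (x j) ^ 3 * β⁻¹)` is a multiple of `(∑ m, c m * v m) * Pf q`.
-/

set_option autoImplicit false

namespace Pool.Agent.CSP3

open scoped commutatorElement

variable {n : ℕ}

/-! ### small facts -/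

private theorem th4c_tt2_add (a b : Fin n) (r s : thRR n) :
    tt2 a b (r + s) = tt2 a b r + tt2 a b s := by
  unfold tt2
  simp only [map_add]
  ring

private theorem th4c_tt3_add (a b c : Fin n) (r s : thRR n) :
    tt3 a b c (r + s) = tt3 a b c r + tt3 a b c s := by
  unfold tt3
  simp only [map_add]
  ring

private theorem th4c_tt4_add (a b c d : Fin n) (r s : thRR n) :
    tt4 a b c d (r + s) = tt4 a b c d r + tt4 a b c d s := by
  unfold tt4
  simp only [map_add]
  ring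

private theorem th4c_tt2_one (a b : Fin n) : tt2 a b (1 : thRR n) = 0 := by
  unfold tt2
  rw [thnu_one (by simp), thnu_one (by simp), sub_zero]

private theorem th4c_tt3_one (a b c : Fin n) : tt3 a b c (1 : thRR n) = 0 := by
  unfold tt3
  simp only [thnu_one (w := [a, b, c]) (by simp), thnu_one (w := [a, c, b]) (by simp),
    thnu_one (w := [b, a, c]) (by simp), thnu_one (w := [b, c, a]) (by simp),
    thnu_one (w := [c, a, b]) (by simp), thnu_one (w := [c, b, a]) (by simp)]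
  ring

private theorem th4c_tt4_one (a b c d : Fin n) : tt4 a b c d (1 : thRR n) = 0 := by
  have h : ∀ p q m l : Fin n, thnu [p, q, m, l] (1 : thRR n) = 0 := fun p q m l =>
    thnu_one (by simp)
  unfold tt4
  simp only [h]
  ring

private theorem th4c_tt2_x (a b k : Fin n) : tt2 a b (thg (x k)) = 0 := by
  unfold tt2
  rw [thnu_g, thnu_g, mu_x_two k (by simp), mu_x_two k (by simp), sub_zero]

private theorem th4c_tt3_x (a b c k : Fin n) : tt3 a b c (thg (x k)) = 0 := by
  have h : ∀ p q m : Fin n, thnu [p, q, m] (thg (x k)) = 0 := fun p q m => by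
    rw [thnu_g, mu_x_two k (by simp)]
  unfold tt3
  simp only [h]
  ring

private theorem th4c_tt4_x (a b c d k : Fin n) : tt4 a b c d (thg (x k)) = 0 := by
  have h : ∀ p q m l : Fin n, thnu [p, q, m, l] (thg (x k)) = 0 := fun p q m l => by
    rw [thnu_g, mu_x_two k (by simp)]
  unfold tt4
  simp only [h]
  ring

private theorem th4c_x (p k : Fin n) : thnu [p] (thg (x k)) = if p = k then 1 else 0 := by
  rw [thnu_g, mu_x]

private theorem th4c_g0 (g : F n) : thnu [] (thg g) = 1 := by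
  rw [thnu_g, mu_nil]

private theorem th4c_mul_inv (k : Fin n) : thg (x k)⁻¹ * thg (x k) = 1 := by
  rw [← thg_mul, inv_mul_cancel, thg_one]

private theorem th4c_inv (p k : Fin n) : thnu [p] (thg (x k)⁻¹) = - if p = k then 1 else 0 := by
  have h := thnu1 p (thg (x k)⁻¹) (thg (x k))
  rw [th4c_mul_inv, thnu_one (by simp), th4c_g0, th4c_g0, th4c_x] at h
  linear_combination -h

private theorem th4c_tt2_inv (a b k : Fin n) : tt2 a b (thg (x k)⁻¹) = 0 := by
  have h := tt2_mul a b (thg (x k)⁻¹) (thg (x k))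
  rw [th4c_mul_inv, th4c_tt2_one, th4c_g0, th4c_g0, th4c_x, th4c_x, th4c_inv, th4c_inv,
    th4c_tt2_x] at h
  linear_combination -h

private theorem th4c_tt3_inv (a b c k : Fin n) : tt3 a b c (thg (x k)⁻¹) = 0 := by
  have h := tt3_mul a b c (thg (x k)⁻¹) (thg (x k))
  simp only [th4c_mul_inv, th4c_tt3_one, th4c_g0, th4c_tt2_x, th4c_tt2_inv, th4c_tt3_x] at h
  linear_combination -h

private theorem th4c_tt4_inv (a b c d k : Fin n) : tt4 a b c d (thg (x k)⁻¹) = 0 := by
  have h := tt4_mul a b c d (thg (x k)⁻¹) (thg (x k))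
  simp only [th4c_mul_inv, th4c_tt4_one, th4c_g0, th4c_tt2_x, th4c_tt2_inv, th4c_tt3_x,
    th4c_tt3_inv, th4c_tt4_x] at h
  linear_combination -h

/-- shuffle relation -/
private theorem th4c_shuffle (p m : Fin n) (g : F n) :
    mu 3 [p, m] g + mu 3 [m, p] g =
      mu 3 [p] g * mu 3 [m] g - if p = m then mu 3 [p] g else 0 := by
  have key := th_cross (M := ZMod 3)
    (fun g => mu 3 [p, m] g + mu 3 [m, p] g - (mu 3 [p] g * mu 3 [m] g -
      if p = m then mu 3 [p] g else 0)) (fun _ r => r) (fun _ => rfl) ?_ ?_ ?_ g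
  · exact sub_eq_zero.1 key
  · intro g h
    have h1 : ∀ q : Fin n, mu 3 [q] (g * h) = mu 3 [q] g + mu 3 [q] h := by
      intro q
      have := thnu1 q (thg g) (thg h)
      rw [← thg_mul, thnu_g, thnu_g, thnu_g, thnu_g, thnu_g, mu_nil, mu_nil] at this
      linear_combination this
    have h2 : ∀ q l : Fin n, mu 3 [q, l] (g * h) = mu 3 [q, l] g + mu 3 [q] g * mu 3 [l] h +
        mu 3 [q, l] h := by
      intro q l
      have := thnu2 q l (thg g) (thg h)
      rw [← thg_mul, thnu_g, thnu_g, thnu_g, thnu_g, thnu_g, thnu_g, thnu_g, mu_nil, mu_nil] at this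
      linear_combination this
    show mu 3 [p, m] (g * h) + mu 3 [m, p] (g * h) - (mu 3 [p] (g * h) * mu 3 [m] (g * h) -
      if p = m then mu 3 [p] (g * h) else 0) =
      (mu 3 [p, m] g + mu 3 [m, p] g - (mu 3 [p] g * mu 3 [m] g -
      if p = m then mu 3 [p] g else 0)) + (mu 3 [p, m] h + mu 3 [m, p] h - (mu 3 [p] h * mu 3 [m] h -
      if p = m then mu 3 [p] h else 0))
    rw [h1, h1, h2, h2]
    split_ifs <;> ring
  · intro i
    show mu 3 [p, m] (x i) + mu 3 [m, p] (x i) - (mu 3 [p] (x i) * mu 3 [m] (x i) -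
      if p = m then mu 3 [p] (x i) else 0) = 0
    rw [mu_x_two i (by simp), mu_x_two i (by simp), mu_x, mu_x]
    by_cases h1 : p = i
    · subst h1
      by_cases h2 : p = m
      · subst h2
        simp
      · have h3 : ¬ m = p := fun h => h2 h.symm
        simp [h2, h3]
    · simp [h1]
  · show mu 3 [p, m] (1 : F n) + mu 3 [m, p] (1 : F n) - (mu 3 [p] (1 : F n) * mu 3 [m] (1 : F n) -
      if p = m then mu 3 [p] (1 : F n) else 0) = 0
    rw [mu_one (by simp), mu_one (by simp), mu_one (by simp), mu_one (by simp)]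
    simp

/-- in `F_3`: `mu [p, m] w = - v_p v_m - q_pm + δ_pm v_p` -/
private theorem th4c_mu2 (p m : Fin n) (g : F n) :
    mu 3 [p, m] g = - (mu 3 [p] g * mu 3 [m] g) - tt2 p m (thg g) +
      if p = m then mu 3 [p] g else 0 := by
  have h := th4c_shuffle p m g
  unfold tt2
  rw [thnu_g, thnu_g]
  linear_combination (-1 : ZMod 3) * h + mu 3 [p, m] g * th_three

/-! ### the relation -/

private theorem th4c_rel {i j : Fin n} (h : i ≠ j) (β : A n) :
    ∑ m : Fin n, thd m (β (x j)) * tha β.toMonoidHom (thd i (β⁻¹ (x m))) = 0 := by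
  have e6 : ∀ m ∈ (Finset.univ : Finset (Fin n)), thd m (β (x j)) *
      tha β.toMonoidHom (thd i (β⁻¹ (x m))) = tha β.toMonoidHom
        (tha β⁻¹.toMonoidHom (thd m (β.toMonoidHom (x j))) * thd i (β⁻¹.toMonoidHom (x m))) := by
    intro m _
    rw [map_mul, tha_comp]
    have : β.toMonoidHom.comp β⁻¹.toMonoidHom = MonoidHom.id (F n) := by
      ext y
      show β (β⁻¹ (x y)) = x y
      rw [← MulAut.mul_apply, mul_inv_cancel, MulAut.one_apply]
    rw [this, tha_id]
    rfl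
  rw [Finset.sum_congr rfl e6, ← map_sum, ← thd_chain]
  have e7 : β⁻¹.toMonoidHom (β.toMonoidHom (x j)) = x j := by
    show β⁻¹ (β (x j)) = x j
    rw [← MulAut.mul_apply, inv_mul_cancel, MulAut.one_apply]
  rw [e7, thd_x, if_neg (fun h' => h h'.symm), map_zero]

/-- `Φ (A * y * B)` in degree 4 if `y` starts in degree 3 -/
private theorem th4c_AyB (a b c d : Fin n) (r y s : thRR n) (h0 : thnu [] y = 0)
    (h1 : ∀ p, thnu [p] y = 0) (h2 : ∀ p q, tt2 p q y = 0) :
    tt4 a b c d (r * y * s) = thnu [] r * thnu [] s * tt4 a b c d y +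
      ((thnu [a] r * thnu [] s - thnu [] r * thnu [a] s) * tt3 b c d y -
        (thnu [b] r * thnu [] s - thnu [] r * thnu [b] s) * tt3 a c d y +
        (thnu [c] r * thnu [] s - thnu [] r * thnu [c] s) * tt3 a b d y -
        (thnu [d] r * thnu [] s - thnu [] r * thnu [d] s) * tt3 a b c y) := by
  simp only [tt4_mul, tt3_mul, tt2_mul, thnu1, thnu0, h0, h1, h2]
  ring

/-- the degree three part of `U * (V * V)`, `thnu [] V = 0` -/
private theorem th4c_y {U V : thRR n} (hU : thnu [] U = 1) (hV : thnu [] V = 0) :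
    thnu [] (U * (V * V)) = 0 ∧ (∀ p, thnu [p] (U * (V * V)) = 0) ∧
      (∀ p q, tt2 p q (U * (V * V)) = 0) ∧
      ∀ a b c, tt3 a b c (U * (V * V)) =
        2 * (thnu [a] V * tt2 b c V - thnu [b] V * tt2 a c V + thnu [c] V * tt2 a b V) := by
  refine ⟨?_, ?_, ?_, ?_⟩
  · simp only [thnu0, hV, mul_zero]
  · intro p
    simp only [thnu1, thnu0, hV, mul_zero, zero_mul, add_zero]
  · intro p q
    simp only [tt2_mul, thnu1, thnu0, hV, mul_zero, zero_mul, add_zero, zero_add, sub_zero]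
    ring
  · intro a b c
    simp only [tt3_mul, tt2_mul, thnu1, thnu0, hU, hV]
    ring

/-- the algebra behind `lam4_conj` -/
private theorem th4c_alg (c v : Fin 4 → ZMod 3) (k q μ : Fin 4 → Fin 4 → ZMod 3) (t : ZMod 3)
    (hq : ∀ p m, q m p = - q p m) (hq0 : ∀ p, q p p = 0)
    (hμ : ∀ p m, μ p m = - (v p * v m) - q p m + if p = m then v p else 0)
    (R0 : ∑ m, v m * c m = 0) (R1 : ∀ p, ∑ m, (v m * k p m + μ p m * c m) = 0) :
    ∑ m, (c m * v m * t +
      (((k 0 m - (if 0 = m then 1 else 0) * c m) * v m - c m * μ 0 m) *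
          (2 * (v 1 * q 2 3 - v 2 * q 1 3 + v 3 * q 1 2)) -
        ((k 1 m - (if 1 = m then 1 else 0) * c m) * v m - c m * μ 1 m) *
          (2 * (v 0 * q 2 3 - v 2 * q 0 3 + v 3 * q 0 2)) +
        ((k 2 m - (if 2 = m then 1 else 0) * c m) * v m - c m * μ 2 m) *
          (2 * (v 0 * q 1 3 - v 1 * q 0 3 + v 3 * q 0 1)) -
        ((k 3 m - (if 3 = m then 1 else 0) * c m) * v m - c m * μ 3 m) *
          (2 * (v 0 * q 1 2 - v 1 * q 0 2 + v 2 * q 0 1)))) = 0 := by
  have r0 := R1 0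
  have r1 := R1 1
  have r2 := R1 2
  have r3 := R1 3
  have d01 : ¬ ((0 : Fin 4) = 1) := by decide
  have d02 : ¬ ((0 : Fin 4) = 2) := by decide
  have d03 : ¬ ((0 : Fin 4) = 3) := by decide
  have d10 : ¬ ((1 : Fin 4) = 0) := by decide
  have d12 : ¬ ((1 : Fin 4) = 2) := by decide
  have d13 : ¬ ((1 : Fin 4) = 3) := by decide
  have d20 : ¬ ((2 : Fin 4) = 0) := by decide
  have d21 : ¬ ((2 : Fin 4) = 1) := by decide
  have d23 : ¬ ((2 : Fin 4) = 3) := by decide
  have d30 : ¬ ((3 : Fin 4) = 0) := by decide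
  have d31 : ¬ ((3 : Fin 4) = 1) := by decide
  have d32 : ¬ ((3 : Fin 4) = 2) := by decide
  simp only [Fin.sum_univ_four, hμ, hq0, hq 0 1, hq 0 2, hq 0 3, hq 1 2, hq 1 3, hq 2 3,
    d01, d02, d03, d10, d12, d13, d20, d21, d23, d30, d31, d32, if_true, if_false]
    at R0 r0 r1 r2 r3 ⊢
  generalize q 0 1 = q01 at *
  generalize q 0 2 = q02 at *
  generalize q 0 3 = q03 at *
  generalize q 1 2 = q12 at *
  generalize q 1 3 = q13 at *
  generalize q 2 3 = q23 at *
  linear_combination (t + 4 * (q01 * q23 - q02 * q13 + q03 * q12)) * R0 +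
    (2 * (v 1 * q23 - v 2 * q13 + v 3 * q12)) * r0 -
    (2 * (v 0 * q23 - v 2 * q03 + v 3 * q02)) * r1 +
    (2 * (v 0 * q13 - v 1 * q03 + v 3 * q01)) * r2 -
    (2 * (v 0 * q12 - v 1 * q02 + v 2 * q01)) * r3 -
    ((2 * (v 1 * q23 - v 2 * q13 + v 3 * q12)) * (c 0 * v 0) -
    (2 * (v 0 * q23 - v 2 * q03 + v 3 * q02)) * (c 1 * v 1) +
    (2 * (v 0 * q13 - v 1 * q03 + v 3 * q01)) * (c 2 * v 2) -
    (2 * (v 0 * q12 - v 1 * q02 + v 2 * q01)) * (c 3 * v 3)) * th_three

/-! ### `lam4` on the conjugates of the cubes -/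

theorem lam4_conj {i j : Fin 4} (h : i ≠ j) (β : A 4) :
    lam4 (β * R i (x j) ^ 3 * β⁻¹) = 0 := by
  obtain ⟨y0, y1, y2, y3⟩ := th4c_y (U := thg (β (x i))) (V := thg (β (x j)) - 1)
    (th4c_g0 _) (thnu_sub_one _)
  have hw1 : ∀ p : Fin 4, thnu [p] (thg (β (x j)) - 1) = mu 3 [p] (β (x j)) := by
    intro p
    rw [map_sub, thnu_g, thnu_one (by simp), sub_zero]
  have hw2 : ∀ p q : Fin 4, tt2 p q (thg (β (x j)) - 1) = tt2 p q (thg (β (x j))) := by
    intro p q
    have := th4c_tt2_add p q (thg (β (x j)) - 1) 1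
    rw [sub_add_cancel, th4c_tt2_one, add_zero] at this
    exact this.symm
  have hg0 : ∀ m : Fin 4, thnu [] (thd m (β (x j))) = mu 3 [m] (β (x j)) := fun m =>
    thnu_d m _ []
  have hg1 : ∀ p m : Fin 4, thnu [p] (thd m (β (x j))) = mu 3 [p, m] (β (x j)) := fun p m =>
    thnu_d m _ [p]
  have hrel := th4c_rel h β
  have e : ∀ m : Fin 4, tt4 0 1 2 3 (thg (x m)⁻¹ *
      thd m ((β * R i (x j) ^ 3 * β⁻¹ : A 4) (x m))) =
      tt4 0 1 2 3 ((thg (x m)⁻¹ * tha β.toMonoidHom (thd i (β⁻¹ (x m)))) *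
        (thg (β (x i)) * ((thg (β (x j)) - 1) * (thg (β (x j)) - 1))) * thd m (β (x j))) := by
    intro m
    have h1 := (EE_conj h β m m)
    rw [if_pos rfl] at h1
    have h2 := ((EE.refl (thg (x m)⁻¹)).mul h1).2.2.2.2 0 1 2 3
    rw [h2, mul_add, mul_one, th4c_tt4_add, th4c_tt4_inv, zero_add]
    simp only [mul_assoc]
  have key := th4c_alg (fun m => thnu [] (tha β.toMonoidHom (thd i (β⁻¹ (x m)))))
    (fun m => mu 3 [m] (β (x j)))
    (fun p m => thnu [p] (tha β.toMonoidHom (thd i (β⁻¹ (x m)))))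
    (fun p m => tt2 p m (thg (β (x j)))) (fun p m => mu 3 [p, m] (β (x j)))
    (tt4 0 1 2 3 (thg (β (x i)) * ((thg (β (x j)) - 1) * (thg (β (x j)) - 1))))
    (fun p m => by unfold tt2; ring) (fun p => by unfold tt2; ring)
    (fun p m => th4c_mu2 p m _)
    (by
      have h1 := congrArg (thnu []) hrel
      rw [map_sum, map_zero] at h1
      rw [← h1]
      exact Finset.sum_congr rfl fun m _ => by rw [thnu0, hg0])
    (fun p => by
      have h1 := congrArg (thnu [p]) hrel
      rw [map_sum, map_zero] at h1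
      rw [← h1]
      exact Finset.sum_congr rfl fun m _ => by rw [thnu1, hg0, hg1])
  rw [← key]
  unfold lam4
  refine Finset.sum_congr rfl fun m _ => ?_
  rw [e m, th4c_AyB _ _ _ _ _ _ _ y0 y1 y2]
  simp only [y3, hw1, hw2, hg0, hg1, thnu1, thnu0, th4c_g0, th4c_inv, one_mul, neg_mul,
    ← sub_eq_add_neg]

theorem lam4_N0 {α : A 4} (ha : α ∈ N0 4) : lam4 α = 0 := by
  have h1 : lam4 (1 : A 4) = 0 := by
    have h := lam4_mul (HH 4).one_mem (HH 4).one_mem
    rw [mul_one] at h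
    have : lam4 (1 : A 4) + 0 = lam4 (1 : A 4) + lam4 (1 : A 4) := by
      rw [add_zero]; exact h
    exact (add_left_cancel this).symm
  have key : α ∈ HH 4 ∧ lam4 α = 0 := by
    unfold N0 Subgroup.normalClosure at ha
    induction ha using Subgroup.closure_induction with
    | mem g hg =>
      refine ⟨N0_le_HH (Subgroup.subset_closure hg), ?_⟩
      rw [Group.mem_conjugatesOfSet_iff] at hg
      obtain ⟨t, ⟨i, j, hij, rfl⟩, ht⟩ := hg
      rw [isConj_iff] at ht
      obtain ⟨β, rfl⟩ := ht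
      exact lam4_conj hij β
    | one => exact ⟨(HH 4).one_mem, h1⟩
    | mul g h _ _ hg hh =>
      exact ⟨(HH 4).mul_mem hg.1 hh.1, by rw [lam4_mul hg.1 hh.1, hg.2, hh.2, add_zero]⟩
    | inv g _ hg =>
      refine ⟨(HH 4).inv_mem hg.1, ?_⟩
      have h := lam4_mul ((HH 4).inv_mem hg.1) hg.1
      rw [inv_mul_cancel, h1, hg.2, add_zero] at h
      exact h.symm
  exact key.2

end Pool.Agent.CSP3
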