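import Pool.Agent.CSP3.Theta4B
import Pool.Agent.CSP3.N4Def

/-!
# Detection in degree four, rank four: the value on `kap0` (MODULE TH4D)
-/

set_option autoImplicit false

namespace Pool.Agent.CSP3

open scoped commutatorElement

variable {n : ℕ}

namespace Theta4DAux

/-! ### small calculus -/

theorem c0_g (g : F n) : thnu [] (thg g) = 1 := by rw [thnu_g, mu_nil]

theorem tt2_add (a b : Fin n) (r s : thRR n) : tt2 a b (r + s) = tt2 a b r + tt2 a b s := by
  unfold tt2; simp only [map_add]; ring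

theorem tt3_add (a b c : Fin n) (r s : thRR n) :
    tt3 a b c (r + s) = tt3 a b c r + tt3 a b c s := by
  unfold tt3; simp only [map_add]; ring

theorem tt4_add (a b c d : Fin n) (r s : thRR n) :
    tt4 a b c d (r + s) = tt4 a b c d r + tt4 a b c d s := by
  unfold tt4; simp only [map_add]; ring

theorem tt2_sub (a b : Fin n) (r s : thRR n) : tt2 a b (r - s) = tt2 a b r - tt2 a b s := by
  unfold tt2; simp only [map_sub]; ring

theorem tt3_sub (a b c : Fin n) (r s : thRR n) :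
    tt3 a b c (r - s) = tt3 a b c r - tt3 a b c s := by
  unfold tt3; simp only [map_sub]; ring

theorem tt4_sub (a b c d : Fin n) (r s : thRR n) :
    tt4 a b c d (r - s) = tt4 a b c d r - tt4 a b c d s := by
  unfold tt4; simp only [map_sub]; ring

theorem tt2_zero (a b : Fin n) : tt2 a b (0 : thRR n) = 0 := by
  unfold tt2; simp only [map_zero, sub_self]

theorem tt3_zero (a b c : Fin n) : tt3 a b c (0 : thRR n) = 0 := by
  unfold tt3; simp only [map_zero]; ring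

theorem tt4_zero (a b c d : Fin n) : tt4 a b c d (0 : thRR n) = 0 := by
  unfold tt4; simp only [map_zero]; ring

theorem tt2_one (a b : Fin n) : tt2 a b (1 : thRR n) = 0 := by
  unfold tt2; simp only [thnu_one (List.cons_ne_nil _ _), sub_self]

theorem tt3_one (a b c : Fin n) : tt3 a b c (1 : thRR n) = 0 := by
  unfold tt3; simp only [thnu_one (List.cons_ne_nil _ _)]; ring

theorem tt4_one (a b c d : Fin n) : tt4 a b c d (1 : thRR n) = 0 := by
  unfold tt4; simp only [thnu_one (List.cons_ne_nil _ _)]; ring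

theorem c1_x (i a : Fin n) : thnu [a] (thg (x i)) = if a = i then 1 else 0 := by
  rw [thnu_g, mu_x]

theorem cl_x (i : Fin n) {w : List (Fin n)} (hw : 2 ≤ w.length) : thnu w (thg (x i)) = 0 := by
  rw [thnu_g, mu_x_two i hw]

theorem tt2_x (i a b : Fin n) : tt2 a b (thg (x i)) = 0 := by
  unfold tt2; rw [cl_x i (by simp), cl_x i (by simp), sub_self]

theorem tt3_x (i a b c : Fin n) : tt3 a b c (thg (x i)) = 0 := by
  unfold tt3
  rw [cl_x i (by simp), cl_x i (by simp), cl_x i (by simp), cl_x i (by simp), cl_x i (by simp),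
    cl_x i (by simp)]
  ring

theorem tt4_x (i a b c d : Fin n) : tt4 a b c d (thg (x i)) = 0 := by
  unfold tt4
  have h : ∀ p q m l : Fin n, thnu [p, q, m, l] (thg (x i)) = 0 := fun p q m l =>
    cl_x i (by simp)
  simp only [h]
  ring

/-- `Φ (x i)⁻¹ = 1 - e i` -/
theorem EE_xinv (i : Fin n) : EE (thg (x i)⁻¹) (1 - (thg (x i) - 1)) := by
  have h1 : EE ((thg (x i) - 1) * (thg (x i) - 1)) (0 : thRR n) := by
    refine ⟨?_, fun a => ?_, fun a b => ?_, fun a b c => ?_, fun a b c d => ?_⟩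
    · rw [thnu0, thnu_sub_one, map_zero, mul_zero]
    · rw [thnu1, thnu_sub_one, map_zero, mul_zero, zero_mul, add_zero]
    · rw [tt2_mul, thnu_sub_one]
      unfold tt2
      simp only [map_zero]
      ring
    · rw [tt3_mul, thnu_sub_one]
      simp only [tt2_sub, tt2_x, tt2_one]
      unfold tt3
      simp only [map_zero]
      ring
    · rw [tt4_mul, thnu_sub_one]
      simp only [tt2_sub, tt2_x, tt2_one, tt3_sub, tt3_x, tt3_one]
      unfold tt4
      simp only [map_zero]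
      ring
  have h2 : EE (thg (x i) * (1 - (thg (x i) - 1))) (1 : thRR n) := by
    have e : thg (x i) * (1 - (thg (x i) - 1)) = 1 - (thg (x i) - 1) * (thg (x i) - 1) := by
      noncomm_ring
    rw [e]
    have := EE.sub (EE.refl (1 : thRR n)) h1
    rwa [sub_zero] at this
  have h3 := EE.mul (EE.refl (thg (x i)⁻¹)) h2
  rw [← mul_assoc, ← thg_mul, inv_mul_cancel, thg_one, one_mul, mul_one] at h3
  exact h3.symm

theorem c1_xinv (i a : Fin n) : thnu [a] (thg (x i)⁻¹) = - if a = i then 1 else 0 := by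
  rw [(EE_xinv i).2.1 a]
  simp only [map_sub, thnu_one (List.cons_ne_nil _ _), c1_x]
  ring

theorem tt2_xinv (i a b : Fin n) : tt2 a b (thg (x i)⁻¹) = 0 := by
  rw [(EE_xinv i).2.2.1 a b]
  simp only [tt2_sub, tt2_x, tt2_one, sub_self]

theorem tt3_xinv (i a b c : Fin n) : tt3 a b c (thg (x i)⁻¹) = 0 := by
  rw [(EE_xinv i).2.2.2.1 a b c]
  simp only [tt3_sub, tt3_x, tt3_one, sub_self]

theorem tt4_xinv (i a b c d : Fin n) : tt4 a b c d (thg (x i)⁻¹) = 0 := by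
  rw [(EE_xinv i).2.2.2.2 a b c d]
  simp only [tt4_sub, tt4_x, tt4_one, sub_self]

/-! ### commutators -/

theorem inv_EE {g h : F n} (e : EE (thg g) (thg h)) : EE (thg g⁻¹) (thg h⁻¹) := by
  have h1 := EE.mul (EE.mul (EE.refl (thg g⁻¹)) e) (EE.refl (thg h⁻¹))
  rw [← thg_mul, ← thg_mul, ← thg_mul, ← thg_mul, inv_mul_cancel, one_mul,
    mul_inv_cancel_right] at h1
  exact h1.symm

theorem c1_mul (g h : F n) (a : Fin n) :
    thnu [a] (thg (g * h)) = thnu [a] (thg g) + thnu [a] (thg h) := by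
  rw [thg_mul, thnu1, c0_g, c0_g]; ring

theorem c1_comm (g h : F n) (a : Fin n) : thnu [a] (thg ⁅g, h⁆) = 0 := by
  have e : ⁅g, h⁆ * (h * g) = g * h := by rw [commutatorElement_def]; group
  have h1 := c1_mul ⁅g, h⁆ (h * g) a
  rw [e, c1_mul, c1_mul] at h1
  linear_combination -h1

theorem tt2_comm (g h : F n) (a b : Fin n) : tt2 a b (thg ⁅g, h⁆) =
    2 * (thnu [a] (thg g) * thnu [b] (thg h) - thnu [b] (thg g) * thnu [a] (thg h)) := by
  have e : ⁅g, h⁆ * (h * g) = g * h := by rw [commutatorElement_def]; group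
  have h1 : tt2 a b (thg (⁅g, h⁆ * (h * g))) = tt2 a b (thg (g * h)) := by rw [e]
  rw [thg_mul, tt2_mul, thg_mul, tt2_mul, thg_mul, tt2_mul, c0_g, c0_g, c1_comm, c1_comm,
    thnu0, c0_g, c0_g] at h1
  linear_combination h1

theorem tt3_comm (g h : F n) (a b c : Fin n) : tt3 a b c (thg ⁅g, h⁆) = 0 := by
  have e : ⁅g, h⁆ * (h * g) = g * h := by rw [commutatorElement_def]; group
  have h1 : tt3 a b c (thg (⁅g, h⁆ * (h * g))) = tt3 a b c (thg (g * h)) := by rw [e]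
  rw [thg_mul, tt3_mul, thg_mul, tt3_mul, thg_mul, tt3_mul] at h1
  simp only [c0_g, c1_comm, thnu0, thnu1, tt2_comm, tt2_mul] at h1
  linear_combination h1

/-- even elements are central -/
theorem EE_central {r : thRR n} (h1 : ∀ a, thnu [a] r = 0) (h3 : ∀ a b c, tt3 a b c r = 0)
    (s : thRR n) : EE (r * s) (s * r) := by
  refine ⟨?_, fun a => ?_, fun a b => ?_, fun a b c => ?_, fun a b c d => ?_⟩
  · rw [thnu0, thnu0]; ring
  · rw [thnu1, thnu1, h1]; ring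
  · rw [tt2_mul, tt2_mul, h1, h1]; ring
  · rw [tt3_mul, tt3_mul, h1, h1, h1, h3]; ring
  · rw [tt4_mul, tt4_mul, h1, h1, h1, h1, h3, h3, h3, h3]; ring

theorem EE_comm_comm (a b c : F n) : EE (thg ⁅⁅a, b⁆, c⁆) (1 : thRR n) := by
  have h1 : EE (thg ⁅a, b⁆ * thg c) (thg c * thg ⁅a, b⁆) :=
    EE_central (c1_comm a b) (tt3_comm a b) _
  have h2 := EE.mul (EE.mul h1 (EE.refl (thg ⁅a, b⁆⁻¹))) (EE.refl (thg c⁻¹))
  have e1 : thg ⁅a, b⁆ * thg c * thg ⁅a, b⁆⁻¹ * thg c⁻¹ = thg ⁅⁅a, b⁆, c⁆ := by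
    rw [← thg_mul, ← thg_mul, ← thg_mul, commutatorElement_def (⁅a, b⁆ : F n) c]
  have e2 : thg c * thg ⁅a, b⁆ * thg ⁅a, b⁆⁻¹ * thg c⁻¹ = (1 : thRR n) := by
    rw [← thg_mul, ← thg_mul, ← thg_mul, mul_inv_cancel_right, mul_inv_cancel, thg_one]
  rwa [e1, e2] at h2

/-! ### membership in `HH` -/

theorem mem_HH {α : A n} (h1 : ∀ k : Fin n, EE (thg (α (x k))) (thg (x k)))
    (h2 : α ∈ AA 3 n 4) : α ∈ HH n := by
  refine ⟨fun g => ?_, fun i k => ?_⟩
  · induction g using FreeGroup.induction_on with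
    | C1 => rw [map_one]; exact EE.refl _
    | of k => exact h1 k
    | inv_of k ih =>
      have : EE (thg (α (x k)⁻¹)) (thg (x k)⁻¹) := by
        rw [map_inv]
        exact inv_EE ih
      exact this
    | mul g h hg hh =>
      rw [map_mul, thg_mul, thg_mul]
      exact EE.mul hg hh
  · have key : ∀ w : List (Fin n), w.length < 3 →
        thnu w (thd i (α (x k)) - if k = i then 1 else 0) = 0 := by
      intro w hw
      rw [map_sub, ← thd_x, thnu_d, thnu_d, mu_eq_of_mul_inv_mem (h2 (x k)) (w := w ++ [i])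
        (by rw [List.length_append, List.length_singleton]; omega), sub_self]
    refine ⟨key [] (by simp), fun a => key [a] (by simp), fun a b => ?_⟩
    unfold tt2
    rw [key _ (by simp), key _ (by simp), sub_self]

/-- the words -/
noncomputable def u : F 4 := ⁅(x 2 : F 4), (x 3 : F 4)⁆
noncomputable def z : F 4 := ⁅u, x 1⁆
noncomputable def y : F 4 := (x 0)⁻¹ * x 1 * x 0
noncomputable def z' : F 4 := ⁅u, y⁆
noncomputable def θ : F 4 := ⁅z'⁻¹, x 0⁆

theorem u_mem (i : Fin 4) (h2 : (2 : Fin 4) ≠ i) (h3 : (3 : Fin 4) ≠ i) : u ∈ O i :=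
  comm_mem_O (x_mem_O h2) (x_mem_O h3)

theorem z_mem : z ∈ O 0 := comm_mem_O (u_mem 0 (by decide) (by decide)) (x_mem_O (by decide))

noncomputable def Az : A 4 := C 0 z
noncomputable def cz : A 4 := C 1 (x 0)
noncomputable def Bz : A 4 := cz * Az * cz⁻¹

theorem kap0_eq : kap0 = Az⁻¹ * Bz := by
  have h : kap0 = Az⁻¹ * cz * Az * cz⁻¹ := rfl
  rw [h]
  unfold Bz
  group

theorem Az_0 : Az (x 0) = z⁻¹ * x 0 * z := by
  unfold Az
  rw [C_apply_self, kill_of_mem z_mem]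

theorem Az_ne {k : Fin 4} (h : k ≠ 0) : Az (x k) = x k := C_apply_ne h _

theorem cz_1 : cz (x 1) = y := by
  unfold cz
  rw [C_apply_self, kill_of_mem (x_mem_O (by decide))]
  rfl

theorem cz_ne {k : Fin 4} (h : k ≠ 1) : cz (x k) = x k := C_apply_ne h _

theorem cz_u : cz u = u := C_apply_of_mem (u_mem 1 (by decide) (by decide)) _

theorem cz_z : cz z = z' := by
  unfold z z'
  rw [map_commutatorElement, cz_u, cz_1]

theorem czi_1 : cz⁻¹ (x 1) = x 0 * x 1 * (x 0)⁻¹ := by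
  have h : cz⁻¹ = C 1 (x 0)⁻¹ := by
    unfold cz
    rw [map_inv]
  rw [h, C_apply_self, kill_of_mem ((O 1).inv_mem (x_mem_O (by decide))), inv_inv]

theorem czi_ne {k : Fin 4} (h : k ≠ 1) : cz⁻¹ (x k) = x k := by
  have h' : cz⁻¹ = C 1 (x 0)⁻¹ := by
    unfold cz
    rw [map_inv]
  rw [h', C_apply_ne h]

theorem Bz_0 : Bz (x 0) = z'⁻¹ * x 0 * z' := by
  unfold Bz
  rw [MulAut.mul_apply, MulAut.mul_apply, czi_ne (by decide), Az_0, map_mul, map_mul, map_inv,
    cz_z, cz_ne (by decide)]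

theorem Bz_1 : Bz (x 1) = θ * x 1 * θ⁻¹ := by
  unfold Bz
  rw [MulAut.mul_apply, MulAut.mul_apply, czi_1]
  have e1 : Az (x 0 * x 1 * (x 0)⁻¹) = (z⁻¹ * x 0 * z) * x 1 * (z⁻¹ * x 0 * z)⁻¹ := by
    rw [map_mul, map_mul, map_inv, Az_0, Az_ne (show (1 : Fin 4) ≠ 0 by decide)]
  have e2 : cz ((z⁻¹ * x 0 * z) * x 1 * (z⁻¹ * x 0 * z)⁻¹) =
      (z'⁻¹ * x 0 * z') * y * (z'⁻¹ * x 0 * z')⁻¹ := by
    rw [map_mul, map_mul, map_inv, map_mul, map_mul, map_inv, cz_z,
      cz_ne (show (0 : Fin 4) ≠ 1 by decide), cz_1]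
  rw [e1, e2]
  unfold θ y
  rw [commutatorElement_def]
  group

theorem Bz_2 : Bz (x 2) = x 2 := by
  unfold Bz
  rw [MulAut.mul_apply, MulAut.mul_apply, czi_ne (by decide), Az_ne (by decide),
    cz_ne (by decide)]

theorem Bz_3 : Bz (x 3) = x 3 := by
  unfold Bz
  rw [MulAut.mul_apply, MulAut.mul_apply, czi_ne (by decide), Az_ne (by decide),
    cz_ne (by decide)]

theorem Az_AA : Az ∈ AA 3 4 4 := by
  refine C_mem_AA (k := 3) 0 ?_
  rw [kill_of_mem z_mem]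
  exact th_z_mem 2 3 1

theorem Bz_AA : Bz ∈ AA 3 4 4 := (AA_normal 3 4).conj_mem _ Az_AA _

theorem EE_conj_one {g h : F n} (e : EE (thg g) 1) : EE (thg (g⁻¹ * h * g)) (thg h) := by
  rw [← thg_one] at e
  have h1 := inv_EE e
  rw [inv_one] at h1
  have h2 := EE.mul (EE.mul h1 (EE.refl (thg h))) e
  rwa [← thg_mul, ← thg_mul, thg_one, one_mul, mul_one] at h2

theorem EE_inv_one {g : F n} (e : EE (thg g) 1) : EE (thg g⁻¹) 1 := by
  rw [← thg_one] at e
  have h1 := inv_EE e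
  rwa [inv_one, thg_one] at h1

theorem EE_z : EE (thg z) 1 := EE_comm_comm _ _ _
theorem EE_z' : EE (thg z') 1 := EE_comm_comm _ _ _

theorem EE_θ : EE (thg θ) 1 := by
  have e : θ = (z'⁻¹ * x 0 * z') * (x 0)⁻¹ := by
    unfold θ
    rw [commutatorElement_def, inv_inv]
  have h2 := EE.mul (EE_conj_one (h := x 0) EE_z') (EE.refl (thg (x 0)⁻¹))
  rwa [← thg_mul, ← thg_mul, mul_inv_cancel, thg_one, ← e] at h2

theorem Az_HH : Az ∈ HH 4 := by
  refine mem_HH (fun k => ?_) Az_AA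
  by_cases hk : k = 0
  · subst hk
    rw [Az_0]
    exact EE_conj_one EE_z
  · rw [Az_ne hk]
    exact EE.refl _

theorem Bz_HH : Bz ∈ HH 4 := by
  refine mem_HH (fun k => ?_) Bz_AA
  fin_cases k
  · show EE (thg (Bz (x 0))) (thg (x 0))
    rw [Bz_0]
    exact EE_conj_one EE_z'
  · show EE (thg (Bz (x 1))) (thg (x 1))
    rw [Bz_1]
    have := EE_conj_one (h := x 1) (EE_inv_one EE_θ)
    rwa [inv_inv] at this
  · show EE (thg (Bz (x 2))) (thg (x 2))
    rw [Bz_2]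
    exact EE.refl _
  · show EE (thg (Bz (x 3))) (thg (x 3))
    rw [Bz_3]
    exact EE.refl _

/-! ### the value -/

theorem thd_inv (j : Fin n) (g : F n) : thd j g⁻¹ = - (thg g⁻¹ * thd j g) := by
  have h := thd_mul j g⁻¹ g
  rw [inv_mul_cancel, thd_one] at h
  exact (neg_eq_of_add_eq_zero_left h.symm).symm

theorem thd_comm (j : Fin n) (a b : F n) : thd j ⁅a, b⁆ =
    (1 - thg (a * b * a⁻¹)) * thd j a + (thg a - thg ⁅a, b⁆) * thd j b := by
  rw [commutatorElement_def, thd_mul, thd_mul, thd_mul, thd_inv, thd_inv]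
  simp only [thg_mul]
  have e1 : thg a * thg b * (thg a⁻¹ * thd j a) = thg a * thg b * thg a⁻¹ * thd j a := by
    rw [mul_assoc (thg a * thg b)]
  noncomm_ring

theorem thd_u (i : Fin 4) (h2 : (2 : Fin 4) ≠ i) (h3 : (3 : Fin 4) ≠ i) : thd i u = 0 :=
  thd_O (u_mem i h2 h3)

theorem thd_z'_0 : thd 0 z' = (thg u - thg z') * (thg (x 0)⁻¹ * (thg (x 1) - 1)) := by
  have hy : thd 0 y = thg (x 0)⁻¹ * (thg (x 1) - 1) := by
    unfold y
    rw [thd_mul, thd_mul, thd_inv, thd_x, thd_x, if_pos rfl, if_neg (by decide), thg_mul]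
    noncomm_ring
  unfold z'
  rw [thd_comm, thd_u 0 (by decide) (by decide), mul_zero, zero_add, hy]

theorem thd_z'_1 : thd 1 z' = (thg u - thg z') * thg (x 0)⁻¹ := by
  have hy : thd 1 y = thg (x 0)⁻¹ := by
    unfold y
    rw [thd_mul, thd_mul, thd_inv, thd_x, thd_x, if_pos rfl, if_neg (by decide)]
    noncomm_ring
  unfold z'
  rw [thd_comm, thd_u 1 (by decide) (by decide), mul_zero, zero_add, hy]

theorem tt4_of_EE {r s : thRR n} (h : EE r s) (a b c d : Fin n) :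
    tt4 a b c d r = tt4 a b c d s := h.2.2.2.2 a b c d

theorem lam4_Az : lam4 Az = 0 := by
  unfold lam4
  rw [Fin.sum_univ_four]
  have h : ∀ k : Fin 4, k ≠ 0 → tt4 0 1 2 3 (thg (x k)⁻¹ * thd k (Az (x k))) = 0 := by
    intro k hk
    rw [Az_ne hk, thd_x, if_pos rfl, mul_one, tt4_xinv]
  rw [h 1 (by decide), h 2 (by decide), h 3 (by decide), Az_0, thd_mul, thd_mul,
    thd_O z_mem, thd_O ((O 0).inv_mem z_mem), thd_x, if_pos rfl, mul_one, mul_zero, zero_add,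
    add_zero (thg z⁻¹), tt4_of_EE (EE.mul (EE.refl (thg (x 0)⁻¹)) (EE_inv_one EE_z)), mul_one, tt4_xinv]
  ring

theorem EE_term0 : EE (thg (x 0)⁻¹ * thd 0 (Bz (x 0)))
    (thg (x 0)⁻¹ * (1 * (1 + (thg (x 0) - 1) *
      ((thg u - 1) * (thg (x 0)⁻¹ * (thg (x 1) - 1)))))) := by
  have e : thd 0 (Bz (x 0)) = thg z'⁻¹ * (1 + (thg (x 0) - 1) *
      ((thg u - thg z') * (thg (x 0)⁻¹ * (thg (x 1) - 1)))) := by
    rw [Bz_0, thd_mul, thd_mul, thd_inv, thd_x, if_pos rfl, ← thd_z'_0, thg_mul]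
    noncomm_ring
  rw [e]
  exact EE.mul (EE.refl _) (EE.mul (EE_inv_one EE_z') (EE.add (EE.refl _) (EE.mul (EE.refl _)
    (EE.mul (EE.sub (EE.refl _) EE_z') (EE.refl _)))))

theorem EE_term1 : EE (thg (x 1)⁻¹ * thd 1 (Bz (x 1)))
    (thg (x 1)⁻¹ * (1 + (1 - thg (x 1)) * ((1 - thg (x 0)) *
      (- (1 * ((thg u - 1) * thg (x 0)⁻¹)))))) := by
  have e : thd 1 (Bz (x 1)) = thg θ + (1 - thg (θ * x 1 * θ⁻¹)) *
      ((1 - thg (z'⁻¹ * x 0 * z')) * (0 - (thg z'⁻¹ * ((thg u - thg z') * thg (x 0)⁻¹)))) := by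
    have e2 : thd 1 θ = (1 - thg (z'⁻¹ * x 0 * z')) *
        (0 - (thg z'⁻¹ * ((thg u - thg z') * thg (x 0)⁻¹))) := by
      unfold θ
      rw [thd_comm, thd_x, if_neg (by decide), mul_zero, add_zero, inv_inv, thd_inv, thd_z'_1,
        zero_sub]
    rw [Bz_1, ← e2, thd_mul, thd_mul, thd_inv, thd_x, if_pos rfl]
    simp only [thg_mul]
    noncomm_ring
  rw [e]
  have e3 : (- (1 * ((thg u - 1) * thg (x 0)⁻¹)) : thRR 4) =
    0 - (1 * ((thg u - 1) * thg (x 0)⁻¹)) := by rw [zero_sub]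
  rw [e3]
  have hθ := EE_conj_one (h := x 1) (EE_inv_one EE_θ)
  rw [inv_inv] at hθ
  exact EE.mul (EE.refl _) (EE.add EE_θ (EE.mul (EE.sub (EE.refl _) hθ)
    (EE.mul (EE.sub (EE.refl _) (EE_conj_one EE_z')) (EE.sub (EE.refl _)
      (EE.mul (EE_inv_one EE_z') (EE.mul (EE.sub (EE.refl _) EE_z') (EE.refl _)))))))

theorem u1 (a : Fin 4) : thnu [a] (thg u) = 0 := c1_comm _ _ _

theorem u2 (a b : Fin 4) : tt2 a b (thg u) =
    2 * ((if a = 2 then 1 else 0) * (if b = 3 then 1 else 0) -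
      (if b = 2 then 1 else 0) * (if a = 3 then 1 else 0)) := by
  unfold u
  rw [tt2_comm, c1_x, c1_x, c1_x, c1_x]

theorem u3 (a b c : Fin 4) : tt3 a b c (thg u) = 0 := tt3_comm _ _ _ _ _

theorem val0 : tt4 0 1 2 3 (thg (x 0)⁻¹ * (1 * (1 + (thg (x 0) - 1) *
      ((thg u - 1) * (thg (x 0)⁻¹ * (thg (x 1) - 1)))) : thRR 4)) = -1 := by
  simp only [tt4_mul, tt3_mul, tt2_mul, thnu1, thnu0, tt4_add, tt3_add, tt2_add, map_add,
    tt4_sub, tt3_sub, tt2_sub, map_sub, tt4_one, tt3_one, tt2_one,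
    thnu_one (List.cons_ne_nil _ _), thnu_one_nil, c0_g, c1_x, c1_xinv, tt2_x, tt2_xinv, tt3_x,
    tt3_xinv, tt4_x, tt4_xinv, u1, u2, u3, mul_zero, zero_mul, sub_self, sub_zero, add_zero,
    zero_add, one_mul, mul_one]
  decide

theorem val1 : tt4 0 1 2 3 (thg (x 1)⁻¹ * (1 + (1 - thg (x 1)) * ((1 - thg (x 0)) *
      (- (1 * ((thg u - 1) * thg (x 0)⁻¹))))) : thRR 4) = -1 := by
  rw [← zero_sub (1 * ((thg u - 1) * thg (x 0)⁻¹))]
  simp only [tt4_mul, tt3_mul, tt2_mul, thnu1, thnu0, tt4_add, tt3_add, tt2_add, map_add,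
    tt4_sub, tt3_sub, tt2_sub, map_sub, map_zero, tt4_zero, tt3_zero, tt2_zero, tt4_one, tt3_one, tt2_one,
    thnu_one (List.cons_ne_nil _ _), thnu_one_nil, c0_g, c1_x, c1_xinv, tt2_x, tt2_xinv, tt3_x,
    tt3_xinv, tt4_x, tt4_xinv, u1, u2, u3, mul_zero, zero_mul, sub_self, sub_zero, add_zero,
    zero_add, one_mul, mul_one]
  decide

theorem lam4_Bz : lam4 Bz = -2 := by
  unfold lam4
  rw [Fin.sum_univ_four, Bz_2, Bz_3, thd_x, thd_x, if_pos rfl, if_pos rfl, mul_one, mul_one,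
    tt4_xinv, tt4_xinv, tt4_of_EE EE_term0, tt4_of_EE EE_term1, val0, val1]
  ring

end Theta4DAux

open Theta4DAux in
theorem kap0_mem_HH : kap0 ∈ HH 4 := by
  rw [kap0_eq]
  exact (HH 4).mul_mem ((HH 4).inv_mem Az_HH) Bz_HH

open Theta4DAux in
theorem lam4_kap0 : lam4 kap0 ≠ 0 := by
  have h1 : lam4 (1 : A 4) = 0 := by
    have := lam4_mul (HH 4).one_mem (HH 4).one_mem
    rw [mul_one] at this
    linear_combination -this
  have h2 := lam4_mul ((HH 4).inv_mem Az_HH) Az_HH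
  rw [inv_mul_cancel, h1, lam4_Az, add_zero] at h2
  rw [kap0_eq, lam4_mul ((HH 4).inv_mem Az_HH) Bz_HH, ← h2, lam4_Bz]
  decide

end Pool.Agent.CSP3
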