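import Pool.Agent.CSP3.Final
import Pool.Agent.CSP3.N4Lev
import Pool.Agent.CSP3.N4AA
import Pool.Agent.CSP3.Theta4C
import Pool.Agent.CSP3.Theta4D

/-!
# The assembly for `p = 3`, rank four
-/

set_option autoImplicit false

namespace Pool.Agent.CSP3

open scoped commutatorElement

/-- the normal subgroup generated by the cubes of the transvections and the `kap`'s -/
def NK : Subgroup (A 4) :=
  N0 4 ⊔ Subgroup.normalClosure {g | ∃ i j k l : Fin 4, i ≠ j ∧ i ≠ k ∧ i ≠ l ∧ j ≠ k ∧ j ≠ l ∧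
    k ≠ l ∧ g = kap i j ⁅x k, x l⁆}

instance NK_normal : NK.Normal := by
  unfold NK; infer_instance

theorem N0_le_NK : N0 4 ≤ NK := le_sup_left

theorem kap_mem_NK {i j k l : Fin 4} (hij : i ≠ j) (hik : i ≠ k) (hil : i ≠ l) (hjk : j ≠ k)
    (hjl : j ≠ l) (hkl : k ≠ l) : kap i j ⁅x k, x l⁆ ∈ NK :=
  (le_sup_right : _ ≤ NK)
    (Subgroup.subset_normalClosure ⟨i, j, k, l, hij, hik, hil, hjk, hjl, hkl, rfl⟩)

theorem kaps_le_AA5 : Subgroup.normalClosure {g | ∃ i j k l : Fin 4, i ≠ j ∧ i ≠ k ∧ i ≠ l ∧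
    j ≠ k ∧ j ≠ l ∧ k ≠ l ∧ g = kap i j ⁅x k, x l⁆} ≤ AA 3 4 5 := by
  refine Subgroup.normalClosure_le_normal ?_
  rintro _ ⟨i, j, k, l, _, _, _, _, _, _, rfl⟩
  exact kap_mem_AA i j k l

theorem NK_le_AA3 : NK ≤ AA 3 4 3 :=
  sup_le N0_le_AA (kaps_le_AA5.trans (AA_anti (by norm_num)))

theorem NC2_le_NK : NC 4 2 ≤ J3 4 ⊔ NK := by
  have hT := mk_cube N0_le_NK
  have hκ : ∀ i j k l : Fin 4, i ≠ j → i ≠ k → i ≠ l → j ≠ k → j ≠ l → k ≠ l →
      QuotientGroup.mk' NK (kap i j ⁅x k, x l⁆) = 1 := fun i j k l h1 h2 h3 h4 h5 h6 =>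
    (QuotientGroup.eq_one_iff _).mpr (kap_mem_NK h1 h2 h3 h4 h5 h6)
  have hnormal : (J3 4 ⊔ NK).Normal := by
    refine ⟨fun b hb α => ?_⟩
    have h2 : QuotientGroup.mk' NK b ∈ (J3 4).map (QuotientGroup.mk' NK) := by
      have : (J3 4 ⊔ NK).map (QuotientGroup.mk' NK) = (J3 4).map (QuotientGroup.mk' NK) := by
        rw [Subgroup.map_sup]
        refine sup_eq_left.mpr ?_
        rw [QuotientGroup.map_mk'_self]; exact bot_le
      rw [← this]
      exact Subgroup.mem_map_of_mem _ hb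
    obtain ⟨c, hc, hcb⟩ := h2
    have h3 := lev3_normal4 (QuotientGroup.mk' NK) hT hκ α hc
    refine mem_sup_of_mk ?_
    rw [map_mul, map_mul, ← hcb, ← map_mul, ← map_mul]
    exact h3
  refine sup_le (N0_le_NK.trans le_sup_right) (Subgroup.normalClosure_le_normal ?_)
  rintro _ ⟨i, w, hw, rfl⟩
  exact Subgroup.mem_sup_left (Subgroup.subset_closure ⟨i, w, hw, rfl⟩)

theorem lam3_NK {a b c : Fin 4} (hab : a ≠ b) (hac : a ≠ c) (hbc : b ≠ c) {α : A 4}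
    (ha : α ∈ NK) : lam3 a b c α = 0 := by
  unfold NK at ha
  obtain ⟨β, hβ, γ, hγ, rfl⟩ := Subgroup.mem_sup_of_normal_left.1 ha
  rw [lam3_add a b c (N0_le_AA hβ) (AA_anti (by norm_num) (kaps_le_AA5 hγ)),
    lam3_N0 hab hac hbc hβ, lam3_AA5 a b c (kaps_le_AA5 hγ), add_zero]

theorem step3K : AA 3 4 5 ≤ NK := by
  intro α hα
  have hn4 : 4 ≤ 4 := le_rfl
  have h1 : α ∈ J3 4 ⊔ NK := NC2_le_NK (step2 hn4 (AA_anti (by norm_num) hα))
  have h2 : α ∈ Subgroup.closure (Set.range (gg3 hn4)) ⊔ NK :=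
    (sup_le ((J3_le_closure hn4).trans (sup_le_sup le_rfl N0_le_NK)) le_sup_right) h1
  have hT := mk_cube N0_le_NK
  have hκ : ∀ i j k l : Fin 4, i ≠ j → i ≠ k → i ≠ l → j ≠ k → j ≠ l → k ≠ l →
      QuotientGroup.mk' NK (kap i j ⁅x k, x l⁆) = 1 := fun i j k l h1 h2 h3 h4 h5 h6 =>
    (QuotientGroup.eq_one_iff _).mpr (kap_mem_NK h1 h2 h3 h4 h5 h6)
  have hcm : ∀ a ∈ J3 4, ∀ b ∈ J3 4, ⁅a, b⁆ ∈ NK := fun a ha b hb =>
    comm_mem_of_commute (lev3_comm4 _ hT hκ (J2_le_J1 (J3_le_J2 ha)) hb)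
  refine dual (AA 3 4 3) NK NK_le_AA3 (gg3 hn4)
    (fun s => J2_le_AA3 (J3_le_J2 (gg3_mem_J3 hn4 s)))
    (fun s t => hcm _ (gg3_mem_J3 hn4 s) _ (gg3_mem_J3 hn4 t))
    (fun s => ?_) (fun s a => lam3 s.1.1 s.1.2.1 s.1.2.2 a)
    (fun s a ha b hb => lam3_add _ _ _ ha hb)
    (fun s a ha => lam3_NK s.2.1.ne (s.2.1.trans s.2.2).ne s.2.2.ne ha) (fun s t hst => ?_)
    (fun s => ?_) h2 (fun s => lam3_AA5 _ _ _ hα)
  · rw [← QuotientGroup.eq_one_iff]
    exact qC_cube (QuotientGroup.mk' NK) hT _ _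
  · obtain ⟨o1, o2, o3⟩ := out_spec hn4 t
    refine lam3_off s.2.1 s.2.2 t.2.1 t.2.2 ?_ o1 o2 o3
    intro h
    exact hst (Subtype.ext h)
  · obtain ⟨o1, o2, o3⟩ := out_spec hn4 s
    exact lam3_on s.2.1.ne (s.2.1.trans s.2.2).ne s.2.2.ne o1 o2 o3

theorem NK_le : NK ≤ Subgroup.zpowers kap0 ⊔ N0 4 := by
  have hT := mk_cube (le_refl (N0 4))
  have hmap : (Subgroup.zpowers kap0).map (QuotientGroup.mk' (N0 4)) =
      Subgroup.zpowers (QuotientGroup.mk' (N0 4) kap0) := MonoidHom.map_zpowers _ _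
  have hnormal : (Subgroup.zpowers kap0 ⊔ N0 4).Normal := by
    refine ⟨fun b hb α => ?_⟩
    have h2 : QuotientGroup.mk' (N0 4) b ∈ Subgroup.zpowers (QuotientGroup.mk' (N0 4) kap0) := by
      have : (Subgroup.zpowers kap0 ⊔ N0 4).map (QuotientGroup.mk' (N0 4)) =
          (Subgroup.zpowers kap0).map (QuotientGroup.mk' (N0 4)) := by
        rw [Subgroup.map_sup]
        refine sup_eq_left.mpr ?_
        rw [QuotientGroup.map_mk'_self]; exact bot_le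
      rw [← hmap, ← this]
      exact Subgroup.mem_map_of_mem _ hb
    refine mem_sup_of_mk ?_
    rw [hmap, map_mul, map_mul, map_inv]
    exact kap_normal (QuotientGroup.mk' (N0 4)) hT α h2
  refine sup_le le_sup_right (Subgroup.normalClosure_le_normal ?_)
  rintro _ ⟨i, j, k, l, h1, h2, h3, h4, h5, h6, rfl⟩
  refine mem_sup_of_mk ?_
  rw [hmap]
  exact kap_zpowers (QuotientGroup.mk' (N0 4)) hT h1 h2 h3 h4 h5 h6

theorem kap0_cube : kap0 ^ 3 ∈ N0 4 := by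
  rw [← QuotientGroup.eq_one_iff]
  exact kap_cube (QuotientGroup.mk' (N0 4)) (mk_cube (le_refl (N0 4))) (by decide) (by decide)
    (by decide) (by decide) (by decide) (by decide)

/-- **Theorem for `n = 4`** -/
theorem step4 : AA 3 4 6 ≤ N0 4 := by
  intro α hα
  have h1 : α ∈ Subgroup.zpowers kap0 ⊔ N0 4 := NK_le (step3K (AA_anti (by norm_num) hα))
  refine dual (S := Unit) (HH 4) (N0 4) N0_le_HH (fun _ => kap0) (fun _ => kap0_mem_HH)
    (fun _ _ => ?_) (fun _ => kap0_cube) (fun _ a => lam4 a) (fun _ a ha b hb => lam4_mul ha hb)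
    (fun _ a ha => lam4_N0 ha) (fun s t hst => absurd rfl hst) (fun _ => lam4_kap0) ?_
    (fun _ => lam4_AA6 hα)
  · rw [commutatorElement_self]; exact Subgroup.one_mem _
  · rw [Set.range_const, ← Subgroup.zpowers_eq_closure]; exact h1

/-- all ranks -/
theorem main_three' {n : ℕ} (hn : 3 ≤ n) (N : Subgroup (A n)) [N.Normal]
    (hT : ∀ i j : Fin n, i ≠ j → R i (x j) ^ 3 ∈ N) (hI : ∀ g : F n, MulAut.conj g ∈ N) :
    AA 3 n 6 ≤ N := by
  have h : n = 4 ∨ (n = 3 ∨ 5 ≤ n) := by omega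
  rcases h with rfl | h
  · refine step4.trans (Subgroup.normalClosure_le_normal ?_)
    rintro _ ⟨i, j, h, rfl⟩
    exact hT i j h
  · exact (AA_anti (by norm_num)).trans (main_three h N hT hI)

end Pool.Agent.CSP3
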