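import Pool.Agent.CSP3.N4Def

/-!
# The relations for `kap` in a quotient with `T ^ 3 = 1`; `kap` is central in rank four
-/

set_option autoImplicit false

namespace Pool.Agent.CSP3

open scoped commutatorElement

variable {n : ℕ}

open Lev3Aux

namespace N4

variable {Q : Type*} [Group Q] (q : A n →* Q)

theorem ci_eq (v y : F n) : ⁅v, v⁻¹ * y * v⁆ = ⁅y, v⁻¹⁆ := by
  rw [commutatorElement_def, commutatorElement_def]; group

section
variable (hT : ∀ i j : Fin n, i ≠ j → q (R i (x j)) ^ 3 = 1)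
include hT

theorem rels {i j : Fin n} (hij : i ≠ j) {w : F n} (hw : w ∈ gam n 1) (hi : w ∈ O i)
    (hj : w ∈ O j) :
    Rels (q (C i w)) (q (R j w)) (q (R j (x i))) (q (C j (x i))) (q (C i (x j)))
      (q (C i ⁅w, x j⁆)) (q (C j ⁅w, x i⁆)) (q (R j ⁅w, x i⁆)) := by
  have kC : ∀ a : Fin n, ∀ z, (q.comp (C a)) z ^ 3 = 1 := fun a z => qC_cube q hT a z
  have kR : ∀ a : Fin n, ∀ z, (q.comp (R a)) z ^ 3 = 1 := fun a z => qR_cube q hT a z
  have hCw : C i w ⁅w, x i⁆ = ⁅x i, w⁻¹⁆ := by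
    rw [map_commutatorElement, C_apply_of_mem hi, C_apply_self, kill_of_mem hi, ci_eq]
  refine ⟨?_, ?_, ?_, ?_, ?_, ?_, ?_, ?_, ?_, ?_, ?_, ?_, ?_, ?_, ?_, ?_, ?_, ?_⟩
  · -- r1
    have h1 := congrArg q (C_conj_C (i := j) (j := i) hij.symm hj (x i))
    rw [C_apply_self, kill_of_mem hi,
      show w⁻¹ * x i * w = x i * ⁅(x i)⁻¹, w⁻¹⁆ by rw [commutatorElement_def]; group] at h1
    have h2 : q (C j ⁅(x i)⁻¹, w⁻¹⁆) = (q (C j ⁅w, x i⁆))⁻¹ := by
      have e1 := he_inv_left (q.comp (C j)) (kC j) (x i) w⁻¹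
      have e2 := he_inv_right (q.comp (C j)) (kC j) (x i) w
      have e3 : (q.comp (C j)) ⁅(x i)⁻¹, w⁻¹⁆ = (q.comp (C j)) ⁅w, x i⁆⁻¹ := by
        rw [e1, e2, inv_inv, commutatorElement_inv]
      rw [map_inv] at e3
      exact e3
    rw [map_mul (C j), map_mul q (C j (x i)), h2] at h1
    simpa only [map_mul, map_inv] using h1
  · -- r2
    have h1 := congrArg q (C_def i (w * x j * w⁻¹))
    have h2 : C i w * C i (x j) * (C i w)⁻¹ = C i ⁅w, x j⁆ * C i (x j) := by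
      rw [← map_inv, ← map_mul, ← map_mul, ← map_mul]
      congr 1
      rw [commutatorElement_def]; group
    have h3 := congrArg q h2
    simpa only [map_mul, map_inv] using h3
  · exact he_comm_right (q.comp (C i)) (kC i) w (x j)
  · exact he_comm_right (q.comp (C j)) (kC j) w (x i)
  · exact (he_comm_left (q.comp (C i)) (kC i) w (x j)).symm
  · -- r6
    have h1 := congrArg q (C_conj_C (i := j) (j := i) hij.symm hj ⁅w, x i⁆)
    have h2 : q (C j ⁅x i, w⁻¹⁆) = q (C j ⁅w, x i⁆) := by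
      have e2 := he_inv_right (q.comp (C j)) (kC j) (x i) w
      rw [← map_inv, commutatorElement_inv] at e2
      exact e2
    rw [hCw, h2, map_mul, map_mul, map_inv] at h1
    exact of_conj h1
  · -- r7
    have h1 := congrArg q (C_conj_R (i := j) (j := i) hij.symm hj ⁅w, x i⁆)
    have h2 : q (R j ⁅x i, w⁻¹⁆) = q (R j ⁅w, x i⁆) := by
      have e2 := he_inv_right (q.comp (R j)) (kR j) (x i) w
      rw [← map_inv, commutatorElement_inv] at e2
      exact e2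
    rw [hCw, h2, map_mul, map_mul, map_inv] at h1
    exact of_conj h1
  · -- r9
    have h1 := congrArg q (R_conj_C_same j w (x i))
    have h2 : q (R j ⁅(x i)⁻¹, w⁆) = q (R j ⁅w, x i⁆) := by
      have e2 := he_inv_left (q.comp (R j)) (kR j) (x i) w
      rw [← map_inv, commutatorElement_inv] at e2
      exact e2
    rw [map_mul q (C j (x i)), h2] at h1
    simpa only [map_mul, map_inv] using h1
  · -- r10
    have h1 := congrArg q (R_conj_C (i := i) (j := j) hij hi (x j))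
    rw [R_apply_self, kill_of_mem hj] at h1
    simpa only [map_mul, map_inv] using h1
  · -- r11
    have h1 := congrArg q (C_conj_R_same j ⁅w, x i⁆ (x i))
    have h2 : q (R j (x i * ⁅w, x i⁆ * (x i)⁻¹)) = q (R j ⁅w, x i⁆) := by
      have e := he_comm_right (q.comp (R j)) (kR j) w (x i)
      have e3 : (q.comp (R j)) (x i * ⁅w, x i⁆ * (x i)⁻¹) = (q.comp (R j)) ⁅w, x i⁆ := by
        rw [map_mul, map_mul, map_inv, ← e.eq, mul_inv_cancel_right]
      exact e3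
    rw [h2, map_mul, map_mul, map_inv] at h1
    exact of_conj h1
  · -- r12
    have h1 := congrArg q (R_conj_C_same j ⁅w, x i⁆ ⁅w, x i⁆)
    have h2 : (⁅⁅w, x i⁆⁻¹, ⁅w, x i⁆⁆ : F n) = 1 := by
      rw [commutatorElement_def]; group
    rw [h2, map_one, mul_one, map_mul, map_mul, map_inv] at h1
    exact of_conj h1
  · -- r13
    have h1 := congrArg q (R_conj_C_same j (x i) (x i))
    have h2 : (⁅(x i)⁻¹, x i⁆ : F n) = 1 := by
      rw [commutatorElement_def]; group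
    rw [h2, map_one, mul_one, map_mul, map_mul, map_inv] at h1
    exact of_conj h1
  · -- r14
    have h1 := congrArg q (R_conj_C_loop' hij)
    simpa only [map_mul, map_inv] using h1
  · -- r15
    have h1 := congrArg q (R_conj_C_loop hij hi hj)
    simpa only [map_mul, map_inv] using h1
  · -- r16
    have h1 := congrArg q (R_conj_C_same j (x i) ⁅w, x i⁆)
    have h2 : q (R j ⁅⁅w, x i⁆⁻¹, x i⁆) = 1 := by
      have e := he_comm_right (q.comp (R j)) (kR j) w (x i)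
      have e3 : (q.comp (R j)) ⁅⁅w, x i⁆⁻¹, x i⁆ = 1 := by
        rw [map_commutatorElement, map_inv]
        exact commutatorElement_eq_one_iff_commute.mpr e.inv_left
      exact e3
    rw [map_mul q (C j ⁅w, x i⁆), h2, mul_one, map_mul, map_mul, map_inv] at h1
    exact of_conj h1
  · exact (qbase q hT hij).symm
  · exact qC_cube q hT j (x i)
  · exact qC_cube q hT j _

/-- **(L)** -/
theorem lemL {i j k : Fin n} (hij : i ≠ j) (hik : i ≠ k) (hjk : j ≠ k) {v : F n}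
    (hv : v ∈ gam n 1) (hvi : v ∈ O i) (hvk : v ∈ O k) :
    Commute (q (R k ⁅(x i)⁻¹, x j⁆)) (q (C i ⁅v, x k⁆)) := by
  have kC : ∀ a : Fin n, ∀ z, (q.comp (C a)) z ^ 3 = 1 := fun a z => qC_cube q hT a z
  have kR : ∀ a : Fin n, ∀ z, (q.comp (R a)) z ^ 3 = 1 := fun a z => qR_cube q hT a z
  have h0 := qloop q hT hik hij.symm hjk
  -- `C i v` moves `x i` by an element of `γ_3`
  have key : ∀ (ρ : F n →* Q) (_ : ∀ z, ρ z ^ 3 = 1) (y : F n), y ∈ O i →
      ρ (C i v ⁅(x i)⁻¹, y⁆) = ρ ⁅(x i)⁻¹, y⁆ := by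
    intro ρ hρ y hy
    have e1 : C i v ⁅(x i)⁻¹, y⁆ =
        ⁅(x i)⁻¹, ⁅⁅x i, v⁻¹⁆, y⁆⁆ * ⁅⁅x i, v⁻¹⁆, y⁆ * ⁅(x i)⁻¹, y⁆ := by
      rw [map_commutatorElement, C_apply_of_mem hy, map_inv, C_apply_self, kill_of_mem hvi]
      simp only [commutatorElement_def]; group
    have e2 : ⁅⁅x i, v⁻¹⁆, y⁆ ∈ gam n 3 :=
      gam_succ (gam_succ' _ (Subgroup.inv_mem _ hv)) _
    rw [e1, map_mul, map_mul, he_gamma4 ρ hρ e2, mul_one, map_commutatorElement,
      he_gamma4 ρ hρ e2, commutatorElement_one_right, one_mul]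
  have d1 : Commute (q (C i v)) (q (R k ⁅(x i)⁻¹, x j⁆)) := by
    have h1 := congrArg q (C_conj_R (i := k) (j := i) hik.symm hvk ⁅(x i)⁻¹, x j⁆)
    have h2 := key (q.comp (R k)) (kR k) (x j) (x_mem_O hij.symm)
    rw [show q (R k (C i v ⁅(x i)⁻¹, x j⁆)) = q (R k ⁅(x i)⁻¹, x j⁆) from h2, map_mul, map_mul,
      map_inv] at h1
    exact of_conj h1
  have d2 : Commute (q (C i v)) (q (C k ⁅(x i)⁻¹, (x j)⁻¹⁆)) := by
    have h1 := congrArg q (C_conj_C (i := k) (j := i) hik.symm hvk ⁅(x i)⁻¹, (x j)⁻¹⁆)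
    have h2 := key (q.comp (C k)) (kC k) (x j)⁻¹ ((O i).inv_mem (x_mem_O hij.symm))
    rw [show q (C k (C i v ⁅(x i)⁻¹, (x j)⁻¹⁆)) = q (C k ⁅(x i)⁻¹, (x j)⁻¹⁆) from h2, map_mul,
      map_mul, map_inv] at h1
    exact of_conj h1
  have e3 : q (C i ⁅v, x k⁆) = q (C i v) * q (C i (x k)) * (q (C i v))⁻¹ * (q (C i (x k)))⁻¹ := by
    rw [map_commutatorElement, map_commutatorElement, commutatorElement_def]
  rw [e3]
  generalize q (R k ⁅(x i)⁻¹, x j⁆) = r at *
  generalize q (C k ⁅(x i)⁻¹, (x j)⁻¹⁆) = d at *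
  generalize q (C i (x k)) = c at *
  generalize q (C i v) = D at *
  have f1 : r * D * r⁻¹ = D := by rw [← d1.eq, mul_inv_cancel_right]
  have f2 : d * D⁻¹ * d⁻¹ = D⁻¹ := by rw [d2.inv_left.symm.eq, mul_inv_cancel_right]
  refine of_conj ?_
  calc r * (D * c * D⁻¹ * c⁻¹) * r⁻¹ = (r * D * r⁻¹) * (r * c * r⁻¹) * (r * D * r⁻¹)⁻¹ *
        (r * c * r⁻¹)⁻¹ := by group
    _ = D * (c * d) * D⁻¹ * (c * d)⁻¹ := by rw [f1, h0]
    _ = D * c * (d * D⁻¹ * d⁻¹) * c⁻¹ := by group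
    _ = _ := by rw [f2]

end

end N4

end Pool.Agent.CSP3
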