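import Pool.Agent.CSP3.N4C

/-!
# `kap` in rank four: signs, alternation, normality
-/

set_option autoImplicit false

namespace Pool.Agent.CSP3

open scoped commutatorElement

variable {n : ℕ}

open Lev3Aux

namespace N4

theorem sg_conj_C {i j : Fin n} (h : i ≠ j) (w : F n) :
    sg j * C i w * (sg j)⁻¹ = C i (sg j w) := sg_conj_tv h w w

section signs

variable {Q : Type*} [Group Q] (q : A n →* Q)
variable (hT : ∀ i j : Fin n, i ≠ j → q (R i (x j)) ^ 3 = 1)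
include hT

omit hT in
theorem he_neg_first {G : Type*} [Group G] (ρ : F n →* G) (h : ∀ w, ρ w ^ 3 = 1) (a c d : F n) :
    ρ ⁅⁅a⁻¹, c⁆, d⁆ = (ρ ⁅⁅a, c⁆, d⁆)⁻¹ := by
  have e := he_add_first ρ h a a⁻¹ c d
  rw [mul_inv_cancel, commutatorElement_one_left, commutatorElement_one_left, map_one] at e
  exact eq_inv_of_mul_eq_one_right e.symm

theorem sg_i {i j k l : Fin n} (d : Dst i j k l) :
    q (sg i) * q (kap i j ⁅x k, x l⁆) * (q (sg i))⁻¹ = (q (kap i j ⁅x k, x l⁆))⁻¹ := by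
  rw [q_kap, kp_conj]
  have h1 : q (sg i) * q (C i ⁅⁅x k, x l⁆, x j⁆) * (q (sg i))⁻¹ = q (C i ⁅⁅x k, x l⁆, x j⁆) := by
    rw [← map_inv, ← map_mul, ← map_mul, sg_conj_C_same]
  have h2 : q (sg i) * q (C j (x i)) * (q (sg i))⁻¹ = (q (C j (x i)))⁻¹ := by
    rw [← map_inv, ← map_mul, ← map_mul, sg_conj_C d.ij.symm, sg_self, map_inv, map_inv]
  rw [h1, h2]
  exact (relsK q hT d).s15

theorem sg_j {i j k l : Fin n} (d : Dst i j k l) :
    q (sg j) * q (kap i j ⁅x k, x l⁆) * (q (sg j))⁻¹ = (q (kap i j ⁅x k, x l⁆))⁻¹ := by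
  have kC : ∀ a : Fin n, ∀ z, (q.comp (C a)) z ^ 3 = 1 := fun a z => qC_cube q hT a z
  rw [q_kap, kp_conj]
  have h1 : q (sg j) * q (C i ⁅⁅x k, x l⁆, x j⁆) * (q (sg j))⁻¹ =
      (q (C i ⁅⁅x k, x l⁆, x j⁆))⁻¹ := by
    have h3 : sg j ⁅⁅x k, x l⁆, x j⁆ = ⁅⁅x k, x l⁆, (x j)⁻¹⁆ := by
      rw [map_commutatorElement, map_commutatorElement, sg_self, sg_ne d.jk.symm, sg_ne d.jl.symm]
    rw [← map_inv, ← map_mul, ← map_mul, sg_conj_C d.ij, h3]
    exact he_inv_right (q.comp (C i)) (kC i) _ _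
  have h2 : q (sg j) * q (C j (x i)) * (q (sg j))⁻¹ = q (C j (x i)) := by
    rw [← map_inv, ← map_mul, ← map_mul, sg_conj_C_same]
  rw [h1, h2]
  exact (relsK q hT d).s16

theorem sg_k {i j k l : Fin n} (d : Dst i j k l) :
    q (sg k) * q (kap i j ⁅x k, x l⁆) * (q (sg k))⁻¹ = (q (kap i j ⁅x k, x l⁆))⁻¹ := by
  have kC : ∀ a : Fin n, ∀ z, (q.comp (C a)) z ^ 3 = 1 := fun a z => qC_cube q hT a z
  rw [q_kap, kp_conj]
  have h1 : q (sg k) * q (C i ⁅⁅x k, x l⁆, x j⁆) * (q (sg k))⁻¹ =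
      (q (C i ⁅⁅x k, x l⁆, x j⁆))⁻¹ := by
    have h3 : sg k ⁅⁅x k, x l⁆, x j⁆ = ⁅⁅(x k)⁻¹, x l⁆, x j⁆ := by
      rw [map_commutatorElement, map_commutatorElement, sg_self, sg_ne d.jk, sg_ne d.kl.symm]
    rw [← map_inv, ← map_mul, ← map_mul, sg_conj_C d.ik, h3]
    exact he_neg_first (q.comp (C i)) (kC i) _ _ _
  have h2 : q (sg k) * q (C j (x i)) * (q (sg k))⁻¹ = q (C j (x i)) := by
    rw [← map_inv, ← map_mul, ← map_mul, sg_conj_C d.jk, sg_ne d.ik]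
  rw [h1, h2]
  exact (relsK q hT d).s16

theorem sg_l {i j k l : Fin n} (d : Dst i j k l) :
    q (sg l) * q (kap i j ⁅x k, x l⁆) * (q (sg l))⁻¹ = (q (kap i j ⁅x k, x l⁆))⁻¹ := by
  have h1 := sg_k q hT d.s34
  rw [K_34 q hT d, inv_inv] at h1
  calc q (sg l) * q (kap i j ⁅x k, x l⁆) * (q (sg l))⁻¹ =
      (q (sg l) * (q (kap i j ⁅x k, x l⁆))⁻¹ * (q (sg l))⁻¹)⁻¹ := by group
    _ = _ := by rw [h1]

end signs

/-- all four indices of `Fin 4` -/
theorem Dst.all {i j k l : Fin 4} (d : Dst i j k l) (a : Fin 4) : a = i ∨ a = j ∨ a = k ∨ a = l := by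
  obtain ⟨h1, h2, h3, h4, h5, h6⟩ := d
  omega

section four

variable {Q : Type*} [Group Q] (q : A 4 →* Q)
variable (hT : ∀ i j : Fin 4, i ≠ j → q (R i (x j)) ^ 3 = 1)
include hT

theorem K_sg {i j k l : Fin 4} (d : Dst i j k l) (m : Fin 4) :
    q (sg m) * q (kap i j ⁅x k, x l⁆) * (q (sg m))⁻¹ = (q (kap i j ⁅x k, x l⁆))⁻¹ := by
  rcases d.all m with rfl | rfl | rfl | rfl
  · exact sg_i q hT d
  · exact sg_j q hT d
  · exact sg_k q hT d
  · exact sg_l q hT d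

theorem K_Rx {i j k l : Fin 4} (d : Dst i j k l) (a b : Fin 4) :
    Commute (q (R a (x b))) (q (kap i j ⁅x k, x l⁆)) := by
  by_cases h : a = b
  · subst h; rw [R_self, map_one]; exact Commute.one_left _
  · exact K_R q hT d h (d.all a) (d.all b)

omit hT in
theorem comm_hom {G : Type*} [Group G] (f : F 4 →* G) {g : G} (h : ∀ b, Commute (f (x b)) g)
    (w : F 4) : Commute (f w) g := by
  induction w using FreeGroup.induction_on with
  | C1 => rw [map_one]; exact Commute.one_left _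
  | of b => exact h b
  | inv_of b hb => rw [map_inv]; exact hb.inv_left
  | mul u v hu hv => rw [map_mul]; exact hu.mul_left hv

theorem K_Rw {i j k l : Fin 4} (d : Dst i j k l) (a : Fin 4) (w : F 4) :
    Commute (q (R a w)) (q (kap i j ⁅x k, x l⁆)) :=
  comm_hom (q.comp (R a)) (fun b => K_Rx q hT d a b) w

theorem K_Lw {i j k l : Fin 4} (d : Dst i j k l) (a : Fin 4) (w : F 4) :
    Commute (q (L a w)) (q (kap i j ⁅x k, x l⁆)) := by
  have h1 := K_Rw q hT d a w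
  have h2 := K_sg q hT d a
  rw [← sg_conj_R_same, map_mul, map_mul, map_inv]
  have h3 : (q (sg a))⁻¹ * q (kap i j ⁅x k, x l⁆) * q (sg a) = (q (kap i j ⁅x k, x l⁆))⁻¹ := by
    have h4 := h2
    rw [← map_inv, sg_inv] at h4 ⊢
    exact h4
  refine of_conj ?_
  calc q (sg a) * q (R a w) * (q (sg a))⁻¹ * q (kap i j ⁅x k, x l⁆) *
        (q (sg a) * q (R a w) * (q (sg a))⁻¹)⁻¹ =
        q (sg a) * (q (R a w) * ((q (sg a))⁻¹ * q (kap i j ⁅x k, x l⁆) * q (sg a))) *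
          (q (R a w))⁻¹ * (q (sg a))⁻¹ := by group
    _ = q (sg a) * ((q (kap i j ⁅x k, x l⁆))⁻¹ * q (R a w)) * (q (R a w))⁻¹ * (q (sg a))⁻¹ := by
        rw [h3, h1.inv_right.eq]
    _ = (q (sg a) * q (kap i j ⁅x k, x l⁆) * (q (sg a))⁻¹)⁻¹ := by group
    _ = _ := by rw [h2, inv_inv]

theorem K_Cw {i j k l : Fin 4} (d : Dst i j k l) (a : Fin 4) (w : F 4) :
    Commute (q (C a w)) (q (kap i j ⁅x k, x l⁆)) := by
  rw [C_eq, map_mul]
  exact (K_Lw q hT d a w).mul_left (K_Rw q hT d a w)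

omit hT in
theorem E_aux {G : Type*} [Group G] {Y Z V fi fj fk κ κ1 κ2 : G}
    (h1 : Y * fi * Y⁻¹ = fi * fj * κ⁻¹) (h2 : Commute Y fj) (h3 : Commute Z fi)
    (h4 : Z * fj * Z⁻¹ = fj * fk * κ1⁻¹) (h5 : Commute Z fk) (h6 : Commute Y fk)
    (h7 : V * fi * V⁻¹ = fi * fk⁻¹ * κ2⁻¹) (h8 : V = Z⁻¹ * Y * Z * Y⁻¹) (h9 : Commute fj fk)
    (c1 : Commute Y κ) (c2 : Commute Z κ) (c3 : Commute fj κ) (c4 : Commute fk κ)
    (d1 : Commute Y κ1) (d2 : Commute Z κ1) (d3 : Commute fj κ1) (d4 : Commute fk κ1)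
    (d5 : Commute κ κ1) :
    κ1 = κ2⁻¹ := by
  have e1 : Y⁻¹ * fi * Y = fi * fj⁻¹ * κ := by
    have a1 : fi = (Y⁻¹ * fi * Y) * fj * κ⁻¹ := by
      calc fi = Y⁻¹ * (Y * fi * Y⁻¹) * Y := by group
        _ = Y⁻¹ * (fi * fj * κ⁻¹) * Y := by rw [h1]
        _ = Y⁻¹ * fi * (fj * (κ⁻¹ * Y)) := by group
        _ = Y⁻¹ * fi * (fj * (Y * κ⁻¹)) := by rw [c1.inv_right.eq]
        _ = Y⁻¹ * fi * (fj * Y) * κ⁻¹ := by group
        _ = Y⁻¹ * fi * (Y * fj) * κ⁻¹ := by rw [h2.eq]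
        _ = _ := by group
    calc Y⁻¹ * fi * Y = ((Y⁻¹ * fi * Y) * fj * κ⁻¹) * (κ * fj⁻¹) := by group
      _ = fi * (κ * fj⁻¹) := by rw [← a1]
      _ = fi * (fj⁻¹ * κ) := by rw [c3.inv_left.eq]
      _ = _ := by group
  have e2 : Z * (fi * fj⁻¹ * κ) * Z⁻¹ = fi * (fj * fk * κ1⁻¹)⁻¹ * κ := by
    calc Z * (fi * fj⁻¹ * κ) * Z⁻¹ = (Z * fi * Z⁻¹) * (Z * fj * Z⁻¹)⁻¹ * (Z * κ * Z⁻¹) := by group
      _ = _ := by rw [h4, h3.eq, c2.eq, mul_inv_cancel_right, mul_inv_cancel_right]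
  have e3 : Y * (fi * (fj * fk * κ1⁻¹)⁻¹ * κ) * Y⁻¹ = fi * fk⁻¹ * κ1 := by
    calc Y * (fi * (fj * fk * κ1⁻¹)⁻¹ * κ) * Y⁻¹ =
          (Y * fi * Y⁻¹) * (Y * κ1 * Y⁻¹) * (Y * fk * Y⁻¹)⁻¹ * (Y * fj * Y⁻¹)⁻¹ *
            (Y * κ * Y⁻¹) := by group
      _ = (fi * fj * κ⁻¹) * κ1 * fk⁻¹ * fj⁻¹ * κ := by
          rw [h1, d1.eq, h6.eq, h2.eq, c1.eq, mul_inv_cancel_right, mul_inv_cancel_right,
            mul_inv_cancel_right, mul_inv_cancel_right]
      _ = fi * fj * κ⁻¹ * κ1 * fk⁻¹ * (fj⁻¹ * κ) := by group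
      _ = fi * fj * κ⁻¹ * κ1 * fk⁻¹ * (κ * fj⁻¹) := by rw [c3.inv_left.eq]
      _ = fi * fj * κ⁻¹ * κ1 * (fk⁻¹ * κ) * fj⁻¹ := by group
      _ = fi * fj * κ⁻¹ * κ1 * (κ * fk⁻¹) * fj⁻¹ := by rw [c4.inv_left.eq]
      _ = fi * fj * κ⁻¹ * (κ1 * κ) * fk⁻¹ * fj⁻¹ := by group
      _ = fi * fj * κ⁻¹ * (κ * κ1) * fk⁻¹ * fj⁻¹ := by rw [d5.eq]
      _ = fi * fj * κ1 * (fk⁻¹ * fj⁻¹) := by group
      _ = fi * fj * κ1 * (fj⁻¹ * fk⁻¹) := by rw [h9.inv_inv.eq]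
      _ = fi * (fj * κ1) * fj⁻¹ * fk⁻¹ := by group
      _ = fi * (κ1 * fj) * fj⁻¹ * fk⁻¹ := by rw [d3.eq]
      _ = fi * (κ1 * fk⁻¹) := by group
      _ = fi * (fk⁻¹ * κ1) := by rw [d4.inv_left.eq]
      _ = _ := by group
  have e4 : Z⁻¹ * (fi * fk⁻¹ * κ1) * Z = fi * fk⁻¹ * κ1 := by
    have : Commute Z (fi * fk⁻¹ * κ1) := (h3.mul_right h5.inv_right).mul_right d2
    rw [this.inv_left.eq, inv_mul_cancel_right]
  have e5 : V * fi * V⁻¹ = fi * fk⁻¹ * κ1 := by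
    calc V * fi * V⁻¹ = Z⁻¹ * (Y * (Z * (Y⁻¹ * fi * Y) * Z⁻¹) * Y⁻¹) * Z := by
          rw [h8]; group
      _ = _ := by rw [e1, e2, e3, e4]
  rw [h7] at e5
  exact (mul_left_cancel e5).symm

/-- **(E)** -/
theorem K_14 {i j k l : Fin 4} (d : Dst i j k l) :
    q (kap j k ⁅x l, x i⁆) = (q (kap i k ⁅x l, x j⁆))⁻¹ := by
  have kC : ∀ a : Fin 4, ∀ z, (q.comp (C a)) z ^ 3 = 1 := fun a z => qC_cube q hT a z
  have djk : Dst j k l i := ⟨d.jk, d.jl, d.ij.symm, d.kl, d.ik.symm, d.il.symm⟩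
  have dik : Dst i k l j := ⟨d.ik, d.il, d.ij, d.kl, d.jk.symm, d.jl.symm⟩
  have r1 := relsK q hT d
  have r2 := relsK q hT djk
  have r3 := relsK q hT dik
  -- identifications
  have i1 : q (C j ⁅⁅x l, x i⁆, x k⁆) = q (C j ⁅⁅x k, x l⁆, x i⁆) :=
    (he_cyc (q.comp (C j)) (kC j) (x k) (x l) (x i)).symm
  have i2 : q (C i ⁅⁅x l, x j⁆, x k⁆) = q (C i ⁅⁅x k, x l⁆, x j⁆) :=
    (he_cyc (q.comp (C i)) (kC i) (x k) (x l) (x j)).symm
  have i3 : q (C k ⁅⁅x l, x j⁆, x i⁆) = (q (C k ⁅⁅x l, x i⁆, x j⁆))⁻¹ :=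
    he_swap (q.comp (C k)) (kC k) (x l) (x i) (x j)
  have g1 := r1.s13
  have g2 := r2.s13
  have g3 := r3.s13
  rw [← q_kap] at g1 g2 g3
  rw [i1] at g2
  rw [i2, i3] at g3
  refine E_aux g1 (R_fix q hT j i (comm3_mem _ _ _)) ?_ g2 (R_fix q hT k j (comm3_mem _ _ _)) ?_
    g3 ?_ ?_ (K_Rw q hT d j _) (K_Rw q hT d k _) (K_Cw q hT d j _) (K_Cw q hT d k _)
    (K_Rw q hT djk j _) (K_Rw q hT djk k _) (K_Cw q hT djk j _) (K_Cw q hT djk k _) ?_
  · -- `R k (x j)` and `C i`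
    have h1 := congrArg q (R_conj_C (i := i) (j := k) d.ik (x_mem_O d.ij.symm) ⁅⁅x k, x l⁆, x j⁆)
    have h2 : R k (x j) ⁅⁅x k, x l⁆, x j⁆ =
        ⁅⁅x k * x j, x l⁆, x j⁆ := by
      rw [map_commutatorElement, map_commutatorElement, R_apply_self, R_apply_ne d.kl.symm,
        R_apply_ne d.jk, kill_ne d.jk]
    have h3 : q (C i ⁅⁅x k * x j, x l⁆, x j⁆) = q (C i ⁅⁅x k, x l⁆, x j⁆) := by
      have e := he_add_first (q.comp (C i)) (kC i) (x k) (x j) (x l) (x j)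
      have e2 : (q.comp (C i)) ⁅⁅x j, x l⁆, x j⁆ = 1 := by
        rw [map_commutatorElement]
        exact commutatorElement_eq_one_iff_commute.mpr
          (he_comm_left (q.comp (C i)) (kC i) _ _)
      rw [e2, mul_one] at e
      exact e
    rw [h2, h3, map_mul, map_mul, map_inv] at h1
    exact of_conj h1
  · -- `R j (x i)` and `C k ⁅⁅x l, x i⁆, x j⁆`
    have h1 := congrArg q (R_conj_C (i := k) (j := j) d.jk.symm (x_mem_O d.ik)
      ⁅⁅x l, x i⁆, x j⁆)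
    have h2 : R j (x i) ⁅⁅x l, x i⁆, x j⁆ = ⁅⁅x l, x i⁆, x j * x i⁆ := by
      rw [map_commutatorElement, map_commutatorElement, R_apply_self, R_apply_ne d.jl.symm,
        R_apply_ne d.ij, kill_ne d.ij]
    have h3 : q (C k ⁅⁅x l, x i⁆, x j * x i⁆) = q (C k ⁅⁅x l, x i⁆, x j⁆) := by
      have e := he_add_last (q.comp (C k)) (kC k) (x l) (x i) (x j) (x i)
      have e2 : (q.comp (C k)) ⁅⁅x l, x i⁆, x i⁆ = 1 := by
        rw [map_commutatorElement]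
        exact commutatorElement_eq_one_iff_commute.mpr
          (he_comm_right (q.comp (C k)) (kC k) _ _)
      rw [e2, mul_one] at e
      exact e
    rw [h2, h3, map_mul, map_mul, map_inv] at h1
    exact of_conj h1
  · -- the Steinberg relation
    have h1 := congrArg q (R_conj_R (i := k) (j := j) d.jk.symm (x_mem_O d.ik) (x j))
    rw [R_apply_self, kill_ne d.ij, map_mul q (R j (x i) * _), map_mul q (R j (x i)), map_mul (R k),
      map_mul q (R k (x j)), map_inv] at h1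
    calc q (R k (x i)) = (q (R k (x j)))⁻¹ * (q (R k (x j)) * q (R k (x i))) := by group
      _ = _ := by rw [← h1]; group
  · -- `fj`, `fk`
    have := r2.s3
    rwa [i1] at this
  · -- `κ`, `κ1`
    have h1 : Commute (q (C j ⁅⁅x l, x i⁆, x k⁆)) (q (kap i j ⁅x k, x l⁆)) := K_Cw q hT d j _
    have h2 : Commute (q (C k (x j))) (q (kap i j ⁅x k, x l⁆)) := K_Cw q hT d k _
    rw [q_kap q j k]
    unfold kp
    exact (((h1.inv_left.mul_left h2).mul_left h1).mul_left h2.inv_left).symm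

omit hT in
theorem perm_closed {P : Fin 4 → Fin 4 → Fin 4 → Fin 4 → Prop}
    (h12 : ∀ i j k l, Dst i j k l → P i j k l → P j i k l)
    (h34 : ∀ i j k l, Dst i j k l → P i j k l → P i j l k)
    (h14 : ∀ i j k l, Dst i j k l → P i j k l → P l j k i) (h0 : P 0 1 2 3) :
    ∀ i j k l, Dst i j k l → P i j k l := by
  have h13 : ∀ i j k l, Dst i j k l → P i j k l → P k j i l := by
    intro i j k l d h
    have a := h14 _ _ _ _ d h
    have d1 : Dst l j k i := ⟨d.jl.symm, d.kl.symm, d.il.symm, d.jk, d.ij.symm, d.ik.symm⟩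
    have b := h34 _ _ _ _ d1 a
    exact h14 _ _ _ _ d1.s34 b
  -- `l = 3`, `k = 2`
  have s1 : ∀ i j, Dst i j 2 3 → P i j 2 3 := by
    intro i j d
    have h := d.ij; have h1 := d.ik; have h2 := d.il; have h3 := d.jk; have h4 := d.jl
    have h5 : (i = 0 ∧ j = 1) ∨ (i = 1 ∧ j = 0) := by omega
    rcases h5 with ⟨rfl, rfl⟩ | ⟨rfl, rfl⟩
    · exact h0
    · exact h12 _ _ _ _ d.s12 h0
  have s2 : ∀ i j k, Dst i j k 3 → P i j k 3 := by
    intro i j k d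
    have h := d.ij; have h1 := d.ik; have h2 := d.il; have h3 := d.jk; have h4 := d.jl
    have h6 := d.kl
    have h5 : i = 2 ∨ j = 2 ∨ k = 2 := by omega
    rcases h5 with rfl | rfl | rfl
    · have d1 : Dst k j 2 3 := ⟨d.jk.symm, d.ik.symm, d.kl, d.ij.symm, d.jl, d.il⟩
      exact h13 _ _ _ _ d1 (s1 _ _ d1)
    · have d1 : Dst k i 2 3 := ⟨d.ik.symm, d.jk.symm, d.kl, d.ij, d.il, d.jl⟩
      exact h12 _ _ _ _ d.s12 (h13 _ _ _ _ d1 (s1 _ _ d1))
    · exact s1 _ _ d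
  intro i j k l d
  have h := d.ij; have h1 := d.ik; have h2 := d.il; have h3 := d.jk; have h4 := d.jl
  have h6 := d.kl
  have h5 : i = 3 ∨ j = 3 ∨ k = 3 ∨ l = 3 := by omega
  rcases h5 with rfl | rfl | rfl | rfl
  · have d1 : Dst l j k 3 := ⟨d.jl.symm, d.kl.symm, d.il.symm, d.jk, d.ij.symm, d.ik.symm⟩
    exact h14 _ _ _ _ d1 (s2 _ _ _ d1)
  · have d1 : Dst l i k 3 := ⟨d.il.symm, d.kl.symm, d.jl.symm, d.ik, d.ij, d.jk.symm⟩
    exact h12 _ _ _ _ d.s12 (h14 _ _ _ _ d1 (s2 _ _ _ d1))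
  · exact h34 _ _ _ _ d.s34 (s2 _ _ _ d.s34)
  · exact s2 _ _ _ d

theorem K_zpowers {i j k l : Fin 4} (d : Dst i j k l) :
    q (kap i j ⁅x k, x l⁆) ∈ Subgroup.zpowers (q kap0) := by
  refine perm_closed (P := fun i j k l => q (kap i j ⁅x k, x l⁆) ∈ Subgroup.zpowers (q kap0))
    ?_ ?_ ?_ (Subgroup.mem_zpowers _) i j k l d
  · intro i j k l d h
    show q (kap j i ⁅x k, x l⁆) ∈ _
    rw [K_12 q hT d]; exact Subgroup.inv_mem _ h
  · intro i j k l d h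
    show q (kap i j ⁅x l, x k⁆) ∈ _
    rw [K_34 q hT d]; exact Subgroup.inv_mem _ h
  · intro i j k l d h
    show q (kap l j ⁅x k, x i⁆) ∈ _
    have d1 : Dst i l j k := ⟨d.il, d.ij, d.ik, d.jl.symm, d.kl.symm, d.jk⟩
    rw [K_14 q hT d1]; exact Subgroup.inv_mem _ h

end four

end N4

open N4

section
variable {Q : Type*} [Group Q] (q : A 4 →* Q)
  (hT : ∀ i j : Fin 4, i ≠ j → q (R i (x j)) ^ 3 = 1)
include hT

theorem kap_cube {i j k l : Fin 4} (hij : i ≠ j) (hik : i ≠ k) (hil : i ≠ l) (hjk : j ≠ k)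
    (hjl : j ≠ l) (hkl : k ≠ l) : q (kap i j ⁅x k, x l⁆) ^ 3 = 1 :=
  K_cube q hT ⟨hij, hik, hil, hjk, hjl, hkl⟩

theorem kap_zpowers {i j k l : Fin 4} (hij : i ≠ j) (hik : i ≠ k) (hil : i ≠ l) (hjk : j ≠ k)
    (hjl : j ≠ l) (hkl : k ≠ l) : q (kap i j ⁅x k, x l⁆) ∈ Subgroup.zpowers (q kap0) :=
  K_zpowers q hT ⟨hij, hik, hil, hjk, hjl, hkl⟩

omit hT in
theorem d0123 : Dst (0 : Fin 4) 1 2 3 := by constructor <;> decide

theorem kap_normal (α : A 4) {y : Q} (hy : y ∈ Subgroup.zpowers (q kap0)) :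
    q α * y * (q α)⁻¹ ∈ Subgroup.zpowers (q kap0) := by
  have pw : ∀ (g : Q), g * q kap0 * g⁻¹ ∈ Subgroup.zpowers (q kap0) →
      ∀ y ∈ Subgroup.zpowers (q kap0), g * y * g⁻¹ ∈ Subgroup.zpowers (q kap0) := by
    rintro g hg y ⟨m, rfl⟩
    show g * q kap0 ^ m * g⁻¹ ∈ _
    rw [← conj_zpow]
    exact Subgroup.zpow_mem _ hg m
  let H : Subgroup (A 4) :=
    { carrier := {α | ∀ y ∈ Subgroup.zpowers (q kap0),
        q α * y * (q α)⁻¹ ∈ Subgroup.zpowers (q kap0) ∧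
        (q α)⁻¹ * y * q α ∈ Subgroup.zpowers (q kap0)}
      one_mem' := fun y hy => by simpa using hy
      mul_mem' := fun {u v} hu hv y hy => by
        constructor
        · have : q (u * v) * y * (q (u * v))⁻¹ = q u * (q v * y * (q v)⁻¹) * (q u)⁻¹ := by
            rw [map_mul]; group
          rw [this]; exact (hu _ (hv _ hy).1).1
        · have : (q (u * v))⁻¹ * y * q (u * v) = (q v)⁻¹ * ((q u)⁻¹ * y * q u) * q v := by
            rw [map_mul]; group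
          rw [this]; exact (hv _ (hu _ hy).2).2
      inv_mem' := fun {u} hu y hy => by
        constructor
        · rw [map_inv, inv_inv]; exact (hu y hy).2
        · rw [map_inv, inv_inv]; exact (hu y hy).1 }
  have hcomm : ∀ g : A 4, Commute (q g) (q kap0) → g ∈ H := by
    intro g hg y hy
    refine ⟨pw _ ?_ y hy, ?_⟩
    · rw [hg.eq, mul_inv_cancel_right]; exact Subgroup.mem_zpowers _
    · have := pw (q g)⁻¹ (by
        rw [hg.inv_left.eq, mul_inv_cancel_right]; exact Subgroup.mem_zpowers _) y hy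
      rwa [inv_inv] at this
  have htop : H = ⊤ := by
    refine nielsen_top H ?_ ?_ ?_ ?_
    · intro i j hij ν h1 h2
      have : ν = R i (x j) := by
        refine A_ext fun k => ?_
        by_cases hk : k = i
        · subst hk; rw [R_apply_self, kill_ne hij.symm]; exact h1
        · rw [R_apply_ne hk]; exact h2 k hk
      rw [this]; exact hcomm _ (K_Rw q hT d0123 i _)
    · intro i j hij ν h1 h2
      have : ν = (L i (x j))⁻¹ := by
        rw [← map_inv]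
        refine A_ext fun k => ?_
        by_cases hk : k = i
        · subst hk
          rw [L_def, tv_self, map_inv, kill_ne hij.symm, map_one, mul_one, inv_inv]; exact h1
        · rw [L_def, tv_ne hk]; exact h2 k hk
      rw [this]; exact H.inv_mem (hcomm _ (K_Lw q hT d0123 i _))
    · intro i ν h1 h2
      have : ν = sg i := by
        refine A_ext fun k => ?_
        by_cases hk : k = i
        · subst hk; rw [sg_self]; exact h1
        · rw [sg_ne hk]; exact h2 k hk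
      rw [this]
      intro y hy
      have h3 : q (sg i) * q kap0 * (q (sg i))⁻¹ = (q kap0)⁻¹ := K_sg q hT d0123 i
      have h4 := pw (q (sg i)) (by
        rw [h3]; exact Subgroup.inv_mem _ (Subgroup.mem_zpowers _)) y hy
      refine ⟨h4, ?_⟩
      rw [← map_inv, sg_inv] at h4 ⊢
      exact h4
    · intro i j hij ν h1 h2 h3
      have : ν = pm (Equiv.swap i j) := by
        refine A_ext fun k => ?_
        rw [pm_x]
        by_cases hk : k = i
        · subst hk; rw [Equiv.swap_apply_left]; exact h1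
        · by_cases hk' : k = j
          · subst hk'; rw [Equiv.swap_apply_right]; exact h2
          · rw [Equiv.swap_apply_of_ne_of_ne hk hk']; exact h3 k hk hk'
      rw [this]
      have key : ∀ σ : Equiv.Perm (Fin 4), q (pm σ) * q kap0 * (q (pm σ))⁻¹ ∈
          Subgroup.zpowers (q kap0) := by
        intro σ
        have e1 : q (pm σ) * q kap0 * (q (pm σ))⁻¹ =
            q (kap (σ 0) (σ 1) ⁅x (σ 2), x (σ 3)⁆) := by
          show q (pm σ) * q (kap 0 1 ⁅x 2, x 3⁆) * (q (pm σ))⁻¹ = _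
          have e2 : pm σ ⁅⁅(x 2 : F 4), (x 3 : F 4)⁆, (x 1 : F 4)⁆ = ⁅⁅x (σ 2), x (σ 3)⁆, x (σ 1)⁆ := by
            rw [map_commutatorElement, map_commutatorElement, pm_x, pm_x, pm_x]
          rw [q_kap, q_kap, kp_conj, ← map_inv, ← map_mul, ← map_mul, ← map_mul, ← map_mul,
            pm_conj_C, pm_conj_C, e2, pm_x]
        rw [e1]
        refine K_zpowers q hT ?_
        constructor <;> (intro h; have := σ.injective h; revert this; decide)
      intro y hy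
      refine ⟨pw _ (key _) y hy, ?_⟩
      have h5 := pw _ (key (Equiv.swap i j)⁻¹) y hy
      rwa [← pm_inv, map_inv, inv_inv] at h5
  have hα : α ∈ H := htop ▸ Subgroup.mem_top α
  exact (hα y hy).1

end

end Pool.Agent.CSP3
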