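import Pool.Agent.CSP3.Lev3

/-!
# The element `kap i j w` (n = 4, m = 3): relations

`kap i j w = ⁅(C i ⁅w, x j⁆)⁻¹, C j (x i)⁆`, `w ∈ γ_2` without `x i`, `x j`.  In every quotient in
which the transvections have exponent three all relations follow from `⁅C j (x i), C i (x j)⁆ = 1`
conjugated by `C i w`, `R j w`, `R j (x i)`.
-/

set_option autoImplicit false

namespace Pool.Agent.CSP3

open scoped commutatorElement

variable {n : ℕ}

namespace N4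

open Lev3Aux

/-- the relations used -/
structure Rels {G : Type*} [Group G] (D W Y c c' A B ρ : G) : Prop where
  r1 : D * c * D⁻¹ = c * B⁻¹
  r2 : D * c' * D⁻¹ = A * c'
  r3 : Commute A c'
  r4 : Commute B c
  r5 : Commute D A
  r6 : Commute D B
  r7 : Commute D ρ
  r9 : W * c * W⁻¹ = c * ρ
  r10 : W * c' * W⁻¹ = c' * D
  r11 : Commute c ρ
  r12 : Commute ρ B
  r13 : Commute Y c
  r14 : Y * c' * Y⁻¹ = c * c'
  r15 : Y * D * Y⁻¹ = D * ρ
  r16 : Commute Y B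
  r19 : Commute c c'
  c3 : c ^ 3 = 1
  b3 : B ^ 3 = 1

namespace Rels

variable {G : Type*} [Group G] {D W Y c c' A B ρ : G} (h : Rels D W Y c c' A B ρ)
include h

theorem s1 : ρ * c' = c' * B⁻¹ * ρ := by
  have hDc : D * c = c * B⁻¹ * D := by rw [← h.r1]; group
  have e : (c * ρ) * (c' * D) = (c' * D) * (c * ρ) := by
    rw [← h.r9, ← h.r10]
    calc (W * c * W⁻¹) * (W * c' * W⁻¹) = W * (c * c') * W⁻¹ := by group
      _ = W * (c' * c) * W⁻¹ := by rw [h.r19.eq]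
      _ = _ := by group
  have e2 : c * (ρ * c') * D = c * (c' * B⁻¹ * ρ) * D := by
    calc c * (ρ * c') * D = (c * ρ) * (c' * D) := by group
      _ = (c' * D) * (c * ρ) := e
      _ = c' * (D * c) * ρ := by group
      _ = c' * (c * B⁻¹ * D) * ρ := by rw [hDc]
      _ = (c' * c) * B⁻¹ * (D * ρ) := by group
      _ = (c * c') * B⁻¹ * (ρ * D) := by rw [← h.r19.eq, h.r7.eq]
      _ = _ := by group
  exact mul_left_cancel (mul_right_cancel e2)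

theorem hA : A = D * c' * D⁻¹ * c'⁻¹ := by rw [h.r2]; group

theorem s2 : Commute ρ A := by
  have h1 := h.s1
  have h2 : ρ * c'⁻¹ = B * c'⁻¹ * ρ := by
    have : c' * B⁻¹ * (ρ * c'⁻¹) = ρ := by
      rw [← mul_assoc, ← h1]; group
    calc ρ * c'⁻¹ = B * c'⁻¹ * (c' * B⁻¹ * (ρ * c'⁻¹)) := by group
      _ = _ := by rw [this]
  have h3 : ρ * D⁻¹ = D⁻¹ * ρ := h.r7.inv_left.symm.eq
  have h4 : B⁻¹ * D⁻¹ = D⁻¹ * B⁻¹ := (h.r6.inv_inv).symm.eq
  show ρ * A = A * ρ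
  rw [h.hA]
  calc ρ * (D * c' * D⁻¹ * c'⁻¹) = (ρ * D) * c' * D⁻¹ * c'⁻¹ := by group
    _ = (D * ρ) * c' * D⁻¹ * c'⁻¹ := by rw [h.r7.eq]
    _ = D * (ρ * c') * D⁻¹ * c'⁻¹ := by group
    _ = D * (c' * B⁻¹ * ρ) * D⁻¹ * c'⁻¹ := by rw [h1]
    _ = D * c' * B⁻¹ * (ρ * D⁻¹) * c'⁻¹ := by group
    _ = D * c' * (B⁻¹ * D⁻¹) * (ρ * c'⁻¹) := by rw [h3]; group
    _ = D * c' * (D⁻¹ * B⁻¹) * (B * c'⁻¹ * ρ) := by rw [h4, h2]
    _ = _ := by group

theorem hB : B⁻¹ = c'⁻¹ * ρ * c' * ρ⁻¹ := by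
  have h1 := h.s1
  calc B⁻¹ = c'⁻¹ * (c' * B⁻¹ * ρ) * ρ⁻¹ := by group
    _ = c'⁻¹ * (ρ * c') * ρ⁻¹ := by rw [h1]
    _ = _ := by group

theorem s3 : Commute A B := by
  have h1 : Commute A B⁻¹ := by
    rw [h.hB]
    exact ((h.r3.inv_right.mul_right h.s2.symm).mul_right h.r3).mul_right h.s2.symm.inv_right
  simpa using h1.inv_right

end Rels

/-- `A⁻¹ c A c⁻¹` -/
def kp {G : Type*} [Group G] (A c : G) : G := A⁻¹ * c * A * c⁻¹

namespace Rels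

variable {G : Type*} [Group G] {D W Y c c' A B ρ : G} (h : Rels D W Y c c' A B ρ)
include h

omit h in
theorem cA (A c : G) : c * A = A * kp A c * c := by unfold kp; group

theorem s5 : Commute c' (kp A c) := by
  unfold kp
  exact ((h.r3.symm.inv_right.mul_right h.r19.symm).mul_right h.r3.symm).mul_right
    h.r19.symm.inv_right

theorem s6 : Commute ρ (kp A c) := by
  unfold kp
  exact ((h.s2.inv_right.mul_right h.r11.symm).mul_right h.s2).mul_right h.r11.symm.inv_right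

theorem s4 : Commute D (kp A c) := by
  have h1 : D * kp A c * D⁻¹ = kp A c := by
    have e1 : D * kp A c * D⁻¹ = (D * A * D⁻¹)⁻¹ * (D * c * D⁻¹) * (D * A * D⁻¹) *
        (D * c * D⁻¹)⁻¹ := by unfold kp; group
    have e2 : D * A * D⁻¹ = A := by rw [h.r5.eq, mul_inv_cancel_right]
    rw [e1, e2, h.r1]
    unfold kp
    have e3 : B⁻¹ * A = A * B⁻¹ := h.s3.symm.inv_left.eq
    calc A⁻¹ * (c * B⁻¹) * A * (c * B⁻¹)⁻¹ = A⁻¹ * c * (B⁻¹ * A) * (B * c⁻¹) := by group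
      _ = A⁻¹ * c * (A * B⁻¹) * (B * c⁻¹) := by rw [e3]
      _ = _ := by group
  exact of_conj h1

theorem s7 : Commute A (kp A c) := by
  have h1 : Commute (D * c' * D⁻¹ * c'⁻¹) (kp A c) :=
    ((h.s4.mul_left h.s5).mul_left h.s4.inv_left).mul_left h.s5.inv_left
  rwa [← h.hA] at h1

theorem s8 : Commute B (kp A c) := by
  have h1 : Commute (c'⁻¹ * ρ * c' * ρ⁻¹) (kp A c) :=
    ((h.s5.inv_left.mul_left h.s6).mul_left h.s5).mul_left h.s6.inv_left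
  rw [← h.hB] at h1
  simpa using h1.inv_left

theorem hη : kp A c = c' * B⁻¹ * c'⁻¹ * B := by
  have hDc : D * (c * c') * D⁻¹ = (c * B⁻¹) * (A * c') := by
    rw [← h.r1, ← h.r2]; group
  have hDc' : D * (c' * c) * D⁻¹ = (A * c') * (c * B⁻¹) := by
    rw [← h.r1, ← h.r2]; group
  have e : (c * B⁻¹) * (A * c') = (A * c') * (c * B⁻¹) := by
    rw [← hDc, ← hDc', h.r19.eq]
  have e3 : B⁻¹ * A = A * B⁻¹ := h.s3.symm.inv_left.eq
  have e4 : A * (kp A c * c * B⁻¹ * c') = A * (c * c' * B⁻¹) := by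
    calc A * (kp A c * c * B⁻¹ * c') = (A * kp A c * c) * B⁻¹ * c' := by group
      _ = (c * A) * B⁻¹ * c' := by rw [← cA]
      _ = c * (A * B⁻¹) * c' := by group
      _ = c * (B⁻¹ * A) * c' := by rw [e3]
      _ = (c * B⁻¹) * (A * c') := by group
      _ = (A * c') * (c * B⁻¹) := e
      _ = A * (c' * c) * B⁻¹ := by group
      _ = A * (c * c') * B⁻¹ := by rw [h.r19.eq]
      _ = _ := by group
  have e5 := mul_left_cancel e4
  have e6 : kp A c = c * (c' * B⁻¹ * c'⁻¹ * B) * c⁻¹ := by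
    have e7 : c * B⁻¹ * c' * (c * c' * B⁻¹)⁻¹ = (kp A c)⁻¹ := by
      rw [← e5]; group
    have e8 : kp A c = (c * c' * B⁻¹) * (c * B⁻¹ * c')⁻¹ := by
      rw [← inv_inv (kp A c), ← e7]; group
    have e9 : B * c⁻¹ = c⁻¹ * B := h.r4.inv_right.eq
    rw [e8]
    calc c * c' * B⁻¹ * (c * B⁻¹ * c')⁻¹ = c * c' * B⁻¹ * c'⁻¹ * (B * c⁻¹) := by group
      _ = c * c' * B⁻¹ * c'⁻¹ * (B * c⁻¹) := rfl
      _ = _ := by group
  have e10 : Commute c (c' * B⁻¹ * c'⁻¹ * B) :=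
    ((h.r19.mul_right h.r4.symm.inv_right).mul_right h.r19.inv_right).mul_right h.r4.symm
  rw [e6, e10.eq, mul_inv_cancel_right]

theorem s10 : Commute c (kp A c) := by
  rw [h.hη]
  exact ((h.r19.mul_right h.r4.symm.inv_right).mul_right h.r19.inv_right).mul_right h.r4.symm

/-- the mirror image -/
theorem mirror : kp B c' = (kp A c)⁻¹ := by
  have h1 : c' * B⁻¹ * c'⁻¹ = kp A c * B⁻¹ := by rw [h.hη]; group
  have h2 : c' * B * c'⁻¹ = B * (kp A c)⁻¹ := by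
    have : c' * B * c'⁻¹ = (c' * B⁻¹ * c'⁻¹)⁻¹ := by group
    rw [this, h1]; group
  calc kp B c' = B⁻¹ * (c' * B * c'⁻¹) := by unfold kp; group
    _ = _ := by rw [h2]; group

theorem s12 : kp A c ^ 3 = 1 := by
  have h1 : c * A * c⁻¹ = A * kp A c := by rw [cA A c]; group
  have hk : c * kp A c * c⁻¹ = kp A c := by rw [h.s10.eq, mul_inv_cancel_right]
  have h2 : c * (A * kp A c) * c⁻¹ = A * kp A c * kp A c := by
    calc c * (A * kp A c) * c⁻¹ = (c * A * c⁻¹) * (c * kp A c * c⁻¹) := by group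
      _ = _ := by rw [h1, hk]
  have h3 : c * (A * kp A c * kp A c) * c⁻¹ = A * kp A c * kp A c * kp A c := by
    calc c * (A * kp A c * kp A c) * c⁻¹ = (c * (A * kp A c) * c⁻¹) * (c * kp A c * c⁻¹) := by group
      _ = _ := by rw [h2, hk]
  have h4 : c ^ 3 * A * (c ^ 3)⁻¹ = A * kp A c ^ 3 := by
    calc c ^ 3 * A * (c ^ 3)⁻¹ = c * (c * (c * A * c⁻¹) * c⁻¹) * c⁻¹ := by
          simp only [pow_succ, pow_zero, one_mul, mul_inv_rev]; group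
      _ = A * kp A c * kp A c * kp A c := by rw [h1, h2, h3]
      _ = _ := by simp only [pow_succ, pow_zero, one_mul]; group
  rw [h.c3, one_mul, inv_one, mul_one] at h4
  exact (mul_eq_left.mp h4.symm)

theorem s13 : Y * A * Y⁻¹ = A * B * (kp A c)⁻¹ := by
  have hρ : ρ * (c * c') = c * c' * B⁻¹ * ρ := by
    calc ρ * (c * c') = (ρ * c) * c' := by group
      _ = (c * ρ) * c' := by rw [h.r11.eq]
      _ = c * (ρ * c') := by group
      _ = c * (c' * B⁻¹ * ρ) := by rw [h.s1]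
      _ = _ := by group
  have e1 : Y * A * Y⁻¹ = (D * ρ) * (c * c') * (D * ρ)⁻¹ * (c * c')⁻¹ := by
    rw [← h.r15, ← h.r14]
    conv_lhs => rw [h.hA]
    group
  have e2 : D * (c * c' * B⁻¹) * D⁻¹ = (c * B⁻¹) * (A * c') * B⁻¹ := by
    have hd : D * B⁻¹ * D⁻¹ = B⁻¹ := by rw [h.r6.inv_right.eq, mul_inv_cancel_right]
    calc D * (c * c' * B⁻¹) * D⁻¹ = (D * c * D⁻¹) * (D * c' * D⁻¹) * (D * B⁻¹ * D⁻¹) := by group
      _ = _ := by rw [h.r1, h.r2, hd]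
  have e3 : c' * B⁻¹ * c'⁻¹ = kp A c * B⁻¹ := by rw [h.hη]; group
  have e4 : B⁻¹ * A = A * B⁻¹ := h.s3.symm.inv_left.eq
  have e5 : B⁻¹ * kp A c = kp A c * B⁻¹ := h.s8.inv_left.eq
  have e6 : B⁻¹ * c⁻¹ = c⁻¹ * B⁻¹ := h.r4.inv_inv.eq
  have e7 : kp A c * c⁻¹ = c⁻¹ * kp A c := h.s10.inv_left.symm.eq
  have h1 : c * A * c⁻¹ = A * kp A c := by rw [cA A c]; group
  have hb : B⁻¹ * B⁻¹ = B := by
    have h3 := h.b3
    calc B⁻¹ * B⁻¹ = B⁻¹ * B⁻¹ * B ^ 3 * (B ^ 3)⁻¹ := by group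
      _ = B := by rw [h3]; simp only [inv_one, mul_one]; rw [← mul_inv_rev, inv_eq_iff_mul_eq_one]; rw [← h3]; simp only [pow_succ, pow_zero, one_mul]
  have hk : kp A c * kp A c = (kp A c)⁻¹ := by
    have h3 := h.s12
    rw [eq_inv_iff_mul_eq_one, ← h3]; simp only [pow_succ, pow_zero, one_mul]
  rw [e1]
  calc (D * ρ) * (c * c') * (D * ρ)⁻¹ * (c * c')⁻¹
      = D * (ρ * (c * c')) * ρ⁻¹ * D⁻¹ * (c * c')⁻¹ := by group
    _ = D * (c * c' * B⁻¹ * ρ) * ρ⁻¹ * D⁻¹ * (c * c')⁻¹ := by rw [hρ]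
    _ = (D * (c * c' * B⁻¹) * D⁻¹) * (c * c')⁻¹ := by group
    _ = ((c * B⁻¹) * (A * c') * B⁻¹) * (c * c')⁻¹ := by rw [e2]
    _ = c * (B⁻¹ * A) * (c' * B⁻¹ * c'⁻¹) * c⁻¹ := by group
    _ = c * (A * B⁻¹) * (kp A c * B⁻¹) * c⁻¹ := by rw [e4, e3]
    _ = c * A * (B⁻¹ * kp A c) * (B⁻¹ * c⁻¹) := by group
    _ = c * A * (kp A c * B⁻¹) * (c⁻¹ * B⁻¹) := by rw [e5, e6]
    _ = c * A * kp A c * (B⁻¹ * c⁻¹) * B⁻¹ := by group
    _ = c * A * kp A c * (c⁻¹ * B⁻¹) * B⁻¹ := by rw [e6]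
    _ = c * A * (kp A c * c⁻¹) * (B⁻¹ * B⁻¹) := by group
    _ = c * A * (c⁻¹ * kp A c) * B := by rw [e7, hb]
    _ = (c * A * c⁻¹) * kp A c * B := by group
    _ = A * (kp A c * kp A c) * B := by rw [h1]; group
    _ = A * (kp A c)⁻¹ * B := by rw [hk]
    _ = A * (B * (kp A c)⁻¹) := by rw [mul_assoc, h.s8.inv_right.eq]
    _ = _ := by group

theorem s14 : Commute Y (kp A c) := by
  have h1 : c * A * c⁻¹ = A * kp A c := by rw [cA A c]; group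
  have hY : Y * c * Y⁻¹ = c := by rw [h.r13.eq, mul_inv_cancel_right]
  have hB : c * B * c⁻¹ = B := by rw [h.r4.symm.eq, mul_inv_cancel_right]
  have hk : c * (kp A c)⁻¹ * c⁻¹ = (kp A c)⁻¹ := by
    rw [h.s10.inv_right.eq, mul_inv_cancel_right]
  have e5 : kp A c * B = B * kp A c := h.s8.symm.eq
  have key : Y * kp A c * Y⁻¹ = kp A c := by
    calc Y * kp A c * Y⁻¹ = (Y * A * Y⁻¹)⁻¹ * (Y * c * Y⁻¹) * (Y * A * Y⁻¹) * (Y * c * Y⁻¹)⁻¹ := by
          unfold kp; group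
      _ = (A * B * (kp A c)⁻¹)⁻¹ * c * (A * B * (kp A c)⁻¹) * c⁻¹ := by rw [h.s13, hY]
      _ = (A * B * (kp A c)⁻¹)⁻¹ * ((c * A * c⁻¹) * (c * B * c⁻¹) * (c * (kp A c)⁻¹ * c⁻¹)) := by
          group
      _ = (A * B * (kp A c)⁻¹)⁻¹ * ((A * kp A c) * B * (kp A c)⁻¹) := by rw [h1, hB, hk]
      _ = kp A c * B⁻¹ * (kp A c * B) * (kp A c)⁻¹ := by group
      _ = kp A c * B⁻¹ * (B * kp A c) * (kp A c)⁻¹ := by rw [e5]
      _ = _ := by group
  exact of_conj key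

/-- `c⁻¹ A c = A κ⁻¹` -/
theorem s15 : kp A c⁻¹ = (kp A c)⁻¹ := by
  have h1 : c⁻¹ * A * c = A * (kp A c)⁻¹ := by
    have e1 : c * A * c⁻¹ = A * kp A c := by rw [cA A c]; group
    have hk : c⁻¹ * kp A c * c = kp A c := by
      rw [h.s10.inv_left.eq, inv_mul_cancel_right]
    have e2 : A = (c⁻¹ * A * c) * kp A c := by
      calc A = c⁻¹ * (c * A * c⁻¹) * c := by group
        _ = c⁻¹ * (A * kp A c) * c := by rw [e1]
        _ = (c⁻¹ * A * c) * (c⁻¹ * kp A c * c) := by group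
        _ = _ := by rw [hk]
    calc c⁻¹ * A * c = ((c⁻¹ * A * c) * kp A c) * (kp A c)⁻¹ := by group
      _ = _ := by rw [← e2]
  calc kp A c⁻¹ = A⁻¹ * (c⁻¹ * A * c) := by unfold kp; group
    _ = _ := by rw [h1]; group

/-- `kp A⁻¹ c = (kp A c)⁻¹` -/
theorem s16 : kp A⁻¹ c = (kp A c)⁻¹ := by
  have e1 : c * A * c⁻¹ = A * kp A c := by rw [cA A c]; group
  have e2 : A * (kp A c)⁻¹ = (kp A c)⁻¹ * A := h.s7.inv_right.eq
  calc kp A⁻¹ c = A * (c * A * c⁻¹)⁻¹ := by unfold kp; group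
    _ = A * (kp A c)⁻¹ * A⁻¹ := by rw [e1]; group
    _ = _ := by rw [e2]; group

end Rels

end N4

end Pool.Agent.CSP3
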