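import Pool.Agent.CSPHier.Nielsen

/-!
# Nielsen's theorem: the automorphism group of a free group of finite rank is generated by the
signed permutations and the elementary transvections
-/

set_option autoImplicit false
set_option linter.unusedSectionVars false

namespace Pool.Agent.CSP3

open FreeGroup hiding map_mul map_inv map_one norm norm_one
open Pool.Agent.CSPHier.Nielsen

section

variable {α : Type} [DecidableEq α] [Fintype α]

/-- the base of the numerals -/
def bs (α : Type) [Fintype α] : ℕ := Fintype.card (α × Bool) + 1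

/-- the digit of a letter -/
noncomputable def dig (a : α × Bool) : ℕ := (Fintype.equivFin (α × Bool) a).val

theorem dig_lt (a : α × Bool) : dig a + 1 < bs α + 1 := by
  have := (Fintype.equivFin (α × Bool) a).isLt
  unfold dig bs
  omega

theorem dig_inj {a b : α × Bool} (h : dig a = dig b) : a = b :=
  (Fintype.equivFin (α × Bool)).injective (Fin.ext h)

theorem bs_pos : 0 < bs α := Nat.succ_pos _

/-- the numeral formed by the first `k` letters -/
noncomputable def nu : ℕ → List (α × Bool) → ℕ
  | 0, _ => 0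
  | _ + 1, [] => 0
  | k + 1, a :: l => dig a * bs α ^ k + nu k l

theorem nu_lt (k : ℕ) (l : List (α × Bool)) : nu k l < bs α ^ k := by
  induction k generalizing l with
  | zero => cases l <;> simp [nu]
  | succ k ih =>
    cases l with
    | nil => simp only [nu]; exact pow_pos bs_pos _
    | cons a l =>
      simp only [nu]
      have h1 := ih l
      have h2 := dig_lt a
      calc dig a * bs α ^ k + nu k l < dig a * bs α ^ k + bs α ^ k := by omega
        _ = (dig a + 1) * bs α ^ k := by ring
        _ ≤ bs α * bs α ^ k := Nat.mul_le_mul_right _ (by omega)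
        _ = bs α ^ (k + 1) := by ring

theorem nu_eq {k : ℕ} {l l' : List (α × Bool)} (h : k ≤ lcp l l') : nu k l = nu k l' := by
  induction k generalizing l l' with
  | zero => cases l <;> cases l' <;> rfl
  | succ k ih =>
    cases l with
    | nil => simp [lcp] at h
    | cons a l =>
      cases l' with
      | nil => simp [lcp] at h
      | cons b l' =>
        simp only [lcp] at h
        by_cases hab : a = b
        · subst hab
          rw [if_pos rfl] at h
          simp only [nu]
          rw [ih (l := l) (l' := l') (by omega)]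
        · rw [if_neg hab] at h; omega

theorem nu_inj {k : ℕ} {l l' : List (α × Bool)} (hl : k ≤ l.length) (hl' : k ≤ l'.length)
    (h : nu k l = nu k l') : k ≤ lcp l l' := by
  induction k generalizing l l' with
  | zero => exact Nat.zero_le _
  | succ k ih =>
    cases l with
    | nil => simp at hl
    | cons a l =>
      cases l' with
      | nil => simp at hl'
      | cons b l' =>
        simp only [nu] at h
        simp only [List.length_cons, Nat.add_le_add_iff_right] at hl hl'
        have h1 := nu_lt k l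
        have h2 := nu_lt k l'
        have hab : dig a = dig b := by
          have e1 : (dig a * bs α ^ k + nu k l) / bs α ^ k = dig a := by
            rw [mul_comm, Nat.mul_add_div (pow_pos bs_pos _), Nat.div_eq_of_lt h1, add_zero]
          have e2 : (dig b * bs α ^ k + nu k l') / bs α ^ k = dig b := by
            rw [mul_comm, Nat.mul_add_div (pow_pos bs_pos _), Nat.div_eq_of_lt h2, add_zero]
          rw [← e1, h, e2]
        have hab' := dig_inj hab
        subst hab'
        simp only [lcp, if_true]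
        have := ih hl hl' (by omega)
        omega

theorem nu_add (h r : ℕ) (l : List (α × Bool)) :
    nu (h + r) l = nu h l * bs α ^ r + nu r (l.drop h) := by
  induction h generalizing l with
  | zero => cases l <;> simp [nu]
  | succ h ih =>
    cases l with
    | nil =>
      rw [Nat.add_right_comm]
      simp only [nu, List.drop_nil]
      cases r <;> simp [nu]
    | cons a l =>
      rw [Nat.add_right_comm]
      simp only [nu, List.drop_succ_cons]
      rw [ih l, pow_add]
      ring

theorem nu_lt_of_lt {h k : ℕ} (hk : h ≤ k) {l l' : List (α × Bool)} (hlt : nu h l < nu h l') :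
    nu k l < nu k l' := by
  obtain ⟨r, rfl⟩ := Nat.exists_eq_add_of_le hk
  rw [nu_add, nu_add]
  have h1 := nu_lt r (l.drop h)
  calc nu h l * bs α ^ r + nu r (l.drop h) < nu h l * bs α ^ r + bs α ^ r := by omega
    _ = (nu h l + 1) * bs α ^ r := by ring
    _ ≤ nu h l' * bs α ^ r := Nat.mul_le_mul_right _ hlt
    _ ≤ _ := Nat.le_add_right _ _

/-- the secondary measure of an element -/
noncomputable def mus (g : FreeGroup α) : ℕ :=
  nu ((g.norm + 1) / 2) g.toWord + nu ((g.norm + 1) / 2) g⁻¹.toWord

theorem mus_inv (g : FreeGroup α) : mus g⁻¹ = mus g := by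
  unfold mus
  rw [norm_inv_eq, inv_inv, add_comm]

/-- the sum of a function over the images of the basis -/
def tot (f : FreeGroup α → ℕ) (φ : MulAut (FreeGroup α)) : ℕ := ∑ i, f (φ (of i))

theorem f_letter {f : FreeGroup α → ℕ} (hf : ∀ g, f g⁻¹ = f g) (φ : MulAut (FreeGroup α))
    (a : α × Bool) : f (φ (mk [a])) = f (φ (of a.1)) := by
  obtain ⟨i, b⟩ := a
  cases b with
  | true => rfl
  | false =>
    have h := mk_letter_inv i true
    simp only [Bool.not_true] at h
    rw [h, map_inv, hf]
    rfl

theorem tot_mul {f : FreeGroup α → ℕ} (hf : ∀ g, f g⁻¹ = f g) (φ ν : MulAut (FreeGroup α))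
    (a b : α × Bool) (h1 : ν (mk [a]) = mk [a] * mk [b]) (h2 : ∀ j, j ≠ a.1 → ν (of j) = of j) :
    tot f (φ * ν) + f (φ (mk [a])) = tot f φ + f (φ (mk [a]) * φ (mk [b])) := by
  unfold tot
  rw [← Finset.add_sum_erase _ _ (Finset.mem_univ a.1),
    ← Finset.add_sum_erase (a := a.1) Finset.univ (fun i => f (φ (of i))) (Finset.mem_univ a.1)]
  have e1 : ∑ i ∈ Finset.univ.erase a.1, f ((φ * ν) (of i)) =
      ∑ i ∈ Finset.univ.erase a.1, f (φ (of i)) := by
    refine Finset.sum_congr rfl fun i hi => ?_
    rw [MulAut.mul_apply, h2 i (Finset.ne_of_mem_erase hi)]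
  rw [e1, ← f_letter hf (φ * ν) a, ← f_letter hf φ a, MulAut.mul_apply, h1, map_mul]
  ring

/-- **Nielsen's theorem.** A subgroup of the automorphism group of a free group of finite rank
containing the signed permutations and the elementary transvections is everything. -/
theorem nielsen_gen (H : Subgroup (MulAut (FreeGroup α)))
    (htrans : ∀ a b : α × Bool, a.1 ≠ b.1 →
      ∃ ν ∈ H, ν (mk [a]) = mk [a] * mk [b] ∧ ∀ j, j ≠ a.1 → ν (of j) = of j)
    (hperm : ∀ φ : MulAut (FreeGroup α), (∀ i, ∃ a : α × Bool, φ (of i) = mk [a]) → φ ∈ H)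
    (φ : MulAut (FreeGroup α)) : φ ∈ H := by
  have hfn : ∀ g : FreeGroup α, g⁻¹.norm = g.norm := fun g => norm_inv_eq
  induction hn : tot FreeGroup.norm φ using Nat.strong_induction_on generalizing φ with
  | _ n ih =>
  induction hm : tot mus φ using Nat.strong_induction_on generalizing φ with
  | _ m ihm =>
  by_cases hmin : ∀ ν ∈ H, tot FreeGroup.norm φ ≤ tot FreeGroup.norm (φ * ν)
  swap
  · push Not at hmin
    obtain ⟨ν, hν, hlt⟩ := hmin
    have h1 := ih _ (by rw [← hn]; exact hlt) (φ * ν) rfl
    have h2 : φ = (φ * ν) * ν⁻¹ := by group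
    rw [h2]
    exact mul_mem h1 (inv_mem hν)
  by_cases hmin2 : ∀ ν ∈ H, tot FreeGroup.norm (φ * ν) = n → tot mus φ ≤ tot mus (φ * ν)
  swap
  · push Not at hmin2
    obtain ⟨ν, hν, hν2, hlt⟩ := hmin2
    have h1 := ihm _ (by rw [← hm]; exact hlt) (φ * ν) hν2 rfl
    have h2 : φ = (φ * ν) * ν⁻¹ := by group
    rw [h2]
    exact mul_mem h1 (inv_mem hν)
  -- the minimal case
  have hne : ∀ a : α × Bool, φ (mk [a]) ≠ 1 := by
    intro a h
    have h1 : (mk [a] : FreeGroup α) = 1 := by
      apply φ.injective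
      rw [h, map_one]
    have h2 := congrArg FreeGroup.norm h1
    rw [norm_mk_reduced IsReduced.singleton, FreeGroup.norm_one] at h2
    simp at h2
  have h0 : ∀ a : α × Bool, 0 < (φ (mk [a])).norm := by
    intro a
    rw [Nat.pos_iff_ne_zero]
    intro h
    exact hne a (norm_eq_zero.mp h)
  have hN1 : ∀ a b : α × Bool, a.1 ≠ b.1 →
      (φ (mk [a])).norm ≤ (φ (mk [a]) * φ (mk [b])).norm := by
    intro a b hab
    obtain ⟨ν, hν, hν1, hν2⟩ := htrans a b hab
    have h1 := hmin ν hν
    have h2 := tot_mul hfn φ ν a b hν1 hν2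
    omega
  have hM : ∀ a b : α × Bool, a.1 ≠ b.1 → (φ (mk [a]) * φ (mk [b])).norm = (φ (mk [a])).norm →
      mus (φ (mk [a])) ≤ mus (φ (mk [a]) * φ (mk [b])) := by
    intro a b hab he
    obtain ⟨ν, hν, hν1, hν2⟩ := htrans a b hab
    have h2 := tot_mul hfn φ ν a b hν1 hν2
    have h1 := hmin2 ν hν (by omega)
    have h3 := tot_mul mus_inv φ ν a b hν1 hν2
    omega
  have hN1' : ∀ a b : α × Bool, a.1 ≠ b.1 →
      (φ (mk [b])).norm ≤ (φ (mk [a]) * φ (mk [b])).norm := by
    intro a b hab
    have h1 := hN1 (b.1, !b.2) (a.1, !a.2) (Ne.symm hab)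
    rw [mk_letter_inv, mk_letter_inv, map_inv, map_inv, ← mul_inv_rev, norm_inv_eq,
      norm_inv_eq] at h1
    exact h1
  have hN1a : ∀ a b : α × Bool, a.1 ≠ b.1 →
      2 * ov (φ (mk [a]))⁻¹ (φ (mk [b])) ≤ (φ (mk [a])).norm := by
    intro a b hab
    have h1 := norm_mul_ov (φ (mk [a])) (φ (mk [b]))
    have h2 := hN1' a b hab
    omega
  have hN1b : ∀ a b : α × Bool, a.1 ≠ b.1 →
      2 * ov (φ (mk [a]))⁻¹ (φ (mk [b])) ≤ (φ (mk [b])).norm := by
    intro a b hab
    have h1 := norm_mul_ov (φ (mk [a])) (φ (mk [b]))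
    have h2 := hN1 a b hab
    omega
  have hsame : ∀ a b : α × Bool, ok a b → a.1 = b.1 → a = b := by
    intro a b hab h
    exact Prod.ext h (hab h)
  have hsq : ∀ a : α × Bool, 2 * ov (φ (mk [a]))⁻¹ (φ (mk [a])) < (φ (mk [a])).norm :=
    fun a => ov_inv_self _ (hne a)
  have h1 : ∀ a b : α × Bool, ok a b →
      2 * ov (φ (mk [a]))⁻¹ (φ (mk [b])) ≤ (φ (mk [a])).norm := by
    intro a b hab
    by_cases h : a.1 = b.1
    · rw [hsame a b hab h]
      exact (hsq b).le
    · exact hN1a a b h
  have h1b : ∀ a b : α × Bool, ok a b →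
      2 * ov (φ (mk [a]))⁻¹ (φ (mk [b])) ≤ (φ (mk [b])).norm := by
    intro a b hab
    by_cases h : a.1 = b.1
    · rw [hsame a b hab h]
      exact (hsq b).le
    · exact hN1b a b h
  -- the exchange argument
  have hex : ∀ a b : α × Bool, a.1 ≠ b.1 → ∀ h : ℕ, (φ (mk [b])).norm = 2 * h →
      ov (φ (mk [a]))⁻¹ (φ (mk [b])) = h →
      ¬ nu h (φ (mk [b]))⁻¹.toWord < nu h (φ (mk [b])).toWord := by
    intro a b hab h hb hov hlt
    have e1 := norm_mul_ov (φ (mk [a])) (φ (mk [b]))
    have e2 : (φ (mk [a]) * φ (mk [b])).norm = (φ (mk [a])).norm := by omega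
    have e3 := hM a b hab e2
    have e4 := hN1a a b hab
    rw [hov] at e4
    unfold mus at e3
    rw [e2] at e3
    -- the left halves agree
    have f1 := norm_inv_mul (φ (mk [a]) * φ (mk [b])) (φ (mk [a]))
    have f2 : (φ (mk [a]) * φ (mk [b]))⁻¹ * φ (mk [a]) = (φ (mk [b]))⁻¹ := by group
    rw [f2, norm_inv_eq, e2, hb] at f1
    have f3 : nu (((φ (mk [a])).norm + 1) / 2) (φ (mk [a]) * φ (mk [b])).toWord =
        nu (((φ (mk [a])).norm + 1) / 2) (φ (mk [a])).toWord := by
      apply nu_eq
      have : ov (φ (mk [a]) * φ (mk [b])) (φ (mk [a])) = (φ (mk [a])).norm - h := by omega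
      unfold ov at this
      rw [this]
      omega
    -- the right halves
    have g1 : nu h (φ (mk [a]) * φ (mk [b]))⁻¹.toWord = nu h (φ (mk [b]))⁻¹.toWord := by
      apply nu_eq
      have k1 := norm_inv_mul (φ (mk [a]) * φ (mk [b]))⁻¹ (φ (mk [b]))⁻¹
      have k2 : (φ (mk [a]) * φ (mk [b]))⁻¹⁻¹ * (φ (mk [b]))⁻¹ = φ (mk [a]) := by group
      rw [k2, norm_inv_eq, norm_inv_eq, e2, hb] at k1
      unfold ov at k1
      omega
    have g2 : nu h (φ (mk [a]))⁻¹.toWord = nu h (φ (mk [b])).toWord := by
      apply nu_eq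
      unfold ov at hov
      rw [hov]
    have g3 : nu h (φ (mk [a]) * φ (mk [b]))⁻¹.toWord < nu h (φ (mk [a]))⁻¹.toWord := by
      rw [g1, g2]; exact hlt
    have g4 := nu_lt_of_lt (show h ≤ ((φ (mk [a])).norm + 1) / 2 by omega) g3
    omega
  have h2 : ∀ a b d : α × Bool, ok a b → ok b d →
      ov (φ (mk [a]))⁻¹ (φ (mk [b])) + ov (φ (mk [b]))⁻¹ (φ (mk [d])) < (φ (mk [b])).norm := by
    intro a b d hab hbd
    have q1 := h1b a b hab
    have q2 := h1 b d hbd
    by_contra hcon
    have hab' : a.1 ≠ b.1 := by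
      intro h
      have h3 := hsame a b hab h
      subst h3
      have := hsq a
      omega
    have hbd' : b.1 ≠ d.1 := by
      intro h
      have h3 := hsame b d hbd h
      subst h3
      have := hsq b
      omega
    obtain ⟨h, hh⟩ : ∃ h, h = ov (φ (mk [a]))⁻¹ (φ (mk [b])) := ⟨_, rfl⟩
    have hh2 : ov (φ (mk [b]))⁻¹ (φ (mk [d])) = h := by omega
    have hnb : (φ (mk [b])).norm = 2 * h := by omega
    have r1 := hex a b hab' h hnb hh.symm
    -- the mirror image
    have r2 := hex (d.1, !d.2) (b.1, !b.2) (Ne.symm hbd') h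
      (by rw [mk_letter_inv, map_inv, norm_inv_eq]; exact hnb)
      (by
        rw [mk_letter_inv, mk_letter_inv, map_inv, map_inv, inv_inv, ov_comm]
        exact hh2)
    rw [mk_letter_inv, map_inv, inv_inv] at r2
    simp only [Prod.mk.eta] at r2
    have r3 : nu h (φ (mk [b]))⁻¹.toWord = nu h (φ (mk [b])).toWord := by omega
    have r4 := nu_inj (k := h) (l := (φ (mk [b]))⁻¹.toWord) (l' := (φ (mk [b])).toWord)
      (by
        have : (φ (mk [b]))⁻¹.toWord.length = 2 * h := by
          have h3 : ((φ (mk [b]))⁻¹).norm = 2 * h := by rw [norm_inv_eq]; exact hnb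
          exact h3
        omega)
      (by
        have : (φ (mk [b])).toWord.length = 2 * h := hnb
        omega) r3
    have r5 := hsq b
    unfold ov at r5
    omega
  -- conclusion
  have hall := no_cancel φ.toMonoidHom h0 h1 h2
  have hinv : φ⁻¹ ∈ H := by
    apply hperm
    intro i
    have h3 := hall (φ⁻¹ (of i))
    have h4 : φ.toMonoidHom (φ⁻¹ (of i)) = of i := by
      show φ (φ⁻¹ (of i)) = of i
      rw [← MulAut.mul_apply, mul_inv_cancel, MulAut.one_apply]
    rw [h4, norm_of] at h3
    have h5 : φ⁻¹ (of i) ≠ 1 := by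
      intro h
      have h6 : (of i : FreeGroup α) = 1 := by
        apply (φ⁻¹).injective
        rw [h, map_one]
      have h7 := congrArg FreeGroup.norm h6
      rw [norm_of, FreeGroup.norm_one] at h7
      omega
    have h6 : (φ⁻¹ (of i)).toWord.length = 1 := by
      have h7 : (φ⁻¹ (of i)).norm ≠ 0 := fun h => h5 (norm_eq_zero.mp h)
      have h8 : (φ⁻¹ (of i)).norm = 1 := by omega
      exact h8
    obtain ⟨a, ha⟩ := List.length_eq_one_iff.mp h6
    refine ⟨a, ?_⟩
    rw [← ha, mk_toWord]
  have := inv_mem hinv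
  rwa [inv_inv] at this

end

end Pool.Agent.CSP3
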