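import Mathlib

/-!
# Groups with the Steinberg relations over a field with units `±1`

`Stein n F G` : elements `x i j a` (`i ≠ j`, `a ∈ F`) of a group `G` satisfying the Steinberg
relations.  This file: the elements `w i j` and their action by conjugation.
-/

set_option autoImplicit false

namespace Pool.Agent.CSP3

theorem third {n : ℕ} (hn : 3 ≤ n) (i j : Fin n) : ∃ k : Fin n, k ≠ i ∧ k ≠ j := by
  obtain ⟨k, hk⟩ : ∃ k : Fin n, k ∉ ({i, j} : Finset (Fin n)) := by
    by_contra hc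
    push Not at hc
    have : (Finset.univ : Finset (Fin n)).card ≤ ({i, j} : Finset (Fin n)).card :=
      Finset.card_le_card (fun k _ => hc k)
    rw [Finset.card_univ, Fintype.card_fin] at this
    have h2 := Finset.card_le_two (a := i) (b := j)
    omega
  simp only [Finset.mem_insert, Finset.mem_singleton, not_or] at hk
  exact ⟨k, hk.1, hk.2⟩

/-- the Steinberg relations -/
structure Stein (n : ℕ) (F : Type*) [Field F] (G : Type*) [Group G] where
  x : Fin n → Fin n → F → G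
  add : ∀ {i j : Fin n}, i ≠ j → ∀ a b, x i j (a + b) = x i j a * x i j b
  comm : ∀ {i j k l : Fin n}, i ≠ j → k ≠ l → j ≠ k → i ≠ l → ∀ a b,
    x i j a * x k l b = x k l b * x i j a
  brk : ∀ {i j k : Fin n}, i ≠ j → j ≠ k → i ≠ k → ∀ a b,
    x i j a * x j k b = x i k (a * b) * x j k b * x i j a

namespace Stein

variable {n : ℕ} {F : Type*} [Field F] {G : Type*} [Group G] (S : Stein n F G)

theorem x_zero {i j : Fin n} (h : i ≠ j) : S.x i j 0 = 1 := by
  have := S.add h 0 0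
  rw [add_zero] at this
  exact (mul_eq_left.mp this.symm)

theorem x_neg {i j : Fin n} (h : i ≠ j) (a : F) : S.x i j (-a) = (S.x i j a)⁻¹ := by
  rw [eq_inv_iff_mul_eq_one, ← S.add h, neg_add_cancel, S.x_zero h]

theorem cj_comm {i j k l : Fin n} (h1 : i ≠ j) (h2 : k ≠ l) (h3 : j ≠ k) (h4 : i ≠ l) (a b : F) :
    MulAut.conj (S.x i j a) (S.x k l b) = S.x k l b := by
  rw [MulAut.conj_apply, S.comm h1 h2 h3 h4, mul_assoc, mul_inv_cancel, mul_one]

theorem cj_self {i j : Fin n} (h1 : i ≠ j) (a b : F) :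
    MulAut.conj (S.x i j a) (S.x i j b) = S.x i j b := by
  rw [MulAut.conj_apply, ← S.add h1, add_comm, S.add h1, mul_assoc, mul_inv_cancel, mul_one]

theorem cj_left {i j k : Fin n} (h1 : i ≠ j) (h2 : j ≠ k) (h3 : i ≠ k) (a b : F) :
    MulAut.conj (S.x i j a) (S.x j k b) = S.x i k (a * b) * S.x j k b := by
  rw [MulAut.conj_apply, S.brk h1 h2 h3, mul_assoc, mul_inv_cancel, mul_one]

theorem cj_right {i j k : Fin n} (h1 : i ≠ j) (h2 : j ≠ k) (h3 : i ≠ k) (a b : F) :
    MulAut.conj (S.x j k b) (S.x i j a) = S.x i k (-(a * b)) * S.x i j a := by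
  have h := S.brk h1 h2 h3 a b
  rw [MulAut.conj_apply, S.x_neg h3]
  have : S.x j k b * S.x i j a = (S.x i k (a * b))⁻¹ * S.x i j a * S.x j k b := by
    rw [mul_assoc _ (S.x i j a), h]
    group
  rw [this]; group

/-- the Weyl elements -/
def w (i j : Fin n) : G := S.x i j 1 * S.x j i (-1) * S.x i j 1

theorem cj_w_il {i j l : Fin n} (h : i ≠ j) (hi : l ≠ i) (hj : l ≠ j) (a : F) :
    MulAut.conj (S.w i j) (S.x i l a) = S.x j l (-a) := by
  rw [w, map_mul, map_mul, MulAut.mul_apply, MulAut.mul_apply,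
    S.cj_comm h hi.symm h.symm hi.symm, S.cj_left h.symm hi.symm hj.symm, map_mul,
    S.cj_left h hj.symm hi.symm, S.cj_comm h hi.symm h.symm hi.symm]
  rw [mul_assoc, S.comm hj.symm hi.symm hi hj.symm, ← mul_assoc]
  rw [show (-1 : F) * a = -a by ring, show (1 : F) * (-a) = -a by ring, ← S.add hi.symm,
    neg_add_cancel, S.x_zero hi.symm, one_mul]

theorem cj_w_jl {i j l : Fin n} (h : i ≠ j) (hi : l ≠ i) (hj : l ≠ j) (a : F) :
    MulAut.conj (S.w i j) (S.x j l a) = S.x i l a := by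
  rw [w, map_mul, map_mul, MulAut.mul_apply, MulAut.mul_apply,
    S.cj_left h hj.symm hi.symm, map_mul, S.cj_left h.symm hi.symm hj.symm,
    S.cj_comm h.symm hj.symm h hj.symm]
  rw [mul_assoc, S.comm hi.symm hj.symm hj hi.symm, ← mul_assoc]
  rw [show (-1 : F) * (1 * a) = -a by ring, show (1 : F) * a = a by ring, ← S.add hj.symm,
    neg_add_cancel, S.x_zero hj.symm, one_mul, S.cj_comm h hi.symm h.symm hi.symm]

theorem cj_w_ki {i j k : Fin n} (h : i ≠ j) (hi : k ≠ i) (hj : k ≠ j) (a : F) :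
    MulAut.conj (S.w i j) (S.x k i a) = S.x k j (-a) := by
  rw [w, map_mul, map_mul, MulAut.mul_apply, MulAut.mul_apply,
    S.cj_right hi h hj, map_mul, S.cj_right hj h.symm hi,
    S.cj_comm h.symm hi hi.symm h.symm]
  rw [mul_assoc, S.comm hj hi hj.symm hi, ← mul_assoc, ← S.add hi]
  rw [show -(-(a * 1) * -1) + a = (0 : F) by ring, S.x_zero hi, one_mul,
    show -(a * 1) = -a by ring, S.cj_comm h hj hj.symm h]

theorem cj_w_kj {i j k : Fin n} (h : i ≠ j) (hi : k ≠ i) (hj : k ≠ j) (a : F) :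
    MulAut.conj (S.w i j) (S.x k j a) = S.x k i a := by
  rw [w, map_mul, map_mul, MulAut.mul_apply, MulAut.mul_apply,
    S.cj_comm h hj hj.symm h, S.cj_right hj h.symm hi, map_mul,
    S.cj_right hi h hj, S.cj_comm h hj hj.symm h]
  rw [mul_assoc, S.comm hi hj hi.symm hj, ← mul_assoc, ← S.add hj]
  rw [show -(-(a * -1) * 1) + a = (0 : F) by ring, S.x_zero hj, one_mul,
    show -(a * -1) = a by ring]

theorem cj_w_kl {i j k l : Fin n} (h : i ≠ j) (hkl : k ≠ l) (hi : k ≠ i) (hj : k ≠ j)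
    (hli : l ≠ i) (hlj : l ≠ j) (a : F) :
    MulAut.conj (S.w i j) (S.x k l a) = S.x k l a := by
  rw [w, map_mul, map_mul, MulAut.mul_apply, MulAut.mul_apply,
    S.cj_comm h hkl hj.symm hli.symm, S.cj_comm h.symm hkl hi.symm hlj.symm,
    S.cj_comm h hkl hj.symm hli.symm]

theorem brk' {i j k : Fin n} (h1 : i ≠ j) (h2 : j ≠ k) (h3 : i ≠ k) (a b : F) :
    S.x i k (a * b) = S.x i j a * S.x j k b * (S.x i j a)⁻¹ * (S.x j k b)⁻¹ := by
  rw [S.brk h1 h2 h3]; group

theorem cj_w_ij (hn : 3 ≤ n) {i j : Fin n} (h : i ≠ j) (a : F) :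
    MulAut.conj (S.w i j) (S.x i j a) = S.x j i (-a) := by
  obtain ⟨k, hki, hkj⟩ := third hn i j
  have e : S.x i j a = S.x i k a * S.x k j 1 * (S.x i k a)⁻¹ * (S.x k j 1)⁻¹ := by
    rw [← S.brk' hki.symm hkj h, mul_one]
  rw [e]
  simp only [map_mul, map_inv]
  rw [S.cj_w_il h hki hkj, S.cj_w_kj h hki hkj, ← S.brk' hkj.symm hki h.symm, mul_one]

theorem cj_w_ji (hn : 3 ≤ n) {i j : Fin n} (h : i ≠ j) (a : F) :
    MulAut.conj (S.w i j) (S.x j i a) = S.x i j (-a) := by
  obtain ⟨k, hki, hkj⟩ := third hn i j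
  have e : S.x j i a = S.x j k a * S.x k i 1 * (S.x j k a)⁻¹ * (S.x k i 1)⁻¹ := by
    rw [← S.brk' hkj.symm hki h.symm, mul_one]
  rw [e]
  simp only [map_mul, map_inv]
  rw [S.cj_w_jl h hki hkj, S.cj_w_ki h hki hkj, ← S.brk' hki.symm hkj h]
  congr 1; ring

/-- the signs -/
def sg (i k : Fin n) : F := if k = i then -1 else 1

/-- the uniform conjugation formula -/
theorem cj_w (hn : 3 ≤ n) {i j : Fin n} (h : i ≠ j) {k l : Fin n} (hkl : k ≠ l) (a : F) :
    MulAut.conj (S.w i j) (S.x k l a) =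
      S.x (Equiv.swap i j k) (Equiv.swap i j l) (sg (F := F) i k * sg i l * a) := by
  by_cases hki : k = i
  · subst hki
    by_cases hlj : l = j
    · subst hlj
      rw [Equiv.swap_apply_left, Equiv.swap_apply_right, S.cj_w_ij hn h]
      simp [sg, h.symm]
    · rw [Equiv.swap_apply_left, Equiv.swap_apply_of_ne_of_ne hkl.symm hlj,
        S.cj_w_il h hkl.symm hlj]
      simp [sg, hkl.symm]
  · by_cases hkj : k = j
    · subst hkj
      by_cases hli : l = i
      · subst hli
        rw [Equiv.swap_apply_left, Equiv.swap_apply_right, S.cj_w_ji hn h]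
        simp [sg, hki]
      · rw [Equiv.swap_apply_right, Equiv.swap_apply_of_ne_of_ne hli hkl.symm,
          S.cj_w_jl h hli hkl.symm]
        simp [sg, hki, hli]
    · rw [Equiv.swap_apply_of_ne_of_ne hki hkj]
      by_cases hli : l = i
      · subst hli
        rw [Equiv.swap_apply_left, S.cj_w_ki h hki hkj]
        simp [sg, hki]
      · by_cases hlj : l = j
        · subst hlj
          rw [Equiv.swap_apply_right, S.cj_w_kj h hki hkj]
          simp [sg, hki, hli]
        · rw [Equiv.swap_apply_of_ne_of_ne hli hlj, S.cj_w_kl h hkl hki hkj hli hlj]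
          simp [sg, hki, hli]

end Stein

end Pool.Agent.CSP3
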