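import Pool.Agent.CSP3.Det
import Pool.Agent.CSP3.Lev3

/-!
# Detection in degree three (MODULE THETA)

`lam3 a b c α = ∑ i, f (∂_i (α x_i))` where `f` is the linear functional on the Magnus expansions in
degree three with `f (abc) = f (bac) = 0`, `f (bca) = f (cba) = 1`, `f (cab) = f (acb) = -1` and
`f = 0` on all other monomials.

* Additivity on `AA 3 n 3`: `mu_map_four`.
* `lam3` vanishes on `N0`.  Let `RR = MonoidAlgebra (ZMod 3) (F n)`, `J(α) = (∂_j (α x_i))_{ij}`.
 (P1) `f (r * s) = f (s * r)` if the Magnus coefficients of `s` of degrees 0, 1 vanish and those of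
 degree 2 are symmetric (`mu 3 [a, b] s = mu 3 [b, a] s`): the coefficient of `mu 3 [a] r * mu 3 [b, c] s` in
 the difference is `f(abc) + f(acb) - f(bca) - f(cba) = -3 = 0`, similarly for `b`, `c`.
 (P2) `f` vanishes on elements whose degree 3 part is symmetric (the sum of the six values is 0).
 Chain rule: `J(αβ) = α(J(β)) J(α)` (entrywise action of `α`).  For `γ = R i (x j) ^ 3`:
 `γ r = r + (degree 1 coefficients of r) * X_j ^ 3 + degree ≥ 4`, `J(γ) = 1 + E_ij x_i (x_j - 1)^2`
 (mod 3).  `J(β γ β⁻¹) = βγ(J(β⁻¹)) * β(J(γ)) * J(β)`, `βγ(J(β⁻¹)) = β(J(β⁻¹)) + (degree 3, symmetric)`,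
 `β(J(β⁻¹)) = J(β)⁻¹`.  So `f (tr (J(β γ β⁻¹) - 1)) = f (tr (g⁻¹ Y g))`, `g = J(β)`, `Y = β(J(γ) - 1)`
 `= f (tr Y) = 0` by (P1), since the entries of `Y` satisfy the condition of (P1) (they are
 `β(x_i (x_j - 1)^2)` in place `(i, j)`, `i ≠ j`, and 0 otherwise); (P2) kills the correction.
* Values on `C p ⁅⁅x a, x b⁆, x c⁆`, `p ∉ {a, b, c}`: only `i = p` contributes, `∂_p (z⁻¹ x_p z) = z⁻¹`
 up to `∂_p z = 0`; so the value is `f (z⁻¹) = - f (degree 3 part of z) ≠ 0`
 (`abc - bac - cab + cba ↦ 0 - 0 + 1 + 1 = 2`, hence the value `-2 = 1`). -/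

set_option autoImplicit false

namespace Pool.Agent.CSP3

open scoped commutatorElement

variable {n : ℕ}

/-! ### the group ring -/

abbrev thRR (n : ℕ) := MonoidAlgebra (ZMod 3) (F n)

/-- the group element as an element of the group ring -/
noncomputable def thg (g : F n) : thRR n := MonoidAlgebra.single g 1

theorem thg_mul (g h : F n) : thg (g * h) = thg g * thg h := by
  unfold thg
  rw [MonoidAlgebra.single_mul_single, mul_one]

theorem thg_one : thg (1 : F n) = 1 := rfl

/-- additive and homogeneous predicates are checked on the group elements -/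
theorem th_ind {P : thRR n → Prop} (r : thRR n) (h0 : P 0)
    (hadd : ∀ r s, P r → P s → P (r + s)) (hsm : ∀ (c : ZMod 3) (g : F n), P (c • thg g)) :
    P r := by
  refine MonoidAlgebra.induction_linear r h0 (fun a b => hadd a b) fun g c => ?_
  have := hsm c g
  unfold thg at this
  rwa [MonoidAlgebra.smul_single, smul_eq_mul, mul_one] at this

/-- the linear extension of `mu 3 w` -/
noncomputable def thnu (w : List (Fin n)) : thRR n →ₗ[ZMod 3] ZMod 3 :=
  (MonoidAlgebra.basis (F n) (ZMod 3)).constr (ZMod 3) (fun g => mu 3 w g)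

theorem thnu_g (w : List (Fin n)) (g : F n) : thnu w (thg g) = mu 3 w g := by
  have := (MonoidAlgebra.basis (F n) (ZMod 3)).constr_basis (ZMod 3) (fun g => mu 3 w g) g
  rwa [MonoidAlgebra.basis_apply] at this

theorem thnu_mul (w : List (Fin n)) (r s : thRR n) :
    thnu w (r * s) =
      ∑ k ∈ Finset.range (w.length + 1), thnu (w.take k) r * thnu (w.drop k) s := by
  induction r using th_ind with
  | h0 => simp
  | hadd r r' hr hr' =>
    rw [add_mul, map_add, hr, hr', ← Finset.sum_add_distrib]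
    refine Finset.sum_congr rfl fun k _ => ?_
    rw [map_add, add_mul]
  | hsm c g =>
    induction s using th_ind with
    | h0 => simp
    | hadd s s' hs hs' =>
      rw [mul_add, map_add, hs, hs', ← Finset.sum_add_distrib]
      refine Finset.sum_congr rfl fun k _ => ?_
      rw [map_add, mul_add]
    | hsm d h =>
      rw [smul_mul_smul_comm, ← thg_mul, map_smul, thnu_g, mu_mul, smul_eq_mul, Finset.mul_sum]
      refine Finset.sum_congr rfl fun k _ => ?_
      rw [map_smul, map_smul, thnu_g, thnu_g, smul_eq_mul, smul_eq_mul]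
      ring

theorem thnu_one_nil : thnu [] (1 : thRR n) = 1 := by
  rw [← thg_one, thnu_g, mu_nil]

theorem thnu_one {w : List (Fin n)} (hw : w ≠ []) : thnu w (1 : thRR n) = 0 := by
  rw [← thg_one, thnu_g, mu_one hw]

theorem thnu0 (r s : thRR n) : thnu [] (r * s) = thnu [] r * thnu [] s := by
  rw [thnu_mul]
  simp

theorem thnu1 (p : Fin n) (r s : thRR n) :
    thnu [p] (r * s) = thnu [] r * thnu [p] s + thnu [p] r * thnu [] s := by
  rw [thnu_mul]
  simp [Finset.sum_range_succ]

theorem thnu2 (p q : Fin n) (r s : thRR n) :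
    thnu [p, q] (r * s) = thnu [] r * thnu [p, q] s + thnu [p] r * thnu [q] s +
      thnu [p, q] r * thnu [] s := by
  rw [thnu_mul]
  simp [Finset.sum_range_succ]

theorem thnu3 (p q m : Fin n) (r s : thRR n) :
    thnu [p, q, m] (r * s) = thnu [] r * thnu [p, q, m] s + thnu [p] r * thnu [q, m] s +
      thnu [p, q] r * thnu [m] s + thnu [p, q, m] r * thnu [] s := by
  rw [thnu_mul]
  simp [Finset.sum_range_succ]

/-! ### Fox derivatives -/

/-- the action of `F n` on the group ring by affine maps -/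
noncomputable def thP (j : Fin n) : F n →* Equiv.Perm (thRR n) :=
  FreeGroup.lift fun i =>
    { toFun := fun r => thg (x i) * r + (if i = j then 1 else 0)
      invFun := fun r => thg (x i)⁻¹ * (r - (if i = j then 1 else 0))
      left_inv := fun r => by
        simp only [add_sub_cancel_right]
        rw [← mul_assoc, ← thg_mul, inv_mul_cancel, thg_one, one_mul]
      right_inv := fun r => by
        simp only []
        rw [← mul_assoc, ← thg_mul, mul_inv_cancel, thg_one, one_mul, sub_add_cancel] }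

/-- the Fox derivative -/
noncomputable def thd (j : Fin n) (g : F n) : thRR n := thP j g 0

theorem thP_apply (j : Fin n) (g : F n) (r : thRR n) : thP j g r = thg g * r + thd j g := by
  induction g using FreeGroup.induction_on generalizing r with
  | C1 =>
    unfold thd
    rw [map_one, thg_one, one_mul]
    simp
  | of i =>
    show thP j (x i) r = thg (x i) * r + thP j (x i) 0
    unfold thP
    rw [FreeGroup.lift_apply_of]
    simp
  | inv_of i _ =>
    show thP j (x i)⁻¹ r = thg (x i)⁻¹ * r + thP j (x i)⁻¹ 0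
    unfold thP
    rw [map_inv, FreeGroup.lift_apply_of]
    show thg (x i)⁻¹ * (r - (if i = j then 1 else 0)) =
      thg (x i)⁻¹ * r + thg (x i)⁻¹ * (0 - (if i = j then 1 else 0))
    rw [mul_sub, mul_sub, mul_zero, zero_sub, sub_eq_add_neg]
  | mul g h hg hh =>
    unfold thd at hg hh ⊢
    rw [map_mul, Equiv.Perm.mul_apply, Equiv.Perm.mul_apply, hh r, hg, hg (thP j h 0), thg_mul,
      mul_add, mul_assoc, add_assoc]

theorem thd_mul (j : Fin n) (g h : F n) : thd j (g * h) = thd j g + thg g * thd j h := by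
  have h1 : thd j (g * h) = thP j g (thd j h) := by
    unfold thd
    rw [map_mul, Equiv.Perm.mul_apply]
  rw [h1, thP_apply, add_comm]

theorem thd_one (j : Fin n) : thd j (1 : F n) = 0 := by
  unfold thd
  rw [map_one, Equiv.Perm.one_apply]

theorem thd_x (i j : Fin n) : thd j (x i) = if i = j then 1 else 0 := by
  unfold thd thP
  rw [FreeGroup.lift_apply_of]
  simp

/-- crossed homomorphisms vanishing on the generators vanish -/
theorem th_cross {M : Type*} [AddCommGroup M] (E : F n → M) (ρ : F n → M → M)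
    (h0 : ∀ g, ρ g 0 = 0) (hmul : ∀ g h, E (g * h) = E g + ρ g (E h)) (hx : ∀ i, E (x i) = 0)
    (h1 : E 1 = 0) (g : F n) : E g = 0 := by
  induction g using FreeGroup.induction_on with
  | C1 => exact h1
  | of i => exact hx i
  | inv_of i _ =>
    have h2 := hmul (x i)⁻¹ (x i)
    rw [inv_mul_cancel, h1, hx, h0, add_zero] at h2
    exact h2.symm
  | mul g h hg hh => rw [hmul, hg, hh, h0, add_zero]

/-- the last letter of a Magnus coefficient -/
theorem thnu_d (j : Fin n) (g : F n) (w : List (Fin n)) :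
    thnu w (thd j g) = mu 3 (w ++ [j]) g := by
  have key := th_cross (M := List (Fin n) → ZMod 3)
    (fun g w => mu 3 (w ++ [j]) g - thnu w (thd j g))
    (fun g φ w => ∑ k ∈ Finset.range (w.length + 1), mu 3 (w.take k) g * φ (w.drop k))
    ?_ ?_ ?_ ?_ g
  · have := congrFun key w
    simp only [Pi.zero_apply] at this
    exact (sub_eq_zero.1 this).symm
  · intro g
    funext w
    simp
  · intro g h
    funext w
    simp only [Pi.add_apply]
    rw [thd_mul, map_add, thnu_mul, mu_mul]
    have hl : (w ++ [j]).length + 1 = w.length + 1 + 1 := by simp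
    rw [hl, Finset.sum_range_succ]
    have e1 : (w ++ [j]).take (w.length + 1) = w ++ [j] := by
      rw [List.take_of_length_le]; simp
    have e2 : (w ++ [j]).drop (w.length + 1) = [] := by
      rw [List.drop_of_length_le]; simp
    rw [e1, e2, mu_nil, mul_one]
    have e3 : ∀ k ∈ Finset.range (w.length + 1),
        mu 3 ((w ++ [j]).take k) g * mu 3 ((w ++ [j]).drop k) h =
        mu 3 (w.take k) g * (mu 3 (w.drop k ++ [j]) h - thnu (w.drop k) (thd j h)) +
        thnu (w.take k) (thg g) * thnu (w.drop k) (thd j h) := by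
      intro k hk
      have hk' : k ≤ w.length := Nat.lt_succ_iff.1 (Finset.mem_range.1 hk)
      rw [List.take_append_of_le_length hk', List.drop_append_of_le_length hk', thnu_g]
      ring
    rw [Finset.sum_congr rfl e3, Finset.sum_add_distrib]
    ring
  · intro i
    funext w
    simp only [Pi.zero_apply]
    rw [thd_x]
    rcases w with _ | ⟨q, w⟩
    · rw [List.nil_append, mu_x]
      split_ifs with h1 h2 h2
      · rw [thnu_one_nil, sub_self]
      · exact absurd h1.symm h2
      · exact absurd h2.symm h1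
      · simp
    · rw [mu_x_two i (by simp)]
      split_ifs with h1
      · rw [thnu_one (by simp), sub_self]
      · simp
  · funext w
    simp only [Pi.zero_apply]
    rw [thd_one, map_zero, mu_one (by simp), sub_self]

/-- the action of an endomorphism on the group ring -/
noncomputable def tha (f : F n →* F n) : thRR n →+* thRR n := MonoidAlgebra.mapDomainRingHom (ZMod 3) f

theorem tha_g (f : F n →* F n) (g : F n) : tha f (thg g) = thg (f g) := by
  unfold tha thg
  simp

theorem tha_comp (f h : F n →* F n) (r : thRR n) : tha f (tha h r) = tha (f.comp h) r := by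
  unfold tha
  rw [MonoidAlgebra.mapDomainRingHom_comp]
  rfl

theorem tha_id (r : thRR n) : tha (MonoidHom.id (F n)) r = r := by
  unfold tha
  rw [MonoidAlgebra.mapDomainRingHom_id]
  rfl

/-- the chain rule -/
theorem thd_chain (f : F n →* F n) (j : Fin n) (g : F n) :
    thd j (f g) = ∑ k : Fin n, tha f (thd k g) * thd j (f (x k)) := by
  have key := th_cross (M := thRR n)
    (fun g => thd j (f g) - ∑ k : Fin n, tha f (thd k g) * thd j (f (x k)))
    (fun g r => thg (f g) * r) ?_ ?_ ?_ ?_ g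
  · exact sub_eq_zero.1 key
  · intro g
    exact mul_zero _
  · intro g h
    have e : ∑ k : Fin n, tha f (thd k (g * h)) * thd j (f (x k)) =
        (∑ k : Fin n, tha f (thd k g) * thd j (f (x k))) +
        thg (f g) * ∑ k : Fin n, tha f (thd k h) * thd j (f (x k)) := by
      rw [Finset.mul_sum, ← Finset.sum_add_distrib]
      refine Finset.sum_congr rfl fun k _ => ?_
      rw [thd_mul, map_add, map_mul, tha_g, add_mul, mul_assoc]
    show thd j (f (g * h)) - ∑ k : Fin n, tha f (thd k (g * h)) * thd j (f (x k)) =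
      (thd j (f g) - ∑ k : Fin n, tha f (thd k g) * thd j (f (x k))) +
      thg (f g) * (thd j (f h) - ∑ k : Fin n, tha f (thd k h) * thd j (f (x k)))
    rw [e, map_mul, thd_mul, mul_sub]
    abel
  · intro i
    show thd j (f (x i)) - ∑ k : Fin n, tha f (thd k (x i)) * thd j (f (x k)) = 0
    rw [sub_eq_zero]
    rw [Finset.sum_eq_single i]
    · rw [thd_x, if_pos rfl, map_one, one_mul]
    · intro k _ hk
      rw [thd_x, if_neg (fun h => hk h.symm), map_zero, zero_mul]
    · intro h
      exact absurd (Finset.mem_univ i) h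
  · show thd j (f 1) - ∑ k : Fin n, tha f (thd k 1) * thd j (f (x k)) = 0
    rw [map_one, thd_one]
    simp [thd_one]

/-! ### the functional -/

/-- the linear functional in degree three -/
noncomputable def thf (a b c : Fin n) (r : thRR n) : ZMod 3 :=
  thnu [b, c, a] r + thnu [c, b, a] r - thnu [c, a, b] r - thnu [a, c, b] r

theorem thf_add (a b c : Fin n) (r s : thRR n) :
    thf a b c (r + s) = thf a b c r + thf a b c s := by
  unfold thf
  rw [map_add, map_add, map_add, map_add]
  ring

theorem thf_zero (a b c : Fin n) : thf a b c (0 : thRR n) = 0 := by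
  unfold thf
  rw [map_zero, map_zero, map_zero, map_zero]
  ring

theorem thf_sum (a b c : Fin n) {ι : Type*} (s : Finset ι) (r : ι → thRR n) :
    thf a b c (∑ i ∈ s, r i) = ∑ i ∈ s, thf a b c (r i) := by
  classical
  induction s using Finset.induction_on with
  | empty => rw [Finset.sum_empty, Finset.sum_empty, thf_zero]
  | insert i s hi ih => rw [Finset.sum_insert hi, Finset.sum_insert hi, thf_add, ih]

theorem thf_smul (a b c : Fin n) (k : ZMod 3) (r : thRR n) :
    thf a b c (k • r) = k * thf a b c r := by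
  unfold thf
  rw [map_smul, map_smul, map_smul, map_smul]
  simp only [smul_eq_mul]
  ring

theorem thf_one (a b c : Fin n) : thf a b c (1 : thRR n) = 0 := by
  unfold thf
  rw [thnu_one (by simp), thnu_one (by simp), thnu_one (by simp), thnu_one (by simp)]
  ring

theorem th_three : (3 : ZMod 3) = 0 := rfl

/-- (P1) -/
theorem thf_swap (a b c : Fin n) (r s : thRR n) (h0 : thnu [] s = 0) (h1 : ∀ p, thnu [p] s = 0)
    (h2 : ∀ p q, thnu [p, q] s = thnu [q, p] s) : thf a b c (r * s) = thf a b c (s * r) := by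
  unfold thf
  simp only [thnu3, h0, h1, mul_zero, zero_mul, add_zero, zero_add]
  rw [h2 b a, h2 c b, h2 c a]
  linear_combination (thnu [b] r * thnu [a, c] s - thnu [a] r * thnu [b, c] s) * th_three

/-- (P2) -/
theorem thf_cube (a b c : Fin n) (u t s : thRR n) (h0 : thnu [] t = 0) :
    thf a b c (u * (t * t * t) * s) = 0 := by
  unfold thf
  simp only [thnu3, thnu2, thnu1, thnu0, h0, mul_zero, zero_mul, add_zero, zero_add]
  ring

theorem th_three_RR : (3 : thRR n) = 0 := by
  have h : ((3 : ZMod 3) • (1 : thRR n)) = 3 := by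
    have : (3 : ZMod 3) = 1 + 1 + 1 := rfl
    rw [this, add_smul, add_smul, one_smul]
    norm_num
  rw [← h, th_three, zero_smul]

theorem th_cube_sub (X : thRR n) : X * X * X = (X - 1) * (X - 1) * (X - 1) + 1 := by
  have h : (X - 1) * (X - 1) * (X - 1) + 1 = X * X * X + 3 * (X - X * X) := by noncomm_ring
  rw [h, th_three_RR, zero_mul, add_zero]

theorem th_sq_sub (X : thRR n) : 1 + X + X * X = (X - 1) * (X - 1) := by
  have h : (X - 1) * (X - 1) = 1 + X + X * X - 3 * X := by noncomm_ring
  rw [h, th_three_RR, zero_mul, sub_zero]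

theorem thnu_sub_one (g : F n) : thnu [] (thg g - 1) = 0 := by
  rw [map_sub, thnu_g, mu_nil, thnu_one_nil, sub_self]

theorem th_gam_self {i j : Fin n} (h : i ≠ j) : (R i (x j) ^ 3 : A n) (x i) = x i * (x j * x j * x j) := by
  rw [← map_pow, R_apply_self, map_pow, kill_ne h.symm, pow_succ, pow_succ, pow_one]

theorem th_gam_ne {i j k : Fin n} (h : k ≠ i) : (R i (x j) ^ 3 : A n) (x k) = x k := by
  rw [← map_pow, R_apply_ne h]

/-- the functional does not see the transvection cubes -/
theorem thf_gam (a b c : Fin n) {i j : Fin n} (h : i ≠ j) (f : F n →* F n) (g : F n)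
    (r s : thRR n) : thf a b c (r * thg (f ((R i (x j) ^ 3 : A n) g)) * s) =
      thf a b c (r * thg (f g) * s) := by
  induction g using FreeGroup.induction_on generalizing r s with
  | C1 => rw [map_one]
  | of k =>
    by_cases hk : k = i
    · subst hk
      show thf a b c (r * thg (f ((R k (x j) ^ 3 : A n) (x k))) * s) =
        thf a b c (r * thg (f (x k)) * s)
      rw [th_gam_self h, map_mul, map_mul, map_mul, thg_mul, thg_mul, thg_mul, th_cube_sub]
      have e : r * (thg (f (x k)) * ((thg (f (x j)) - 1) * (thg (f (x j)) - 1) *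
          (thg (f (x j)) - 1) + 1)) * s = (r * thg (f (x k))) * ((thg (f (x j)) - 1) *
          (thg (f (x j)) - 1) * (thg (f (x j)) - 1)) * s + r * thg (f (x k)) * s := by
        noncomm_ring
      rw [e, thf_add, thf_cube a b c _ _ _ (thnu_sub_one _), zero_add]
    · show thf a b c (r * thg (f ((R i (x j) ^ 3 : A n) (x k))) * s) =
        thf a b c (r * thg (f (x k)) * s)
      rw [th_gam_ne hk]
  | inv_of k hk =>
    set φ : A n := R i (x j) ^ 3 with hφ
    have hk' : ∀ r s : thRR n, thf a b c (r * thg (f (φ (x k))) * s) =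
      thf a b c (r * thg (f (x k)) * s) := hk
    show thf a b c (r * thg (f (φ (x k)⁻¹)) * s) = thf a b c (r * thg (f (x k)⁻¹) * s)
    have e := hk' (r * thg (f (φ (x k)⁻¹))) (thg (f (x k)⁻¹) * s)
    have e1 : r * thg (f (φ (x k)⁻¹)) * thg (f (φ (x k))) * (thg (f (x k)⁻¹) * s) =
        r * thg (f (x k)⁻¹) * s := by
      have : thg (f (φ (x k)⁻¹)) * thg (f (φ (x k))) = 1 := by
        rw [← thg_mul, ← map_mul, ← map_mul, inv_mul_cancel, map_one, map_one, thg_one]
      rw [mul_assoc r, this, mul_one, mul_assoc]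
    have e2 : r * thg (f (φ (x k)⁻¹)) * thg (f (x k)) * (thg (f (x k)⁻¹) * s) =
        r * thg (f (φ (x k)⁻¹)) * s := by
      have : thg (f (x k)) * thg (f (x k)⁻¹) = 1 := by
        rw [← thg_mul, ← map_mul, mul_inv_cancel, map_one, thg_one]
      rw [mul_assoc (r * thg (f (φ (x k)⁻¹))), ← mul_assoc (thg (f (x k))), this, one_mul]
    rw [e1, e2] at e
    exact e.symm
  | mul g g' hg hg' =>
    rw [map_mul, map_mul, map_mul, thg_mul, thg_mul]
    have e := hg' (r * thg (f ((R i (x j) ^ 3 : A n) g))) s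
    have e' := hg r (thg (f g') * s)
    calc thf a b c (r * (thg (f ((R i (x j) ^ 3 : A n) g)) * thg (f ((R i (x j) ^ 3 : A n) g'))) * s)
        = thf a b c (r * thg (f ((R i (x j) ^ 3 : A n) g)) *
          thg (f ((R i (x j) ^ 3 : A n) g')) * s) := by simp only [mul_assoc]
      _ = thf a b c (r * thg (f ((R i (x j) ^ 3 : A n) g)) * thg (f g') * s) := e
      _ = thf a b c (r * thg (f ((R i (x j) ^ 3 : A n) g)) * (thg (f g') * s)) := by
          simp only [mul_assoc]
      _ = thf a b c (r * thg (f g) * (thg (f g') * s)) := e'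
      _ = thf a b c (r * (thg (f g) * thg (f g')) * s) := by
          simp only [mul_assoc]

theorem thf_gamR (a b c : Fin n) {i j : Fin n} (h : i ≠ j) (f : F n →* F n) (t s : thRR n) :
    thf a b c (tha f (tha (R i (x j) ^ 3 : A n).toMonoidHom t) * s) =
      thf a b c (tha f t * s) := by
  induction t using th_ind with
  | h0 => rw [map_zero, map_zero]
  | hadd t t' ht ht' =>
    rw [map_add, map_add, map_add, add_mul, add_mul, thf_add, thf_add, ht, ht']
  | hsm k g =>
    have e : ∀ (f' : F n →* F n) (u : thRR n), tha f' (k • u) = k • tha f' u := by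
      intro f' u
      have : k • u = (MonoidAlgebra.single 1 k : thRR n) * u := by
        induction u using th_ind with
        | h0 => simp
        | hadd u v hu hv => rw [smul_add, hu, hv, mul_add]
        | hsm d g =>
          unfold thg
          simp [MonoidAlgebra.single_mul_single]
      rw [this, map_mul]
      have e2 : tha f' (MonoidAlgebra.single 1 k : thRR n) = MonoidAlgebra.single 1 k := by
        unfold tha
        simp
      rw [e2]
      induction (tha f' u) using th_ind with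
      | h0 => simp
      | hadd u v hu hv => rw [smul_add, ← hu, ← hv, mul_add]
      | hsm d g =>
        unfold thg
        simp [MonoidAlgebra.single_mul_single]
    rw [e, e, e, smul_mul_assoc, smul_mul_assoc, thf_smul, thf_smul, tha_g, tha_g, tha_g]
    have := thf_gam a b c h f g 1 s
    rw [one_mul, one_mul] at this
    rw [← this]
    rfl

noncomputable def lam3 (a b c : Fin n) (α : A n) : ZMod 3 :=
  ∑ i : Fin n, (mu 3 [b, c, a, i] (α (x i)) + mu 3 [c, b, a, i] (α (x i)) -
    mu 3 [c, a, b, i] (α (x i)) - mu 3 [a, c, b, i] (α (x i)))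

theorem th_lam3_eq (a b c : Fin n) (α : A n) :
    lam3 a b c α = ∑ i : Fin n, thf a b c (thd i (α (x i))) := by
  unfold lam3 thf
  refine Finset.sum_congr rfl fun i _ => ?_
  rw [thnu_d, thnu_d, thnu_d, thnu_d]
  rfl

/-- the Fox derivatives of `γ h` -/
theorem thd_gam {i j : Fin n} (h : i ≠ j) (l : Fin n) (g : F n) :
    thd l ((R i (x j) ^ 3 : A n) g) = tha (R i (x j) ^ 3 : A n).toMonoidHom (thd l g) +
      if l = j then tha (R i (x j) ^ 3 : A n).toMonoidHom (thd i g) *
        (thg (x i) * ((thg (x j) - 1) * (thg (x j) - 1))) else 0 := by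
  have h1 := thd_chain (R i (x j) ^ 3 : A n).toMonoidHom l g
  have h2 : ∀ k : Fin n, thd l ((R i (x j) ^ 3 : A n).toMonoidHom (x k)) =
      (if k = l then 1 else 0) + (if k = i then (if l = j then
        thg (x i) * ((thg (x j) - 1) * (thg (x j) - 1)) else 0) else 0) := by
    intro k
    show thd l ((R i (x j) ^ 3 : A n) (x k)) = _
    by_cases hk : k = i
    · subst hk
      rw [th_gam_self h, thd_mul, thd_mul, thd_mul, thd_x, thd_x, if_pos rfl, thg_mul]
      by_cases hl : j = l
      · subst hl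
        rw [if_pos rfl, if_pos rfl, ← th_sq_sub]
        noncomm_ring
      · rw [if_neg hl, if_neg (fun h' : l = j => hl h'.symm)]
        noncomm_ring
    · rw [th_gam_ne hk, thd_x, if_neg hk, add_zero]
  have h3 : thd l ((R i (x j) ^ 3 : A n) g) = ∑ k : Fin n,
      tha (R i (x j) ^ 3 : A n).toMonoidHom (thd k g) *
        thd l ((R i (x j) ^ 3 : A n).toMonoidHom (x k)) := h1
  rw [h3]
  simp only [h2]
  rw [show (∑ k : Fin n, tha (R i (x j) ^ 3 : A n).toMonoidHom (thd k g) *
      ((if k = l then 1 else 0) + (if k = i then (if l = j then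
        thg (x i) * ((thg (x j) - 1) * (thg (x j) - 1)) else 0) else 0))) =
      (∑ k : Fin n, if k = l then tha (R i (x j) ^ 3 : A n).toMonoidHom (thd k g) else 0) +
      ∑ k : Fin n, if k = i then tha (R i (x j) ^ 3 : A n).toMonoidHom (thd k g) *
        (if l = j then thg (x i) * ((thg (x j) - 1) * (thg (x j) - 1)) else 0) else 0 from ?_]
  · rw [Finset.sum_ite_eq' Finset.univ l, Finset.sum_ite_eq' Finset.univ i,
      if_pos (Finset.mem_univ _), if_pos (Finset.mem_univ _)]
    congr 1
    split_ifs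
    · rfl
    · rw [mul_zero]
  · rw [← Finset.sum_add_distrib]
    refine Finset.sum_congr rfl fun k _ => ?_
    rw [mul_add]
    congr 1
    · split_ifs
      · rw [mul_one]
      · rw [mul_zero]
    · split_ifs
      · rfl
      · rfl
      · rw [mul_zero]

/-- the Fox derivative of `β γ h` -/
theorem thd_bgam {i j : Fin n} (h : i ≠ j) (β : F n →* F n) (m : Fin n) (g : F n) :
    thd m (β ((R i (x j) ^ 3 : A n) g)) =
      (∑ l : Fin n, tha β (tha (R i (x j) ^ 3 : A n).toMonoidHom (thd l g)) * thd m (β (x l))) +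
      tha β (tha (R i (x j) ^ 3 : A n).toMonoidHom (thd i g)) *
        (thg (β (x i)) * ((thg (β (x j)) - 1) * (thg (β (x j)) - 1))) * thd m (β (x j)) := by
  rw [thd_chain]
  have e : ∀ l : Fin n, tha β (thd l ((R i (x j) ^ 3 : A n) g)) * thd m (β (x l)) =
      tha β (tha (R i (x j) ^ 3 : A n).toMonoidHom (thd l g)) * thd m (β (x l)) +
      if l = j then tha β (tha (R i (x j) ^ 3 : A n).toMonoidHom (thd i g)) *
        (thg (β (x i)) * ((thg (β (x j)) - 1) * (thg (β (x j)) - 1))) * thd m (β (x l))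
        else 0 := by
    intro l
    rw [thd_gam h, map_add, add_mul]
    congr 1
    split_ifs
    · rw [map_mul, map_mul, map_mul, map_sub, map_one, tha_g, tha_g]
    · rw [map_zero, zero_mul]
  rw [Finset.sum_congr rfl fun l _ => e l, Finset.sum_add_distrib, Finset.sum_ite_eq',
    if_pos (Finset.mem_univ _)]

theorem th_lam3_conj (a b c : Fin n) {i j : Fin n} (h : i ≠ j) (β : A n) :
    lam3 a b c (β * R i (x j) ^ 3 * β⁻¹) = 0 := by
  rw [th_lam3_eq]
  have e : ∀ m : Fin n, thf a b c (thd m ((β * R i (x j) ^ 3 * β⁻¹ : A n) (x m))) =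
      thf a b c (thd m (β.toMonoidHom (x j)) * tha β.toMonoidHom (thd i (β⁻¹ (x m))) *
        (thg (β (x i)) * ((thg (β (x j)) - 1) * (thg (β (x j)) - 1)))) := by
    intro m
    have e1 : (β * R i (x j) ^ 3 * β⁻¹ : A n) (x m) =
        β.toMonoidHom ((R i (x j) ^ 3 : A n) (β⁻¹ (x m))) := rfl
    rw [e1, thd_bgam h, thf_add, thf_sum]
    have e2 : ∀ l ∈ (Finset.univ : Finset (Fin n)),
        thf a b c (tha β.toMonoidHom (tha (R i (x j) ^ 3 : A n).toMonoidHom
          (thd l (β⁻¹ (x m)))) * thd m (β.toMonoidHom (x l))) =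
        thf a b c (tha β.toMonoidHom (thd l (β⁻¹ (x m))) * thd m (β.toMonoidHom (x l))) :=
      fun l _ => thf_gamR a b c h _ _ _
    rw [Finset.sum_congr rfl e2, ← thf_sum, ← thd_chain]
    have e3 : β.toMonoidHom (β⁻¹ (x m)) = x m := by
      show β (β⁻¹ (x m)) = x m
      rw [← MulAut.mul_apply, mul_inv_cancel, MulAut.one_apply]
    rw [e3, thd_x, if_pos rfl, thf_one, zero_add, mul_assoc, thf_gamR a b c h, ← mul_assoc]
    have e4 : ∀ r s : thRR n, thf a b c (s * r) = thf a b c (r * s) → thf a b c (s * r) =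
      thf a b c (r * s) := fun _ _ h => h
    rw [mul_assoc (thd m (β.toMonoidHom (x j)))]
    symm
    refine thf_swap a b c _ _ ?_ ?_ ?_
    · simp only [thnu0, thnu_sub_one, mul_zero, MulEquiv.toMonoidHom_eq_coe]
    · intro p
      simp only [thnu1, thnu0, thnu_sub_one, mul_zero, zero_mul, add_zero, MulEquiv.toMonoidHom_eq_coe]
    · intro p q
      simp only [thnu2, thnu1, thnu0, thnu_sub_one, mul_zero, zero_mul, add_zero, zero_add, MulEquiv.toMonoidHom_eq_coe]
      ring
  rw [Finset.sum_congr rfl fun m _ => e m, ← thf_sum, ← Finset.sum_mul]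
  have e5 : ∑ m : Fin n, thd m (β.toMonoidHom (x j)) * tha β.toMonoidHom (thd i (β⁻¹ (x m))) = 0 := by
    have e6 : ∀ m ∈ (Finset.univ : Finset (Fin n)), thd m (β.toMonoidHom (x j)) *
        tha β.toMonoidHom (thd i (β⁻¹ (x m))) = tha β.toMonoidHom
          (tha β⁻¹.toMonoidHom (thd m (β.toMonoidHom (x j))) * thd i (β⁻¹.toMonoidHom (x m))) := by
      intro m _
      rw [map_mul, tha_comp]
      have : β.toMonoidHom.comp β⁻¹.toMonoidHom = MonoidHom.id (F n) := by
        ext y
        show β (β⁻¹ (x y)) = x y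
        rw [← MulAut.mul_apply, mul_inv_cancel, MulAut.one_apply]
      rw [this, tha_id]
      rfl
    rw [Finset.sum_congr rfl e6, ← map_sum, ← thd_chain]
    have e7 : β⁻¹.toMonoidHom (β.toMonoidHom (x j)) = x j := by
      show β⁻¹ (β (x j)) = x j
      rw [← MulAut.mul_apply, inv_mul_cancel, MulAut.one_apply]
    rw [e7, thd_x, if_neg (fun h' => h h'.symm), map_zero]
  rw [e5, zero_mul, thf_zero]

theorem lam3_add (a b c : Fin n) {α β : A n} (ha : α ∈ AA 3 n 3) (hb : β ∈ AA 3 n 3) :
    lam3 a b c (α * β) = lam3 a b c α + lam3 a b c β := by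
  have key : ∀ (i : Fin n) (w : List (Fin n)), w.length = 4 →
      mu 3 w ((α * β) (x i)) = mu 3 w (β (x i)) + mu 3 w (α (x i)) := by
    intro i w hw
    exact mu_map_four α.toMonoidHom (fun k => ha (x k)) (i := i) (g := β (x i)) (hb (x i)) w hw
  unfold lam3
  rw [← Finset.sum_add_distrib]
  refine Finset.sum_congr rfl fun i _ => ?_
  rw [key i _ rfl, key i _ rfl, key i _ rfl, key i _ rfl]
  ring

theorem lam3_AA5 (a b c : Fin n) {α : A n} (ha : α ∈ AA 3 n 5) : lam3 a b c α = 0 := by
  have key : ∀ (i : Fin n) (w : List (Fin n)), w.length = 4 → mu 3 w (α (x i)) = 0 := by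
    intro i w hw
    have h1 : α (x i) = (α (x i) * (x i)⁻¹) * x i := by group
    have h2 : α (x i) * (x i)⁻¹ ∈ DD 3 n 5 := ha (x i)
    rw [h1, mu_mul]
    refine Finset.sum_eq_zero fun k hk => ?_
    rcases Nat.eq_zero_or_pos k with h0 | h0
    · subst h0
      rw [List.drop_zero, mu_x_two i (by omega), mul_zero]
    · have hk' := Finset.mem_range.1 hk
      have hl : (w.take k).length = k := by
        rw [List.length_take]; omega
      rw [h2 (w.take k) (fun h => by rw [h] at hl; simp at hl; omega) (by omega), zero_mul]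
  unfold lam3
  refine Finset.sum_eq_zero fun i _ => ?_
  rw [key i _ rfl, key i _ rfl, key i _ rfl, key i _ rfl]
  ring

theorem th_lam3_one (a b c : Fin n) : lam3 a b c (1 : A n) = 0 := by
  have h := lam3_add a b c (AA 3 n 3).one_mem (AA 3 n 3).one_mem
  rw [mul_one] at h
  have : lam3 a b c (1 : A n) + 0 = lam3 a b c (1 : A n) + lam3 a b c (1 : A n) := by
    rw [add_zero]; exact h
  exact (add_left_cancel this).symm

theorem lam3_N0 {a b c : Fin n} (hab : a ≠ b) (hac : a ≠ c) (hbc : b ≠ c) {α : A n}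
    (ha : α ∈ N0 n) : lam3 a b c α = 0 := by
  have key : α ∈ AA 3 n 3 ∧ lam3 a b c α = 0 := by
    unfold N0 Subgroup.normalClosure at ha
    induction ha using Subgroup.closure_induction with
    | mem g hg =>
      rw [Group.mem_conjugatesOfSet_iff] at hg
      obtain ⟨t, ⟨i, j, hij, rfl⟩, ht⟩ := hg
      rw [isConj_iff] at ht
      obtain ⟨β, rfl⟩ := ht
      exact ⟨(AA_normal 3 3).conj_mem _ (cube_mem_AA3 hij) β, th_lam3_conj a b c hij β⟩
    | one => exact ⟨(AA 3 n 3).one_mem, th_lam3_one a b c⟩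
    | mul g h _ _ hg hh =>
      exact ⟨(AA 3 n 3).mul_mem hg.1 hh.1, by rw [lam3_add a b c hg.1 hh.1, hg.2, hh.2, add_zero]⟩
    | inv g _ hg =>
      refine ⟨(AA 3 n 3).inv_mem hg.1, ?_⟩
      have h := lam3_add a b c ((AA 3 n 3).inv_mem hg.1) hg.1
      rw [inv_mul_cancel, th_lam3_one, hg.2, add_zero] at h
      exact h.symm
  exact key.2

/-! ### the values -/

theorem thd_O {p : Fin n} {z : F n} (hz : z ∈ O p) : thd p z = 0 := by
  have h := thd_chain (kill p) p z
  rw [kill_of_mem hz] at h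
  rw [h]
  refine Finset.sum_eq_zero fun k _ => ?_
  by_cases hk : k = p
  · subst hk
    rw [kill_self, thd_one, mul_zero]
  · rw [kill_ne hk, thd_x, if_neg hk, mul_zero]

theorem th_lam3_C (a b c : Fin n) {p : Fin n} {z : F n} (hz : z ∈ O p) :
    lam3 a b c (C p z) = thf a b c (thg z⁻¹) := by
  rw [th_lam3_eq, Finset.sum_eq_single p]
  · rw [C_apply_self, kill_of_mem hz, thd_mul, thd_mul, thd_O hz, thd_O ((O p).inv_mem hz), thd_x,
      if_pos rfl, mul_one, mul_zero, zero_add, add_zero]
  · intro i _ hi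
    rw [C_apply_ne hi, thd_x, if_pos rfl, thf_one]
  · intro h
    exact absurd (Finset.mem_univ p) h

theorem th_DD1 (g : F n) : g ∈ DD 3 n 1 := by
  intro w hw hl
  have : w.length = 0 := by omega
  exact absurd (List.length_eq_zero_iff.1 this) hw

theorem th_u_mem (a' b' : Fin n) : ⁅x a', x b'⁆ ∈ DD 3 n 2 :=
  comm_mem_DD (k := 1) (l := 1) (th_DD1 _) (th_DD1 _)

theorem th_z_mem (a' b' c' : Fin n) : ⁅⁅x a', x b'⁆, x c'⁆ ∈ DD 3 n 3 :=
  comm_mem_DD (k := 2) (l := 1) (th_u_mem a' b') (th_DD1 _)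

theorem th_u_val (a' b' p q : Fin n) : mu 3 [p, q] ⁅x a', x b'⁆ =
    (if p = a' then 1 else 0) * (if q = b' then 1 else 0) -
      (if p = b' then 1 else 0) * (if q = a' then 1 else 0) := by
  rw [mu_comm (k := 1) (l := 1) one_ne_zero one_ne_zero (th_DD1 _) (th_DD1 _) rfl]
  show mu 3 [p] (x a') * mu 3 [q] (x b') - mu 3 [p] (x b') * mu 3 [q] (x a') = _
  rw [mu_x, mu_x, mu_x, mu_x]

theorem th_z_val (a' b' c' p q m : Fin n) : mu 3 [p, q, m] ⁅⁅x a', x b'⁆, x c'⁆ =
    mu 3 [p, q] ⁅x a', x b'⁆ * (if m = c' then 1 else 0) -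
      (if p = c' then 1 else 0) * mu 3 [q, m] ⁅x a', x b'⁆ := by
  rw [mu_comm (k := 2) (l := 1) two_ne_zero one_ne_zero (th_u_mem a' b') (th_DD1 _) rfl]
  show mu 3 [p, q] ⁅x a', x b'⁆ * mu 3 [m] (x c') -
    mu 3 [p] (x c') * mu 3 [q, m] ⁅x a', x b'⁆ = _
  rw [mu_x, mu_x]

theorem th_inv_val {z : F n} (hz : z ∈ DD 3 n 3) (p q m : Fin n) :
    mu 3 [p, q, m] z⁻¹ = - mu 3 [p, q, m] z := by
  have h := mu_mul (p := 3) [p, q, m] z⁻¹ z
  rw [inv_mul_cancel, mu_one (by simp)] at h
  have h1 : mu 3 [q, m] z = 0 := hz _ (by simp) (by simp)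
  have h2 : mu 3 [m] z = 0 := hz _ (by simp) (by simp)
  simp only [List.length_cons, List.length_nil, Finset.sum_range_succ, Finset.sum_range_zero,
    List.take_zero, List.drop_zero, List.take_succ_cons, List.drop_succ_cons, mu_nil, h1, h2,
    mul_zero, one_mul, mul_one, zero_add, add_zero] at h
  linear_combination -h

theorem th_lam3_val (a b c : Fin n) {a' b' c' p : Fin n} (ha : p ≠ a') (hb : p ≠ b') (hc : p ≠ c') :
    lam3 a b c (C p ⁅⁅x a', x b'⁆, x c'⁆) =
      - (mu 3 [b, c, a] ⁅⁅x a', x b'⁆, x c'⁆ + mu 3 [c, b, a] ⁅⁅x a', x b'⁆, x c'⁆ -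
        mu 3 [c, a, b] ⁅⁅x a', x b'⁆, x c'⁆ - mu 3 [a, c, b] ⁅⁅x a', x b'⁆, x c'⁆) := by
  have hz : ⁅⁅x a', x b'⁆, x c'⁆ ∈ O p :=
    comm_mem_O (comm_mem_O (x_mem_O ha.symm) (x_mem_O hb.symm)) (x_mem_O hc.symm)
  rw [th_lam3_C a b c hz]
  unfold thf
  rw [thnu_g, thnu_g, thnu_g, thnu_g, th_inv_val (th_z_mem a' b' c'),
    th_inv_val (th_z_mem a' b' c'), th_inv_val (th_z_mem a' b' c'), th_inv_val (th_z_mem a' b' c')]
  ring

theorem lam3_on {a b c p : Fin n} (hab : a ≠ b) (hac : a ≠ c) (hbc : b ≠ c) (ha : p ≠ a)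
    (hb : p ≠ b) (hc : p ≠ c) : lam3 a b c (C p ⁅⁅x a, x b⁆, x c⁆) ≠ 0 := by
  rw [th_lam3_val a b c ha hb hc]
  simp only [th_z_val, th_u_val, if_neg hab, if_neg hac, if_neg hbc, if_neg hab.symm,
    if_neg hac.symm, if_neg hbc.symm, if_true, mul_zero, zero_mul, mul_one, sub_zero, zero_sub]
  decide

theorem lam3_off {a b c a' b' c' p : Fin n} (hab : a < b) (hbc : b < c) (hab' : a' < b')
    (hbc' : b' < c') (hne : (a, b, c) ≠ (a', b', c')) (ha : p ≠ a') (hb : p ≠ b') (hc : p ≠ c') :
    lam3 a b c (C p ⁅⁅x a', x b'⁆, x c'⁆) = 0 := by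
  rw [th_lam3_val a b c ha hb hc]
  have hne' : ¬ ((a : ℕ) = a' ∧ (b : ℕ) = b' ∧ (c : ℕ) = c') := by
    rintro ⟨h1, h2, h3⟩
    exact hne (by rw [Fin.ext h1, Fin.ext h2, Fin.ext h3])
  have h1 : (a : ℕ) < b := hab
  have h2 : (b : ℕ) < c := hbc
  have h3 : (a' : ℕ) < b' := hab'
  have h4 : (b' : ℕ) < c' := hbc'
  simp only [th_z_val, th_u_val, Fin.ext_iff]
  by_cases g1 : (c : ℕ) = c'
  · have g2 : ¬ ((a : ℕ) = c') := by omega
    have g3 : ¬ ((b : ℕ) = c') := by omega
    have g4 : ¬ ((c : ℕ) = a') := by omega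
    have g5 : ¬ ((c : ℕ) = b') := by omega
    by_cases g6 : (a : ℕ) = a'
    · have g7 : ¬ ((b : ℕ) = b') := fun h => hne' ⟨g6, h, g1⟩
      have g8 : ¬ ((b : ℕ) = a') := by omega
      simp [g1, g2, g3, g4, g5, g6, g7, g8]
    · by_cases g7 : (a : ℕ) = b'
      · have g8 : ¬ ((b : ℕ) = a') := by omega
        have g9 : ¬ ((b : ℕ) = b') := by omega
        simp [g1, g2, g3, g4, g5, g6, g7, g8, g9]
      · simp [g1, g2, g3, g4, g5, g6, g7]
  · by_cases g2 : (a : ℕ) = c'
    · have g3 : ¬ ((b : ℕ) = a') := by omega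
      have g4 : ¬ ((b : ℕ) = b') := by omega
      have g5 : ¬ ((b : ℕ) = c') := by omega
      simp [g1, g2, g3, g4, g5]
    · by_cases g3 : (b : ℕ) = c'
      · have g4 : ¬ ((c : ℕ) = a') := by omega
        have g5 : ¬ ((c : ℕ) = b') := by omega
        simp [g1, g2, g3, g4, g5]
      · simp [g1, g2, g3]

end Pool.Agent.CSP3
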