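import Pool.Agent.CSP3.Theta
import Pool.Agent.CSP3.N4Def

/-!
# Detection in degree four, rank four: the relation `EE` (MODULE TH4A)

Let `Λ` be the exterior algebra on `e 0, …, e 3` over `F_3`, `Φ : thRR n → Λ`, `x i ↦ 1 + e i`.
We do not use `Λ`; the coefficients of `Φ r` are `thnu [] r`, `thnu [a] r`, `tt2 a b r`,
`tt3 a b c r`, `tt4 a b c d r`.
-/

set_option autoImplicit false

namespace Pool.Agent.CSP3

open scoped commutatorElement

variable {n : ℕ}

/-- coefficient of `e a * e b` -/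
noncomputable def tt2 (a b : Fin n) (r : thRR n) : ZMod 3 := thnu [a, b] r - thnu [b, a] r

/-- coefficient of `e a * e b * e c` -/
noncomputable def tt3 (a b c : Fin n) (r : thRR n) : ZMod 3 :=
  thnu [a, b, c] r - thnu [a, c, b] r - thnu [b, a, c] r + thnu [b, c, a] r + thnu [c, a, b] r -
    thnu [c, b, a] r

/-- coefficient of `e a * e b * e c * e d` -/
noncomputable def tt4 (a b c d : Fin n) (r : thRR n) : ZMod 3 :=
  (thnu [a, b, c, d] r - thnu [a, b, d, c] r - thnu [a, c, b, d] r + thnu [a, c, d, b] r +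
    thnu [a, d, b, c] r - thnu [a, d, c, b] r) -
  (thnu [b, a, c, d] r - thnu [b, a, d, c] r - thnu [b, c, a, d] r + thnu [b, c, d, a] r +
    thnu [b, d, a, c] r - thnu [b, d, c, a] r) +
  (thnu [c, a, b, d] r - thnu [c, a, d, b] r - thnu [c, b, a, d] r + thnu [c, b, d, a] r +
    thnu [c, d, a, b] r - thnu [c, d, b, a] r) -
  (thnu [d, a, b, c] r - thnu [d, a, c, b] r - thnu [d, b, a, c] r + thnu [d, b, c, a] r +
    thnu [d, c, a, b] r - thnu [d, c, b, a] r)

/-! ### MODULE TH4A -/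

theorem thnu4 (p q m l : Fin n) (r s : thRR n) :
    thnu [p, q, m, l] (r * s) = thnu [] r * thnu [p, q, m, l] s + thnu [p] r * thnu [q, m, l] s +
      thnu [p, q] r * thnu [m, l] s + thnu [p, q, m] r * thnu [l] s +
      thnu [p, q, m, l] r * thnu [] s := by
  rw [thnu_mul]
  simp [Finset.sum_range_succ]

theorem tt2_mul (a b : Fin n) (r s : thRR n) : tt2 a b (r * s) =
    thnu [] r * tt2 a b s + (thnu [a] r * thnu [b] s - thnu [b] r * thnu [a] s) +
      tt2 a b r * thnu [] s := by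
  unfold tt2
  simp only [thnu2]
  ring

theorem tt3_mul (a b c : Fin n) (r s : thRR n) : tt3 a b c (r * s) =
    thnu [] r * tt3 a b c s +
    (thnu [a] r * tt2 b c s - thnu [b] r * tt2 a c s + thnu [c] r * tt2 a b s) +
    (tt2 a b r * thnu [c] s - tt2 a c r * thnu [b] s + tt2 b c r * thnu [a] s) +
    tt3 a b c r * thnu [] s := by
  unfold tt3 tt2
  simp only [thnu3]
  ring

theorem tt4_mul (a b c d : Fin n) (r s : thRR n) : tt4 a b c d (r * s) =
    thnu [] r * tt4 a b c d s +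
    (thnu [a] r * tt3 b c d s - thnu [b] r * tt3 a c d s + thnu [c] r * tt3 a b d s -
      thnu [d] r * tt3 a b c s) +
    (tt2 a b r * tt2 c d s - tt2 a c r * tt2 b d s + tt2 a d r * tt2 b c s +
      tt2 b c r * tt2 a d s - tt2 b d r * tt2 a c s + tt2 c d r * tt2 a b s) +
    (tt3 a b c r * thnu [d] s - tt3 a b d r * thnu [c] s + tt3 a c d r * thnu [b] s -
      tt3 b c d r * thnu [a] s) +
    tt4 a b c d r * thnu [] s := by
  unfold tt4 tt3 tt2
  simp only [thnu4]
  ring

/-- `Φ r = Φ s` -/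
def EE (r s : thRR n) : Prop :=
  thnu [] r = thnu [] s ∧ (∀ a, thnu [a] r = thnu [a] s) ∧ (∀ a b, tt2 a b r = tt2 a b s) ∧
    (∀ a b c, tt3 a b c r = tt3 a b c s) ∧ (∀ a b c d, tt4 a b c d r = tt4 a b c d s)

theorem EE.refl (r : thRR n) : EE r r := ⟨rfl, fun _ => rfl, fun _ _ => rfl, fun _ _ _ => rfl,
  fun _ _ _ _ => rfl⟩

theorem EE.symm {r s : thRR n} (h : EE r s) : EE s r := ⟨h.1.symm, fun a => (h.2.1 a).symm,
  fun a b => (h.2.2.1 a b).symm, fun a b c => (h.2.2.2.1 a b c).symm,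
  fun a b c d => (h.2.2.2.2 a b c d).symm⟩

theorem EE.trans {r s t : thRR n} (h : EE r s) (h' : EE s t) : EE r t :=
  ⟨h.1.trans h'.1, fun a => (h.2.1 a).trans (h'.2.1 a),
  fun a b => (h.2.2.1 a b).trans (h'.2.2.1 a b),
  fun a b c => (h.2.2.2.1 a b c).trans (h'.2.2.2.1 a b c),
  fun a b c d => (h.2.2.2.2 a b c d).trans (h'.2.2.2.2 a b c d)⟩

private theorem th4A_tt2_add (a b : Fin n) (r s : thRR n) :
    tt2 a b (r + s) = tt2 a b r + tt2 a b s := by
  unfold tt2
  simp only [map_add]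
  ring

private theorem th4A_tt3_add (a b c : Fin n) (r s : thRR n) :
    tt3 a b c (r + s) = tt3 a b c r + tt3 a b c s := by
  unfold tt3
  simp only [map_add]
  ring

private theorem th4A_tt4_add (a b c d : Fin n) (r s : thRR n) :
    tt4 a b c d (r + s) = tt4 a b c d r + tt4 a b c d s := by
  unfold tt4
  simp only [map_add]
  ring

private theorem th4A_tt2_smul (a b : Fin n) (k : ZMod 3) (r : thRR n) :
    tt2 a b (k • r) = k * tt2 a b r := by
  unfold tt2
  simp only [map_smul, smul_eq_mul]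
  ring

private theorem th4A_tt3_smul (a b c : Fin n) (k : ZMod 3) (r : thRR n) :
    tt3 a b c (k • r) = k * tt3 a b c r := by
  unfold tt3
  simp only [map_smul, smul_eq_mul]
  ring

private theorem th4A_tt4_smul (a b c d : Fin n) (k : ZMod 3) (r : thRR n) :
    tt4 a b c d (k • r) = k * tt4 a b c d r := by
  unfold tt4
  simp only [map_smul, smul_eq_mul]
  ring

private theorem th4A_smul (k : ZMod 3) {r s : thRR n} (h : EE r s) : EE (k • r) (k • s) := by
  refine ⟨?_, fun a => ?_, fun a b => ?_, fun a b c => ?_, fun a b c d => ?_⟩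
  · rw [map_smul, map_smul, h.1]
  · rw [map_smul, map_smul, h.2.1]
  · rw [th4A_tt2_smul, th4A_tt2_smul, h.2.2.1]
  · rw [th4A_tt3_smul, th4A_tt3_smul, h.2.2.2.1]
  · rw [th4A_tt4_smul, th4A_tt4_smul, h.2.2.2.2]

theorem EE.add {r s r' s' : thRR n} (h : EE r s) (h' : EE r' s') : EE (r + r') (s + s') := by
  refine ⟨?_, fun a => ?_, fun a b => ?_, fun a b c => ?_, fun a b c d => ?_⟩
  · rw [map_add, map_add, h.1, h'.1]
  · rw [map_add, map_add, h.2.1, h'.2.1]
  · rw [th4A_tt2_add, th4A_tt2_add, h.2.2.1, h'.2.2.1]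
  · rw [th4A_tt3_add, th4A_tt3_add, h.2.2.2.1, h'.2.2.2.1]
  · rw [th4A_tt4_add, th4A_tt4_add, h.2.2.2.2, h'.2.2.2.2]

theorem EE.sub {r s r' s' : thRR n} (h : EE r s) (h' : EE r' s') : EE (r - r') (s - s') := by
  have h1 := th4A_smul (-1) h'
  rw [neg_smul, one_smul, neg_smul, one_smul] at h1
  have h2 := h.add h1
  rwa [← sub_eq_add_neg, ← sub_eq_add_neg] at h2

theorem EE.mul {r s r' s' : thRR n} (h : EE r s) (h' : EE r' s') : EE (r * r') (s * s') := by
  obtain ⟨h0, h1, h2, h3, h4⟩ := h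
  obtain ⟨k0, k1, k2, k3, k4⟩ := h'
  refine ⟨?_, fun a => ?_, fun a b => ?_, fun a b c => ?_, fun a b c d => ?_⟩
  · rw [thnu0, thnu0, h0, k0]
  · rw [thnu1, thnu1, h0, k0, h1, k1]
  · rw [tt2_mul, tt2_mul]
    simp only [h0, h1, h2, k0, k1, k2]
  · rw [tt3_mul, tt3_mul]
    simp only [h0, h1, h2, h3, k0, k1, k2, k3]
  · rw [tt4_mul, tt4_mul]
    simp only [h0, h1, h2, h3, h4, k0, k1, k2, k3, k4]

theorem EE.sum {ι : Type*} (I : Finset ι) {r s : ι → thRR n} (h : ∀ i ∈ I, EE (r i) (s i)) :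
    EE (∑ i ∈ I, r i) (∑ i ∈ I, s i) := by
  classical
  induction I using Finset.induction_on with
  | empty => rw [Finset.sum_empty, Finset.sum_empty]; exact EE.refl 0
  | insert i I hi ih =>
    rw [Finset.sum_insert hi, Finset.sum_insert hi]
    exact (h i (Finset.mem_insert_self i I)).add
      (ih fun j hj => h j (Finset.mem_insert_of_mem hj))

private theorem th4A_tha_smul (f : F n →* F n) (k : ZMod 3) (u : thRR n) :
    tha f (k • u) = k • tha f u := by
  have e : ∀ u : thRR n, k • u = (MonoidAlgebra.single 1 k : thRR n) * u := by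
    intro u
    induction u using th_ind with
    | h0 => simp
    | hadd u v hu hv => rw [smul_add, hu, hv, mul_add]
    | hsm d g =>
      unfold thg
      simp [MonoidAlgebra.single_mul_single]
  rw [e, e, map_mul]
  congr 1
  unfold tha
  simp

/-- if `f, f'` are endomorphisms which agree in `Φ` on group elements, they agree on `thRR` -/
theorem EE_lin (f f' : F n →* F n) (h : ∀ g, EE (thg (f g)) (thg (f' g))) (r : thRR n) :
    EE (tha f r) (tha f' r) := by
  induction r using th_ind with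
  | h0 => rw [map_zero, map_zero]; exact EE.refl 0
  | hadd r s hr hs => rw [map_add, map_add]; exact hr.add hs
  | hsm k g =>
    rw [th4A_tha_smul, th4A_tha_smul, tha_g, tha_g]
    exact th4A_smul k (h g)

/-- `V ^ 3 = 0` in degrees `≤ 4` if `V` has no constant term -/
theorem EE_cube (r t s : thRR n) (h0 : thnu [] t = 0) : EE (r * (t * t * t) * s) 0 := by
  have u0 : thnu [] (t * t) = 0 := by rw [thnu0, h0, zero_mul]
  have u1 : ∀ a, thnu [a] (t * t) = 0 := by
    intro a
    rw [thnu1, h0]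
    ring
  have u2 : ∀ a b, tt2 a b (t * t) = 0 := by
    intro a b
    rw [tt2_mul, h0]
    ring
  have u3 : ∀ a b c, tt3 a b c (t * t) = 2 * (thnu [a] t * tt2 b c t - thnu [b] t * tt2 a c t +
      thnu [c] t * tt2 a b t) := by
    intro a b c
    rw [tt3_mul, h0]
    ring
  have hz2 : ∀ a b, tt2 a b (0 : thRR n) = 0 := by
    intro a b
    unfold tt2
    simp only [map_zero, sub_zero]
  have hz3 : ∀ a b c, tt3 a b c (0 : thRR n) = 0 := by
    intro a b c
    unfold tt3
    simp only [map_zero, sub_zero, add_zero]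
  have hz4 : ∀ a b c d, tt4 a b c d (0 : thRR n) = 0 := by
    intro a b c d
    unfold tt4
    simp only [map_zero, sub_zero, add_zero]
  have key : EE (t * t * t) 0 := by
    refine ⟨?_, fun a => ?_, fun a b => ?_, fun a b c => ?_, fun a b c d => ?_⟩
    · rw [thnu0, u0, zero_mul, map_zero]
    · rw [thnu1, u0, u1, zero_mul, zero_mul, add_zero, map_zero]
    · rw [tt2_mul, u0, u1, u1, u2, hz2]
      ring
    · rw [tt3_mul, u0, u1, u1, u1, u2, u2, u2, h0, hz3]
      ring
    · rw [tt4_mul, u0, u1, u1, u1, u1, u2, u2, u2, u2, u2, u2, u3, u3, u3, u3, h0, hz4]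
      ring
  have h2 := (EE.refl r).mul key |>.mul (EE.refl s)
  rwa [mul_zero, zero_mul] at h2

/-- cubes are invisible -/
theorem EE_gam {i j : Fin n} (h : i ≠ j) (f : F n →* F n) (g : F n) :
    EE (thg (f ((R i (x j) ^ 3 : A n) g))) (thg (f g)) := by
  induction g using FreeGroup.induction_on with
  | C1 => rw [map_one]; exact EE.refl _
  | of k =>
    by_cases hk : k = i
    · subst hk
      show EE (thg (f ((R k (x j) ^ 3 : A n) (x k)))) (thg (f (x k)))
      rw [th_gam_self h, map_mul, map_mul, map_mul, thg_mul, thg_mul, thg_mul, th_cube_sub]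
      have h1 := (EE_cube (thg (f (x k))) (thg (f (x j)) - 1) 1 (thnu_sub_one _)).add
        (EE.refl (thg (f (x k))))
      rw [mul_one, zero_add] at h1
      rw [mul_add, mul_one]
      exact h1
    · show EE (thg (f ((R i (x j) ^ 3 : A n) (x k)))) (thg (f (x k)))
      rw [th_gam_ne hk]
      exact EE.refl _
  | inv_of k hk =>
    set φ : A n := R i (x j) ^ 3 with hφ
    have hk' : EE (thg (f (φ (x k)))) (thg (f (x k))) := hk
    show EE (thg (f (φ (x k)⁻¹))) (thg (f (x k)⁻¹))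
    have h1 := (EE.refl (thg (f (φ (x k)⁻¹)))).mul (hk'.symm.mul (EE.refl (thg (f (x k)⁻¹))))
    have e1 : thg (f (φ (x k)⁻¹)) * thg (f (φ (x k))) = 1 := by
      rw [← thg_mul, ← map_mul, ← map_mul, inv_mul_cancel, map_one, map_one, thg_one]
    have e2 : thg (f (x k)) * thg (f (x k)⁻¹) = 1 := by
      rw [← thg_mul, ← map_mul, mul_inv_cancel, map_one, thg_one]
    rw [e2, mul_one, ← mul_assoc, e1, one_mul] at h1
    exact h1
  | mul g g' hg hg' =>
    rw [map_mul, map_mul, map_mul, thg_mul, thg_mul]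
    exact hg.mul hg'

theorem EE_gamR {i j : Fin n} (h : i ≠ j) (f : F n →* F n) (r : thRR n) :
    EE (tha f (tha (R i (x j) ^ 3 : A n).toMonoidHom r)) (tha f r) := by
  rw [tha_comp]
  refine EE_lin (f.comp (R i (x j) ^ 3 : A n).toMonoidHom) f (fun g => ?_) r
  have e : (f.comp (R i (x j) ^ 3 : A n).toMonoidHom) g = f ((R i (x j) ^ 3 : A n) g) := rfl
  rw [e]
  exact EE_gam h f g

/-- the Fox derivatives of `β γ β⁻¹`, `γ = R i (x j) ^ 3` -/
theorem EE_conj {i j : Fin n} (h : i ≠ j) (β : A n) (m k : Fin n) :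
    EE (thd m ((β * R i (x j) ^ 3 * β⁻¹ : A n) (x k)))
      ((if k = m then 1 else 0) + tha β.toMonoidHom (thd i (β⁻¹ (x k))) *
        (thg (β (x i)) * ((thg (β (x j)) - 1) * (thg (β (x j)) - 1))) *
          thd m (β (x j))) := by
  have e1 : (β * R i (x j) ^ 3 * β⁻¹ : A n) (x k) =
      β.toMonoidHom ((R i (x j) ^ 3 : A n) (β⁻¹ (x k))) := rfl
  rw [e1, thd_bgam h]
  have e3 : β.toMonoidHom (β⁻¹ (x k)) = x k := by
    show β (β⁻¹ (x k)) = x k
    rw [← MulAut.mul_apply, mul_inv_cancel, MulAut.one_apply]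
  have e4 : (if k = m then (1 : thRR n) else 0) = ∑ l : Fin n,
      tha β.toMonoidHom (thd l (β⁻¹ (x k))) * thd m (β.toMonoidHom (x l)) := by
    rw [← thd_chain, e3, thd_x]
  rw [e4]
  refine EE.add (EE.sum _ fun l _ => (EE_gamR h _ _).mul (EE.refl _)) ?_
  exact ((EE_gamR h _ _).mul (EE.refl _)).mul (EE.refl _)

end Pool.Agent.CSP3
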