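import Pool.Agent.CSP3.Theta4A

/-!
# Detection in degree four, rank four (MODULE TH4B)

The two sided ideal `D3` of the elements whose image in the exterior algebra has no part of degree
at most two, the subgroup `HH` and the additivity of `lam4`.
-/

set_option autoImplicit false

namespace Pool.Agent.CSP3

open scoped commutatorElement

variable {n : ℕ}

/-- `Φ r` has no part of degree `≤ 2` -/
def D3 (r : thRR n) : Prop := thnu [] r = 0 ∧ (∀ a, thnu [a] r = 0) ∧ (∀ a b, tt2 a b r = 0)

theorem tt2_add (a b : Fin n) (r s : thRR n) : tt2 a b (r + s) = tt2 a b r + tt2 a b s := by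
  unfold tt2
  rw [map_add, map_add]
  ring

theorem tt2_sub (a b : Fin n) (r s : thRR n) : tt2 a b (r - s) = tt2 a b r - tt2 a b s := by
  unfold tt2
  rw [map_sub, map_sub]
  ring

theorem tt2_zero (a b : Fin n) : tt2 a b (0 : thRR n) = 0 := by
  unfold tt2
  rw [map_zero, map_zero, sub_zero]

theorem D3.zero : D3 (0 : thRR n) :=
  ⟨map_zero _, fun _ => map_zero _, fun a b => tt2_zero a b⟩

theorem D3.add {r s : thRR n} (h : D3 r) (h' : D3 s) : D3 (r + s) :=
  ⟨by rw [map_add, h.1, h'.1, add_zero], fun a => by rw [map_add, h.2.1 a, h'.2.1 a, add_zero],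
    fun a b => by rw [tt2_add, h.2.2 a b, h'.2.2 a b, add_zero]⟩

theorem D3.sub {r s : thRR n} (h : D3 r) (h' : D3 s) : D3 (r - s) :=
  ⟨by rw [map_sub, h.1, h'.1, sub_zero], fun a => by rw [map_sub, h.2.1 a, h'.2.1 a, sub_zero],
    fun a b => by rw [tt2_sub, h.2.2 a b, h'.2.2 a b, sub_zero]⟩

theorem D3.mul_left {s : thRR n} (r : thRR n) (h : D3 s) : D3 (r * s) :=
  ⟨by rw [thnu0, h.1, mul_zero], fun a => by rw [thnu1, h.1, h.2.1 a, mul_zero, mul_zero, add_zero],
    fun a b => by
      rw [tt2_mul, h.1, h.2.1 a, h.2.1 b, h.2.2 a b]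
      ring⟩

theorem D3.mul_right {r : thRR n} (h : D3 r) (s : thRR n) : D3 (r * s) :=
  ⟨by rw [thnu0, h.1, zero_mul], fun a => by rw [thnu1, h.1, h.2.1 a, zero_mul, zero_mul, add_zero],
    fun a b => by
      rw [tt2_mul, h.1, h.2.1 a, h.2.1 b, h.2.2 a b]
      ring⟩

theorem D3.of_EE {r s : thRR n} (h : EE r s) : D3 (r - s) :=
  ⟨by rw [map_sub, h.1, sub_self], fun a => by rw [map_sub, h.2.1 a, sub_self],
    fun a b => by rw [tt2_sub, h.2.2.1 a b, sub_self]⟩

/-- congruence modulo `D3` -/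
def C3 (r s : thRR n) : Prop := D3 (r - s)

theorem C3.of_EE {r s : thRR n} (h : EE r s) : C3 r s := D3.of_EE h

theorem C3.refl (r : thRR n) : C3 r r := by
  unfold C3
  rw [sub_self]
  exact D3.zero

theorem C3.symm {r s : thRR n} (h : C3 r s) : C3 s r := by
  have h1 := D3.zero.sub h
  unfold C3
  rwa [zero_sub, neg_sub] at h1

theorem C3.trans {r s t : thRR n} (h : C3 r s) (h' : C3 s t) : C3 r t := by
  have h1 := D3.add h h'
  rwa [sub_add_sub_cancel] at h1

theorem C3.add {r s r' s' : thRR n} (h : C3 r s) (h' : C3 r' s') : C3 (r + r') (s + s') := by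
  have h1 := D3.add h h'
  unfold C3
  rwa [← add_sub_add_comm] at h1

theorem C3.mul {r s r' s' : thRR n} (h : C3 r s) (h' : C3 r' s') : C3 (r * r') (s * s') := by
  have h1 := (D3.mul_right h r').add (D3.mul_left s h')
  have e : (r - s) * r' + s * (r' - s') = r * r' - s * s' := by noncomm_ring
  rwa [e] at h1

theorem C3.sum {ι : Type*} (I : Finset ι) {r s : ι → thRR n} (h : ∀ i ∈ I, C3 (r i) (s i)) :
    C3 (∑ i ∈ I, r i) (∑ i ∈ I, s i) := by
  classical
  induction I using Finset.induction_on with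
  | empty => exact C3.refl _
  | insert i I hi ih =>
    rw [Finset.sum_insert hi, Finset.sum_insert hi]
    exact (h i (Finset.mem_insert_self i I)).add
      (ih fun j hj => h j (Finset.mem_insert_of_mem hj))

/-- an automorphism acting trivially on `Φ(F)` acts trivially on `Φ` of the group ring -/
theorem th4_act {α : A n} (h : ∀ g : F n, EE (thg (α g)) (thg g)) (r : thRR n) :
    EE (tha α.toMonoidHom r) r := by
  have h1 := EE_lin α.toMonoidHom (MonoidHom.id (F n)) h r
  rwa [tha_id] at h1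

/-- the Jacobian of a product, modulo `D3` -/
theorem th4_chain {α : A n} (h : ∀ g : F n, EE (thg (α g)) (thg g))
    (h' : ∀ i k : Fin n, C3 (thd i (α (x k))) (if k = i then 1 else 0)) (i : Fin n) (g : F n) :
    C3 (thd i (α g)) (thd i g) := by
  have e1 : thd i (α g) = ∑ m : Fin n, tha α.toMonoidHom (thd m g) * thd i (α (x m)) :=
    thd_chain α.toMonoidHom i g
  have e2 : C3 (∑ m : Fin n, tha α.toMonoidHom (thd m g) * thd i (α (x m)))
      (∑ m : Fin n, thd m g * (if m = i then 1 else 0)) :=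
    C3.sum _ fun m _ => (C3.of_EE (th4_act h _)).mul (h' i m)
  have e3 : (∑ m : Fin n, thd m g * (if m = i then (1 : thRR n) else 0)) = thd i g := by
    rw [Finset.sum_eq_single i]
    · rw [if_pos rfl, mul_one]
    · intro k _ hk
      rw [if_neg hk, mul_zero]
    · intro h
      exact absurd (Finset.mem_univ i) h
  rw [e1]
  rwa [e3] at e2

/-- the automorphisms which act trivially on `Φ(F)` and have Fox Jacobian `1 + (degree ≥ 3)` -/
def HH (n : ℕ) : Subgroup (A n) where
  carrier := {α | (∀ g : F n, EE (thg (α g)) (thg g)) ∧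
    ∀ i k : Fin n, D3 (thd i (α (x k)) - if k = i then 1 else 0)}
  one_mem' := by
    refine ⟨fun g => EE.refl _, fun i k => ?_⟩
    show D3 (thd i (x k) - if k = i then 1 else 0)
    rw [thd_x, sub_self]
    exact D3.zero
  mul_mem' := by
    rintro α β ⟨ha, ha'⟩ ⟨hb, hb'⟩
    refine ⟨fun g => (ha (β g)).trans (hb g), fun i k => ?_⟩
    exact C3.trans (th4_chain ha ha' i (β (x k))) (hb' i k)
  inv_mem' := by
    rintro α ⟨ha, ha'⟩
    have e : ∀ g : F n, α (α⁻¹ g) = g := fun g => by
      rw [← MulAut.mul_apply, mul_inv_cancel, MulAut.one_apply]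
    refine ⟨fun g => ?_, fun i k => ?_⟩
    · have h1 := ha (α⁻¹ g)
      rw [e] at h1
      exact h1.symm
    · have h1 := th4_chain ha ha' i (α⁻¹ (x k))
      rw [e, thd_x] at h1
      exact C3.symm h1

theorem N0_le_HH : N0 n ≤ HH n := by
  unfold N0 Subgroup.normalClosure
  rw [Subgroup.closure_le]
  intro g hg
  rw [Group.mem_conjugatesOfSet_iff] at hg
  obtain ⟨t, ⟨i, j, hij, rfl⟩, ht⟩ := hg
  rw [isConj_iff] at ht
  obtain ⟨β, rfl⟩ := ht
  refine ⟨fun g => ?_, fun m k => ?_⟩
  · have h1 := EE_gam hij β.toMonoidHom (β⁻¹ g)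
    have e : β.toMonoidHom (β⁻¹ g) = g := by
      show β (β⁻¹ g) = g
      rw [← MulAut.mul_apply, mul_inv_cancel, MulAut.one_apply]
    rw [e] at h1
    exact h1
  · have h1 := C3.of_EE (EE_conj hij β m k)
    refine C3.trans h1 ?_
    have hV : thnu [] (thg (β (x j)) - 1) = 0 := thnu_sub_one _
    have h2 : D3 ((thg (β (x j)) - 1) * (thg (β (x j)) - 1)) := by
      refine ⟨by rw [thnu0, hV, mul_zero], fun a => by rw [thnu1, hV, zero_mul, mul_zero, add_zero],
        fun a b => ?_⟩
      rw [tt2_mul, hV]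
      ring
    have h3 := D3.mul_right (D3.mul_left (tha β.toMonoidHom (thd i (β⁻¹ (x k))))
      (D3.mul_left (thg (β (x i))) h2)) (thd m (β (x j)))
    unfold C3
    rwa [add_sub_cancel_left]

/-! ### the functional -/

theorem tt4_add (a b c d : Fin n) (r s : thRR n) :
    tt4 a b c d (r + s) = tt4 a b c d r + tt4 a b c d s := by
  unfold tt4
  simp only [map_add]
  ring

theorem tt4_sub (a b c d : Fin n) (r s : thRR n) :
    tt4 a b c d (r - s) = tt4 a b c d r - tt4 a b c d s := by
  unfold tt4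
  simp only [map_sub]
  ring

theorem th4_tt2_one (a b : Fin n) : tt2 a b (1 : thRR n) = 0 := by
  unfold tt2
  rw [thnu_one (by simp), thnu_one (by simp), sub_zero]

theorem th4_tt3_one (a b c : Fin n) : tt3 a b c (1 : thRR n) = 0 := by
  unfold tt3
  repeat rw [thnu_one (by simp)]
  ring

theorem th4_tt4_one (a b c d : Fin n) : tt4 a b c d (1 : thRR n) = 0 := by
  unfold tt4
  repeat rw [thnu_one (by simp)]
  ring

theorem th4_tt2_x (i a b : Fin n) : tt2 a b (thg (x i)) = 0 := by
  unfold tt2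
  repeat rw [thnu_g, mu_x_two i (by simp)]
  ring

theorem th4_tt3_x (i a b c : Fin n) : tt3 a b c (thg (x i)) = 0 := by
  unfold tt3
  simp only [thnu_g, mu_x_two i (show 2 ≤ [_, _, _].length by simp)]
  ring

theorem th4_tt4_x (i a b c d : Fin n) : tt4 a b c d (thg (x i)) = 0 := by
  unfold tt4
  simp only [thnu_g, mu_x_two i (show 2 ≤ [_, _, _, _].length by simp)]
  ring

theorem th4_nu1_xinv (i a : Fin n) : thnu [a] (thg (x i)⁻¹) = - thnu [a] (thg (x i)) := by
  have h := thnu1 a (thg (x i)) (thg (x i)⁻¹)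
  rw [← thg_mul, mul_inv_cancel, thg_one, thnu_one (by simp), thnu_g [] (x i), mu_nil,
    thnu_g [] (x i)⁻¹, mu_nil] at h
  linear_combination -h

theorem th4_tt2_xinv (i a b : Fin n) : tt2 a b (thg (x i)⁻¹) = 0 := by
  have h := tt2_mul a b (thg (x i)) (thg (x i)⁻¹)
  rw [← thg_mul, mul_inv_cancel, thg_one, th4_tt2_one, thnu_g [] (x i), mu_nil,
    th4_nu1_xinv, th4_nu1_xinv, th4_tt2_x] at h
  linear_combination -h

theorem th4_tt3_xinv (i a b c : Fin n) : tt3 a b c (thg (x i)⁻¹) = 0 := by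
  have h := tt3_mul a b c (thg (x i)) (thg (x i)⁻¹)
  rw [← thg_mul, mul_inv_cancel, thg_one, th4_tt3_one, thnu_g [] (x i), mu_nil] at h
  simp only [th4_tt2_xinv, th4_tt2_x, th4_tt3_x] at h
  linear_combination -h

theorem th4_tt4_xinv (i a b c d : Fin n) : tt4 a b c d (thg (x i)⁻¹) = 0 := by
  have h := tt4_mul a b c d (thg (x i)) (thg (x i)⁻¹)
  rw [← thg_mul, mul_inv_cancel, thg_one, th4_tt4_one, thnu_g [] (x i), mu_nil] at h
  simp only [th4_tt2_xinv, th4_tt2_x, th4_tt3_x, th4_tt3_xinv, th4_tt4_x] at h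
  linear_combination -h

/-- products of two elements of `D3` are invisible -/
theorem th4_D3_mul {r s : thRR n} (h : D3 r) (h' : D3 s) : EE (r * s) 0 := by
  refine ⟨?_, fun a => ?_, fun a b => ?_, fun a b c => ?_, fun a b c d => ?_⟩
  · rw [thnu0, h.1, zero_mul, map_zero]
  · rw [thnu1, h.1, h'.1, zero_mul, mul_zero, add_zero, map_zero]
  · rw [tt2_mul, h.1, h'.1, h.2.1, h.2.1, tt2_zero]
    ring
  · have e : tt3 a b c (0 : thRR n) = 0 := by
      unfold tt3
      simp only [map_zero]
      ring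
    rw [tt3_mul, h.1, h'.1, e]
    simp only [h.2.1, h.2.2]
    ring
  · have e : tt4 a b c d (0 : thRR n) = 0 := by
      unfold tt4
      simp only [map_zero]
      ring
    rw [tt4_mul, h.1, h'.1, e]
    simp only [h.2.1, h.2.2, h'.2.1, h'.2.2]
    ring

noncomputable def lam4 (α : A 4) : ZMod 3 :=
  ∑ i : Fin 4, tt4 0 1 2 3 (thg (x i)⁻¹ * thd i (α (x i)))

/-- the diagonal of the Jacobian of a product -/
theorem th4_diag {α β : A n} (ha : α ∈ HH n) (hb : β ∈ HH n) (i : Fin n) :
    EE (thd i ((α * β) (x i))) (thd i (α (x i)) + thd i (β (x i)) - 1) := by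
  have e1 : thd i ((α * β) (x i)) =
      ∑ m : Fin n, tha α.toMonoidHom (thd m (β (x i))) * thd i (α (x m)) :=
    thd_chain α.toMonoidHom i (β (x i))
  have e2 : EE (∑ m : Fin n, tha α.toMonoidHom (thd m (β (x i))) * thd i (α (x m)))
      (∑ m : Fin n, thd m (β (x i)) * thd i (α (x m))) :=
    EE.sum _ fun m _ => (th4_act ha.1 _).mul (EE.refl _)
  have e3 : ∀ m : Fin n, EE (thd m (β (x i)) * thd i (α (x m)))
      (thd m (β (x i)) * (if m = i then 1 else 0) + (if i = m then 1 else 0) * thd i (α (x m)) -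
        (if i = m then 1 else 0) * (if m = i then 1 else 0)) := by
    intro m
    have h1 := th4_D3_mul (hb.2 m i) (ha.2 i m)
    have h2 := h1.add (EE.refl (thd m (β (x i)) * (if m = i then 1 else 0) +
      (if i = m then 1 else 0) * thd i (α (x m)) -
        (if i = m then 1 else 0) * (if m = i then 1 else 0)))
    have h3 : (thd m (β (x i)) - if i = m then 1 else 0) *
        (thd i (α (x m)) - if m = i then 1 else 0) +
        (thd m (β (x i)) * (if m = i then 1 else 0) + (if i = m then 1 else 0) * thd i (α (x m)) -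
          (if i = m then 1 else 0) * (if m = i then 1 else 0)) =
        thd m (β (x i)) * thd i (α (x m)) := by noncomm_ring
    rwa [h3, zero_add] at h2
  have e4 : EE (∑ m : Fin n, thd m (β (x i)) * thd i (α (x m)))
      (∑ m : Fin n, (thd m (β (x i)) * (if m = i then 1 else 0) +
        (if i = m then 1 else 0) * thd i (α (x m)) -
        (if i = m then 1 else 0) * (if m = i then 1 else 0))) := EE.sum _ fun m _ => e3 m
  have e5 : (∑ m : Fin n, (thd m (β (x i)) * (if m = i then (1 : thRR n) else 0) +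
        (if i = m then 1 else 0) * thd i (α (x m)) -
        (if i = m then 1 else 0) * (if m = i then 1 else 0))) =
      thd i (α (x i)) + thd i (β (x i)) - 1 := by
    rw [Finset.sum_eq_single i]
    · rw [if_pos rfl, mul_one, one_mul, mul_one, add_comm]
    · intro k _ hk
      rw [if_neg hk, if_neg (fun h => hk h.symm)]
      noncomm_ring
    · intro h
      exact absurd (Finset.mem_univ i) h
  rw [e1]
  rw [e5] at e4
  exact e2.trans e4

theorem lam4_mul {α β : A 4} (ha : α ∈ HH 4) (hb : β ∈ HH 4) :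
    lam4 (α * β) = lam4 α + lam4 β := by
  unfold lam4
  rw [← Finset.sum_add_distrib]
  refine Finset.sum_congr rfl fun i _ => ?_
  have h1 := ((EE.refl (thg (x i)⁻¹)).mul (th4_diag ha hb i)).2.2.2.2 0 1 2 3
  rw [h1]
  have h2 : thg (x i)⁻¹ * (thd i (α (x i)) + thd i (β (x i)) - 1) =
      thg (x i)⁻¹ * thd i (α (x i)) + thg (x i)⁻¹ * thd i (β (x i)) - thg (x i)⁻¹ := by
    noncomm_ring
  rw [h2, tt4_sub, tt4_add, th4_tt4_xinv, sub_zero]

theorem lam4_AA6 {α : A 4} (ha : α ∈ AA 3 4 6) : lam4 α = 0 := by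
  unfold lam4
  refine Finset.sum_eq_zero fun i _ => ?_
  have key : ∀ w : List (Fin 4), w.length ≤ 4 →
      thnu w (thd i (α (x i))) = thnu w (1 : thRR 4) := by
    intro w hw
    have h1 : thnu w (thd i (x i)) = mu 3 (w ++ [i]) (x i) := thnu_d i (x i) w
    rw [thd_x, if_pos rfl] at h1
    rw [thnu_d, h1]
    exact mu_eq_of_mul_inv_mem (ha (x i)) (by
      rw [List.length_append, List.length_singleton]
      omega)
  have h2 : EE (thd i (α (x i))) (1 : thRR 4) := by
    refine ⟨key _ (by simp), fun a => key _ (by simp), fun a b => ?_, fun a b c => ?_,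
      fun a b c d => ?_⟩
    · unfold tt2
      rw [key _ (by simp), key _ (by simp)]
    · unfold tt3
      rw [key _ (by simp), key _ (by simp), key _ (by simp), key _ (by simp), key _ (by simp),
        key _ (by simp)]
    · unfold tt4
      have k4 : ∀ a b c d : Fin 4, thnu [a, b, c, d] (thd i (α (x i))) =
          thnu [a, b, c, d] (1 : thRR 4) := fun a b c d => key _ (by simp)
      simp only [k4]
  have h3 := ((EE.refl (thg (x i)⁻¹)).mul h2).2.2.2.2 0 1 2 3
  rw [h3, mul_one, th4_tt4_xinv]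

end Pool.Agent.CSP3
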