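import Pool.Agent.CSP3.TwoAux
import Pool.Agent.CSP3.Fox
import Pool.Agent.CSP3.Det

/-!
# The case `m = 2`

An automorphism acting trivially modulo `DD 2 n 3` is a product of conjugates of squares of
transvections.
-/

set_option autoImplicit false

namespace Pool.Agent.CSP3

open scoped commutatorElement

variable {n : ℕ}

namespace TwoD

/-- uniqueness of crossed homomorphisms -/
theorem crossed_unique {A : Type*} [Ring A] (χ : F n →* A) (f f' : F n → A)
    (h : ∀ u v, f (u * v) = f u + χ u * f v) (h' : ∀ u v, f' (u * v) = f' u + χ u * f' v)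
    (hx : ∀ i, f (x i) = f' (x i)) (w : F n) : f w = f' w := by
  have one : ∀ f : F n → A, (∀ u v, f (u * v) = f u + χ u * f v) → f 1 = 0 := by
    intro f h
    have := h 1 1
    rw [mul_one, map_one, one_mul] at this
    exact left_eq_add.mp this
  have inv : ∀ f : F n → A, (∀ u v, f (u * v) = f u + χ u * f v) → ∀ u, f u⁻¹ = -(χ u⁻¹ * f u) := by
    intro f h u
    have := h u⁻¹ u
    rw [inv_mul_cancel, one f h] at this
    exact eq_neg_of_add_eq_zero_left this.symm
  induction w using FreeGroup.induction_on with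
  | C1 => rw [one f h, one f' h']
  | of i => exact hx i
  | inv_of i hi =>
    have hi' : f (FreeGroup.of i) = f' (FreeGroup.of i) := hx i
    rw [inv f h, inv f' h', hi']
  | mul u v hu hv => rw [h, h', hu, hv]

/-- the two lowest Magnus coefficients in `x j` as a function of the exponent modulo 4 -/
def P (a : ZMod 4) : ZMod 2 × ZMod 2 :=
  if a = 0 then (0, 0) else if a = 1 then (1, 0) else if a = 2 then (0, 1) else (1, 1)

theorem P_add : ∀ a b : ZMod 4, P (a + b) = ((P a).1 + (P b).1, (P a).2 + (P a).1 * (P b).1 + (P b).2) := by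
  decide

theorem P_neg : ∀ a : ZMod 4, P (-a) = (-(P a).1, (P a).1 * (P a).1 - (P a).2) := by
  decide

theorem P_zero : ∀ a : ZMod 4, P a = (0, 0) → a = 0 := by decide

theorem mu_two_mul (j k : Fin n) (g h : F n) :
    mu 2 [j, k] (g * h) = mu 2 [j, k] g + mu 2 [j] g * mu 2 [k] h + mu 2 [j, k] h := by
  rw [mu_mul]
  simp only [List.length_cons, List.length_nil, Finset.sum_range_succ, Finset.sum_range_zero,
    List.take, List.drop, mu_nil]
  ring

theorem mu_one_mul (j : Fin n) (g h : F n) :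
    mu 2 [j] (g * h) = mu 2 [j] g + mu 2 [j] h := by
  rw [mu_mul]
  simp only [List.length_cons, List.length_nil, Finset.sum_range_succ, Finset.sum_range_zero,
    List.take, List.drop, mu_nil]
  ring

theorem mu_P (j : Fin n) (g : F n) :
    (mu 2 [j] g, mu 2 [j, j] g) = P (Multiplicative.toAdd (ab 4 g) j) := by
  induction g using FreeGroup.induction_on with
  | C1 => rw [mu_one (by simp), mu_one (by simp), map_one]; rfl
  | of i =>
    have h1 : mu 2 [j] (x i) = if j = i then 1 else 0 := mu_x i j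
    have h2 : mu 2 [j, j] (x i) = 0 := mu_x_two i (by simp)
    show (mu 2 [j] (x i), mu 2 [j, j] (x i)) = P (Multiplicative.toAdd (ab 4 (x i)) j)
    have h3 : Multiplicative.toAdd (ab 4 (x i)) j = if j = i then 1 else 0 := by
      simp [ab, Pi.single_apply]
    rw [h1, h2, h3]
    split_ifs <;> rfl
  | inv_of i hi =>
    have h0 := mu_one_mul j (FreeGroup.of i)⁻¹ (FreeGroup.of i)
    have h1 := mu_two_mul j j (FreeGroup.of i)⁻¹ (FreeGroup.of i)
    rw [inv_mul_cancel, mu_one (by simp)] at h0 h1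
    have e0 : mu 2 [j] (FreeGroup.of i)⁻¹ = -mu 2 [j] (FreeGroup.of i) :=
      eq_neg_of_add_eq_zero_left h0.symm
    rw [e0] at h1
    have e1 : mu 2 [j, j] (FreeGroup.of i)⁻¹ =
        mu 2 [j] (FreeGroup.of i) * mu 2 [j] (FreeGroup.of i) - mu 2 [j, j] (FreeGroup.of i) := by
      linear_combination -h1
    rw [map_inv, toAdd_inv, Pi.neg_apply, P_neg, ← hi, e0, e1]
  | mul u v hu hv =>
    rw [map_mul, toAdd_mul, Pi.add_apply, P_add, ← hu, ← hv, mu_one_mul, mu_two_mul]

theorem ab_four {α : A n} (hα : α ∈ AA 2 n 3) (w : F n) : ab 4 (α w) = ab 4 w := by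
  have h1 : ab 4 (α w * w⁻¹) = 1 := by
    apply Multiplicative.toAdd.injective
    funext j
    have h2 := mu_P j (α w * w⁻¹)
    rw [hα w [j] (by simp) (by simp), hα w [j, j] (by simp) (by simp)] at h2
    exact P_zero _ h2.symm
  rw [map_mul, map_inv, mul_inv_eq_one] at h1
  exact h1

/-- the ring homomorphism to the dual numbers in the direction `l` -/
noncomputable def chi (l : Fin n) : Det.Am (Fin n) 2 →* DualNumber (ZMod 2) where
  toFun b := 1 + TrivSqZeroExt.inr (Multiplicative.toAdd b l)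
  map_one' := by simp
  map_mul' a b := by
    rw [toAdd_mul, Pi.add_apply, TrivSqZeroExt.inr_add]
    rw [mul_add, mul_one, add_mul, one_mul, TrivSqZeroExt.inr_mul_inr]
    ring

noncomputable def phi (l : Fin n) : MonoidAlgebra (ZMod 2) (Det.Am (Fin n) 2) →+* DualNumber (ZMod 2) :=
  (MonoidAlgebra.lift (ZMod 2) (DualNumber (ZMod 2)) (Det.Am (Fin n) 2) (chi l)).toRingHom

theorem phi_br (l : Fin n) (b : Det.Am (Fin n) 2) :
    phi l (Fox.br (ZMod 2) b) = 1 + TrivSqZeroExt.inr (Multiplicative.toAdd b l) := by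
  show MonoidAlgebra.lift (ZMod 2) (DualNumber (ZMod 2)) (Det.Am (Fin n) 2) (chi l)
    (MonoidAlgebra.of _ _ b) = _
  rw [MonoidAlgebra.lift_of]
  rfl

theorem ab_two (l : Fin n) (g : F n) : Multiplicative.toAdd (ab 2 g) l = mu 2 [l] g := by
  induction g using FreeGroup.induction_on with
  | C1 => rw [mu_one (by simp), map_one]; rfl
  | of i =>
    have h1 : mu 2 [l] (x i) = if l = i then 1 else 0 := mu_x i l
    show Multiplicative.toAdd (ab 2 (x i)) l = mu 2 [l] (x i)
    rw [h1]
    simp [ab, Pi.single_apply]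
  | inv_of i hi =>
    have h0 := mu_one_mul l (FreeGroup.of i)⁻¹ (FreeGroup.of i)
    rw [inv_mul_cancel, mu_one (by simp)] at h0
    rw [map_inv, toAdd_inv, Pi.neg_apply, hi]
    exact (eq_neg_of_add_eq_zero_left h0.symm).symm
  | mul u v hu hv => rw [map_mul, toAdd_mul, Pi.add_apply, mu_one_mul, hu, hv]

theorem phi_D (l i : Fin n) (g : F n) :
    phi l (Fox.D (ZMod 2) (ab 2) g i) =
      TrivSqZeroExt.inl (mu 2 [i] g) + TrivSqZeroExt.inr (mu 2 [l, i] g) := by
  refine crossed_unique ((chi l).comp (ab 2)) (fun g => phi l (Fox.D (ZMod 2) (ab 2) g i))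
    (fun g => TrivSqZeroExt.inl (mu 2 [i] g) + TrivSqZeroExt.inr (mu 2 [l, i] g)) ?_ ?_ ?_ g
  · intro u v
    show phi l (Fox.D (ZMod 2) (ab 2) (u * v) i) = _
    rw [Fox.D_mul, map_add, map_mul, phi_br]
    rfl
  · intro u v
    show (_ : DualNumber (ZMod 2)) = _ + ((1 : DualNumber (ZMod 2)) +
      TrivSqZeroExt.inr (Multiplicative.toAdd (ab 2 u) l)) * _
    rw [ab_two, mu_one_mul, mu_two_mul]
    ext
    · simp
    · simp
      ring
  · intro m
    show phi l (Fox.D (ZMod 2) (ab 2) (FreeGroup.of m) i) = _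
    rw [Fox.D_of, mu_x, mu_x_two m (by simp)]
    by_cases h : i = m
    · subst h
      rw [Pi.single_eq_same, map_one, if_pos rfl]
      simp
    · rw [Pi.single_eq_of_ne h, map_zero, if_neg h]
      simp

theorem phi_dJ {α : A n} (hα : α ∈ AA 2 n 3) (l : Fin n) : phi l (Det.dJ (ZMod 2) 2 α) = 1 := by
  unfold Det.dJ
  rw [RingHom.map_det]
  have : (phi l).mapMatrix (Fox.J (ZMod 2) (SA.ab (Fin n) 2) α) = 1 := by
    ext1 m i
    show phi l (Fox.D (ZMod 2) (ab 2) (α (x m)) i) = _
    rw [phi_D, mu_eq_of_mul_inv_mem (hα (x m)) (by simp), mu_eq_of_mul_inv_mem (hα (x m)) (by simp),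
      mu_x, mu_x_two m (by simp), Matrix.one_apply]
    by_cases h : i = m
    · subst h; simp
    · rw [if_neg h, if_neg (Ne.symm h)]; simp
  rw [this, Matrix.det_one]

end TwoD

open TwoAux TwoD in
/-- **The case `m = 2`** -/
theorem two (hn : 3 ≤ n) {α : A n} (hα : α ∈ AA 2 n 3) :
    α ∈ Subgroup.normalClosure {g : A n | ∃ i j : Fin n, i ≠ j ∧ g = R i (x j) ^ 2} := by
  have h1 := fun l => phi_dJ hα l
  have h2 := ab_four hα
  have h3 := stein_two hn h2
  set N := Subgroup.normalClosure {g : A n | ∃ i j : Fin n, i ≠ j ∧ g = R i (x j) ^ 2} with hN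
  have hNn : N.Normal := Subgroup.normalClosure_normal
  rw [← SetLike.mem_coe, Subgroup.mul_normal] at h3
  obtain ⟨g, hg, m, hm, hgm⟩ := h3
  replace hgm : g * m = α := hgm
  subst hgm
  have hT : ∀ i j : Fin n, i ≠ j → QuotientGroup.mk' N (R i (x j)) ^ 2 = 1 := by
    intro i j hij
    rw [← map_pow]
    exact (QuotientGroup.eq_one_iff _).mpr (Subgroup.subset_normalClosure ⟨i, j, hij, rfl⟩)
  obtain ⟨ψ, hψ⟩ := J1_form (QuotientGroup.mk' N) hn hT
  obtain ⟨b, hb1, hb2⟩ := hψ g hg
  have hmNC : m ∈ Det.NC (Fin n) 2 := by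
    refine (Subgroup.normalClosure_mono ?_ : N ≤ _) hm
    rintro _ ⟨i, j, hij, rfl⟩
    refine ⟨i, j, hij, fun l hl => ?_, ?_⟩
    · rw [← map_pow]; exact R_apply_ne hl _
    · rw [← map_pow]
      have := R_apply_self i ((x j) ^ 2)
      rw [map_pow (kill i), kill_ne hij.symm] at this
      exact this
  have h4 : Det.dJ (ZMod 2) 2 m = 1 := Det.NC_dJ (ZMod 2) hmNC
  have h5 : b = 1 := by
    apply toB_inj
    apply Multiplicative.toAdd.injective
    funext l
    have h6 := h1 l
    rw [Det.dJ_mul_of_trivial (ZMod 2) (J1_ab hg), h4, mul_one, hb2, phi_br] at h6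
    have h7 := congrArg TrivSqZeroExt.snd h6
    simpa using h7
  rw [h5, map_one] at hb1
  have h6 : g ∈ N := (QuotientGroup.eq_one_iff _).mp hb1
  exact N.mul_mem h6 hm

end Pool.Agent.CSP3
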