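import Pool.Agent.CSP3.Base
import Pool.Agent.CSP3.IA
import Pool.Agent.CSP3.Rel
import Pool.Agent.CSP3.SteinQ
import Pool.Agent.CSP3.DetJ
import Pool.Agent.CSP3.Cubes

/-!
# The normal closure of the squares of the transvections is a congruence subgroup

`3 ≤ n`: there is a characteristic subgroup `K` of finite index in `F_n` such that every
automorphism which acts trivially modulo `K` is a product of conjugates of squares of
transvections.  (Modulo these squares, `J1 n` becomes elementary abelian, generated by the images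
`c_j` of the `C i (x j)`, `i ≠ j`, which do not depend on `i`; they are detected by the determinant
of the Jacobian over the group ring of `(ℤ/2)^n`.)
-/

set_option autoImplicit false

namespace Pool.Agent.CSP3

open scoped commutatorElement

variable {n : ℕ}

namespace TwoAux

section

variable {Q : Type*} [Group Q] (q : A n →* Q)

theorem R_prim (hT : ∀ i j : Fin n, i ≠ j → q (R i (x j)) ^ 2 = 1) (i : Fin n)
    (φ : FreeGroup {j : Fin n // j ≠ i} ≃* FreeGroup {j : Fin n // j ≠ i})
    (j : {j : Fin n // j ≠ i}) :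
    (((q.comp (R i)).comp (inc i)) (φ (FreeGroup.of j))) ^ 2 = 1 := by
  show q (R i (inc i (φ (FreeGroup.of j)))) ^ 2 = 1
  rw [← plus_conj, inc_of, map_mul, map_mul, map_inv, conj_pow, hT i j.1 j.2.symm, mul_one,
    mul_inv_cancel]

theorem R_comm (hT : ∀ i j : Fin n, i ≠ j → q (R i (x j)) ^ 2 = 1) (i : Fin n) (v w : F n) :
    Commute (q (R i v)) (q (R i w)) := by
  have key := comm_of_primitive_sq ((q.comp (R i)).comp (inc i)) (R_prim q hT i) (prj i v)
    (prj i w)
  rw [← R_kill i v, ← R_kill i w, ← inc_prj, ← inc_prj]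
  exact key

theorem R_sq (hT : ∀ i j : Fin n, i ≠ j → q (R i (x j)) ^ 2 = 1) (i : Fin n) (w : F n) :
    q (R i w) ^ 2 = 1 := by
  induction w using FreeGroup.induction_on with
  | C1 => rw [map_one, map_one, one_pow]
  | of j =>
    by_cases h : i = j
    · subst h
      show q (R i (x i)) ^ 2 = 1
      rw [R_self, map_one, one_pow]
    · exact hT i j h
  | inv_of j hj => rw [map_inv, map_inv, inv_pow, hj, inv_one]
  | mul v w hv hw => rw [map_mul, map_mul, (R_comm q hT i v w).mul_pow, hv, hw, mul_one]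

theorem L_comm (hT : ∀ i j : Fin n, i ≠ j → q (R i (x j)) ^ 2 = 1) (i : Fin n) (v w : F n) :
    Commute (q (L i v)) (q (L i w)) := by
  rw [← sg_conj_R_same, ← sg_conj_R_same]
  simp only [map_mul, map_inv]
  have h := (R_comm q hT i v w).eq
  show _ = _
  calc q (sg i) * q (R i v) * (q (sg i))⁻¹ * (q (sg i) * q (R i w) * (q (sg i))⁻¹) =
      q (sg i) * (q (R i v) * q (R i w)) * (q (sg i))⁻¹ := by group
    _ = q (sg i) * (q (R i w) * q (R i v)) * (q (sg i))⁻¹ := by rw [h]
    _ = _ := by group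

theorem L_sq (hT : ∀ i j : Fin n, i ≠ j → q (R i (x j)) ^ 2 = 1) (i : Fin n) (w : F n) :
    q (L i w) ^ 2 = 1 := by
  rw [← sg_conj_R_same, map_mul, map_mul, map_inv, conj_pow, R_sq q hT, mul_one, mul_inv_cancel]

theorem LR_commute (i : Fin n) (v w : F n) : Commute (q (L i v)) (q (R i w)) := by
  show q (L i v) * q (R i w) = q (R i w) * q (L i v)
  rw [← map_mul, LR_comm, map_mul]

theorem C_R_comm (hT : ∀ i j : Fin n, i ≠ j → q (R i (x j)) ^ 2 = 1) (i : Fin n) (v w : F n) :
    Commute (q (C i v)) (q (R i w)) := by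
  rw [C_eq, map_mul]
  exact (LR_commute q i v w).mul_left (R_comm q hT i v w)

theorem C_L_comm (hT : ∀ i j : Fin n, i ≠ j → q (R i (x j)) ^ 2 = 1) (i : Fin n) (v w : F n) :
    Commute (q (C i v)) (q (L i w)) := by
  rw [C_eq, map_mul]
  exact (L_comm q hT i v w).mul_left (LR_commute q i w v).symm

theorem C_comm (hT : ∀ i j : Fin n, i ≠ j → q (R i (x j)) ^ 2 = 1) (i : Fin n) (v w : F n) :
    Commute (q (C i v)) (q (C i w)) := by
  rw [C_eq i w, map_mul]
  exact (C_L_comm q hT i v w).mul_right (C_R_comm q hT i v w)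

theorem C_sq (hT : ∀ i j : Fin n, i ≠ j → q (R i (x j)) ^ 2 = 1) (i : Fin n) (w : F n) :
    q (C i w) ^ 2 = 1 := by
  rw [C_eq, map_mul, (LR_commute q i w w).mul_pow, L_sq q hT, R_sq q hT, mul_one]

theorem R_gam (hT : ∀ i j : Fin n, i ≠ j → q (R i (x j)) ^ 2 = 1) (i : Fin n) (a b : F n) :
    q (R i ⁅a, b⁆) = 1 := by
  rw [map_commutatorElement, map_commutatorElement]
  exact commutatorElement_eq_one_iff_commute.mpr (R_comm q hT i a b)

/-- an automorphism which maps `x_i` to `x_k`, `x_k` to `x_i⁻¹` -/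
theorem s_conj {i j k : Fin n} (hij : i ≠ j) (hik : i ≠ k) (hjk : j ≠ k) :
    (R i (x k) * L k (x i) * R i (x k) * (C k (x i))⁻¹) * C i (x j) =
      C k (x j) * (R i (x k) * L k (x i) * R i (x k) * (C k (x i))⁻¹) := by
  have si : (R i (x k) * L k (x i) * R i (x k) * (C k (x i))⁻¹) (x i) = x k := by
    simp only [MulAut.mul_apply, Cinv_apply_ne hik, R_apply_self, kill_ne hik.symm, map_mul,
      L_apply_self, kill_ne hik, L_apply_ne hik, R_apply_ne hik.symm, map_inv]
    group
  have sk : (R i (x k) * L k (x i) * R i (x k) * (C k (x i))⁻¹) (x k) = (x i)⁻¹ := by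
    simp only [MulAut.mul_apply, Cinv_apply_self, R_apply_self, kill_ne hik.symm, map_mul,
      L_apply_self, kill_ne hik, L_apply_ne hik, R_apply_ne hik.symm, map_inv]
    group
  have sl : ∀ l, l ≠ i → l ≠ k →
      (R i (x k) * L k (x i) * R i (x k) * (C k (x i))⁻¹) (x l) = x l := by
    intro l hli hlk
    simp only [MulAut.mul_apply, Cinv_apply_ne hlk, R_apply_ne hli, L_apply_ne hlk]
  generalize R i (x k) * L k (x i) * R i (x k) * (C k (x i))⁻¹ = s at si sk sl
  refine A_ext fun l => ?_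
  simp only [MulAut.mul_apply]
  by_cases hli : l = i
  · subst hli
    rw [C_apply_self, kill_ne hij.symm, si, C_apply_self, kill_ne hjk, map_mul, map_mul, map_inv,
      si, sl j hij.symm hjk]
  · by_cases hlk : l = k
    · subst hlk
      rw [C_apply_ne hli, sk, map_inv, C_apply_ne hik]
    · rw [C_apply_ne hli, sl l hli hlk, C_apply_ne hlk]

theorem C_eq_C (hT : ∀ i j : Fin n, i ≠ j → q (R i (x j)) ^ 2 = 1) {i j k : Fin n} (hij : i ≠ j)
    (hik : i ≠ k) (hjk : j ≠ k) : q (C i (x j)) = q (C k (x j)) := by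
  have h1 : Commute (q (C i (x j))) (q (R i (x k))) := C_R_comm q hT i _ _
  have h2 : Commute (q (C i (x j))) (q (R k (x i))) := by
    have h := congrArg q (R_conj_C_loop (i := i) (j := k) hik (x_mem_O hij.symm) (x_mem_O hjk))
    rw [map_mul q (C i (x j)), R_gam q hT, mul_one, map_mul, map_mul, map_inv,
      mul_inv_eq_iff_eq_mul] at h
    exact h.symm
  have h3 : Commute (q (C i (x j))) (q (C k (x i))) := by
    have h := congrArg q (C_conj_C (i := k) (j := i) hik.symm (x_mem_O hjk) (x i))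
    rw [C_apply_self, kill_ne hij.symm, map_mul q, map_mul q, map_inv q, map_mul (C k),
      map_mul (C k), map_inv (C k), map_mul q, map_mul q, map_inv q,
      (C_comm q hT k (x j) (x i)).inv_left.eq, inv_mul_cancel_right, mul_inv_eq_iff_eq_mul] at h
    exact h
  have h4 : Commute (q (C i (x j))) (q (L k (x i))) := by
    rw [L_eq, map_mul, map_inv]
    exact h3.mul_right h2.inv_right
  have h5 := congrArg q (s_conj hij hik hjk)
  have h6 : Commute (q (C i (x j))) (q (R i (x k) * L k (x i) * R i (x k) * (C k (x i))⁻¹)) := by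
    rw [map_mul, map_mul, map_mul, map_inv]
    exact ((h1.mul_right h4).mul_right h1).mul_right h3.inv_right
  rw [map_mul q _ (C i (x j)), map_mul q (C k (x j)), ← h6.eq] at h5
  exact mul_right_cancel h5

end

/-! ### detection -/

/-- a power of an element of order two, as a homomorphism -/
def pw {Q : Type*} [Group Q] (g : Q) (hg : g ^ 2 = 1) : Multiplicative (ZMod 2) →* Q where
  toFun y := g ^ (Multiplicative.toAdd y).val
  map_one' := by
    show g ^ (0 : ZMod 2).val = 1
    rw [ZMod.val_zero, pow_zero]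
  map_mul' a b := by
    have : Fact (Nat.Prime 2) := ⟨Nat.prime_two⟩
    rw [toAdd_mul, ← pow_add]
    exact SQ.pow_val hg (by rw [Nat.cast_add, ZMod.natCast_zmod_val, ZMod.natCast_zmod_val])

theorem pw_one {Q : Type*} [Group Q] (g : Q) (hg : g ^ 2 = 1) :
    pw g hg (Multiplicative.ofAdd 1) = g := by
  show g ^ (1 : ZMod 2).val = g
  rw [show (1 : ZMod 2).val = 1 from rfl, pow_one]

/-- the vector -/
def toB : (Fin n → Multiplicative (ZMod 2)) →* Multiplicative (Fin n → ZMod 2) where
  toFun b := Multiplicative.ofAdd (fun j => Multiplicative.toAdd (b j))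
  map_one' := rfl
  map_mul' _ _ := rfl

theorem toB_inj {b : Fin n → Multiplicative (ZMod 2)} (h : toB b = 1) : b = 1 := by
  funext j
  exact congrArg (fun f : Multiplicative (Fin n → ZMod 2) => Multiplicative.ofAdd
    (Multiplicative.toAdd f j)) h

theorem toB_single (j : Fin n) :
    toB (Pi.mulSingle j (Multiplicative.ofAdd (1 : ZMod 2))) = ab 2 (x j) := by
  have : ab 2 (x j) = Multiplicative.ofAdd (Pi.single j 1) := by simp [ab]
  rw [this]
  apply Multiplicative.toAdd.injective
  funext k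
  show Multiplicative.toAdd ((Pi.mulSingle j (Multiplicative.ofAdd (1 : ZMod 2)) :
    Fin n → Multiplicative (ZMod 2)) k) = (Pi.single j (1 : ZMod 2) : Fin n → ZMod 2) k
  by_cases hk : k = j
  · subst hk; rw [Pi.mulSingle_eq_same, Pi.single_eq_same]; rfl
  · rw [Pi.mulSingle_eq_of_ne hk, Pi.single_eq_of_ne hk]; rfl

theorem ab_inv (w : F n) : ab 2 w⁻¹ = ab 2 w := by
  rw [map_inv]
  apply Multiplicative.toAdd.injective
  rw [toAdd_inv]
  funext j
  rw [Pi.neg_apply]
  have h : ∀ a : ZMod 2, -a = a := by decide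
  exact h _

theorem mem_closure_of_O {i : Fin n} {w : F n} (hw : w ∈ O i) :
    w ∈ Subgroup.closure (FreeGroup.of '' {j : Fin n | j ≠ i}) := by
  rw [← kill_of_mem hw]
  have h : (⊤ : Subgroup (F n)) ≤
      (Subgroup.closure (FreeGroup.of '' {j : Fin n | j ≠ i})).comap (kill i) := by
    rw [← FreeGroup.closure_range_of, Subgroup.closure_le]
    rintro _ ⟨j, rfl⟩
    show kill i (x j) ∈ Subgroup.closure (FreeGroup.of '' {j : Fin n | j ≠ i})
    by_cases hj : j = i
    · subst hj; rw [kill_self]; exact Subgroup.one_mem _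
    · rw [kill_ne hj]; exact Subgroup.subset_closure ⟨j, hj, rfl⟩
  exact h (Subgroup.mem_top w)

theorem dJ_tv (k : Type) [CommRing k] (i : Fin n) (u v : F n) :
    Det.dJ k 2 (tv i u v) = Fox.br k (ab 2 (kill i u)⁻¹) := by
  refine Det.dJ_elem k 2 (i := i) (u := (kill i u)⁻¹) (v := kill i v)
    (fun j hj => tv_ne hj u v) (tv_self i u v) ?_ ?_
  · exact Subgroup.inv_mem _ (mem_closure_of_O (kill_mem i u))
  · exact mem_closure_of_O (kill_mem i v)

theorem J1_ab {g : A n} (hg : g ∈ J1 n) (w : F n) : ab 2 (g w) = ab 2 w := by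
  have h1 := SQ.ab_of_J1 2 hg
  have h2 : SA.abM 2 g = 1 := by
    have h3 : Matrix.toLin' (SA.abM 2 g) = 1 := h1
    apply Matrix.toLin'.injective
    rw [h3, Matrix.toLin'_one]
    rfl
  apply Multiplicative.toAdd.injective
  have h4 := SA.ab_apply 2 g w
  rw [h2, Matrix.one_mulVec] at h4
  exact h4

section main

variable {Q : Type*} [Group Q] (q : A n →* Q)

/-- the elements of `J1` have normal form modulo the squares of transvections -/
theorem J1_form (hn : 3 ≤ n) (hT : ∀ i j : Fin n, i ≠ j → q (R i (x j)) ^ 2 = 1) :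
    ∃ ψ : (Fin n → Multiplicative (ZMod 2)) →* Q, ∀ g ∈ J1 n,
      ∃ b, q g = ψ b ∧ Det.dJ (ZMod 2) 2 g = Fox.br (ZMod 2) (toB b) := by
  choose o ho1 ho2 using fun j : Fin n => third hn j j
  have hC : ∀ i j, i ≠ j → q (C i (x j)) = q (C (o j) (x j)) := by
    intro i j hij
    by_cases h : i = o j
    · rw [h]
    · exact C_eq_C q hT hij h (ho1 j).symm
  have hcm : ∀ j k, Commute (q (C (o j) (x j))) (q (C (o k) (x k))) := by
    intro j k
    obtain ⟨i, hi1, hi2⟩ := third hn j k
    rw [← hC i j hi1, ← hC i k hi2]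
    exact C_comm q hT i _ _
  let ψ : (Fin n → Multiplicative (ZMod 2)) →* Q := MonoidHom.noncommPiCoprod
    (fun j => pw (q (C (o j) (x j))) (C_sq q hT _ _))
    (fun j k _ a b => ((hcm j k).pow_left _).pow_right _)
  have hψ : ∀ j, ψ (Pi.mulSingle j (Multiplicative.ofAdd 1)) = q (C (o j) (x j)) := by
    intro j
    rw [MonoidHom.noncommPiCoprod_mulSingle, pw_one]
  refine ⟨ψ, fun g hg => ?_⟩
  have key : g ∈ J1 n ∧ ∃ b, q g = ψ b ∧ Det.dJ (ZMod 2) 2 g = Fox.br (ZMod 2) (toB b) := by
    unfold J1 at hg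
    induction hg using Subgroup.closure_induction with
    | mem g hg =>
      refine ⟨Subgroup.subset_closure hg, ?_⟩
      rcases hg with ⟨i, j, hij, rfl⟩ | ⟨i, j, k, hij, hik, hjk, rfl⟩
      · refine ⟨Pi.mulSingle j (Multiplicative.ofAdd 1), ?_, ?_⟩
        · rw [hψ, hC i j hij]
        · rw [C_def, dJ_tv, kill_ne hij.symm, ab_inv, toB_single]
      · refine ⟨1, ?_, ?_⟩
        · rw [R_gam q hT, map_one]
        · rw [R_def, dJ_tv, map_one, inv_one, map_one, map_one]
    | one =>
      exact ⟨(J1 n).one_mem, 1, by rw [map_one, map_one], by rw [Det.dJ_one, map_one, Fox.br_one]⟩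
    | mul a b _ _ ha hb =>
      obtain ⟨ha1, c, hc1, hc2⟩ := ha
      obtain ⟨hb1, d, hd1, hd2⟩ := hb
      refine ⟨(J1 n).mul_mem ha1 hb1, c * d, by rw [map_mul, map_mul, hc1, hd1], ?_⟩
      rw [Det.dJ_mul_of_trivial (ZMod 2) (J1_ab ha1), hc2, hd2, map_mul, Fox.br_mul]
    | inv a _ ha =>
      obtain ⟨ha1, c, hc1, hc2⟩ := ha
      refine ⟨(J1 n).inv_mem ha1, c⁻¹, by rw [map_inv, map_inv, hc1], ?_⟩
      have h1 := Det.dJ_mul_of_trivial (ZMod 2) (J1_ab ha1) a⁻¹
      rw [mul_inv_cancel, Det.dJ_one, hc2] at h1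
      rw [map_inv]
      calc Det.dJ (ZMod 2) 2 a⁻¹ = Fox.br (ZMod 2) (toB c)⁻¹ * (Fox.br (ZMod 2) (toB c) *
            Det.dJ (ZMod 2) 2 a⁻¹) := by rw [← mul_assoc, Fox.br_inv_mul, one_mul]
        _ = _ := by rw [← h1, mul_one]
  exact key.2

end main

theorem br_inj {B : Type} [Group B] {b : B} (h : Fox.br (ZMod 2) b = 1) : b = 1 := by
  have : Nontrivial (ZMod 2) := inferInstance
  rw [← Fox.br_one] at h
  exact MonoidAlgebra.of_injective h

end TwoAux

end Pool.Agent.CSP3
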